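import Mathlib

/-! # Project FT (MP_9c6401_al), definitions

`CF Γ K` : functions on a group `Γ` with values in `K`, on which `Γ` acts by conjugation,
`(g • f) x = f (g⁻¹ * x * g)`.

`HomOn K P Q` : the functions on `Γ` which vanish outside `P`, are additive on `P`
and vanish on `Q` (think of `Hom (P/Q, K)`).

`fixS ρ H` : vectors fixed by `H`; `movS ρ H` : span of the vectors `ρ h v - v`.
-/

namespace FT

universe u v w

/-- the normalizer of a subgroup -/
abbrev Nrm {Γ : Type u} [Group Γ] (R : Subgroup Γ) : Subgroup Γ := Subgroup.normalizer (R : Set Γ)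

/-- functions on `Γ` with the conjugation action of `Γ` -/
def CF (Γ : Type u) (K : Type v) : Type (max u v) := Γ → K

namespace CF

variable {Γ : Type u} {K : Type v}

instance [AddCommGroup K] : AddCommGroup (CF Γ K) := inferInstanceAs (AddCommGroup (Γ → K))

instance {R : Type w} [Semiring R] [AddCommGroup K] [Module R K] : Module R (CF Γ K) :=
  inferInstanceAs (Module R (Γ → K))

instance [Finite Γ] [Finite K] : Finite (CF Γ K) := inferInstanceAs (Finite (Γ → K))

@[ext] theorem ext {f g : CF Γ K} (h : ∀ x, f x = g x) : f = g := funext h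

@[simp] theorem zero_apply [AddCommGroup K] (x : Γ) : (0 : CF Γ K) x = 0 := rfl
@[simp] theorem add_apply [AddCommGroup K] (f g : CF Γ K) (x : Γ) : (f + g) x = f x + g x := rfl
@[simp] theorem neg_apply [AddCommGroup K] (f : CF Γ K) (x : Γ) : (-f) x = -f x := rfl
@[simp] theorem sub_apply [AddCommGroup K] (f g : CF Γ K) (x : Γ) : (f - g) x = f x - g x := rfl
@[simp] theorem cmul_apply {R : Type w} [Semiring R] [AddCommGroup K] [Module R K] (c : R)
    (f : CF Γ K) (x : Γ) : (c • f) x = c • f x := rfl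

theorem sum_apply {ι : Type w} [AddCommGroup K] (s : Finset ι) (f : ι → CF Γ K) (x : Γ) :
    (∑ i ∈ s, f i) x = ∑ i ∈ s, f i x := Finset.sum_apply x s f

variable [Group Γ]

instance : MulAction Γ (CF Γ K) where
  smul g f := fun x => f (g⁻¹ * x * g)
  one_smul f := by
    funext x
    change f ((1 : Γ)⁻¹ * x * 1) = f x
    simp
  mul_smul a b f := by
    funext x
    change f ((a * b)⁻¹ * x * (a * b)) = f (b⁻¹ * (a⁻¹ * x * a) * b)
    congr 1
    group

@[simp] theorem act_apply (g : Γ) (f : CF Γ K) (x : Γ) : (g • f) x = f (g⁻¹ * x * g) := rfl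

instance [AddCommGroup K] : DistribMulAction Γ (CF Γ K) where
  smul_zero g := by ext x; rfl
  smul_add g f h := by ext x; rfl

instance {R : Type w} [Semiring R] [AddCommGroup K] [Module R K] :
    SMulCommClass Γ R (CF Γ K) where
  smul_comm g c f := by ext x; rfl

/-- the action of one element as a linear map -/
def lin (R : Type w) [Semiring R] [AddCommGroup K] [Module R K] (g : Γ) :
    CF Γ K →ₗ[R] CF Γ K where
  toFun f := g • f
  map_add' f h := smul_add g f h
  map_smul' c f := smul_comm g c f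

end CF

section HomOn

variable {Γ : Type u} [Group Γ] {K : Type v} [CommRing K]

/-- `Hom (P/Q, K)` as functions on `Γ` (zero outside `P`, additive on `P`, zero on `Q`) -/
def HomOn (K : Type v) [CommRing K] (P Q : Subgroup Γ) : Submodule K (CF Γ K) where
  carrier := {f | (∀ x, x ∉ P → f x = 0) ∧ (∀ x ∈ P, ∀ y ∈ P, f (x * y) = f x + f y) ∧
    ∀ x ∈ Q, f x = 0}
  zero_mem' := by simp
  add_mem' := by
    rintro f g ⟨h1, h2, h3⟩ ⟨k1, k2, k3⟩
    refine ⟨fun x hx => ?_, fun x hx y hy => ?_, fun x hx => ?_⟩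
    · simp [h1 x hx, k1 x hx]
    · simp only [CF.add_apply, h2 x hx y hy, k2 x hx y hy]; ring
    · simp [h3 x hx, k3 x hx]
  smul_mem' := by
    rintro c f ⟨h1, h2, h3⟩
    refine ⟨fun x hx => ?_, fun x hx y hy => ?_, fun x hx => ?_⟩
    · simp [h1 x hx]
    · simp only [CF.cmul_apply, h2 x hx y hy, smul_eq_mul]; ring
    · simp [h3 x hx]

theorem mem_HomOn {P Q : Subgroup Γ} {f : CF Γ K} : f ∈ HomOn K P Q ↔
    (∀ x, x ∉ P → f x = 0) ∧ (∀ x ∈ P, ∀ y ∈ P, f (x * y) = f x + f y) ∧
    ∀ x ∈ Q, f x = 0 := Iff.rfl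

end HomOn

section Rep

variable {G : Type u} [Group G] {k : Type v} [Field k] {V : Type w} [AddCommGroup V] [Module k V]

/-- vectors fixed by the subgroup `H` -/
def fixS (ρ : Representation k G V) (H : Subgroup G) : Submodule k V where
  carrier := {v | ∀ h ∈ H, ρ h v = v}
  zero_mem' := by simp
  add_mem' := by
    intro a b ha hb h hh
    rw [map_add, ha h hh, hb h hh]
  smul_mem' := by
    intro c a ha h hh
    rw [map_smul, ha h hh]

/-- the span `[V, H]` of the vectors `ρ h v - v` -/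
def movS (ρ : Representation k G V) (H : Subgroup G) : Submodule k V :=
  Submodule.span k {w | ∃ h ∈ H, ∃ v, w = ρ h v - v}

theorem mem_fixS {ρ : Representation k G V} {H : Subgroup G} {v : V} :
    v ∈ fixS ρ H ↔ ∀ h ∈ H, ρ h v = v := Iff.rfl

/-- `S` is a simple `R`-submodule -/
def SimpleSub (ρ : Representation k G V) (R : Subgroup G) (S : Submodule k V) : Prop :=
  S ≠ ⊥ ∧ (∀ r ∈ R, ∀ x ∈ S, ρ r x ∈ S) ∧
    ∀ S' : Submodule k V, S' ≤ S → (∀ r ∈ R, ∀ x ∈ S', ρ r x ∈ S') → S' = ⊥ ∨ S' = S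

/-- `R`-homomorphisms from the submodule `S` to the submodule `T` -/
def RHom (ρ : Representation k G V) (R : Subgroup G) (S T : Submodule k V) :
    Submodule k (S →ₗ[k] V) where
  carrier := {φ | (∀ x, φ x ∈ T) ∧ ∀ r ∈ R, ∀ (x : V) (hx : x ∈ S) (hx' : ρ r x ∈ S),
    φ ⟨ρ r x, hx'⟩ = ρ r (φ ⟨x, hx⟩)}
  zero_mem' := by simp
  add_mem' := by
    rintro a b ⟨h1, h2⟩ ⟨k1, k2⟩
    refine ⟨fun x => T.add_mem (h1 x) (k1 x), fun r hr x hx hx' => ?_⟩
    simp only [LinearMap.add_apply, h2 r hr x hx hx', k2 r hr x hx hx', map_add]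
  smul_mem' := by
    rintro c a ⟨h1, h2⟩
    refine ⟨fun x => T.smul_mem c (h1 x), fun r hr x hx hx' => ?_⟩
    simp only [LinearMap.smul_apply, h2 r hr x hx hx', map_smul]

/-- the elements of `R` which act trivially on `S` -/
def cenSub (ρ : Representation k G V) (R : Subgroup G) (S : Submodule k V) : Subgroup G where
  carrier := {r | r ∈ R ∧ ∀ x ∈ S, ρ r x = x}
  one_mem' := ⟨R.one_mem, by simp⟩
  mul_mem' := by
    rintro a b ⟨ha, ha'⟩ ⟨hb, hb'⟩
    refine ⟨R.mul_mem ha hb, fun x hx => ?_⟩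
    rw [map_mul, Module.End.mul_apply, hb' x hx, ha' x hx]
  inv_mem' := by
    rintro a ⟨ha, ha'⟩
    refine ⟨R.inv_mem ha, fun x hx => ?_⟩
    have h1 : ρ a⁻¹ (ρ a x) = x := by
      rw [← Module.End.mul_apply, ← map_mul, inv_mul_cancel, map_one, Module.End.one_apply]
    rwa [ha' x hx] at h1

end Rep

end FT
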