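import Mathlib
import Pool.Agent.helper11.FT.Defs

/-! # FT-DualCount: counting in an elementary abelian section and its dual -/

namespace FT

universe u

open scoped commutatorElement

/-- a model of the section `R/A` as a vector space -/
private theorem exists_model {Γ : Type u} [Group Γ] [Finite Γ] (r : ℕ) [Fact r.Prime]
    (R A : Subgroup Γ) (hRA : R ≤ Nrm A) (hpow : ∀ x ∈ R, x ^ r ∈ A)
    (hcomm : ∀ x ∈ R, ∀ y ∈ R, ⁅x, y⁆ ∈ A) :
    ∃ (V : Type u) (_ : AddCommGroup V) (_ : Module (ZMod r) V) (_ : Finite V)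
      (p : R →* Multiplicative V), Function.Surjective p ∧
      ∀ x : R, p x = 1 ↔ (x : Γ) ∈ A := by
  have hn : (A.subgroupOf R).Normal := by
    refine ⟨fun a ha x => ?_⟩
    rw [Subgroup.mem_subgroupOf] at ha ⊢
    have := (Subgroup.mem_normalizer_iff.mp (hRA x.2) (a : Γ)).mp ha
    simpa using this
  have hc : ∀ x y : R ⧸ A.subgroupOf R, x * y = y * x := by
    intro x y
    induction x using QuotientGroup.induction_on with
    | H x =>
      induction y using QuotientGroup.induction_on with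
      | H y =>
        rw [← QuotientGroup.mk_mul, ← QuotientGroup.mk_mul, QuotientGroup.eq,
          Subgroup.mem_subgroupOf]
        have h1 := hcomm _ (R.inv_mem y.2) _ (R.inv_mem x.2)
        have h2 : (((x * y)⁻¹ * (y * x) : R) : Γ) = ⁅(y : Γ)⁻¹, (x : Γ)⁻¹⁆ := by
          simp [commutatorElement_def, mul_assoc]
        rw [h2]
        exact h1
  let : CommGroup (R ⧸ A.subgroupOf R) := { mul_comm := hc }
  have hz : ∀ v : Additive (R ⧸ A.subgroupOf R), r • v = 0 := by
    intro v
    induction v using Additive.rec with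
    | _ v =>
      rw [← ofMul_pow, ofMul_eq_zero]
      induction v using QuotientGroup.induction_on with
      | H x =>
        rw [← QuotientGroup.mk_pow, QuotientGroup.eq_one_iff, Subgroup.mem_subgroupOf]
        simpa using hpow _ x.2
  let : Module (ZMod r) (Additive (R ⧸ A.subgroupOf R)) := AddCommGroup.zmodModule hz
  refine ⟨Additive (R ⧸ A.subgroupOf R), inferInstance, inferInstance, inferInstance,
    (QuotientGroup.mk' (A.subgroupOf R)), ?_, ?_⟩
  · exact QuotientGroup.mk'_surjective _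
  · intro x
    have := QuotientGroup.eq_one_iff (N := A.subgroupOf R) x
    rw [Subgroup.mem_subgroupOf] at this
    exact this

/-- factorisation through a surjective homomorphism -/
private theorem factor (r : ℕ) {G : Type*} [Group G] {V W : Type*} [AddCommGroup V]
    [Module (ZMod r) V] [AddCommGroup W] [Module (ZMod r) W] (p : G →* Multiplicative V)
    (hp : Function.Surjective p) (q : G →* Multiplicative W) (h : ∀ x, p x = 1 → q x = 1) :
    ∃ L : V →ₗ[ZMod r] W, ∀ x, L (Multiplicative.toAdd (p x)) = Multiplicative.toAdd (q x) := by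
  let L0 : Multiplicative V →* Multiplicative W := p.liftOfSurjective hp ⟨q, fun x hx => h x hx⟩
  have hL0 : ∀ x, L0 (p x) = q x := fun x =>
    p.liftOfRightInverse_comp_apply _ (Function.rightInverse_surjInv hp) ⟨q, fun x hx => h x hx⟩ x
  let L1 : V →+ W :=
    { toFun := fun v => Multiplicative.toAdd (L0 (Multiplicative.ofAdd v))
      map_zero' := by
        rw [ofAdd_zero, map_one, toAdd_one]
      map_add' := by
        intro a b
        rw [ofAdd_add, map_mul, toAdd_mul] }
  refine ⟨L1.toZModLinearMap r, fun x => ?_⟩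
  exact congrArg Multiplicative.toAdd (hL0 x)

/-- the function attached to a linear form -/
private noncomputable def mkF {Γ : Type u} [Group Γ] (r : ℕ) (R : Subgroup Γ) {V : Type u}
    [AddCommGroup V] [Module (ZMod r) V] (p : R →* Multiplicative V)
    (φ : Module.Dual (ZMod r) V) : CF Γ (ZMod r) := by
  classical
  exact fun x => if h : x ∈ R then φ (Multiplicative.toAdd (p ⟨x, h⟩)) else 0

private theorem mkF_mem {Γ : Type u} [Group Γ] (r : ℕ) (R : Subgroup Γ) {V : Type u}
    [AddCommGroup V] [Module (ZMod r) V] (p : R →* Multiplicative V)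
    (φ : Module.Dual (ZMod r) V) {x : Γ} (h : x ∈ R) :
    mkF r R p φ x = φ (Multiplicative.toAdd (p ⟨x, h⟩)) := by
  unfold mkF
  exact dif_pos h

private theorem mkF_not {Γ : Type u} [Group Γ] (r : ℕ) (R : Subgroup Γ) {V : Type u}
    [AddCommGroup V] [Module (ZMod r) V] (p : R →* Multiplicative V)
    (φ : Module.Dual (ZMod r) V) {x : Γ} (h : x ∉ R) :
    mkF r R p φ x = 0 := by
  unfold mkF
  exact dif_neg h

private theorem mkF_HomOn {Γ : Type u} [Group Γ] (r : ℕ) (R A : Subgroup Γ) (hAR : A ≤ R)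
    {V : Type u} [AddCommGroup V] [Module (ZMod r) V] (p : R →* Multiplicative V)
    (hk : ∀ x : R, p x = 1 ↔ (x : Γ) ∈ A)
    (φ : Module.Dual (ZMod r) V) : mkF r R p φ ∈ HomOn (ZMod r) R A := by
  refine ⟨fun x hx => mkF_not r R p φ hx, fun x hx y hy => ?_, fun x hx => ?_⟩
  · rw [mkF_mem r R p φ hx, mkF_mem r R p φ hy, mkF_mem r R p φ (R.mul_mem hx hy)]
    have : (⟨x * y, R.mul_mem hx hy⟩ : R) = ⟨x, hx⟩ * ⟨y, hy⟩ := rfl
    rw [this, map_mul, toAdd_mul, map_add]
  · rw [mkF_mem r R p φ (hAR hx), (hk ⟨x, hAR hx⟩).mpr hx, toAdd_one, map_zero]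

private theorem mkF_inj {Γ : Type u} [Group Γ] (r : ℕ) (R : Subgroup Γ)
    {V : Type u} [AddCommGroup V] [Module (ZMod r) V] (p : R →* Multiplicative V)
    (hp : Function.Surjective p) : Function.Injective (mkF r R p) := by
  intro φ ψ h
  apply LinearMap.ext
  intro v
  obtain ⟨x, hx⟩ := hp (Multiplicative.ofAdd v)
  have h1 := congrFun h (x : Γ)
  rw [mkF_mem r R p φ x.2, mkF_mem r R p ψ x.2] at h1
  have h2 : (⟨(x : Γ), x.2⟩ : R) = x := rfl
  rw [h2, hx] at h1
  exact h1

private theorem mkF_surj {Γ : Type u} [Group Γ] (r : ℕ) (R A : Subgroup Γ)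
    {V : Type u} [AddCommGroup V] [Module (ZMod r) V] (p : R →* Multiplicative V)
    (hp : Function.Surjective p) (hk : ∀ x : R, p x = 1 ↔ (x : Γ) ∈ A)
    {f : CF Γ (ZMod r)} (hf : f ∈ HomOn (ZMod r) R A) : ∃ φ, mkF r R p φ = f := by
  obtain ⟨h1, h2, h3⟩ := hf
  have h0 : f 1 = 0 := h3 1 A.one_mem
  let q : R →* Multiplicative (ZMod r) :=
    { toFun := fun x => Multiplicative.ofAdd (f x)
      map_one' := by
        rw [Subgroup.coe_one, h0]
        rfl
      map_mul' := by
        intro x y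
        rw [Subgroup.coe_mul, h2 _ x.2 _ y.2, ofAdd_add] }
  have hq : ∀ x, p x = 1 → q x = 1 := by
    intro x hx
    have := h3 _ ((hk x).mp hx)
    change Multiplicative.ofAdd (f x) = 1
    rw [this]
    rfl
  obtain ⟨L, hL⟩ := factor r p hp q hq
  refine ⟨L, ?_⟩
  funext x
  by_cases hx : x ∈ R
  · rw [mkF_mem r R p L hx, hL]
    rfl
  · rw [mkF_not r R p L hx, h1 x hx]

private theorem card_dual (r : ℕ) [Fact r.Prime] {V : Type u} [AddCommGroup V]
    [Module (ZMod r) V] [Finite V] : Nat.card (Module.Dual (ZMod r) V) = Nat.card V := by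
  have : Module.Finite (ZMod r) V := Module.Finite.of_finite
  rw [Module.natCard_eq_pow_finrank (K := ZMod r) (V := Module.Dual (ZMod r) V),
    Module.natCard_eq_pow_finrank (K := ZMod r) (V := V), Subspace.dual_finrank_eq]

private theorem card_comap {G H : Type*} [Group G] [Group H] [Finite G] [Finite H] (f : G →* H)
    (hf : Function.Surjective f) (W : Subgroup H) :
    Nat.card (W.comap f) = Nat.card f.ker * Nat.card W := by
  have h1 := Subgroup.card_mul_index (W.comap f)
  rw [Subgroup.index_comap_of_surjective _ hf] at h1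
  have h2 := Subgroup.card_mul_index W
  have h3 := Subgroup.card_mul_index f.ker
  rw [Subgroup.index_ker, MonoidHom.range_eq_top.mpr hf, Subgroup.card_top] at h3
  have h4 : 0 < W.index := Nat.pos_of_ne_zero Subgroup.index_ne_zero_of_finite
  apply Nat.eq_of_mul_eq_mul_right h4
  rw [h1, ← h3, mul_assoc, h2]

private theorem card_ker {Γ : Type u} [Group Γ] {R A : Subgroup Γ} (hAR : A ≤ R)
    {V : Type u} [AddCommGroup V] (p : R →* Multiplicative V)
    (hk : ∀ x : R, p x = 1 ↔ (x : Γ) ∈ A) : Nat.card p.ker = Nat.card A := by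
  have : p.ker = A.subgroupOf R := by
    ext x
    rw [MonoidHom.mem_ker, Subgroup.mem_subgroupOf]
    exact hk x
  rw [this]
  exact Nat.card_congr (Subgroup.subgroupOfEquivOfLe hAR).toEquiv

private theorem card_R {Γ : Type u} [Group Γ] [Finite Γ] {R A : Subgroup Γ} (hAR : A ≤ R)
    {V : Type u} [AddCommGroup V] [Finite V] (p : R →* Multiplicative V)
    (hp : Function.Surjective p)
    (hk : ∀ x : R, p x = 1 ↔ (x : Γ) ∈ A) : Nat.card V * Nat.card A = Nat.card R := by
  have h1 := card_comap p hp ⊤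
  rw [Subgroup.comap_top, Subgroup.card_top, Subgroup.card_top, card_ker hAR p hk] at h1
  rw [h1, mul_comm]
  rfl

/-- `|Hom(R/A, F_r)| |A| = |R|` for an elementary abelian section (Mathlib: the dual of a finite
dimensional vector space has the same dimension; `Additive (R ⧸ A.subgroupOf R)` is a vector space
over `ZMod r`, `AddCommGroup.zmodModule`). -/
theorem card_HomOn {Γ : Type u} [Group Γ] [Finite Γ] (r : ℕ) [Fact r.Prime] (R A : Subgroup Γ)
    (hAR : A ≤ R) (hRA : R ≤ Nrm A) (hpow : ∀ x ∈ R, x ^ r ∈ A)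
    (hcomm : ∀ x ∈ R, ∀ y ∈ R, ⁅x, y⁆ ∈ A) :
    Nat.card (HomOn (ZMod r) R A) * Nat.card A = Nat.card R := by
  obtain ⟨V, _, _, _, p, hp, hk⟩ := exists_model r R A hRA hpow hcomm
  have h1 : Nat.card (HomOn (ZMod r) R A) = Nat.card V := by
    rw [← card_dual r (V := V)]
    symm
    apply Nat.card_congr
    refine Equiv.ofBijective (fun φ => ⟨mkF r R p φ, mkF_HomOn r R A hAR p hk φ⟩) ⟨?_, ?_⟩
    · intro φ ψ h
      exact mkF_inj r R p hp (congrArg Subtype.val h)
    · rintro ⟨f, hf⟩
      obtain ⟨φ, hφ⟩ := mkF_surj r R A p hp hk hf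
      exact ⟨φ, Subtype.ext hφ⟩
  rw [h1]
  exact card_R hAR p hp hk

/-- Fixed points of one element on `R/A` and on its dual (no coprimality):
`|{x ∈ R | ⁅x,g⁆ ∈ A}| |Hom(R/A,F_r)| = |R| |{f ∈ Hom(R/A,F_r) | g f = f}|`.
PROOF. `g` acts on the finite vector space `V = R/A` over `ZMod r` as an automorphism `T`; the
number of fixed vectors of `T` is `r^(dim ker (T - 1))` and that of the dual map is
`r^(dim ker (T* - 1))`, equal since a matrix and its transpose have the same rank. Use
`card_HomOn`. -/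
theorem card_fix_dual {Γ : Type u} [Group Γ] [Finite Γ] (r : ℕ) [Fact r.Prime] (R A : Subgroup Γ)
    (hAR : A ≤ R) (hRA : R ≤ Nrm A) (hpow : ∀ x ∈ R, x ^ r ∈ A)
    (hcomm : ∀ x ∈ R, ∀ y ∈ R, ⁅x, y⁆ ∈ A) (g : Γ) (hg : g ∈ Nrm R) (hgA : g ∈ Nrm A) :
    Nat.card {x : Γ // x ∈ R ∧ ⁅x, g⁆ ∈ A} * Nat.card (HomOn (ZMod r) R A) =
      Nat.card R * Nat.card {f : CF Γ (ZMod r) // f ∈ HomOn (ZMod r) R A ∧ g • f = f} := by
  have hH := card_HomOn r R A hAR hRA hpow hcomm
  obtain ⟨V, _, _, _, p, hp, hk⟩ := exists_model r R A hRA hpow hcomm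
  have : Module.Finite (ZMod r) V := Module.Finite.of_finite
  have hV := card_R hAR p hp hk
  have hgR : ∀ x, x ∈ R ↔ g⁻¹ * x * g ∈ R := fun x =>
    (Subgroup.mem_normalizer_iff''.mp hg x)
  have hgA' : ∀ x, x ∈ A ↔ g⁻¹ * x * g ∈ A := fun x =>
    (Subgroup.mem_normalizer_iff''.mp hgA x)
  -- the automorphism
  let c : R →* R :=
    { toFun := fun x => ⟨g⁻¹ * x * g, (hgR x).mp x.2⟩
      map_one' := by
        apply Subtype.ext
        simp
      map_mul' := by
        intro x y
        apply Subtype.ext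
        simp [mul_assoc] }
  obtain ⟨T, hT⟩ := factor r p hp (p.comp c) (by
    intro x hx
    rw [MonoidHom.comp_apply, hk]
    exact (hgA' x).mp ((hk x).mp hx))
  have hT' : ∀ x : R, T (Multiplicative.toAdd (p x)) = Multiplicative.toAdd (p (c x)) := hT
  -- fixed points of `T`
  set S : V →ₗ[ZMod r] V := T - LinearMap.id with hS
  have e1 : Nat.card {x : Γ // x ∈ R ∧ ⁅x, g⁆ ∈ A} = Nat.card A * Nat.card (LinearMap.ker S) := by
    have h1 := card_comap p hp (AddSubgroup.toSubgroup (LinearMap.ker S).toAddSubgroup)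
    rw [card_ker hAR p hk] at h1
    have h2 : Nat.card (AddSubgroup.toSubgroup (LinearMap.ker S).toAddSubgroup) =
        Nat.card (LinearMap.ker S) := rfl
    rw [h2] at h1
    rw [← h1]
    have key : ∀ x : R, x ∈ (AddSubgroup.toSubgroup (LinearMap.ker S).toAddSubgroup).comap p ↔
        ⁅(x : Γ), g⁆ ∈ A := by
      intro x
      have a1 : x ∈ (AddSubgroup.toSubgroup (LinearMap.ker S).toAddSubgroup).comap p ↔
          Multiplicative.toAdd (p x) ∈ LinearMap.ker S := Iff.rfl
      rw [a1, LinearMap.mem_ker, hS, LinearMap.sub_apply, LinearMap.id_apply, sub_eq_zero, hT']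
      have a2 : (Multiplicative.toAdd (p (c x)) = Multiplicative.toAdd (p x)) ↔
          p (c x) = p x := Iff.rfl
      rw [a2, ← div_eq_one, ← map_div, hk]
      have a3 : ((c x / x : R) : Γ) = g⁻¹ * x * g * (x : Γ)⁻¹ := by
        rw [div_eq_mul_inv]
        rfl
      rw [a3, hgA' ⁅(x : Γ), g⁆]
      have a4 : g⁻¹ * ⁅(x : Γ), g⁆ * g = (g⁻¹ * x * g * (x : Γ)⁻¹) := by
        rw [commutatorElement_def]
        group
      rw [a4]
    apply Nat.card_congr
    exact
      { toFun := fun x => ⟨⟨x.1, x.2.1⟩, (key _).mpr x.2.2⟩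
        invFun := fun x => ⟨x.1.1, x.1.2, (key _).mp x.2⟩
        left_inv := fun x => rfl
        right_inv := fun x => rfl }
  have e2 : Nat.card {f : CF Γ (ZMod r) // f ∈ HomOn (ZMod r) R A ∧ g • f = f} =
      Nat.card (LinearMap.ker S.dualMap) := by
    have key : ∀ φ : Module.Dual (ZMod r) V, φ ∈ LinearMap.ker S.dualMap ↔
        g • mkF r R p φ = mkF r R p φ := by
      intro φ
      rw [LinearMap.mem_ker]
      constructor
      · intro h
        ext x
        rw [CF.act_apply]
        by_cases hx : x ∈ R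
        · rw [mkF_mem r R p φ hx, mkF_mem r R p φ ((hgR x).mp hx)]
          have h1 := LinearMap.congr_fun h (Multiplicative.toAdd (p ⟨x, hx⟩))
          rw [LinearMap.dualMap_apply, hS, LinearMap.sub_apply, LinearMap.id_apply, hT',
            map_sub, LinearMap.zero_apply, sub_eq_zero] at h1
          exact h1
        · rw [mkF_not r R p φ hx, mkF_not r R p φ (fun h' => hx ((hgR x).mpr h'))]
      · intro h
        apply LinearMap.ext
        intro v
        obtain ⟨x, hx⟩ := hp (Multiplicative.ofAdd v)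
        have h1 := congrFun h (x : Γ)
        have h2 : (g • mkF r R p φ) (x : Γ) = mkF r R p φ (g⁻¹ * x * g) := rfl
        rw [h2, mkF_mem r R p φ x.2, mkF_mem r R p φ ((hgR x).mp x.2)] at h1
        have h3 : v = Multiplicative.toAdd (p x) := by rw [hx]; rfl
        rw [LinearMap.dualMap_apply, hS, LinearMap.sub_apply, LinearMap.id_apply, h3, hT',
            map_sub, LinearMap.zero_apply, sub_eq_zero]
        exact h1
    symm
    apply Nat.card_congr
    refine Equiv.ofBijective (fun φ => ⟨mkF r R p φ.1, mkF_HomOn r R A hAR p hk φ.1,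
      (key φ.1).mp φ.2⟩) ⟨?_, ?_⟩
    · intro φ ψ h
      exact Subtype.ext (mkF_inj r R p hp (congrArg Subtype.val h))
    · rintro ⟨f, hf, hf'⟩
      obtain ⟨φ, hφ⟩ := mkF_surj r R A p hp hk hf
      refine ⟨⟨φ, (key φ).mpr (by rw [hφ]; exact hf')⟩, Subtype.ext hφ⟩
  have e3 : Nat.card (LinearMap.ker S.dualMap) = Nat.card (LinearMap.ker S) := by
    rw [Module.natCard_eq_pow_finrank (K := ZMod r) (V := LinearMap.ker S.dualMap),
      Module.natCard_eq_pow_finrank (K := ZMod r) (V := LinearMap.ker S)]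
    congr 1
    have h1 := LinearMap.finrank_range_add_finrank_ker S
    have h2 := LinearMap.finrank_range_add_finrank_ker S.dualMap
    rw [LinearMap.finrank_range_dualMap_eq_finrank_range, Subspace.dual_finrank_eq] at h2
    omega
  have h5 : 0 < Nat.card A := Nat.card_pos
  have h6 : Nat.card (HomOn (ZMod r) R A) = Nat.card V := by
    apply Nat.eq_of_mul_eq_mul_right h5
    rw [hH, hV]
  rw [e1, e2, e3, h6, ← hV]
  ring

/-- separation: an element of `R` killed by all `f ∈ Hom(R/A, F_r)` lies in `A`. More generally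
for a subgroup `C` with `A ≤ C ≤ R`: an element killed by all `f` vanishing on `C` is in `C`. -/
theorem sep_HomOn {Γ : Type u} [Group Γ] [Finite Γ] (r : ℕ) [Fact r.Prime] (R C : Subgroup Γ)
    (hCR : C ≤ R) (hRC : R ≤ Nrm C) (hpow : ∀ x ∈ R, x ^ r ∈ C)
    (hcomm : ∀ x ∈ R, ∀ y ∈ R, ⁅x, y⁆ ∈ C) (x : Γ) (hx : x ∈ R)
    (h : ∀ f ∈ HomOn (ZMod r) R C, f x = 0) : x ∈ C := by
  obtain ⟨V, _, _, _, p, hp, hk⟩ := exists_model r R C hRC hpow hcomm
  have h1 : ∀ φ : Module.Dual (ZMod r) V, φ (Multiplicative.toAdd (p ⟨x, hx⟩)) = 0 := by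
    intro φ
    rw [← mkF_mem r R p φ hx]
    exact h _ (mkF_HomOn r R C hCR p hk φ)
  have h2 := (Module.forall_dual_apply_eq_zero_iff (ZMod r) _).mp h1
  exact (hk ⟨x, hx⟩).mp h2

end FT
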