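import Mathlib
import Pool.Agent.helper11.FT.Defs

/-! # FT-HomBasic: basic facts on `CF` and `HomOn` -/

namespace FT

universe u v

open scoped commutatorElement

section Ring

variable {Γ : Type u} [Group Γ] {K : Type v} [CommRing K] {P Q : Subgroup Γ}

theorem act_mem_HomOn {g : Γ} (hP : g ∈ Nrm P) (hQ : g ∈ Nrm Q) {f : CF Γ K}
    (hf : f ∈ HomOn K P Q) : g • f ∈ HomOn K P Q := by
  obtain ⟨h1, h2, h3⟩ := mem_HomOn.1 hf
  have hP' := Subgroup.mem_normalizer_iff''.1 hP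
  have hQ' := Subgroup.mem_normalizer_iff''.1 hQ
  refine mem_HomOn.2 ⟨fun x hx => ?_, fun x hx y hy => ?_, fun x hx => ?_⟩
  · rw [CF.act_apply]
    exact h1 _ (fun h => hx ((hP' x).2 h))
  · rw [CF.act_apply, CF.act_apply, CF.act_apply,
      show g⁻¹ * (x * y) * g = (g⁻¹ * x * g) * (g⁻¹ * y * g) by group]
    exact h2 _ ((hP' x).1 hx) _ ((hP' y).1 hy)
  · rw [CF.act_apply]
    exact h3 _ ((hQ' x).1 hx)

theorem HomOn.one {f : CF Γ K} (hf : f ∈ HomOn K P Q) : f 1 = 0 := by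
  obtain ⟨-, h2, -⟩ := mem_HomOn.1 hf
  have h := h2 1 P.one_mem 1 P.one_mem
  rw [mul_one] at h
  simpa using h

theorem HomOn.inv {f : CF Γ K} (hf : f ∈ HomOn K P Q) {x : Γ} (hx : x ∈ P) :
    f x⁻¹ = - f x := by
  obtain ⟨-, h2, -⟩ := mem_HomOn.1 hf
  have h := h2 x hx x⁻¹ (P.inv_mem hx)
  rw [mul_inv_cancel, HomOn.one hf] at h
  exact (neg_eq_of_add_eq_zero_right h.symm).symm

theorem HomOn.comm {f : CF Γ K} (hf : f ∈ HomOn K P Q) {x y : Γ} (hx : x ∈ P) (hy : y ∈ P) :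
    f ⁅x, y⁆ = 0 := by
  obtain ⟨-, h2, -⟩ := mem_HomOn.1 hf
  rw [commutatorElement_def, h2 _ (P.mul_mem (P.mul_mem hx hy) (P.inv_mem hx)) _ (P.inv_mem hy),
    h2 _ (P.mul_mem hx hy) _ (P.inv_mem hx), h2 _ hx _ hy, HomOn.inv hf hx, HomOn.inv hf hy]
  ring

theorem HomOn.conj {f : CF Γ K} (hf : f ∈ HomOn K P Q) {x y : Γ} (hx : x ∈ P) (hy : y ∈ P) :
    f (x * y * x⁻¹) = f y := by
  obtain ⟨-, h2, -⟩ := mem_HomOn.1 hf
  rw [h2 _ (P.mul_mem hx hy) _ (P.inv_mem hx), h2 _ hx _ hy, HomOn.inv hf hx]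
  ring

/-- elements of `P` act trivially on `HomOn K P Q` -/
theorem HomOn.smul_eq {f : CF Γ K} (hf : f ∈ HomOn K P Q) {x : Γ} (hx : x ∈ P) : x • f = f := by
  obtain ⟨h1, -, -⟩ := mem_HomOn.1 hf
  ext y
  rw [CF.act_apply]
  by_cases hy : y ∈ P
  · have := HomOn.conj hf (P.inv_mem hx) hy
    rwa [inv_inv] at this
  · rw [h1 y hy]
    apply h1
    intro h
    apply hy
    have := P.mul_mem (P.mul_mem hx h) (P.inv_mem hx)
    rwa [show x * (x⁻¹ * y * x) * x⁻¹ = y by group] at this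

/-- `f` vanishes on `⁅P,P⁆ ⊔ Q` -/
theorem HomOn.zero_of_mem {f : CF Γ K} (hf : f ∈ HomOn K P Q) (hQ : Q ≤ P) {x : Γ}
    (hx : x ∈ ⁅P, P⁆ ⊔ Q) : f x = 0 := by
  obtain ⟨-, h2, h3⟩ := mem_HomOn.1 hf
  -- the kernel as a subgroup
  let T : Subgroup Γ :=
    { carrier := {x | x ∈ P ∧ f x = 0}
      one_mem' := ⟨P.one_mem, HomOn.one hf⟩
      mul_mem' := by
        rintro a b ⟨ha, ha'⟩ ⟨hb, hb'⟩
        exact ⟨P.mul_mem ha hb, by rw [h2 a ha b hb, ha', hb', add_zero]⟩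
      inv_mem' := by
        rintro a ⟨ha, ha'⟩
        exact ⟨P.inv_mem ha, by rw [HomOn.inv hf ha, ha', neg_zero]⟩ }
  have hle : ⁅P, P⁆ ⊔ Q ≤ T := by
    refine sup_le ?_ ?_
    · rw [Subgroup.commutator_le]
      intro a ha b hb
      refine ⟨?_, HomOn.comm hf ha hb⟩
      rw [commutatorElement_def]
      exact P.mul_mem (P.mul_mem (P.mul_mem ha hb) (P.inv_mem ha)) (P.inv_mem hb)
    · intro a ha
      exact ⟨hQ ha, h3 a ha⟩
  exact (hle hx).2

/-- `HomOn K P Q = HomOn K P (⁅P,P⁆ ⊔ Q)` -/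
theorem HomOn_eq (hQ : Q ≤ P) : HomOn K P Q = HomOn K P (⁅P, P⁆ ⊔ Q) := by
  ext f
  constructor
  · intro hf
    obtain ⟨h1, h2, -⟩ := mem_HomOn.1 hf
    exact mem_HomOn.2 ⟨h1, h2, fun x hx => HomOn.zero_of_mem hf hQ hx⟩
  · intro hf
    obtain ⟨h1, h2, h3⟩ := mem_HomOn.1 hf
    exact mem_HomOn.2 ⟨h1, h2, fun x hx => h3 x ((le_sup_right : Q ≤ ⁅P, P⁆ ⊔ Q) hx)⟩

/-- If `z = ⁅x,w⁆ ∈ Q` for all `w ∈ P` (e.g. `x` acts trivially on `P/Q`) then `x • f = f`;
here `x` normalises `P` and it suffices that the commutators are killed by `f`. -/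
theorem HomOn.smul_eq_of_comm {f : CF Γ K} (hf : f ∈ HomOn K P Q) {x : Γ} (hx : x ∈ Nrm P)
    (h : ∀ w ∈ P, f ⁅x, w⁆ = 0) : x • f = f := by
  obtain ⟨h1, h2, -⟩ := mem_HomOn.1 hf
  have hP' := Subgroup.mem_normalizer_iff''.1 hx
  ext w
  rw [CF.act_apply]
  by_cases hw : w ∈ P
  · have hw' : x⁻¹ * w * x ∈ P := (hP' w).1 hw
    have h4 := h _ hw'
    rw [commutatorElement_def,
      show x * (x⁻¹ * w * x) * x⁻¹ * (x⁻¹ * w * x)⁻¹ = w * (x⁻¹ * w * x)⁻¹ by group,
      h2 _ hw _ (P.inv_mem hw'), HomOn.inv hf hw'] at h4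
    exact (eq_of_sub_eq_zero (by rw [sub_eq_add_neg]; exact h4)).symm
  · rw [h1 w hw]
    exact h1 _ (fun h5 => hw ((hP' w).2 h5))

/-- conversely `x • f = f` gives `f ⁅x,w⁆ = 0` for `w ∈ P` -/
theorem HomOn.comm_eq_zero {f : CF Γ K} (hf : f ∈ HomOn K P Q) {x : Γ} (hx : x ∈ Nrm P)
    (h : x • f = f) {w : Γ} (hw : w ∈ P) : f ⁅x, w⁆ = 0 := by
  obtain ⟨-, h2, -⟩ := mem_HomOn.1 hf
  have hP' := Subgroup.mem_normalizer_iff.1 hx
  have hw' : x * w * x⁻¹ ∈ P := (hP' w).1 hw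
  have h4 : f (x * w * x⁻¹) = f w := by
    conv_lhs => rw [← h]
    rw [CF.act_apply, show x⁻¹ * (x * w * x⁻¹) * x = w by group]
  rw [commutatorElement_def, h2 _ hw' _ (P.inv_mem hw), h4, HomOn.inv hf hw, add_neg_cancel]

/-- the kernel of `f` in `P` -/
def kerH (P : Subgroup Γ) (f : CF Γ K) : Subgroup Γ :=
  Subgroup.closure {x | x ∈ P ∧ f x = 0}

theorem mem_kerH {f : CF Γ K} (hf : f ∈ HomOn K P Q) {x : Γ} :
    x ∈ kerH P f ↔ x ∈ P ∧ f x = 0 := by
  obtain ⟨-, h2, h3⟩ := mem_HomOn.1 hf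
  constructor
  · intro hx
    refine Subgroup.closure_induction (p := fun x _ => x ∈ P ∧ f x = 0) ?_ ?_ ?_ ?_ hx
    · intro x hx; exact hx
    · exact ⟨P.one_mem, HomOn.one hf⟩
    · rintro a b - - ⟨ha, ha'⟩ ⟨hb, hb'⟩
      exact ⟨P.mul_mem ha hb, by rw [h2 a ha b hb, ha', hb', add_zero]⟩
    · rintro a - ⟨ha, ha'⟩
      exact ⟨P.inv_mem ha, by rw [HomOn.inv hf ha, ha', neg_zero]⟩
  · intro hx
    exact Subgroup.subset_closure hx

/-- an element normalising `P` and fixing `f` normalises the kernel -/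
theorem mem_nrm_kerH {f : CF Γ K} (hf : f ∈ HomOn K P Q) {g : Γ} (hg : g ∈ Nrm P)
    (h : g • f = f) : g ∈ Nrm (kerH P f) := by
  rw [Subgroup.mem_normalizer_iff'']
  intro x
  rw [mem_kerH hf, mem_kerH hf, ← Subgroup.mem_normalizer_iff''.1 hg x]
  refine and_congr_right fun _ => ?_
  have h1 : f (g⁻¹ * x * g) = f x := by
    rw [← CF.act_apply g f x, h]
  rw [h1]

/-- `f : P/Q → F_p` nonzero, `x ∈ P` with `f x ≠ 0`: every element of `P` is `x ^ j * m`,
`m ∈ ker f`. So a function fixed by `ker f` and by `x` is fixed by `P`. -/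
theorem fix_of_gen {p : ℕ} [Fact p.Prime] {f : CF Γ (ZMod p)} (hf : f ∈ HomOn (ZMod p) P Q)
    {x : Γ} (hx : x ∈ P) (hfx : f x ≠ 0) {Ω : Type*} [MulAction Γ Ω] {ω : Ω}
    (h1 : ∀ z ∈ P, f z = 0 → z • ω = ω) (h2 : x • ω = ω) : ∀ z ∈ P, z • ω = ω := by
  intro z hz
  obtain ⟨-, hadd, -⟩ := mem_HomOn.1 hf
  have hpow : ∀ n : ℕ, f (x ^ n) = (n : ZMod p) * f x := by
    intro n
    induction n with
    | zero => simp [HomOn.one hf]
    | succ n ih =>
      rw [pow_succ, hadd _ (P.pow_mem hx n) _ hx, ih]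
      push_cast
      ring
  have hfixpow : ∀ n : ℕ, x ^ n • ω = ω := by
    intro n
    induction n with
    | zero => simp
    | succ n ih => rw [pow_succ, mul_smul, h2, ih]
  set n : ℕ := (f z * (f x)⁻¹).val with hn
  have hfn : f (x ^ n) = f z := by
    rw [hpow, hn, ZMod.natCast_val, ZMod.cast_id, mul_assoc, inv_mul_cancel₀ hfx, mul_one]
  have hz' : (x ^ n)⁻¹ * z ∈ P := P.mul_mem (P.inv_mem (P.pow_mem hx n)) hz
  have hfz' : f ((x ^ n)⁻¹ * z) = 0 := by
    rw [hadd _ (P.inv_mem (P.pow_mem hx n)) _ hz, HomOn.inv hf (P.pow_mem hx n), hfn]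
    ring
  have h5 := h1 _ hz' hfz'
  rw [mul_smul, inv_smul_eq_iff, hfixpow] at h5
  exact h5

end Ring

variable {Γ : Type u} [Group Γ] {K : Type v} [Field K] {P Q : Subgroup Γ} [Finite Γ]

/-- the averaging operator `|M|⁻¹ ∑_{m ∈ M} m` -/
noncomputable def avg (K : Type v) [Field K] (M : Subgroup Γ) : CF Γ K →ₗ[K] CF Γ K :=
  ((Nat.card M : K)⁻¹) • ∑ᶠ m : M, CF.lin (K := K) K (m : Γ)

theorem avg_apply (M : Subgroup Γ) (f : CF Γ K) :
    avg K M f = ((Nat.card M : K)⁻¹) • ∑ᶠ m : M, (m : Γ) • f := by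
  classical
  have : Fintype M := Fintype.ofFinite M
  rw [avg, LinearMap.smul_apply, finsum_eq_sum_of_fintype, finsum_eq_sum_of_fintype,
    LinearMap.sum_apply]
  rfl

theorem avg_fixed (M : Subgroup Γ) (f : CF Γ K) : ∀ m ∈ M, m • avg K M f = avg K M f := by
  classical
  have : Fintype M := Fintype.ofFinite M
  intro m hm
  rw [avg_apply, smul_comm, finsum_eq_sum_of_fintype, Finset.smul_sum]
  congr 1
  refine Fintype.sum_equiv (Equiv.mulLeft (⟨m, hm⟩ : M)) _ _ (fun a => ?_)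
  rw [Equiv.coe_mulLeft, Subgroup.coe_mul, mul_smul]

theorem avg_of_fixed (M : Subgroup Γ) (hM : (Nat.card M : K) ≠ 0) (f : CF Γ K)
    (hf : ∀ m ∈ M, m • f = f) : avg K M f = f := by
  classical
  have : Fintype M := Fintype.ofFinite M
  rw [avg_apply, finsum_eq_sum_of_fintype, Finset.sum_congr rfl (fun (m : M) _ => hf m m.2),
    Finset.sum_const, Finset.card_univ, ← Nat.card_eq_fintype_card, ← Nat.cast_smul_eq_nsmul K,
    smul_smul, inv_mul_cancel₀ hM, one_smul]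

theorem avg_smul (M : Subgroup Γ) (g : Γ) (hg : g ∈ Nrm M) (f : CF Γ K) :
    avg K M (g • f) = g • avg K M f := by
  classical
  have : Fintype M := Fintype.ofFinite M
  have h1 := Subgroup.mem_normalizer_iff''.1 hg
  have h2 := Subgroup.mem_normalizer_iff.1 hg
  let e : M ≃ M :=
    { toFun := fun m => ⟨g⁻¹ * m * g, (h1 m).1 m.2⟩
      invFun := fun m => ⟨g * m * g⁻¹, (h2 m).1 m.2⟩
      left_inv := fun m => Subtype.ext (by
        change g * (g⁻¹ * (m : Γ) * g) * g⁻¹ = m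
        group)
      right_inv := fun m => Subtype.ext (by
        change g⁻¹ * (g * (m : Γ) * g⁻¹) * g = m
        group) }
  have key : ∑ m : M, (m : Γ) • g • f = g • ∑ m : M, (m : Γ) • f := by
    rw [Finset.smul_sum]
    refine Fintype.sum_equiv e _ _ (fun a => ?_)
    change (a : Γ) • g • f = g • (g⁻¹ * (a : Γ) * g) • f
    rw [← mul_smul, ← mul_smul]
    congr 1
    group
  rw [avg_apply, avg_apply, smul_comm g, finsum_eq_sum_of_fintype, finsum_eq_sum_of_fintype, key]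

theorem avg_mem_HomOn (M : Subgroup Γ) (hP : M ≤ Nrm P) (hQ : M ≤ Nrm Q) {f : CF Γ K}
    (hf : f ∈ HomOn K P Q) : avg K M f ∈ HomOn K P Q := by
  classical
  have : Fintype M := Fintype.ofFinite M
  rw [avg_apply, finsum_eq_sum_of_fintype]
  exact Submodule.smul_mem _ _ (Submodule.sum_mem _ fun m _ =>
    act_mem_HomOn (hP m.2) (hQ m.2) hf)

/-- value of the average at a point of `P` whose commutators with `M` are killed by `f` -/
theorem avg_eval (M : Subgroup Γ) (hM : (Nat.card M : K) ≠ 0) {f : CF Γ K}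
    (hf : f ∈ HomOn K P Q) (hP : M ≤ Nrm P) {x : Γ} (hx : x ∈ P)
    (h : ∀ m ∈ M, f ⁅m, x⁆ = 0) : avg K M f x = f x := by
  classical
  have : Fintype M := Fintype.ofFinite M
  obtain ⟨-, hadd, -⟩ := mem_HomOn.1 hf
  have key : ∀ m : M, ((m : Γ) • f) x = f x := by
    intro m
    have hm' : (m : Γ)⁻¹ ∈ M := M.inv_mem m.2
    have h1 := h _ hm'
    have h2 : (m : Γ)⁻¹ * x * m ∈ P := (Subgroup.mem_normalizer_iff''.1 (hP m.2) x).1 hx
    rw [commutatorElement_def, inv_inv, hadd _ h2 _ (P.inv_mem hx), HomOn.inv hf hx] at h1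
    rw [CF.act_apply]
    exact eq_of_sub_eq_zero (by rw [sub_eq_add_neg]; exact h1)
  rw [avg_apply, finsum_eq_sum_of_fintype, CF.cmul_apply, CF.sum_apply,
    Finset.sum_congr rfl (fun m _ => key m), Finset.sum_const, Finset.card_univ,
    ← Nat.card_eq_fintype_card, ← Nat.cast_smul_eq_nsmul K, smul_smul, inv_mul_cancel₀ hM,
    one_smul]

omit [Finite Γ] in
/-- products of two permuted lists in `P` agree modulo `D` -/
private theorem perm_prod_mem (D P : Subgroup Γ) (hPD : P ≤ Nrm D) (hD : ⁅P, P⁆ ≤ D)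
    {l₁ l₂ : List Γ} (hl : l₁.Perm l₂) :
    (∀ x ∈ l₁, x ∈ P) → l₁.prod * l₂.prod⁻¹ ∈ D := by
  induction hl with
  | nil => intro _; simp [D.one_mem]
  | cons x _ ih =>
    intro hm
    have h1 := ih (fun y hy => hm y (List.mem_cons_of_mem _ hy))
    have h2 := (Subgroup.mem_normalizer_iff.1 (hPD (hm x List.mem_cons_self)) _).1 h1
    rw [List.prod_cons, List.prod_cons]
    convert h2 using 1
    group
  | swap x y l =>
    intro hm
    have hy : y ∈ P := hm y List.mem_cons_self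
    have hx : x ∈ P := hm x (List.mem_cons_of_mem _ List.mem_cons_self)
    have h1 := hD (Subgroup.commutator_mem_commutator hy hx)
    rw [List.prod_cons, List.prod_cons, List.prod_cons, List.prod_cons]
    convert h1 using 1
    rw [commutatorElement_def]
    group
  | trans h12 _ ih1 ih2 =>
    intro hm
    have h1 := ih1 hm
    have h2 := ih2 (fun y hy => hm y (h12.mem_iff.2 hy))
    have h3 := D.mul_mem h1 h2
    convert h3 using 1
    group

/-- `f` a homomorphism on `P` invariant under `M ≤ Nrm P`, `x ∈ P`: there is an element `c ∈ P`,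
fixed by `M` modulo `D` (if `⁅P,P⁆ ≤ D`), with `f c = |M| f x` for every `M`-invariant
`f ∈ HomOn K P D`: the product of the conjugates of `x` (in some order). -/
theorem exists_norm (M D : Subgroup Γ) (hP : M ≤ Nrm P) (hDP : D ≤ P) (hMD : M ≤ Nrm D)
    (hPD : P ≤ Nrm D) (hD : ⁅P, P⁆ ≤ D) (x : Γ) (hx : x ∈ P) :
    ∃ c ∈ P, (∀ m ∈ M, ⁅m, c⁆ ∈ D) ∧ ∀ f ∈ HomOn K P D, (∀ m ∈ M, m • f = f) →
      f c = (Nat.card M : K) * f x := by
  classical
  have : Fintype M := Fintype.ofFinite M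
  let cj : M → Γ := fun m => (m : Γ) * x * (m : Γ)⁻¹
  have hcj : ∀ m, cj m ∈ P := fun m => (Subgroup.mem_normalizer_iff.1 (hP m.2) x).1 hx
  let l : List M := (Finset.univ : Finset M).toList
  have hlP : ∀ (l' : List M), ∀ y ∈ l'.map cj, y ∈ P := by
    intro l' y hy
    obtain ⟨m, -, rfl⟩ := List.mem_map.1 hy
    exact hcj m
  refine ⟨(l.map cj).prod, P.list_prod_mem (hlP l), ?_, ?_⟩
  · intro m hm
    -- conjugation by `m` permutes the factors
    have hconj : ∀ l' : List M, m * (l'.map cj).prod * m⁻¹ =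
        ((l'.map (fun a => (⟨m, hm⟩ : M) * a)).map cj).prod := by
      intro l'
      induction l' with
      | nil => simp
      | cons a t ih =>
        rw [List.map_cons, List.map_cons, List.map_cons, List.prod_cons, List.prod_cons, ← ih]
        change m * (((a : Γ) * x * (a : Γ)⁻¹) * (t.map cj).prod) * m⁻¹ =
          ((m * (a : Γ)) * x * (m * (a : Γ))⁻¹) * (m * (t.map cj).prod * m⁻¹)
        group
    have hperm : ((l.map (fun a => (⟨m, hm⟩ : M) * a)).map cj).Perm (l.map cj) := by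
      apply List.Perm.map
      have hnd : (l.map (fun a => (⟨m, hm⟩ : M) * a)).Nodup :=
        (Finset.nodup_toList _).map (mul_right_injective _)
      rw [List.perm_ext_iff_of_nodup hnd (Finset.nodup_toList _)]
      intro a
      constructor
      · intro _
        exact Finset.mem_toList.2 (Finset.mem_univ _)
      · intro _
        exact List.mem_map.2 ⟨(⟨m, hm⟩ : M)⁻¹ * a, Finset.mem_toList.2 (Finset.mem_univ _),
          by rw [mul_inv_cancel_left]⟩
    have h1 := perm_prod_mem D P hPD hD hperm (hlP _)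
    rw [← hconj] at h1
    rw [commutatorElement_def]
    exact h1
  · intro f hf hfM
    obtain ⟨-, hadd, -⟩ := mem_HomOn.1 hf
    have hval : ∀ m : M, f (cj m) = f x := by
      intro m
      have h1 := hfM m m.2
      change f ((m : Γ) * x * (m : Γ)⁻¹) = f x
      conv_lhs => rw [← h1]
      rw [CF.act_apply, show (m : Γ)⁻¹ * ((m : Γ) * x * (m : Γ)⁻¹) * (m : Γ) = x by group]
    have hlist : ∀ l' : List M, f (l'.map cj).prod = (l'.length : K) * f x := by
      intro l'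
      induction l' with
      | nil => simp [HomOn.one hf]
      | cons a t ih =>
        rw [List.map_cons, List.prod_cons, hadd _ (hcj a) _ (P.list_prod_mem (hlP t)), ih, hval,
          List.length_cons]
        push_cast
        ring
    rw [hlist, Finset.length_toList, Finset.card_univ, ← Nat.card_eq_fintype_card]

end FT
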