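import Mathlib

/-! # FT-SZab (abelian case only): Schur-Zassenhaus, conjugacy of complements (solvable normal subgroup)

Mathlib has the existence part `Subgroup.exists_right_complement'_of_coprime` and the abelian
case is in Mathlib/GroupTheory/SchurZassenhaus.lean (`Subgroup.isComplement'_stabilizer_of_coprime`
and the transversal quotient `N.QuotientDiff`; conjugacy in the abelian case can also be proved by
averaging a cocycle).

PROOF of `sz_conj`. Induction on `Nat.card G`, for all `G`. If `N = ⊥` trivial (`H = K = ⊤`).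
Let `M` be a minimal normal subgroup of `G` contained in `N`; as `N` is solvable `M` is abelian
(commutator subgroup of `M` is characteristic in `M`, proper, so trivial). In `G/M` the images of
`H`, `K` are complements of `N/M`, conjugate by induction: replace `K` by a conjugate, so
`H M = K M =: L`. If `L ≠ G` apply the induction hypothesis to `L` and the normal subgroup
`L ∩ N` of it (which is solvable; it equals `M`). If `L = G` then `N = M` is abelian.

ABELIAN CASE (`N` abelian normal, `H`, `K` complements, `gcd(|N|, |H|) = 1`): every `h ∈ H` is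
uniquely `h = d(h) k(h)` with `d(h) ∈ N`, `k(h) ∈ K` and `k : H → K` is a bijective homomorphism.
`d(h h') = d(h) * (k(h) d(h') k(h)⁻¹) = d(h) * (h d(h') h⁻¹)` (N abelian). Let `s = ∏ d(h')` over
`h' ∈ H`; multiply over `h'`: `s = d(h)^|H| * h s h⁻¹`. Choose `a` with `a |H| = 1 mod |N|` and put
`t = s^a ∈ N`: then `t = d(h) * h t h⁻¹`, so `t⁻¹ h' t ...`: from `d(h) = t * h t⁻¹ h⁻¹` we get
`k(h) = d(h)⁻¹ h = h t h⁻¹ t⁻¹ h = ... ` and `K = t⁻¹`-conjugate of `H` (check the side). -/

namespace FT

universe u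

/-- conjugacy of complements of an abelian normal subgroup of coprime order -/
theorem sz_conj_abelian {G : Type u} [Group G] [Finite G] (N H K : Subgroup G) [N.Normal]
    (hab : ∀ x ∈ N, ∀ y ∈ N, x * y = y * x)
    (hH : N.IsComplement' H) (hK : N.IsComplement' K)
    (hc : (Nat.card N).Coprime (Nat.card H)) :
    ∃ n ∈ N, ∀ x, x ∈ K ↔ n⁻¹ * x * n ∈ H := by
  classical
  have _ : Fintype H := Fintype.ofFinite H
  let cg : CommGroup N :=
    { (inferInstance : Group N) with
      mul_comm := fun x y => Subtype.ext (hab x x.2 y y.2) }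
  have hex : ∀ h : H, ∃ p : N × K, (p.1 : G) * (p.2 : G) = (h : G) := fun h => hK.2 (h : G)
  choose p hp using hex
  have hcoc : ∀ h h' : H,
      (p (h * h')).1 = (p h).1 * MulAut.conjNormal (h : G) (p h').1 := by
    intro h h'
    have h1 : (p (h * h')) =
        ((p h).1 * MulAut.conjNormal (h : G) (p h').1, (p h).2 * (p h').2) := by
      apply hK.1
      show ((p (h * h')).1 : G) * ((p (h * h')).2 : G) =
        (((p h).1 * MulAut.conjNormal (h : G) (p h').1 : N) : G) * (((p h).2 * (p h').2 : K) : G)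
      rw [hp (h * h')]
      push_cast
      rw [MulAut.conjNormal_apply, ← hp h, ← hp h']
      have h2 : ((p h).2 : G) * ((p h').1 : G) * ((p h).2 : G)⁻¹ ∈ N :=
        Subgroup.Normal.conj_mem inferInstance _ (p h').1.2 _
      have h3 := hab _ (p h).1.2 _ h2
      have h4 : ((p h).1 : G) * (((p h).2 : G) * ((p h').1 : G) * ((p h).2 : G)⁻¹) *
          ((p h).1 : G)⁻¹ = ((p h).2 : G) * ((p h').1 : G) * ((p h).2 : G)⁻¹ := by
        rw [h3]; group
      calc _ = ((p h).1 : G) * (((p h).2 : G) * ((p h').1 : G) * ((p h).2 : G)⁻¹) *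
          (((p h).2 : G) * ((p h').2 : G)) := by group
        _ = ((p h).1 : G) * (((p h).1 : G) * (((p h).2 : G) * ((p h').1 : G) *
          ((p h).2 : G)⁻¹) * ((p h).1 : G)⁻¹) * (((p h).2 : G) * ((p h').2 : G)) := by rw [h4]
        _ = _ := by group
    rw [h1]
  obtain ⟨s, hs⟩ : ∃ s : N, s = ∏ h' : H, (p h').1 := ⟨_, rfl⟩
  have hsum : ∀ h : H, s = (p h).1 ^ Nat.card H * MulAut.conjNormal (h : G) s := by
    intro h
    have h1 : ∏ h' : H, (p (h * h')).1 = s := by
      rw [hs]
      exact Fintype.prod_equiv (Equiv.mulLeft h) _ _ (fun _ => rfl)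
    calc s = ∏ h' : H, (p (h * h')).1 := h1.symm
      _ = ∏ h' : H, ((p h).1 * MulAut.conjNormal (h : G) (p h').1) :=
        Finset.prod_congr rfl fun h' _ => hcoc h h'
      _ = (p h).1 ^ Nat.card H * MulAut.conjNormal (h : G) s := by
        rw [Finset.prod_mul_distrib, Finset.prod_const, Finset.card_univ,
          ← Nat.card_eq_fintype_card, ← map_prod, ← hs]
  obtain ⟨t, ht⟩ := (powCoprime hc).surjective s
  have ht' : t ^ Nat.card H = s := ht
  have ht2 : ∀ h : H, t = (p h).1 * MulAut.conjNormal (h : G) t := by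
    intro h
    apply (powCoprime hc).injective
    show t ^ Nat.card H = ((p h).1 * MulAut.conjNormal (h : G) t) ^ Nat.card H
    rw [mul_pow, ← map_pow, ht']
    exact hsum h
  -- the second component is the conjugate
  have hk : ∀ h : H, ((p h).2 : G) = (t : G)⁻¹ * (h : G) * (t : G) := by
    intro h
    have h1 := congrArg (Subtype.val) (ht2 h)
    rw [Subgroup.coe_mul, MulAut.conjNormal_apply] at h1
    have h2 : ((p h).1 : G) = (t : G) * ((h : G) * (t : G) * (h : G)⁻¹)⁻¹ :=
      eq_mul_inv_of_mul_eq h1.symm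
    have h3 : ((p h).2 : G) = ((p h).1 : G)⁻¹ * (h : G) := by
      rw [← hp h]; group
    have h4 : (h : G) * (t : G) * (h : G)⁻¹ ∈ N :=
      Subgroup.Normal.conj_mem inferInstance _ t.2 _
    have h5 := hab _ (N.inv_mem t.2) _ h4
    rw [h3, h2]
    calc _ = ((h : G) * (t : G) * (h : G)⁻¹) * (t : G)⁻¹ * (h : G) := by group
      _ = (t : G)⁻¹ * ((h : G) * (t : G) * (h : G)⁻¹) * (h : G) := by rw [h5]
      _ = _ := by group
  refine ⟨t⁻¹, N.inv_mem t.2, fun x => ?_⟩
  constructor
  · intro hx
    -- write x = m * h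
    obtain ⟨⟨m, h⟩, hmh⟩ := hH.2 x
    have h1 : (m : G) * (h : G) = x := hmh
    have h2 : (m : G) * ((p h).1 : G) ∈ K := by
      have h3 : (m : G) * ((p h).1 : G) = x * ((p h).2 : G)⁻¹ := by
        rw [← h1, ← hp h]; group
      rw [h3]
      exact K.mul_mem hx (K.inv_mem (p h).2.2)
    have h3 : (m : G) * ((p h).1 : G) ∈ N := N.mul_mem m.2 (p h).1.2
    have h4 : (m : G) * ((p h).1 : G) = 1 := by
      have := hK.disjoint
      rw [Subgroup.disjoint_def] at this
      exact this h3 h2
    have h5 : x = ((p h).2 : G) := by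
      rw [← h1, ← hp h]
      calc _ = ((m : G) * ((p h).1 : G)) * ((p h).2 : G) := by group
        _ = _ := by rw [h4, one_mul]
    rw [h5, hk h]
    have h6 : ((t : G)⁻¹)⁻¹ * ((t : G)⁻¹ * (h : G) * (t : G)) * (t : G)⁻¹ = (h : G) := by group
    rw [h6]
    exact h.2
  · intro hx
    have h1 := hk ⟨_, hx⟩
    have h2 : x = (t : G)⁻¹ * (((t : G)⁻¹)⁻¹ * x * (t : G)⁻¹) * (t : G) := by group
    rw [h2]
    rw [← h1]
    exact (p _).2.2

end FT
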