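import Mathlib
import Pool.Agent.helper11.FT.SZab

/-! # FT-SZ: Schur-Zassenhaus, conjugacy of complements (solvable normal subgroup)

Mathlib has the existence part `Subgroup.exists_right_complement'_of_coprime` and the abelian
case is in Mathlib/GroupTheory/SchurZassenhaus.lean (`Subgroup.isComplement'_stabilizer_of_coprime`
and the transversal quotient `N.QuotientDiff`; conjugacy in the abelian case can also be proved by
averaging a cocycle).

PROOF of `sz_conj`. Induction on `Nat.card G`, for all `G`. If `N = ⊥` trivial (`H = K = ⊤`).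
Let `M` be a minimal normal subgroup of `G` contained in `N`; as `N` is solvable `M` is abelian
(commutator subgroup of `M` is characteristic in `M`, proper, so trivial). In `G/M` the images of
`H`, `K` are complements of `N/M`, conjugate by induction: replace `K` by a conjugate, so
`H M = K M =: L`. If `L ≠ G` apply the induction hypothesis to `L` and the normal subgroup
`L ∩ N` of it (which is solvable; it equals `M`). If `L = G` then `N = M` is abelian.

ABELIAN CASE (`N` abelian normal, `H`, `K` complements, `gcd(|N|, |H|) = 1`): every `h ∈ H` is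
uniquely `h = d(h) k(h)` with `d(h) ∈ N`, `k(h) ∈ K` and `k : H → K` is a bijective homomorphism.
`d(h h') = d(h) * (k(h) d(h') k(h)⁻¹) = d(h) * (h d(h') h⁻¹)` (N abelian). Let `s = ∏ d(h')` over
`h' ∈ H`; multiply over `h'`: `s = d(h)^|H| * h s h⁻¹`. Choose `a` with `a |H| = 1 mod |N|` and put
`t = s^a ∈ N`: then `t = d(h) * h t h⁻¹`, so `t⁻¹ h' t ...`: from `d(h) = t * h t⁻¹ h⁻¹` we get
`k(h) = d(h)⁻¹ h = h t h⁻¹ t⁻¹ h = ... ` and `K = t⁻¹`-conjugate of `H` (check the side). -/

namespace FT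

universe u

private theorem sz_comm_lt {G : Type u} [Group G] (N : Subgroup G)
    (hs : Group.IsSolvable N) (hN : N ≠ ⊥) : ⁅N, N⁆ < N := by
  have h := (Subgroup.nontrivial_iff_ne_bot N).2 hN
  rw [← N.range_subtype, MonoidHom.range_eq_map, ← Subgroup.map_commutator,
    Subgroup.map_subtype_lt_map_subtype]
  exact Group.IsSolvable.commutator_lt_top_of_nontrivial N

private theorem sz_aux (n : ℕ) : ∀ {G : Type u} [Group G] [Finite G] (N H K : Subgroup G)
    [N.Normal] (_ : Nat.card N = n)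
    (_ : Group.IsSolvable N)
    (_ : N.IsComplement' H) (_ : N.IsComplement' K)
    (_ : (Nat.card N).Coprime (Nat.card H)),
    ∃ n ∈ N, ∀ x, x ∈ K ↔ n⁻¹ * x * n ∈ H := by
  induction n using Nat.strong_induction_on with
  | _ n ih =>
  intro G _ _ N H K hNn hcard hs hH hK hc
  by_cases hN : N = ⊥
  · apply sz_conj_abelian N H K _ hH hK hc
    intro x hx y hy
    rw [hN, Subgroup.mem_bot] at hx hy
    rw [hx, hy]
  have hlt := sz_comm_lt N hs hN
  set M : Subgroup G := ⁅N, N⁆ with hM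
  have hMN : M ≤ N := hlt.le
  have : M.Normal := by rw [hM]; infer_instance
  have hcM : Nat.card M < Nat.card N := by
    have h1 : Nat.card M ≤ Nat.card N := Subgroup.card_le_of_le hMN
    rcases h1.lt_or_eq with h | h
    · exact h
    · exact absurd (Subgroup.eq_of_le_of_card_ge hMN h.ge) hlt.ne
  set π : G →* G ⧸ M := QuotientGroup.mk' M with hπ
  have hsurj : Function.Surjective π := QuotientGroup.mk'_surjective M
  have hker : ∀ a b : G, π a = π b ↔ a * b⁻¹ ∈ M := by
    intro a b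
    rw [← MonoidHom.div_mem_ker_iff]
    rw [hπ, QuotientGroup.ker_mk', div_eq_mul_inv]
  have hdH : ∀ x, x ∈ N → x ∈ H → x = 1 := by
    intro x h1 h2
    have := hH.disjoint
    rw [Subgroup.disjoint_def] at this
    exact this h1 h2
  have hdK : ∀ x, x ∈ N → x ∈ K → x = 1 := by
    intro x h1 h2
    have := hK.disjoint
    rw [Subgroup.disjoint_def] at this
    exact this h1 h2
  have hmulH : ∀ x : G, ∃ a ∈ N, ∃ b ∈ H, a * b = x := by
    intro x
    obtain ⟨⟨a, b⟩, hab⟩ := hH.2 x
    exact ⟨a, a.2, b, b.2, hab⟩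
  have hmulK : ∀ x : G, ∃ a ∈ N, ∃ b ∈ K, a * b = x := by
    intro x
    obtain ⟨⟨a, b⟩, hab⟩ := hK.2 x
    exact ⟨a, a.2, b, b.2, hab⟩
  have key : ∀ X : Subgroup G, (∀ x, x ∈ N → x ∈ X → x = 1) →
      (∀ x : G, ∃ a ∈ N, ∃ b ∈ X, a * b = x) → (N.map π).IsComplement' (X.map π) := by
    intro X hX hX2
    apply Subgroup.isComplement'_of_disjoint_and_mul_eq_univ
    · rw [Subgroup.disjoint_def]
      rintro _ ⟨a, ha, rfl⟩ ⟨b, hb, hab⟩
      have h1 : b * a⁻¹ ∈ M := (hker b a).1 hab
      have h2 : b ∈ N := by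
        have := N.mul_mem (hMN h1) ha
        simpa using this
      have h3 := hX b h2 hb
      rw [← hab, h3, map_one]
    · rw [Set.eq_univ_iff_forall]
      intro x
      obtain ⟨g, rfl⟩ := hsurj x
      obtain ⟨a, ha, b, hb, hab⟩ := hX2 g
      exact ⟨π a, ⟨a, ha, rfl⟩, π b, ⟨b, hb, rfl⟩, by rw [← hab, map_mul]⟩
  have : (N.map π).Normal := Subgroup.Normal.map hNn π hsurj
  obtain ⟨nb, ⟨n₁, hn₁, rfl⟩, hn₁'⟩ := sz_conj_abelian (N.map π) (H.map π) (K.map π) (by
      rintro _ ⟨a, ha, rfl⟩ _ ⟨b, hb, rfl⟩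
      rw [← map_mul, ← map_mul, hker]
      have h1 := Subgroup.commutator_mem_commutator (G := G) ha hb
      rw [commutatorElement_def] at h1
      simpa [mul_assoc] using h1)
    (key H hdH hmulH) (key K hdK hmulK)
    (Nat.Coprime.coprime_dvd_left (Subgroup.card_map_dvd N π)
      (Nat.Coprime.coprime_dvd_right (Subgroup.card_map_dvd H π) hc))
  set H' : Subgroup G := H.map (MulAut.conj n₁).toMonoidHom with hH'
  have hmemH' : ∀ x, x ∈ H' ↔ n₁⁻¹ * x * n₁ ∈ H := by
    intro x
    rw [hH']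
    constructor
    · rintro ⟨h, hh, rfl⟩
      simpa [mul_assoc] using hh
    · intro h
      exact ⟨_, h, by simp [mul_assoc]⟩
  set L : Subgroup G := (K.map π).comap π with hL
  have hKL : K ≤ L := Subgroup.le_comap_map π K
  have hML : M ≤ L := by
    intro x hx
    rw [hL, Subgroup.mem_comap]
    have : π x = 1 := by
      rw [← map_one π, hker]; simpa using hx
    rw [this]; exact Subgroup.one_mem _
  have hH'L : H' ≤ L := by
    intro x hx
    rw [hL, Subgroup.mem_comap, hn₁', ← map_inv, ← map_mul, ← map_mul]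
    exact Subgroup.mem_map_of_mem π ((hmemH' x).1 hx)
  have hdH' : ∀ x, x ∈ N → x ∈ H' → x = 1 := by
    intro x h1 h2
    have h3 := hdH (n₁⁻¹ * x * n₁) (by simpa using hNn.conj_mem x h1 n₁⁻¹) ((hmemH' x).1 h2)
    have : x = n₁ * (n₁⁻¹ * x * n₁) * n₁⁻¹ := by group
    rw [this, h3]; group
  have keyL : ∀ X : Subgroup G, (∀ x, x ∈ N → x ∈ X → x = 1) → X ≤ L →
      (∀ x ∈ L, ∃ y ∈ X, x * y⁻¹ ∈ M) → (M.subgroupOf L).IsComplement' (X.subgroupOf L) := by
    intro X h1 h2 h3
    apply Subgroup.isComplement'_of_disjoint_and_mul_eq_univ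
    · rw [Subgroup.disjoint_def]
      intro x hx hx'
      rw [Subgroup.mem_subgroupOf] at hx hx'
      exact Subtype.ext (h1 x (hMN hx) hx')
    · rw [Set.eq_univ_iff_forall]
      intro x
      obtain ⟨y, hy, hxy⟩ := h3 x x.2
      refine ⟨⟨x * y⁻¹, hML hxy⟩, hxy, ⟨y, h2 hy⟩, hy, ?_⟩
      apply Subtype.ext
      simp
  have hcK := keyL K hdK hKL (by
    intro x hx
    obtain ⟨k, hk, hk'⟩ := hx
    exact ⟨k, hk, (hker _ _).1 hk'.symm⟩)
  have hcH := keyL H' hdH' hH'L (by
    intro x hx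
    have h1 : π x ∈ K.map π := hx
    rw [hn₁', ← map_inv, ← map_mul, ← map_mul] at h1
    obtain ⟨h, hh, hh'⟩ := h1
    have h2 := (hker _ _).1 hh'.symm
    refine ⟨n₁ * h * n₁⁻¹, (hmemH' _).2 (by simpa [mul_assoc] using hh), ?_⟩
    have h3 := (inferInstance : M.Normal).conj_mem _ h2 n₁
    have h4 : n₁ * (n₁⁻¹ * x * n₁ * h⁻¹) * n₁⁻¹ = x * (n₁ * h * n₁⁻¹)⁻¹ := by group
    rwa [h4] at h3)
  have hcardM : Nat.card (M.subgroupOf L) = Nat.card M :=
    Nat.card_congr (Subgroup.subgroupOfEquivOfLe hML).toEquiv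
  have hcardH : Nat.card (H'.subgroupOf L) = Nat.card H := by
    rw [Nat.card_congr (Subgroup.subgroupOfEquivOfLe hH'L).toEquiv, hH']
    exact Subgroup.card_map_of_injective (MulAut.conj n₁).injective
  have hsM : Group.IsSolvable (M.subgroupOf L) := by
    have := hs
    let f : (M.subgroupOf L) →* N :=
      { toFun := fun x => ⟨x.1.1, hMN x.2⟩
        map_one' := rfl
        map_mul' := fun a b => rfl }
    have hf : Function.Injective f := by
      intro a b hab
      apply Subtype.ext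
      apply Subtype.ext
      have h1 : ((f a : N) : G) = (f b : N) := by rw [hab]
      exact h1
    exact Group.isSolvable_of_isSolvable_injective hf
  obtain ⟨m, hm, hm'⟩ := ih (Nat.card M) (hcard ▸ hcM) (M.subgroupOf L) (H'.subgroupOf L)
    (K.subgroupOf L) hcardM hsM hcH hcK (by
      rw [hcardM, hcardH]
      exact Nat.Coprime.coprime_dvd_left (Subgroup.card_dvd_of_le hMN) hc)
  refine ⟨m.1 * n₁, N.mul_mem (hMN hm) hn₁, fun x => ?_⟩
  have hx : (m.1 * n₁)⁻¹ * x * (m.1 * n₁) = n₁⁻¹ * (m.1⁻¹ * x * m.1) * n₁ := by group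
  rw [hx, ← hmemH']
  constructor
  · intro h
    exact (hm' ⟨x, hKL h⟩).1 h
  · intro h
    have h1 : x ∈ L := by
      have h2 := hH'L h
      have h3 := L.mul_mem (L.mul_mem m.2 h2) (L.inv_mem m.2)
      have h4 : m.1 * (m.1⁻¹ * x * m.1) * m.1⁻¹ = x := by group
      rwa [h4] at h3
    exact (hm' ⟨x, h1⟩).2 h

/-- Schur-Zassenhaus: conjugacy of complements of a solvable normal subgroup of coprime order -/
theorem sz_conj {G : Type u} [Group G] [Finite G] (N H K : Subgroup G) [N.Normal]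
    (hs : Group.IsSolvable N)
    (hH : N.IsComplement' H) (hK : N.IsComplement' K)
    (hc : (Nat.card N).Coprime (Nat.card H)) :
    ∃ n ∈ N, ∀ x, x ∈ K ↔ n⁻¹ * x * n ∈ H :=
  sz_aux (Nat.card N) N H K rfl hs hH hK hc

end FT
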