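import Mathlib
import Pool.Agent.helper11.FT.Defs
import Pool.Agent.helper11.FT.SZ

/-! # FT-Glaub: Glauberman's lemma and fixed points in cosets -/

namespace FT

universe u v

private theorem Gl_index {G : Type u} [Group G] (N S : Subgroup G) [N.Normal]
    (h : S ⊔ N = ⊤) : N.index = N.relIndex S := by
  rw [← Subgroup.relIndex_top_right, ← h, Subgroup.relIndex_sup_right]

private theorem Gl_compl {G : Type u} [Group G] [Finite G] (N C : Subgroup G)
    (h : Nat.card C = N.index) (hc : (Nat.card N).Coprime (Nat.card C)) :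
    N.IsComplement' C := by
  apply Subgroup.isComplement'_of_coprime _ hc
  rw [h]
  exact N.card_mul_index

private theorem Gl_aux {G : Type u} [Group G] [Finite G] {Ω : Type v} [MulAction G Ω]
    (N H : Subgroup G) [N.Normal] (hs : Group.IsSolvable N)
    (hc : (Nat.card N).Coprime (Nat.card H)) (htop : H ⊔ N = ⊤) (o : Ω)
    (ho : ∀ m ∈ H, ∃ r ∈ N, m • o = r • o) :
    ∃ r ∈ N, ∀ m ∈ H, m • (r • o) = r • o := by
  obtain ⟨S, hS⟩ : ∃ S : Subgroup G, S = MulAction.stabilizer G o := ⟨_, rfl⟩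
  have hSm : ∀ x, x ∈ S ↔ x • o = o := by
    intro x
    rw [hS, MulAction.mem_stabilizer_iff]
  have hStop : S ⊔ N = ⊤ := by
    rw [eq_top_iff, ← htop, sup_le_iff]
    refine ⟨fun m hm => ?_, le_sup_right⟩
    obtain ⟨r, hr, hmr⟩ := ho m hm
    have h1 : r⁻¹ * m ∈ S := by
      rw [hSm, mul_smul, hmr, inv_smul_smul]
    have h2 : m = r * (r⁻¹ * m) := by group
    rw [h2, sup_comm]
    exact Subgroup.mul_mem_sup hr h1
  have hHi : Nat.card H = N.index := by
    rw [Gl_index N H htop, ← Subgroup.inf_relIndex_right,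
      (Subgroup.disjoint_of_coprime_natCard hc).eq_bot, Subgroup.relIndex_bot_left]
  have hSi : (N.subgroupOf S).index = N.index := (Gl_index N S hStop).symm
  have hT : Nat.card (N.subgroupOf S) ∣ Nat.card N := by
    have h1 : Nat.card ((N.subgroupOf S).map S.subtype) = Nat.card (N.subgroupOf S) :=
      Subgroup.card_subtype _ _
    rw [← h1]
    apply Subgroup.card_dvd_of_le
    rw [Subgroup.subgroupOf_map_subtype]
    exact inf_le_left
  obtain ⟨C0, hC0⟩ := Subgroup.exists_right_complement'_of_coprime (N := N.subgroupOf S) (by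
    rw [hSi, ← hHi]
    exact Nat.Coprime.coprime_dvd_left hT hc)
  have hC0c : Nat.card C0 = N.index := by
    rw [← hSi]
    exact (Subgroup.IsComplement'.index_eq_card hC0.symm).symm
  obtain ⟨C, hC⟩ : ∃ C, C = C0.map S.subtype := ⟨_, rfl⟩
  have hCc : Nat.card C = N.index := by
    rw [hC, Subgroup.card_subtype, hC0c]
  have hCS : C ≤ S := by
    rw [hC]
    exact Subgroup.map_subtype_le C0
  have hcC : (Nat.card N).Coprime (Nat.card C) := by
    rw [hCc, ← hHi]
    exact hc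
  obtain ⟨n, hn, hconj⟩ := sz_conj N C H hs (Gl_compl N C hCc hcC) (Gl_compl N H hHi hc) hcC
  refine ⟨n, hn, fun m hm => ?_⟩
  have h1 := hCS ((hconj m).1 hm)
  rw [hSm] at h1
  have h2 : m * n = n * (n⁻¹ * m * n) := by group
  rw [← mul_smul, h2, mul_smul, h1]

/-- Glauberman's lemma. `M` normalises the solvable group `R`, orders are coprime, `Γ` acts on `Ω`,
and `M` maps the point `o` into its `R`-orbit. Then `M` fixes a point of this `R`-orbit.

PROOF. Let `L = R ⊔ M`, a group of order `|R| |M|` in which `R` is normal (`R ⊓ M = ⊥` by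
coprimality) and `S` = stabilizer of `o` in `L`. By hypothesis `L = R S` (for `m ∈ M` there is
`r ∈ R` with `r⁻¹ m ∈ S`). `S ∩ R` is normal in `S`, `S/(S ∩ R) ≅ L/R ≅ M`, so `|S ∩ R|`
(divides `|R|`) and `|S : S ∩ R| = |M|` are coprime: by `Subgroup.exists_right_complement'_of_coprime`
(in the group `S`) there is `C ≤ S` with `C ∩ R = 1`, `(S ∩ R) C = S`, `|C| = |M|`. `C` and `M` are
complements of `R` in `L`; by `sz_conj` in the group `L` there is `r ∈ R` with
`M = r C r⁻¹`. As `C` fixes `o`, `M` fixes `r • o`. -/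
theorem glaub {Γ : Type u} [Group Γ] [Finite Γ] {Ω : Type v} [MulAction Γ Ω]
    (R M : Subgroup Γ) (hn : M ≤ Nrm R) (hs : Group.IsSolvable R)
    (hc : (Nat.card R).Coprime (Nat.card M)) (o : Ω)
    (ho : ∀ m ∈ M, ∃ r ∈ R, m • o = r • o) :
    ∃ r ∈ R, ∀ m ∈ M, m • (r • o) = r • o := by
  obtain ⟨L, hL⟩ : ∃ L : Subgroup Γ, L = M ⊔ R := ⟨_, rfl⟩
  have hML : M ≤ L := by rw [hL]; exact le_sup_left
  have hRL : R ≤ L := by rw [hL]; exact le_sup_right
  have hLn : L ≤ Nrm R := by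
    rw [hL]
    exact sup_le hn Subgroup.le_normalizer
  have hN : (R.subgroupOf L).Normal := Subgroup.normal_subgroupOf_of_le_normalizer hLn
  have hcR : Nat.card (R.subgroupOf L) = Nat.card R :=
    Nat.card_congr (Subgroup.subgroupOfEquivOfLe hRL).toEquiv
  have hcM : Nat.card (M.subgroupOf L) = Nat.card M :=
    Nat.card_congr (Subgroup.subgroupOfEquivOfLe hML).toEquiv
  have hsR : Group.IsSolvable (R.subgroupOf L) := by
    have := hs
    exact Group.isSolvable_of_isSolvable_injective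
      (f := (Subgroup.subgroupOfEquivOfLe hRL).toMonoidHom)
      (Subgroup.subgroupOfEquivOfLe hRL).injective
  have htop : M.subgroupOf L ⊔ R.subgroupOf L = ⊤ := by
    rw [← Subgroup.subgroupOf_sup hML hRL, ← hL, Subgroup.subgroupOf_self]
  obtain ⟨r, hr, hfix⟩ := Gl_aux (Ω := Ω) (R.subgroupOf L) (M.subgroupOf L) hsR
    (by rw [hcR, hcM]; exact hc) htop o (by
      intro m hm
      rw [Subgroup.mem_subgroupOf] at hm
      obtain ⟨r, hr, hmr⟩ := ho m hm
      refine ⟨⟨r, hRL hr⟩, ?_, ?_⟩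
      · rw [Subgroup.mem_subgroupOf]
        exact hr
      · exact hmr)
  rw [Subgroup.mem_subgroupOf] at hr
  refine ⟨r, hr, fun m hm => ?_⟩
  exact hfix ⟨m, hML hm⟩ (by rw [Subgroup.mem_subgroupOf]; exact hm)

/-- Fixed points in cosets: if the coset `x C` is invariant under conjugation by `M` and `M`
acts coprimely on the solvable group `C`, then `x C` contains an element commuting with `M`.

PROOF. Let `Γ × Γ` act on `Γ` by `(a, b) • y = a y b⁻¹` (define a local MulAction on a type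
synonym, or apply `glaub` with an explicit `MulAction`), `R = {(1, c) : c ∈ C}`,
`M' = {(m, m) : m ∈ M}`, `o = x`. `(m, m) • x = m x m⁻¹ = x (x⁻¹ m x m⁻¹) = (1, c⁻¹) • x`. Apply
`glaub`: some `x c⁻¹` is fixed by all `(m, m)`. -/
theorem fix_coset {Γ : Type u} [Group Γ] [Finite Γ] (C M : Subgroup Γ)
    (hn : M ≤ Nrm C) (hs : Group.IsSolvable C) (hc : (Nat.card C).Coprime (Nat.card M))
    (x : Γ) (hx : ∀ m ∈ M, x⁻¹ * (m * x * m⁻¹) ∈ C) :
    ∃ c ∈ C, ∀ m ∈ M, m * (x * c) = (x * c) * m := by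
  let act : MulAction (Γ × Γ) Γ :=
    { smul := fun g y => g.1 * y * g.2⁻¹
      one_smul := fun y => by
        change (1 : Γ) * y * (1 : Γ)⁻¹ = y
        simp
      mul_smul := fun g h y => by
        change (g.1 * h.1) * y * (g.2 * h.2)⁻¹ = g.1 * (h.1 * y * h.2⁻¹) * g.2⁻¹
        group }
  have hact : ∀ (g : Γ × Γ) (y : Γ), g • y = g.1 * y * g.2⁻¹ := fun _ _ => rfl
  have hinr : Function.Injective (MonoidHom.inr Γ Γ) := by
    intro p q h
    have := congrArg Prod.snd h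
    simpa using this
  have hdiag : Function.Injective (MonoidHom.prod (MonoidHom.id Γ) (MonoidHom.id Γ)) := by
    intro p q h
    have := congrArg Prod.fst h
    simpa using this
  obtain ⟨R, hR⟩ : ∃ R : Subgroup (Γ × Γ), R = C.map (MonoidHom.inr Γ Γ) := ⟨_, rfl⟩
  obtain ⟨M', hM'⟩ : ∃ M' : Subgroup (Γ × Γ),
      M' = M.map (MonoidHom.prod (MonoidHom.id Γ) (MonoidHom.id Γ)) := ⟨_, rfl⟩
  have hmR : ∀ g : Γ × Γ, g ∈ R ↔ g.1 = 1 ∧ g.2 ∈ C := by
    intro g
    rw [hR, Subgroup.mem_map]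
    constructor
    · rintro ⟨c, hcC, rfl⟩
      exact ⟨rfl, hcC⟩
    · rintro ⟨h1, h2⟩
      exact ⟨g.2, h2, Prod.ext h1.symm rfl⟩
  have hmM : ∀ g : Γ × Γ, g ∈ M' ↔ g.1 ∈ M ∧ g.2 = g.1 := by
    intro g
    rw [hM', Subgroup.mem_map]
    constructor
    · rintro ⟨m, hm, rfl⟩
      exact ⟨hm, rfl⟩
    · rintro ⟨h1, h2⟩
      exact ⟨g.1, h1, Prod.ext rfl h2.symm⟩
  have hcR : Nat.card R = Nat.card C := by
    rw [hR]
    exact Subgroup.card_map_of_injective hinr
  have hcM : Nat.card M' = Nat.card M := by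
    rw [hM']
    exact Subgroup.card_map_of_injective hdiag
  have hsR : Group.IsSolvable R := by
    have := hs
    rw [hR]
    exact Group.isSolvable_of_surjective
      (f := (Subgroup.equivMapOfInjective C (MonoidHom.inr Γ Γ) hinr).toMonoidHom)
      (Subgroup.equivMapOfInjective C (MonoidHom.inr Γ Γ) hinr).surjective
  have hnR : M' ≤ Nrm R := by
    intro g hg
    obtain ⟨h1, h2⟩ := (hmM g).1 hg
    have h3 := hn h1
    rw [Subgroup.mem_normalizer_iff] at h3 ⊢
    intro h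
    rw [hmR, hmR]
    have h4 := h3 h.2
    have h5 : (g * h * g⁻¹).1 = g.1 * h.1 * g.1⁻¹ := rfl
    have h6 : (g * h * g⁻¹).2 = g.1 * h.2 * g.1⁻¹ := by
      change g.2 * h.2 * g.2⁻¹ = _
      rw [h2]
    rw [h5, h6, ← h4]
    constructor
    · rintro ⟨h7, h8⟩
      refine ⟨?_, h8⟩
      rw [h7]
      group
    · rintro ⟨h7, h8⟩
      refine ⟨?_, h8⟩
      exact conj_eq_one_iff.1 h7
  obtain ⟨r, hr, hfix⟩ := glaub (Ω := Γ) R M' hnR hsR (by rw [hcR, hcM]; exact hc) x (by
    intro g hg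
    obtain ⟨h1, h2⟩ := (hmM g).1 hg
    have h3 := hx g.1 h1
    refine ⟨(1, (x⁻¹ * (g.1 * x * g.1⁻¹))⁻¹), (hmR _).2 ⟨rfl, C.inv_mem h3⟩, ?_⟩
    rw [hact, hact, h2]
    group)
  obtain ⟨h1, h2⟩ := (hmR r).1 hr
  refine ⟨r.2⁻¹, C.inv_mem h2, fun m hm => ?_⟩
  have h3 := hfix (m, m) ((hmM _).2 ⟨hm, rfl⟩)
  rw [hact, hact, h1, one_mul] at h3
  change m * (x * r.2⁻¹) * m⁻¹ = x * r.2⁻¹ at h3
  rw [mul_inv_eq_iff_eq_mul] at h3
  exact h3

end FT
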