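import Mathlib
import Pool.Agent.helper11.FT.Defs
import Pool.Agent.helper11.FT.Glaub

/-! # FT-Cop: standard facts on coprime action (everything inside one finite group `Γ`)

`⁅R, M⁆` is the subgroup generated by the commutators `⁅x, m⁆ = x m x⁻¹ m⁻¹`. -/

namespace FT

universe u

open scoped commutatorElement

variable {Γ : Type u} [Group Γ] [Finite Γ]

omit [Finite Γ] in
private theorem cop_le_nrm (H C : Subgroup Γ) (h : ∀ g ∈ H, ∀ x ∈ C, g * x * g⁻¹ ∈ C) :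
    H ≤ Nrm C := by
  intro g hg
  rw [Subgroup.mem_normalizer_iff]
  intro x
  constructor
  · exact fun hx => h g hg x hx
  · intro hx
    have h1 := h g⁻¹ (H.inv_mem hg) _ hx
    have h2 : g⁻¹ * (g * x * g⁻¹) * g⁻¹⁻¹ = x := by group
    rwa [h2] at h1

omit [Finite Γ] in
private theorem cop_conj (R M : Subgroup Γ) (g : Γ)
    (h : ∀ x ∈ R, ∀ m ∈ M, g * ⁅x, m⁆ * g⁻¹ ∈ ⁅R, M⁆) (c : Γ) (hc : c ∈ ⁅R, M⁆) :
    g * c * g⁻¹ ∈ ⁅R, M⁆ := by
  have h1 : ⁅R, M⁆ ≤ (⁅R, M⁆).comap (MulAut.conj g).toMonoidHom := by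
    rw [Subgroup.commutator_le]
    intro x hx m hm
    rw [Subgroup.mem_comap]
    exact h x hx m hm
  exact h1 hc

/-- `⁅R, M⁆ ≤ R`, and it is normalised by `R` and by `M` -/
private theorem cop_comm_le (R M : Subgroup Γ) (hn : M ≤ Nrm R) :
    ⁅R, M⁆ ≤ R ∧ R ≤ Nrm ⁅R, M⁆ ∧ M ≤ Nrm ⁅R, M⁆ := by
  refine ⟨?_, cop_le_nrm _ _ fun y hy => cop_conj R M y fun x hx m hm => ?_,
    cop_le_nrm _ _ fun y hy => cop_conj R M y fun x hx m hm => ?_⟩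
  · rw [Subgroup.commutator_le]
    intro x hx m hm
    have h1 := (Subgroup.mem_normalizer_iff.1 (hn hm) x⁻¹).1 (R.inv_mem hx)
    have h2 : ⁅x, m⁆ = x * (m * x⁻¹ * m⁻¹) := by
      rw [commutatorElement_def]
      group
    rw [h2]
    exact R.mul_mem hx h1
  · have h2 : y * ⁅x, m⁆ * y⁻¹ = ⁅y * x, m⁆ * ⁅y, m⁆⁻¹ := by
      simp only [commutatorElement_def]
      group
    rw [h2]
    exact Subgroup.mul_mem _ (Subgroup.commutator_mem_commutator (R.mul_mem hy hx) hm)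
      (Subgroup.inv_mem _ (Subgroup.commutator_mem_commutator hy hm))
  · have h2 : y * ⁅x, m⁆ * y⁻¹ = ⁅x, y⁆⁻¹ * ⁅x, y * m⁆ := by
      simp only [commutatorElement_def]
      group
    rw [h2]
    exact Subgroup.mul_mem _
      (Subgroup.inv_mem _ (Subgroup.commutator_mem_commutator hx hy))
      (Subgroup.commutator_mem_commutator hx (M.mul_mem hy hm))

/-- `R = [R, M] C_R(M)` for coprime action on a solvable group.
PROOF. `⁅R, M⁆` is a normal subgroup of `R` (Mathlib: `Subgroup.commutator_def`, or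
`⁅x y, m⁆ = x ⁅y, m⁆ x⁻¹ ⁅x, m⁆`) and `M`-invariant; for `x ∈ R` the coset `x ⁅R, M⁆` is
`M`-invariant: use `fix_coset` with `C = ⁅R, M⁆`. -/
theorem eq_comm_mul_cent (R M : Subgroup Γ) (hn : M ≤ Nrm R) (hs : Group.IsSolvable R)
    (hc : (Nat.card R).Coprime (Nat.card M)) (x : Γ) (hx : x ∈ R) :
    ∃ u ∈ ⁅R, M⁆, ∃ c ∈ R, (∀ m ∈ M, m * c = c * m) ∧ x = u * c := by
  obtain ⟨h1, h2, h3⟩ := cop_comm_le R M hn
  have hsC : Group.IsSolvable (⁅R, M⁆ : Subgroup Γ) :=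
    Group.isSolvable_of_isSolvable_injective (Subgroup.inclusion_injective h1)
  have hcC : (Nat.card (⁅R, M⁆ : Subgroup Γ)).Coprime (Nat.card M) :=
    hc.coprime_dvd_left (Subgroup.card_dvd_of_le h1)
  obtain ⟨d, hd, hfix⟩ := fix_coset ⁅R, M⁆ M h3 hsC hcC x (by
    intro m hm
    have h4 : x⁻¹ * (m * x * m⁻¹) = ⁅x⁻¹, m⁆ := by
      rw [commutatorElement_def]
      group
    rw [h4]
    exact Subgroup.commutator_mem_commutator (R.inv_mem hx) hm)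
  have hcR : x * d ∈ R := R.mul_mem hx (h1 hd)
  refine ⟨(x * d) * d⁻¹ * (x * d)⁻¹, ?_, x * d, hcR, hfix, by group⟩
  exact (Subgroup.mem_normalizer_iff.1 (h2 hcR) d⁻¹).1 (Subgroup.inv_mem _ hd)

/-- `⁅R, M⁆ ≤ R`, and it is normalised by `R` and by `M` -/
theorem comm_le (R M : Subgroup Γ) (hn : M ≤ Nrm R) :
    ⁅R, M⁆ ≤ R ∧ R ≤ Nrm ⁅R, M⁆ ∧ M ≤ Nrm ⁅R, M⁆ := cop_comm_le R M hn

/-- `[R, M, M] = [R, M]` for coprime action.
PROOF. `≤` clear. `≥`: a generator `⁅x, m⁆` with `x = u c`, `u ∈ ⁅R, M⁆`, `c` commuting with `M`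
(`eq_comm_mul_cent`): `⁅u c, m⁆ = u ⁅c, m⁆ u⁻¹ ⁅u, m⁆ = ⁅u, m⁆ ∈ ⁅⁅R, M⁆, M⁆`. -/
theorem comm_comm (R M : Subgroup Γ) (hn : M ≤ Nrm R) (hs : Group.IsSolvable R)
    (hc : (Nat.card R).Coprime (Nat.card M)) : ⁅⁅R, M⁆, M⁆ = ⁅R, M⁆ := by
  refine le_antisymm (Subgroup.commutator_mono (comm_le R M hn).1 le_rfl) ?_
  rw [Subgroup.commutator_le]
  intro x hx m hm
  obtain ⟨u, hu, c, -, hcm, rfl⟩ := eq_comm_mul_cent R M hn hs hc x hx
  have h1 : ⁅u * c, m⁆ = ⁅u, m⁆ := by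
    have h2 : c * m * c⁻¹ = m := by
      rw [← hcm m hm]
      group
    rw [commutatorElement_def, commutatorElement_def]
    calc u * c * m * (u * c)⁻¹ * m⁻¹ = u * (c * m * c⁻¹) * u⁻¹ * m⁻¹ := by group
      _ = u * m * u⁻¹ * m⁻¹ := by rw [h2]
  rw [h1]
  exact Subgroup.commutator_mem_commutator hu hm

/-- If `M` acts coprimely on `R` and trivially on `C` and on `R/C` then it acts trivially on `R`.
More generally modulo a normal subgroup `Q` of `R`: `[R, M] ≤ C Q`-version is obtained from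
this statement: here `[R, M] ≤ C` and `[C, M] ≤ Q` imply `[R, M] ≤ Q`.
PROOF. `⁅R, M⁆ = ⁅⁅R, M⁆, M⁆ ≤ ⁅C, M⁆ ≤ Q`. -/
theorem triv_of_factors (R M C Q : Subgroup Γ) (hn : M ≤ Nrm R) (hs : Group.IsSolvable R)
    (hc : (Nat.card R).Coprime (Nat.card M)) (h1 : ⁅R, M⁆ ≤ C) (h2 : ⁅C, M⁆ ≤ Q) :
    ⁅R, M⁆ ≤ Q := by
  rw [← comm_comm R M hn hs hc]
  exact (Subgroup.commutator_mono h1 le_rfl).trans h2

end FT
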