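import Mathlib
import Pool.Agent.helper11.FT.Defs
import Pool.Agent.helper11.FT.Glaub
import Pool.Agent.helper11.FT.Cop

/-! # FT-Cop2: standard facts on coprime action (everything inside one finite group `Γ`)

`⁅R, M⁆` is the subgroup generated by the commutators `⁅x, m⁆ = x m x⁻¹ m⁻¹`. -/

namespace FT

universe u

open scoped commutatorElement

variable {Γ : Type u} [Group Γ] [Finite Γ]

omit [Finite Γ] in
private theorem c2_conj {P : Subgroup Γ} {g x : Γ} (hg : g ∈ Nrm P)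
    (hx : x ∈ P) : g * x * g⁻¹ ∈ P :=
  (Subgroup.mem_normalizer_iff.1 hg x).1 hx

omit [Finite Γ] in
private theorem c2_conj' {P : Subgroup Γ} {g x : Γ} (hg : g ∈ Nrm P)
    (hx : x ∈ P) : g⁻¹ * x * g ∈ P := by
  have h := c2_conj (inv_mem hg) hx
  rwa [inv_inv] at h

omit [Finite Γ] in
private theorem c2_nrm {P N : Subgroup Γ}
    (h : ∀ g ∈ N, ∀ x ∈ P, g * x * g⁻¹ ∈ P) : N ≤ Nrm P := by
  intro g hg
  rw [Subgroup.mem_normalizer_iff]
  intro x
  refine ⟨fun hx => h g hg x hx, fun hx => ?_⟩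
  have h1 := h g⁻¹ (inv_mem hg) _ hx
  have h2 : g⁻¹ * (g * x * g⁻¹) * g⁻¹⁻¹ = x := by group
  rwa [h2] at h1

omit [Finite Γ] in
private theorem c2_sol {H C : Subgroup Γ} (hs : Group.IsSolvable H) (h : C ≤ H) :
    Group.IsSolvable C :=
  Group.isSolvable_of_isSolvable_injective (Subgroup.inclusion_injective h)

private theorem c2_fix (R C M : Subgroup Γ) (hn : M ≤ Nrm C) (hs : Group.IsSolvable C)
    (hc : (Nat.card C).Coprime (Nat.card M)) (hCR : C ≤ R) (x : Γ) (hx : x ∈ R)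
    (h : ∀ m ∈ M, ⁅x, m⁆ ∈ C) (hxn : x ∈ Nrm C) :
    ∃ c ∈ R, ∃ y ∈ C, (∀ m ∈ M, m * c = c * m) ∧ x = c * y := by
  obtain ⟨y, hy, hfix⟩ := fix_coset C M hn hs hc x (by
    intro m hm
    have h1 := c2_conj' hxn (C.inv_mem (h m hm))
    have h2 : x⁻¹ * (⁅x, m⁆)⁻¹ * x = x⁻¹ * (m * x * m⁻¹) := by
      rw [commutatorElement_def]
      group
    rwa [h2] at h1)
  exact ⟨x * y, R.mul_mem hx (hCR hy), y⁻¹, C.inv_mem hy, hfix, by group⟩

/-- Coprime action on a `r`-group modulo a subgroup `D` containing the Frattini subgroup: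
if `⁅P, P⁆ ≤ D`, all `r`-th powers of elements of `P` lie in `D`, `Q ≤ D ≤ P`, `[D, P] ≤ Q` and
`[P, M] ≤ D` then `[P, M] ≤ Q ⊔ (...)`. We only need the following form: if moreover
`D = ⁅P, P⁆ ⊔ Q` (with `Q` normal in `P` and `M`-invariant) and `[P, M] ≤ D` then `[P, M] ≤ Q`.
PROOF. `P = C_P(M) D`: for `x ∈ P` the coset `x D` is `M`-invariant, so `fix_coset` gives
`x = c d`, `c` commuting with `M`, `d ∈ D`. Modulo `Q` (`D/Q` is central in `P/Q`):
`⁅x, y⁆` with `x = c d`, `y = c' d'` is congruent to `⁅c, c'⁆` modulo `Q`, which commutes with `M`.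
Hence `M` centralises generators of `D = ⁅P, P⁆ ⊔ Q` modulo `Q` (use `[D, P] ≤ Q`), so
`[D, M] ≤ Q`, and `triv_of_factors` gives `[P, M] ≤ Q`. -/
theorem triv_of_frat (P M D Q : Subgroup Γ) (hn : M ≤ Nrm P) (hnQ : M ≤ Nrm Q)
    (hPQ : P ≤ Nrm Q) (hQ : Q ≤ P) (hs : Group.IsSolvable P)
    (hc : (Nat.card P).Coprime (Nat.card M)) (hD : D = ⁅P, P⁆ ⊔ Q) (hcen : ⁅D, P⁆ ≤ Q)
    (h : ⁅P, M⁆ ≤ D) : ⁅P, M⁆ ≤ Q := by
  have hQD : Q ≤ D := by
    rw [hD]
    exact le_sup_right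
  have hDP : D ≤ P := by
    rw [hD]
    refine sup_le ?_ hQ
    rw [Subgroup.commutator_le]
    intro x hx y hy
    rw [commutatorElement_def]
    exact P.mul_mem (P.mul_mem (P.mul_mem hx hy) (P.inv_mem hx)) (P.inv_mem hy)
  have hPD : P ≤ Nrm D := by
    refine c2_nrm fun x hx d hd => ?_
    have h1 := hQD (hcen (Subgroup.commutator_mem_commutator hd hx))
    have h2 : x * d * x⁻¹ = (⁅d, x⁆)⁻¹ * d := by
      rw [commutatorElement_def]
      group
    rw [h2]
    exact D.mul_mem (D.inv_mem h1) hd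
  have hMD : M ≤ Nrm D := by
    refine c2_nrm fun m hm => ?_
    have h5 : D ≤ D.comap (MulAut.conj m).toMonoidHom := by
      nth_rewrite 1 [hD]
      refine sup_le ?_ (fun y hy => ?_)
      · rw [Subgroup.commutator_le]
        intro x hx y hy
        change m * ⁅x, y⁆ * m⁻¹ ∈ D
        have h6 : m * ⁅x, y⁆ * m⁻¹ = ⁅m * x * m⁻¹, m * y * m⁻¹⁆ := by
          rw [commutatorElement_def, commutatorElement_def]
          group
        rw [h6, hD]
        exact Subgroup.mem_sup_left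
          (Subgroup.commutator_mem_commutator (c2_conj (hn hm) hx) (c2_conj (hn hm) hy))
      · exact hQD (c2_conj (hnQ hm) hy)
    exact fun y hy => h5 hy
  let S : Subgroup Γ :=
    { carrier := {d | d ∈ P ∧ ∀ m ∈ M, ⁅d, m⁆ ∈ Q}
      one_mem' := ⟨P.one_mem, fun m _ => by rw [commutatorElement_one_left]; exact Q.one_mem⟩
      mul_mem' := by
        rintro a b ⟨ha, ha'⟩ ⟨hb, hb'⟩
        refine ⟨P.mul_mem ha hb, fun m hm => ?_⟩
        have h1 : ⁅a * b, m⁆ = a * ⁅b, m⁆ * a⁻¹ * ⁅a, m⁆ := by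
          simp only [commutatorElement_def]
          group
        rw [h1]
        exact Q.mul_mem (c2_conj (hPQ ha) (hb' m hm)) (ha' m hm)
      inv_mem' := by
        rintro a ⟨ha, ha'⟩
        refine ⟨P.inv_mem ha, fun m hm => ?_⟩
        have h1 : ⁅a⁻¹, m⁆ = a⁻¹ * (⁅a, m⁆)⁻¹ * a := by
          simp only [commutatorElement_def]
          group
        rw [h1]
        exact c2_conj' (hPQ ha) (Q.inv_mem (ha' m hm)) }
  have hQS : Q ≤ S := by
    intro q hq
    refine ⟨hQ hq, fun m hm => ?_⟩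
    have h1 : ⁅q, m⁆ = q * (m * q⁻¹ * m⁻¹) := by
      rw [commutatorElement_def]
      group
    rw [h1]
    exact Q.mul_mem hq (c2_conj (hnQ hm) (Q.inv_mem hq))
  have hsD := c2_sol hs hDP
  have hcD : (Nat.card D).Coprime (Nat.card M) :=
    Nat.Coprime.of_dvd_left (Subgroup.card_dvd_of_le hDP) hc
  have hfix : ∀ x ∈ P, ∃ c ∈ P, ∃ y ∈ D, (∀ m ∈ M, m * c = c * m) ∧ x = c * y := fun x hx =>
    c2_fix P D M hMD hsD hcD hDP x hx
      (fun m hm => h (Subgroup.commutator_mem_commutator hx hm)) (hPD hx)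
  have hPPS : ⁅P, P⁆ ≤ S := by
    rw [Subgroup.commutator_le]
    intro x hx y hy
    obtain ⟨c, hcP, d, hd, hcM, rfl⟩ := hfix x hx
    obtain ⟨c', hcP', d', hd', hcM', rfl⟩ := hfix y hy
    have h1 : ⁅c * d, c' * d'⁆ =
        (c * ⁅d, c' * d'⁆ * c⁻¹) * (⁅c, c'⁆ * (c' * (⁅d', c⁆)⁻¹ * c'⁻¹)) := by
      simp only [commutatorElement_def]
      group
    rw [h1]
    refine S.mul_mem (hQS (c2_conj (hPQ hcP)
      (hcen (Subgroup.commutator_mem_commutator hd hy)))) (S.mul_mem ?_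
      (hQS (c2_conj (hPQ hcP')
        (Q.inv_mem (hcen (Subgroup.commutator_mem_commutator hd' hcP))))))
    refine ⟨?_, fun m hm => ?_⟩
    · rw [commutatorElement_def]
      exact P.mul_mem (P.mul_mem (P.mul_mem hcP hcP') (P.inv_mem hcP)) (P.inv_mem hcP')
    · have h2 : ⁅⁅c, c'⁆, m⁆ = 1 := by
        rw [commutatorElement_eq_one_iff_mul_comm]
        have e1 : Commute c m := (hcM m hm).symm
        have e2 : Commute c' m := (hcM' m hm).symm
        rw [commutatorElement_def]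
        exact (((e1.mul_left e2).mul_left e1.inv_left).mul_left e2.inv_left).eq
      rw [h2]
      exact Q.one_mem
  have hDS : D ≤ S := by
    rw [hD]
    exact sup_le hPPS hQS
  refine triv_of_factors P M D Q hn hs hc h ?_
  rw [Subgroup.commutator_le]
  intro d hd m hm
  exact (hDS hd).2 m hm

/-- If `C` is an `M`-invariant subgroup of `R`, `x ∈ R` and `[x, M] ≤ C` then `x = c y` with
`c ∈ R` commuting with `M` and `y ∈ C`. Direct from `fix_coset`. -/
theorem exists_fix_mul (R C M : Subgroup Γ) (hn : M ≤ Nrm C) (hs : Group.IsSolvable C)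
    (hc : (Nat.card C).Coprime (Nat.card M)) (hCR : C ≤ R) (x : Γ) (hx : x ∈ R)
    (h : ∀ m ∈ M, ⁅x, m⁆ ∈ C) (hxn : x ∈ Nrm C) :
    ∃ c ∈ R, ∃ y ∈ C, (∀ m ∈ M, m * c = c * m) ∧ x = c * y :=
  c2_fix R C M hn hs hc hCR x hx h hxn

/-- a group normalising the `p`-group `S` acts faithfully enough: elements of coprime prime power
orders in a nilpotent normal subgroup commute. Here: `F` nilpotent, `x y ∈ F`, `x` of `p`-power
order and `y` of `q`-power order, `p ≠ q`: they commute. -/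
theorem commute_of_nilpotent (F : Subgroup Γ) (hF : Group.IsNilpotent F) (p q : ℕ)
    (hp : p.Prime) (hq : q.Prime) (hpq : p ≠ q) (x y : Γ) (hx : x ∈ F) (hy : y ∈ F)
    (hxo : ∃ a, orderOf x = p ^ a) (hyo : ∃ b, orderOf y = q ^ b) : x * y = y * x := by
  have : Fact p.Prime := ⟨hp⟩
  have : Fact q.Prime := ⟨hq⟩
  obtain ⟨a, ha⟩ := hxo
  obtain ⟨b, hb⟩ := hyo
  let x' : F := ⟨x, hx⟩
  let y' : F := ⟨y, hy⟩
  have hx' : orderOf x' = p ^ a := by
    rw [← ha]
    exact Subgroup.orderOf_mk x hx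
  have hy' : orderOf y' = q ^ b := by
    rw [← hb]
    exact Subgroup.orderOf_mk y hy
  have hxp : IsPGroup p (Subgroup.zpowers x') := IsPGroup.of_card (n := a) (by
    rw [Nat.card_zpowers, hx'])
  have hyq : IsPGroup q (Subgroup.zpowers y') := IsPGroup.of_card (n := b) (by
    rw [Nat.card_zpowers, hy'])
  obtain ⟨P, hP⟩ := hxp.exists_le_sylow
  obtain ⟨Q, hQ⟩ := hyq.exists_le_sylow
  have hnc := Group.normalizerCondition_of_isNilpotent (G := F)
  have hPn : (P : Subgroup F).Normal := P.normal_of_normalizerCondition hnc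
  have hQn : (Q : Subgroup F).Normal := Q.normal_of_normalizerCondition hnc
  have hdis : Disjoint (P : Subgroup F) (Q : Subgroup F) :=
    IsPGroup.disjoint_of_ne p q hpq _ _ P.isPGroup' Q.isPGroup'
  have hcom : x' * y' = y' * x' := Subgroup.commute_of_normal_of_disjoint _ _ hPn hQn hdis x' y'
    (hP (Subgroup.mem_zpowers x')) (hQ (Subgroup.mem_zpowers y'))
  exact congrArg Subtype.val hcom

end FT
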