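import Mathlib
import Pool.Agent.helper11.FT.Defs
import Pool.Agent.helper11.FT.HomBasic

/-! # FT-Tower: towers, definitions (section 1 of the plan) -/

namespace FT

universe u

open scoped commutatorElement

/-- A tower of length `n` (levels `0..n`), without the hypotheses on the prime `p 0`. -/
structure TowerCore (Γ : Type u) [Group Γ] where
  n : ℕ
  P : ℕ → Subgroup Γ
  Q : ℕ → Subgroup Γ
  p : ℕ → ℕ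
  Y : Subgroup Γ
  hp : ∀ i ≤ n, (p i).Prime
  hP : ∀ i ≤ n, IsPGroup (p i) (P i)
  adj : ∀ i < n, p i ≠ p (i + 1)
  cop : ∀ i ≤ n, (p i).Coprime (Nat.card Y)
  hY : ∀ i ≤ n, Y ≤ Nrm (P i)
  hN : ∀ i j, i < j → j ≤ n → P i ≤ Nrm (P j)
  Qn : Q n = ⊥
  Qi : ∀ i < n, ∀ x, x ∈ Q i ↔ x ∈ P i ∧ ∀ y ∈ P (i + 1), ⁅x, y⁆ ∈ Q (i + 1)
  T1 : ∀ i ≤ n, ¬ P i ≤ Q i
  T2 : ∀ i < n, ⁅P (i + 1), P i⁆ = P (i + 1)
  T3 : ∀ i < n, ∀ R : Subgroup Γ, R ≤ P (i + 1) → R ≠ P (i + 1) → Y ≤ Nrm R →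
    (∀ j ≤ i, P j ≤ Nrm R) → ⁅R, P i⁆ ≤ Q (i + 1)
  T4 : ∀ R : Subgroup Γ, R ≤ P 0 → R ≠ P 0 → Y ≤ Nrm R → R ≤ Q 0

/-- A tower together with the fixed point hypotheses (W) for the prime `p 0`. -/
structure Tower (Γ : Type u) [Group Γ] extends TowerCore Γ where
  S : Subgroup Γ
  hS : IsPGroup (p 0) S
  hSP : ∀ i ≤ n, p i = p 0 → P i ≤ S
  W1 : ∀ i ≤ n, p i = p 0 → ∀ x ∈ P i, (∀ y ∈ Y, y * x = x * y) → x = 1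
  W2 : ∀ i ≤ n, p i ≠ p 0 → ∀ x ∈ P i, (∀ y ∈ Y, y * x = x * y) →
    ∀ m < i, p m = p 0 → ∀ u ∈ P m, x * u = u * x

namespace TowerCore

variable {Γ : Type u} [Group Γ] (T : TowerCore Γ)

/-- `D_i = [P_i,P_i] Q_i` -/
def D (i : ℕ) : Subgroup Γ := ⁅T.P i, T.P i⁆ ⊔ T.Q i

/-- level `i` is abelian -/
def Ab (i : ℕ) : Prop := ⁅T.P i, T.P i⁆ ≤ T.Q i

open scoped Classical in
/-- `Z_i = P_i` for abelian levels and `D_i` for special ones -/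
noncomputable def Z (i : ℕ) : Subgroup Γ := if T.Ab i then T.P i else T.D i

/-- `Hom(P_i/Q_i, F_{p_i})` -/
abbrev H (i : ℕ) : Submodule (ZMod (T.p i)) (CF Γ (ZMod (T.p i))) :=
  HomOn (ZMod (T.p i)) (T.P i) (T.Q i)

/-- `λ` occurs at level `i`: `0 ≠ λ ∈ Hom(Z_i/Q_i, F_{p_i})` and some `0 ≠ f ∈ H (i+1)` is fixed by
the kernel of `λ` -/
def Occ (i : ℕ) (l : CF Γ (ZMod (T.p i))) : Prop :=
  l ∈ HomOn (ZMod (T.p i)) (T.Z i) (T.Q i) ∧ l ≠ 0 ∧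
    ∃ f ∈ T.H (i + 1), f ≠ 0 ∧ ∀ z ∈ T.Z i, l z = 0 → z • f = f

/-- the join of the `P m`, `m ≤ i`, `p m = p 0` -/
def Np (i : ℕ) : Subgroup Γ := ⨆ m : {m : ℕ // m ≤ i ∧ T.p m = T.p 0}, T.P m

/-- the stabilizer in `Y` -/
def Yst {Ω : Type*} [MulAction Γ Ω] (ω : Ω) : Subgroup Γ := T.Y ⊓ MulAction.stabilizer Γ ω

theorem mem_Yst {Ω : Type*} [MulAction Γ Ω] (ω : Ω) (y : Γ) :
    y ∈ T.Yst ω ↔ y ∈ T.Y ∧ y • ω = ω := Iff.rfl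

/-- good characters (section 3) -/
def Good (i : ℕ) (l : CF Γ (ZMod (T.p i))) : Prop :=
  T.p i = T.p 0 ∨ T.p (i + 1) = T.p 0 ∨ ∃ u ∈ T.Np i, u • l ≠ l

/-- the radical of `λ` at level `i`: elements `x ∈ P_i` with `λ ⁅x,y⁆ = 0` for all `y ∈ P_i` -/
def Rad (i : ℕ) (l : CF Γ (ZMod (T.p i))) : Subgroup Γ :=
  Subgroup.closure {x | x ∈ T.P i ∧ ∀ y ∈ T.P i, l ⁅x, y⁆ = 0}

end TowerCore

end FT
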