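import Mathlib
import Pool.Agent.helper11.FT.Defs
import Pool.Agent.helper11.FT.HomBasic
import Pool.Agent.helper11.FT.Cop
import Pool.Agent.helper11.FT.Cop2
import Pool.Agent.helper11.FT.Tower

/-! # FT-TS0: structure of the levels of a tower (section 2 of the plan) -/

namespace FT

universe u

open scoped commutatorElement

namespace TowerCore

variable {Γ : Type u} [Group Γ] (T : TowerCore Γ)

theorem Q_le_D (i : ℕ) : T.Q i ≤ T.D i := le_sup_right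

theorem D_eq_of_Ab (i : ℕ) (h : T.Ab i) : T.D i = T.Q i := sup_eq_right.2 h

theorem Z_eq_of_Ab (i : ℕ) (h : T.Ab i) : T.Z i = T.P i := if_pos h

theorem Z_eq_of_not_Ab (i : ℕ) (h : ¬ T.Ab i) : T.Z i = T.D i := if_neg h

/-- conjugation by an element of the normalizer -/
private theorem ts0_conj {R : Subgroup Γ} {g x : Γ} (hg : g ∈ Nrm R) (hx : x ∈ R) :
    g * x * g⁻¹ ∈ R := (Subgroup.mem_normalizer_iff.1 hg x).1 hx

private theorem ts0_nrm {R : Subgroup Γ} {g : Γ} (h : ∀ x ∈ R, g * x * g⁻¹ ∈ R)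
    (h' : ∀ x ∈ R, g⁻¹ * x * g ∈ R) : g ∈ Nrm R := by
  rw [Subgroup.mem_normalizer_iff]
  intro x
  refine ⟨fun hx => h x hx, fun hx => ?_⟩
  have h1 := h' _ hx
  have h2 : g⁻¹ * (g * x * g⁻¹) * g = x := by group
  rwa [h2] at h1

private theorem ts0_nrm_sub {R : Subgroup Γ} {N : Subgroup Γ}
    (h : ∀ g ∈ N, ∀ x ∈ R, g * x * g⁻¹ ∈ R) : N ≤ Nrm R := by
  intro g hg
  refine ts0_nrm (h g hg) fun x hx => ?_
  have h1 := h g⁻¹ (inv_mem hg) x hx
  rwa [inv_inv] at h1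

private theorem ts0_Q (N : Subgroup Γ) (k : ℕ) : ∀ i, T.n - i = k → i ≤ T.n →
    (∀ j, i ≤ j → j ≤ T.n → N ≤ Nrm (T.P j)) → N ≤ Nrm (T.Q i) := by
  induction k with
  | zero =>
    intro i hk hi _
    have h1 : i = T.n := by omega
    rw [h1, T.Qn]
    refine ts0_nrm_sub fun g _ x hx => ?_
    rw [Subgroup.mem_bot] at hx ⊢
    rw [hx]; group
  | succ k ih =>
    intro i hk hi h
    have h1 : i < T.n := by omega
    have h2 := ih (i + 1) (by omega) (by omega) (fun j hj hj' => h j (by omega) hj')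
    refine ts0_nrm_sub fun g hg x hx => ?_
    rw [T.Qi i h1] at hx ⊢
    refine ⟨ts0_conj (h i le_rfl hi hg) hx.1, fun y hy => ?_⟩
    have h3 : g⁻¹ * y * g⁻¹⁻¹ ∈ T.P (i + 1) :=
      ts0_conj (inv_mem (h (i + 1) (by omega) (by omega) hg)) hy
    have h4 := ts0_conj (h2 hg) (hx.2 _ h3)
    have h5 : g * ⁅x, g⁻¹ * y * g⁻¹⁻¹⁆ * g⁻¹ = ⁅g * x * g⁻¹, y⁆ := by
      rw [commutatorElement_def, commutatorElement_def]; group
    rwa [h5] at h4

private theorem ts0_map {R : Subgroup Γ} {g : Γ} (hg : g ∈ Nrm R) :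
    R.map (MulAut.conj g).toMonoidHom = R := by
  ext x
  rw [Subgroup.mem_map]
  constructor
  · rintro ⟨y, hy, rfl⟩
    exact ts0_conj hg hy
  · intro hx
    refine ⟨g⁻¹ * x * g⁻¹⁻¹, ts0_conj (inv_mem hg) hx, ?_⟩
    show g * (g⁻¹ * x * g⁻¹⁻¹) * g⁻¹ = x
    group

private theorem ts0_D {P Q N : Subgroup Γ} (hP : N ≤ Nrm P) (hQ : N ≤ Nrm Q) :
    N ≤ Nrm (⁅P, P⁆ ⊔ Q) := by
  refine ts0_nrm_sub fun g hg x hx => ?_
  have h1 : (⁅P, P⁆ ⊔ Q).map (MulAut.conj g).toMonoidHom = ⁅P, P⁆ ⊔ Q := by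
    rw [Subgroup.map_sup, Subgroup.map_commutator, ts0_map (hP hg), ts0_map (hQ hg)]
  rw [← h1]
  exact Subgroup.mem_map.2 ⟨x, hx, rfl⟩

variable [Finite Γ]

theorem Q_le (i : ℕ) (hi : i ≤ T.n) : T.Q i ≤ T.P i := by
  rcases Nat.lt_or_ge i T.n with h | h
  · intro x hx
    exact ((T.Qi i h x).1 hx).1
  · have h1 : i = T.n := by omega
    rw [h1, T.Qn]
    exact bot_le

/-- `Y` and the `P j`, `j ≤ i`, normalise `Q i` (downward induction on `i`: `Q i` is the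
centralizer in `P i` of the section `P (i+1) / Q (i+1)`). -/
theorem Y_nrm_Q (i : ℕ) (hi : i ≤ T.n) : T.Y ≤ Nrm (T.Q i) := by
  exact ts0_Q T T.Y _ i rfl hi fun j _ hj => T.hY j hj

theorem P_nrm_Q (i j : ℕ) (hij : j ≤ i) (hi : i ≤ T.n) : T.P j ≤ Nrm (T.Q i) := by
  refine ts0_Q T (T.P j) _ i rfl hi fun k hk hkn => ?_
  rcases Nat.lt_or_ge j k with h | h
  · exact T.hN j k h hkn
  · have h1 : j = k := by omega
    rw [h1]
    exact Subgroup.le_normalizer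

theorem P_nrm_P (i j : ℕ) (hij : j ≤ i) (hi : i ≤ T.n) : T.P j ≤ Nrm (T.P i) := by
  rcases Nat.lt_or_ge j i with h | h
  · exact T.hN j i h hi
  · have h1 : j = i := by omega
    rw [h1]
    exact Subgroup.le_normalizer

theorem D_le (i : ℕ) (hi : i ≤ T.n) : T.D i ≤ T.P i := by
  refine sup_le ?_ (Q_le T i hi)
  rw [Subgroup.commutator_le]
  intro x hx y hy
  rw [commutatorElement_def]
  exact mul_mem (mul_mem (mul_mem hx hy) (inv_mem hx)) (inv_mem hy)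

theorem Y_nrm_D (i : ℕ) (hi : i ≤ T.n) : T.Y ≤ Nrm (T.D i) := by
  exact ts0_D (T.hY i hi) (Y_nrm_Q T i hi)

theorem P_nrm_D (i j : ℕ) (hij : j ≤ i) (hi : i ≤ T.n) : T.P j ≤ Nrm (T.D i) := by
  exact ts0_D (P_nrm_P T i j hij hi) (P_nrm_Q T i j hij hi)

theorem solv (i : ℕ) (hi : i ≤ T.n) : Group.IsSolvable (T.P i) := by
  have : Fact (T.p i).Prime := ⟨T.hp i hi⟩
  have := (T.hP i hi).isNilpotent
  infer_instance

/-- orders of `P i` and `P (i+1)` are coprime -/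
theorem cop_adj (i : ℕ) (hi : i < T.n) :
    (Nat.card (T.P i)).Coprime (Nat.card (T.P (i + 1))) := by
  have : Fact (T.p i).Prime := ⟨T.hp i (by omega)⟩
  have : Fact (T.p (i + 1)).Prime := ⟨T.hp (i + 1) (by omega)⟩
  obtain ⟨a, ha⟩ := IsPGroup.iff_card.1 (T.hP i (by omega))
  obtain ⟨b, hb⟩ := IsPGroup.iff_card.1 (T.hP (i + 1) (by omega))
  rw [ha, hb]
  exact Nat.Coprime.pow a b ((Nat.coprime_primes (T.hp i (by omega)) (T.hp (i + 1) (by omega))).2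
    (T.adj i hi))

theorem cop_Y (i : ℕ) (hi : i ≤ T.n) : (Nat.card (T.P i)).Coprime (Nat.card T.Y) := by
  have : Fact (T.p i).Prime := ⟨T.hp i (by omega)⟩
  obtain ⟨a, ha⟩ := IsPGroup.iff_card.1 (T.hP i hi)
  rw [ha]
  exact Nat.Coprime.pow_left a (T.cop i hi)

end TowerCore

end FT
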