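import Mathlib
import Pool.Agent.helper11.FT.Defs
import Pool.Agent.helper11.FT.HomBasic
import Pool.Agent.helper11.FT.Cop
import Pool.Agent.helper11.FT.Cop2
import Pool.Agent.helper11.FT.Tower
import Pool.Agent.helper11.FT.TS0

/-! # FT-TSs: structure of the levels of a tower (section 2 of the plan) -/

namespace FT

universe u

open scoped commutatorElement

section Aux

variable {Γ : Type u} [Group Γ]

private theorem tss_nrm {P N : Subgroup Γ}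
    (h : ∀ g ∈ N, ∀ x ∈ P, g * x * g⁻¹ ∈ P) : N ≤ Nrm P := by
  intro g hg
  rw [Subgroup.mem_normalizer_iff]
  intro x
  refine ⟨fun hx => h g hg x hx, fun hx => ?_⟩
  have h1 := h g⁻¹ (inv_mem hg) _ hx
  have h2 : g⁻¹ * (g * x * g⁻¹) * g⁻¹⁻¹ = x := by group
  rwa [h2] at h1

private theorem tss_conj {P : Subgroup Γ} {g x : Γ} (hg : g ∈ Nrm P)
    (hx : x ∈ P) : g * x * g⁻¹ ∈ P :=
  (Subgroup.mem_normalizer_iff.1 hg x).1 hx

private theorem tss_conj' {P : Subgroup Γ} {g x : Γ} (hg : g ∈ Nrm P)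
    (hx : x ∈ P) : g⁻¹ * x * g ∈ P := by
  have h := tss_conj (inv_mem hg) hx
  rwa [inv_inv] at h

/-- the subgroup generated by the `p`-th powers of elements of `P` -/
private def tss_pow (p : ℕ) (P : Subgroup Γ) : Subgroup Γ :=
  Subgroup.closure {z | ∃ x ∈ P, z = x ^ p}

private theorem tss_pow_le {p : ℕ} {P M : Subgroup Γ} (h : ∀ x ∈ P, x ^ p ∈ M) :
    tss_pow p P ≤ M := by
  unfold tss_pow
  rw [Subgroup.closure_le]
  rintro z ⟨x, hx, rfl⟩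
  exact h x hx

private theorem tss_mem_pow {p : ℕ} {P : Subgroup Γ} {x : Γ} (hx : x ∈ P) :
    x ^ p ∈ tss_pow p P := Subgroup.subset_closure ⟨x, hx, rfl⟩

/-- if `N` normalises `D` and `P` then it normalises `D ⊔ P ^ p` -/
private theorem tss_nrm_sup {p : ℕ} {N D P : Subgroup Γ} (hD : N ≤ Nrm D) (hP : N ≤ Nrm P) :
    N ≤ Nrm (D ⊔ tss_pow p P) := by
  refine tss_nrm fun g hg x hx => ?_
  have h1 : D ⊔ tss_pow p P ≤ (D ⊔ tss_pow p P).comap (MulAut.conj g).toMonoidHom := by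
    refine sup_le (fun y hy => ?_) (tss_pow_le fun y hy => ?_)
    · rw [Subgroup.mem_comap]
      exact Subgroup.mem_sup_left (tss_conj (hD hg) hy)
    · rw [Subgroup.mem_comap]
      have h2 : (MulAut.conj g).toMonoidHom (y ^ p) = (g * y * g⁻¹) ^ p := by
        rw [map_pow]
        rfl
      rw [h2]
      exact Subgroup.mem_sup_right (tss_mem_pow (tss_conj (hP hg) hy))
  exact h1 hx

/-- the centralizer of `F` modulo `Q` -/
private def tss_cen (Q F : Subgroup Γ) : Subgroup Γ where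
  carrier := {c | c ∈ Nrm Q ∧ ∀ f ∈ F, ⁅c, f⁆ ∈ Q}
  one_mem' := ⟨one_mem _, fun f _ => by
    rw [commutatorElement_def]
    simp⟩
  mul_mem' := by
    rintro a b ⟨ha, ha'⟩ ⟨hb, hb'⟩
    refine ⟨mul_mem ha hb, fun f hf => ?_⟩
    have h1 : ⁅a * b, f⁆ = a * ⁅b, f⁆ * a⁻¹ * ⁅a, f⁆ := by
      simp only [commutatorElement_def]
      group
    rw [h1]
    exact Q.mul_mem (tss_conj ha (hb' f hf)) (ha' f hf)
  inv_mem' := by
    rintro a ⟨ha, ha'⟩
    refine ⟨inv_mem ha, fun f hf => ?_⟩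
    have h1 : ⁅a⁻¹, f⁆ = a⁻¹ * ⁅a, f⁆⁻¹ * a := by
      simp only [commutatorElement_def]
      group
    rw [h1]
    exact tss_conj' ha (Q.inv_mem (ha' f hf))

/-- the three subgroups lemma modulo `Q` -/
private theorem tss_three (P R F Q : Subgroup Γ) (hPQ : P ≤ Nrm Q) (hRQ : R ≤ Nrm Q)
    (hPF : P ≤ Nrm F) (h : ⁅F, R⁆ ≤ Q) : ⁅⁅P, R⁆, F⁆ ≤ Q := by
  have h1 : R ≤ tss_cen Q F := fun r hr => ⟨hRQ hr, fun f hf => by
    have h2 : ⁅r, f⁆ = ⁅f, r⁆⁻¹ := (commutatorElement_inv f r).symm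
    rw [h2]
    exact Q.inv_mem (h (Subgroup.commutator_mem_commutator hf hr))⟩
  have h2 : ⁅P, R⁆ ≤ tss_cen Q F := by
    rw [Subgroup.commutator_le]
    intro x hx r hr
    have h3 : x * r * x⁻¹ ∈ tss_cen Q F := by
      refine ⟨mul_mem (mul_mem (hPQ hx) (hRQ hr)) (inv_mem (hPQ hx)), fun f hf => ?_⟩
      have h4 : ⁅x * r * x⁻¹, f⁆ = x * ⁅r, x⁻¹ * f * x⁆ * x⁻¹ := by
        simp only [commutatorElement_def]
        group
      rw [h4]
      exact tss_conj (hPQ hx) ((h1 hr).2 _ (tss_conj' (hPF hx) hf))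
    rw [commutatorElement_def]
    exact (tss_cen Q F).mul_mem h3 ((tss_cen Q F).inv_mem (h1 hr))
  rw [Subgroup.commutator_le]
  intro c hc f hf
  exact (h2 hc).2 f hf

/-- in a `p`-group there is a maximal subgroup above every proper subgroup -/
private theorem tss_frat [Finite Γ] {p : ℕ} (hp : p.Prime) (P Q : Subgroup Γ) (hP : IsPGroup p P)
    (hQ : ¬ P ≤ Q) (hQP : Q ≤ P) :
    ∃ M : Subgroup Γ, Q ≤ M ∧ M ≤ P ∧ M ≠ P ∧ (∀ x ∈ P, ∀ y ∈ P, ⁅x, y⁆ ∈ M) ∧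
      ∀ x ∈ P, x ^ p ∈ M := by
  have := Fact.mk hp
  obtain ⟨n, hn⟩ := (IsPGroup.iff_card).1 hP
  obtain ⟨a, ha⟩ := (IsPGroup.iff_card).1 (hP.to_subgroup (Q.subgroupOf P))
  have hQt : Q.subgroupOf P ≠ ⊤ := fun h => hQ (Subgroup.subgroupOf_eq_top.1 h)
  have han : a < n := by
    by_contra h
    apply hQt
    apply Subgroup.eq_top_of_le_card
    rw [hn, ha]
    exact Nat.pow_le_pow_right hp.pos (not_lt.1 h)
  obtain ⟨K, hK, hQK⟩ := Sylow.exists_subgroup_card_pow_prime_le p (n := a) (m := n - 1)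
    (by rw [hn]; exact pow_dvd_pow p (Nat.sub_le n 1)) (Q.subgroupOf P) ha (by omega)
  have hidx : K.index = p := by
    have h1 := K.card_mul_index
    rw [hn, hK] at h1
    have h2 : p ^ n = p ^ (n - 1) * p := by
      rw [← pow_succ]
      congr 1
      omega
    rw [h2] at h1
    exact Nat.eq_of_mul_eq_mul_left (pow_pos hp.pos _) h1
  have hKn : K.Normal := by
    apply Subgroup.normal_of_index_eq_minFac_card
    rw [hidx, hn, hp.pow_minFac (by omega)]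
  have hcard : Nat.card (P ⧸ K) = p := by rw [← Subgroup.index_eq_card, hidx]
  have hcyc : IsCyclic (P ⧸ K) := isCyclic_of_prime_card hcard
  refine ⟨K.map P.subtype, fun x hx => ?_, ?_, fun h => ?_, fun x hx y hy => ?_, fun x hx => ?_⟩
  · exact ⟨⟨x, hQP hx⟩, hQK (by rw [Subgroup.mem_subgroupOf]; exact hx), rfl⟩
  · exact Subgroup.map_subtype_le K
  · have h1 : K = ⊤ := by
      rw [eq_top_iff]
      intro x _
      have h2 : (x : Γ) ∈ K.map P.subtype := by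
        rw [h]
        exact x.2
      obtain ⟨y, hy, hyx⟩ := h2
      have h3 : y = x := Subtype.ext hyx
      rw [← h3]
      exact hy
    rw [h1, Subgroup.index_top] at hidx
    exact hp.one_lt.ne hidx
  · refine ⟨⁅(⟨x, hx⟩ : P), ⟨y, hy⟩⁆, ?_, rfl⟩
    have h1 : ((⁅(⟨x, hx⟩ : P), ⟨y, hy⟩⁆ : P) : P ⧸ K) = 1 := by
      have h2 : ((⁅(⟨x, hx⟩ : P), ⟨y, hy⟩⁆ : P) : P ⧸ K) =
          ⁅(((⟨x, hx⟩ : P)) : P ⧸ K), (((⟨y, hy⟩ : P)) : P ⧸ K)⁆ := rfl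
      rw [h2, commutatorElement_eq_one_iff_mul_comm]
      obtain ⟨g, hg⟩ := hcyc.exists_generator
      obtain ⟨i, hi⟩ := Subgroup.mem_zpowers_iff.1 (hg (((⟨x, hx⟩ : P)) : P ⧸ K))
      obtain ⟨j, hj⟩ := Subgroup.mem_zpowers_iff.1 (hg (((⟨y, hy⟩ : P)) : P ⧸ K))
      rw [← hi, ← hj, ← zpow_add, ← zpow_add, add_comm]
    exact (QuotientGroup.eq_one_iff _).1 h1
  · refine ⟨(⟨x, hx⟩ : P) ^ p, ?_, rfl⟩
    have h1 : (((⟨x, hx⟩ : P) ^ p : P) : P ⧸ K) = 1 := by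
      have h2 : (((⟨x, hx⟩ : P) ^ p : P) : P ⧸ K) = (((⟨x, hx⟩ : P)) : P ⧸ K) ^ p := rfl
      rw [h2]
      have h3 := pow_card_eq_one' (x := (((⟨x, hx⟩ : P)) : P ⧸ K))
      rwa [hcard] at h3
    exact (QuotientGroup.eq_one_iff _).1 h1

/-- coprime action without fixed points on the abelian section `P / D`, `P = ⁅P, R⁆` -/
private theorem tss_nofix [Finite Γ] (P R D : Subgroup Γ) (hRP : R ≤ Nrm P) (hDP : D ≤ P)
    (hcomm : ∀ x ∈ P, ∀ y ∈ P, ⁅x, y⁆ ∈ D) (hPR : ⁅P, R⁆ = P)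
    (hc : (Nat.card P).Coprime (Nat.card R)) (c : Γ) (hcP : c ∈ P)
    (hcR : ∀ m ∈ R, m * c = c * m) : c ∈ D := by
  classical
  have hDn : (D.subgroupOf P).Normal := by
    refine ⟨fun d hd g => ?_⟩
    rw [Subgroup.mem_subgroupOf] at hd ⊢
    have h1 : ((g * d * g⁻¹ : P) : Γ) = ⁅(g : Γ), (d : Γ)⁆ * d := by
      rw [commutatorElement_def]
      push_cast
      group
    rw [h1]
    exact D.mul_mem (hcomm _ g.2 _ d.2) hd
  have hcomm' : ∀ a b : P ⧸ D.subgroupOf P, a * b = b * a := by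
    intro a b
    induction a using QuotientGroup.induction_on with
    | H x =>
      induction b using QuotientGroup.induction_on with
      | H y =>
        rw [← QuotientGroup.mk_mul, ← QuotientGroup.mk_mul, QuotientGroup.eq,
          Subgroup.mem_subgroupOf]
        have h1 : (((x * y)⁻¹ * (y * x) : P) : Γ) = ⁅(y : Γ)⁻¹, (x : Γ)⁻¹⁆ := by
          rw [commutatorElement_def]
          push_cast
          group
        rw [h1]
        exact hcomm _ (P.inv_mem y.2) _ (P.inv_mem x.2)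
  let _ : CommGroup (P ⧸ D.subgroupOf P) :=
    { (inferInstance : Group (P ⧸ D.subgroupOf P)) with mul_comm := hcomm' }
  let _ := Fintype.ofFinite R
  let cj : R → P → P := fun m u => ⟨(m : Γ) * u * (m : Γ)⁻¹, tss_conj (hRP m.2) u.2⟩
  let N : P →* P ⧸ D.subgroupOf P :=
    { toFun := fun u => ∏ m : R, ((cj m u : P) : P ⧸ D.subgroupOf P)
      map_one' := by
        refine Finset.prod_eq_one fun m _ => ?_
        have h1 : cj m 1 = 1 := Subtype.ext (by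
          show (m : Γ) * 1 * (m : Γ)⁻¹ = 1
          group)
        rw [h1]
        rfl
      map_mul' := fun u v => by
        rw [← Finset.prod_mul_distrib]
        refine Finset.prod_congr rfl fun m _ => ?_
        have h1 : cj m (u * v) = cj m u * cj m v := Subtype.ext (by
          show (m : Γ) * (u * v) * (m : Γ)⁻¹ = ((m : Γ) * u * (m : Γ)⁻¹) * (m * v * (m : Γ)⁻¹)
          group)
        rw [h1]
        rfl }
  have hN : ∀ u, N u = ∏ m : R, ((cj m u : P) : P ⧸ D.subgroupOf P) := fun u => rfl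
  have hNr : ∀ (r : R) (u : P), N (cj r u) = N u := by
    intro r u
    rw [hN, hN]
    refine Fintype.prod_equiv (Equiv.mulRight r) _ _ fun m => ?_
    have h1 : cj m (cj r u) = cj (m * r) u := Subtype.ext (by
      show (m : Γ) * ((r : Γ) * u * (r : Γ)⁻¹) * (m : Γ)⁻¹ =
        ((m * r : R) : Γ) * u * ((m * r : R) : Γ)⁻¹
      push_cast
      group)
    rw [h1]
    rfl
  have hker : P ≤ N.ker.map P.subtype := by
    have h1 : ⁅P, R⁆ ≤ N.ker.map P.subtype := by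
      rw [Subgroup.commutator_le]
      intro u hu r hr
      refine ⟨⟨u, hu⟩ * cj ⟨r, hr⟩ ⟨u, hu⟩⁻¹, ?_, ?_⟩
      · show N (⟨u, hu⟩ * cj ⟨r, hr⟩ ⟨u, hu⟩⁻¹) = 1
        rw [map_mul, hNr, ← map_mul, mul_inv_cancel, map_one]
      · show u * (r * ((⟨u, hu⟩⁻¹ : P) : Γ) * r⁻¹) = ⁅u, r⁆
        rw [commutatorElement_def]
        push_cast
        group
    rwa [hPR] at h1
  obtain ⟨c', hc', hcc⟩ := hker hcP
  have hc'' : c' = ⟨c, hcP⟩ := Subtype.ext hcc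
  have h2 : N ⟨c, hcP⟩ = ((⟨c, hcP⟩ : P) : P ⧸ D.subgroupOf P) ^ Nat.card R := by
    rw [hN]
    have h3 : ∀ m : R, cj m ⟨c, hcP⟩ = ⟨c, hcP⟩ := fun m => Subtype.ext (by
      show (m : Γ) * c * (m : Γ)⁻¹ = c
      rw [hcR m m.2]
      group)
    simp only [h3]
    rw [Finset.prod_const, Finset.card_univ, Nat.card_eq_fintype_card]
  have h3 : N ⟨c, hcP⟩ = 1 := by
    rw [← hc'']
    exact hc'
  rw [h2, ← QuotientGroup.mk_pow, QuotientGroup.eq_one_iff, Subgroup.mem_subgroupOf] at h3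
  have h4 : c ^ Nat.card R ∈ D := h3
  have h5 : (Nat.card R).Coprime (orderOf c) := by
    refine Nat.Coprime.coprime_dvd_right ?_ hc.symm
    rw [← Subgroup.orderOf_mk c hcP]
    exact orderOf_dvd_natCard _
  obtain ⟨k, hk⟩ := exists_pow_eq_self_of_coprime h5
  rw [← hk]
  exact D.pow_mem h4 k

/-- powers of commutators modulo `Q` -/
private theorem tss_powD {p : ℕ} (P Q : Subgroup Γ) (hPQ : P ≤ Nrm Q) (hQP : Q ≤ P)
    (hcen : ⁅⁅P, P⁆ ⊔ Q, P⁆ ≤ Q) (hpow : ∀ x ∈ P, x ^ p ∈ ⁅P, P⁆ ⊔ Q) :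
    ∀ z ∈ ⁅P, P⁆ ⊔ Q, z ^ p ∈ Q := by
  have hQn : (Q.subgroupOf P).Normal := by
    refine ⟨fun d hd g => ?_⟩
    rw [Subgroup.mem_subgroupOf] at hd ⊢
    exact tss_conj (hPQ g.2) hd
  have hDP : ⁅P, P⁆ ⊔ Q ≤ P := by
    refine sup_le ?_ hQP
    rw [Subgroup.commutator_le]
    intro x hx y hy
    rw [commutatorElement_def]
    exact P.mul_mem (P.mul_mem (P.mul_mem hx hy) (P.inv_mem hx)) (P.inv_mem hy)
  -- the quotient map
  let π : P →* P ⧸ Q.subgroupOf P := QuotientGroup.mk' _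
  have hπ : ∀ g : P, π g = 1 ↔ (g : Γ) ∈ Q := fun g => by
    rw [← Subgroup.mem_subgroupOf (K := P)]
    exact QuotientGroup.eq_one_iff g
  have hcm : ∀ z w : P, (z : Γ) ∈ ⁅P, P⁆ ⊔ Q → Commute (π z) (π w) := by
    intro z w hz
    rw [← commutatorElement_eq_one_iff_commute]
    have h1 : ⁅π z, π w⁆ = π ⁅z, w⁆ := (map_commutatorElement π z w).symm
    rw [h1, hπ]
    exact hcen (Subgroup.commutator_mem_commutator hz w.2)
  let E : Subgroup Γ :=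
    { carrier := {z | z ∈ ⁅P, P⁆ ⊔ Q ∧ z ^ p ∈ Q}
      one_mem' := ⟨one_mem _, by rw [one_pow]; exact one_mem _⟩
      mul_mem' := by
        rintro a b ⟨ha, ha'⟩ ⟨hb, hb'⟩
        refine ⟨mul_mem ha hb, ?_⟩
        have h1 : (π ⟨a, hDP ha⟩ * π ⟨b, hDP hb⟩) ^ p = 1 := by
          rw [(hcm ⟨a, hDP ha⟩ ⟨b, hDP hb⟩ ha).mul_pow, ← map_pow, ← map_pow,
            (hπ _).2 (show (((⟨a, hDP ha⟩ : P) ^ p : P) : Γ) ∈ Q from ha'),
            (hπ _).2 (show (((⟨b, hDP hb⟩ : P) ^ p : P) : Γ) ∈ Q from hb'), mul_one]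
        rw [← map_mul, ← map_pow, hπ] at h1
        exact h1
      inv_mem' := by
        rintro a ⟨ha, ha'⟩
        exact ⟨inv_mem ha, by rw [inv_pow]; exact inv_mem ha'⟩ }
  have hE : ⁅P, P⁆ ⊔ Q ≤ E := by
    refine sup_le ?_ fun x hx => ⟨Subgroup.mem_sup_right hx, Q.pow_mem hx p⟩
    rw [Subgroup.commutator_le]
    intro x hx y hy
    refine ⟨Subgroup.mem_sup_left (Subgroup.commutator_mem_commutator hx hy), ?_⟩
    have hxy : (((⁅(⟨x, hx⟩ : P), ⟨y, hy⟩⁆ : P)) : Γ) ∈ ⁅P, P⁆ ⊔ Q :=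
      Subgroup.mem_sup_left (Subgroup.commutator_mem_commutator hx hy)
    have hn : ∀ n : ℕ, ⁅π ⟨x, hx⟩ ^ n, π ⟨y, hy⟩⁆ = ⁅π ⟨x, hx⟩, π ⟨y, hy⟩⁆ ^ n := by
      intro n
      induction n with
      | zero => simp
      | succ n ih =>
        have h1 : ⁅π ⟨x, hx⟩ ^ (n + 1), π ⟨y, hy⟩⁆ =
            π ⟨x, hx⟩ * ⁅π ⟨x, hx⟩ ^ n, π ⟨y, hy⟩⁆ * (π ⟨x, hx⟩)⁻¹ *
              ⁅π ⟨x, hx⟩, π ⟨y, hy⟩⁆ := by
          rw [pow_succ']
          simp only [commutatorElement_def]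
          group
        have h2 : Commute (⁅π ⟨x, hx⟩, π ⟨y, hy⟩⁆ ^ n) (π ⟨x, hx⟩) := by
          rw [← map_commutatorElement]
          exact (hcm _ _ hxy).pow_left n
        rw [h1, ih, ← h2.eq, mul_inv_cancel_right, pow_succ]
    have h3 : ⁅π ⟨x, hx⟩, π ⟨y, hy⟩⁆ ^ p = 1 := by
      rw [← hn p, ← map_pow, commutatorElement_eq_one_iff_commute]
      exact hcm _ _ (hpow x hx)
    rw [← map_commutatorElement, ← map_pow, hπ] at h3
    exact h3
  exact fun z hz => (hE hz).2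

end Aux

namespace TowerCore

variable {Γ : Type u} [Group Γ] [Finite Γ] (T : TowerCore Γ)

private theorem tss_cfix (i : ℕ) (hi : i < T.n) (x : Γ) (hx : x ∈ T.P (i + 1))
    (h : ∀ y ∈ T.P i, ⁅x, y⁆ ∈ T.D (i + 1)) : x ∈ T.D (i + 1) := by
  have hi1 : i + 1 ≤ T.n := hi
  have hDP := T.D_le (i + 1) hi1
  have hcop := (T.cop_adj i hi).symm
  have hsol : Group.IsSolvable (T.D (i + 1)) :=
    have := T.solv (i + 1) hi1
    Group.isSolvable_of_isSolvable_injective (Subgroup.inclusion_injective hDP)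
  obtain ⟨c, hcP, y, hy, hcm, rfl⟩ := exists_fix_mul (T.P (i + 1)) (T.D (i + 1)) (T.P i)
    (T.P_nrm_D (i + 1) i (Nat.le_succ i) hi1) hsol
    (hcop.coprime_dvd_left (Subgroup.card_dvd_of_le hDP)) hDP x hx h
    (T.P_nrm_D (i + 1) (i + 1) le_rfl hi1 hx)
  refine (T.D (i + 1)).mul_mem ?_ hy
  exact tss_nofix (T.P (i + 1)) (T.P i) (T.D (i + 1)) (T.P_nrm_P (i + 1) i (Nat.le_succ i) hi1) hDP
    (fun a ha b hb => Subgroup.mem_sup_left (Subgroup.commutator_mem_commutator ha hb))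
    (T.T2 i hi) hcop c hcP hcm

/-- THE STRUCTURE THEOREM (2.1) for level `i+1`.
PROOF. Work modulo `Q = Q (i+1)`, `P = P (i+1)`, `R = P i`. Let `Phi` be the subgroup of `P`
generated by `Q`, `⁅P,P⁆` and the `p`-th powers of elements of `P`, i.e. the preimage of the Frattini
subgroup of the nontrivial `p`-group `P/Q`: it is proper and normalised by `Y` and the `P j`, `j ≤ i`,
so `⁅Phi,R⁆ ≤ Q` by `T3`. Three subgroups lemma (Mathlib:
`Subgroup.commutator_commutator_eq_bot_of_rotate`, in the quotient by `Q`, or its version for a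
normal subgroup): `⁅⁅Phi,R⁆,P⁆ ≤ Q` and `⁅⁅P,Phi⁆,R⁆ ≤ ⁅Phi,R⁆ ≤ Q` give `⁅⁅R,P⁆,Phi⁆ ≤ Q`, and
`⁅P,R⁆ = P` (`T2`), so `⁅P,Phi⁆ ≤ Q`. Let `x ∈ Phi`: modulo `D = ⁅P,P⁆ Q` the group `P/D` is abelian and
equal to its commutator with `R`, so it has no nontrivial fixed point of `R` (coprime action:
`fix_coset` produces `c ∈ x D` commuting with `R`; for `c` commuting with `R` in `P` and `P/D` abelian,
`P/D = ⁅P/D,R⁆ × C`: use the homomorphism `N(u) = ∏_{m ∈ R} m u m⁻¹` on the abelian group `P/D`: it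
kills `⁅P,R⁆ = P`, but `N(c) = c^|R|`, so `c ∈ D` as `|R|` is prime to `p`). Hence `Phi = D`. The
last claim: `⁅x,y⁆^p = ⁅x^p,y⁆ = 1` modulo `Q` (class 2), and `D/Q` is abelian, generated by these. -/
theorem struct (i : ℕ) (hi : i < T.n) :
    T.D (i + 1) ≠ T.P (i + 1) ∧
    ⁅T.D (i + 1), T.P i⁆ ≤ T.Q (i + 1) ∧
    ⁅T.D (i + 1), T.P (i + 1)⁆ ≤ T.Q (i + 1) ∧
    (∀ x ∈ T.P (i + 1), x ^ T.p (i + 1) ∈ T.D (i + 1)) ∧
    (∀ z ∈ T.D (i + 1), z ^ T.p (i + 1) ∈ T.Q (i + 1)) := by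
  have hi1 : i + 1 ≤ T.n := hi
  have hQP := T.Q_le (i + 1) hi1
  obtain ⟨M, hQM, hMP, hMne, hMc, hMp⟩ := tss_frat (T.hp (i + 1) hi1) (T.P (i + 1)) (T.Q (i + 1))
    (T.hP (i + 1) hi1) (T.T1 (i + 1) hi1) hQP
  have hDM : T.D (i + 1) ≤ M := by
    refine sup_le ?_ hQM
    rw [Subgroup.commutator_le]
    exact hMc
  have hFM : T.D (i + 1) ⊔ tss_pow (T.p (i + 1)) (T.P (i + 1)) ≤ M :=
    sup_le hDM (tss_pow_le hMp)
  have hne : ∀ F : Subgroup Γ, F ≤ M → F ≠ T.P (i + 1) := fun F hF h =>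
    hMne (le_antisymm hMP (h ▸ hF))
  have hF1 : ⁅T.D (i + 1) ⊔ tss_pow (T.p (i + 1)) (T.P (i + 1)), T.P i⁆ ≤ T.Q (i + 1) :=
    T.T3 i hi _ (hFM.trans hMP) (hne _ hFM)
      (tss_nrm_sup (T.Y_nrm_D (i + 1) hi1) (T.hY (i + 1) hi1))
      (fun j hj => tss_nrm_sup (T.P_nrm_D (i + 1) j (by omega) hi1)
        (T.P_nrm_P (i + 1) j (by omega) hi1))
  have hF2 : ⁅T.P (i + 1), T.D (i + 1) ⊔ tss_pow (T.p (i + 1)) (T.P (i + 1))⁆ ≤
      T.Q (i + 1) := by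
    have h1 := tss_three (T.P (i + 1)) (T.P i) _ (T.Q (i + 1))
      (T.P_nrm_Q (i + 1) (i + 1) le_rfl hi1) (T.P_nrm_Q (i + 1) i (Nat.le_succ i) hi1)
      (tss_nrm_sup (T.P_nrm_D (i + 1) (i + 1) le_rfl hi1)
        (T.P_nrm_P (i + 1) (i + 1) le_rfl hi1)) hF1
    rwa [T.T2 i hi] at h1
  have hFD : T.D (i + 1) ⊔ tss_pow (T.p (i + 1)) (T.P (i + 1)) ≤ T.D (i + 1) := by
    intro x hx
    exact T.tss_cfix i hi x (hMP (hFM hx)) fun y hy =>
      T.Q_le_D (i + 1) (hF1 (Subgroup.commutator_mem_commutator hx hy))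
  have hDc : ⁅T.D (i + 1), T.P (i + 1)⁆ ≤ T.Q (i + 1) := by
    rw [Subgroup.commutator_comm]
    exact (Subgroup.commutator_mono le_rfl le_sup_left).trans hF2
  have hpw : ∀ x ∈ T.P (i + 1), x ^ T.p (i + 1) ∈ T.D (i + 1) := fun x hx =>
    hFD (Subgroup.mem_sup_right (tss_mem_pow hx))
  exact ⟨hne _ hDM, (Subgroup.commutator_mono le_sup_left le_rfl).trans hF1, hDc, hpw,
    tss_powD (T.P (i + 1)) (T.Q (i + 1)) (T.P_nrm_Q (i + 1) (i + 1) le_rfl hi1) hQP hDc hpw⟩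

/-- no fixed points of `P i` on `W (i+1) = P (i+1) / D (i+1)` (see the proof of `struct`) -/
theorem cfix (i : ℕ) (hi : i < T.n) (x : Γ) (hx : x ∈ T.P (i + 1))
    (h : ∀ y ∈ T.P i, ⁅x, y⁆ ∈ T.D (i + 1)) : x ∈ T.D (i + 1) := 
  T.tss_cfix i hi x hx h

/-- `W (i+1)` is irreducible. PROOF. `R ≠ P (i+1)` implies `⁅R,P i⁆ ≤ Q (i+1)` by `T3`, so `R ≤ D` by
`cfix`. -/
theorem irr (i : ℕ) (hi : i < T.n) (R : Subgroup Γ) (h1 : T.D (i + 1) ≤ R)
    (h2 : R ≤ T.P (i + 1)) (hY : T.Y ≤ Nrm R) (hP : ∀ j ≤ i, T.P j ≤ Nrm R) :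
    R = T.D (i + 1) ∨ R = T.P (i + 1) := by
  by_cases hR : R = T.P (i + 1)
  · exact Or.inr hR
  · refine Or.inl (le_antisymm (fun x hx => ?_) h1)
    have h3 := T.T3 i hi R h2 hR hY hP
    exact T.tss_cfix i hi x (h2 hx) fun y hy =>
      T.Q_le_D (i + 1) (h3 (Subgroup.commutator_mem_commutator hx hy))

/-- level `0`: `P_0/Q_0` is elementary abelian. PROOF. The subgroup generated by `⁅P,P⁆`, the
`p`-th powers and `⊥` is a proper subgroup of the nontrivial `p`-group `P 0` (Frattini), invariant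
under `Y`; use `T4`. -/
theorem level0 : T.Ab 0 ∧ ∀ x ∈ T.P 0, x ^ T.p 0 ∈ T.Q 0 := by
  have h0 : 0 ≤ T.n := Nat.zero_le _
  obtain ⟨M, -, hMP, hMne, hMc, hMp⟩ := tss_frat (T.hp 0 h0) (T.P 0) ⊥ (T.hP 0 h0)
    (fun h => T.T1 0 h0 (h.trans bot_le)) bot_le
  have hDM : ⁅T.P 0, T.P 0⁆ ≤ M := by
    rw [Subgroup.commutator_le]
    exact hMc
  have hFM : ⁅T.P 0, T.P 0⁆ ⊔ tss_pow (T.p 0) (T.P 0) ≤ M := sup_le hDM (tss_pow_le hMp)
  have hYc : T.Y ≤ Nrm ⁅T.P 0, T.P 0⁆ := by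
    refine tss_nrm fun g hg x hx => ?_
    have h1 : ⁅T.P 0, T.P 0⁆ ≤ ⁅T.P 0, T.P 0⁆.comap (MulAut.conj g).toMonoidHom := by
      rw [Subgroup.commutator_le]
      intro a ha b hb
      rw [Subgroup.mem_comap]
      have h2 : (MulAut.conj g).toMonoidHom ⁅a, b⁆ = ⁅g * a * g⁻¹, g * b * g⁻¹⁆ := by
        rw [map_commutatorElement]
        rfl
      rw [h2]
      exact Subgroup.commutator_mem_commutator (tss_conj (T.hY 0 h0 hg) ha)
        (tss_conj (T.hY 0 h0 hg) hb)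
    exact h1 hx
  have h4 : ⁅T.P 0, T.P 0⁆ ⊔ tss_pow (T.p 0) (T.P 0) ≤ T.Q 0 :=
    T.T4 _ (hFM.trans hMP) (fun h => hMne (le_antisymm hMP (h ▸ hFM)))
      (tss_nrm_sup hYc (T.hY 0 h0))
  exact ⟨le_sup_left.trans h4, fun x hx => h4 (Subgroup.mem_sup_right (tss_mem_pow hx))⟩

end TowerCore

end FT
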