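import Mathlib
import Pool.Agent.helper11.FT.Defs
import Pool.Agent.helper11.FT.HomBasic
import Pool.Agent.helper11.FT.Cop
import Pool.Agent.helper11.FT.Cop2
import Pool.Agent.helper11.FT.Tower
import Pool.Agent.helper11.FT.TS0
import Pool.Agent.helper11.FT.TSs

/-! # FT-TS: structure of the levels of a tower (section 2 of the plan) -/

namespace FT

universe u

open scoped commutatorElement

namespace TowerCore

variable {Γ : Type u} [Group Γ] [Finite Γ] (T : TowerCore Γ)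

omit [Finite Γ] in
private theorem tsc_conj' {P : Subgroup Γ} {g x : Γ} (hg : g ∈ Nrm P)
    (hx : x ∈ P) : g * x * g⁻¹ ∈ P :=
  (Subgroup.mem_normalizer_iff.1 hg x).1 hx

omit [Finite Γ] in
private theorem tsc_conj'' {P : Subgroup Γ} {g x : Γ} (hg : g ∈ Nrm P)
    (hx : x ∈ P) : g⁻¹ * x * g ∈ P := by
  have h := tsc_conj' (inv_mem hg) hx
  rwa [inv_inv] at h

/-- elements normalising `P` and `Q` and acting trivially on `P` modulo `Q` -/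
private def TSC (P Q : Subgroup Γ) : Subgroup Γ where
  carrier := {a | a ∈ Nrm P ∧ a ∈ Nrm Q ∧ ∀ y ∈ P, ⁅a, y⁆ ∈ Q}
  one_mem' := ⟨one_mem _, one_mem _, fun y _ => by
    rw [commutatorElement_one_left]
    exact Q.one_mem⟩
  mul_mem' := by
    rintro a b ⟨ha, ha', ha''⟩ ⟨hb, hb', hb''⟩
    refine ⟨mul_mem ha hb, mul_mem ha' hb', fun y hy => ?_⟩
    have h1 : ⁅a * b, y⁆ = a * ⁅b, y⁆ * a⁻¹ * ⁅a, y⁆ := by
      simp only [commutatorElement_def]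
      group
    rw [h1]
    exact Q.mul_mem (tsc_conj' ha' (hb'' y hy)) (ha'' y hy)
  inv_mem' := by
    rintro a ⟨ha, ha', ha''⟩
    refine ⟨inv_mem ha, inv_mem ha', fun y hy => ?_⟩
    have h1 : ⁅a⁻¹, y⁆ = a⁻¹ * (⁅a, y⁆)⁻¹ * a := by
      simp only [commutatorElement_def]
      group
    rw [h1]
    exact tsc_conj'' ha' (Q.inv_mem (ha'' y hy))

omit [Finite Γ] in
private theorem mem_TSC {P Q : Subgroup Γ} {a : Γ} :
    a ∈ TSC P Q ↔ a ∈ Nrm P ∧ a ∈ Nrm Q ∧ ∀ y ∈ P, ⁅a, y⁆ ∈ Q := Iff.rfl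

omit [Finite Γ] in
private theorem TSC_conj {P Q : Subgroup Γ} {z a : Γ} (hz : z ∈ Nrm P) (hz' : z ∈ Nrm Q)
    (ha : a ∈ TSC P Q) : z * a * z⁻¹ ∈ TSC P Q := by
  obtain ⟨h1, h2, h3⟩ := ha
  refine ⟨mul_mem (mul_mem hz h1) (inv_mem hz), mul_mem (mul_mem hz' h2) (inv_mem hz'),
    fun y hy => ?_⟩
  have h4 : ⁅z * a * z⁻¹, y⁆ = z * ⁅a, z⁻¹ * y * z⁆ * z⁻¹ := by
    simp only [commutatorElement_def]
    group
  rw [h4]
  exact tsc_conj' hz' (h3 _ (tsc_conj'' hz hy))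

omit [Finite Γ] in
private theorem TSC_nrm {P Q N R : Subgroup Γ} (h1 : N ≤ Nrm P) (h2 : N ≤ Nrm Q)
    (h3 : N ≤ Nrm R) : N ≤ Nrm (R ⊓ TSC P Q) := by
  intro g hg
  rw [Subgroup.mem_normalizer_iff]
  intro x
  constructor
  · rintro ⟨hx, hx'⟩
    exact ⟨tsc_conj' (h3 hg) hx, TSC_conj (h1 hg) (h2 hg) hx'⟩
  · rintro ⟨hx, hx'⟩
    have h4 : x = g⁻¹ * (g * x * g⁻¹) * g⁻¹⁻¹ := by group
    rw [h4]
    exact ⟨tsc_conj' (inv_mem (h3 hg)) hx, TSC_conj (inv_mem (h1 hg)) (inv_mem (h2 hg)) hx'⟩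

/-- in a special level the centre of `P_i/Q_i` is `D_i/Q_i` (2.2).
PROOF. `i = i'+1` by `level0`. `R = {x ∈ P i | ∀ y ∈ P i, ⁅x,y⁆ ∈ Q i}` is a subgroup containing `D i`,
invariant, and `R ≠ P i` because level `i` is not abelian; `irr`. -/
theorem center (i : ℕ) (hi : i ≤ T.n) (hsp : ¬ T.Ab i) (x : Γ) (hx : x ∈ T.P i)
    (h : ∀ y ∈ T.P i, ⁅x, y⁆ ∈ T.Q i) : x ∈ T.D i := by
  cases i with
  | zero => exact absurd T.level0.1 hsp
  | succ i =>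
    have hin : i < T.n := hi
    obtain ⟨-, -, h3, -, -⟩ := T.struct i hin
    have hPP := T.P_nrm_P (i + 1) (i + 1) le_rfl hi
    have hPQ := T.P_nrm_Q (i + 1) (i + 1) le_rfl hi
    rcases T.irr i hin (T.P (i + 1) ⊓ TSC (T.P (i + 1)) (T.Q (i + 1)))
      (fun d hd => ⟨T.D_le _ hi hd, hPP (T.D_le _ hi hd), hPQ (T.D_le _ hi hd), fun y hy =>
        h3 (Subgroup.commutator_mem_commutator hd hy)⟩) inf_le_left
      (TSC_nrm (T.hY _ hi) (T.Y_nrm_Q _ hi) (T.hY _ hi))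
      (fun j hj => TSC_nrm (T.P_nrm_P _ _ (by omega) hi) (T.P_nrm_Q _ _ (by omega) hi)
        (T.P_nrm_P _ _ (by omega) hi)) with h4 | h4
    · rw [← h4]
      exact ⟨hx, hPP hx, hPQ hx, h⟩
    · refine absurd ?_ hsp
      change ⁅T.P (i + 1), T.P (i + 1)⁆ ≤ T.Q (i + 1)
      rw [Subgroup.commutator_le]
      intro a ha b hb
      rw [← h4] at ha
      exact ha.2.2.2 b hb

/-- properties of `Z_i` -/
theorem Z_prop (i : ℕ) (hi : i ≤ T.n) :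
    T.Q i ≤ T.Z i ∧ T.D i ≤ T.Z i ∧ T.Z i ≤ T.P i ∧ ⁅T.Z i, T.P i⁆ ≤ T.Q i ∧
      (∀ z ∈ T.Z i, z ^ T.p i ∈ T.Q i) ∧ ¬ T.Z i ≤ T.Q i ∧ T.Y ≤ Nrm (T.Z i) ∧
      ∀ j ≤ i, T.P j ≤ Nrm (T.Z i) := by
  by_cases hab : T.Ab i
  · rw [T.Z_eq_of_Ab i hab]
    refine ⟨T.Q_le i hi, T.D_le i hi, le_rfl, hab, ?_, T.T1 i hi, T.hY i hi,
      fun j hj => T.P_nrm_P i j hj hi⟩
    intro z hz
    cases i with
    | zero => exact T.level0.2 z hz
    | succ i =>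
      have h1 := (T.struct i hi).2.2.2.1 z hz
      rwa [T.D_eq_of_Ab _ hab] at h1
  · rw [T.Z_eq_of_not_Ab i hab]
    cases i with
    | zero => exact absurd T.level0.1 hab
    | succ i =>
      obtain ⟨-, -, h3, -, h5⟩ := T.struct i hi
      exact ⟨T.Q_le_D _, le_rfl, T.D_le _ hi, h3, h5,
        fun h6 => hab ((le_sup_left : _ ≤ T.D (i + 1)).trans h6), T.Y_nrm_D _ hi,
        fun j hj => T.P_nrm_D _ j hj hi⟩

/-- in a special level `P_{i-1}` centralises `Z_i` modulo `Q_i` -/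
theorem Z_special (i : ℕ) (hi : i < T.n) (hsp : ¬ T.Ab (i + 1)) :
    ⁅T.Z (i + 1), T.P i⁆ ≤ T.Q (i + 1) := by
  rw [T.Z_eq_of_not_Ab _ hsp]
  exact (T.struct i hi).2.1

/-- (2.3): elements of `P i` acting trivially on `W (i+1)` are in `Q i`.
PROOF. `triv_of_frat` for `P (i+1)`, `M = zpowers x`. -/
theorem faithful (i : ℕ) (hi : i < T.n) (x : Γ) (hx : x ∈ T.P i)
    (h : ∀ y ∈ T.P (i + 1), ⁅x, y⁆ ∈ T.D (i + 1)) : x ∈ T.Q i := by
  have hi1 : i + 1 ≤ T.n := hi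
  have hM : Subgroup.zpowers x ≤ T.P i := by
    rw [Subgroup.zpowers_le]
    exact hx
  have hMC : Subgroup.zpowers x ≤ TSC (T.P (i + 1)) (T.D (i + 1)) := by
    rw [Subgroup.zpowers_le]
    exact ⟨T.P_nrm_P _ _ (by omega) hi1 hx, T.P_nrm_D _ _ (by omega) hi1 hx, h⟩
  have key := triv_of_frat (T.P (i + 1)) (Subgroup.zpowers x) (T.D (i + 1)) (T.Q (i + 1))
    (hM.trans (T.P_nrm_P _ _ (by omega) hi1)) (hM.trans (T.P_nrm_Q _ _ (by omega) hi1))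
    (T.P_nrm_Q _ _ le_rfl hi1) (T.Q_le _ hi1) (T.solv _ hi1)
    ((T.cop_adj i hi).symm.coprime_dvd_right (Subgroup.card_dvd_of_le hM)) rfl
    (T.struct i hi).2.2.1 (by
      rw [Subgroup.commutator_le]
      intro y hy m hm
      have h1 := (hMC hm).2.2 y hy
      rw [← commutatorElement_inv]
      exact inv_mem h1)
  rw [T.Qi i hi]
  refine ⟨hx, fun y hy => ?_⟩
  rw [← commutatorElement_inv]
  exact inv_mem (key (Subgroup.commutator_mem_commutator hy (Subgroup.mem_zpowers x)))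

/-- (2.4). PROOF. Downward induction: `z ∈ P (j-1)`: `⁅x,z⁆ ∈ P (j-1)` acts trivially on
`P j / Q j` (as `x` does), so `⁅x,z⁆ ∈ Q (j-1)` by `Qi`. -/
theorem faithful' (i j : ℕ) (hij : i < j) (hj : j ≤ T.n) (x : Γ) (hx : x ∈ T.P i)
    (h : ∀ y ∈ T.P j, ⁅x, y⁆ ∈ T.Q j) : x ∈ T.Q i := by
  obtain ⟨k, rfl⟩ : ∃ k, j = i + 1 + k := ⟨j - (i + 1), by omega⟩
  induction k with
  | zero =>
    rw [T.Qi i (by omega)]
    exact ⟨hx, h⟩
  | succ k ih =>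
    refine ih (by omega) (by omega) fun z hz => ?_
    have hj' : i + 1 + k + 1 ≤ T.n := hj
    have e : i + 1 + (k + 1) = i + 1 + k + 1 := by omega
    rw [e] at h
    have h1 : ⁅x, z⁆ ∈ T.P (i + 1 + k) := by
      rw [commutatorElement_def]
      exact mul_mem (tsc_conj' (T.P_nrm_P _ i (by omega) (by omega) hx) hz) (inv_mem hz)
    have hxC : x ∈ TSC (T.P (i + 1 + k + 1)) (T.Q (i + 1 + k + 1)) :=
      ⟨T.P_nrm_P _ _ (by omega) hj' hx, T.P_nrm_Q _ _ (by omega) hj' hx, h⟩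
    have h2 : ⁅x, z⁆ ∈ TSC (T.P (i + 1 + k + 1)) (T.Q (i + 1 + k + 1)) := by
      have h3 : ⁅x, z⁆ = x * (z * x⁻¹ * z⁻¹) := by
        rw [commutatorElement_def]
        group
      rw [h3]
      exact mul_mem hxC (TSC_conj (T.P_nrm_P _ _ (by omega) hj' hz)
        (T.P_nrm_Q _ _ (by omega) hj' hz) (inv_mem hxC))
    rw [T.Qi _ (by omega)]
    exact ⟨h1, h2.2.2⟩

end TowerCore

end FT
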