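import Mathlib
import Pool.Agent.helper11.FT.Defs
import Pool.Agent.helper11.FT.HomBasic
import Pool.Agent.helper11.FT.Tower
import Pool.Agent.helper11.FT.TS0
import Pool.Agent.helper11.FT.TSs
import Pool.Agent.helper11.FT.TS

/-! # FT-RadB: radicals at special levels (section 6 of /team-store/9c6401_plan.md) -/

namespace FT

universe u v

open scoped commutatorElement

private theorem rb_conj {Γ : Type u} [Group Γ] {R : Subgroup Γ} {g x : Γ} (hg : g ∈ Nrm R)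
    (hx : x ∈ R) : g * x * g⁻¹ ∈ R := (Subgroup.mem_normalizer_iff.1 hg x).1 hx

private theorem rb_conj' {Γ : Type u} [Group Γ] {R : Subgroup Γ} {g x : Γ} (hg : g ∈ Nrm R)
    (hx : x ∈ R) : g⁻¹ * x * g ∈ R := (Subgroup.mem_normalizer_iff''.1 hg x).1 hx

private theorem rb_nrm {Γ : Type u} [Group Γ] {R : Subgroup Γ} {g : Γ}
    (h1 : ∀ x ∈ R, g * x * g⁻¹ ∈ R) (h2 : ∀ x ∈ R, g⁻¹ * x * g ∈ R) : g ∈ Nrm R := by
  refine Subgroup.mem_normalizer_iff.2 fun x => ⟨h1 x, fun hx => ?_⟩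
  have h := h2 _ hx
  have e : g⁻¹ * (g * x * g⁻¹) * g = x := by group
  rwa [e] at h

private theorem rb_comm_mul {Γ : Type u} [Group Γ] (x y z : Γ) :
    ⁅x * y, z⁆ = ⁅x, ⁅y, z⁆⁆ * (⁅y, z⁆ * ⁅x, z⁆) := by
  simp only [commutatorElement_def]
  group

namespace TowerCore

variable {Γ : Type u} [Group Γ] [Finite Γ] (T : TowerCore Γ)

private theorem rb_comm_mem_Z (i : ℕ) (hi : i ≤ T.n) {x y : Γ} (hx : x ∈ T.P i)
    (hy : y ∈ T.P i) : ⁅x, y⁆ ∈ T.Z i :=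
  (T.Z_prop i hi).2.1 (Subgroup.mem_sup_left (Subgroup.commutator_mem_commutator hx hy))

private theorem rb_l_comm (i : ℕ) (hi : i ≤ T.n) (l : CF Γ (ZMod (T.p i)))
    (hl : l ∈ HomOn (ZMod (T.p i)) (T.Z i) (T.Q i)) {x c : Γ} (hx : x ∈ T.P i)
    (hc : c ∈ T.Z i) : l ⁅x, c⁆ = 0 := by
  apply hl.2.2
  have h := (T.Z_prop i hi).2.2.2.1
  rw [Subgroup.commutator_comm] at h
  exact h (Subgroup.commutator_mem_commutator hx hc)

private theorem rb_l_comm' (i : ℕ) (hi : i ≤ T.n) (l : CF Γ (ZMod (T.p i)))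
    (hl : l ∈ HomOn (ZMod (T.p i)) (T.Z i) (T.Q i)) {x c : Γ} (hx : x ∈ T.P i)
    (hc : c ∈ T.Z i) : l ⁅c, x⁆ = 0 := by
  apply hl.2.2
  exact (T.Z_prop i hi).2.2.2.1 (Subgroup.commutator_mem_commutator hc hx)

/-- `Z i = D i` for special levels, `⁅P i, P i⁆ ≤ D i`, `⁅D i, P i⁆ ≤ Q i`: the map
`(x,y) ↦ l ⁅x,y⁆` is bimultiplicative and alternating on `P i`. -/
theorem form_mul_left (i : ℕ) (hi : i ≤ T.n) (hsp : ¬ T.Ab i) (l : CF Γ (ZMod (T.p i)))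
    (hl : l ∈ HomOn (ZMod (T.p i)) (T.Z i) (T.Q i)) {x y z : Γ} (hx : x ∈ T.P i)
    (hy : y ∈ T.P i) (hz : z ∈ T.P i) : l ⁅x * y, z⁆ = l ⁅x, z⁆ + l ⁅y, z⁆ := by
  have hc : ⁅y, z⁆ ∈ T.Z i := T.rb_comm_mem_Z i hi hy hz
  have hd : ⁅x, z⁆ ∈ T.Z i := T.rb_comm_mem_Z i hi hx hz
  have hcP : ⁅y, z⁆ ∈ T.P i := (T.Z_prop i hi).2.2.1 hc
  have he : ⁅x, ⁅y, z⁆⁆ ∈ T.Z i := T.rb_comm_mem_Z i hi hx hcP
  rw [rb_comm_mul, hl.2.1 _ he _ ((T.Z i).mul_mem hc hd), hl.2.1 _ hc _ hd,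
    T.rb_l_comm i hi l hl hx hc, zero_add, add_comm]

theorem form_symm (i : ℕ) (hi : i ≤ T.n) (hsp : ¬ T.Ab i) (l : CF Γ (ZMod (T.p i)))
    (hl : l ∈ HomOn (ZMod (T.p i)) (T.Z i) (T.Q i)) {x y : Γ} (hx : x ∈ T.P i)
    (hy : y ∈ T.P i) : l ⁅x, y⁆ = - l ⁅y, x⁆ := by
  rw [← commutatorElement_inv, HomOn.inv hl (T.rb_comm_mem_Z i hi hy hx)]

theorem form_mul_right (i : ℕ) (hi : i ≤ T.n) (hsp : ¬ T.Ab i) (l : CF Γ (ZMod (T.p i)))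
    (hl : l ∈ HomOn (ZMod (T.p i)) (T.Z i) (T.Q i)) {x y z : Γ} (hx : x ∈ T.P i)
    (hy : y ∈ T.P i) (hz : z ∈ T.P i) : l ⁅x, y * z⁆ = l ⁅x, y⁆ + l ⁅x, z⁆ := by
  rw [T.form_symm i hi hsp l hl hx ((T.P i).mul_mem hy hz),
    T.form_mul_left i hi hsp l hl hy hz hx, T.form_symm i hi hsp l hl hx hy,
    T.form_symm i hi hsp l hl hx hz, neg_add]

private theorem rb_l_one (i : ℕ) (l : CF Γ (ZMod (T.p i)))
    (hl : l ∈ HomOn (ZMod (T.p i)) (T.Z i) (T.Q i)) : l 1 = 0 := hl.2.2 1 (T.Q i).one_mem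

private theorem rb_inv_left (i : ℕ) (hi : i ≤ T.n) (hsp : ¬ T.Ab i) (l : CF Γ (ZMod (T.p i)))
    (hl : l ∈ HomOn (ZMod (T.p i)) (T.Z i) (T.Q i)) {x y : Γ} (hx : x ∈ T.P i)
    (hy : y ∈ T.P i) : l ⁅x⁻¹, y⁆ = - l ⁅x, y⁆ := by
  have h := T.form_mul_left i hi hsp l hl ((T.P i).inv_mem hx) hx hy
  rw [inv_mul_cancel, commutatorElement_one_left, T.rb_l_one i l hl] at h
  exact eq_neg_of_add_eq_zero_left h.symm

private theorem rb_pow_left (i : ℕ) (hi : i ≤ T.n) (hsp : ¬ T.Ab i) (l : CF Γ (ZMod (T.p i)))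
    (hl : l ∈ HomOn (ZMod (T.p i)) (T.Z i) (T.Q i)) {x y : Γ} (hx : x ∈ T.P i)
    (hy : y ∈ T.P i) (m : ℕ) : l ⁅x ^ m, y⁆ = (m : ZMod (T.p i)) * l ⁅x, y⁆ := by
  induction m with
  | zero => simp [T.rb_l_one i l hl]
  | succ m ih =>
    rw [pow_succ, T.form_mul_left i hi hsp l hl ((T.P i).pow_mem hx m) hx hy, ih]
    push_cast
    ring

theorem mem_Rad (i : ℕ) (hi : i ≤ T.n) (hsp : ¬ T.Ab i) (l : CF Γ (ZMod (T.p i)))
    (hl : l ∈ HomOn (ZMod (T.p i)) (T.Z i) (T.Q i)) (x : Γ) :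
    x ∈ T.Rad i l ↔ x ∈ T.P i ∧ ∀ y ∈ T.P i, l ⁅x, y⁆ = 0 := by
  constructor
  · intro hx
    refine Subgroup.closure_induction (p := fun x _ => x ∈ T.P i ∧ ∀ y ∈ T.P i, l ⁅x, y⁆ = 0)
      ?_ ?_ ?_ ?_ hx
    · intro x hx
      exact hx
    · refine ⟨(T.P i).one_mem, fun y hy => ?_⟩
      rw [commutatorElement_one_left, T.rb_l_one i l hl]
    · rintro a b _ _ ⟨ha, ha'⟩ ⟨hb, hb'⟩
      refine ⟨(T.P i).mul_mem ha hb, fun y hy => ?_⟩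
      rw [T.form_mul_left i hi hsp l hl ha hb hy, ha' y hy, hb' y hy, add_zero]
    · rintro a _ ⟨ha, ha'⟩
      refine ⟨(T.P i).inv_mem ha, fun y hy => ?_⟩
      rw [T.rb_inv_left i hi hsp l hl ha hy, ha' y hy, neg_zero]
  · intro hx
    exact Subgroup.subset_closure hx

/-- the form `y ↦ l ⁅w,y⁆` for `w ∈ P i` as an element of `Hom(P_i/Q_i)` vanishing on the
radical (extended by `0` outside `P i`) -/
theorem form_mem (i : ℕ) (hi : i ≤ T.n) (hsp : ¬ T.Ab i) (l : CF Γ (ZMod (T.p i)))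
    (hl : l ∈ HomOn (ZMod (T.p i)) (T.Z i) (T.Q i)) (w : Γ) (hw : w ∈ T.P i) :
    ∃ f ∈ HomOn (ZMod (T.p i)) (T.P i) (T.Rad i l), ∀ y ∈ T.P i, f y = l ⁅w, y⁆ := by
  classical
  let f : CF Γ (ZMod (T.p i)) := fun y => if y ∈ T.P i then l ⁅w, y⁆ else 0
  have hf : ∀ y ∈ T.P i, f y = l ⁅w, y⁆ := fun y hy => if_pos hy
  have hf' : ∀ y, y ∉ T.P i → f y = 0 := fun y hy => if_neg hy
  refine ⟨f, ⟨hf', fun x hx y hy => ?_, fun x hx => ?_⟩, hf⟩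
  · rw [hf x hx, hf y hy, hf _ ((T.P i).mul_mem hx hy), T.form_mul_right i hi hsp l hl hw hx hy]
  · have h := (T.mem_Rad i hi hsp l hl x).1 hx
    rw [hf x h.1, T.form_symm i hi hsp l hl hw h.1, h.2 w hw, neg_zero]

theorem Rad_prop (i : ℕ) (hi : i ≤ T.n) (hsp : ¬ T.Ab i) (l : CF Γ (ZMod (T.p i)))
    (hl : l ∈ HomOn (ZMod (T.p i)) (T.Z i) (T.Q i)) :
    T.D i ≤ T.Rad i l ∧ T.Rad i l ≤ T.P i ∧ T.P i ≤ Nrm (T.Rad i l) ∧
      (∀ x ∈ T.P i, x ^ T.p i ∈ T.Rad i l) ∧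
      (∀ x ∈ T.P i, ∀ y ∈ T.P i, ⁅x, y⁆ ∈ T.Rad i l) := by
  have hD : T.D i ≤ T.Rad i l := by
    intro x hx
    have hxZ : x ∈ T.Z i := (T.Z_prop i hi).2.1 hx
    exact (T.mem_Rad i hi hsp l hl x).2 ⟨(T.Z_prop i hi).2.2.1 hxZ,
      fun y hy => T.rb_l_comm' i hi l hl hy hxZ⟩
  have hP : T.Rad i l ≤ T.P i := fun x hx => ((T.mem_Rad i hi hsp l hl x).1 hx).1
  have hc : ∀ x ∈ T.P i, ∀ y ∈ T.P i, ⁅x, y⁆ ∈ T.Rad i l := fun x hx y hy =>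
    hD (Subgroup.mem_sup_left (Subgroup.commutator_mem_commutator hx hy))
  have hcj : ∀ g ∈ T.P i, ∀ x ∈ T.Rad i l, g * x * g⁻¹ ∈ T.Rad i l := by
    intro g hg x hx
    have e : g * x * g⁻¹ = ⁅g, x⁆ * x := by
      simp only [commutatorElement_def]
      group
    rw [e]
    exact (T.Rad i l).mul_mem (hc g hg x (hP hx)) hx
  refine ⟨hD, hP, fun g hg => rb_nrm (hcj g hg) (fun x hx => ?_), fun x hx => ?_, hc⟩
  · have h := hcj g⁻¹ ((T.P i).inv_mem hg) x hx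
    rwa [inv_inv] at h
  · refine (T.mem_Rad i hi hsp l hl _).2 ⟨(T.P i).pow_mem hx _, fun y hy => ?_⟩
    rw [T.rb_pow_left i hi hsp l hl hx hy, ZMod.natCast_self, zero_mul]

/-- `Rad ≠ P` for `l ≠ 0`: otherwise `l` kills `⁅P i, P i⁆` and `Q i`, i.e. `D i = Z i` -/
theorem Rad_ne (i : ℕ) (hi : i ≤ T.n) (hsp : ¬ T.Ab i) (l : CF Γ (ZMod (T.p i)))
    (hl : l ∈ HomOn (ZMod (T.p i)) (T.Z i) (T.Q i)) (hl0 : l ≠ 0) : T.Rad i l ≠ T.P i := by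
  intro h
  apply hl0
  have hDk : T.D i ≤ kerH (T.Z i) l := by
    refine sup_le ?_ ?_
    · rw [Subgroup.commutator_le]
      intro x hx y hy
      refine (mem_kerH hl).2 ⟨T.rb_comm_mem_Z i hi hx hy, ?_⟩
      exact ((T.mem_Rad i hi hsp l hl x).1 (h ▸ hx)).2 y hy
    · intro x hx
      exact (mem_kerH hl).2 ⟨(T.Z_prop i hi).1 hx, hl.2.2 x hx⟩
  ext x
  by_cases hx : x ∈ T.Z i
  · have hx' : x ∈ T.D i := by rwa [← T.Z_eq_of_not_Ab i hsp]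
    exact ((mem_kerH hl).1 (hDk hx')).2
  · exact hl.1 x hx

/-- `P (i-1)` and `P i` fix `l` at a special level `i` -/
theorem smul_l (i : ℕ) (hi : i < T.n) (hsp : ¬ T.Ab (i + 1)) (l : CF Γ (ZMod (T.p (i + 1))))
    (hl : l ∈ HomOn (ZMod (T.p (i + 1))) (T.Z (i + 1)) (T.Q (i + 1))) :
    (∀ x ∈ T.P i, x • l = l) ∧ ∀ x ∈ T.P (i + 1), x • l = l := by
  have hZ := T.Z_prop (i + 1) hi
  refine ⟨fun x hx => ?_, fun x hx => ?_⟩
  · refine HomOn.smul_eq_of_comm hl (hZ.2.2.2.2.2.2.2 i (Nat.le_succ i) hx) fun w hw => ?_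
    apply hl.2.2
    have h := T.Z_special i hi hsp
    rw [Subgroup.commutator_comm] at h
    exact h (Subgroup.commutator_mem_commutator hx hw)
  · refine HomOn.smul_eq_of_comm hl (hZ.2.2.2.2.2.2.2 (i + 1) le_rfl hx) fun w hw => ?_
    exact T.rb_l_comm (i + 1) hi l hl hx hw

/-- an element normalising `P i` and fixing `l` normalises the radical and preserves the form -/
theorem nrm_Rad (i : ℕ) (hi : i ≤ T.n) (hsp : ¬ T.Ab i) (l : CF Γ (ZMod (T.p i)))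
    (hl : l ∈ HomOn (ZMod (T.p i)) (T.Z i) (T.Q i)) (g : Γ) (hg : g ∈ Nrm (T.P i))
    (hgl : g • l = l) :
    g ∈ Nrm (T.Rad i l) ∧ ∀ x ∈ T.P i, ∀ y ∈ T.P i, l ⁅g * x * g⁻¹, g * y * g⁻¹⁆ = l ⁅x, y⁆ := by
  have key : ∀ g : Γ, g • l = l → ∀ x y : Γ, l ⁅g * x * g⁻¹, g * y * g⁻¹⁆ = l ⁅x, y⁆ := by
    intro g hgl x y
    have e : ⁅g * x * g⁻¹, g * y * g⁻¹⁆ = g * ⁅x, y⁆ * g⁻¹ := by
      simp only [commutatorElement_def]
      group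
    have h : (g • l) (g * ⁅x, y⁆ * g⁻¹) = l ⁅x, y⁆ := by
      rw [CF.act_apply]
      congr 1
      group
    rw [e, ← h, hgl]
  have key2 : ∀ g : Γ, g ∈ Nrm (T.P i) → g • l = l → ∀ x ∈ T.Rad i l,
      g * x * g⁻¹ ∈ T.Rad i l := by
    intro g hg hgl x hx
    have h := (T.mem_Rad i hi hsp l hl x).1 hx
    refine (T.mem_Rad i hi hsp l hl _).2 ⟨rb_conj hg h.1, fun y hy => ?_⟩
    have e : y = g * (g⁻¹ * y * g) * g⁻¹ := by group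
    rw [e, key g hgl]
    exact h.2 _ (rb_conj' hg hy)
  refine ⟨rb_nrm (key2 g hg hgl) fun x hx => ?_, fun x _ y _ => key g hgl x y⟩
  have h := key2 g⁻¹ ((Nrm (T.P i)).inv_mem hg) (inv_smul_eq_iff.2 hgl.symm) x hx
  rwa [inv_inv] at h

private theorem rb_nrm_Z (i : ℕ) (hsp : ¬ T.Ab i) (g : Γ) (hg : g ∈ Nrm (T.P i))
    (hgQ : g ∈ Nrm (T.Q i)) : g ∈ Nrm (T.Z i) := by
  have key : ∀ g : Γ, g ∈ Nrm (T.P i) → g ∈ Nrm (T.Q i) → ∀ x ∈ T.Z i,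
      g * x * g⁻¹ ∈ T.Z i := by
    intro g hg hgQ x hx
    rw [T.Z_eq_of_not_Ab i hsp] at hx ⊢
    have h : T.D i ≤ (T.D i).comap (MulAut.conj g).toMonoidHom := by
      refine sup_le ?_ ?_
      · rw [Subgroup.commutator_le]
        intro a ha b hb
        rw [Subgroup.mem_comap]
        have e : (MulAut.conj g).toMonoidHom ⁅a, b⁆ = ⁅g * a * g⁻¹, g * b * g⁻¹⁆ := by
          rw [map_commutatorElement]
          rfl
        rw [e]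
        exact Subgroup.mem_sup_left
          (Subgroup.commutator_mem_commutator (rb_conj hg ha) (rb_conj hg hb))
      · intro a ha
        rw [Subgroup.mem_comap]
        exact Subgroup.mem_sup_right (rb_conj hgQ ha)
    exact h hx
  refine rb_nrm (key g hg hgQ) fun x hx => ?_
  have h := key g⁻¹ ((Nrm (T.P i)).inv_mem hg) ((Nrm (T.Q i)).inv_mem hgQ) x hx
  rwa [inv_inv] at h

/-- transport of the radical by an element normalising everything -/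
theorem Rad_smul (i : ℕ) (hi : i ≤ T.n) (hsp : ¬ T.Ab i) (l : CF Γ (ZMod (T.p i)))
    (hl : l ∈ HomOn (ZMod (T.p i)) (T.Z i) (T.Q i)) (g : Γ) (hg : g ∈ Nrm (T.P i))
    (hgQ : g ∈ Nrm (T.Q i)) (x : Γ) : x ∈ T.Rad i l ↔ g * x * g⁻¹ ∈ T.Rad i (g • l) := by
  have hl' : g • l ∈ HomOn (ZMod (T.p i)) (T.Z i) (T.Q i) :=
    act_mem_HomOn (T.rb_nrm_Z i hsp g hg hgQ) hgQ hl
  rw [T.mem_Rad i hi hsp l hl, T.mem_Rad i hi hsp _ hl']
  have key : ∀ x y : Γ, (g • l) ⁅g * x * g⁻¹, g * y * g⁻¹⁆ = l ⁅x, y⁆ := by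
    intro x y
    rw [CF.act_apply]
    congr 1
    simp only [commutatorElement_def]
    group
  constructor
  · rintro ⟨hx, h⟩
    refine ⟨rb_conj hg hx, fun y hy => ?_⟩
    have e : y = g * (g⁻¹ * y * g) * g⁻¹ := by group
    rw [e, key]
    exact h _ (rb_conj' hg hy)
  · rintro ⟨hx, h⟩
    refine ⟨(Subgroup.mem_normalizer_iff.1 hg x).2 hx, fun y hy => ?_⟩
    rw [← key x y]
    exact h _ (rb_conj hg hy)

/-- the radical depends only on the kernel of `l` -/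
theorem Rad_eq_of_ker (i : ℕ) (hi : i ≤ T.n) (hsp : ¬ T.Ab i) (l l' : CF Γ (ZMod (T.p i)))
    (hl : l ∈ HomOn (ZMod (T.p i)) (T.Z i) (T.Q i))
    (hl' : l' ∈ HomOn (ZMod (T.p i)) (T.Z i) (T.Q i))
    (h : ∀ z ∈ T.Z i, l z = 0 ↔ l' z = 0) : T.Rad i l = T.Rad i l' := by
  ext x
  rw [T.mem_Rad i hi hsp l hl, T.mem_Rad i hi hsp l' hl']
  constructor
  · rintro ⟨hx, h'⟩
    exact ⟨hx, fun y hy => (h _ (T.rb_comm_mem_Z i hi hx hy)).1 (h' y hy)⟩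
  · rintro ⟨hx, h'⟩
    exact ⟨hx, fun y hy => (h _ (T.rb_comm_mem_Z i hi hx hy)).2 (h' y hy)⟩

end TowerCore

end FT
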