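import Mathlib
import Pool.Agent.helper11.FT.Defs
import Pool.Agent.helper11.FT.HomBasic
import Pool.Agent.helper11.FT.Tower
import Pool.Agent.helper11.FT.TS
import Pool.Agent.helper11.FT.DualCount

/-! # FT-TS2: the dual modules `H (i+1)` and occurring characters (section 2 of the plan) -/

namespace FT

universe u

open scoped commutatorElement

namespace TowerCore

variable {Γ : Type u} [Group Γ] [Finite Γ] (T : TowerCore Γ)

/-- elements of `P i` fixing all of `H (i+1)` are in `Q i`. PROOF. For `y ∈ P (i+1)` and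
`f ∈ H (i+1) = Hom(P/D)`, `f ⁅x,y⁆ = 0` (`HomOn.comm_eq_zero`), so `⁅x,y⁆ ∈ D (i+1)` by `sep_HomOn` and
`faithful` applies. -/
theorem mem_Q_of_fix (i : ℕ) (hi : i < T.n) (x : Γ) (hx : x ∈ T.P i)
    (h : ∀ f ∈ T.H (i + 1), x • f = f) : x ∈ T.Q i := by
  classical
  have hpr : Fact (T.p (i + 1)).Prime := ⟨T.hp (i + 1) hi⟩
  have hs := T.struct i hi
  apply T.faithful i hi x hx
  intro y hy
  have hxn : x ∈ Nrm (T.P (i + 1)) := T.hN i (i + 1) (Nat.lt_succ_self i) hi hx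
  have hxy : ⁅x, y⁆ ∈ T.P (i + 1) := by
    have h1 : x * y * x⁻¹ ∈ T.P (i + 1) := (Subgroup.mem_normalizer_iff.1 hxn y).1 hy
    rw [commutatorElement_def]
    exact (T.P (i + 1)).mul_mem h1 ((T.P (i + 1)).inv_mem hy)
  refine sep_HomOn (T.p (i + 1)) (T.P (i + 1)) (T.D (i + 1)) (T.D_le (i + 1) hi)
    (T.P_nrm_D (i + 1) (i + 1) le_rfl hi) hs.2.2.2.1 ?_ _ hxy ?_
  · intro a ha b hb
    exact Subgroup.mem_sup_left (Subgroup.commutator_mem_commutator ha hb)
  · intro f hf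
    have hf' : f ∈ T.H (i + 1) := by
      have h2 : T.H (i + 1) = HomOn (ZMod (T.p (i + 1))) (T.P (i + 1)) (T.D (i + 1)) :=
        HomOn_eq (T.Q_le (i + 1) hi)
      rw [h2]
      exact hf
    exact HomOn.comm_eq_zero hf' hxn (h f hf') hy

/-- `Q i` acts trivially on `H (i+1)` -/
theorem Q_fix (i : ℕ) (hi : i < T.n) (x : Γ) (hx : x ∈ T.Q i)
    (f : CF Γ (ZMod (T.p (i + 1)))) (hf : f ∈ T.H (i + 1)) : x • f = f := by
  have hx2 := (T.Qi i hi x).1 hx
  have hxn : x ∈ Nrm (T.P (i + 1)) := T.hN i (i + 1) (Nat.lt_succ_self i) hi hx2.1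
  exact HomOn.smul_eq_of_comm hf hxn fun w hw => hf.2.2 _ (hx2.2 w hw)

/-- the functional on the free module given by a function -/
private noncomputable def lcm (Γ : Type u) (K : Type) [Field K] :
    CF Γ K →ₗ[K] Module.Dual K (Γ →₀ K) where
  toFun f := Finsupp.linearCombination K (fun x => f x)
  map_add' f g := by
    ext x
    simp [mul_add]
  map_smul' c f := by
    ext x
    simp

omit [Finite Γ] in
private theorem lcm_single {K : Type} [Field K] (f : CF Γ K) (x : Γ) (c : K) :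
    lcm Γ K f (Finsupp.single x c) = c * f x := by
  change Finsupp.linearCombination K (fun x => f x) (Finsupp.single x c) = c * f x
  rw [Finsupp.linearCombination_single, smul_eq_mul]

omit [Finite Γ] in
private theorem homOn_pow {K : Type} [Field K] {P Q : Subgroup Γ} {f : CF Γ K}
    (hf : f ∈ HomOn K P Q) {x : Γ} (hx : x ∈ P) (k : ℕ) : f (x ^ k) = (k : K) * f x := by
  induction k with
  | zero =>
    rw [pow_zero, HomOn.one hf, Nat.cast_zero, zero_mul]
  | succ k ih =>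
    rw [pow_succ, hf.2.1 _ (P.pow_mem hx k) _ hx, ih]
    push_cast
    ring

omit [Finite Γ] in
private theorem lcm_eval (r : ℕ) [Fact r.Prime] {P Q : Subgroup Γ} (e : Γ →₀ ZMod r) :
    ∃ y ∈ P, ∀ f ∈ HomOn (ZMod r) P Q, lcm Γ (ZMod r) f e = f y := by
  classical
  induction e using Finsupp.induction_linear with
  | zero =>
    refine ⟨1, P.one_mem, fun f hf => ?_⟩
    rw [map_zero, HomOn.one hf]
  | add a b ha hb =>
    obtain ⟨y, hy, h1⟩ := ha
    obtain ⟨z, hz, h2⟩ := hb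
    refine ⟨y * z, P.mul_mem hy hz, fun f hf => ?_⟩
    rw [map_add, h1 f hf, h2 f hf, hf.2.1 y hy z hz]
  | single x c =>
    by_cases hx : x ∈ P
    · refine ⟨x ^ c.val, P.pow_mem hx _, fun f hf => ?_⟩
      rw [lcm_single, homOn_pow hf hx, ZMod.natCast_zmod_val]
    · refine ⟨1, P.one_mem, fun f hf => ?_⟩
      rw [lcm_single, HomOn.one hf, hf.1 x hx, mul_zero]

/-- a subspace of `Hom(P/Q)` with common kernel killed by everything is everything -/
private theorem dual_all (r : ℕ) [Fact r.Prime] {P Q : Subgroup Γ}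
    (V : Submodule (ZMod r) (CF Γ (ZMod r))) (hV : V ≤ HomOn (ZMod r) P Q)
    (h : ∀ x ∈ P, (∀ f ∈ V, f x = 0) → ∀ f ∈ HomOn (ZMod r) P Q, f x = 0) :
    V = HomOn (ZMod r) P Q := by
  classical
  refine le_antisymm hV ?_
  intro g hg
  have hfin : Finite (CF Γ (ZMod r)) := inferInstance
  have hfinV : Finite V := inferInstance
  have h1 : (⨅ f : V, LinearMap.ker (lcm Γ (ZMod r) (f : CF Γ (ZMod r)))) ≤
      LinearMap.ker (lcm Γ (ZMod r) g) := by
    intro e he
    rw [Submodule.mem_iInf] at he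
    obtain ⟨y, hy, h2⟩ := lcm_eval (P := P) (Q := Q) r e
    rw [LinearMap.mem_ker, h2 g hg]
    apply h y hy _ g hg
    intro f hf
    rw [← h2 f (hV hf)]
    exact LinearMap.mem_ker.1 (he ⟨f, hf⟩)
  have h2 := mem_span_of_iInf_ker_le_ker h1
  have h3 : Submodule.span (ZMod r)
      (Set.range fun f : V => lcm Γ (ZMod r) (f : CF Γ (ZMod r))) ≤
      V.map (lcm Γ (ZMod r)) := by
    rw [Submodule.span_le]
    rintro _ ⟨f, rfl⟩
    exact Submodule.mem_map_of_mem f.2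
  obtain ⟨f, hf, hfg⟩ := Submodule.mem_map.1 (h3 h2)
  have h4 : f = g := by
    ext x
    have h5 := congrArg (fun L => L (Finsupp.single x 1)) hfg
    simp only [lcm_single, one_mul] at h5
    exact h5
  rw [← h4]
  exact hf

omit [Finite Γ] in
private theorem le_nrm (H C : Subgroup Γ) (h : ∀ g ∈ H, ∀ x ∈ C, g * x * g⁻¹ ∈ C) :
    H ≤ Nrm C := by
  intro g hg
  rw [Subgroup.mem_normalizer_iff]
  intro x
  constructor
  · exact fun hx => h g hg x hx
  · intro hx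
    have h1 := h g⁻¹ (H.inv_mem hg) _ hx
    have h2 : g⁻¹ * (g * x * g⁻¹) * g⁻¹⁻¹ = x := by group
    rwa [h2] at h1

/-- dual irreducibility: an additive, invariant, nonzero set of functions in `H (i+1)` separates the
points of `P (i+1) / D (i+1)`, and is everything. PROOF. The common kernel `R` in `P (i+1)` of the
functions in `V` is an invariant subgroup with `D ≤ R ≤ P`, `R ≠ P` as `V ≠ 0`; so `R = D` by
`irr`; a subspace of the dual of a finite dimensional space with zero common kernel is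
everything. -/
theorem dual_irr (i : ℕ) (hi : i < T.n) (V : Submodule (ZMod (T.p (i + 1)))
    (CF Γ (ZMod (T.p (i + 1))))) (hV : V ≤ T.H (i + 1)) (h0 : V ≠ ⊥)
    (hY : ∀ y ∈ T.Y, ∀ f ∈ V, y • f ∈ V) (hP : ∀ j ≤ i, ∀ x ∈ T.P j, ∀ f ∈ V, x • f ∈ V) :
    V = T.H (i + 1) := by
  classical
  have hpr : Fact (T.p (i + 1)).Prime := ⟨T.hp (i + 1) hi⟩
  let R : Subgroup Γ :=
    { carrier := {x | x ∈ T.P (i + 1) ∧ ∀ f ∈ V, f x = 0}
      one_mem' := ⟨Subgroup.one_mem _, fun f hf => HomOn.one (hV hf)⟩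
      mul_mem' := by
        rintro a b ⟨ha, ha'⟩ ⟨hb, hb'⟩
        refine ⟨Subgroup.mul_mem _ ha hb, fun f hf => ?_⟩
        rw [(hV hf).2.1 a ha b hb, ha' f hf, hb' f hf, add_zero]
      inv_mem' := by
        rintro a ⟨ha, ha'⟩
        refine ⟨Subgroup.inv_mem _ ha, fun f hf => ?_⟩
        rw [HomOn.inv (hV hf) ha, ha' f hf, neg_zero] }
  have hR : ∀ x, x ∈ R ↔ x ∈ T.P (i + 1) ∧ ∀ f ∈ V, f x = 0 := fun x => Iff.rfl
  have hnR : ∀ G : Subgroup Γ, G ≤ Nrm (T.P (i + 1)) → (∀ g ∈ G, ∀ f ∈ V, g • f ∈ V) →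
      G ≤ Nrm R := by
    intro G hG hGV
    refine le_nrm G R fun g hg x hx => ?_
    rw [hR] at hx ⊢
    refine ⟨(Subgroup.mem_normalizer_iff.1 (hG hg) x).1 hx.1, fun f hf => ?_⟩
    have h1 := hx.2 _ (hGV g⁻¹ (G.inv_mem hg) f hf)
    rw [CF.act_apply, inv_inv] at h1
    exact h1
  have hirr := T.irr i hi R
    (fun x hx => (hR x).2 ⟨T.D_le (i + 1) hi hx, fun f hf =>
      HomOn.zero_of_mem (hV hf) (T.Q_le (i + 1) hi) hx⟩)
    (fun x hx => ((hR x).1 hx).1)
    (hnR _ (T.hY (i + 1) hi) hY)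
    (fun j hj => hnR _ (T.hN j (i + 1) (Nat.lt_succ_of_le hj) hi) (hP j hj))
  rcases hirr with hD | hPP
  · refine dual_all (T.p (i + 1)) V hV fun x hx hx0 f hf => ?_
    have h1 : x ∈ R := (hR x).2 ⟨hx, hx0⟩
    rw [hD] at h1
    exact HomOn.zero_of_mem hf (T.Q_le (i + 1) hi) h1
  · exfalso
    apply h0
    rw [Submodule.eq_bot_iff]
    intro f hf
    ext x
    rw [CF.zero_apply]
    by_cases hx : x ∈ T.P (i + 1)
    · rw [← hPP] at hx
      exact ((hR x).1 hx).2 f hf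
    · exact (hV hf).1 x hx

/-- `Z i` has no nonzero fixed vector in `H (i+1)`. PROOF. The fixed vectors form an invariant
subspace; if nonzero it is everything by `dual_irr`, so `Z i ≤ Q i` by `mem_Q_of_fix`. -/
theorem nofix (i : ℕ) (hi : i < T.n) (f : CF Γ (ZMod (T.p (i + 1)))) (hf : f ∈ T.H (i + 1))
    (h : ∀ z ∈ T.Z i, z • f = f) : f = 0 := by
  classical
  by_contra hne
  obtain ⟨_, _, hZP, _, _, hZQ, hZY, hZj⟩ := T.Z_prop i hi.le
  let V : Submodule (ZMod (T.p (i + 1))) (CF Γ (ZMod (T.p (i + 1)))) :=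
    { carrier := {g | g ∈ T.H (i + 1) ∧ ∀ z ∈ T.Z i, z • g = g}
      zero_mem' := ⟨Submodule.zero_mem _, fun z _ => smul_zero z⟩
      add_mem' := by
        rintro a b ⟨ha, ha'⟩ ⟨hb, hb'⟩
        refine ⟨Submodule.add_mem _ ha hb, fun z hz => ?_⟩
        rw [smul_add, ha' z hz, hb' z hz]
      smul_mem' := by
        rintro c a ⟨ha, ha'⟩
        refine ⟨Submodule.smul_mem _ c ha, fun z hz => ?_⟩
        rw [smul_comm, ha' z hz] }
  have hVm : ∀ g, g ∈ V ↔ g ∈ T.H (i + 1) ∧ ∀ z ∈ T.Z i, z • g = g := fun g => Iff.rfl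
  have hinv : ∀ G : Subgroup Γ, G ≤ Nrm (T.P (i + 1)) → G ≤ Nrm (T.Q (i + 1)) →
      G ≤ Nrm (T.Z i) → ∀ y ∈ G, ∀ g ∈ V, y • g ∈ V := by
    intro G h1 h2 h3 y hy g hg
    rw [hVm] at hg ⊢
    refine ⟨act_mem_HomOn (h1 hy) (h2 hy) hg.1, fun z hz => ?_⟩
    have h4 : y⁻¹ * z * y ∈ T.Z i := by
      have h5 := (Subgroup.mem_normalizer_iff.1 (inv_mem (h3 hy)) z).1 hz
      rwa [inv_inv] at h5
    have h6 : z * y = y * (y⁻¹ * z * y) := by group
    rw [← mul_smul, h6, mul_smul, hg.2 _ h4]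
  have hV : V = T.H (i + 1) := by
    refine T.dual_irr i hi V (fun g hg => ((hVm g).1 hg).1) ?_ ?_ ?_
    · intro hb
      have h1 : f ∈ V := (hVm f).2 ⟨hf, h⟩
      rw [hb, Submodule.mem_bot] at h1
      exact hne h1
    · exact hinv _ (T.hY (i + 1) hi) (T.Y_nrm_Q (i + 1) hi) hZY
    · intro j hj
      exact hinv _ (T.hN j (i + 1) (Nat.lt_succ_of_le hj) hi)
        (T.P_nrm_Q (i + 1) j (Nat.le_succ_of_le hj) hi) (hZj j hj)
  apply hZQ
  intro z hz
  refine T.mem_Q_of_fix i hi z (hZP hz) fun g hg => ?_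
  rw [← hV] at hg
  exact ((hVm g).1 hg).2 z hz

end TowerCore

end FT
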