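import Mathlib
import Pool.Agent.helper11.FT.Defs
import Pool.Agent.helper11.FT.HomBasic
import Pool.Agent.helper11.FT.Tower
import Pool.Agent.helper11.FT.TS
import Pool.Agent.helper11.FT.TS2
import Pool.Agent.helper11.FT.DualCount

/-! # FT-TS3: the dual modules `H (i+1)` and occurring characters (section 2 of the plan) -/

namespace FT

universe u

open scoped commutatorElement

/-- `x` is a power of `x ^ k` -/
private theorem fix_pow_coprime {R : Type*} [Ring R] {p : ℕ} (hp : p.Prime) {X : R}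
    (hX : X ^ p = 1) {k : ℕ} (hk0 : 0 < k) (hkp : k < p) :
    (X - 1) * ∑ j ∈ Finset.range p, X ^ (j * k) = 0 := by
  obtain ⟨m, -, hm⟩ := Nat.exists_mul_mod_eq_one_of_coprime
    ((Nat.coprime_of_lt_prime hk0.ne' hkp hp).symm) hp.one_lt
  have h1 : ∑ j ∈ Finset.range p, X ^ (j * k) = ∑ j ∈ Finset.range p, (X ^ k) ^ j := by
    refine Finset.sum_congr rfl fun j _ => ?_
    rw [← pow_mul, mul_comm]
  have h2 : (X ^ k - 1) * ∑ j ∈ Finset.range p, (X ^ k) ^ j = 0 := by
    rw [mul_geom_sum, ← pow_mul, mul_comm k p, pow_mul, hX, one_pow, sub_self]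
  have h3 : X - 1 = (∑ j ∈ Finset.range m, (X ^ k) ^ j) * (X ^ k - 1) := by
    rw [geom_sum_mul, ← pow_mul]
    have h4 : k * m = p * (k * m / p) + 1 := by
      have := Nat.div_add_mod (k * m) p
      rw [hm] at this
      exact this.symm
    rw [h4, pow_add, pow_mul, hX, one_pow, one_mul, pow_one]
  rw [h1, h3, mul_assoc, h2, mul_zero]

/-- the averaging identity -/
private theorem ring_id {R : Type*} [Ring R] {p : ℕ} (hp : p.Prime) {X Y : R} (h : Commute X Y)
    (hX : X ^ p = 1) :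
    (X - 1) * ∑ j ∈ Finset.range p, ∑ k ∈ Finset.range p, (Y * X ^ j) ^ k = (p : R) * (X - 1) := by
  have h1 : ∑ j ∈ Finset.range p, ∑ k ∈ Finset.range p, (Y * X ^ j) ^ k =
      ∑ k ∈ Finset.range p, Y ^ k * ∑ j ∈ Finset.range p, X ^ (j * k) := by
    rw [Finset.sum_comm]
    refine Finset.sum_congr rfl fun k _ => ?_
    rw [Finset.mul_sum]
    refine Finset.sum_congr rfl fun j _ => ?_
    rw [(h.symm.pow_right j).mul_pow, ← pow_mul]
  have h2 : ∀ k ∈ Finset.range p, (X - 1) * (Y ^ k * ∑ j ∈ Finset.range p, X ^ (j * k)) =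
      if k = 0 then (p : R) * (X - 1) else 0 := by
    intro k hk
    rw [Finset.mem_range] at hk
    have hc : Commute (X - 1) (Y ^ k) := ((h.sub_left (Commute.one_left Y)).pow_right k)
    rw [← mul_assoc, hc.eq, mul_assoc]
    by_cases hk0 : k = 0
    · rw [if_pos hk0, hk0]
      simp only [mul_zero, pow_zero, Finset.sum_const, Finset.card_range, nsmul_eq_mul, mul_one,
        one_mul]
      exact (Nat.cast_commute p (X - 1)).symm.eq
    · rw [if_neg hk0, fix_pow_coprime hp hX (Nat.pos_of_ne_zero hk0) hk, mul_zero]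
  rw [h1, Finset.mul_sum, Finset.sum_congr rfl h2, Finset.sum_ite_eq' (Finset.range p) 0,
    if_pos (Finset.mem_range.2 hp.pos)]

private theorem hom_pow {Γ : Type u} [Group Γ] {K : Type*} [CommRing K] {P Q : Subgroup Γ}
    {f : CF Γ K} (hf : f ∈ HomOn K P Q) {x : Γ} (hx : x ∈ P) (n : ℕ) :
    f (x ^ n) = (n : K) * f x := by
  induction n with
  | zero => rw [pow_zero, HomOn.one hf, Nat.cast_zero, zero_mul]
  | succ n ih =>
    rw [pow_succ, hf.2.1 _ (P.pow_mem hx n) _ hx, ih]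
    push_cast
    ring

/-- a subspace of the dual with zero common kernel is everything -/
private theorem dual_all {Γ : Type u} [Group Γ] [Finite Γ] (r : ℕ) [Fact r.Prime]
    (R A : Subgroup Γ) (hAR : A ≤ R) (hRA : R ≤ Nrm A) (hpow : ∀ x ∈ R, x ^ r ∈ A)
    (hcomm : ∀ x ∈ R, ∀ y ∈ R, ⁅x, y⁆ ∈ A) (W : Submodule (ZMod r) (CF Γ (ZMod r)))
    (hW : W ≤ HomOn (ZMod r) R A) (hsep : ∀ x ∈ R, (∀ f ∈ W, f x = 0) → x ∈ A) :
    W = HomOn (ZMod r) R A := by
  have hfin : Module.Finite (ZMod r) (CF Γ (ZMod r)) := Module.Finite.of_finite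
  let φ : R →* Multiplicative (Module.Dual (ZMod r) W) :=
    { toFun := fun x => Multiplicative.ofAdd
        { toFun := fun f => (f : CF Γ (ZMod r)) x
          map_add' := fun _ _ => rfl
          map_smul' := fun _ _ => rfl }
      map_one' := by
        apply congrArg Multiplicative.ofAdd
        ext f
        exact (hW f.2).2.2 1 A.one_mem
      map_mul' := by
        intro x y
        rw [← ofAdd_add]
        apply congrArg Multiplicative.ofAdd
        ext f
        exact (hW f.2).2.1 _ x.2 _ y.2 }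
  have hker : φ.ker = A.subgroupOf R := by
    ext x
    rw [MonoidHom.mem_ker, Subgroup.mem_subgroupOf]
    constructor
    · intro h
      refine hsep _ x.2 fun f hf => ?_
      exact LinearMap.congr_fun (congrArg Multiplicative.toAdd h) ⟨f, hf⟩
    · intro h
      apply congrArg Multiplicative.ofAdd
      ext f
      exact (hW f.2).2.2 _ h
  have h1 := Subgroup.card_mul_index φ.ker
  rw [Subgroup.index_ker, hker, Nat.card_congr (Subgroup.subgroupOfEquivOfLe hAR).toEquiv] at h1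
  have hD : Finite (Module.Dual (ZMod r) W) := by
    have : Module.Finite (ZMod r) (Module.Dual (ZMod r) W) := inferInstance
    exact Module.finite_of_finite (ZMod r)
  have h2 : Nat.card φ.range ≤ Nat.card (Module.Dual (ZMod r) W) :=
    Nat.card_le_card_of_injective (fun z : φ.range => Multiplicative.toAdd (z : Multiplicative _))
      fun a b h => Subtype.ext h
  have h3 : Nat.card (Module.Dual (ZMod r) W) = Nat.card W := by
    rw [Module.natCard_eq_pow_finrank (K := ZMod r) (V := Module.Dual (ZMod r) W),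
      Module.natCard_eq_pow_finrank (K := ZMod r) (V := W), Subspace.dual_finrank_eq]
  have h4 := card_HomOn r R A hAR hRA hpow hcomm
  have h5 : 0 < Nat.card A := Nat.card_pos
  have h6 : Nat.card (HomOn (ZMod r) R A) ≤ Nat.card W := by
    apply Nat.le_of_mul_le_mul_right _ h5
    rw [h4, ← h1, mul_comm]
    exact Nat.mul_le_mul_right _ (h2.trans h3.le)
  apply SetLike.coe_injective
  refine Set.eq_of_subset_of_ncard_le hW ?_ (Set.toFinite _)
  exact h6

namespace TowerCore

variable {Γ : Type u} [Group Γ] [Finite Γ] (T : TowerCore Γ)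

/-- (2.5). PROOF. Let `K` be the algebraic closure of `F = ZMod (p (i+1))`, `ζ ∈ K` a primitive
`p i`-th root of 1. `HK = HomOn K (P (i+1)) (Q (i+1))` is stable under `Z i`; the operators of
elements of `Z i` on it commute and satisfy `z^(p i) = 1` (`Q i` acts trivially), so `HK` is
the sum of the joint eigenspaces. As `x ∉ Q i` moves some vector of `HK` (`mem_Q_of_fix`; a function
with values in `F` is one with values in `K`), there is a joint eigenvector `g ≠ 0`, with
`z • g = ζ^(l z) g`, `l : Z i → ZMod (p i)` a homomorphism trivial on `Q i`, and `l x ≠ 0`. Choose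
an `F`-linear map `φ : K → F` with `φ ∘ g ≠ 0`; `φ ∘ g` is in `H (i+1)` and fixed by the kernel
of `l`.

(The proof below avoids eigenvectors: among the `f ∈ H (i+1)` not fixed by `x` one with a
stabilizer in `Z i` of maximal order works.) -/
theorem exists_occ (i : ℕ) (hi : i < T.n) (x : Γ) (hx : x ∈ T.Z i) (hxQ : x ∉ T.Q i) :
    ∃ l, T.Occ i l ∧ l x ≠ 0 := by
  have hp : (T.p i).Prime := T.hp i hi.le
  have hq : (T.p (i + 1)).Prime := T.hp (i + 1) hi
  have _ : Fact (T.p i).Prime := ⟨hp⟩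
  have _ : Fact (T.p (i + 1)).Prime := ⟨hq⟩
  obtain ⟨hQZ, -, hZP, hZP', hpow, -, -, hZn⟩ := T.Z_prop i hi.le
  have hZZ : ∀ a ∈ T.Z i, ∀ b ∈ T.Z i, ⁅a, b⁆ ∈ T.Q i := fun a ha b hb =>
    hZP' (Subgroup.commutator_mem_commutator ha (hZP hb))
  -- elements of `Z i` act on `H (i+1)`
  have hact : ∀ z ∈ T.Z i, ∀ f ∈ T.H (i + 1), z • f ∈ T.H (i + 1) := fun z hz f hf =>
    act_mem_HomOn (T.P_nrm_P (i + 1) i (Nat.le_succ i) hi (hZP hz))
      (T.P_nrm_Q (i + 1) i (Nat.le_succ i) hi (hZP hz)) hf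
  have hcomm : ∀ a ∈ T.Z i, ∀ b ∈ T.Z i, ∀ f ∈ T.H (i + 1), a • b • f = b • a • f := by
    intro a ha b hb f hf
    have h1 : a * b = b * a * ⁅a⁻¹, b⁻¹⁆ := by
      rw [commutatorElement_def]
      group
    rw [smul_smul, smul_smul, h1, mul_smul,
      T.Q_fix i hi _ (hZZ _ ((T.Z i).inv_mem ha) _ ((T.Z i).inv_mem hb)) f hf]
  have hpw : ∀ z ∈ T.Z i, ∀ f ∈ T.H (i + 1), z ^ T.p i • f = f := fun z hz f hf =>
    T.Q_fix i hi _ (hpow z hz) f hf
  -- a vector moved by `x` with a maximal stabilizer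
  set S : Set (CF Γ (ZMod (T.p (i + 1)))) := {f | f ∈ T.H (i + 1) ∧ x • f ≠ f} with hS
  have hSne : S.Nonempty := by
    by_contra hcon
    rw [Set.not_nonempty_iff_eq_empty, Set.eq_empty_iff_forall_notMem] at hcon
    refine hxQ (T.mem_Q_of_fix i hi x (hZP hx) fun f hf => ?_)
    by_contra hne
    exact hcon f ⟨hf, hne⟩
  obtain ⟨v, ⟨hv, hxv⟩, hmax⟩ := Set.exists_max_image S
    (fun f => Nat.card (T.Z i ⊓ MulAction.stabilizer Γ f : Subgroup Γ)) (Set.toFinite S) hSne
  set M : Subgroup Γ := T.Z i ⊓ MulAction.stabilizer Γ v with hM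
  have hMm : ∀ z, z ∈ M ↔ z ∈ T.Z i ∧ z • v = v := fun z => by
    rw [hM, Subgroup.mem_inf, MulAction.mem_stabilizer_iff]
  -- the key step
  have key : ∀ y ∈ T.Z i, ∃ j, y * x ^ j ∈ M := by
    intro y hy
    by_contra hno
    rw [not_exists] at hno
    let V := T.H (i + 1)
    let X : Module.End (ZMod (T.p (i + 1))) V := (CF.lin (ZMod (T.p (i + 1))) x).restrict
      (fun f hf => hact x hx f hf)
    let Y : Module.End (ZMod (T.p (i + 1))) V := (CF.lin (ZMod (T.p (i + 1))) y).restrict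
      (fun f hf => hact y hy f hf)
    have eX : ∀ f : V, ((X f : V) : CF Γ (ZMod (T.p (i + 1)))) = x • (f : CF Γ _) := fun _ => rfl
    have eY : ∀ f : V, ((Y f : V) : CF Γ (ZMod (T.p (i + 1)))) = y • (f : CF Γ _) := fun _ => rfl
    have eXn : ∀ (n : ℕ) (f : V), (((X ^ n) f : V) : CF Γ (ZMod (T.p (i + 1)))) =
        x ^ n • (f : CF Γ _) := by
      intro n
      induction n with
      | zero => intro f; rw [pow_zero, pow_zero, one_smul]; rfl
      | succ n ih =>
        intro f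
        rw [pow_succ', Module.End.mul_apply, eX, ih, smul_smul, ← pow_succ']
    have eYX : ∀ (j : ℕ) (f : V), (((Y * X ^ j) f : V) : CF Γ (ZMod (T.p (i + 1)))) =
        (y * x ^ j) • (f : CF Γ _) := by
      intro j f
      rw [Module.End.mul_apply, eY, eXn, smul_smul]
    have eYXn : ∀ (j n : ℕ) (f : V), ((((Y * X ^ j) ^ n) f : V) : CF Γ (ZMod (T.p (i + 1)))) =
        (y * x ^ j) ^ n • (f : CF Γ _) := by
      intro j n
      induction n with
      | zero => intro f; rw [pow_zero, pow_zero, one_smul]; rfl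
      | succ n ih =>
        intro f
        rw [pow_succ', Module.End.mul_apply, eYX, ih, smul_smul, ← pow_succ']
    have hXY : Commute X Y := by
      apply LinearMap.ext
      intro f
      apply Subtype.ext
      rw [Module.End.mul_apply, Module.End.mul_apply, eX, eY, eY, eX]
      exact hcomm x hx y hy _ f.2
    have hXp : X ^ T.p i = 1 := by
      apply LinearMap.ext
      intro f
      apply Subtype.ext
      rw [eXn]
      exact hpw x hx _ f.2
    have hyx : ∀ j : ℕ, y * x ^ j ∈ T.Z i := fun j => (T.Z i).mul_mem hy ((T.Z i).pow_mem hx j)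
    -- the orbit sums are fixed by `x`
    have hfix : ∀ j ∈ Finset.range (T.p i),
        (X - 1) ((∑ k ∈ Finset.range (T.p i), (Y * X ^ j) ^ k) ⟨v, hv⟩) = 0 := by
      intro j _
      set w : V := (∑ k ∈ Finset.range (T.p i), (Y * X ^ j) ^ k) ⟨v, hv⟩ with hw
      have hw' : (w : CF Γ (ZMod (T.p (i + 1)))) =
          ∑ k ∈ Finset.range (T.p i), (y * x ^ j) ^ k • v := by
        rw [hw, LinearMap.sum_apply, Submodule.coe_sum]
        exact Finset.sum_congr rfl fun k _ => eYXn j k ⟨v, hv⟩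
      have h1 : (y * x ^ j) • (w : CF Γ (ZMod (T.p (i + 1)))) = w := by
        have h2 : (Y * X ^ j - 1) * ∑ k ∈ Finset.range (T.p i), (Y * X ^ j) ^ k = 0 := by
          rw [mul_geom_sum, sub_eq_zero]
          apply LinearMap.ext
          intro f
          apply Subtype.ext
          rw [eYXn]
          exact hpw _ (hyx j) _ f.2
        have h3 := LinearMap.congr_fun h2 ⟨v, hv⟩
        rw [Module.End.mul_apply, ← hw, LinearMap.zero_apply, LinearMap.sub_apply,
          Module.End.one_apply, sub_eq_zero] at h3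
        rw [← eYX, h3]
      have h4 : M ≤ T.Z i ⊓ MulAction.stabilizer Γ (w : CF Γ (ZMod (T.p (i + 1)))) := by
        intro m hm
        obtain ⟨hm1, hm2⟩ := (hMm m).1 hm
        rw [Subgroup.mem_inf, MulAction.mem_stabilizer_iff]
        refine ⟨hm1, ?_⟩
        rw [hw', Finset.smul_sum]
        refine Finset.sum_congr rfl fun k _ => ?_
        rw [hcomm m hm1 _ ((T.Z i).pow_mem (hyx j) k) v hv, hm2]
      have h5 : y * x ^ j ∈ T.Z i ⊓ MulAction.stabilizer Γ (w : CF Γ (ZMod (T.p (i + 1)))) := by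
        rw [Subgroup.mem_inf, MulAction.mem_stabilizer_iff]
        exact ⟨hyx j, h1⟩
      have h6 : x • (w : CF Γ (ZMod (T.p (i + 1)))) = w := by
        by_contra hne
        have h7 := hmax _ (show (w : CF Γ (ZMod (T.p (i + 1)))) ∈ S from ⟨w.2, hne⟩)
        have h8 := Subgroup.eq_of_le_of_card_ge h4 h7
        rw [← h8] at h5
        exact hno j h5
      rw [LinearMap.sub_apply, Module.End.one_apply, sub_eq_zero]
      apply Subtype.ext
      rw [eX, h6]
    have h9 := LinearMap.congr_fun (ring_id hp hXY hXp) ⟨v, hv⟩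
    rw [Module.End.mul_apply, LinearMap.sum_apply, map_sum, Finset.sum_eq_zero hfix,
      Module.End.mul_apply] at h9
    have h10 : ((T.p i : ℕ) : Module.End (ZMod (T.p (i + 1))) V) ((X - 1) ⟨v, hv⟩) =
        ((T.p i : ℕ) : ZMod (T.p (i + 1))) • ((X - 1) ⟨v, hv⟩) := by
      rw [Nat.cast_smul_eq_nsmul, ← nsmul_one, LinearMap.smul_apply, Module.End.one_apply]
    rw [h10] at h9
    have h11 : ((T.p i : ℕ) : ZMod (T.p (i + 1))) ≠ 0 := by
      intro h
      rw [ZMod.natCast_eq_zero_iff] at h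
      exact T.adj i hi ((Nat.prime_dvd_prime_iff_eq hq hp).1 h).symm
    rcases smul_eq_zero.1 h9.symm with h12 | h12
    · exact h11 h12
    · rw [LinearMap.sub_apply, Module.End.one_apply, sub_eq_zero] at h12
      exact hxv (by rw [← eX ⟨v, hv⟩, h12])
  -- the character
  have hQM : T.Q i ≤ M := fun z hz => (hMm z).2 ⟨hQZ hz, T.Q_fix i hi z hz v hv⟩
  have hMZ : M ≤ T.Z i := inf_le_left
  have hxM : x ∉ M := fun h => hxv ((hMm x).1 h).2
  have hnorm : T.Z i ≤ Nrm M := by
    have h1 : ∀ z ∈ T.Z i, ∀ m ∈ M, z * m * z⁻¹ ∈ M := by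
      intro z hz m hm
      have h2 : z * m * z⁻¹ = ⁅z, m⁆ * m := by
        rw [commutatorElement_def]
        group
      rw [h2]
      exact M.mul_mem (hQM (hZZ z hz m (hMZ hm))) hm
    intro z hz
    rw [Subgroup.mem_normalizer_iff]
    intro m
    refine ⟨h1 z hz m, fun h => ?_⟩
    have h2 := h1 z⁻¹ ((T.Z i).inv_mem hz) _ h
    have h3 : z⁻¹ * (z * m * z⁻¹) * z⁻¹⁻¹ = m := by group
    rwa [h3] at h2
  have hex : ∃ l ∈ HomOn (ZMod (T.p i)) (T.Z i) M, l x ≠ 0 := by
    by_contra hcon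
    refine hxM (sep_HomOn (T.p i) (T.Z i) M hMZ hnorm (fun z hz => hQM (hpow z hz))
      (fun a ha b hb => hQM (hZZ a ha b hb)) x hx fun f hf => ?_)
    by_contra hne
    exact hcon ⟨f, hf, hne⟩
  obtain ⟨l, hl, hlx⟩ := hex
  refine ⟨l, ⟨⟨hl.1, hl.2.1, fun z hz => hl.2.2 z (hQM hz)⟩, ?_, v, hv, ?_, ?_⟩, hlx⟩
  · intro h
    rw [h] at hlx
    exact hlx rfl
  · intro h
    apply hxv
    rw [h, smul_zero]
  · intro z hz hlz
    obtain ⟨j, hj⟩ := key z hz
    have h1 := hl.2.2 _ hj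
    rw [hl.2.1 z hz _ ((T.Z i).pow_mem hx j), hlz, zero_add, hom_pow hl hx j] at h1
    rcases mul_eq_zero.1 h1 with h2 | h2
    · rw [ZMod.natCast_eq_zero_iff] at h2
      obtain ⟨c, hc⟩ := h2
      have h3 : x ^ j ∈ M := by
        rw [hc, pow_mul]
        exact M.pow_mem (hQM (hpow x hx)) c
      have h4 : z ∈ M := by
        have := M.mul_mem hj (M.inv_mem h3)
        rwa [mul_inv_cancel_right] at this
      exact ((hMm z).1 h4).2
    · exact absurd h2 hlx

private theorem occ_smul_aux (i : ℕ) (l : CF Γ (ZMod (T.p i)))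
    (hl : T.Occ i l) (g : Γ) (h1 : g ∈ Nrm (T.Z i)) (h2 : g ∈ Nrm (T.Q i))
    (h3 : g ∈ Nrm (T.P (i + 1))) (h4 : g ∈ Nrm (T.Q (i + 1))) : T.Occ i (g • l) := by
  obtain ⟨ha, hb, f, hf, hf0, hfix⟩ := hl
  refine ⟨act_mem_HomOn h1 h2 ha, ?_, g • f, act_mem_HomOn h3 h4 hf, ?_, ?_⟩
  · intro h
    exact hb ((smul_eq_zero_iff_eq g).1 h)
  · intro h
    exact hf0 ((smul_eq_zero_iff_eq g).1 h)
  · intro z hz hlz
    have h5 : g⁻¹ * z * g ∈ T.Z i := (Subgroup.mem_normalizer_iff''.mp h1 z).mp hz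
    have h6 := hfix _ h5 hlz
    have h7 : z * g = g * (g⁻¹ * z * g) := by group
    rw [smul_smul, h7, mul_smul, h6]

/-- the set of occurring characters is invariant -/
theorem occ_smul_Y (i : ℕ) (hi : i < T.n) (l : CF Γ (ZMod (T.p i))) (hl : T.Occ i l) (y : Γ)
    (hy : y ∈ T.Y) : T.Occ i (y • l) :=
  T.occ_smul_aux i l hl y ((T.Z_prop i hi.le).2.2.2.2.2.2.1 hy) (T.Y_nrm_Q i hi.le hy)
    (T.hY (i + 1) hi hy) (T.Y_nrm_Q (i + 1) hi hy)

theorem occ_smul_P (i : ℕ) (hi : i < T.n) (l : CF Γ (ZMod (T.p i))) (hl : T.Occ i l)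
    (j : ℕ) (hj : j ≤ i) (x : Γ) (hx : x ∈ T.P j) : T.Occ i (x • l) :=
  T.occ_smul_aux i l hl x ((T.Z_prop i hi.le).2.2.2.2.2.2.2 j hj hx) (T.P_nrm_Q i j hj hi.le hx)
    (T.P_nrm_P (i + 1) j (hj.trans (Nat.le_succ i)) hi hx)
    (T.P_nrm_Q (i + 1) j (hj.trans (Nat.le_succ i)) hi hx)

/-- If level `j` is abelian, a linear operator on `CF` vanishing on all of `Occ j` vanishes on all of
`H j` (here `H j = Hom(P j / Q j)`): the occurring characters span. PROOF. The common kernel of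
`Occ j` in `Z j = P j` is `Q j` by `exists_occ`; duality. -/
theorem occ_span (j : ℕ) (hj : j < T.n) (hj0 : 0 < j) (hab : T.Ab j)
    (L : CF Γ (ZMod (T.p j)) →ₗ[ZMod (T.p j)] CF Γ (ZMod (T.p j)))
    (hL : ∀ l, T.Occ j l → L l = 0) : ∀ f ∈ T.H j, L f = 0 := by
  have _ := hj0
  have _ : Fact (T.p j).Prime := ⟨T.hp j hj.le⟩
  have hZ : T.Z j = T.P j := T.Z_eq_of_Ab j hab
  have hpow : ∀ z ∈ T.P j, z ^ T.p j ∈ T.Q j := by
    intro z hz
    rw [← hZ] at hz
    exact (T.Z_prop j hj.le).2.2.2.2.1 z hz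
  have hW : Submodule.span (ZMod (T.p j)) {l | T.Occ j l} ≤ T.H j := by
    rw [Submodule.span_le]
    intro l hl
    have h1 := hl.1
    rw [hZ] at h1
    exact h1
  have h1 := dual_all (T.p j) (T.P j) (T.Q j) (T.Q_le j hj.le) (T.P_nrm_Q j j le_rfl hj.le) hpow
    (fun a ha b hb => hab (Subgroup.commutator_mem_commutator ha hb))
    (Submodule.span (ZMod (T.p j)) {l | T.Occ j l}) hW (by
      intro x hx h
      by_contra hxQ
      obtain ⟨l, hl, hlx⟩ := T.exists_occ j hj x (by rw [hZ]; exact hx) hxQ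
      exact hlx (h l (Submodule.subset_span hl)))
  intro f hf
  have h2 : f ∈ Submodule.span (ZMod (T.p j)) {l | T.Occ j l} := by
    rw [h1]
    exact hf
  have h3 : Submodule.span (ZMod (T.p j)) {l | T.Occ j l} ≤ LinearMap.ker L := by
    rw [Submodule.span_le]
    intro l hl
    exact hL l hl
  exact h3 h2

end TowerCore

end FT
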