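import Mathlib
import Pool.Agent.helper11.FT.Defs
import Pool.Agent.helper11.FT.HomBasic
import Pool.Agent.helper11.FT.DualCount
import Pool.Agent.helper11.FT.Tower
import Pool.Agent.helper11.FT.TS0
import Pool.Agent.helper11.FT.TSs
import Pool.Agent.helper11.FT.TS
import Pool.Agent.helper11.FT.TS2
import Pool.Agent.helper11.FT.TS3
import Pool.Agent.helper11.FT.RadB

/-! # FT-Compat: compatible characters (section 6 of /team-store/9c6401_plan.md) -/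

namespace FT

universe u v

open scoped commutatorElement

namespace TowerCore

variable {Γ : Type u} [Group Γ] [Finite Γ] (T : TowerCore Γ)

/-- `m` (level `i`) and `l` (special level `i+1`) are compatible: `m -> l` in the plan -/
def Compat (i : ℕ) (m : CF Γ (ZMod (T.p i))) (l : CF Γ (ZMod (T.p (i + 1)))) : Prop :=
  ∃ w ∈ T.P (i + 1), w ∉ T.Rad (i + 1) l ∧ ∀ z ∈ T.Z i, m z = 0 → ⁅w, z⁆ ∈ T.D (i + 1)

omit [Finite Γ] in
private theorem cp_comm_mem {D : Subgroup Γ} {a b : Γ} (h : ⁅a, b⁆ ∈ D) : ⁅b, a⁆ ∈ D := by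
  rw [← commutatorElement_inv]
  exact D.inv_mem h

private theorem cp_ker_le (i : ℕ) (hi : i < T.n) (m : CF Γ (ZMod (T.p i)))
    (hm : m ∈ HomOn (ZMod (T.p i)) (T.Z i) (T.Q i)) : kerH (T.Z i) m ≤ T.P i := by
  intro x hx
  exact (T.Z_prop i hi.le).2.2.1 ((mem_kerH hm).1 hx).1

private theorem cp_card_ne (i : ℕ) (hi : i < T.n) [Fact (T.p (i + 1)).Prime] (M : Subgroup Γ)
    (hM : M ≤ T.P i) : (Nat.card M : ZMod (T.p (i + 1))) ≠ 0 := by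
  have : Fact (T.p i).Prime := ⟨T.hp i hi.le⟩
  obtain ⟨k, hk⟩ := IsPGroup.iff_card.1 (T.hP i hi.le)
  have h1 : Nat.card M ∣ T.p i ^ k := by
    rw [← hk]
    exact Subgroup.card_dvd_of_le hM
  intro h0
  rw [ZMod.natCast_eq_zero_iff] at h0
  have h2 : T.p (i + 1) ∣ T.p i ^ k := h0.trans h1
  have h3 := (T.hp (i + 1) hi).dvd_of_dvd_pow h2
  exact T.adj i hi ((Nat.prime_dvd_prime_iff_eq (T.hp (i + 1) hi) (T.hp i hi.le)).1 h3).symm

private theorem cp_H_eq (i : ℕ) (hi : i < T.n) :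
    T.H (i + 1) = HomOn (ZMod (T.p (i + 1))) (T.P (i + 1)) (T.D (i + 1)) :=
  HomOn_eq (T.Q_le (i + 1) hi)

omit [Finite Γ] in
private theorem cp_mono {K : Type v} [CommRing K] {P Q Q' : Subgroup Γ} (h : Q ≤ Q')
    {f : CF Γ K} (hf : f ∈ HomOn K P Q') : f ∈ HomOn K P Q :=
  ⟨hf.1, hf.2.1, fun x hx => hf.2.2 x (h hx)⟩

private theorem cp_form (i : ℕ) (hi : i < T.n) (hsp : ¬ T.Ab (i + 1))
    (m : CF Γ (ZMod (T.p i)))
    (l : CF Γ (ZMod (T.p (i + 1))))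
    (hl : l ∈ HomOn (ZMod (T.p (i + 1))) (T.Z (i + 1)) (T.Q (i + 1))) (w : Γ)
    (hw : w ∈ T.P (i + 1)) (hwR : w ∉ T.Rad (i + 1) l)
    (hwz : ∀ z ∈ T.Z i, m z = 0 → ⁅w, z⁆ ∈ T.D (i + 1)) :
    ∃ f ∈ HomOn (ZMod (T.p (i + 1))) (T.P (i + 1)) (T.Rad (i + 1) l),
      (∀ y ∈ T.P (i + 1), f y = l ⁅w, y⁆) ∧ f ≠ 0 ∧
      ∀ z ∈ T.Z i, m z = 0 → z • f = f := by
  obtain ⟨f, hf, hfy⟩ := T.form_mem (i + 1) hi hsp l hl w hw
  have hRad := T.mem_Rad (i + 1) hi hsp l hl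
  refine ⟨f, hf, hfy, ?_, ?_⟩
  · intro h0
    apply hwR
    rw [hRad]
    refine ⟨hw, fun y hy => ?_⟩
    rw [← hfy y hy, h0]
    rfl
  · intro z hz hmz
    have hzP : z ∈ T.P i := (T.Z_prop i hi.le).2.2.1 hz
    have hzN : z ∈ Nrm (T.P (i + 1)) := T.P_nrm_P (i + 1) i (Nat.le_succ i) hi hzP
    have hzl : z • l = l := (T.smul_l i hi hsp l hl).1 z hzP
    have hzD : ⁅z, w⁆ ∈ T.D (i + 1) := cp_comm_mem (hwz z hz hmz)
    have hDR : T.D (i + 1) ≤ T.Rad (i + 1) l := (T.Rad_prop (i + 1) hi hsp l hl).1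
    have hDP : T.D (i + 1) ≤ T.P (i + 1) := T.D_le (i + 1) hi
    ext y
    rw [CF.act_apply]
    by_cases hy : y ∈ T.P (i + 1)
    · have hy' : z⁻¹ * y * z ∈ T.P (i + 1) := (Subgroup.mem_normalizer_iff''.mp hzN y).mp hy
      rw [hfy _ hy', hfy _ hy]
      have e1 : l ⁅w, z⁻¹ * y * z⁆ = l ⁅⁅z, w⁆ * w, y⁆ := by
        have h1 := congrFun hzl ⁅⁅z, w⁆ * w, y⁆
        rw [CF.act_apply] at h1
        rw [← h1]
        congr 1
        simp only [commutatorElement_def]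
        group
      rw [e1, T.form_mul_left (i + 1) hi hsp l hl (hDP hzD) hw hy,
        ((hRad _).1 (hDR hzD)).2 y hy, zero_add]
    · have hy' : z⁻¹ * y * z ∉ T.P (i + 1) := fun h =>
        hy ((Subgroup.mem_normalizer_iff''.mp hzN y).mpr h)
      rw [hf.1 _ hy', hf.1 _ hy]

/-- (6.1). PROOF: plan, section 6 (`exists_norm` with `M = kerH (Z i) m`, `D = D (i+1)` gives the
fixed point `w ∉ D` if `C_W(ker m) = 1` is false: take `u ∈ P (i+1)` with `f u ≠ 0` and `w` = its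
norm: `f w = |M| f u ≠ 0`, so `w ∉ D (i+1)`; `center` gives `u'` with `⁅w,u'⁆ ∉ Q (i+1)`, and
`exists_occ` gives `l` with `l ⁅w,u'⁆ ≠ 0`). -/
theorem exists_compat (i : ℕ) (hi : i + 1 < T.n) (hsp : ¬ T.Ab (i + 1))
    (m : CF Γ (ZMod (T.p i))) (hm : T.Occ i m) :
    ∃ l, T.Occ (i + 1) l ∧ T.Compat i m l := by
  have hi' : i < T.n := Nat.lt_of_succ_lt hi
  have : Fact (T.p (i + 1)).Prime := ⟨T.hp (i + 1) hi'⟩
  obtain ⟨hm1, hm0, f, hf, hf0, hfix⟩ := hm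
  have hMP := T.cp_ker_le i hi' m hm1
  have hcard := T.cp_card_ne i hi' _ hMP
  have hfD : f ∈ HomOn (ZMod (T.p (i + 1))) (T.P (i + 1)) (T.D (i + 1)) := by
    rw [← T.cp_H_eq i hi']
    exact hf
  obtain ⟨u, hu⟩ : ∃ u, f u ≠ 0 := by
    by_contra hcon
    push Not at hcon
    exact hf0 (CF.ext hcon)
  have huP : u ∈ T.P (i + 1) := by
    by_contra hcon
    exact hu (hf.1 u hcon)
  obtain ⟨c, hcP, hcD, hcf⟩ := exists_norm (K := ZMod (T.p (i + 1))) (P := T.P (i + 1))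
    (kerH (T.Z i) m) (T.D (i + 1)) (hMP.trans (T.P_nrm_P (i + 1) i (Nat.le_succ i) hi'))
    (T.D_le (i + 1) hi') (hMP.trans (T.P_nrm_D (i + 1) i (Nat.le_succ i) hi'))
    (T.P_nrm_D (i + 1) (i + 1) le_rfl hi') le_sup_left u huP
  have hfc := hcf f hfD (fun z hz => hfix z ((mem_kerH hm1).1 hz).1 ((mem_kerH hm1).1 hz).2)
  have hcD' : c ∉ T.D (i + 1) := by
    intro h
    rw [hfD.2.2 c h] at hfc
    exact mul_ne_zero hcard hu hfc.symm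
  obtain ⟨u', hu'P, hu'⟩ : ∃ u' ∈ T.P (i + 1), ⁅c, u'⁆ ∉ T.Q (i + 1) := by
    by_contra hcon
    push Not at hcon
    exact hcD' (T.center (i + 1) hi' hsp c hcP hcon)
  have hcu : ⁅c, u'⁆ ∈ T.Z (i + 1) := by
    rw [T.Z_eq_of_not_Ab (i + 1) hsp]
    exact Subgroup.mem_sup_left (Subgroup.commutator_mem_commutator hcP hu'P)
  obtain ⟨l, hl, hl0⟩ := T.exists_occ (i + 1) hi _ hcu hu'
  refine ⟨l, hl, c, hcP, ?_, ?_⟩
  · intro h
    rw [T.mem_Rad (i + 1) hi' hsp l hl.1] at h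
    exact hl0 (h.2 u' hu'P)
  · intro z hz hmz
    exact cp_comm_mem (hcD z ((mem_kerH hm1).2 ⟨hz, hmz⟩))

/-- (6.2a). PROOF. `f0 y = l ⁅w,y⁆` (`form_mem`); nonzero as `w ∉ Rad`; for `z ∈ ker m`,
`f0 (z⁻¹ y z) = l ⁅w, z⁻¹ y z⁆ = l ⁅z w z⁻¹, y⁆` (as `z ∈ P i` fixes `l`), and
`z w z⁻¹ ∈ w D (i+1)`. -/
theorem compat_f0 (i : ℕ) (hi : i < T.n) (hsp : ¬ T.Ab (i + 1))
    (m : CF Γ (ZMod (T.p i))) (hm : m ∈ HomOn (ZMod (T.p i)) (T.Z i) (T.Q i))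
    (l : CF Γ (ZMod (T.p (i + 1))))
    (hl : l ∈ HomOn (ZMod (T.p (i + 1))) (T.Z (i + 1)) (T.Q (i + 1))) (hc : T.Compat i m l) :
    ∃ f ∈ T.H (i + 1), f ≠ 0 ∧ (∀ x ∈ T.Rad (i + 1) l, f x = 0) ∧
      ∀ z ∈ T.Z i, m z = 0 → z • f = f := by
  obtain ⟨w, hw, hwR, hwz⟩ := hc
  obtain ⟨f, hf, -, hf0, hfix⟩ := T.cp_form i hi hsp m l hl w hw hwR hwz
  refine ⟨f, ?_, hf0, fun x hx => hf.2.2 x hx, hfix⟩
  exact cp_mono (le_sup_right.trans (T.Rad_prop (i + 1) hi hsp l hl).1) hf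

/-- (6.2b). PROOF: plan, section 6. `avg F M` with `M = kerH (Z i) m`, `|M|` prime to `p (i+1)`;
`avg_eval`, `sep_HomOn` with the subgroup `C D (i+1)`, `exists_norm`. -/
theorem compat_beta (i : ℕ) (hi : i < T.n) (hsp : ¬ T.Ab (i + 1))
    (m : CF Γ (ZMod (T.p i))) (hm : m ∈ HomOn (ZMod (T.p i)) (T.Z i) (T.Q i))
    (l : CF Γ (ZMod (T.p (i + 1))))
    (hl : l ∈ HomOn (ZMod (T.p (i + 1))) (T.Z (i + 1)) (T.Q (i + 1))) (hc : T.Compat i m l)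
    [Fact (T.p (i + 1)).Prime]
    (C : Subgroup Γ) (hC : C ≤ T.P (i + 1)) (hiso : ∀ x ∈ C, ∀ y ∈ C, l ⁅x, y⁆ = 0) :
    ∃ β ∈ T.H (i + 1), (∀ x ∈ C, β x = 0) ∧ avg (ZMod (T.p (i + 1))) (kerH (T.Z i) m) β ≠ 0 := by
  obtain ⟨w, hw, hwR, hwz⟩ := hc
  have hMP := T.cp_ker_le i hi m hm
  have hcard := T.cp_card_ne i hi _ hMP
  have hRad := T.mem_Rad (i + 1) hi hsp l hl
  have hDR : T.D (i + 1) ≤ T.Rad (i + 1) l := (T.Rad_prop (i + 1) hi hsp l hl).1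
  have hDP : T.D (i + 1) ≤ T.P (i + 1) := T.D_le (i + 1) hi
  have hQD : T.Q (i + 1) ≤ T.D (i + 1) := le_sup_right
  have hPPD : ⁅T.P (i + 1), T.P (i + 1)⁆ ≤ T.D (i + 1) := le_sup_left
  have hCD : C ⊔ T.D (i + 1) ≤ T.P (i + 1) := sup_le hC hDP
  have hcom : ∀ x ∈ T.P (i + 1), ∀ y ∈ T.P (i + 1), ⁅x, y⁆ ∈ C ⊔ T.D (i + 1) := fun x hx y hy =>
    Subgroup.mem_sup_right (hPPD (Subgroup.commutator_mem_commutator hx hy))
  have hnrm : T.P (i + 1) ≤ Nrm (C ⊔ T.D (i + 1)) := by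
    intro g hg
    rw [Subgroup.mem_normalizer_iff]
    intro x
    constructor
    · intro hx
      have h1 : g * x * g⁻¹ = ⁅g, x⁆ * x := by
        rw [commutatorElement_def]
        group
      rw [h1]
      exact Subgroup.mul_mem _ (hcom g hg x (hCD hx)) hx
    · intro hx
      have h1 : x = ⁅g⁻¹, g * x * g⁻¹⁆ * (g * x * g⁻¹) := by
        rw [commutatorElement_def]
        group
      rw [h1]
      exact Subgroup.mul_mem _ (hcom _ (Subgroup.inv_mem _ hg) _ (hCD hx)) hx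
  by_contra hcon
  push Not at hcon
  -- Claim A
  have hA : ∀ x ∈ T.P (i + 1), (∀ z ∈ kerH (T.Z i) m, ⁅z, x⁆ ∈ T.D (i + 1)) →
      x ∈ C ⊔ T.D (i + 1) := by
    intro x hx hz
    refine sep_HomOn (T.p (i + 1)) (T.P (i + 1)) (C ⊔ T.D (i + 1)) hCD hnrm
      (fun y hy => Subgroup.mem_sup_right ((T.struct i hi).2.2.2.1 y hy)) hcom x hx ?_
    intro f hf
    have hfH : f ∈ T.H (i + 1) := cp_mono (hQD.trans le_sup_right) hf
    have h1 := hcon f hfH (fun y hy => hf.2.2 y (Subgroup.mem_sup_left hy))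
    have h2 := avg_eval (kerH (T.Z i) m) hcard hfH
      (hMP.trans (T.P_nrm_P (i + 1) i (Nat.le_succ i) hi)) hx
      (fun z hz' => hf.2.2 _ (Subgroup.mem_sup_right (hz z hz')))
    rw [h1] at h2
    exact h2.symm
  -- Claim B
  have hB1 : ∀ y ∈ C, ∀ x ∈ C ⊔ T.D (i + 1), l ⁅y, x⁆ = 0 := by
    intro y hy
    obtain ⟨g, hg, hgy⟩ := T.form_mem (i + 1) hi hsp l hl y (hC hy)
    have h1 : C ⊔ T.D (i + 1) ≤ kerH (T.P (i + 1)) g := by
      refine sup_le (fun x hx => ?_) (fun x hx => ?_)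
      · exact (mem_kerH hg).2 ⟨hC hx, by rw [hgy x (hC hx)]; exact hiso y hy x hx⟩
      · exact (mem_kerH hg).2 ⟨hDP hx, hg.2.2 x (hDR hx)⟩
    intro x hx
    rw [← hgy x (hCD hx)]
    exact ((mem_kerH hg).1 (h1 hx)).2
  have hB : ∀ y ∈ C ⊔ T.D (i + 1), ∀ x ∈ C ⊔ T.D (i + 1), l ⁅y, x⁆ = 0 := by
    intro y hy
    obtain ⟨g, hg, hgy⟩ := T.form_mem (i + 1) hi hsp l hl y (hCD hy)
    have h1 : C ⊔ T.D (i + 1) ≤ kerH (T.P (i + 1)) g := by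
      refine sup_le (fun x hx => ?_) (fun x hx => ?_)
      · refine (mem_kerH hg).2 ⟨hC hx, ?_⟩
        rw [hgy x (hC hx), T.form_symm (i + 1) hi hsp l hl (hCD hy) (hC hx), hB1 x hx y hy,
          neg_zero]
      · exact (mem_kerH hg).2 ⟨hDP hx, hg.2.2 x (hDR hx)⟩
    intro x hx
    rw [← hgy x (hCD hx)]
    exact ((mem_kerH hg).1 (h1 hx)).2
  -- the form of `w`
  obtain ⟨f, hf, hfy, -, hfix⟩ := T.cp_form i hi hsp m l hl w hw hwR hwz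
  have hwC : w ∈ C ⊔ T.D (i + 1) := hA w hw (fun z hz =>
    cp_comm_mem (hwz z ((mem_kerH hm).1 hz).1 ((mem_kerH hm).1 hz).2))
  apply hwR
  rw [hRad]
  refine ⟨hw, fun u hu => ?_⟩
  obtain ⟨c, hcP, hcD, hcf⟩ := exists_norm (K := ZMod (T.p (i + 1))) (P := T.P (i + 1))
    (kerH (T.Z i) m) (T.D (i + 1)) (hMP.trans (T.P_nrm_P (i + 1) i (Nat.le_succ i) hi))
    hDP (hMP.trans (T.P_nrm_D (i + 1) i (Nat.le_succ i) hi))
    (T.P_nrm_D (i + 1) (i + 1) le_rfl hi) hPPD u hu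
  have hfc := hcf f (cp_mono hDR hf)
    (fun z hz => hfix z ((mem_kerH hm).1 hz).1 ((mem_kerH hm).1 hz).2)
  rw [hfy c hcP, hB w hwC c (hA c hcP hcD), hfy u hu] at hfc
  rcases mul_eq_zero.1 hfc.symm with h | h
  · exact absurd h hcard
  · exact h

/-- a vector fixed by `ker m` and by some `x ∈ Z i` with `m x ≠ 0` is zero; consequently an element
of `P i` fixing `β` ... : if `x ∈ Z i`, `x • β = β` and `avg (ker m) β ≠ 0` then `m x = 0`.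
PROOF. `x` normalises `ker m` so fixes `avg β`, which is fixed by `ker m` too, hence by `Z i`
(`fix_of_gen`), so is zero (`nofix`). -/
theorem m_eq_zero_of_fix (i : ℕ) (hi : i < T.n)
    (m : CF Γ (ZMod (T.p i))) (hm : m ∈ HomOn (ZMod (T.p i)) (T.Z i) (T.Q i))
    [Fact (T.p (i + 1)).Prime]
    (β : CF Γ (ZMod (T.p (i + 1)))) (hβ : β ∈ T.H (i + 1))
    (h0 : avg (ZMod (T.p (i + 1))) (kerH (T.Z i) m) β ≠ 0) (x : Γ) (hx : x ∈ T.Z i)
    (hxβ : x • avg (ZMod (T.p (i + 1))) (kerH (T.Z i) m) β =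
      avg (ZMod (T.p (i + 1))) (kerH (T.Z i) m) β) : m x = 0 := by
  have : Fact (T.p i).Prime := ⟨T.hp i hi.le⟩
  by_contra hmx
  have hMP := T.cp_ker_le i hi m hm
  apply h0
  apply T.nofix i hi
  · exact avg_mem_HomOn _ (hMP.trans (T.P_nrm_P (i + 1) i (Nat.le_succ i) hi))
      (hMP.trans (T.P_nrm_Q (i + 1) i (Nat.le_succ i) hi)) hβ
  · exact fix_of_gen hm hx hmx
      (fun z hz hmz => avg_fixed _ _ z ((mem_kerH hm).2 ⟨hz, hmz⟩)) hxβ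

end TowerCore

end FT
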