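import Mathlib
import Pool.Agent.helper11.FT.Defs
import Pool.Agent.helper11.FT.HomBasic
import Pool.Agent.helper11.FT.Tower
import Pool.Agent.helper11.FT.TS0
import Pool.Agent.helper11.FT.TSs
import Pool.Agent.helper11.FT.TS

/-! # FT-NpB: the groups `N_i` and Y-fixed homomorphisms (sections 1 and 3 of
/team-store/9c6401_plan.md) -/

namespace FT

universe u v

open scoped commutatorElement

private theorem npb_nrm_iSup {Γ : Type u} [Group Γ] {ι : Type} (R : ι → Subgroup Γ)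
    (H : Subgroup Γ) (h : ∀ i, H ≤ Nrm (R i)) : H ≤ Nrm (⨆ i, R i) := by
  have key : ∀ y ∈ H, ∀ x ∈ ⨆ i, R i, y * x * y⁻¹ ∈ ⨆ i, R i := by
    intro y hy x hx
    have h1 : (⨆ i, R i) ≤ (⨆ i, R i).comap (MulAut.conj y).toMonoidHom := by
      refine iSup_le fun i z hz => ?_
      rw [Subgroup.mem_comap]
      exact Subgroup.mem_iSup_of_mem i ((Subgroup.mem_normalizer_iff.1 (h i hy) z).1 hz)
    exact h1 hx
  intro y hy
  rw [Subgroup.mem_normalizer_iff]
  intro x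
  refine ⟨fun hx => key y hy x hx, fun hx => ?_⟩
  have h2 := key y⁻¹ (H.inv_mem hy) _ hx
  rwa [show y⁻¹ * (y * x * y⁻¹) * y⁻¹⁻¹ = x by group] at h2

namespace TowerCore

variable {Γ : Type u} [Group Γ] [Finite Γ] (T : TowerCore Γ)

theorem Np_mono (i j : ℕ) (h : i ≤ j) : T.Np i ≤ T.Np j := by
  refine iSup_le fun m => ?_
  exact le_iSup (fun m : {m : ℕ // m ≤ j ∧ T.p m = T.p 0} => T.P m)
    ⟨m.1, m.2.1.trans h, m.2.2⟩

theorem P_le_Np (m i : ℕ) (hm : m ≤ i) (hp : T.p m = T.p 0) : T.P m ≤ T.Np i := by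
  exact le_iSup (fun m : {m : ℕ // m ≤ i ∧ T.p m = T.p 0} => T.P m) ⟨m, hm, hp⟩

theorem Np_succ (i : ℕ) (h : T.p (i + 1) ≠ T.p 0) : T.Np (i + 1) = T.Np i := by
  refine le_antisymm (iSup_le fun m => ?_) (Np_mono T i (i + 1) (Nat.le_succ i))
  obtain ⟨m, hm, hp⟩ := m
  refine P_le_Np T m i ?_ hp
  rcases Nat.lt_or_ge i m with h1 | h1
  · have h2 : m = i + 1 := by omega
    rw [h2] at hp
    exact absurd hp h
  · exact h1

theorem Y_nrm_Np (i : ℕ) (hi : i ≤ T.n) : T.Y ≤ Nrm (T.Np i) := by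
  exact npb_nrm_iSup _ T.Y fun m => T.hY m.1 (m.2.1.trans hi)

/-- `N_i` normalises all groups of level `j ≥ i`, `j ≤ n` -/
theorem Np_nrm (i j : ℕ) (hij : i ≤ j) (hj : j ≤ T.n) :
    T.Np i ≤ Nrm (T.P j) ∧ T.Np i ≤ Nrm (T.Q j) ∧ T.Np i ≤ Nrm (T.D j) ∧
      T.Np i ≤ Nrm (T.Z j) := by
  refine ⟨iSup_le fun m => ?_, iSup_le fun m => ?_, iSup_le fun m => ?_, iSup_le fun m => ?_⟩
  · exact T.P_nrm_P j m.1 (m.2.1.trans hij) hj
  · exact T.P_nrm_Q j m.1 (m.2.1.trans hij) hj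
  · exact T.P_nrm_D j m.1 (m.2.1.trans hij) hj
  · exact (T.Z_prop j hj).2.2.2.2.2.2.2 m.1 (m.2.1.trans hij)

end TowerCore

namespace Tower

variable {Γ : Type u} [Group Γ] [Finite Γ] (T : Tower Γ)

theorem Np_le_S (i : ℕ) (hi : i ≤ T.n) : T.Np i ≤ T.S := by
  exact iSup_le fun m => T.hSP m.1 (m.2.1.trans hi) m.2.2

theorem Np_pgroup (i : ℕ) (hi : i ≤ T.n) : IsPGroup (T.p 0) (T.Np i) := by
  exact T.hS.to_le (T.Np_le_S i hi)

/-- `Np i ⊔ Y` has order dividing `|Np i| |Y|`; in particular it is prime to every prime `r` with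
`r ≠ p 0` and `r` prime to `|Y|`. -/
theorem card_Np_sup_Y (i : ℕ) (hi : i ≤ T.n) (r : ℕ) (hr : r.Prime) (h1 : r ≠ T.p 0)
    (h2 : r.Coprime (Nat.card T.Y)) :
    r.Coprime (Nat.card (T.Np i ⊔ T.Y : Subgroup Γ)) := by
  have hp0 : (T.p 0).Prime := T.hp 0 (Nat.zero_le _)
  have : Fact (T.p 0).Prime := ⟨hp0⟩
  obtain ⟨a, ha⟩ := IsPGroup.iff_card.1 (T.Np_pgroup i hi)
  have hN : r.Coprime (Nat.card (T.Np i)) := by
    rw [ha]
    exact Nat.Coprime.pow_right a ((Nat.coprime_primes hr hp0).2 h1)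
  have hdvd : Nat.card (T.Np i ⊔ T.Y : Subgroup Γ) ∣ Nat.card (T.Np i) * Nat.card T.Y := by
    let H : Subgroup Γ := T.Np i ⊔ T.Y
    have hNH : T.Np i ≤ H := le_sup_left
    have hYH : T.Y ≤ H := le_sup_right
    have hHn : H ≤ Nrm (T.Np i) := sup_le Subgroup.le_normalizer (T.Y_nrm_Np i hi)
    let N : Subgroup H := (T.Np i).subgroupOf H
    have hNn : N.Normal := by
      refine ⟨fun n hn g => ?_⟩
      rw [Subgroup.mem_subgroupOf] at hn ⊢
      exact (Subgroup.mem_normalizer_iff.1 (hHn g.2) _).1 hn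
    have hcN : Nat.card N = Nat.card (T.Np i) :=
      Nat.card_congr (Subgroup.subgroupOfEquivOfLe hNH).toEquiv
    have h3 : Nat.card H = Nat.card (H ⧸ N) * Nat.card N := N.card_eq_card_quotient_mul_card_subgroup
    have h4 : (T.Y.subgroupOf H).map (QuotientGroup.mk' N) = ⊤ := by
      have h5 : N ⊔ T.Y.subgroupOf H = ⊤ := by
        rw [← Subgroup.subgroupOf_sup hNH hYH]
        exact Subgroup.subgroupOf_self H
      have h6 : (N ⊔ T.Y.subgroupOf H).map (QuotientGroup.mk' N) = ⊤ := by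
        rw [h5]
        exact Subgroup.map_top_of_surjective _ (QuotientGroup.mk'_surjective N)
      rwa [Subgroup.map_sup, QuotientGroup.map_mk'_self, bot_sup_eq] at h6
    have h7 : Nat.card (H ⧸ N) ∣ Nat.card T.Y := by
      have h8 : Nat.card (H ⧸ N) = Nat.card ((T.Y.subgroupOf H).map (QuotientGroup.mk' N)) := by
        rw [h4, Subgroup.card_top]
      rw [h8, ← Nat.card_congr (Subgroup.subgroupOfEquivOfLe hYH).toEquiv]
      exact Subgroup.card_map_dvd _ _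
    change Nat.card H ∣ _
    rw [h3, hcN, mul_comm]
    exact mul_dvd_mul_left _ h7
  exact Nat.Coprime.coprime_dvd_right hdvd (Nat.Coprime.mul_right hN h2)

/-- elements of `P i` (`p i ≠ p 0`) commuting with `Y` commute with `Np i` (W) -/
theorem W_Np (i : ℕ) (hi : i ≤ T.n) (hp : T.p i ≠ T.p 0) (x : Γ) (hx : x ∈ T.P i)
    (h : ∀ y ∈ T.Y, y * x = x * y) : ∀ u ∈ T.Np i, x * u = u * x := by
  have key : T.Np i ≤ Subgroup.centralizer {x} := by
    refine iSup_le fun m u hu => ?_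
    obtain ⟨m, hm, hpm⟩ := m
    have hmi : m < i := by
      rcases Nat.lt_or_ge m i with h1 | h1
      · exact h1
      · have h2 : m = i := by omega
        rw [h2] at hpm
        exact absurd hpm hp
    rw [Subgroup.mem_centralizer_iff]
    intro z hz
    rw [Set.mem_singleton_iff] at hz
    rw [hz]
    exact T.W2 i hi hp x hx h m hmi hpm u hu
  intro u hu
  exact Subgroup.mem_centralizer_iff.1 (key hu) x (Set.mem_singleton x)

/-- the norm, corrected to an element commuting with `Y` -/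
private theorem npb_norm (j : ℕ) (hj : j ≤ T.n) (K : Type v) [Field K] (x : Γ)
    (hx : x ∈ T.P j) : ∃ c ∈ T.P j, (∀ y ∈ T.Y, y * c = c * y) ∧
      ∀ f ∈ HomOn K (T.P j) (T.Q j), (∀ y ∈ T.Y, y • f = f) →
        f c = (Nat.card T.Y : K) * f x := by
  have hDP := T.D_le j hj
  have hQP := T.Q_le j hj
  have hPD := T.P_nrm_D j j le_rfl hj
  obtain ⟨c, hcP, hcD, hcf⟩ := exists_norm (K := K) (P := T.P j) T.Y (T.D j) (T.hY j hj) hDP
    (T.Y_nrm_D j hj) hPD le_sup_left x hx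
  have hsol : Group.IsSolvable (T.D j) :=
    have := T.solv j hj
    Group.isSolvable_of_isSolvable_injective (Subgroup.inclusion_injective hDP)
  obtain ⟨c', hc'P, d, hd, hcomm, hcc⟩ := exists_fix_mul (T.P j) (T.D j) T.Y (T.Y_nrm_D j hj)
    hsol ((T.cop_Y j hj).coprime_dvd_left (Subgroup.card_dvd_of_le hDP)) hDP c hcP
    (fun m hm => by
      have h1 := (T.D j).inv_mem (hcD m hm)
      rwa [commutatorElement_inv] at h1) (hPD hcP)
  refine ⟨c', hc'P, hcomm, fun f hf hfY => ?_⟩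
  have hf' : f ∈ HomOn K (T.P j) (T.D j) := by
    have h1 := HomOn_eq (K := K) hQP
    rw [h1] at hf
    exact hf
  have h2 := hcf f hf' hfY
  obtain ⟨-, hadd, h3⟩ := mem_HomOn.1 hf'
  rw [hcc, hadd c' hc'P d (hDP hd), h3 d hd, add_zero] at h2
  exact h2

private theorem npb_cardY (j : ℕ) (hj : j ≤ T.n) (K : Type v) [Field K] [CharP K (T.p j)] :
    (Nat.card T.Y : K) ≠ 0 := by
  intro h
  rw [CharP.cast_eq_zero_iff K (T.p j)] at h
  exact (Nat.Prime.coprime_iff_not_dvd (T.hp j hj)).1 (T.cop j hj) h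

/-- `Y`-fixed homomorphisms `P_j/Q_j → K`, `char K = p_j`, `j ≥ 1`: zero if `p_j = p_0`.
PROOF (section 3). For `x ∈ P j` let `c` be the norm of `x` (`exists_norm` with `M = Y`, `D = D j`):
`w c = |Y| w x`, `⁅y,c⁆ ∈ D j`; by `exists_fix_mul` `c = c' d`, `c' ∈ P j` commuting with `Y`,
`d ∈ D j`, `w d = 0` (`HomOn_eq`). By `W1` `c' = 1`, so `|Y| w x = 0`, and `|Y| ≠ 0` in `K`. -/
theorem yfix_zero (j : ℕ) (hj : j ≤ T.n) (hj1 : 1 ≤ j) (K : Type v) [Field K]
    [CharP K (T.p j)] (w : CF Γ K) (hw : w ∈ HomOn K (T.P j) (T.Q j))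
    (hY : ∀ y ∈ T.Y, y • w = w) (hp : T.p j = T.p 0) : w = 0 := by
  ext x
  rw [CF.zero_apply]
  by_cases hx : x ∈ T.P j
  · obtain ⟨c, hc, hcomm, hcf⟩ := npb_norm T j hj K x hx
    have h1 := hcf w hw hY
    have h2 : c = 1 := T.W1 j hj hp c hc hcomm
    rw [h2, HomOn.one hw] at h1
    rcases mul_eq_zero.1 h1.symm with h3 | h3
    · exact absurd h3 (npb_cardY T j hj K)
    · exact h3
  · exact (mem_HomOn.1 hw).1 x hx

/-- `Y`-fixed homomorphisms `P_j/Q_j → K`, `char K = p_j ≠ p_0` are fixed by `N_j`.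
PROOF (section 3). `g = ∑_{n ∈ Np j} (w - n • w)` is in `HomOn`, `Y`-fixed (`Y` permutes `Np j`),
and for `x ∈ P j` with `c'` as above, `|Y| g x = g c' = 0` as `c'` commutes with `Np j`. So
`|Np j| w = ∑ n • w`, which is `Np j`-fixed, and `|Np j|` is invertible in `K`. -/
theorem yfix_Np (j : ℕ) (hj : j ≤ T.n) (hj1 : 1 ≤ j) (K : Type v) [Field K]
    [CharP K (T.p j)] (w : CF Γ K) (hw : w ∈ HomOn K (T.P j) (T.Q j))
    (hY : ∀ y ∈ T.Y, y • w = w) (hp : T.p j ≠ T.p 0) : ∀ u ∈ T.Np j, u • w = w := by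
  have hp0 : (T.p 0).Prime := T.hp 0 (Nat.zero_le _)
  have : Fact (T.p 0).Prime := ⟨hp0⟩
  obtain ⟨a, ha⟩ := IsPGroup.iff_card.1 (T.Np_pgroup j hj)
  have hN : (Nat.card (T.Np j) : K) ≠ 0 := by
    intro h
    rw [CharP.cast_eq_zero_iff K (T.p j), ha] at h
    exact hp ((Nat.prime_dvd_prime_iff_eq (T.hp j hj) hp0).1 ((T.hp j hj).dvd_of_dvd_pow h))
  obtain ⟨hNP, hNQ, -, -⟩ := T.Np_nrm j j le_rfl hj
  have hav : avg K (T.Np j) w ∈ HomOn K (T.P j) (T.Q j) := avg_mem_HomOn (T.Np j) hNP hNQ hw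
  have hwa : w - avg K (T.Np j) w = 0 := by
    have hg : w - avg K (T.Np j) w ∈ HomOn K (T.P j) (T.Q j) := Submodule.sub_mem _ hw hav
    have hgY : ∀ y ∈ T.Y, y • (w - avg K (T.Np j) w) = w - avg K (T.Np j) w := by
      intro y hy
      rw [smul_sub, hY y hy, ← avg_smul (T.Np j) y (T.Y_nrm_Np j hj hy), hY y hy]
    ext x
    rw [CF.zero_apply]
    by_cases hx : x ∈ T.P j
    · obtain ⟨c, hc, hcomm, hcf⟩ := npb_norm T j hj K x hx
      have h1 := hcf _ hg hgY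
      have h2 : avg K (T.Np j) w c = w c := by
        refine avg_eval (T.Np j) hN hw hNP hc fun m hm => ?_
        have h3 : ⁅m, c⁆ = 1 := by
          rw [commutatorElement_eq_one_iff_mul_comm]
          exact (T.W_Np j hj hp c hc hcomm m hm).symm
        rw [h3, HomOn.one hw]
      rw [CF.sub_apply, h2, sub_self] at h1
      rcases mul_eq_zero.1 h1.symm with h3 | h3
      · exact absurd h3 (npb_cardY T j hj K)
      · exact h3
    · exact (mem_HomOn.1 hg).1 x hx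
  intro u hu
  rw [sub_eq_zero] at hwa
  rw [hwa]
  exact avg_fixed (T.Np j) w u hu

end Tower

end FT
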