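import Mathlib
import Pool.Agent.helper11.FT.Defs
import Pool.Agent.helper11.FT.HomBasic
import Pool.Agent.helper11.FT.Tower
import Pool.Agent.helper11.FT.TS0
import Pool.Agent.helper11.FT.TSs
import Pool.Agent.helper11.FT.TS
import Pool.Agent.helper11.FT.TS2
import Pool.Agent.helper11.FT.NpB

/-! # FT-GoodL: the goodness lemma (G) (section 3 of /team-store/9c6401_plan.md) -/

namespace FT

universe u v

open scoped commutatorElement

section GE

variable {Γ : Type u} [Group Γ] {K : Type v} [Field K] {p : ℕ}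

/-- the (unnormalised) projection to the `c`-component -/
private noncomputable def gE (ψ : AddChar (ZMod p) K) (Z : Subgroup Γ) [Fintype Z]
    (c : CF Γ (ZMod p)) (f : CF Γ K) : CF Γ K :=
  ∑ z : Z, ψ (-(c (z : Γ))) • ((z : Γ) • f)

variable (ψ : AddChar (ZMod p) K) (Z : Subgroup Γ) [Fintype Z]

private theorem gE_sum {ι : Type*} (s : Finset ι) (c : CF Γ (ZMod p)) (f : ι → CF Γ K) :
    gE ψ Z c (∑ j ∈ s, f j) = ∑ j ∈ s, gE ψ Z c (f j) := by
  unfold gE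
  rw [Finset.sum_comm]
  refine Finset.sum_congr rfl fun z _ => ?_
  rw [Finset.smul_sum, Finset.smul_sum]

private theorem gE_act {c : CF Γ (ZMod p)} {f : CF Γ K} {u : Γ} (hu : u ∈ Nrm Z) :
    gE ψ Z (u • c) (u • f) = u • gE ψ Z c f := by
  classical
  have h1 := Subgroup.mem_normalizer_iff''.1 hu
  have h2 := Subgroup.mem_normalizer_iff.1 hu
  let e : Z ≃ Z :=
    { toFun := fun m => ⟨u⁻¹ * m * u, (h1 m).1 m.2⟩
      invFun := fun m => ⟨u * m * u⁻¹, (h2 m).1 m.2⟩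
      left_inv := fun m => Subtype.ext (by
        change u * (u⁻¹ * (m : Γ) * u) * u⁻¹ = m
        group)
      right_inv := fun m => Subtype.ext (by
        change u⁻¹ * (u * (m : Γ) * u⁻¹) * u = m
        group) }
  unfold gE
  rw [Finset.smul_sum]
  refine Fintype.sum_equiv e _ _ fun z => ?_
  change ψ (-((u • c) (z : Γ))) • ((z : Γ) • (u • f)) =
    u • (ψ (-(c (u⁻¹ * (z : Γ) * u))) • ((u⁻¹ * (z : Γ) * u) • f))
  rw [CF.act_apply, smul_comm u, ← mul_smul, ← mul_smul]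
  congr 2
  group

private theorem gE_mem {c : CF Γ (ZMod p)} {f : CF Γ K} {P Q : Subgroup Γ} (hP : Z ≤ Nrm P)
    (hQ : Z ≤ Nrm Q) (hf : f ∈ HomOn K P Q) : gE ψ Z c f ∈ HomOn K P Q :=
  Submodule.sum_mem _ fun z _ => Submodule.smul_mem _ _ (act_mem_HomOn (hP z.2) (hQ z.2) hf)

private theorem gE_shift {Q : Subgroup Γ} {c : CF Γ (ZMod p)} (hc : c ∈ HomOn (ZMod p) Z Q)
    (f : CF Γ K) {z' : Γ} (hz' : z' ∈ Z) : z' • gE ψ Z c f = ψ (c z') • gE ψ Z c f := by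
  classical
  obtain ⟨-, hadd, -⟩ := mem_HomOn.1 hc
  unfold gE
  rw [Finset.smul_sum, Finset.smul_sum]
  refine Fintype.sum_equiv (Equiv.mulLeft (⟨z', hz'⟩ : Z)) _ _ fun z => ?_
  rw [Equiv.coe_mulLeft]
  change z' • (ψ (-(c (z : Γ))) • ((z : Γ) • f)) =
    ψ (c z') • (ψ (-(c (z' * (z : Γ)))) • ((z' * (z : Γ)) • f))
  have h5 : ψ (c z') * ψ (-(c (z' * (z : Γ)))) = ψ (-(c (z : Γ))) := by
    rw [← AddChar.map_add_eq_mul, hadd _ hz' _ z.2]
    congr 1
    ring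
  rw [smul_comm z', ← mul_smul z', smul_smul, h5]

/-- orthogonality -/
private theorem gE_orth (hψ : ∀ a, ψ a = 1 → a = 0) {Q : Subgroup Γ} {c c' : CF Γ (ZMod p)}
    (hc : c ∈ HomOn (ZMod p) Z Q) (hc' : c' ∈ HomOn (ZMod p) Z Q) (hne : c ≠ c') :
    ∑ z : Z, ψ (-(c (z : Γ)) + c' (z : Γ)) = 0 := by
  classical
  obtain ⟨h1, hadd, -⟩ := mem_HomOn.1 hc
  obtain ⟨h1', hadd', -⟩ := mem_HomOn.1 hc'
  have hex : ∃ z0 ∈ Z, c z0 ≠ c' z0 := by
    by_contra hcon
    push Not at hcon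
    apply hne
    ext x
    by_cases hx : x ∈ Z
    · exact hcon x hx
    · rw [h1 x hx, h1' x hx]
  obtain ⟨z0, hz0, hne0⟩ := hex
  have hmul : ψ (-(c z0) + c' z0) * ∑ z : Z, ψ (-(c (z : Γ)) + c' (z : Γ)) =
      ∑ z : Z, ψ (-(c (z : Γ)) + c' (z : Γ)) := by
    rw [Finset.mul_sum]
    refine Fintype.sum_equiv (Equiv.mulLeft (⟨z0, hz0⟩ : Z)) _ _ fun z => ?_
    rw [Equiv.coe_mulLeft]
    change ψ (-(c z0) + c' z0) * ψ (-(c (z : Γ)) + c' (z : Γ)) =
      ψ (-(c (z0 * (z : Γ))) + c' (z0 * (z : Γ)))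
    rw [← AddChar.map_add_eq_mul, hadd _ hz0 _ z.2, hadd' _ hz0 _ z.2]
    congr 1
    ring
  have h3 : ψ (-(c z0) + c' z0) ≠ 1 := fun h => hne0 (by
    have := hψ _ h
    rw [neg_add_eq_zero] at this
    exact this)
  have h4 : (ψ (-(c z0) + c' z0) - 1) * ∑ z : Z, ψ (-(c (z : Γ)) + c' (z : Γ)) = 0 := by
    rw [sub_mul, hmul, one_mul, sub_self]
  exact (mul_eq_zero.1 h4).resolve_left (sub_ne_zero.2 h3)

/-- the projection of an eigenvector -/
private theorem gE_eig {c c' : CF Γ (ZMod p)} {f : CF Γ K}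
    (hf : ∀ z ∈ Z, z • f = ψ (c' z) • f) :
    gE ψ Z c f = (∑ z : Z, ψ (-(c (z : Γ)) + c' (z : Γ))) • f := by
  unfold gE
  rw [Finset.sum_smul]
  refine Finset.sum_congr rfl fun z _ => ?_
  rw [hf z z.2, smul_smul, ← AddChar.map_add_eq_mul]

private theorem gE_eig_same {c : CF Γ (ZMod p)} {f : CF Γ K}
    (hf : ∀ z ∈ Z, z • f = ψ (c z) • f) :
    gE ψ Z c f = (Fintype.card Z : K) • f := by
  rw [gE_eig ψ Z hf]
  simp

private theorem gE_zero (c : CF Γ (ZMod p)) : gE ψ Z c (0 : CF Γ K) = 0 := by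
  unfold gE
  refine Finset.sum_eq_zero fun z _ => ?_
  rw [smul_zero, smul_zero]

end GE

namespace Tower

variable {Γ : Type u} [Group Γ] [Finite Γ] (T : Tower Γ)

/-- (G) over a field `K` with a primitive `p_i`-th root of unity `ζ`.
PROOF: section 3 of the plan, from `w := ∑_{y ∈ Y} y • g` on. The component of `w` for the character
`l` is `|Z|⁻¹ ∑_{z ∈ Z i} ζ^(-l z) z • w`; the `y • g` are eigenvectors for the character `y • l`
(`z • (y • g) = ζ^(l (y⁻¹ z y)) (y • g)`), so the `l`-component of `w` is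
`|{y ∈ Y | y • l = l}| g ≠ 0`. Use `yfix_zero`, `yfix_Np` for `j = i + 1`. If `p i = p 0` then
`Z i ≤ P i ≤ Np (i+1)` fixes `w`, so the `l`-component is `0` as `l ≠ 0` (sum of a nontrivial
character). For `N = Np i = Np (i+1)`: for `u ∈ N`, `u • w = w` so the `u • l`-component of `w` is
`u • (l-component) ≠ 0`, so `u • l` is in the orbit `Y • l`. `N` normal `p`-subgroup of `N ⊔ Y`, the
orbit of `l` under `N ⊔ Y` is `Y • l`, of size dividing `|Y|`, prime to `p`; so the stabilizer of `l`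
in `N ⊔ Y` contains a Sylow `p`-subgroup of `N ⊔ Y`, which contains `N`; alternatively: the orbit
`N • l` has size a power of `p`; all `N`-orbits on `Y • l` have the same size (permuted
transitively by `Y`), so `|N • l|` divides `|Y • l|`, which divides `|Y|`. So it is `1`. -/
theorem goodK (i : ℕ) (hi : i < T.n) (l : CF Γ (ZMod (T.p i)))
    (hl : l ∈ HomOn (ZMod (T.p i)) (T.Z i) (T.Q i)) (hl0 : l ≠ 0)
    (K : Type v) [Field K] [CharP K (T.p (i + 1))] (ζ : K) (hζ : IsPrimitiveRoot ζ (T.p i))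
    (g : CF Γ K) (hg : g ∈ HomOn K (T.P (i + 1)) (T.Q (i + 1))) (hg0 : g ≠ 0)
    (hz : ∀ z ∈ T.Z i, z • g = (ζ ^ (l z).val) • g)
    (hY : ∀ y ∈ T.Y, y • l = l → y • g = g) :
    T.p (i + 1) ≠ T.p 0 ∧ T.p i ≠ T.p 0 ∧ (∀ u ∈ T.Np i, u • l = l) ∧
      ∀ u ∈ T.Np i, u • g = g := by
  classical
  have hi1 : i + 1 ≤ T.n := hi
  have hpi := T.hp i hi.le
  have hpi1 := T.hp (i + 1) hi1
  have hp0 := T.hp 0 (Nat.zero_le _)
  have : Fact (T.p i).Prime := ⟨hpi⟩
  have : Fact (T.p (i + 1)).Prime := ⟨hpi1⟩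
  have : Fact (T.p 0).Prime := ⟨hp0⟩
  have : NeZero (T.p i) := ⟨hpi.ne_zero⟩
  obtain ⟨hQZ, hDZ, hZP, hZc, hZpow, hZQ, hZY, hZj⟩ := T.Z_prop i hi.le
  have hft : Fintype (T.Z i) := Fintype.ofFinite _
  have hfy : Fintype T.Y := Fintype.ofFinite _
  obtain ⟨ψ, hψ⟩ : ∃ ψ : AddChar (ZMod (T.p i)) K, ∀ a, ψ a = ζ ^ a.val :=
    ⟨AddChar.zmodChar (T.p i) hζ.pow_eq_one, fun a => AddChar.zmodChar_apply _ a⟩
  have hψ1 : ∀ a, ψ a = 1 → a = 0 := by
    intro a ha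
    rw [hψ, hζ.pow_eq_one_iff_dvd] at ha
    have h1 : a.val < T.p i := ZMod.val_lt a
    exact (ZMod.val_eq_zero a).1 (Nat.eq_zero_of_dvd_of_lt ha h1)
  have hz' : ∀ z ∈ T.Z i, z • g = ψ (l z) • g := fun z hzz => by rw [hψ]; exact hz z hzz
  set w : CF Γ K := ∑ y : T.Y, (y : Γ) • g with hwdef
  have hw : w ∈ HomOn K (T.P (i + 1)) (T.Q (i + 1)) :=
    Submodule.sum_mem _ fun y _ =>
      act_mem_HomOn (T.hY (i + 1) hi1 y.2) (T.Y_nrm_Q (i + 1) hi1 y.2) hg
  have hwY : ∀ y ∈ T.Y, y • w = w := by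
    intro y hy
    rw [hwdef, Finset.smul_sum]
    refine Fintype.sum_equiv (Equiv.mulLeft (⟨y, hy⟩ : T.Y)) _ _ fun a => ?_
    rw [Equiv.coe_mulLeft, Subgroup.coe_mul, mul_smul]
  have hyl : ∀ y ∈ T.Y, y • l ∈ HomOn (ZMod (T.p i)) (T.Z i) (T.Q i) := fun y hy =>
    act_mem_HomOn (hZY hy) (T.Y_nrm_Q i hi.le hy) hl
  have hyg : ∀ y ∈ T.Y, ∀ z ∈ T.Z i, z • (y • g) = ψ ((y • l) z) • (y • g) := by
    intro y hy z hzz
    have h1 : y⁻¹ * z * y ∈ T.Z i := (Subgroup.mem_normalizer_iff''.1 (hZY hy) z).1 hzz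
    have h2 : z * y = y * (y⁻¹ * z * y) := by group
    rw [← mul_smul, h2, mul_smul, hz' _ h1, smul_comm y, CF.act_apply]
  have hE : ∀ c ∈ HomOn (ZMod (T.p i)) (T.Z i) (T.Q i), gE ψ (T.Z i) c w =
      ∑ y : T.Y, if (y : Γ) • l = c then (Fintype.card (T.Z i) : K) • ((y : Γ) • g) else 0 := by
    intro c hc
    rw [hwdef, gE_sum]
    refine Finset.sum_congr rfl fun y _ => ?_
    split_ifs with h
    · refine gE_eig_same ψ (T.Z i) ?_
      rw [← h]
      exact hyg y y.2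
    · rw [gE_eig ψ (T.Z i) (hyg y y.2),
        gE_orth ψ (T.Z i) hψ1 hc (hyl y y.2) (fun h' => h h'.symm), zero_smul]
  have hEl : gE ψ (T.Z i) l w =
      ((Nat.card (MulAction.stabilizer T.Y l) : K) * (Fintype.card (T.Z i) : K)) • g := by
    rw [hE l hl, ← Finset.sum_filter]
    have h1 : ∀ y ∈ Finset.univ.filter (fun y : T.Y => (y : Γ) • l = l),
        (Fintype.card (T.Z i) : K) • ((y : Γ) • g) = (Fintype.card (T.Z i) : K) • g := by
      intro y hy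
      rw [hY y y.2 (Finset.mem_filter.1 hy).2]
    rw [Finset.sum_congr rfl h1, Finset.sum_const, ← Nat.cast_smul_eq_nsmul K, smul_smul]
    congr 3
    rw [Nat.card_eq_fintype_card, Fintype.card_subtype]
    rfl
  have hZne : (Fintype.card (T.Z i) : K) ≠ 0 := by
    intro h
    rw [CharP.cast_eq_zero_iff K (T.p (i + 1)), ← Nat.card_eq_fintype_card] at h
    have h1 := h.trans (Subgroup.card_dvd_of_le hZP)
    obtain ⟨a, ha⟩ := IsPGroup.iff_card.1 (T.hP i hi.le)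
    rw [ha] at h1
    exact T.adj i hi ((Nat.prime_dvd_prime_iff_eq hpi1 hpi).1 (hpi1.dvd_of_dvd_pow h1)).symm
  have hSne : (Nat.card (MulAction.stabilizer T.Y l) : K) ≠ 0 := by
    intro h
    rw [CharP.cast_eq_zero_iff K (T.p (i + 1))] at h
    have h1 := h.trans (Subgroup.card_subgroup_dvd_card _)
    exact (hpi1.coprime_iff_not_dvd.1 (T.cop (i + 1) hi1)) h1
  have hElne : gE ψ (T.Z i) l w ≠ 0 := by
    rw [hEl]
    exact smul_ne_zero (mul_ne_zero hSne hZne) hg0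
  have hEne : ∀ c ∈ HomOn (ZMod (T.p i)) (T.Z i) (T.Q i), gE ψ (T.Z i) c w ≠ 0 →
      ∃ y : T.Y, (y : Γ) • l = c := by
    intro c hc h
    by_contra hcon
    push Not at hcon
    apply h
    rw [hE c hc]
    exact Finset.sum_eq_zero fun y _ => if_neg (hcon y)
  have part1 : T.p (i + 1) ≠ T.p 0 := by
    intro h
    apply hElne
    rw [T.yfix_zero (i + 1) hi1 (by omega) K w hw hwY h, gE_zero]
  have hwN : ∀ u ∈ T.Np i, u • w = w := by
    have h1 := T.yfix_Np (i + 1) hi1 (by omega) K w hw hwY part1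
    rwa [T.Np_succ i part1] at h1
  have part2 : T.p i ≠ T.p 0 := by
    intro h
    apply hElne
    have h1 : ∀ z ∈ T.Z i, z • w = ψ ((0 : CF Γ (ZMod (T.p i))) z) • w := by
      intro z hzz
      rw [hwN z (T.P_le_Np i i le_rfl h (hZP hzz)), CF.zero_apply, AddChar.map_zero_eq_one,
        one_smul]
    rw [gE_eig ψ (T.Z i) h1, gE_orth ψ (T.Z i) hψ1 hl (Submodule.zero_mem _) hl0, zero_smul]
  -- the orbit
  have hNZ : T.Np i ≤ Nrm (T.Z i) := (T.Np_nrm i i le_rfl hi.le).2.2.2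
  have hNQ : T.Np i ≤ Nrm (T.Q i) := (T.Np_nrm i i le_rfl hi.le).2.1
  have horb : ∀ u ∈ T.Np i, ∀ y : T.Y, ∃ y' : T.Y, (y' : Γ) • l = u • ((y : Γ) • l) := by
    intro u hu y
    apply hEne _ (act_mem_HomOn (hNZ hu) (hNQ hu) (hyl y y.2))
    have h1 : gE ψ (T.Z i) (u • ((y : Γ) • l)) w = u • ((y : Γ) • gE ψ (T.Z i) l w) := by
      conv_lhs => rw [← hwN u hu, ← hwY y y.2]
      rw [gE_act ψ (T.Z i) (hNZ hu), gE_act ψ (T.Z i) (hZY y.2)]
    rw [h1]
    intro h2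
    apply hElne
    rw [smul_eq_zero_iff_eq, smul_eq_zero_iff_eq] at h2
    exact h2
  let X : SubMulAction (T.Np i) (CF Γ (ZMod (T.p i))) :=
    { carrier := MulAction.orbit T.Y l
      smul_mem' := by
        rintro ⟨u, hu⟩ c ⟨y, rfl⟩
        obtain ⟨y', hy'⟩ := horb u hu y
        exact ⟨y', hy'⟩ }
  have hXcard : ¬ T.p 0 ∣ Nat.card X := by
    intro h
    have h1 : Nat.card X ∣ Nat.card T.Y := by
      have h3 : Nat.card X = Nat.card (MulAction.orbit T.Y l) := rfl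
      rw [h3, Nat.card_congr (MulAction.orbitEquivQuotientStabilizer T.Y l)]
      exact Subgroup.card_quotient_dvd_card _
    exact (hp0.coprime_iff_not_dvd.1 (T.cop 0 (Nat.zero_le _))) (h.trans h1)
  have hXfin : Finite X := Set.Finite.to_subtype (Set.toFinite _)
  obtain ⟨⟨c0, hc0⟩, hfix⟩ :=
    (T.Np_pgroup i hi.le).nonempty_fixed_point_of_prime_not_dvd_card X hXcard
  obtain ⟨y0, hy0⟩ := hc0
  have part3 : ∀ u ∈ T.Np i, u • l = l := by
    intro u hu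
    have h1 : (y0 : Γ) * u * (y0 : Γ)⁻¹ ∈ T.Np i :=
      (Subgroup.mem_normalizer_iff.1 (T.Y_nrm_Np i hi.le y0.2) u).1 hu
    have h2 := hfix (⟨_, h1⟩ : T.Np i)
    have h3 : ((y0 : Γ) * u * (y0 : Γ)⁻¹) • c0 = c0 := congrArg Subtype.val h2
    have h4 : c0 = (y0 : Γ) • l := hy0.symm
    rw [h4, ← mul_smul, show (y0 : Γ) * u * (y0 : Γ)⁻¹ * (y0 : Γ) = (y0 : Γ) * u by group,
      mul_smul] at h3
    exact smul_left_cancel _ h3
  refine ⟨part1, part2, part3, ?_⟩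
  intro u hu
  have h1 : gE ψ (T.Z i) l w = u • gE ψ (T.Z i) l w := by
    conv_lhs => rw [← part3 u hu, ← hwN u hu]
    rw [gE_act ψ (T.Z i) (hNZ hu)]
  rw [hEl, smul_comm u] at h1
  exact (smul_right_injective _ (mul_ne_zero hSne hZne) h1).symm

/-- (G). PROOF. Extend scalars: `K` algebraic closure of `ZMod (p (i+1))`, `ζ` a primitive `p i`-th
root of unity. `f_K(x) = f(x)` in `K`. For `a ∈ ZMod (p i)` let
`f_a = |Z i|⁻¹ ∑_{z ∈ Z i} ζ^(-a l z) z • f_K`: an eigenvector for `a l`. As `f_K` is fixed by the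
kernel of `l`, `f_K = ∑_a f_a`. `f_0` is fixed by `Z i`: its values generate functions with values
in `ZMod (p (i+1))` (compose with linear maps `K → F`) fixed by `Z i`, zero by `nofix`.
Each `f_a` is fixed by `Y_l` (as `Z i` is normalised and `l` is fixed). For `f_a ≠ 0` (then
`a ≠ 0`) apply `goodK` with `a • l`. -/
theorem goodG (i : ℕ) (hi : i < T.n) (l : CF Γ (ZMod (T.p i)))
    (hl : l ∈ HomOn (ZMod (T.p i)) (T.Z i) (T.Q i)) (hl0 : l ≠ 0)
    (f : CF Γ (ZMod (T.p (i + 1)))) (hf : f ∈ T.H (i + 1)) (hf0 : f ≠ 0)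
    (hker : ∀ z ∈ T.Z i, l z = 0 → z • f = f)
    (hY : ∀ y ∈ T.Y, y • l = l → y • f = f) :
    T.p (i + 1) ≠ T.p 0 ∧ T.p i ≠ T.p 0 ∧ (∀ u ∈ T.Np i, u • l = l) ∧
      ∀ u ∈ T.Np i, u • f = f := by
  classical
  have hi1 : i + 1 ≤ T.n := hi
  have hpi := T.hp i hi.le
  have hpi1 := T.hp (i + 1) hi1
  have : Fact (T.p i).Prime := ⟨hpi⟩
  have hF1 : Fact (T.p (i + 1)).Prime := ⟨hpi1⟩
  have : NeZero (T.p i) := ⟨hpi.ne_zero⟩
  obtain ⟨hQZ, hDZ, hZP, hZc, hZpow, hZQ, hZY, hZj⟩ := T.Z_prop i hi.le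
  have hft : Fintype (T.Z i) := Fintype.ofFinite _
  let K := AlgebraicClosure (ZMod (T.p (i + 1)))
  have hCP : CharP K (T.p (i + 1)) :=
    charP_of_injective_algebraMap (algebraMap (ZMod (T.p (i + 1))) K).injective _
  have hpK : ((T.p i : ℕ) : K) ≠ 0 := by
    intro h
    rw [CharP.cast_eq_zero_iff K (T.p (i + 1))] at h
    exact T.adj i hi ((Nat.prime_dvd_prime_iff_eq hpi1 hpi).1 h).symm
  have : NeZero ((T.p i : ℕ) : K) := ⟨hpK⟩
  obtain ⟨ζ, hζ⟩ := HasEnoughRootsOfUnity.exists_primitiveRoot K (T.p i)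
  obtain ⟨ψ, hψ⟩ : ∃ ψ : AddChar (ZMod (T.p i)) K, ∀ a, ψ a = ζ ^ a.val :=
    ⟨AddChar.zmodChar (T.p i) hζ.pow_eq_one, fun a => AddChar.zmodChar_apply _ a⟩
  have hψ1 : ∀ a, ψ a = 1 → a = 0 := by
    intro a ha
    rw [hψ, hζ.pow_eq_one_iff_dvd] at ha
    have h1 : a.val < T.p i := ZMod.val_lt a
    exact (ZMod.val_eq_zero a).1 (Nat.eq_zero_of_dvd_of_lt ha h1)
  have hnP : T.Z i ≤ Nrm (T.P (i + 1)) := hZP.trans (T.hN i (i + 1) (Nat.lt_succ_self i) hi1)
  have hnQ : T.Z i ≤ Nrm (T.Q (i + 1)) :=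
    hZP.trans (T.P_nrm_Q (i + 1) i (Nat.le_succ i) hi1)
  let am := algebraMap (ZMod (T.p (i + 1))) K
  have ham : Function.Injective am := am.injective
  let F0 : CF Γ K := fun x => am (f x)
  have hF0 : ∀ x, F0 x = am (f x) := fun _ => rfl
  have hact : ∀ g : Γ, g • f = f → g • F0 = F0 := by
    intro g hg
    ext x
    rw [CF.act_apply, hF0, hF0, ← CF.act_apply g f x, hg]
  have hact' : ∀ g : Γ, g • F0 = F0 → g • f = f := by
    intro g hg
    ext x
    have h1 : (g • F0) x = F0 x := by rw [hg]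
    rw [CF.act_apply, hF0, hF0] at h1
    rw [CF.act_apply]
    exact ham h1
  have hF0m : F0 ∈ HomOn K (T.P (i + 1)) (T.Q (i + 1)) := by
    obtain ⟨h1, h2, h3⟩ := mem_HomOn.1 hf
    refine mem_HomOn.2 ⟨fun x hx => ?_, fun x hx y hy => ?_, fun x hx => ?_⟩
    · rw [hF0, h1 x hx, map_zero]
    · rw [hF0, hF0, hF0, h2 x hx y hy, map_add]
    · rw [hF0, h3 x hx, map_zero]
  have hal : ∀ a : ZMod (T.p i), a • l ∈ HomOn (ZMod (T.p i)) (T.Z i) (T.Q i) :=
    fun a => Submodule.smul_mem _ a hl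
  -- sum of the components
  have hsum : ∑ a : ZMod (T.p i), gE ψ (T.Z i) (a • l) F0 =
      ((T.p i : K) * ((Finset.univ.filter (fun z : T.Z i => l (z : Γ) = 0)).card : K)) • F0 := by
    have hprim : ψ.IsPrimitive := by
      intro a ha h1
      apply ha
      apply hψ1
      have h2 := DFunLike.congr_fun h1 1
      rwa [AddChar.mulShift_apply, mul_one, AddChar.one_apply] at h2
    unfold gE
    rw [Finset.sum_comm]
    have h1 : ∀ z : T.Z i, (∑ a : ZMod (T.p i), ψ (-((a • l) (z : Γ))) • ((z : Γ) • F0)) =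
        if l (z : Γ) = 0 then (T.p i : K) • F0 else 0 := by
      intro z
      rw [← Finset.sum_smul]
      have h2 : ∑ a : ZMod (T.p i), ψ (-((a • l) (z : Γ))) =
          ∑ a : ZMod (T.p i), ψ (a * (-(l (z : Γ)))) := by
        refine Finset.sum_congr rfl fun a _ => ?_
        rw [CF.cmul_apply, smul_eq_mul, mul_neg]
      rw [h2, AddChar.sum_mulShift _ hprim, ZMod.card]
      by_cases hlz : l (z : Γ) = 0
      · rw [if_pos hlz, if_pos (by rw [hlz, neg_zero]), hact _ (hker z z.2 hlz)]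
      · rw [if_neg hlz, if_neg (by rwa [neg_eq_zero])]
        simp
    rw [Finset.sum_congr rfl fun z _ => h1 z, ← Finset.sum_filter, Finset.sum_const,
      ← Nat.cast_smul_eq_nsmul K, smul_smul, mul_comm]
  have hcne : ((Finset.univ.filter (fun z : T.Z i => l (z : Γ) = 0)).card : K) ≠ 0 := by
    intro h
    rw [CharP.cast_eq_zero_iff K (T.p (i + 1))] at h
    have hkP : kerH (T.Z i) l ≤ T.P i := fun x hx => hZP ((mem_kerH hl).1 hx).1
    have hcard : (Finset.univ.filter (fun z : T.Z i => l (z : Γ) = 0)).card =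
        Nat.card (kerH (T.Z i) l) := by
      rw [← Fintype.card_subtype, ← Nat.card_eq_fintype_card]
      exact Nat.card_congr
        { toFun := fun z => ⟨(z.1 : Γ), (mem_kerH hl).2 ⟨z.1.2, z.2⟩⟩
          invFun := fun z => ⟨⟨(z : Γ), ((mem_kerH hl).1 z.2).1⟩, ((mem_kerH hl).1 z.2).2⟩
          left_inv := fun z => rfl
          right_inv := fun z => rfl }
    rw [hcard] at h
    have h1 := h.trans (Subgroup.card_dvd_of_le hkP)
    obtain ⟨a, ha⟩ := IsPGroup.iff_card.1 (T.hP i hi.le)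
    rw [ha] at h1
    exact T.adj i hi ((Nat.prime_dvd_prime_iff_eq hpi1 hpi).1 (hpi1.dvd_of_dvd_pow h1)).symm
  have hmne := mul_ne_zero hpK hcne
  -- the component for the trivial character vanishes
  have hzero : gE ψ (T.Z i) ((0 : ZMod (T.p i)) • l) F0 = 0 := by
    have hs : (∑ z : T.Z i, (z : Γ) • f) = 0 := by
      refine T.nofix i hi _ (Submodule.sum_mem _ fun z _ =>
        act_mem_HomOn (hnP z.2) (hnQ z.2) hf) fun z hzz => ?_
      rw [Finset.smul_sum]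
      refine Fintype.sum_equiv (Equiv.mulLeft (⟨z, hzz⟩ : T.Z i)) _ _ fun a => ?_
      rw [Equiv.coe_mulLeft, Subgroup.coe_mul, mul_smul]
    unfold gE
    ext x
    rw [CF.sum_apply, CF.zero_apply]
    have h2 : (∑ z : T.Z i, (z : Γ) • f) x = 0 := by rw [hs]; rfl
    rw [CF.sum_apply] at h2
    have h3 := congrArg am h2
    rw [map_sum, map_zero] at h3
    rw [← h3]
    refine Finset.sum_congr rfl fun z _ => ?_
    rw [zero_smul, CF.cmul_apply, CF.zero_apply, neg_zero, AddChar.map_zero_eq_one, one_smul,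
      CF.act_apply, CF.act_apply, hF0]
  have hYfix : ∀ a : ZMod (T.p i), ∀ y ∈ T.Y, y • l = l →
      y • gE ψ (T.Z i) (a • l) F0 = gE ψ (T.Z i) (a • l) F0 := by
    intro a y hy hyl
    rw [← gE_act ψ (T.Z i) (hZY hy), smul_comm y a l, hyl, hact y (hY y hy hyl)]
  -- apply goodK
  have hmain : ∀ a : ZMod (T.p i), gE ψ (T.Z i) (a • l) F0 ≠ 0 →
      T.p (i + 1) ≠ T.p 0 ∧ T.p i ≠ T.p 0 ∧ (∀ u ∈ T.Np i, u • l = l) ∧
      ∀ u ∈ T.Np i, u • gE ψ (T.Z i) (a • l) F0 = gE ψ (T.Z i) (a • l) F0 := by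
    intro a ha
    have ha0 : a ≠ 0 := by
      rintro rfl
      exact ha hzero
    have hal0 : a • l ≠ 0 := smul_ne_zero ha0 hl0
    obtain ⟨h1, h2, h3, h4⟩ := T.goodK i hi (a • l) (hal a) hal0 K ζ hζ
      (gE ψ (T.Z i) (a • l) F0) (gE_mem ψ (T.Z i) hnP hnQ hF0m) ha
      (fun z hzz => by
        rw [gE_shift ψ (T.Z i) (hal a) F0 hzz, hψ])
      (fun y hy hyl => by
        apply hYfix a y hy
        rw [smul_comm y a l] at hyl
        exact smul_right_injective _ ha0 hyl)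
    refine ⟨h1, h2, fun u hu => ?_, h4⟩
    have h5 := h3 u hu
    rw [smul_comm u a l] at h5
    exact smul_right_injective _ ha0 h5
  have hex : ∃ a : ZMod (T.p i), gE ψ (T.Z i) (a • l) F0 ≠ 0 := by
    by_contra hcon
    push Not at hcon
    rw [Finset.sum_eq_zero fun a _ => hcon a] at hsum
    apply hf0
    have h1 := (smul_eq_zero.1 hsum.symm).resolve_left hmne
    ext x
    have h2 : F0 x = 0 := by rw [h1]; rfl
    rw [hF0, map_eq_zero] at h2
    exact h2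
  obtain ⟨a, ha⟩ := hex
  obtain ⟨h1, h2, h3, -⟩ := hmain a ha
  refine ⟨h1, h2, h3, fun u hu => hact' u ?_⟩
  have h5 : u • ((((T.p i : ℕ) : K) *
      ((Finset.univ.filter (fun z : T.Z i => l (z : Γ) = 0)).card : K)) • F0) =
      (((T.p i : ℕ) : K) *
      ((Finset.univ.filter (fun z : T.Z i => l (z : Γ) = 0)).card : K)) • F0 := by
    rw [← hsum, Finset.smul_sum]
    refine Finset.sum_congr rfl fun b _ => ?_
    by_cases hb : gE ψ (T.Z i) (b • l) F0 = 0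
    · rw [hb, smul_zero]
    · exact (hmain b hb).2.2.2 u hu
  rw [smul_comm u] at h5
  exact smul_right_injective _ hmne h5

end Tower

end FT
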