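import Mathlib
import Pool.Agent.helper11.FT.Defs

/-! # FT-DualFix -/

namespace FT

universe u v w

open scoped commutatorElement

section Avg

variable {M : Type u} [Group M] {k : Type v} [Field k] {V : Type w}
    [AddCommGroup V] [Module k V]

/-- the average over the subgroup `H` -/
private noncomputable def avg (ρ : Representation k M V) (H : Subgroup M) [Fintype H] :
    V →ₗ[k] V := (Nat.card H : k)⁻¹ • ∑ h : H, ρ (h : M)

private theorem avg_apply (ρ : Representation k M V) (H : Subgroup M) [Fintype H] (x : V) :
    avg ρ H x = (Nat.card H : k)⁻¹ • ∑ h : H, ρ (h : M) x := by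
  simp [avg, LinearMap.sum_apply]

private theorem range_avg (ρ : Representation k M V) (H : Subgroup M) [Fintype H]
    (hH : (Nat.card H : k) ≠ 0) : LinearMap.range (avg ρ H) = fixS ρ H := by
  ext x
  constructor
  · rintro ⟨y, rfl⟩
    intro g hg
    rw [avg_apply, map_smul, map_sum]
    congr 1
    refine Fintype.sum_equiv (Equiv.mulLeft (⟨g, hg⟩ : H)) _ _ fun h => ?_
    simp [Equiv.coe_mulLeft, map_mul, Module.End.mul_apply]
  · intro hx
    refine ⟨x, ?_⟩
    have h1 : ∀ h : H, ρ (h : M) x = x := fun h => hx _ h.2
    rw [avg_apply, Finset.sum_congr rfl (fun h _ => h1 h), Finset.sum_const,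
      Finset.card_univ, ← Nat.card_eq_fintype_card, ← Nat.cast_smul_eq_nsmul k, smul_smul,
      inv_mul_cancel₀ hH, one_smul]

private theorem avg_dual (ρ : Representation k M V) (H : Subgroup M) [Fintype H] :
    avg ρ.dual H = (avg ρ H).dualMap := by
  ext f x
  rw [avg_apply, LinearMap.dualMap_apply, avg_apply, map_smul, map_sum, LinearMap.smul_apply,
    LinearMap.sum_apply]
  congr 1
  refine Fintype.sum_equiv (Equiv.inv H) _ _ fun h => ?_
  simp [Representation.dual_apply, Module.Dual.transpose_apply]

end Avg

/-- Fixed vectors in a representation and in the dual one have the same dimension, when the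
order of the group is invertible.
PROOF. Let `e = |H|⁻¹ ∑ ρ h`, the projection on `fixS ρ H` (Mathlib:
`Representation.averageMap`, for the group `H`); the corresponding projection for the dual is the
transpose `e.dualMap`, and rank of the transpose = rank (`LinearMap.finrank_range_dualMap_eq_finrank_range`
or similar). Alternatively: `f` is fixed iff it vanishes on the span of `ρ h v - v`, a complement
of `fixS ρ H`. -/
theorem dual_fix {M : Type u} [Group M] [Finite M] {k : Type v} [Field k] {V : Type w}
    [AddCommGroup V] [Module k V] [FiniteDimensional k V] (ρ : Representation k M V)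
    (H : Subgroup M) (hH : (Nat.card H : k) ≠ 0) :
    Module.finrank k (fixS ρ H) = Module.finrank k (fixS ρ.dual H) := by
  classical
  have _ : Fintype H := Fintype.ofFinite H
  rw [← range_avg ρ H hH, ← range_avg ρ.dual H hH, avg_dual,
    LinearMap.finrank_range_dualMap_eq_finrank_range]

end FT
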