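import Mathlib
import Pool.Agent.helper11.FT.Defs

/-! # FT-Marks: marks of permutation modules, duality, and the pick lemma in an abelian section -/

namespace FT

universe u v w

open scoped commutatorElement

private theorem marks_count {M : Type u} [Group M] [Finite M] {X : Type v} [Finite X]
    [MulAction M X] (H : Subgroup M) :
    Nat.card {x : X // ∀ m ∈ H, m • x = x} =
      Nat.card {x : X // MulAction.stabilizer M x = H} +
        ∑ᶠ (K : Subgroup M) (_ : H < K), Nat.card {x : X // MulAction.stabilizer M x = K} := by
  classical
  have := Fintype.ofFinite X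
  have := Fintype.ofFinite (Subgroup M)
  have e0 : ∀ x : X, (∀ m ∈ H, m • x = x) ↔ H ≤ MulAction.stabilizer M x := by
    intro x
    constructor
    · intro hx m hm
      exact MulAction.mem_stabilizer_iff.2 (hx m hm)
    · intro hx m hm
      exact MulAction.mem_stabilizer_iff.1 (hx hm)
  have e1 : ∀ p : X → Prop, Nat.card {x : X // p x} = (Finset.univ.filter p).card := by
    intro p
    rw [Nat.card_eq_fintype_card, Fintype.card_subtype]
  rw [e1, e1]
  have e2 : ∑ᶠ (K : Subgroup M) (_ : H < K), Nat.card {x : X // MulAction.stabilizer M x = K} =
      ∑ K ∈ Finset.univ.filter (fun K : Subgroup M => H < K),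
        (Finset.univ.filter (fun x : X => MulAction.stabilizer M x = K)).card := by
    refine (finsum_mem_eq_finite_toFinset_sum
      (fun K : Subgroup M => Nat.card {x : X // MulAction.stabilizer M x = K})
      (Set.toFinite {K : Subgroup M | H < K})).trans ?_
    apply Finset.sum_congr
    · ext K; simp
    · intro K _
      exact e1 _
  rw [e2]
  have e3 : (Finset.univ.filter (fun x : X => H < MulAction.stabilizer M x)).card =
      ∑ K ∈ Finset.univ.filter (fun K : Subgroup M => H < K),
        (Finset.univ.filter (fun x : X => MulAction.stabilizer M x = K)).card := by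
    rw [Finset.card_eq_sum_card_fiberwise (f := fun x : X => MulAction.stabilizer M x)
      (t := Finset.univ.filter (fun K : Subgroup M => H < K))]
    · apply Finset.sum_congr rfl
      intro K hK
      congr 1
      ext x
      simp only [Finset.mem_filter, Finset.mem_univ, true_and] at hK ⊢
      constructor
      · exact fun h => h.2
      · intro h
        exact ⟨by rw [h]; exact hK, h⟩
    · intro x hx
      simpa using hx
  rw [← e3, ← Finset.card_union_of_disjoint]
  · congr 1
    ext x
    simp only [Finset.mem_filter, Finset.mem_univ, true_and, Finset.mem_union]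
    rw [e0 x]
    constructor
    · intro h
      rcases h.eq_or_lt with h | h
      · exact Or.inl h.symm
      · exact Or.inr h
    · rintro (h | h)
      · exact h.ge
      · exact h.le
  · rw [Finset.disjoint_left]
    intro x hx hx'
    simp only [Finset.mem_filter, Finset.mem_univ, true_and] at hx hx'
    exact absurd hx.symm hx'.ne

/-- Two finite `M`-sets with equally many fixed points for every subgroup have the same point
stabilizers.
PROOF. By strong induction on `Nat.card M - Nat.card H` (i.e. downwards) the number
`x(H)` of points of `X` with stabilizer exactly `H` equals `y(H)`, the corresponding number for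
`Y`: indeed `|Fix_X(H)| = ∑_{H' ≥ H} x(H')`. So `x(stabilizer of y) ≥ 1`. -/
theorem marks {M : Type u} [Group M] [Finite M] {X : Type v} {Y : Type w} [Finite X] [Finite Y]
    [MulAction M X] [MulAction M Y]
    (h : ∀ H : Subgroup M, Nat.card {x : X // ∀ m ∈ H, m • x = x} =
      Nat.card {y : Y // ∀ m ∈ H, m • y = y}) (y : Y) :
    ∃ x : X, MulAction.stabilizer M x = MulAction.stabilizer M y := by
  have key : ∀ H : Subgroup M, Nat.card {x : X // MulAction.stabilizer M x = H} =
      Nat.card {y : Y // MulAction.stabilizer M y = H} := by
    intro H
    induction H using WellFoundedGT.induction with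
    | ind H ih =>
      have h1 := marks_count (X := X) H
      have h2 := marks_count (X := Y) H
      have h3 := h H
      have h4 : ∑ᶠ (K : Subgroup M) (_ : H < K), Nat.card {x : X // MulAction.stabilizer M x = K} =
          ∑ᶠ (K : Subgroup M) (_ : H < K), Nat.card {x : Y // MulAction.stabilizer M x = K} :=
        finsum_congr fun K => finsum_congr fun hK => ih K hK
      omega
  have hk := key (MulAction.stabilizer M y)
  have hpos : 0 < Nat.card {y' : Y // MulAction.stabilizer M y' = MulAction.stabilizer M y} := by
    have : Nonempty {y' : Y // MulAction.stabilizer M y' = MulAction.stabilizer M y} := ⟨⟨y, rfl⟩⟩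
    exact Nat.card_pos
  rw [← hk] at hpos
  obtain ⟨⟨x, hx⟩⟩ := (Nat.card_pos_iff.1 hpos).1
  exact ⟨x, hx⟩

end FT
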