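import Mathlib
import Pool.Agent.helper11.FT.Defs
import Pool.Agent.helper11.FT.Marks
import Pool.Agent.helper11.FT.DualFix

/-! # FT-PickAb -/

namespace FT

universe u v w

open scoped commutatorElement

/-- the abstract form: point stabilizers of a coprime module and of its dual -/
private theorem pick_rep {M : Type u} [Group M] [Finite M] {r : ℕ} [Fact r.Prime] {V : Type v}
    [AddCommGroup V] [Module (ZMod r) V] [Finite V] (ρ : Representation (ZMod r) M V)
    (hc : r.Coprime (Nat.card M)) (φ : Module.Dual (ZMod r) V) :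
    ∃ v : V, ∀ m : M, ρ m v = v ↔ ρ.dual m φ = φ := by
  classical
  have : Module.Finite (ZMod r) V := Module.Finite.of_finite
  have : Finite (Module.Dual (ZMod r) V) :=
    Finite.of_injective (fun f : Module.Dual (ZMod r) V => (f : V → ZMod r)) DFunLike.coe_injective
  let a1 : MulAction M V :=
    { smul := fun m v => ρ m v
      one_smul := fun v => by change ρ 1 v = v; rw [map_one]; rfl
      mul_smul := fun a b v => by change ρ (a * b) v = ρ a (ρ b v); rw [map_mul]; rfl }
  let a2 : MulAction M (Module.Dual (ZMod r) V) :=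
    { smul := fun m v => ρ.dual m v
      one_smul := fun v => by change ρ.dual 1 v = v; rw [map_one]; rfl
      mul_smul := fun a b v => by
        change ρ.dual (a * b) v = ρ.dual a (ρ.dual b v); rw [map_mul]; rfl }
  have key : ∀ H : Subgroup M, Nat.card {x : V // ∀ m ∈ H, m • x = x} =
      Nat.card {y : Module.Dual (ZMod r) V // ∀ m ∈ H, m • y = y} := by
    intro H
    have hH : (Nat.card H : ZMod r) ≠ 0 := by
      intro h0
      have h1 : r ∣ Nat.card H := (ZMod.natCast_eq_zero_iff _ _).mp h0
      have h2 : r ∣ Nat.card M := h1.trans (Subgroup.card_subgroup_dvd_card H)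
      have h3 := Nat.Coprime.eq_one_of_dvd hc h2
      exact (Fact.out : r.Prime).one_lt.ne' h3
    have h1 := dual_fix ρ H hH
    have e1 : Nat.card {x : V // ∀ m ∈ H, m • x = x} = Nat.card (fixS ρ H) := rfl
    have e2 : Nat.card {y : Module.Dual (ZMod r) V // ∀ m ∈ H, m • y = y} =
      Nat.card (fixS ρ.dual H) := rfl
    rw [e1, e2, Module.natCard_eq_pow_finrank (K := ZMod r) (V := fixS ρ H),
      Module.natCard_eq_pow_finrank (K := ZMod r) (V := fixS ρ.dual H), h1]
  obtain ⟨v, hv⟩ := marks key φ
  refine ⟨v, fun m => ?_⟩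
  have h := SetLike.ext_iff.mp hv m
  rw [MulAction.mem_stabilizer_iff, MulAction.mem_stabilizer_iff] at h
  exact h

/-- the same for an elementary abelian group, written multiplicatively -/
private theorem pick_q' {M : Type u} [Group M] [Finite M] {r : ℕ} [Fact r.Prime] {Q : Type v}
    [CommGroup Q] [Finite Q] [Module (ZMod r) (Additive Q)] (α : M →* MulAut Q)
    (b : Q →* Multiplicative (ZMod r)) (hc : r.Coprime (Nat.card M)) :
    ∃ v : Q, ∀ m : M, α m v = v ↔ ∀ x, b (α m⁻¹ x) = b x := by
  let f : M → Module.End (ZMod r) (Additive Q) := fun m =>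
    AddMonoidHom.toZModLinearMap r (MonoidHom.toAdditive (α m).toMonoidHom)
  have f1 : f 1 = 1 := by
    apply LinearMap.ext
    intro x
    have e2 : Additive.ofMul (α 1 (Additive.toMul x)) = x := by rw [map_one]; rfl
    exact e2
  have fm : ∀ m n, f (m * n) = f m * f n := by
    intro m n
    apply LinearMap.ext
    intro x
    change Additive.ofMul (α (m * n) (Additive.toMul x)) =
      Additive.ofMul (α m (α n (Additive.toMul x)))
    rw [map_mul]
    rfl
  let ρ : Representation (ZMod r) M (Additive Q) := { toFun := f, map_one' := f1, map_mul' := fm }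
  let φ : Module.Dual (ZMod r) (Additive Q) :=
    AddMonoidHom.toZModLinearMap r (AddMonoidHom.toMultiplicativeRight.symm b)
  obtain ⟨v, hv⟩ := pick_rep (V := Additive Q) ρ hc φ
  refine ⟨Additive.toMul v, fun m => ?_⟩
  have h := hv m
  constructor
  · intro h1 x
    have h2 := h.mp h1
    exact LinearMap.congr_fun h2 (Additive.ofMul x)
  · intro h1
    refine h.mpr ?_
    apply LinearMap.ext
    intro x
    exact h1 (Additive.toMul x)

/-- the same for an elementary abelian group, written multiplicatively -/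
private theorem pick_q {M : Type u} [Group M] [Finite M] {r : ℕ} [Fact r.Prime] {Q : Type v}
    [CommGroup Q] [Finite Q] (hr : ∀ x : Q, x ^ r = 1) (α : M →* MulAut Q)
    (b : Q →* Multiplicative (ZMod r)) (hc : r.Coprime (Nat.card M)) :
    ∃ v : Q, ∀ m : M, α m v = v ↔ ∀ x, b (α m⁻¹ x) = b x := by
  have hz : ∀ x : Additive Q, r • x = 0 := by
    intro x
    change Additive.ofMul (Additive.toMul x ^ r) = 0
    rw [hr]
    rfl
  let md : Module (ZMod r) (Additive Q) := AddCommGroup.zmodModule hz
  exact pick_q' α b hc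

/-- Pick lemma in an elementary abelian section `R/A`: the `M`-sets `R/A` and `Hom(R/A, F_r)` have
the same point stabilizers.
PROOF. `V = Additive (R ⧸ A.subgroupOf R)` (abelian because `⁅x,y⁆ ∈ A`, killed by `r`) is a
finite vector space over `ZMod r` on which `M` acts by conjugation. Its dual is isomorphic, as
`M`-set, to `HomOn (ZMod r) R A`. By `dual_fix` and `Nat.card = r ^ finrank` both `M`-sets have the
same number of fixed points under every subgroup `H` of `M`; `marks`. The stabilizer of the coset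
`x A` is `{m | x⁻¹ (m x m⁻¹) ∈ A}`. -/
theorem pickAb {Γ : Type u} [Group Γ] [Finite Γ] (r : ℕ) [Fact r.Prime] (R A M : Subgroup Γ)
    (hAR : A ≤ R) (hM : M ≤ Nrm R) (hMA : M ≤ Nrm A) (hRA : R ≤ Nrm A)
    (hpow : ∀ x ∈ R, x ^ r ∈ A) (hcomm : ∀ x ∈ R, ∀ y ∈ R, ⁅x, y⁆ ∈ A)
    (hc : r.Coprime (Nat.card M)) (β : CF Γ (ZMod r)) (hβ : β ∈ HomOn (ZMod r) R A) :
    ∃ x ∈ R, ∀ m ∈ M, (x⁻¹ * (m * x * m⁻¹) ∈ A ↔ m • β = β) := by
  classical
  obtain ⟨hβ1, hβ2, hβ3⟩ := hβ
  have hN : (A.subgroupOf R).Normal := by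
    refine ⟨fun a ha g => ?_⟩
    rw [Subgroup.mem_subgroupOf] at ha ⊢
    exact (Subgroup.mem_normalizer_iff.mp (hRA g.2) _).mp ha
  let cg : CommGroup (R ⧸ A.subgroupOf R) :=
    { (inferInstance : Group (R ⧸ A.subgroupOf R)) with
      mul_comm := by
        intro a b
        induction a using QuotientGroup.induction_on with
        | H a =>
          induction b using QuotientGroup.induction_on with
          | H b =>
            rw [← QuotientGroup.mk_mul, ← QuotientGroup.mk_mul, QuotientGroup.eq,
              Subgroup.mem_subgroupOf]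
            have h := hcomm (b : Γ)⁻¹ (R.inv_mem b.2) (a : Γ)⁻¹ (R.inv_mem a.2)
            have e : (((a * b)⁻¹ * (b * a) : R) : Γ) = ⁅(b : Γ)⁻¹, (a : Γ)⁻¹⁆ := by
              push_cast
              rw [commutatorElement_def]
              group
            rw [e]
            exact h }
  have hz : ∀ x : R ⧸ A.subgroupOf R, x ^ r = 1 := by
    intro x
    induction x using QuotientGroup.induction_on with
    | H a =>
      rw [← QuotientGroup.mk_pow, QuotientGroup.eq_one_iff, Subgroup.mem_subgroupOf]
      push_cast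
      exact hpow _ a.2
  have hNR : ∀ m ∈ M, ∀ x ∈ R, m * x * m⁻¹ ∈ R := fun m hm x hx =>
    (Subgroup.mem_normalizer_iff.mp (hM hm) _).mp hx
  have hNA : ∀ m ∈ M, ∀ x ∈ A, m * x * m⁻¹ ∈ A := fun m hm x hx =>
    (Subgroup.mem_normalizer_iff.mp (hMA hm) _).mp hx
  let cj : M → (R →* R) := fun m =>
    { toFun := fun x => ⟨(m : Γ) * x * (m : Γ)⁻¹, hNR m m.2 x x.2⟩
      map_one' := by ext; simp
      map_mul' := by intro a b; ext; push_cast; group }
  have cj1 : ∀ a, cj 1 a = a := by
    intro a
    ext
    change ((1 : M) : Γ) * a * ((1 : M) : Γ)⁻¹ = a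
    simp
  have cjm : ∀ m n a, cj (m * n) a = cj m (cj n a) := by
    intro m n a
    ext
    change ((m * n : M) : Γ) * a * ((m * n : M) : Γ)⁻¹ =
      (m : Γ) * ((n : Γ) * a * (n : Γ)⁻¹) * (m : Γ)⁻¹
    push_cast
    group
  have cjA : ∀ m, A.subgroupOf R ≤ (A.subgroupOf R).comap (cj m) := by
    intro m a ha
    rw [Subgroup.mem_comap, Subgroup.mem_subgroupOf]
    exact hNA m m.2 a (Subgroup.mem_subgroupOf.mp ha)
  let q : M → (R ⧸ A.subgroupOf R →* R ⧸ A.subgroupOf R) := fun m =>
    QuotientGroup.map _ _ (cj m) (cjA m)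
  have qa : ∀ m (a : R), q m (a : R ⧸ A.subgroupOf R) = ((cj m a : R) : R ⧸ A.subgroupOf R) :=
    fun m a => rfl
  have q1 : ∀ x, q 1 x = x := by
    intro x
    induction x using QuotientGroup.induction_on with
    | H a => rw [qa, cj1]
  have qm : ∀ m n x, q (m * n) x = q m (q n x) := by
    intro m n x
    induction x using QuotientGroup.induction_on with
    | H a => rw [qa, qa, qa, cjm]
  let α : M →* MulAut (R ⧸ A.subgroupOf R) :=
    { toFun := fun m =>
        { toFun := q m
          invFun := q m⁻¹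
          left_inv := fun x => by rw [← qm, inv_mul_cancel, q1]
          right_inv := fun x => by rw [← qm, mul_inv_cancel, q1]
          map_mul' := map_mul (q m) }
      map_one' := by
        apply MulEquiv.ext
        intro x
        exact q1 x
      map_mul' := by
        intro m n
        apply MulEquiv.ext
        intro x
        exact qm m n x }
  have αa : ∀ m (a : R), α m (a : R ⧸ A.subgroupOf R) = ((cj m a : R) : R ⧸ A.subgroupOf R) :=
    fun m a => rfl
  -- the functional given by `β`
  let b : R →* Multiplicative (ZMod r) :=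
    { toFun := fun x => Multiplicative.ofAdd (β x)
      map_one' := by
        change Multiplicative.ofAdd (β ((1 : R) : Γ)) = 1
        rw [Subgroup.coe_one, hβ3 1 A.one_mem]
        rfl
      map_mul' := by
        intro x y
        change Multiplicative.ofAdd (β ((x * y : R) : Γ)) = _
        rw [Subgroup.coe_mul, hβ2 x x.2 y y.2]
        rfl }
  have hb : A.subgroupOf R ≤ b.ker := by
    intro a ha
    rw [MonoidHom.mem_ker]
    change Multiplicative.ofAdd (β (a : Γ)) = 1
    rw [hβ3 a (Subgroup.mem_subgroupOf.mp ha)]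
    rfl
  obtain ⟨v, hv⟩ := pick_q hz α (QuotientGroup.lift _ b hb) hc
  obtain ⟨x, rfl⟩ : ∃ x : R, v = (x : R ⧸ A.subgroupOf R) := by
    induction v using QuotientGroup.induction_on with
    | H a => exact ⟨a, rfl⟩
  refine ⟨x, x.2, fun m hm => ?_⟩
  have h := hv ⟨m, hm⟩
  have h1 : α ⟨m, hm⟩ (x : R ⧸ A.subgroupOf R) = (x : R ⧸ A.subgroupOf R) ↔
      (x : Γ)⁻¹ * (m * x * m⁻¹) ∈ A := by
    rw [αa, eq_comm, QuotientGroup.eq, Subgroup.mem_subgroupOf]
    rfl
  have e2 : ∀ a : R, ((cj (⟨m, hm⟩ : M)⁻¹ a : R) : Γ) = m⁻¹ * a * m := by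
    intro a
    change (((⟨m, hm⟩ : M)⁻¹ : M) : Γ) * a * (((⟨m, hm⟩ : M)⁻¹ : M) : Γ)⁻¹ = _
    simp
  have h2 : (∀ w, QuotientGroup.lift _ b hb (α (⟨m, hm⟩ : M)⁻¹ w) =
      QuotientGroup.lift _ b hb w) ↔ m • β = β := by
    constructor
    · intro e
      ext y
      rw [CF.act_apply]
      by_cases hy : y ∈ R
      · have e1 : β ((cj (⟨m, hm⟩ : M)⁻¹ ⟨y, hy⟩ : R) : Γ) = β y :=
          e ((⟨y, hy⟩ : R) : R ⧸ A.subgroupOf R)
        rw [e2] at e1
        exact e1
      · have hy' : m⁻¹ * y * m ∉ R := by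
          intro h'
          apply hy
          have := hNR m hm _ h'
          have e3 : m * (m⁻¹ * y * m) * m⁻¹ = y := by group
          rwa [e3] at this
        rw [hβ1 _ hy, hβ1 _ hy']
    · intro e w
      induction w using QuotientGroup.induction_on with
      | H a =>
        change β ((cj (⟨m, hm⟩ : M)⁻¹ a : R) : Γ) = β a
        rw [e2]
        exact congrFun e (a : Γ)
  rw [← h1, ← h2]
  exact h

end FT
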