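import Mathlib
import Pool.Agent.helper11.FT.Defs
import Pool.Agent.helper11.FT.HomBasic
import Pool.Agent.helper11.FT.Pick
import Pool.Agent.helper11.FT.Tower
import Pool.Agent.helper11.FT.TS0
import Pool.Agent.helper11.FT.TSs
import Pool.Agent.helper11.FT.TS
import Pool.Agent.helper11.FT.TS2
import Pool.Agent.helper11.FT.TS3
import Pool.Agent.helper11.FT.NpB
import Pool.Agent.helper11.FT.GoodL
import Pool.Agent.helper11.FT.Compat

/-! # FT-OL: one step between two abelian levels (section 5 of /team-store/9c6401_plan.md) -/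

namespace FT

universe u v

open scoped commutatorElement

namespace TowerCore

variable {Γ : Type u} [Group Γ] [Finite Γ] (T : TowerCore Γ)

private theorem ol_ker_le (i : ℕ) (hi : i < T.n) (m : CF Γ (ZMod (T.p i)))
    (hm : m ∈ HomOn (ZMod (T.p i)) (T.Z i) (T.Q i)) : kerH (T.Z i) m ≤ T.P i := by
  intro x hx
  exact (T.Z_prop i hi.le).2.2.1 ((mem_kerH hm).1 hx).1

private theorem ol_card_ne (i : ℕ) (hi : i < T.n) [Fact (T.p (i + 1)).Prime] (M : Subgroup Γ)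
    (hM : M ≤ T.P i) : (Nat.card M : ZMod (T.p (i + 1))) ≠ 0 := by
  have : Fact (T.p i).Prime := ⟨T.hp i hi.le⟩
  obtain ⟨k, hk⟩ := IsPGroup.iff_card.1 (T.hP i hi.le)
  have h1 : Nat.card M ∣ T.p i ^ k := by
    rw [← hk]
    exact Subgroup.card_dvd_of_le hM
  intro h0
  rw [ZMod.natCast_eq_zero_iff] at h0
  have h2 : T.p (i + 1) ∣ T.p i ^ k := h0.trans h1
  have h3 := (T.hp (i + 1) hi).dvd_of_dvd_pow h2
  exact T.adj i hi ((Nat.prime_dvd_prime_iff_eq (T.hp (i + 1) hi) (T.hp i hi.le)).1 h3).symm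

/-- there is `η ∈ Occ (i+1)` with nonzero `ker m`-average, if level `i+1` is abelian.
PROOF. `f ≠ 0` in `H (i+1)` fixed by `ker m`; `avg f = f`; `occ_span` applied to the operator
`avg`. -/
theorem exists_occ_avg (i : ℕ) (hi : i + 1 < T.n) (hab : T.Ab (i + 1))
    (m : CF Γ (ZMod (T.p i))) (hm : T.Occ i m) [Fact (T.p (i + 1)).Prime] :
    ∃ η, T.Occ (i + 1) η ∧ avg (ZMod (T.p (i + 1))) (kerH (T.Z i) m) η ≠ 0 := by
  obtain ⟨hm1, -, f, hf, hf0, hfix⟩ := hm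
  by_contra hcon
  push Not at hcon
  have hi' : i < T.n := by omega
  have h1 := T.occ_span (i + 1) hi (Nat.succ_pos i) hab
    (avg (ZMod (T.p (i + 1))) (kerH (T.Z i) m)) hcon f hf
  rw [avg_of_fixed _ (T.ol_card_ne i hi' _ (T.ol_ker_le i hi' m hm1)) f
    (fun z hz => hfix z ((mem_kerH hm1).1 hz).1 ((mem_kerH hm1).1 hz).2)] at h1
  exact hf0 h1

end TowerCore

namespace Tower

variable {Γ : Type u} [Group Γ] [Finite Γ] (T : Tower Γ)

/-- (OL). PROOF: section 5 of the plan. `Ω = CF Γ (ZMod (p (i+1)))` with the conjugation action,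
`pick` with `r = p i`, `R = P i`, `R0 = Q i`, `M = GG` (`= Y` or `Np i ⊔ Y`), `β = l`. -/
theorem OL (i : ℕ) (hi : i + 1 < T.n) (hab : T.Ab i) (hab' : T.Ab (i + 1))
    (l : CF Γ (ZMod (T.p i))) (hl : T.Occ i l) (hg : T.Good i l) :
    ∃ ω, T.Occ (i + 1) ω ∧ T.Good (i + 1) ω ∧ T.Yst ω < T.Yst l := by
  have hi' : i < T.n := by omega
  have : Fact (T.p i).Prime := ⟨T.hp i hi'.le⟩
  have : Fact (T.p (i + 1)).Prime := ⟨T.hp (i + 1) hi.le⟩
  have hZ : T.Z i = T.P i := T.Z_eq_of_Ab i hab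
  obtain ⟨η, hη, hη0⟩ := T.exists_occ_avg i hi hab' l hl
  have hl1 : l ∈ HomOn (ZMod (T.p i)) (T.Z i) (T.Q i) := hl.1
  have hl2 : l ∈ HomOn (ZMod (T.p i)) (T.P i) (T.Q i) := by rw [← hZ]; exact hl1
  have hηH : η ∈ T.H (i + 1) := by
    have := hη.1
    rwa [T.Z_eq_of_Ab (i + 1) hab'] at this
  -- elements of `P i` commute with the average
  have hnP : ∀ x ∈ T.P i, x ∈ Nrm (kerH (T.Z i) l) := by
    intro x hx
    refine mem_nrm_kerH hl1 ?_ (HomOn.smul_eq hl2 hx)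
    rw [hZ]
    exact T.P_nrm_P i i le_rfl hi'.le hx
  have hlη : ∀ x ∈ T.P i, x • η = η → l x = 0 := by
    intro x hx hxη
    refine T.m_eq_zero_of_fix i hi' l hl1 η hηH hη0 x (by rw [hZ]; exact hx) ?_
    rw [← avg_smul _ x (hnP x hx), hxη]
  -- the acting group
  obtain ⟨M, hYM, hNM, hMP, hMQ, hMc⟩ : ∃ M : Subgroup Γ, T.Y ≤ M ∧
      (T.p i ≠ T.p 0 → T.Np i ≤ M) ∧ M ≤ Nrm (T.P i) ∧ M ≤ Nrm (T.Q i) ∧
      (T.p i).Coprime (Nat.card M) := by
    by_cases hp : T.p i = T.p 0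
    · exact ⟨T.Y, le_rfl, fun h => absurd hp h, T.hY i hi'.le, T.Y_nrm_Q i hi'.le,
        T.cop i hi'.le⟩
    · refine ⟨T.Np i ⊔ T.Y, le_sup_right, fun _ => le_sup_left,
        sup_le (T.Np_nrm i i le_rfl hi'.le).1 (T.hY i hi'.le),
        sup_le (T.Np_nrm i i le_rfl hi'.le).2.1 (T.Y_nrm_Q i hi'.le),
        T.card_Np_sup_Y i hi'.le (T.p i) (T.hp i hi'.le) hp (T.cop i hi'.le)⟩
  obtain ⟨η₀, ω, ⟨x0, hx0, hη₀⟩, ⟨x1, hx1, hω⟩, hfix, hstab⟩ := pick (T.p i) (T.P i) (T.Q i) M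
    (T.hP i hi'.le) hMP hMQ (T.Q_le i hi'.le) (T.P_nrm_Q i i le_rfl hi'.le)
    (fun x hx => (T.Z_prop i hi'.le).2.2.2.2.1 x (by rw [hZ]; exact hx))
    (fun x hx y hy => hab (Subgroup.commutator_mem_commutator hx hy)) hMc η l hl2 hlη
  have hle : ∀ y ∈ T.Y, y • ω = ω → y • l = l := fun y hy h => ((hstab y (hYM hy)).1 h).2
  refine ⟨ω, ?_, ?_, ?_⟩
  · rw [hω]
    exact T.occ_smul_P (i + 1) hi η hη i (Nat.le_succ i) x1 hx1
  · -- goodness
    by_contra hng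
    unfold TowerCore.Good at hng
    push Not at hng
    obtain ⟨hg1, -, hg3⟩ := hng
    by_cases hp : T.p i = T.p 0
    · apply hl.2.1
      ext x
      by_cases hx : x ∈ T.P i
      · apply hlη x hx
        have h1 := hg3 (x1 * x * x1⁻¹) (T.P_le_Np i (i + 1) (Nat.le_succ i) hp
          ((T.P i).mul_mem ((T.P i).mul_mem hx1 hx) ((T.P i).inv_mem hx1)))
        rw [hω, ← mul_smul, inv_mul_cancel_right, mul_smul] at h1
        exact MulAction.injective x1 h1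
      · exact hl2.1 x hx
    · rcases hg with h | h | ⟨u, hu, hul⟩
      · exact hp h
      · exact hg1 h
      · exact hul ((hstab u (hNM hp hu)).1 (hg3 u (T.Np_mono i (i + 1) (Nat.le_succ i) hu))).2
  · refine lt_of_le_of_ne (fun y hy => ?_) (fun heq => ?_)
    · rw [T.mem_Yst] at hy ⊢
      exact ⟨hy.1, hle y hy.1 hy.2⟩
    · have hkP := T.toTowerCore.ol_ker_le i hi' l hl1
      have hA : avg (ZMod (T.p (i + 1))) (kerH (T.Z i) l) η₀ ∈ T.H (i + 1) := by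
        refine avg_mem_HomOn _ (hkP.trans (T.P_nrm_P (i + 1) i (Nat.le_succ i) hi.le))
          (hkP.trans (T.P_nrm_Q (i + 1) i (Nat.le_succ i) hi.le)) ?_
        rw [hη₀]
        exact act_mem_HomOn (T.P_nrm_P (i + 1) i (Nat.le_succ i) hi.le hx0)
          (T.P_nrm_Q (i + 1) i (Nat.le_succ i) hi.le hx0) hηH
      have hA0 : avg (ZMod (T.p (i + 1))) (kerH (T.Z i) l) η₀ ≠ 0 := by
        rw [hη₀, avg_smul _ x0 (hnP x0 hx0)]
        intro h0
        apply hη0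
        have h1 := congrArg (fun g => x0⁻¹ • g) h0
        simpa using h1
      obtain ⟨k1, k2, k3, -⟩ := T.goodG i hi' l hl1 hl.2.1
        (avg (ZMod (T.p (i + 1))) (kerH (T.Z i) l) η₀) hA hA0
        (fun z hz hlz => avg_fixed _ _ z ((mem_kerH hl1).2 ⟨hz, hlz⟩)) (fun y hy hyl => by
          have h1 : y ∈ T.Yst ω := by
            rw [heq, T.mem_Yst]
            exact ⟨hy, hyl⟩
          have h2 := ((hstab y (hYM hy)).1 h1.2).1
          have h3 := hfix y (hYM hy) h2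
          rw [← avg_smul _ y (mem_nrm_kerH hl1 ((T.Z_prop i hi'.le).2.2.2.2.2.2.1 hy) hyl), h3])
      rcases hg with h | h | ⟨u, hu, hul⟩
      · exact k2 h
      · exact k1 h
      · exact hul (k3 u hu)

/-- start: for `n ≥ 1` there is a (good) occurring character at level `0`, with
`Y_l < Y`. PROOF: section 9 (existence from `exists_occ` and `T1`; `C_{P_0}(Y) = 1`: use
`yfix`-type argument: for `x ∈ P 0` the norm `c` of `x` (`exists_norm`, `D = Q 0`) is congruent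
mod `Q 0` to an element commuting with `Y`, so `c ∈ Q 0` by `W1`, `|Y| l x = l c = 0`). -/
theorem start0 (hn : 1 ≤ T.n) : ∃ l, T.Occ 0 l ∧ T.Good 0 l ∧ T.Yst l < T.Y := by
  have hn' : 0 < T.n := hn
  have : Fact (T.p 0).Prime := ⟨T.hp 0 hn'.le⟩
  have hab : T.Ab 0 := T.level0.1
  have hZ : T.Z 0 = T.P 0 := T.Z_eq_of_Ab 0 hab
  obtain ⟨x, hx, hxQ⟩ := SetLike.not_le_iff_exists.1 (T.T1 0 hn'.le)
  obtain ⟨l, hl, hlx⟩ := T.exists_occ 0 hn' x (by rw [hZ]; exact hx) hxQ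
  have hl2 : l ∈ HomOn (ZMod (T.p 0)) (T.P 0) (T.Q 0) := by rw [← hZ]; exact hl.1
  refine ⟨l, hl, Or.inl rfl, lt_of_le_of_ne inf_le_left (fun heq => ?_)⟩
  have hYl : ∀ y ∈ T.Y, y • l = l := by
    intro y hy
    rw [← heq, T.mem_Yst] at hy
    exact hy.2
  obtain ⟨c, hc, hcY, hcn⟩ := exists_norm (K := ZMod (T.p 0)) (P := T.P 0) T.Y (T.Q 0)
    (T.hY 0 hn'.le) (T.Q_le 0 hn'.le) (T.Y_nrm_Q 0 hn'.le) (T.P_nrm_Q 0 0 le_rfl hn'.le) hab x hx
  have hlc := hcn l hl2 hYl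
  have hsol : Group.IsSolvable (T.Q 0) := by
    have h1 : IsPGroup (T.p 0) (T.Q 0) := (T.hP 0 hn'.le).to_le (T.Q_le 0 hn'.le)
    have h2 := h1.isNilpotent
    infer_instance
  have hcop : (Nat.card (T.Q 0)).Coprime (Nat.card T.Y) :=
    Nat.Coprime.coprime_dvd_left (Subgroup.card_dvd_of_le (T.Q_le 0 hn'.le)) (T.cop_Y 0 hn'.le)
  obtain ⟨d, hd, hdc⟩ := fix_coset (T.Q 0) T.Y (T.Y_nrm_Q 0 hn'.le) hsol hcop c (fun m hm => by
    have h1 := (Subgroup.mem_normalizer_iff''.1 (T.P_nrm_Q 0 0 le_rfl hn'.le hc) _).1 (hcY m hm)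
    convert h1 using 1
    rw [commutatorElement_def]
    group)
  have h1 : c * d = 1 := T.W1 0 hn'.le rfl (c * d)
    ((T.P 0).mul_mem hc (T.Q_le 0 hn'.le hd)) hdc
  have h2 : c ∈ T.Q 0 := by
    rw [eq_inv_of_mul_eq_one_left h1]
    exact (T.Q 0).inv_mem hd
  rw [hl2.2.2 c h2] at hlc
  rcases mul_eq_zero.1 hlc.symm with h | h
  · rw [ZMod.natCast_eq_zero_iff] at h
    exact (T.hp 0 hn'.le).one_lt.ne' (Nat.eq_one_of_dvd_coprimes (T.cop 0 hn'.le) dvd_rfl h)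
  · exact hlx h

/-- end: `Y_l ≠ 1` for `l` good and occurring. PROOF: `goodG` with the `f` of `Occ`: if `Y_l = 1` all
hypotheses hold, so `l` is not good. -/
theorem Yst_ne_bot (i : ℕ) (hi : i < T.n) (l : CF Γ (ZMod (T.p i))) (hl : T.Occ i l)
    (hg : T.Good i l) : T.Yst l ≠ ⊥ := by
  intro hbot
  obtain ⟨hl1, hl0, f, hf, hf0, hfix⟩ := hl
  obtain ⟨k1, k2, k3, -⟩ := T.goodG i hi l hl1 hl0 f hf hf0 hfix (fun y hy hyl => by
    have h1 : y ∈ T.Yst l := by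
      rw [T.mem_Yst]
      exact ⟨hy, hyl⟩
    rw [hbot, Subgroup.mem_bot] at h1
    rw [h1, one_smul])
  rcases hg with h | h | ⟨u, hu, hul⟩
  · exact k2 h
  · exact k1 h
  · exact hul (k3 u hu)

end Tower

end FT
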