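import Mathlib
import Pool.Agent.helper11.FT.Defs
import Pool.Agent.helper11.FT.Tower
import Pool.Agent.helper11.FT.OL

/-! # FT-AllAb: towers all of whose levels are abelian -/

namespace FT

universe u v

/-- `Ω(|H|) < Ω(|K|)` for a proper subgroup `H` of `K` -/
theorem omega_lt {Γ : Type u} [Group Γ] [Finite Γ] {H K : Subgroup Γ} (h : H < K) :
    (Nat.card H).primeFactorsList.length < (Nat.card K).primeFactorsList.length := by
  obtain ⟨m, hm⟩ := Subgroup.card_dvd_of_le h.le
  have hH : Nat.card H ≠ 0 := Nat.card_pos.ne'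
  have hK : Nat.card K ≠ 0 := Nat.card_pos.ne'
  have hm0 : m ≠ 0 := by
    rintro rfl
    exact hK (by rw [hm, mul_zero])
  have hm1 : m ≠ 1 := by
    rintro rfl
    rw [mul_one] at hm
    exact h.ne (Subgroup.eq_of_le_of_card_ge h.le hm.le)
  rw [← ArithmeticFunction.cardFactors_apply, ← ArithmeticFunction.cardFactors_apply, hm,
    ArithmeticFunction.cardFactors_mul hH hm0]
  have h1 : 0 < ArithmeticFunction.cardFactors m := by
    rw [ArithmeticFunction.cardFactors_apply, List.length_pos_iff]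
    intro h2
    rcases (Nat.primeFactorsList_eq_nil _).1 h2 with h3 | h3
    · exact hm0 h3
    · exact hm1 h3
  omega

theorem omega_le {Γ : Type u} [Group Γ] [Finite Γ] {H K : Subgroup Γ} (h : H ≤ K) :
    (Nat.card H).primeFactorsList.length ≤ (Nat.card K).primeFactorsList.length := by
  rcases h.eq_or_lt with h1 | h1
  · rw [h1]
  · exact (omega_lt h1).le

theorem omega_pos {Γ : Type u} [Group Γ] [Finite Γ] {H : Subgroup Γ} (h : H ≠ ⊥) :
    1 ≤ (Nat.card H).primeFactorsList.length := by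
  have h1 := omega_lt (bot_lt_iff_ne_bot.2 h)
  omega

namespace Tower

variable {Γ : Type u} [Group Γ] [Finite Γ] (T : Tower Γ)

/-- If `n ≥ 1` then `Y ≠ 1`; `k ≥ 1`. If `n = 0`: `C_{P_0}(Y) = 1`, `P_0 ≠ 1`, so `Y ≠ 1`.
PROOF. If `|Y| = 1` then every `x ∈ P 0` commutes with `Y`, so `x = 1` by `W1`, `P 0 ≤ Q 0`. -/
theorem one_le_omega' : 1 ≤ (Nat.card T.Y).primeFactorsList.length := by
  by_contra hcon
  have h0 : (Nat.card T.Y).primeFactorsList = [] := by
    rw [← List.length_eq_zero_iff]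
    omega
  have hY1 : Nat.card T.Y = 1 := by
    rcases (Nat.primeFactorsList_eq_nil _).1 h0 with h | h
    · exact absurd h Nat.card_pos.ne'
    · exact h
  have hY : T.Y = ⊥ := Subgroup.card_eq_one.1 hY1
  refine T.T1 0 (Nat.zero_le _) fun x hx => ?_
  have hx1 : x = 1 := by
    refine T.W1 0 (Nat.zero_le _) rfl x hx fun y hy => ?_
    rw [hY, Subgroup.mem_bot] at hy
    rw [hy, one_mul, mul_one]
  rw [hx1]
  exact one_mem _

private theorem all_ab_inv (hab : ∀ i < T.n, T.Ab i) (i : ℕ) (hi : i < T.n) :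
    ∃ l, T.Occ i l ∧ T.Good i l ∧
      (Nat.card (T.Yst l)).primeFactorsList.length + (i + 1) ≤
        (Nat.card T.Y).primeFactorsList.length := by
  induction i with
  | zero =>
    obtain ⟨l, hl, hg, hlt⟩ := T.start0 hi
    exact ⟨l, hl, hg, omega_lt hlt⟩
  | succ i ih =>
    obtain ⟨l, hl, hg, h⟩ := ih (by omega)
    obtain ⟨ω, hω, hgω, hlt⟩ := T.OL i hi (hab i (by omega)) (hab (i + 1) hi) l hl hg
    have h1 := omega_lt hlt
    exact ⟨ω, hω, hgω, by omega⟩

/-- If all levels are abelian then `n + 1 ≤ Ω(|Y|)`. -/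
theorem all_ab' (hn : 1 ≤ T.n) (hab : ∀ i < T.n, T.Ab i) :
    T.n + 1 ≤ (Nat.card T.Y).primeFactorsList.length := by
  obtain ⟨l, hl, hg, h⟩ := T.all_ab_inv hab (T.n - 1) (by omega)
  have h1 := omega_pos (T.Yst_ne_bot (T.n - 1) (by omega) l hl hg)
  omega

end Tower

end FT
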