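import Mathlib

/-! # FT-Bd: the numerical threshold -/

namespace FT

/-- the threshold condition (10.4) -/
def Bd (k n0 : ℕ) : Prop :=
  1 ≤ n0 ∧ 32 * k ^ 2 ≤ n0 ∧
    ∀ m f : ℕ, n0 ≤ m → 2 ≤ f → (m ^ 2 * f) ^ (512 * k ^ 3) ≤ f ^ m

/-- exponentials beat polynomials -/
private lemma exp_beats (c : ℕ) : ∃ N : ℕ, ∀ m : ℕ, N ≤ m → 2 ^ c * m ^ (2 * c) ≤ 2 ^ m := by
  have h := tendsto_pow_const_div_const_pow_of_one_lt (2 * c) (one_lt_two : (1 : ℝ) < 2)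
  have h2 : ∀ᶠ m : ℕ in Filter.atTop, (m : ℝ) ^ (2 * c) / 2 ^ m < 1 / 2 ^ c :=
    (tendsto_order.1 h).2 _ (by positivity)
  obtain ⟨N, hN⟩ := Filter.eventually_atTop.1 h2
  refine ⟨N, fun m hm => ?_⟩
  have h3 := hN m hm
  rw [div_lt_div_iff₀ (by positivity) (by positivity)] at h3
  have h4 : (m : ℝ) ^ (2 * c) * 2 ^ c < 2 ^ m := by linarith
  have h5 : ((2 ^ c * m ^ (2 * c) : ℕ) : ℝ) < ((2 ^ m : ℕ) : ℝ) := by
    push_cast
    linarith
  exact_mod_cast h5.le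

/-- PROOF. With `c = 512 k^3`: `(m^2 f)^c ≤ f^m` follows from `m^(2c) ≤ 2^(m-c) ≤ f^(m-c)`, true for
large `m` (exponentials beat polynomials). -/
theorem exists_Bd (k : ℕ) : ∃ n0, Bd k n0 := by
  obtain ⟨N, hN⟩ := exp_beats (512 * k ^ 3)
  refine ⟨1 + 32 * k ^ 2 + N + 512 * k ^ 3, by omega, by omega, fun m f hm hf => ?_⟩
  have h1 := hN m (by omega)
  have hc : 512 * k ^ 3 ≤ m := by omega
  generalize 512 * k ^ 3 = c at h1 hc
  have h2 : m ^ (2 * c) ≤ 2 ^ (m - c) := by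
    have h3 : 2 ^ c * m ^ (2 * c) ≤ 2 ^ c * 2 ^ (m - c) := by
      rw [← pow_add, Nat.add_sub_cancel' hc]
      exact h1
    exact Nat.le_of_mul_le_mul_left h3 (by positivity)
  calc (m ^ 2 * f) ^ c = m ^ (2 * c) * f ^ c := by rw [mul_pow, ← pow_mul]
    _ ≤ 2 ^ (m - c) * f ^ c := Nat.mul_le_mul_right _ h2
    _ ≤ f ^ (m - c) * f ^ c := Nat.mul_le_mul_right _ (Nat.pow_le_pow_left hf _)
    _ = f ^ m := by rw [← pow_add, Nat.sub_add_cancel hc]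

theorem three_pow_gt (m : ℕ) : m ^ 2 < 3 ^ m := by
  induction m with
  | zero => norm_num
  | succ n ih =>
    rcases Nat.lt_or_ge n 2 with h | h
    · interval_cases n <;> norm_num
    · have : (n + 1) ^ 2 ≤ 3 * n ^ 2 := by nlinarith
      calc (n + 1) ^ 2 ≤ 3 * n ^ 2 := this
        _ < 3 * 3 ^ n := by omega
        _ = 3 ^ (n + 1) := by ring

end FT
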