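import Mathlib
import Pool.Agent.helper11.FT.Bd

/-! # FT-Bd2: explicit polynomial threshold -/

namespace FT

/-- explicit threshold -/
theorem Bd_explicit (k : ℕ) (hk : 1 ≤ k) : Bd k (2 ^ 24 * k ^ 6) := by
  have hk2 : 1 ≤ k ^ 2 := Nat.one_le_pow _ _ hk
  have hk3 : 1 ≤ k ^ 3 := Nat.one_le_pow _ _ hk
  have hk4 : 1 ≤ k ^ 4 := Nat.one_le_pow _ _ hk
  have hk6 : 1 ≤ k ^ 6 := Nat.one_le_pow _ _ hk
  refine ⟨by omega, ?_, ?_⟩
  · have : k ^ 6 = k ^ 2 * k ^ 4 := by ring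
    rw [this]
    nlinarith
  · intro m f hm hf
    obtain ⟨c, hc⟩ : ∃ c, c = 512 * k ^ 3 := ⟨_, rfl⟩
    rw [← hc]
    have hc1 : 1 ≤ c := by rw [hc]; omega
    have hm' : 64 * c ^ 2 ≤ m := by
      rw [hc]; calc 64 * (512 * k ^ 3) ^ 2 = 2 ^ 24 * k ^ 6 := by ring
        _ ≤ m := hm
    obtain ⟨s, hs⟩ : ∃ s, s = Nat.sqrt m := ⟨_, rfl⟩
    have hs1 : 8 * c ≤ s := by
      rw [hs, Nat.le_sqrt]
      nlinarith
    have hs2 : s * s ≤ m := by rw [hs]; exact Nat.sqrt_le m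
    have hs3 : m < (s + 1) * (s + 1) := by rw [hs]; exact Nat.lt_succ_sqrt m
    have h1 : s + 1 ≤ 2 ^ s := Nat.succ_le_of_lt Nat.lt_two_pow_self
    have h2 : 5 * c * s ≤ s * s := by nlinarith
    have h3 : 4 * c * s + c ≤ m := by nlinarith
    have h4 : m ^ (2 * c) ≤ 2 ^ (m - c) := by
      calc m ^ (2 * c) ≤ ((s + 1) * (s + 1)) ^ (2 * c) := Nat.pow_le_pow_left hs3.le _
        _ ≤ (2 ^ s * 2 ^ s) ^ (2 * c) := Nat.pow_le_pow_left (Nat.mul_le_mul h1 h1) _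
        _ = 2 ^ (4 * c * s) := by rw [← pow_add, ← pow_mul]; congr 1; ring
        _ ≤ 2 ^ (m - c) := Nat.pow_le_pow_right (by norm_num) (by omega)
    calc (m ^ 2 * f) ^ c = m ^ (2 * c) * f ^ c := by rw [mul_pow, ← pow_mul]
      _ ≤ 2 ^ (m - c) * f ^ c := Nat.mul_le_mul_right _ h4
      _ ≤ f ^ (m - c) * f ^ c := Nat.mul_le_mul_right _ (Nat.pow_le_pow_left hf _)
      _ = f ^ m := by rw [← pow_add]; congr 1; omega

end FT
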