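import Mathlib
import Pool.Agent.helper11.FT.Defs
import Pool.Agent.helper11.FT.HomBasic
import Pool.Agent.helper11.FT.Pick
import Pool.Agent.helper11.FT.Tower
import Pool.Agent.helper11.FT.TS0
import Pool.Agent.helper11.FT.TSs
import Pool.Agent.helper11.FT.TS
import Pool.Agent.helper11.FT.TS2
import Pool.Agent.helper11.FT.TS3
import Pool.Agent.helper11.FT.RadB
import Pool.Agent.helper11.FT.Compat
import Pool.Agent.helper11.FT.OL

/-! # FT-Iso: isotropic stabilizers (section 7 of /team-store/9c6401_plan.md) -/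

namespace FT

universe u v

open scoped commutatorElement

namespace TowerCore

variable {Γ : Type u} [Group Γ] [Finite Γ] (T : TowerCore Γ)

/-- If `x, y ∈ P l` fix `β ∈ H (l+1)`, or only `avg (ker m) β ≠ 0`, then `m ⁅x,y⁆ = 0` at a special
level `l`. PROOF. `x, y` normalise `ker m` (normal in `P l`), so fix `avg β` as they fix `β`; so
does `⁅x,y⁆ ∈ D l = Z l`; `m_eq_zero_of_fix`. -/
theorem iso_of_fix (l : ℕ) (hl : l < T.n) (hsp : ¬ T.Ab l) (m : CF Γ (ZMod (T.p l)))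
    (hm : m ∈ HomOn (ZMod (T.p l)) (T.Z l) (T.Q l)) [Fact (T.p (l + 1)).Prime]
    (β : CF Γ (ZMod (T.p (l + 1)))) (hβ : β ∈ T.H (l + 1))
    (h0 : avg (ZMod (T.p (l + 1))) (kerH (T.Z l) m) β ≠ 0) (x y : Γ) (hx : x ∈ T.P l)
    (hy : y ∈ T.P l) (hxβ : x • β = β) (hyβ : y • β = β) : m ⁅x, y⁆ = 0 := by
  obtain ⟨_, hDZ, hZP, hZc, _, _, _, hZj⟩ := T.Z_prop l hl.le
  have hfix : ∀ g ∈ T.P l, g • m = m := fun g hg =>
    HomOn.smul_eq_of_comm hm (hZj l le_rfl hg) fun w hw => by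
      apply hm.2.2
      have h := Subgroup.commutator_mem_commutator hw hg
      rw [← commutatorElement_inv]
      exact (T.Q l).inv_mem (hZc h)
  have hn : ∀ g ∈ T.P l, g ∈ Nrm (kerH (T.Z l) m) := fun g hg =>
    mem_nrm_kerH hm (hZj l le_rfl hg) (hfix g hg)
  have havg : ∀ g ∈ T.P l, g • β = β → g • avg (ZMod (T.p (l + 1))) (kerH (T.Z l) m) β =
      avg (ZMod (T.p (l + 1))) (kerH (T.Z l) m) β := fun g hg hgβ => by
    rw [← avg_smul _ g (hn g hg), hgβ]
  have hxy : ⁅x, y⁆ ∈ T.P l := by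
    rw [commutatorElement_def]
    exact mul_mem (mul_mem (mul_mem hx hy) (inv_mem hx)) (inv_mem hy)
  have hxyZ : ⁅x, y⁆ ∈ T.Z l :=
    hDZ (Subgroup.mem_sup_left (Subgroup.commutator_mem_commutator hx hy))
  have hxyβ : ⁅x, y⁆ • β = β := by
    have hx' : x⁻¹ • β = β := by rw [inv_smul_eq_iff, hxβ]
    have hy' : y⁻¹ • β = β := by rw [inv_smul_eq_iff, hyβ]
    rw [commutatorElement_def, mul_smul, mul_smul, mul_smul, hy', hx', hyβ, hxβ]
  exact T.m_eq_zero_of_fix l hl m hm β hβ h0 _ hxyZ (havg _ hxy hxyβ)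

/-- (Iso). PROOF: section 7 of the plan. Induction on `j - l`. Case `j = l + 1`: `exists_occ_avg`,
`iso_of_fix` with `β = η`. Case `j > l + 1`: `exists_compat` gives `m'` at level `l+1`, induction
gives `η`; `compat_beta` with `C = P (l+1) ⊓ stabilizer η`; `pick` with `r = p (l+1)`,
`R = P (l+1)`, `R0 = D (l+1)`, `M = P l`, `Ω = CF Γ (ZMod (p j))` gives `η'` in the `P (l+1)`-orbit of `η`
such that elements of `P l` fixing `η'` fix `β`; `iso_of_fix`. `Occ j η'` by `occ_smul_P`. -/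
theorem iso (l j : ℕ) (hlj : l < j) (hj : j < T.n) (hsp : ∀ i, l ≤ i → i < j → ¬ T.Ab i)
    (hab : T.Ab j) (m : CF Γ (ZMod (T.p l))) (hm : T.Occ l m) :
    ∃ η, T.Occ j η ∧ ∀ x ∈ T.P l, ∀ y ∈ T.P l, x • η = η → y • η = η → m ⁅x, y⁆ = 0 := by
  obtain ⟨k, rfl⟩ : ∃ k, j = l + 1 + k := ⟨j - (l + 1), by omega⟩
  induction k generalizing l with
  | zero =>
    have : Fact (T.p (l + 1)).Prime := ⟨T.hp (l + 1) (by omega)⟩
    obtain ⟨η, hη, hη0⟩ := T.exists_occ_avg l (by omega) hab m hm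
    have hηH : η ∈ T.H (l + 1) := by
      have h := hη.1
      rwa [T.Z_eq_of_Ab _ hab] at h
    exact ⟨η, hη, fun x hx y hy hxη hyη =>
      T.iso_of_fix l (by omega) (hsp l le_rfl (by omega)) m hm.1 η hηH hη0 x y hx hy hxη hyη⟩
  | succ k ih =>
    have hp1 : Fact (T.p (l + 1)).Prime := ⟨T.hp (l + 1) (by omega)⟩
    have hl1 : l + 1 < T.n := by omega
    have hsp1 : ¬ T.Ab (l + 1) := hsp (l + 1) (by omega) (by omega)
    obtain ⟨m', hm', hc⟩ := T.exists_compat l hl1 hsp1 m hm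
    have e : l + 1 + (k + 1) = l + 1 + 1 + k := by omega
    rw [e] at hj hsp hab ⊢
    obtain ⟨η, hη, hiso⟩ := ih (l + 1) m' hm' (by omega) hj
      (fun i hi hi' => hsp i (by omega) hi') hab
    obtain ⟨β, hβ, hβC, hβ0⟩ := T.compat_beta l (by omega) hsp1 m hm.1 m' hm'.1 hc
      (T.P (l + 1) ⊓ MulAction.stabilizer Γ η) inf_le_left
      (fun x hx y hy => hiso x hx.1 y hy.1 hx.2 hy.2)
    have hβD : β ∈ HomOn (ZMod (T.p (l + 1))) (T.P (l + 1)) (T.D (l + 1)) := by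
      have h : T.H (l + 1) = HomOn (ZMod (T.p (l + 1))) (T.P (l + 1)) (T.D (l + 1)) :=
        HomOn_eq (T.Q_le (l + 1) hl1.le)
      rwa [h] at hβ
    have hcop : (T.p (l + 1)).Coprime (Nat.card (T.P l)) := by
      have h := T.cop_adj l (by omega)
      have : Fact (T.p l).Prime := ⟨T.hp l (by omega)⟩
      obtain ⟨a, ha⟩ := IsPGroup.iff_card.1 (T.hP l (by omega))
      rw [ha]
      exact Nat.Coprime.pow_right a ((Nat.coprime_primes (T.hp (l + 1) hl1.le)
        (T.hp l (by omega))).2 (T.adj l (by omega)).symm)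
    obtain ⟨η₀, η', -, ⟨g, hg, hgη⟩, -, hst⟩ := pick (T.p (l + 1)) (T.P (l + 1)) (T.D (l + 1))
      (T.P l) (T.hP (l + 1) hl1.le) (T.P_nrm_P (l + 1) l (by omega) hl1.le)
      (T.P_nrm_D (l + 1) l (by omega) hl1.le) (T.D_le (l + 1) hl1.le)
      (T.P_nrm_D (l + 1) (l + 1) le_rfl hl1.le) (T.struct l (by omega)).2.2.2.1
      (fun x hx y hy => Subgroup.mem_sup_left (Subgroup.commutator_mem_commutator hx hy))
      hcop η β hβD (fun x hx hxη => hβC x ⟨hx, hxη⟩)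
    refine ⟨η', ?_, fun x hx y hy hxη hyη => ?_⟩
    · rw [hgη]
      exact T.occ_smul_P _ hj η hη (l + 1) (by omega) g hg
    · exact T.iso_of_fix l (by omega) (hsp l le_rfl (by omega)) m hm.1 β hβ hβ0 x y hx hy
        ((hst x hx).1 hxη).2 ((hst y hy).1 hyη).2

end TowerCore

end FT
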