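import Mathlib
import Pool.Agent.helper11.FT.Defs
import Pool.Agent.helper11.FT.HomBasic
import Pool.Agent.helper11.FT.Tower
import Pool.Agent.helper11.FT.TS0
import Pool.Agent.helper11.FT.TSs
import Pool.Agent.helper11.FT.TS
import Pool.Agent.helper11.FT.TS2
import Pool.Agent.helper11.FT.TS3
import Pool.Agent.helper11.FT.RadB
import Pool.Agent.helper11.FT.Compat
import Pool.Agent.helper11.FT.OL
import Pool.Agent.helper11.FT.Iso
import Pool.Agent.helper11.FT.Chain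

/-! # FT-ChainEx: existence of chains of states -/

namespace FT

universe u v

open scoped commutatorElement

namespace TowerCore

variable {Γ : Type u} [Group Γ] [Finite Γ] (T : TowerCore Γ)

/-- `compat_beta` for `C ⊔ Rad`: `β` moreover vanishes on the radical.
PROOF. `C ⊔ Rad (i+1) l` is isotropic too: for fixed `x ∈ C` (or `x ∈ Rad`) the function
`y ↦ l ⁅x,y⁆` is in `HomOn (P (i+1)) (Rad (i+1) l)` (`form_mem`) and its kernel contains `C` and `Rad`; then the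
same for the other argument with `form_symm` (see the claims `hB1`, `hB` in the proof of
`compat_beta`). Apply `compat_beta` to `C ⊔ Rad`. -/
theorem compat_beta' (i : ℕ) (hi : i < T.n) (hsp : ¬ T.Ab (i + 1))
    (m : CF Γ (ZMod (T.p i))) (hm : m ∈ HomOn (ZMod (T.p i)) (T.Z i) (T.Q i))
    (l : CF Γ (ZMod (T.p (i + 1))))
    (hl : l ∈ HomOn (ZMod (T.p (i + 1))) (T.Z (i + 1)) (T.Q (i + 1))) (hc : T.Compat i m l)
    (C : Subgroup Γ) (hC : C ≤ T.P (i + 1)) (hiso : ∀ x ∈ C, ∀ y ∈ C, l ⁅x, y⁆ = 0) :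
    ∃ β ∈ T.H (i + 1), (∀ x ∈ C, β x = 0) ∧ (∀ x ∈ T.Rad (i + 1) l, β x = 0) ∧ T.Lk i m β := by
  have : Fact (T.p (i + 1)).Prime := ⟨T.hp (i + 1) hi⟩
  have hRR := T.Rad_prop (i + 1) hi hsp l hl
  have hRP : T.Rad (i + 1) l ≤ T.P (i + 1) := hRR.2.1
  have hCP : C ⊔ T.Rad (i + 1) l ≤ T.P (i + 1) := sup_le hC hRP
  have hB1 : ∀ y ∈ C, ∀ x ∈ C ⊔ T.Rad (i + 1) l, l ⁅y, x⁆ = 0 := by
    intro y hy
    obtain ⟨g, hg, hgy⟩ := T.form_mem (i + 1) hi hsp l hl y (hC hy)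
    have h1 : C ⊔ T.Rad (i + 1) l ≤ kerH (T.P (i + 1)) g := by
      refine sup_le (fun x hx => ?_) (fun x hx => ?_)
      · exact (mem_kerH hg).2 ⟨hC hx, by rw [hgy x (hC hx)]; exact hiso y hy x hx⟩
      · exact (mem_kerH hg).2 ⟨hRP hx, hg.2.2 x hx⟩
    intro x hx
    rw [← hgy x (hCP hx)]
    exact ((mem_kerH hg).1 (h1 hx)).2
  have hB : ∀ y ∈ C ⊔ T.Rad (i + 1) l, ∀ x ∈ C ⊔ T.Rad (i + 1) l, l ⁅y, x⁆ = 0 := by
    intro y hy
    obtain ⟨g, hg, hgy⟩ := T.form_mem (i + 1) hi hsp l hl y (hCP hy)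
    have h1 : C ⊔ T.Rad (i + 1) l ≤ kerH (T.P (i + 1)) g := by
      refine sup_le (fun x hx => ?_) (fun x hx => ?_)
      · refine (mem_kerH hg).2 ⟨hC hx, ?_⟩
        rw [hgy x (hC hx), T.form_symm (i + 1) hi hsp l hl (hCP hy) (hC hx), hB1 x hx y hy,
          neg_zero]
      · exact (mem_kerH hg).2 ⟨hRP hx, hg.2.2 x hx⟩
    intro x hx
    rw [← hgy x (hCP hx)]
    exact ((mem_kerH hg).1 (h1 hx)).2
  obtain ⟨β, hβ, hβC, hβ0⟩ := T.compat_beta i hi hsp m hm l hl hc _ hCP hB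
  exact ⟨β, hβ, fun x hx => hβC x (Subgroup.mem_sup_left hx),
    fun x hx => hβC x (Subgroup.mem_sup_right hx), (T.Lk_iff i hi m hm β hβ).2 hβ0⟩

private theorem ce_H (i : ℕ) (hab : T.Ab i) (l : CF Γ (ZMod (T.p i))) (hl : T.Occ i l) :
    l ∈ T.H i := by
  have h := hl.1
  rw [T.Z_eq_of_Ab i hab] at h
  exact h

private theorem ce_next (m : ℕ)
    (ih : (∀ i : ℕ, i + m < T.n → T.Ab i → ∀ l : CF Γ (ZMod (T.p i)), T.Occ i l →
        T.Chain m i l l) ∧
      (∀ i : ℕ, i + 1 + m < T.n → ¬ T.Ab (i + 1) → ∀ μ : CF Γ (ZMod (T.p i)), T.Occ i μ →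
        ∀ l : CF Γ (ZMod (T.p (i + 1))), T.Occ (i + 1) l → T.Compat i μ l →
        ∃ b, T.Chain m (i + 1) l b ∧ T.Lk i μ b))
    (i : ℕ) (hi : i + (m + 1) < T.n) (l : CF Γ (ZMod (T.p i))) (hl : T.Occ i l) :
    ∃ l' b', T.Chain m (i + 1) l' b' ∧ T.Lk i l b' := by
  have hi1 : i + 1 < T.n := by omega
  have hi0 : i < T.n := by omega
  have : Fact (T.p (i + 1)).Prime := ⟨T.hp (i + 1) hi1.le⟩
  by_cases hab : T.Ab (i + 1)
  · obtain ⟨η, hη, hη0⟩ := T.exists_occ_avg i hi1 hab l hl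
    exact ⟨η, η, ih.1 (i + 1) (by omega) hab η hη,
      (T.Lk_iff i hi0 l hl.1 η (T.ce_H (i + 1) hab η hη)).2 hη0⟩
  · obtain ⟨l', hl', hc⟩ := T.exists_compat i hi1 hab l hl
    obtain ⟨b, hb, hlk⟩ := ih.2 i (by omega) hab l hl l' hl' hc
    exact ⟨l', b, hb, hlk⟩

private theorem ce_st (i : ℕ) (hab : T.Ab i) (l : CF Γ (ZMod (T.p i))) (hl : T.Occ i l) :
    T.St i l l :=
  ⟨hl, T.ce_H i hab l hl, fun _ => rfl, fun h => absurd hab h⟩

/-- Existence of chains.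
PROOF. Both claims together by induction on `m`. Let first `l ∈ Occ i` be arbitrary and
`i + (m + 1) < n`. NEXT: there are `l'`, `b'` with `Chain m (i+1) l' b'` and `Lk i l b'`: if level `i+1` is abelian,
`exists_occ_avg` gives `η ∈ Occ (i+1)` with nonzero average; take `l' = b' = η` (first claim for `m`). If
level `i+1` is special, `exists_compat` gives `l'` with `Compat i l l'` and the second claim for `m` gives `b'`.
First claim: `St i l l` is clear (`l ∈ Hom(Z i/Q i)`, `Z i = P i`). For `m = 0` this is all; for `m + 1` use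
NEXT and `Lk_zero` for the link.
Second claim (level `i+1` special): for `m = 0` take `β` from `compat_beta'` with `C = ⊥`. For `m + 1`: NEXT
for `l` at level `i+1` gives `l'`, `b'` at level `i+2`; `C = P (i+1) ⊓ stabilizer b'` is isotropic by `Lk_iso`;
`β` from `compat_beta'`. -/
theorem exists_chain (m : ℕ) :
    (∀ i : ℕ, i + m < T.n → T.Ab i → ∀ l : CF Γ (ZMod (T.p i)), T.Occ i l → T.Chain m i l l) ∧
    (∀ i : ℕ, i + 1 + m < T.n → ¬ T.Ab (i + 1) → ∀ μ : CF Γ (ZMod (T.p i)), T.Occ i μ →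
      ∀ l : CF Γ (ZMod (T.p (i + 1))), T.Occ (i + 1) l → T.Compat i μ l →
      ∃ b, T.Chain m (i + 1) l b ∧ T.Lk i μ b) := by
  induction m with
  | zero =>
    refine ⟨fun i _ hab l hl => T.ce_st i hab l hl, fun i hi hsp μ hμ l hl hc => ?_⟩
    have : Fact (T.p (i + 1)).Prime := ⟨T.hp (i + 1) (by omega)⟩
    obtain ⟨β, hβ, -, hβR, hlk⟩ := T.compat_beta' i (by omega) hsp μ hμ.1 l hl.1 hc ⊥ bot_le
      (fun x hx y _ => by
        rw [Subgroup.mem_bot] at hx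
        rw [hx, commutatorElement_one_left]
        exact HomOn.one hl.1)
    exact ⟨β, ⟨hl, hβ, fun h => absurd h hsp, fun _ => hβR⟩, hlk⟩
  | succ m ih =>
    refine ⟨fun i hi hab l hl => ?_, fun i hi hsp μ hμ l hl hc => ?_⟩
    · obtain ⟨l', b', hch, hlk⟩ := T.ce_next m ih i hi l hl
      refine ⟨T.ce_st i hab l hl, l', b', hch, hlk, fun x hx hxb => ?_⟩
      refine T.Lk_zero i (by omega) l hl.1 b' hch.st.mem hlk x ?_ hxb
      rw [T.Z_eq_of_Ab i hab]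
      exact hx
    · obtain ⟨l', b', hch, hlk'⟩ := T.ce_next m ih (i + 1) (by omega) l hl
      obtain ⟨β, hβ, hβC, hβR, hlk⟩ := T.compat_beta' i (by omega) hsp μ hμ.1 l hl.1 hc
        (T.P (i + 1) ⊓ MulAction.stabilizer Γ b') inf_le_left
        (fun x hx y hy => T.Lk_iso (i + 1) (by omega) hsp l hl.1 b' hch.st.mem hlk' x y
          hx.1 hy.1 hx.2 hy.2)
      exact ⟨β, ⟨⟨hl, hβ, fun h => absurd h hsp, fun _ => hβR⟩, l', b', hch, hlk',
        fun x hx hxb => hβC x ⟨hx, hxb⟩⟩, hlk⟩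

end TowerCore

end FT
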