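import Mathlib
import Pool.Agent.helper11.FT.Defs

/-! # FT-KC0: nondegenerate action -/

namespace FT

universe u v

open scoped commutatorElement

/-- `#{x ∈ E : ⁅x,g⁆ ∈ E0}`, i.e. `|E0| |C_{E/E0}(g)|` -/
noncomputable def cenN {G : Type u} [Group G] (E E0 : Subgroup G) (g : G) : ℕ :=
  Nat.card {x : G // x ∈ E ∧ ⁅x, g⁆ ∈ E0}

/-- nondegeneracy of `E/E0` on the representation `ρ`: every `u ∈ E \ E0` has a conjugate
`y u y⁻¹ = u z`, `y ∈ E`, where `z` acts as an `E`-invariant operator without fixed vectors -/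
def NonDeg {G : Type u} [Group G] {k : Type v} [Field k] {V : Type*} [AddCommGroup V] [Module k V]
    (ρ : Representation k G V) (E E0 : Subgroup G) : Prop :=
  ∀ u ∈ E, u ∉ E0 → ∃ y ∈ E, ∃ z : G, y * u * y⁻¹ = u * z ∧
    (∀ x ∈ E, ρ (x * z * x⁻¹) = ρ z) ∧ ∀ v, ρ z v = v → v = 0

private theorem mem_fixZ {G : Type u} [Group G] {k : Type v} [Field k] {V : Type*}
    [AddCommGroup V] [Module k V] (ρ : Representation k G V) (g : G) (v : V) :
    v ∈ fixS ρ (Subgroup.zpowers g) ↔ ρ g v = v := by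
  constructor
  · intro h
    exact h g (Subgroup.mem_zpowers g)
  · intro h
    have hle : Subgroup.zpowers g ≤ cenSub ρ ⊤ (Submodule.span k {v}) := by
      rw [Subgroup.zpowers_le]
      refine ⟨Subgroup.mem_top _, fun x hx => ?_⟩
      obtain ⟨c, rfl⟩ := Submodule.mem_span_singleton.mp hx
      rw [map_smul, h]
    intro x hx
    exact (hle hx).2 v (Submodule.mem_span_singleton_self v)

private theorem fixZ_eq_top {G : Type u} [Group G] {k : Type v} [Field k] {V : Type*}
    [AddCommGroup V] [Module k V] [FiniteDimensional k V] (ρ : Representation k G V) (g : G) :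
    ρ g = 1 ↔ Module.finrank k (fixS ρ (Subgroup.zpowers g)) = Module.finrank k V := by
  constructor
  · intro h
    have : fixS ρ (Subgroup.zpowers g) = ⊤ := by
      rw [eq_top_iff]
      intro v _
      rw [mem_fixZ, h]
      rfl
    rw [this, finrank_top]
  · intro h
    have h2 := Submodule.eq_top_of_finrank_eq h
    ext v
    have hv : v ∈ fixS ρ (Subgroup.zpowers g) := by rw [h2]; trivial
    rw [mem_fixZ] at hv
    rw [hv]
    rfl

private theorem finrank_fixBot {G : Type u} [Group G] {k : Type v} [Field k] {V : Type*}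
    [AddCommGroup V] [Module k V] [FiniteDimensional k V] (ρ : Representation k G V) :
    Module.finrank k (fixS ρ (⊥ : Subgroup G)) = Module.finrank k V := by
  have : fixS ρ (⊥ : Subgroup G) = ⊤ := by
    rw [eq_top_iff]
    intro v _ h hh
    rw [Subgroup.mem_bot.mp hh, map_one]
    rfl
  rw [this, finrank_top]

/-- The character of a complex representation vanishes on `E \ E0` if `E/E0` is nondegenerate
(here in terms of a second representation `ρ` with the same kernel conditions is not needed: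
state for the complex representation itself).
PROOF. `y u y⁻¹ = u z`; `ρ(y (u z^j) y⁻¹) = ρ(u z) ρ(y z y⁻¹)^j = ρ(u z^{j+1})`, so `χ(u z^j)` does not
depend on `j`. With `o = orderOf z`: `∑_{j<o} ρ(z)^j` has image in the vectors fixed by `z`, so is
`0`, hence `o χ(u) = tr (ρ(u) ∑_j ρ(z)^j) = 0`. -/
theorem trace_eq_zero_of_nonDeg {G : Type u} [Group G] [Finite G] {U : Type v} [AddCommGroup U]
    [Module ℂ U] [FiniteDimensional ℂ U] (ρ : Representation ℂ G U) (E E0 : Subgroup G)
    (hnd : NonDeg ρ E E0) (u : G) (hu : u ∈ E) (hu0 : u ∉ E0) :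
    LinearMap.trace ℂ U (ρ u) = 0 := by
  obtain ⟨y, hy, z, hyz, hx, hfix⟩ := hnd u hu hu0
  have hconj : ∀ g, LinearMap.trace ℂ U (ρ (y * g * y⁻¹)) = LinearMap.trace ℂ U (ρ g) := by
    intro g
    rw [map_mul ρ (y * g), LinearMap.trace_mul_comm, ← map_mul, inv_mul_cancel_left]
  have hstep : ∀ j : ℕ, LinearMap.trace ℂ U (ρ (u * z ^ j)) = LinearMap.trace ℂ U (ρ u) := by
    intro j
    induction j with
    | zero => simp
    | succ j ih =>
      rw [← ih, ← hconj (u * z ^ j)]
      have h1 : y * (u * z ^ j) * y⁻¹ = (u * z) * (y * z * y⁻¹) ^ j := by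
        rw [← hyz, conj_pow]; group
      rw [h1, map_mul ρ (u * z), map_pow ρ, hx y hy, ← map_pow, ← map_mul, pow_succ', mul_assoc]
  have hS : ∑ j ∈ Finset.range (orderOf z), ρ (z ^ j) = 0 := by
    ext v
    have h1 : ρ z ((∑ j ∈ Finset.range (orderOf z), ρ (z ^ j)) v) =
        (∑ j ∈ Finset.range (orderOf z), ρ (z ^ j)) v := by
      have h2 : ρ z * (∑ j ∈ Finset.range (orderOf z), ρ (z ^ j)) =
          ∑ j ∈ Finset.range (orderOf z), ρ (z ^ j) := by
        rw [Finset.mul_sum]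
        have h3 : ∀ j ∈ Finset.range (orderOf z), ρ z * ρ (z ^ j) = ρ (z ^ (j + 1)) := by
          intro j _
          rw [← map_mul, pow_succ']
        rw [Finset.sum_congr rfl h3]
        have h4 := Finset.sum_range_succ (fun j => ρ (z ^ j)) (orderOf z)
        have h5 := Finset.sum_range_succ' (fun j => ρ (z ^ j)) (orderOf z)
        rw [h4] at h5
        simp only [pow_orderOf_eq_one, pow_zero] at h5
        exact (add_right_cancel h5).symm
      rw [← Module.End.mul_apply, h2]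
    rw [hfix _ h1]
    rfl
  have hsum : (orderOf z : ℂ) * LinearMap.trace ℂ U (ρ u) = 0 := by
    have h1 : ∑ j ∈ Finset.range (orderOf z), LinearMap.trace ℂ U (ρ (u * z ^ j)) =
        (orderOf z : ℂ) * LinearMap.trace ℂ U (ρ u) := by
      rw [Finset.sum_congr rfl (fun j _ => hstep j), Finset.sum_const, Finset.card_range,
        nsmul_eq_mul]
    rw [← h1, ← map_sum]
    have h2 : ∑ j ∈ Finset.range (orderOf z), ρ (u * z ^ j) =
        ρ u * ∑ j ∈ Finset.range (orderOf z), ρ (z ^ j) := by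
      rw [Finset.mul_sum]
      exact Finset.sum_congr rfl (fun j _ => map_mul ρ _ _)
    rw [h2, hS, mul_zero, map_zero]
  rcases mul_eq_zero.mp hsum with h | h
  · exfalso
    have h0 : orderOf z ≠ 0 := (orderOf_pos z).ne'
    exact h0 (by exact_mod_cast h)
  · exact h

/-- `NonDeg` passes to a complex lift with the same dimensions of fixed spaces.
PROOF. `ρ g = 1` iff the fixed space of `zpowers g` has full dimension; `ρ z` has no fixed vector
iff the fixed space of `zpowers z` is zero. `ρ (x z x⁻¹) = ρ z` iff `ρ (x z x⁻¹ z⁻¹) = 1`. -/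
theorem nonDeg_lift {G : Type u} [Group G] [Finite G] {k : Type v} [Field k] {V : Type*}
    [AddCommGroup V] [Module k V] [FiniteDimensional k V] (ρ : Representation k G V)
    {U : Type*} [AddCommGroup U] [Module ℂ U] [FiniteDimensional ℂ U] (ρ' : Representation ℂ G U)
    (h : ∀ J : Subgroup G, Module.finrank ℂ (fixS ρ' J) = Module.finrank k (fixS ρ J))
    (E E0 : Subgroup G) (hnd : NonDeg ρ E E0) : NonDeg ρ' E E0 := by
  have hdim : Module.finrank ℂ U = Module.finrank k V := by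
    rw [← finrank_fixBot ρ', ← finrank_fixBot ρ, h]
  have hker : ∀ g, ρ g = 1 → ρ' g = 1 := by
    intro g hg
    rw [fixZ_eq_top] at hg ⊢
    rw [h, hg, hdim]
  intro u hu hu0
  obtain ⟨y, hy, z, hyz, hx, hfix⟩ := hnd u hu hu0
  refine ⟨y, hy, z, hyz, fun x hxE => ?_, fun v hv => ?_⟩
  · have h1 : ρ (x * z * x⁻¹ * z⁻¹) = 1 := by
      rw [map_mul ρ (x * z * x⁻¹), hx x hxE, ← map_mul, mul_inv_cancel, map_one]
    have h2 := hker _ h1
    have h3 : ρ' (x * z * x⁻¹) = ρ' (x * z * x⁻¹ * z⁻¹) * ρ' z := by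
      rw [← map_mul, inv_mul_cancel_right]
    rw [h3, h2, one_mul]
  · have h1 : fixS ρ (Subgroup.zpowers z) = ⊥ := by
      rw [eq_bot_iff]
      intro w hw
      rw [mem_fixZ] at hw
      exact (Submodule.mem_bot k).mpr (hfix w hw)
    have h2 : Module.finrank ℂ (fixS ρ' (Subgroup.zpowers z)) = 0 := by
      rw [h, h1, finrank_bot]
    have h3 := Submodule.finrank_eq_zero.mp h2
    have h4 : v ∈ fixS ρ' (Subgroup.zpowers z) := (mem_fixZ ρ' z v).mpr hv
    rw [h3] at h4
    exact (Submodule.mem_bot ℂ).mp h4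

private theorem finrank_fixZ_conj {G : Type u} [Group G] {k : Type v} [Field k] {V : Type*}
    [AddCommGroup V] [Module k V] [FiniteDimensional k V] (ρ : Representation k G V) (y g : G) :
    Module.finrank k (fixS ρ (Subgroup.zpowers g)) ≤
      Module.finrank k (fixS ρ (Subgroup.zpowers (y * g * y⁻¹))) := by
  have hinj : Function.Injective (ρ y) := by
    intro a b hab
    have h1 := congrArg (ρ y⁻¹) hab
    rwa [← Module.End.mul_apply, ← Module.End.mul_apply, ← map_mul, inv_mul_cancel, map_one,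
      Module.End.one_apply, Module.End.one_apply] at h1
  have h1 : (fixS ρ (Subgroup.zpowers g)).map (ρ y) ≤
      fixS ρ (Subgroup.zpowers (y * g * y⁻¹)) := by
    rintro _ ⟨v, hv, rfl⟩
    have hv' : ρ g v = v := (mem_fixZ ρ g v).mp hv
    rw [mem_fixZ, ← Module.End.mul_apply, ← map_mul, inv_mul_cancel_right, map_mul,
      Module.End.mul_apply, hv']
  calc Module.finrank k (fixS ρ (Subgroup.zpowers g))
      = Module.finrank k ((fixS ρ (Subgroup.zpowers g)).map (ρ y)) :=
        (Submodule.equivMapOfInjective (ρ y) hinj _).finrank_eq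
    _ ≤ _ := Submodule.finrank_mono h1

private theorem finrank_inf_ge {k : Type v} [Field k] {V : Type*}
    [AddCommGroup V] [Module k V] [FiniteDimensional k V] (A B : Submodule k V) :
    Module.finrank k A + Module.finrank k B ≤
      Module.finrank k V + Module.finrank k (A ⊓ B : Submodule k V) := by
  have h1 := Submodule.finrank_sup_add_finrank_inf_eq A B
  have h2 := Submodule.finrank_le (A ⊔ B)
  omega

/-- Bound for the fixed space of `N` (over any field).
PROOF. `n ∈ N`, `x ∈ E` with `u = ⁅x,n⁆ ∉ E0` (`u ∈ E` since `n` normalises `E`). Write `V^g` for the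
fixed space of `g`. `V^n ∩ V^(x n x⁻¹) ⊆ V^u` and `dim V^(x n x⁻¹) = dim V^n`, so
`dim V^u ≥ 2 dim V^n - dim V`. With `y u y⁻¹ = u z`: `V^u ∩ V^(u z) ⊆ V^z = 0` and both have the same
dimension so `2 dim V^u ≤ dim V`. Hence `4 dim V^n ≤ 3 dim V`. -/
theorem finrank_fix_le {G : Type u} [Group G] [Finite G] {k : Type v} [Field k] {V : Type*}
    [AddCommGroup V] [Module k V] [FiniteDimensional k V] (ρ : Representation k G V)
    (E E0 N : Subgroup G) (hNE : N ≤ Nrm E) (hnd : NonDeg ρ E E0)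
    (hN : ∃ n ∈ N, ∃ x ∈ E, ⁅x, n⁆ ∉ E0) :
    4 * Module.finrank k (fixS ρ N) ≤ 3 * Module.finrank k V := by
  obtain ⟨n, hn, x, hx, hu0⟩ := hN
  have hu : ⁅x, n⁆ ∈ E := by
    rw [commutatorElement_def, mul_assoc, mul_assoc]
    refine E.mul_mem hx ?_
    have h1 := (Subgroup.mem_normalizer_iff.mp (hNE hn) x⁻¹).mp (E.inv_mem hx)
    rw [mul_assoc] at h1
    exact h1
  obtain ⟨y, hy, z, hyz, hz, hfix⟩ := hnd _ hu hu0
  have h1 : fixS ρ (Subgroup.zpowers n) ⊓ fixS ρ (Subgroup.zpowers (x * n * x⁻¹)) ≤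
      fixS ρ (Subgroup.zpowers ⁅x, n⁆) := by
    rintro v ⟨hv1, hv2⟩
    have hv1' : ρ n v = v := (mem_fixZ ρ _ v).mp hv1
    have hv2' : ρ (x * n * x⁻¹) v = v := (mem_fixZ ρ _ v).mp hv2
    have hv3 : ρ n⁻¹ v = v := hv1 n⁻¹ ((Subgroup.zpowers n).inv_mem (Subgroup.mem_zpowers n))
    rw [mem_fixZ, commutatorElement_def, map_mul ρ (x * n * x⁻¹), Module.End.mul_apply, hv3, hv2']
  have h2 : fixS ρ (Subgroup.zpowers ⁅x, n⁆) ⊓ fixS ρ (Subgroup.zpowers (⁅x, n⁆ * z)) = ⊥ := by
    rw [eq_bot_iff]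
    rintro v ⟨hv1, hv2⟩
    have hv2' : ρ (⁅x, n⁆ * z) v = v := (mem_fixZ ρ _ v).mp hv2
    have hv3 : ρ ⁅x, n⁆⁻¹ v = v :=
      hv1 _ ((Subgroup.zpowers ⁅x, n⁆).inv_mem (Subgroup.mem_zpowers _))
    refine (Submodule.mem_bot k).mpr (hfix v ?_)
    have h3 : ρ z v = ρ ⁅x, n⁆⁻¹ (ρ (⁅x, n⁆ * z) v) := by
      rw [← Module.End.mul_apply, ← map_mul, inv_mul_cancel_left]
    rw [h3, hv2', hv3]
  have h3 := finrank_inf_ge (fixS ρ (Subgroup.zpowers n)) (fixS ρ (Subgroup.zpowers (x * n * x⁻¹)))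
  have h4 := finrank_inf_ge (fixS ρ (Subgroup.zpowers ⁅x, n⁆))
    (fixS ρ (Subgroup.zpowers (⁅x, n⁆ * z)))
  have h5 := Submodule.finrank_mono h1
  have h6 := finrank_fixZ_conj ρ x n
  have h7 := finrank_fixZ_conj ρ y ⁅x, n⁆
  rw [h2, finrank_bot] at h4
  rw [hyz] at h7
  have h8 : fixS ρ N ≤ fixS ρ (Subgroup.zpowers n) := by
    intro v hv
    rw [mem_fixZ]
    exact hv n hn
  have h9 := Submodule.finrank_mono h8
  omega

end FT
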