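import Mathlib
import Pool.Agent.helper11.FT.Defs
import Pool.Agent.helper11.FT.HomBasic
import Pool.Agent.helper11.FT.DualCount
import Pool.Agent.helper11.FT.KC0

/-! # FT-SecRep: the representation of a subgroup `G1` on `Hom(P/Q, K)` -/

namespace FT

universe u v

open scoped commutatorElement

variable {Γ : Type u} [Group Γ]

/-- the representation of `G1` on `HomOn K P Q` by conjugation -/
def secRep (K : Type v) [Field K] (P Q G1 : Subgroup Γ) (hP : G1 ≤ Nrm P) (hQ : G1 ≤ Nrm Q) :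
    Representation K G1 (HomOn K P Q) where
  toFun g :=
    { toFun := fun f => ⟨(g : Γ) • (f : CF Γ K), act_mem_HomOn (hP g.2) (hQ g.2) f.2⟩
      map_add' := fun f h => Subtype.ext (smul_add (g : Γ) (f : CF Γ K) (h : CF Γ K))
      map_smul' := fun c f => Subtype.ext (smul_comm (g : Γ) c (f : CF Γ K)) }
  map_one' := by
    apply LinearMap.ext
    intro f
    exact Subtype.ext (one_smul Γ (f : CF Γ K))
  map_mul' g h := by
    apply LinearMap.ext
    intro f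
    exact Subtype.ext (mul_smul (g : Γ) (h : Γ) (f : CF Γ K))

theorem secRep_apply (K : Type v) [Field K] (P Q G1 : Subgroup Γ) (hP : G1 ≤ Nrm P)
    (hQ : G1 ≤ Nrm Q) (g : G1) (f : HomOn K P Q) :
    ((secRep K P Q G1 hP hQ g f : HomOn K P Q) : CF Γ K) = (g : Γ) • (f : CF Γ K) := rfl

variable [Finite Γ]

/-- an element acts trivially on `Hom(P/Q, F_r)` iff `⁅x,g⁆ ∈ Q` for all `x ∈ P`
(`P/Q` elementary abelian; `sep_HomOn`) -/
theorem secRep_eq_one (r : ℕ) [Fact r.Prime] (P Q G1 : Subgroup Γ) (hP : G1 ≤ Nrm P)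
    (hQ : G1 ≤ Nrm Q) (hQP : Q ≤ P) (hPQ : P ≤ Nrm Q) (hpow : ∀ x ∈ P, x ^ r ∈ Q)
    (hcomm : ∀ x ∈ P, ∀ y ∈ P, ⁅x, y⁆ ∈ Q) (g : G1) :
    secRep (ZMod r) P Q G1 hP hQ g = 1 ↔ ∀ x ∈ P, ⁅x, (g : Γ)⁆ ∈ Q := by
  constructor
  · intro h x hx
    have h1 : ⁅(g : Γ), x⁆ ∈ P := by
      rw [commutatorElement_def]
      exact P.mul_mem ((Subgroup.mem_normalizer_iff.1 (hP g.2) x).1 hx) (P.inv_mem hx)
    have h2 : ⁅(g : Γ), x⁆ ∈ Q := by
      refine sep_HomOn r P Q hQP hPQ hpow hcomm _ h1 fun f hf => ?_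
      refine HomOn.comm_eq_zero hf (hP g.2) ?_ hx
      have h3 := congrArg Subtype.val (LinearMap.congr_fun h ⟨f, hf⟩)
      rw [secRep_apply] at h3
      exact h3
    rw [← commutatorElement_inv]
    exact Q.inv_mem h2
  · intro h
    apply LinearMap.ext
    intro f
    apply Subtype.ext
    rw [secRep_apply]
    refine HomOn.smul_eq_of_comm f.2 (hP g.2) fun w hw => f.2.2.2 _ ?_
    rw [← commutatorElement_inv]
    exact Q.inv_mem (h w hw)

/-- `cenN P Q g * |Hom(P/Q)| = |P| * |fixed points of g on Hom(P/Q)|` (`card_fix_dual`) -/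
theorem secRep_card_fix (r : ℕ) [Fact r.Prime] (P Q G1 : Subgroup Γ) (hP : G1 ≤ Nrm P)
    (hQ : G1 ≤ Nrm Q) (hQP : Q ≤ P) (hPQ : P ≤ Nrm Q) (hpow : ∀ x ∈ P, x ^ r ∈ Q)
    (hcomm : ∀ x ∈ P, ∀ y ∈ P, ⁅x, y⁆ ∈ Q) (g : G1) :
    cenN P Q (g : Γ) * Nat.card (HomOn (ZMod r) P Q) =
      Nat.card P * Nat.card (fixS (secRep (ZMod r) P Q G1 hP hQ) (Subgroup.zpowers g)) := by
  have h1 := card_fix_dual r P Q hQP hPQ hpow hcomm (g : Γ) (hP g.2) (hQ g.2)
  have key : ∀ f : HomOn (ZMod r) P Q,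
      f ∈ fixS (secRep (ZMod r) P Q G1 hP hQ) (Subgroup.zpowers g) ↔
        (g : Γ) • (f : CF Γ (ZMod r)) = f := by
    intro f
    constructor
    · intro h
      have h2 := congrArg Subtype.val (h g (Subgroup.mem_zpowers g))
      rwa [secRep_apply] at h2
    · intro h x hx
      have h2 : Subgroup.zpowers (g : Γ) ≤ MulAction.stabilizer Γ (f : CF Γ (ZMod r)) := by
        rw [Subgroup.zpowers_le]
        exact h
      apply Subtype.ext
      rw [secRep_apply]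
      apply h2
      obtain ⟨k, rfl⟩ := Subgroup.mem_zpowers_iff.1 hx
      exact Subgroup.mem_zpowers_iff.2 ⟨k, by simp⟩
  have h2 : Nat.card (fixS (secRep (ZMod r) P Q G1 hP hQ) (Subgroup.zpowers g)) =
      Nat.card {f : CF Γ (ZMod r) // f ∈ HomOn (ZMod r) P Q ∧ (g : Γ) • f = f} := by
    apply Nat.card_congr
    exact
      { toFun := fun f => ⟨f.1.1, f.1.2, (key f.1).1 f.2⟩
        invFun := fun f => ⟨⟨f.1, f.2.1⟩, (key ⟨f.1, f.2.1⟩).2 f.2.2⟩
        left_inv := fun f => rfl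
        right_inv := fun f => rfl }
  rw [h2]
  exact h1

end FT
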