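import Mathlib
import Pool.Agent.helper11.FT.Defs

/-! # FT-Semi: semisimplicity of coprime modules over F_q in terms of submodules -/

namespace FT

universe u v

variable {G : Type u} [Group G] [Finite G] {q : ℕ} [Fact q.Prime] {X : Type v} [AddCommGroup X]
  [Module (ZMod q) X] [Finite X] (ρ : Representation (ZMod q) G X)

/-- the submodule `S` is invariant under `R` -/
def Inv (ρ : Representation (ZMod q) G X) (R : Subgroup G) (S : Submodule (ZMod q) X) : Prop :=
  ∀ r ∈ R, ∀ x ∈ S, ρ r x ∈ S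

omit [Finite G] [Finite X] in
private theorem rho_inv_cancel (r : G) (x : X) : ρ r (ρ r⁻¹ x) = x := by
  rw [← Module.End.mul_apply, ← map_mul, mul_inv_cancel, map_one, Module.End.one_apply]

omit [Finite G] [Finite X] in
private theorem rho_mul (r s : G) (x : X) : ρ (r * s) x = ρ r (ρ s x) := by
  rw [map_mul, Module.End.mul_apply]

omit [Finite G] [Finite X] in
private theorem card_ne (R : Subgroup G) (hq : q.Coprime (Nat.card R)) :
    ((Nat.card R : ℕ) : ZMod q) ≠ 0 := by
  intro h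
  rw [ZMod.natCast_eq_zero_iff] at h
  exact (Nat.Prime.coprime_iff_not_dvd (Fact.out : q.Prime)).1 hq h

/-- Maschke: an invariant complement inside `T`. (Average a projection `X → S` over `R`, intersect
its kernel with `T`.) -/
theorem exists_compl (R : Subgroup G) (hq : q.Coprime (Nat.card R)) (S T : Submodule (ZMod q) X)
    (hS : Inv ρ R S) (hT : Inv ρ R T) (hST : S ≤ T) :
    ∃ S' : Submodule (ZMod q) X, Inv ρ R S' ∧ S' ≤ T ∧ S ⊔ S' = T ∧ S ⊓ S' = ⊥ := by
  classical
  have := Fintype.ofFinite R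
  obtain ⟨C, hC⟩ := Submodule.exists_isCompl S
  set p : X →ₗ[ZMod q] X := S.subtype ∘ₗ S.projectionOnto C hC with hp
  have hp1 : ∀ x, p x ∈ S := fun x => (S.projectionOnto C hC x).2
  have hp2 : ∀ x ∈ S, p x = x := by
    intro x hx
    have h := Submodule.projectionOnto_apply_left hC ⟨x, hx⟩
    change ((S.projectionOnto C hC x : S) : X) = x
    rw [show S.projectionOnto C hC x = ⟨x, hx⟩ from h]
  set c : ZMod q := ((Nat.card R : ℕ) : ZMod q) with hc
  have hc0 : c ≠ 0 := card_ne R hq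
  set P : X →ₗ[ZMod q] X := c⁻¹ • ∑ r : R, (ρ (r : G)) ∘ₗ p ∘ₗ (ρ ((r : G)⁻¹)) with hP
  have hPx : ∀ x, P x = c⁻¹ • ∑ r : R, ρ (r : G) (p (ρ ((r : G)⁻¹) x)) := by
    intro x
    rw [hP, LinearMap.smul_apply, LinearMap.sum_apply]
    rfl
  have hP1 : ∀ x, P x ∈ S := by
    intro x
    rw [hPx]
    exact S.smul_mem _ (S.sum_mem fun r _ => hS r r.2 _ (hp1 _))
  have hP2 : ∀ x ∈ S, P x = x := by
    intro x hx
    have h1 : ∀ r ∈ (Finset.univ : Finset R), ρ (r : G) (p (ρ ((r : G)⁻¹) x)) = x := by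
      intro r _
      rw [hp2 _ (hS _ (R.inv_mem r.2) x hx), rho_inv_cancel]
    rw [hPx, Finset.sum_congr rfl h1, Finset.sum_const, Finset.card_univ, ← Nat.card_eq_fintype_card,
      ← Nat.cast_smul_eq_nsmul (ZMod q), smul_smul, inv_mul_cancel₀ hc0, one_smul]
  have hP3 : ∀ s ∈ R, ∀ x, P (ρ s x) = ρ s (P x) := by
    intro s hs x
    rw [hPx, hPx, map_smul, map_sum]
    congr 1
    refine Fintype.sum_equiv (Equiv.mulLeft (⟨s, hs⟩ : R)⁻¹) _ _ fun r => ?_
    have h1 : (((Equiv.mulLeft (⟨s, hs⟩ : R)⁻¹) r : R) : G) = s⁻¹ * r := rfl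
    rw [h1, ← rho_mul, ← rho_mul]
    have h2 : s * (s⁻¹ * (r : G)) = r := by group
    have h3 : (s⁻¹ * (r : G))⁻¹ = (r : G)⁻¹ * s := by group
    rw [h2, h3]
  refine ⟨LinearMap.ker P ⊓ T, ?_, inf_le_right, ?_, ?_⟩
  · intro r hr x hx
    rw [Submodule.mem_inf, LinearMap.mem_ker] at hx ⊢
    exact ⟨by rw [hP3 r hr, hx.1, map_zero], hT r hr x hx.2⟩
  · apply le_antisymm (sup_le hST inf_le_right)
    intro x hx
    rw [Submodule.mem_sup]
    refine ⟨P x, hP1 x, x - P x, ?_, by abel⟩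
    rw [Submodule.mem_inf, LinearMap.mem_ker]
    exact ⟨by rw [map_sub, hP2 _ (hP1 x), sub_self], T.sub_mem hx (hST (hP1 x))⟩
  · rw [eq_bot_iff]
    intro x hx
    rw [Submodule.mem_inf, Submodule.mem_inf, LinearMap.mem_ker] at hx
    rw [Submodule.mem_bot, ← hP2 x hx.1, hx.2.1]

private theorem card_lt {S T : Submodule (ZMod q) X} (h : S < T) : Nat.card S < Nat.card T := by
  have h1 : (S : Set X) ⊂ (T : Set X) := h
  exact Set.ncard_lt_ncard h1 (Set.toFinite _)

omit [Finite G] in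
/-- every nonzero invariant submodule contains a simple one (take one of minimal cardinality) -/
theorem exists_simple (R : Subgroup G) (T : Submodule (ZMod q) X)
    (hT : Inv ρ R T) (hne : T ≠ ⊥) : ∃ S ≤ T, SimpleSub ρ R S := by
  induction hn : Nat.card T using Nat.strong_induction_on generalizing T with
  | _ n ih =>
    by_cases h : ∀ S' : Submodule (ZMod q) X, S' ≤ T → (∀ r ∈ R, ∀ x ∈ S', ρ r x ∈ S') →
        S' = ⊥ ∨ S' = T
    · exact ⟨T, le_rfl, hne, hT, h⟩
    · push Not at h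
      obtain ⟨S', h1, h2, h3, h4⟩ := h
      have hlt : S' < T := lt_of_le_of_ne h1 h4
      obtain ⟨S, hS, hS'⟩ := ih _ (hn ▸ card_lt hlt) S' h2 h3 rfl
      exact ⟨S, hS.trans h1, hS'⟩

omit [Finite X] in
private theorem card_sup {S T : Submodule (ZMod q) X} (h : S ⊓ T = ⊥) :
    Nat.card (S ⊔ T : Submodule (ZMod q) X) = Nat.card S * Nat.card T := by
  have h1 : LinearMap.range (LinearMap.coprod S.subtype T.subtype) = S ⊔ T := by
    rw [LinearMap.range_coprod, Submodule.range_subtype, Submodule.range_subtype]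
  have h2 : Function.Injective (LinearMap.coprod S.subtype T.subtype) := by
    rw [← LinearMap.ker_eq_bot, LinearMap.ker_coprod_of_disjoint_range, Submodule.ker_subtype,
      Submodule.ker_subtype, Submodule.prod_bot]
    rw [Submodule.range_subtype, Submodule.range_subtype, disjoint_iff]
    exact h
  rw [← Nat.card_prod, ← h1]
  exact (Nat.card_congr (LinearEquiv.ofInjective _ h2).toEquiv).symm

/-- induction principle: a property of invariant submodules which holds for `⊥` and passes from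
`T'` to `S ⊔ T'` (`S` simple, `S ⊓ T' = ⊥`, `card (S ⊔ T') = card S * card T'`) holds for all
invariant submodules. PROOF. Induction on the cardinality of `T`: take `S ≤ T` simple and the
complement `T'` of `S` in `T`. -/
theorem inv_induction (R : Subgroup G) (hq : q.Coprime (Nat.card R))
    (P : Submodule (ZMod q) X → Prop) (h0 : P ⊥)
    (hs : ∀ S T' : Submodule (ZMod q) X, SimpleSub ρ R S → Inv ρ R T' → S ⊓ T' = ⊥ →
      Nat.card (S ⊔ T' : Submodule (ZMod q) X) = Nat.card S * Nat.card T' → P T' → P (S ⊔ T'))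
    (T : Submodule (ZMod q) X) (hT : Inv ρ R T) : P T := by
  induction hn : Nat.card T using Nat.strong_induction_on generalizing T with
  | _ n ih =>
    by_cases hT0 : T = ⊥
    · rw [hT0]; exact h0
    · obtain ⟨S, hST, hS⟩ := exists_simple ρ R T hT hT0
      obtain ⟨S', h1, h2, h3, h4⟩ := exists_compl ρ R hq S T hS.2.1 hT hST
      have hlt : S' < T := by
        refine lt_of_le_of_ne h2 fun he => hS.1 ?_
        rw [he, inf_eq_left.2 hST] at h4
        exact h4
      have h5 := ih _ (hn ▸ card_lt hlt) S' h1 rfl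
      have h6 := hs S S' hS h1 h4 (card_sup h4) h5
      rwa [h3] at h6

/-- a submodule `W` containing all simple submodules of the invariant submodule `T` contains `T` -/
theorem le_of_simple_le (R : Subgroup G) (hq : q.Coprime (Nat.card R))
    (T W : Submodule (ZMod q) X) (hT : Inv ρ R T) (h : ∀ S ≤ T, SimpleSub ρ R S → S ≤ W) :
    T ≤ W := by
  refine inv_induction ρ R hq (fun T' => T' ≤ T → T' ≤ W) (fun _ => bot_le) ?_ T hT le_rfl
  intro S T' hS _ _ _ hP hle
  exact sup_le (h S (le_sup_left.trans hle) hS) (hP (le_sup_right.trans hle))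

/-- Schur: a nonzero `R`-homomorphism from a simple `S` to a simple `T` is bijective onto `T`. -/
theorem schur (R : Subgroup G) (S T : Submodule (ZMod q) X) (hS : SimpleSub ρ R S)
    (hT : SimpleSub ρ R T) (φ : S →ₗ[ZMod q] X) (hφ : φ ∈ RHom ρ R S T) (h0 : φ ≠ 0) :
    Function.Injective φ ∧ LinearMap.range φ = T := by
  constructor
  · rw [← LinearMap.ker_eq_bot]
    rcases hS.2.2 ((LinearMap.ker φ).map S.subtype) (Submodule.map_subtype_le S _) (by
      rintro r hr _ ⟨x, hx, rfl⟩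
      have hx' : φ x = 0 := hx
      refine ⟨⟨ρ r x, hS.2.1 r hr x x.2⟩, ?_, rfl⟩
      change φ _ = 0
      rw [hφ.2 r hr x x.2, hx', map_zero]) with h | h
    · rw [eq_bot_iff]
      intro x hx
      have h1 : (x : X) ∈ (LinearMap.ker φ).map S.subtype := ⟨x, hx, rfl⟩
      rw [h, Submodule.mem_bot] at h1
      exact (Submodule.mem_bot _).2 (Subtype.ext h1)
    · exfalso
      apply h0
      ext x
      have h1 : (x : X) ∈ (LinearMap.ker φ).map S.subtype := by rw [h]; exact x.2
      obtain ⟨y, hy, hyx⟩ := h1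
      have h2 : y = x := Subtype.ext hyx
      rw [← h2]
      exact hy
  · rcases hT.2.2 (LinearMap.range φ) (by
      rintro _ ⟨x, rfl⟩
      exact hφ.1 x) (by
      rintro r hr _ ⟨x, rfl⟩
      exact ⟨⟨ρ r x, hS.2.1 r hr x x.2⟩, hφ.2 r hr x x.2 _⟩) with h | h
    · exact absurd (LinearMap.range_eq_bot.1 h) h0
    · exact h

/-- `X = C_X(H) ⊕ [X,H]` for coprime `H`, also inside an `H`-invariant submodule -/
theorem fix_mov_compl (H : Subgroup G) (hq : q.Coprime (Nat.card H)) :
    IsCompl (fixS ρ H) (movS ρ H) := by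
  classical
  have := Fintype.ofFinite H
  set c : ZMod q := ((Nat.card H : ℕ) : ZMod q) with hc
  have hc0 : c ≠ 0 := card_ne H hq
  set e : X →ₗ[ZMod q] X := c⁻¹ • ∑ r : H, ρ (r : G) with he
  have hex : ∀ x, e x = c⁻¹ • ∑ r : H, ρ (r : G) x := by
    intro x
    rw [he, LinearMap.smul_apply, LinearMap.sum_apply]
  have hcard : ∀ x : X, c⁻¹ • ∑ _r : H, x = x := by
    intro x
    rw [Finset.sum_const, Finset.card_univ, ← Nat.card_eq_fintype_card,
      ← Nat.cast_smul_eq_nsmul (ZMod q), smul_smul, inv_mul_cancel₀ hc0, one_smul]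
  have h1 : ∀ x, e x ∈ fixS ρ H := by
    intro x h hh
    rw [hex, map_smul, map_sum]
    congr 1
    refine Fintype.sum_equiv (Equiv.mulLeft (⟨h, hh⟩ : H)) _ _ fun r => ?_
    have h2 : (((Equiv.mulLeft (⟨h, hh⟩ : H)) r : H) : G) = h * r := rfl
    rw [h2, rho_mul]
  have h2 : ∀ x, x - e x ∈ movS ρ H := by
    intro x
    have h3 : x - e x = -(c⁻¹ • ∑ r : H, (ρ (r : G) x - x)) := by
      rw [Finset.sum_sub_distrib, smul_sub, hcard, ← hex]
      abel
    rw [h3]
    refine Submodule.neg_mem _ (Submodule.smul_mem _ _ (Submodule.sum_mem _ fun r _ => ?_))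
    exact Submodule.subset_span ⟨r, r.2, x, rfl⟩
  have h3 : ∀ x ∈ fixS ρ H, e x = x := by
    intro x hx
    rw [hex, Finset.sum_congr rfl (fun (r : H) _ => hx (r : G) r.2), hcard]
  have h4 : movS ρ H ≤ LinearMap.ker e := by
    rw [movS, Submodule.span_le]
    rintro _ ⟨h, hh, v, rfl⟩
    change e _ = 0
    rw [map_sub, sub_eq_zero, hex, hex]
    congr 1
    refine Fintype.sum_equiv (Equiv.mulRight (⟨h, hh⟩ : H)) _ _ fun r => ?_
    have h2 : (((Equiv.mulRight (⟨h, hh⟩ : H)) r : H) : G) = r * h := rfl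
    rw [h2, rho_mul]
  constructor
  · rw [Submodule.disjoint_def]
    intro x hx hx'
    have h5 : e x = 0 := h4 hx'
    rw [← h3 x hx, h5]
  · rw [codisjoint_iff, eq_top_iff]
    intro x _
    rw [Submodule.mem_sup]
    exact ⟨e x, h1 x, x - e x, h2 x, by abel⟩

/-- `card X = card C_X(H) * card [X,H]` -/
theorem card_fix_mul_mov (H : Subgroup G) (hq : q.Coprime (Nat.card H)) :
    Nat.card (fixS ρ H) * Nat.card (movS ρ H) = Nat.card X := by
  have h := fix_mov_compl ρ H hq
  rw [← card_sup h.inf_eq_bot, h.sup_eq_top]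
  exact Nat.card_congr (Submodule.topEquiv (R := ZMod q) (M := X)).toEquiv

omit [Finite G] [Finite X] in
private theorem inv_fix (N R' : Subgroup G) (hN : N ≤ Nrm R') : Inv ρ N (fixS ρ R') := by
  intro n hn x hx h hh
  have h1 : n⁻¹ * h * n ∈ R' := (Subgroup.mem_normalizer_iff''.1 (hN hn) h).1 hh
  rw [← rho_mul, show h * n = n * (n⁻¹ * h * n) by group, rho_mul, hx _ h1]

/-- If `S` is simple, `S' = C_S(R')` for `R' ≤ R` normalised by `R`, then `S' = 0` or `R'` acts
trivially on `S`. -/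
theorem simple_fix (R R' : Subgroup G) (hR : R ≤ Nrm R') (S : Submodule (ZMod q) X)
    (hS : SimpleSub ρ R S) : S ⊓ fixS ρ R' = ⊥ ∨ S ≤ fixS ρ R' := by
  rcases hS.2.2 (S ⊓ fixS ρ R') inf_le_left (by
    intro r hr x hx
    exact ⟨hS.2.1 r hr x hx.1, inv_fix ρ R R' hR r hr x hx.2⟩) with h | h
  · exact Or.inl h
  · exact Or.inr (inf_eq_left.1 h)

/-- `[X,R']` is `N`-invariant if `N` normalises `R'`; so is `C_X(R')`. -/
theorem inv_mov (N R' : Subgroup G) (hN : N ≤ Nrm R') :
    Inv ρ N (movS ρ R') ∧ Inv ρ N (fixS ρ R') := by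
  refine ⟨?_, inv_fix ρ N R' hN⟩
  intro n hn x hx
  have h1 : movS ρ R' ≤ (movS ρ R').comap (ρ n) := by
    conv_lhs => rw [movS]
    rw [Submodule.span_le]
    rintro _ ⟨h, hh, v, rfl⟩
    have h2 : n * h * n⁻¹ ∈ R' := (Subgroup.mem_normalizer_iff.1 (hN hn) h).1 hh
    change ρ n (ρ h v - v) ∈ movS ρ R'
    refine Submodule.subset_span ⟨n * h * n⁻¹, h2, ρ n v, ?_⟩
    rw [map_sub, ← rho_mul, ← rho_mul, show n * h * n⁻¹ * n = n * h by group]
  exact h1 hx

/-- `[X, ⟨H_i⟩] ≤ ∑ [X, H_i]` -/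
theorem movS_iSup_le {ι : Type*} (H : ι → Subgroup G) :
    movS ρ (⨆ i, H i) ≤ ⨆ i, movS ρ (H i) := by
  conv_lhs => rw [movS]
  rw [Submodule.span_le]
  rintro _ ⟨h, hh, v, rfl⟩
  refine Subgroup.iSup_induction H (C := fun h => ∀ v, ρ h v - v ∈ ⨆ i, movS ρ (H i)) hh
    ?_ ?_ ?_ v
  · intro i x hx v
    exact le_iSup (fun i => movS ρ (H i)) i (Submodule.subset_span ⟨x, hx, v, rfl⟩)
  · intro v
    rw [map_one, Module.End.one_apply, sub_self]
    exact Submodule.zero_mem _
  · intro a b ha hb v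
    have h1 : ρ (a * b) v - v = (ρ a (ρ b v) - ρ b v) + (ρ b v - v) := by
      rw [rho_mul]; abel
    rw [h1]
    exact Submodule.add_mem _ (ha _) (hb v)

end FT
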