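import Mathlib
import Pool.Agent.helper11.FT.Defs
import Pool.Agent.helper11.FT.Semi

/-! # FT-Big: simple modules of class two groups -/

namespace FT

universe u v

open scoped commutatorElement

private theorem big_exists_field (D : Type v) [Ring D] [IsDomain D] [Finite D] :
    ∃ (K : Type v) (_ : Field K), Nonempty (K ≃+* D) := by
  have h := Finite.isDomain_to_isField D
  exact ⟨D, h.toField, ⟨RingEquiv.refl D⟩⟩

private theorem big_li_aux {Γ : Type u} [Group Γ] {K : Type v} [Field K] {V : Type v}
    [AddCommGroup V] [Module K V] [Nontrivial V] (T : Γ →* Module.End K V)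
    (hsc : ∀ x y : Γ, ∃ c : K, T y * T x = c • (T x * T y)) (s : Finset Γ) :
    (∀ x ∈ s, ∀ y ∈ s, x ≠ y → ∃ z, T (x * y⁻¹) * T z ≠ T z * T (x * y⁻¹)) →
    ∀ g : Γ → K, ∑ t ∈ s, g t • T t = 0 → ∀ t ∈ s, g t = 0 := by
  classical
  choose ψ hψ using hsc
  induction s using Finset.induction_on with
  | empty =>
    intro _ g _ t ht
    simp at ht
  | insert a s ha ih =>
    intro hs g hg
    have hs' : ∀ x ∈ s, ∀ y ∈ s, x ≠ y → ∃ z, T (x * y⁻¹) * T z ≠ T z * T (x * y⁻¹) :=
      fun x hx y hy => hs x (Finset.mem_insert_of_mem hx) y (Finset.mem_insert_of_mem hy)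
    have key : ∀ y, ∀ t ∈ s, g t * (ψ t y - ψ a y) = 0 := by
      intro y
      apply ih hs'
      have h1 : (∑ t ∈ insert a s, (g t * ψ t y) • T t) * T y = 0 := by
        rw [Finset.sum_mul]
        have h0 : T y * (∑ t ∈ insert a s, g t • T t) = 0 := by rw [hg, mul_zero]
        rw [Finset.mul_sum] at h0
        rw [← h0]
        apply Finset.sum_congr rfl
        intro t _
        rw [mul_smul_comm, hψ, smul_mul_assoc, smul_smul]
      have h2 : (∑ t ∈ insert a s, (g t * ψ t y) • T t) = 0 := by
        have h0 := congrArg (fun w => w * T y⁻¹) h1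
        simp only [mul_assoc, ← map_mul, mul_inv_cancel, map_one, mul_one, zero_mul] at h0
        exact h0
      have h3 : ψ a y • (∑ t ∈ insert a s, g t • T t) = 0 := by rw [hg, smul_zero]
      rw [Finset.sum_insert ha] at h2
      rw [Finset.sum_insert ha, smul_add, Finset.smul_sum, smul_smul, mul_comm (ψ a y)] at h3
      have h4 := h2.trans h3.symm
      have h5 := add_left_cancel h4
      rw [← sub_eq_zero, ← Finset.sum_sub_distrib] at h5
      rw [← h5]
      apply Finset.sum_congr rfl
      intro t _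
      rw [mul_sub, sub_smul, smul_smul, mul_comm (ψ a y)]
    have hz : ∀ t ∈ s, g t = 0 := by
      intro t ht
      by_contra hgt
      have hψt : ∀ y, ψ t y = ψ a y := by
        intro y
        have h := key y t ht
        rcases mul_eq_zero.1 h with h | h
        · exact absurd h hgt
        · exact sub_eq_zero.1 h
      obtain ⟨z, hz⟩ := hs t (Finset.mem_insert_of_mem ht) a (Finset.mem_insert_self a s)
        (fun h => ha (h ▸ ht))
      apply hz
      have h1 : T a⁻¹ * T z = ψ a z • (T z * T a⁻¹) := by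
        have h0 := congrArg (fun w => T a⁻¹ * w * T a⁻¹) (hψ a z)
        simp only [mul_smul_comm, smul_mul_assoc] at h0
        rw [← mul_assoc (T a⁻¹) (T a) (T z), ← map_mul T a⁻¹ a, inv_mul_cancel, map_one,
          one_mul, mul_assoc (T a⁻¹), mul_assoc (T z), ← map_mul T a a⁻¹, mul_inv_cancel,
          map_one, mul_one] at h0
        exact h0
      rw [map_mul, mul_assoc, h1, mul_smul_comm, ← mul_assoc, ← smul_mul_assoc, ← hψt z, ← hψ t z,
        mul_assoc]
    intro t ht
    rcases Finset.mem_insert.1 ht with rfl | ht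
    · rw [Finset.sum_insert ha, Finset.sum_eq_zero (fun x hx => by rw [hz x hx, zero_smul]),
        add_zero] at hg
      have h0 := congrArg (fun w => w * T t⁻¹) hg
      simp only [smul_mul_assoc, ← map_mul, mul_inv_cancel, map_one, zero_mul] at h0
      rcases smul_eq_zero.1 h0 with h | h
      · exact h
      · exact absurd h one_ne_zero
    · exact hz t ht

private theorem big_li_card {Γ : Type u} [Group Γ] {K : Type v} [Field K] {V : Type v}
    [AddCommGroup V] [Module K V] [Nontrivial V] [FiniteDimensional K V]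
    (T : Γ →* Module.End K V)
    (hsc : ∀ x y : Γ, ∃ c : K, T y * T x = c • (T x * T y)) (s : Finset Γ)
    (hs : ∀ x ∈ s, ∀ y ∈ s, x ≠ y → ∃ z, T (x * y⁻¹) * T z ≠ T z * T (x * y⁻¹)) :
    s.card ≤ (Module.finrank K V) ^ 2 := by
  classical
  have hli : LinearIndepOn K (fun t : Γ => T t) (s : Set Γ) := by
    rw [linearIndepOn_finset_iff]
    intro g hg t ht
    exact big_li_aux T hsc s hs g hg t ht
  have h1 := LinearIndependent.fintype_card_le_finrank hli
  rw [Module.finrank_linearMap] at h1
  simpa [sq] using h1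

/-- Simple module `S` over `F_q` of a group `R` such that all commutators act on `S` as
`R`-endomorphisms. `radS` = elements of `R` acting as `R`-endomorphisms of `S`. -/
def radS {G : Type u} [Group G] {q : ℕ} [Fact q.Prime] {X : Type v} [AddCommGroup X]
    [Module (ZMod q) X] (ρ : Representation (ZMod q) G X) (R : Subgroup G)
    (S : Submodule (ZMod q) X) : Set G :=
  {x | x ∈ R ∧ ∀ y ∈ R, ∀ v ∈ S, ρ ⁅x, y⁆ v = v}

/-- the action of `R` on an invariant submodule -/
private def bigRes {G : Type u} [Group G] {q : ℕ} [Fact q.Prime] {X : Type v} [AddCommGroup X]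
    [Module (ZMod q) X] (ρ : Representation (ZMod q) G X) (R : Subgroup G)
    (S : Submodule (ZMod q) X) (hinv : ∀ r ∈ R, ∀ x ∈ S, ρ r x ∈ S) :
    R →* Module.End (ZMod q) S where
  toFun r := (ρ (r : G)).restrict (fun x hx => hinv r r.2 x hx)
  map_one' := by
    ext x
    simp
  map_mul' a b := by
    ext x
    simp

private theorem bigRes_apply {G : Type u} [Group G] {q : ℕ} [Fact q.Prime] {X : Type v}
    [AddCommGroup X] [Module (ZMod q) X] (ρ : Representation (ZMod q) G X) (R : Subgroup G)
    (S : Submodule (ZMod q) X) (hinv : ∀ r ∈ R, ∀ x ∈ S, ρ r x ∈ S) (r : R) (x : S) :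
    ((bigRes ρ R S hinv r x : S) : X) = ρ (r : G) (x : X) := rfl

/-- the commutant -/
private abbrev bigD {G : Type u} [Group G] {q : ℕ} [Fact q.Prime] {X : Type v} [AddCommGroup X]
    [Module (ZMod q) X] (ρ : Representation (ZMod q) G X) (R : Subgroup G)
    (S : Submodule (ZMod q) X) (hinv : ∀ r ∈ R, ∀ x ∈ S, ρ r x ∈ S) :
    Subring (Module.End (ZMod q) S) :=
  Subring.centralizer (Set.range (bigRes ρ R S hinv))

private theorem big_mem_D {G : Type u} [Group G] {q : ℕ} [Fact q.Prime] {X : Type v}
    [AddCommGroup X] [Module (ZMod q) X] (ρ : Representation (ZMod q) G X) (R : Subgroup G)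
    (S : Submodule (ZMod q) X) (hinv : ∀ r ∈ R, ∀ x ∈ S, ρ r x ∈ S)
    (d : Module.End (ZMod q) S) : d ∈ bigD ρ R S hinv ↔
      ∀ r : R, bigRes ρ R S hinv r * d = d * bigRes ρ R S hinv r := by
  rw [Subring.mem_centralizer_iff]
  exact Set.forall_mem_range

private theorem big_mem_RHom {G : Type u} [Group G] {q : ℕ} [Fact q.Prime] {X : Type v}
    [AddCommGroup X] [Module (ZMod q) X] (ρ : Representation (ZMod q) G X) (R : Subgroup G)
    (S : Submodule (ZMod q) X) (hinv : ∀ r ∈ R, ∀ x ∈ S, ρ r x ∈ S)
    (d : Module.End (ZMod q) S) (hd : d ∈ bigD ρ R S hinv) : S.subtype ∘ₗ d ∈ RHom ρ R S S := by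
  rw [big_mem_D] at hd
  refine ⟨fun x => (d x).2, fun r hr x hx hx' => ?_⟩
  have h := congrArg (fun w : Module.End (ZMod q) S => ((w ⟨x, hx⟩ : S) : X)) (hd ⟨r, hr⟩)
  exact h.symm

/-- the commutant is the space of endomorphisms -/
private def bigEquiv {G : Type u} [Group G] {q : ℕ} [Fact q.Prime] {X : Type v}
    [AddCommGroup X] [Module (ZMod q) X] (ρ : Representation (ZMod q) G X) (R : Subgroup G)
    (S : Submodule (ZMod q) X) (hinv : ∀ r ∈ R, ∀ x ∈ S, ρ r x ∈ S) :
    bigD ρ R S hinv ≃ RHom ρ R S S where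
  toFun d := ⟨S.subtype ∘ₗ (d : Module.End (ZMod q) S), big_mem_RHom ρ R S hinv d d.2⟩
  invFun φ := ⟨(φ : S →ₗ[ZMod q] X).codRestrict S φ.2.1, by
    rw [big_mem_D]
    intro r
    ext x
    exact (φ.2.2 r r.2 x x.2 (hinv r r.2 x x.2)).symm⟩
  left_inv d := by
    ext x
    rfl
  right_inv φ := by
    ext x
    rfl

private theorem big_domain {G : Type u} [Group G] [Finite G] {q : ℕ} [Fact q.Prime] {X : Type v}
    [AddCommGroup X] [Module (ZMod q) X] [Finite X] (ρ : Representation (ZMod q) G X)
    (R : Subgroup G) (S : Submodule (ZMod q) X) (hS : SimpleSub ρ R S) :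
    IsDomain (bigD ρ R S hS.2.1) := by
  have hnt : Nontrivial S := (Submodule.nontrivial_iff_ne_bot).2 hS.1
  have hnz : NoZeroDivisors (bigD ρ R S hS.2.1) := by
    refine ⟨fun {a b} hab => ?_⟩
    by_contra hcon
    push Not at hcon
    obtain ⟨ha, hb⟩ := hcon
    have ha' : S.subtype ∘ₗ (a : Module.End (ZMod q) S) ≠ 0 := by
      intro h0
      apply ha
      ext x
      have := congrArg (fun w : S →ₗ[ZMod q] X => w x) h0
      exact this
    obtain ⟨hinj, -⟩ := schur ρ R S S hS hS _ (big_mem_RHom ρ R S hS.2.1 a a.2) ha'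
    apply hb
    ext x
    have h1 : (a : Module.End (ZMod q) S) ((b : Module.End (ZMod q) S) x) = 0 := by
      have := congrArg (fun w : bigD ρ R S hS.2.1 => (w : Module.End (ZMod q) S) x) hab
      exact this
    have h2 : (b : Module.End (ZMod q) S) x = 0 := by
      apply hinj
      simp [h1]
    rw [h2]
    rfl
  exact NoZeroDivisors.to_isDomain _

/-- PROOF. `F = RHom ρ R S S` (endomorphisms of `S` commuting with `R`) is a finite division ring by
Schur (`schur`), hence a field (Mathlib: little Wedderburn); `f = |F| ≥ 2`. `S` is an `F`-vector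
space, `n = dim_F S`, `|S| = f^n`. `x ∈ radS` iff `ρ x` restricted to `S` is in `F`. So
`radS / cenSub ρ R S` embeds into `F \ {0}`: `|radS| ≤ f |cenSub ρ R S|`, and if some commutator
or some element `z ∈ radS` acts nontrivially on `S` then `f ≥ 3`: `F` has an element `≠ 0, 1`.
LINEAR INDEPENDENCE: let `t_1,...,t_s ∈ R` be in pairwise different cosets of `radS`; then the
operators `ρ t_i` on `S` are linearly independent over `F` in `End_F(S)`: take a shortest relation
`∑ c_i ρ(t_i) = 0` with all `c_i ≠ 0` (so at least two terms), conjugate by `y ∈ R`: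
`y t_i y⁻¹ = ⁅y,t_i⁆ t_i`, where `⁅y,t_i⁆` acts as a scalar `ψ_i(y) ∈ F`; choose `y` with
`ψ_1(y) ≠ ψ_2(y)` (possible as `t_1 t_2⁻¹ ∉ radS`, using that commutators are central on `S`) and
subtract: shorter relation. As `|End_F(S)| = f^(n^2)` and the `F`-combinations give `f^s`
different elements, `s ≤ n^2`; so `|R| ≤ n^2 |radS|`. -/
theorem big_simple {G : Type u} [Group G] [Finite G] {q : ℕ} [Fact q.Prime] {X : Type v}
    [AddCommGroup X] [Module (ZMod q) X] [Finite X] (ρ : Representation (ZMod q) G X)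
    (R : Subgroup G) (S : Submodule (ZMod q) X) (hS : SimpleSub ρ R S)
    (hcl : ∀ x ∈ R, ∀ y ∈ R, ∀ z ∈ R, ∀ v ∈ S, ρ ⁅⁅x, y⁆, z⁆ v = v) :
    ∃ n f : ℕ, 2 ≤ f ∧ Nat.card (RHom ρ R S S) = f ∧ Nat.card S = f ^ n ∧
      Nat.card R ≤ n ^ 2 * Nat.card (radS ρ R S) ∧
      (cenSub ρ R S).relIndex R ≤ n ^ 2 * f ∧
      ((∃ z ∈ radS ρ R S, ∃ v ∈ S, ρ z v ≠ v) → 3 ≤ f) := by
  classical
  have hinv := hS.2.1
  have hnt : Nontrivial S := (Submodule.nontrivial_iff_ne_bot).2 hS.1
  have hdom : IsDomain (bigD ρ R S hinv) := big_domain ρ R S hS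
  have hfinEnd : Finite (Module.End (ZMod q) S) := by
    refine Finite.of_injective (fun (w : Module.End (ZMod q) S) => (w : S → S)) ?_
    exact DFunLike.coe_injective
  obtain ⟨K, fK, ⟨e⟩⟩ := big_exists_field (bigD ρ R S hinv)
  have hfinK : Finite K := Finite.of_equiv _ e.symm.toEquiv
  let ι : K →+* Module.End (ZMod q) S := (bigD ρ R S hinv).subtype.comp (e : K →+* bigD ρ R S hinv)
  have hιD : ∀ (k : K) (r : R), bigRes ρ R S hinv r * ι k = ι k * bigRes ρ R S hinv r :=
    fun k => (big_mem_D ρ R S hinv _).1 (e k).2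
  have hιsurj : ∀ w : Module.End (ZMod q) S,
      (∀ r : R, bigRes ρ R S hinv r * w = w * bigRes ρ R S hinv r) → ∃ k : K, ι k = w := by
    intro w hw
    refine ⟨e.symm ⟨w, (big_mem_D ρ R S hinv w).2 hw⟩, ?_⟩
    simp [ι]
  let mK : Module K S := Module.compHom S ι
  have hsm : ∀ (k : K) (x : S), k • x = ι k x := fun k x => rfl
  let T : R →* Module.End K S :=
    { toFun := fun r =>
        { toFun := fun x => bigRes ρ R S hinv r x
          map_add' := fun x y => map_add _ x y
          map_smul' := fun k x => by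
            have h := congrArg (fun w : Module.End (ZMod q) S => w x) (hιD k r)
            exact h }
      map_one' := by
        ext x
        simp
      map_mul' := fun a b => by
        ext x
        simp }
  have hT : ∀ (r : R) (x : S), T r x = bigRes ρ R S hinv r x := fun r x => rfl
  -- commutation in terms of `bigRes`
  have hTcomm : ∀ a b : R, T a * T b = T b * T a ↔
      bigRes ρ R S hinv a * bigRes ρ R S hinv b = bigRes ρ R S hinv b * bigRes ρ R S hinv a := by
    intro a b
    constructor
    · intro h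
      ext x
      have := congrArg (fun w : Module.End K S => ((w x : S) : X)) h
      exact this
    · intro h
      ext x
      have := congrArg (fun w : Module.End (ZMod q) S => ((w x : S) : X)) h
      exact this
  -- commutators
  have hcom1 : ∀ a b : R, bigRes ρ R S hinv ⁅a, b⁆ = 1 ↔
      bigRes ρ R S hinv a * bigRes ρ R S hinv b = bigRes ρ R S hinv b * bigRes ρ R S hinv a := by
    intro a b
    have h1 : bigRes ρ R S hinv ⁅a, b⁆ * (bigRes ρ R S hinv b * bigRes ρ R S hinv a) =
        bigRes ρ R S hinv a * bigRes ρ R S hinv b := by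
      rw [← map_mul, ← map_mul, ← map_mul]
      congr 1
      rw [commutatorElement_def]
      group
    constructor
    · intro h
      rw [h, one_mul] at h1
      exact h1.symm
    · intro h
      rw [h] at h1
      have h2 := congrArg (fun w => w * (bigRes ρ R S hinv (a⁻¹ * b⁻¹))) h1
      simp only [mul_assoc, ← map_mul] at h2
      rw [show ⁅a, b⁆ * (b * (a * (a⁻¹ * b⁻¹))) = ⁅a, b⁆ by group,
        show b * (a * (a⁻¹ * b⁻¹)) = 1 by group, map_one] at h2
      exact h2
  have hone : ∀ a : R, bigRes ρ R S hinv a = 1 ↔ ∀ v ∈ S, ρ (a : G) v = v := by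
    intro a
    constructor
    · intro h v hv
      have := congrArg (fun w : Module.End (ZMod q) S => ((w ⟨v, hv⟩ : S) : X)) h
      exact this
    · intro h
      ext x
      exact h x x.2
  have hradS : ∀ a : R, (a : G) ∈ radS ρ R S ↔ ∀ b : R, 
      bigRes ρ R S hinv a * bigRes ρ R S hinv b = bigRes ρ R S hinv b * bigRes ρ R S hinv a := by
    intro a
    constructor
    · intro h b
      rw [← hcom1, hone]
      exact h.2 b b.2
    · intro h
      refine ⟨a.2, fun y hy => ?_⟩
      exact (hone ⁅a, ⟨y, hy⟩⁆).1 ((hcom1 a ⟨y, hy⟩).2 (h ⟨y, hy⟩))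
  -- scalars
  have hsc : ∀ x y : R, ∃ c : K, T y * T x = c • (T x * T y) := by
    intro x y
    have hc : ∀ r : R, bigRes ρ R S hinv r * bigRes ρ R S hinv ⁅y, x⁆ =
        bigRes ρ R S hinv ⁅y, x⁆ * bigRes ρ R S hinv r := by
      intro r
      refine ((hcom1 ⁅y, x⁆ r).1 ?_).symm
      rw [hone]
      exact hcl y y.2 x x.2 r r.2
    obtain ⟨c, hc⟩ := hιsurj _ hc
    refine ⟨c, ?_⟩
    have h1 : bigRes ρ R S hinv y * bigRes ρ R S hinv x =
        bigRes ρ R S hinv ⁅y, x⁆ * (bigRes ρ R S hinv x * bigRes ρ R S hinv y) := by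
      rw [← map_mul, ← map_mul, ← map_mul]
      congr 1
      rw [commutatorElement_def]
      group
    rw [← hc] at h1
    ext v
    have := congrArg (fun w : Module.End (ZMod q) S => ((w v : S) : X)) h1
    exact this
  let Z : Subgroup R :=
    { carrier := {x | ∀ y, T x * T y = T y * T x}
      one_mem' := fun y => by simp
      mul_mem' := by
        intro a b ha hb y
        rw [map_mul, mul_assoc, hb y, ← mul_assoc, ha y, mul_assoc]
      inv_mem' := by
        intro a ha y
        have e1 : T a⁻¹ * T a = 1 := by rw [← map_mul, inv_mul_cancel, map_one]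
        have e2 : T a * T a⁻¹ = 1 := by rw [← map_mul, mul_inv_cancel, map_one]
        calc T a⁻¹ * T y = T a⁻¹ * T y * (T a * T a⁻¹) := by rw [e2, mul_one]
          _ = T a⁻¹ * (T y * T a) * T a⁻¹ := by simp only [mul_assoc]
          _ = T a⁻¹ * (T a * T y) * T a⁻¹ := by rw [ha y]
          _ = (T a⁻¹ * T a) * (T y * T a⁻¹) := by simp only [mul_assoc]
          _ = T y * T a⁻¹ := by rw [e1, one_mul] }
  have hZ : ∀ x : R, x ∈ Z ↔ ∀ y, T x * T y = T y * T x := fun x => Iff.rfl
  have hZrad : ∀ x : R, x ∈ Z ↔ (x : G) ∈ radS ρ R S := by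
    intro x
    rw [hZ, hradS]
    exact forall_congr' fun y => hTcomm x y
  have hcardZ : Nat.card Z = Nat.card (radS ρ R S) := by
    refine Nat.card_congr
      { toFun := fun x => ⟨(x : R), (hZrad x).1 x.2⟩
        invFun := fun x => ⟨⟨(x : G), x.2.1⟩, (hZrad ⟨(x : G), x.2.1⟩).2 x.2⟩
        left_inv := fun x => rfl
        right_inv := fun x => rfl }
  -- index
  have hidx : Z.index ≤ (Module.finrank K S) ^ 2 := by
    have : Fintype (R ⧸ Z) := Fintype.ofFinite _
    set s : Finset R := Finset.univ.image (fun c : R ⧸ Z => (Quotient.out c)⁻¹) with hs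
    have hinj : Function.Injective (fun c : R ⧸ Z => (Quotient.out c)⁻¹) := by
      intro c d hcd
      have h1 : Quotient.out c = Quotient.out d := inv_injective hcd
      rw [← Quotient.out_eq' c, ← Quotient.out_eq' d, h1]
    have hcard : s.card = Z.index := by
      rw [hs, Finset.card_image_of_injective _ hinj, Finset.card_univ, Subgroup.index,
        Nat.card_eq_fintype_card]
    rw [← hcard]
    apply big_li_card T hsc
    intro x hx y hy hxy
    rw [hs, Finset.mem_image] at hx hy
    obtain ⟨c, -, rfl⟩ := hx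
    obtain ⟨d, -, rfl⟩ := hy
    by_contra hcon
    push Not at hcon
    have h1 : (Quotient.out c)⁻¹ * Quotient.out d ∈ Z := by
      rw [hZ]
      simpa using hcon
    rw [← QuotientGroup.eq] at h1
    apply hxy
    have h2 : c = d := by
      rw [← Quotient.out_eq' c, ← Quotient.out_eq' d]
      exact h1
    rw [h2]
  have hcardR : Nat.card R = Z.index * Nat.card Z := (Subgroup.index_mul_card Z).symm
  -- cardinality of the field
  have hcardK : Nat.card (RHom ρ R S S) = Nat.card K := by
    rw [← Nat.card_congr (bigEquiv ρ R S hinv)]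
    exact Nat.card_congr e.symm.toEquiv
  -- kernel
  set N : Subgroup R := (cenSub ρ R S).subgroupOf R with hN
  have hNmem : ∀ x : R, x ∈ N ↔ bigRes ρ R S hinv x = 1 := by
    intro x
    rw [hN, Subgroup.mem_subgroupOf, hone]
    constructor
    · intro h
      exact h.2
    · intro h
      exact ⟨x.2, h⟩
  have hNZ : N ≤ Z := by
    intro x hx
    rw [hNmem] at hx
    rw [hZ]
    intro y
    rw [hTcomm, hx, one_mul, mul_one]
  have hrel : N.relIndex Z ≤ Nat.card K := by
    let U : Z →* (Module.End (ZMod q) S)ˣ := (MonoidHom.toHomUnits (bigRes ρ R S hinv)).comp Z.subtype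
    have hker : N.subgroupOf Z = U.ker := by
      ext x
      rw [Subgroup.mem_subgroupOf, hNmem, MonoidHom.mem_ker, Units.ext_iff]
      rfl
    rw [Subgroup.relIndex, hker, Subgroup.index_ker]
    have hval : ∀ u : U.range, ∃ k : K, ι k = ((u : (Module.End (ZMod q) S)ˣ) : Module.End (ZMod q) S) := by
      rintro ⟨u, ⟨z, rfl⟩⟩
      apply hιsurj
      intro r
      exact ((hTcomm r z).1 (z.2 r).symm)
    choose κ hκ using hval
    refine Nat.card_le_card_of_injective κ ?_
    intro u v huv
    apply Subtype.ext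
    apply Units.ext
    rw [← hκ u, ← hκ v, huv]
  have hn : Nat.card S = Nat.card K ^ (Module.finrank K S) := Module.natCard_eq_pow_finrank
  have h2 : 2 ≤ Nat.card K := by
    have : 1 < Nat.card K := Finite.one_lt_card
    omega
  refine ⟨Module.finrank K S, Nat.card K, h2, hcardK, hn, ?_, ?_, ?_⟩
  · rw [hcardR, ← hcardZ]
    exact Nat.mul_le_mul_right _ hidx
  · have h3 : N.relIndex Z * Z.index = N.index := Subgroup.relIndex_mul_index hNZ
    change N.index ≤ _
    rw [← h3, mul_comm]
    exact Nat.mul_le_mul hidx hrel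
  · rintro ⟨z, hz, v, hv, hzv⟩
    have hzR : z ∈ R := hz.1
    obtain ⟨k, hk⟩ := hιsurj (bigRes ρ R S hinv ⟨z, hzR⟩)
      (fun r => ((hradS ⟨z, hzR⟩).1 hz r).symm)
    have hk1 : k ≠ 1 := by
      intro h
      rw [h, map_one] at hk
      exact hzv ((hone ⟨z, hzR⟩).1 hk.symm v hv)
    have hk0 : k ≠ 0 := by
      intro h
      rw [h, map_zero] at hk
      have h5 := congrArg (fun w => w * bigRes ρ R S hinv (⟨z, hzR⟩⁻¹)) hk
      simp only [zero_mul, ← map_mul, mul_inv_cancel, map_one] at h5
      exact zero_ne_one h5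
    have : Fintype K := Fintype.ofFinite K
    rw [Nat.card_eq_fintype_card, ← Finset.card_univ]
    have h6 : ({0, 1, k} : Finset K).card = 3 := by
      rw [Finset.card_insert_of_notMem, Finset.card_insert_of_notMem, Finset.card_singleton]
      · simpa using hk1.symm
      · simp only [Finset.mem_insert, Finset.mem_singleton, not_or]
        exact ⟨zero_ne_one, hk0.symm⟩
    rw [← h6]
    exact Finset.card_le_card (Finset.subset_univ _)

end FT
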