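import Mathlib
import Pool.Agent.helper11.FT.Defs
import Pool.Agent.helper11.FT.Semi

/-! # FT-Big2: central elementary abelian subgroups act on a simple module through `C_p` -/

namespace FT

universe u v

open scoped commutatorElement

private theorem b2_exists_field (D : Type v) [Ring D] [IsDomain D] [Finite D] :
    ∃ (K : Type v) (_ : Field K), Nonempty (K ≃+* D) := by
  have h := Finite.isDomain_to_isField D
  exact ⟨D, h.toField, ⟨RingEquiv.refl D⟩⟩

section Aux

variable {G : Type u} [Group G] {q : ℕ} [Fact q.Prime] {X : Type v} [AddCommGroup X]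
  [Module (ZMod q) X] (ρ : Representation (ZMod q) G X) (R : Subgroup G)
  (S : Submodule (ZMod q) X)

/-- the action of `R` on an invariant submodule -/
private def b2Res (hinv : ∀ r ∈ R, ∀ x ∈ S, ρ r x ∈ S) :
    R →* Module.End (ZMod q) S where
  toFun r := (ρ (r : G)).restrict (fun x hx => hinv r r.2 x hx)
  map_one' := by
    ext x
    simp
  map_mul' a b := by
    ext x
    simp

private theorem b2Res_apply (hinv : ∀ r ∈ R, ∀ x ∈ S, ρ r x ∈ S) (r : R) (x : S) :
    ((b2Res ρ R S hinv r x : S) : X) = ρ (r : G) (x : X) := rfl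

/-- the commutant -/
private abbrev b2D (hinv : ∀ r ∈ R, ∀ x ∈ S, ρ r x ∈ S) :
    Subring (Module.End (ZMod q) S) :=
  Subring.centralizer (Set.range (b2Res ρ R S hinv))

private theorem b2_mem_D (hinv : ∀ r ∈ R, ∀ x ∈ S, ρ r x ∈ S)
    (d : Module.End (ZMod q) S) : d ∈ b2D ρ R S hinv ↔
      ∀ r : R, b2Res ρ R S hinv r * d = d * b2Res ρ R S hinv r := by
  rw [Subring.mem_centralizer_iff]
  exact Set.forall_mem_range

private theorem b2_mem_RHom (hinv : ∀ r ∈ R, ∀ x ∈ S, ρ r x ∈ S)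
    (d : Module.End (ZMod q) S) (hd : d ∈ b2D ρ R S hinv) : S.subtype ∘ₗ d ∈ RHom ρ R S S := by
  rw [b2_mem_D] at hd
  refine ⟨fun x => (d x).2, fun r hr x hx hx' => ?_⟩
  have h := congrArg (fun w : Module.End (ZMod q) S => ((w ⟨x, hx⟩ : S) : X)) (hd ⟨r, hr⟩)
  exact h.symm

private theorem b2_domain [Finite G] [Finite X] (hS : SimpleSub ρ R S) :
    IsDomain (b2D ρ R S hS.2.1) := by
  have hnt : Nontrivial S := (Submodule.nontrivial_iff_ne_bot).2 hS.1
  have hnz : NoZeroDivisors (b2D ρ R S hS.2.1) := by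
    refine ⟨fun {a b} hab => ?_⟩
    by_contra hcon
    push Not at hcon
    obtain ⟨ha, hb⟩ := hcon
    have ha' : S.subtype ∘ₗ (a : Module.End (ZMod q) S) ≠ 0 := by
      intro h0
      apply ha
      ext x
      have := congrArg (fun w : S →ₗ[ZMod q] X => w x) h0
      exact this
    obtain ⟨hinj, -⟩ := schur ρ R S S hS hS _ (b2_mem_RHom ρ R S hS.2.1 a a.2) ha'
    apply hb
    ext x
    have h1 : (a : Module.End (ZMod q) S) ((b : Module.End (ZMod q) S) x) = 0 := by
      have := congrArg (fun w : b2D ρ R S hS.2.1 => (w : Module.End (ZMod q) S) x) hab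
      exact this
    have h2 : (b : Module.End (ZMod q) S) x = 0 := by
      apply hinj
      simp [h1]
    rw [h2]
    rfl
  exact NoZeroDivisors.to_isDomain _

end Aux

/-- PROOF. The image of `Z` in `F = RHom ρ R S S`, a finite division ring (Schur), hence a field
(little Wedderburn, see the proof of `big_simple` in Big.lean), consists of `p`-th roots of unity,
so has at most `p` elements; it is a nontrivial group of exponent `p`, isomorphic to
`Z / cenSub ρ Z S`. -/
theorem big_center {G : Type u} [Group G] [Finite G] {q : ℕ} [Fact q.Prime] {X : Type v}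
    [AddCommGroup X] [Module (ZMod q) X] [Finite X] (ρ : Representation (ZMod q) G X)
    (R : Subgroup G) (S : Submodule (ZMod q) X) (hS : SimpleSub ρ R S)
    (Z : Subgroup G) (hZR : Z ≤ R) (hcen : ∀ z ∈ Z, ∀ x ∈ R, ∀ v ∈ S, ρ ⁅z, x⁆ v = v)
    (p : ℕ) (hp : p.Prime) (hpow : ∀ z ∈ Z, ∀ v ∈ S, ρ (z ^ p) v = v)
    (hne : ∃ z ∈ Z, ∃ v ∈ S, ρ z v ≠ v) :
    (cenSub ρ Z S).relIndex Z = p := by
  classical
  have hinv := hS.2.1
  have hdom : IsDomain (b2D ρ R S hinv) := b2_domain ρ R S hS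
  have hfinEnd : Finite (Module.End (ZMod q) S) := by
    refine Finite.of_injective (fun (w : Module.End (ZMod q) S) => (w : S → S)) ?_
    exact DFunLike.coe_injective
  obtain ⟨K, fK, ⟨e⟩⟩ := b2_exists_field (b2D ρ R S hinv)
  have hfinK : Finite K := Finite.of_equiv _ e.symm.toEquiv
  have key : ∀ z : Z, b2Res ρ R S hinv ⟨z, hZR z.2⟩ ∈ b2D ρ R S hinv := by
    intro z
    rw [b2_mem_D]
    intro r
    ext x
    change ρ (r : G) (ρ (z : G) (x : X)) = ρ (z : G) (ρ (r : G) (x : X))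
    have h1 : ρ ⁅(z : G), (r : G)⁆ (ρ (r : G) (ρ (z : G) (x : X))) =
        ρ (r : G) (ρ (z : G) (x : X)) :=
      hcen z z.2 r r.2 _ (hinv r r.2 _ (hinv z (hZR z.2) _ x.2))
    have h2 : ρ ⁅(z : G), (r : G)⁆ (ρ (r : G) (ρ (z : G) (x : X))) =
        ρ (z : G) (ρ (r : G) (x : X)) := by
      rw [← Module.End.mul_apply, ← Module.End.mul_apply, ← Module.End.mul_apply, ← map_mul,
        ← map_mul, ← map_mul]
      congr 2
      rw [commutatorElement_def]
      group
    rw [← h1, h2]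
  let φ : Z →* b2D ρ R S hinv :=
    { toFun := fun z => ⟨b2Res ρ R S hinv ⟨z, hZR z.2⟩, key z⟩
      map_one' := by
        apply Subtype.ext
        exact map_one (b2Res ρ R S hinv)
      map_mul' := fun a b => by
        apply Subtype.ext
        exact map_mul (b2Res ρ R S hinv) ⟨a, hZR a.2⟩ ⟨b, hZR b.2⟩ }
  have hφ : ∀ (z : Z) (x : S), (((φ z : Module.End (ZMod q) S) x : S) : X) = ρ (z : G) x :=
    fun z x => rfl
  have hφ1 : ∀ z : Z, φ z = 1 ↔ ∀ v ∈ S, ρ (z : G) v = v := by
    intro z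
    constructor
    · intro h v hv
      rw [← hφ z ⟨v, hv⟩, h]
      rfl
    · intro h
      apply Subtype.ext
      ext x
      exact h x x.2
  let ψ : Z →* K := (e.symm : b2D ρ R S hinv ≃+* K).toMonoidHom.comp φ
  have hψ : ∀ z : Z, ψ z = e.symm (φ z) := fun z => rfl
  let U : Z →* Kˣ := ψ.toHomUnits
  have hU : ∀ z : Z, ((U z : Kˣ) : K) = ψ z := fun z => rfl
  have hU1 : ∀ z : Z, U z = 1 ↔ ∀ v ∈ S, ρ (z : G) v = v := by
    intro z
    rw [← hφ1, Units.ext_iff, hU, hψ, Units.val_one]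
    constructor
    · intro h
      have h1 := congrArg e h
      rwa [RingEquiv.apply_symm_apply, map_one] at h1
    · intro h
      rw [h, map_one]
  have hker : (cenSub ρ Z S).subgroupOf Z = U.ker := by
    ext x
    rw [Subgroup.mem_subgroupOf, MonoidHom.mem_ker, hU1]
    exact ⟨fun h => h.2, fun h => ⟨x.2, h⟩⟩
  rw [Subgroup.relIndex, hker, Subgroup.index_ker]
  have hp1 : ∀ z : Z, U z ^ p = 1 := by
    intro z
    rw [← map_pow, hU1]
    intro v hv
    exact hpow z z.2 v hv
  have hle : U.range ≤ rootsOfUnity p K := by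
    rintro _ ⟨z, rfl⟩
    rw [mem_rootsOfUnity]
    exact hp1 z
  have : NeZero p := ⟨hp.ne_zero⟩
  have hfK : Finite Kˣ := inferInstance
  have hcard : Nat.card U.range ≤ p := by
    have h1 : Nat.card U.range ≤ Nat.card (rootsOfUnity p K) := Subgroup.card_le_of_le hle
    have h2 : Nat.card (rootsOfUnity p K) ≤ p := card_rootsOfUnity K p
    exact h1.trans h2
  obtain ⟨z, hz, v, hv, hzv⟩ := hne
  have hUz : U ⟨z, hz⟩ ≠ 1 := fun h => hzv ((hU1 ⟨z, hz⟩).1 h v hv)
  have hord : orderOf (U ⟨z, hz⟩) = p := orderOf_eq_prime (hp := ⟨hp⟩) (hp1 _) hUz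
  have hdvd : p ∣ Nat.card U.range := by
    have h1 : orderOf (⟨U ⟨z, hz⟩, ⟨z, hz⟩, rfl⟩ : U.range) = p := by
      rw [← hord]
      exact Subgroup.orderOf_mk _ _
    rw [← h1]
    exact orderOf_dvd_natCard _
  exact le_antisymm hcard (Nat.le_of_dvd Nat.card_pos hdvd)

end FT
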