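import Mathlib
import Pool.Agent.helper11.FT.Defs
import Pool.Agent.helper11.FT.HomBasic
import Pool.Agent.helper11.FT.DualCount
import Pool.Agent.helper11.FT.Tower
import Pool.Agent.helper11.FT.TS0
import Pool.Agent.helper11.FT.TSs
import Pool.Agent.helper11.FT.TS
import Pool.Agent.helper11.FT.TS2
import Pool.Agent.helper11.FT.TS3
import Pool.Agent.helper11.FT.RadB

/-! # FT-RadConj: the radicals at a special level are conjugate (10.1) of
/team-store/9c6401_plan.md -/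

namespace FT

universe u v

open scoped commutatorElement

/-- a subgroup of index `p` is the kernel of a homomorphism to `ZMod p` -/
theorem exists_hom_of_index {Γ : Type u} [Group Γ] [Finite Γ] (p : ℕ) [Fact p.Prime]
    (Z M : Subgroup Γ) (hM : M ≤ Z) (hZM : Z ≤ Nrm M) (hi : M.relIndex Z = p) :
    ∃ l ∈ HomOn (ZMod p) Z M, l ≠ 0 ∧ ∀ z ∈ Z, l z = 0 → z ∈ M := by
  have hpp : p.Prime := Fact.out
  have hn : (M.subgroupOf Z).Normal := (Subgroup.normal_subgroupOf_iff_le_normalizer hM).2 hZM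
  have hcard : Nat.card (Z ⧸ M.subgroupOf Z) = p := hi
  have hpow : ∀ x ∈ Z, x ^ p ∈ M := by
    intro x hx
    have h1 : ((⟨x, hx⟩ : Z) : Z ⧸ M.subgroupOf Z) ^ p = 1 := by
      rw [← hcard]
      exact pow_card_eq_one'
    rw [← QuotientGroup.mk_pow, QuotientGroup.eq_one_iff, Subgroup.mem_subgroupOf] at h1
    exact h1
  have hcyc : IsCyclic (Z ⧸ M.subgroupOf Z) := isCyclic_of_prime_card hcard
  have hcomm : ∀ x ∈ Z, ∀ y ∈ Z, ⁅x, y⁆ ∈ M := by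
    intro x hx y hy
    have h1 : ((⁅(⟨x, hx⟩ : Z), (⟨y, hy⟩ : Z)⁆ : Z) : Z ⧸ M.subgroupOf Z) = 1 := by
      have h2 : ((⟨x, hx⟩ : Z) : Z ⧸ M.subgroupOf Z) * ((⟨y, hy⟩ : Z) : Z ⧸ M.subgroupOf Z) =
          ((⟨y, hy⟩ : Z) : Z ⧸ M.subgroupOf Z) * ((⟨x, hx⟩ : Z) : Z ⧸ M.subgroupOf Z) :=
        IsCyclic.isMulCommutative.is_comm.comm _ _
      have h3 : ((⁅(⟨x, hx⟩ : Z), (⟨y, hy⟩ : Z)⁆ : Z) : Z ⧸ M.subgroupOf Z) =
          ⁅((⟨x, hx⟩ : Z) : Z ⧸ M.subgroupOf Z), ((⟨y, hy⟩ : Z) : Z ⧸ M.subgroupOf Z)⁆ := rfl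
      rw [h3]
      exact commutatorElement_eq_one_iff_mul_comm.2 h2
    rw [QuotientGroup.eq_one_iff, Subgroup.mem_subgroupOf] at h1
    exact h1
  have hne : ∃ x ∈ Z, x ∉ M := by
    by_contra hcon
    push Not at hcon
    have h1 : M.relIndex Z = 1 := Subgroup.relIndex_eq_one.2 hcon
    rw [hi] at h1
    exact hpp.one_lt.ne' h1
  obtain ⟨x, hx, hxM⟩ := hne
  have h2 : ∃ f ∈ HomOn (ZMod p) Z M, f x ≠ 0 := by
    by_contra hcon
    push Not at hcon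
    exact hxM (sep_HomOn p Z M hM hZM hpow hcomm x hx hcon)
  obtain ⟨f, hf, hfx⟩ := h2
  refine ⟨f, hf, ?_, ?_⟩
  · rintro rfl
    exact hfx rfl
  · intro z hz hfz
    have hMK : M ≤ kerH Z f := fun m hm => (mem_kerH hf).2 ⟨hM hm, hf.2.2 m hm⟩
    have hKZ : kerH Z f ≤ Z := fun m hm => ((mem_kerH hf).1 hm).1
    have h3 := Subgroup.relIndex_mul_relIndex M (kerH Z f) Z hMK hKZ
    rw [hi] at h3
    have h4 : (kerH Z f).relIndex Z ≠ 1 := by
      intro h5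
      rw [Subgroup.relIndex_eq_one] at h5
      exact hfx ((mem_kerH hf).1 (h5 hx)).2
    have h5 : M.relIndex (kerH Z f) = 1 := by
      rcases (Nat.dvd_prime hpp).1 (Dvd.intro_left _ h3) with h6 | h6
      · exact absurd h6 h4
      · rw [h6] at h3
        exact Nat.eq_of_mul_eq_mul_right hpp.pos (by rw [h3, one_mul])
    rw [Subgroup.relIndex_eq_one] at h5
    exact h5 ((mem_kerH hf).2 ⟨hz, hfz⟩)

private theorem rc_pow {Γ : Type u} [Group Γ] {K : Type v} [CommRing K] {P Q : Subgroup Γ}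
    {f : CF Γ K} (hf : f ∈ HomOn K P Q) {x : Γ} (hx : x ∈ P) (n : ℕ) : f (x ^ n) = n * f x := by
  induction n with
  | zero => rw [pow_zero, HomOn.one hf, Nat.cast_zero, zero_mul]
  | succ n ih =>
    rw [pow_succ, hf.2.1 _ (P.pow_mem hx n) _ hx, ih]
    push_cast
    ring

/-- a nonzero homomorphism to `ZMod p` whose kernel is contained in that of another nonzero one has
the same kernel -/
private theorem rc_ker {Γ : Type u} [Group Γ] {p : ℕ} [Fact p.Prime] {P Q : Subgroup Γ}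
    {f g : CF Γ (ZMod p)} (hf : f ∈ HomOn (ZMod p) P Q) (hg : g ∈ HomOn (ZMod p) P Q)
    (hg0 : g ≠ 0) (h : ∀ z ∈ P, f z = 0 → g z = 0) : ∀ z ∈ P, f z = 0 ↔ g z = 0 := by
  obtain ⟨z0, hz0, hgz0⟩ : ∃ z0 ∈ P, g z0 ≠ 0 := by
    by_contra hcon
    push Not at hcon
    refine hg0 (CF.ext fun x => ?_)
    by_cases hx : x ∈ P
    · exact hcon x hx
    · exact hg.1 x hx
  have hfz0 : f z0 ≠ 0 := fun h1 => hgz0 (h z0 hz0 h1)
  intro z hz
  refine ⟨h z hz, fun hgz => ?_⟩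
  obtain ⟨n, hn⟩ : ∃ n : ℕ, (n : ZMod p) = -(f z) / f z0 :=
    ⟨(-(f z) / f z0).val, ZMod.natCast_zmod_val _⟩
  have h1 : f (z * z0 ^ n) = 0 := by
    rw [hf.2.1 _ hz _ (P.pow_mem hz0 n), rc_pow hf hz0, hn, div_mul_cancel₀ _ hfz0]
    ring
  have h2 := h _ (P.mul_mem hz (P.pow_mem hz0 n)) h1
  rw [hg.2.1 _ hz _ (P.pow_mem hz0 n), rc_pow hg hz0, hgz, zero_add] at h2
  have h3 : (n : ZMod p) = 0 := (mul_eq_zero.1 h2).resolve_right hgz0
  rw [hn, div_eq_zero_iff] at h3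
  exact neg_eq_zero.1 (h3.resolve_right hfz0)

namespace TowerCore

variable {Γ : Type u} [Group Γ] [Finite Γ] (T : TowerCore Γ)

/-- (10.1). PROOF. `F = ZMod (p (i+1))`, `M = kerH (Z i) l`, `M' = kerH (Z i) l'`. Let `L` be the group
generated by `Y` and the `P j`, `j ≤ i`, and `V` the span of the functions `g • f`, `g ∈ L`, where `f` is
the function of `Occ i l` (fixed by `M`). `V = H (i+1)` by `dual_irr`. The function `f'` of
`Occ i l'` satisfies `avg F M' f' = f' ≠ 0`, so there is `g ∈ L` with `v := avg F M' (g • f) ≠ 0`.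
`g • f` is fixed by `g M g⁻¹ = kerH (Z i) (g • l)`; elements of `Z i` normalise `M'`
(`⁅Z i, Z i⁆ ≤ Q i ≤ M'`), so `v` is fixed by `M'` and by `g M g⁻¹`. If
`g M g⁻¹` is not contained in `M'`, some `x ∈ g M g⁻¹` has `l' x ≠ 0` and `v` is fixed by `Z i`
(`fix_of_gen`), so `v = 0` (`nofix`), contradiction. So `g M g⁻¹ ≤ M'`, equality by index `p i`.
`Rad_eq_of_ker` and `Rad_smul` give `Rad i l' = Rad i (g • l) = g (Rad i l) g⁻¹`. -/
theorem Rad_card (i : ℕ) (hi : i < T.n) (hsp : ¬ T.Ab i) (l l' : CF Γ (ZMod (T.p i)))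
    (hl : T.Occ i l) (hl' : T.Occ i l') : Nat.card (T.Rad i l) = Nat.card (T.Rad i l') := by
  have hfp : Fact (T.p i).Prime := ⟨T.hp i hi.le⟩
  have hfp1 : Fact (T.p (i + 1)).Prime := ⟨T.hp (i + 1) hi⟩
  obtain ⟨hlH, hl0, f, hf, hf0, hfM⟩ := hl
  obtain ⟨hlH', hl0', f', hf', hf0', hfM'⟩ := hl'
  obtain ⟨hQZ, hDZ, hZP, hZc, hZpow, hZQ, hYZ, hPZ⟩ := T.Z_prop i hi.le
  obtain ⟨N, hN⟩ : ∃ N : Subgroup Γ, N = Nrm (T.P i) ⊓ Nrm (T.Q i) ⊓ Nrm (T.Z i) ⊓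
      Nrm (T.P (i + 1)) ⊓ Nrm (T.Q (i + 1)) := ⟨_, rfl⟩
  have hNm : ∀ g ∈ N, g ∈ Nrm (T.P i) ∧ g ∈ Nrm (T.Q i) ∧ g ∈ Nrm (T.Z i) ∧
      g ∈ Nrm (T.P (i + 1)) ∧ g ∈ Nrm (T.Q (i + 1)) := by
    intro g hg
    rw [hN] at hg
    exact ⟨hg.1.1.1.1, hg.1.1.1.2, hg.1.1.2, hg.1.2, hg.2⟩
  have hYN : T.Y ≤ N := by
    rw [hN]
    exact le_inf (le_inf (le_inf (le_inf (T.hY i hi.le) (T.Y_nrm_Q i hi.le)) hYZ)
      (T.hY (i + 1) hi)) (T.Y_nrm_Q (i + 1) hi)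
  have hPN : ∀ j ≤ i, T.P j ≤ N := by
    intro j hj
    rw [hN]
    exact le_inf (le_inf (le_inf (le_inf (T.P_nrm_P i j hj hi.le) (T.P_nrm_Q i j hj hi.le))
      (hPZ j hj)) (T.P_nrm_P (i + 1) j (by omega) hi)) (T.P_nrm_Q (i + 1) j (by omega) hi)
  have hZN : T.Z i ≤ N := hZP.trans (hPN i le_rfl)
  obtain ⟨V, hV⟩ : ∃ V : Submodule (ZMod (T.p (i + 1))) (CF Γ (ZMod (T.p (i + 1)))),
      V = Submodule.span (ZMod (T.p (i + 1))) {v | ∃ g ∈ N, v = g • f} := ⟨_, rfl⟩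
  have hVN : ∀ g ∈ N, ∀ v ∈ V, g • v ∈ V := by
    intro g hg v hv
    have h1 : V ≤ V.comap (CF.lin (ZMod (T.p (i + 1))) g) := by
      nth_rewrite 1 [hV]
      rw [Submodule.span_le]
      rintro _ ⟨k, hk, rfl⟩
      change g • (k • f) ∈ V
      rw [hV]
      exact Submodule.subset_span ⟨g * k, N.mul_mem hg hk, (mul_smul g k f).symm⟩
    exact h1 hv
  have hVH : V ≤ T.H (i + 1) := by
    rw [hV, Submodule.span_le]
    rintro _ ⟨k, hk, rfl⟩
    exact act_mem_HomOn (hNm k hk).2.2.2.1 (hNm k hk).2.2.2.2 hf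
  have hfV : f ∈ V := by
    rw [hV]
    exact Submodule.subset_span ⟨1, N.one_mem, (one_smul Γ f).symm⟩
  have hV0 : V ≠ ⊥ := by
    intro h1
    rw [h1, Submodule.mem_bot] at hfV
    exact hf0 hfV
  have hVe : V = T.H (i + 1) := T.dual_irr i hi V hVH hV0
    (fun y hy v hv => hVN y (hYN hy) v hv) (fun j hj x hx v hv => hVN x (hPN j hj hx) v hv)
  have hM'P : kerH (T.Z i) l' ≤ T.Z i := fun x hx => ((mem_kerH hlH').1 hx).1
  have hM'N : kerH (T.Z i) l' ≤ N := hM'P.trans hZN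
  have hcM : ((Nat.card (kerH (T.Z i) l') : ℕ) : ZMod (T.p (i + 1))) ≠ 0 := by
    intro h1
    rw [ZMod.natCast_eq_zero_iff] at h1
    have h2 : T.p (i + 1) ∣ Nat.card (T.P i) :=
      h1.trans (Subgroup.card_dvd_of_le (hM'P.trans hZP))
    obtain ⟨m, hm⟩ := IsPGroup.iff_card.1 (T.hP i hi.le)
    rw [hm] at h2
    have h3 := (Nat.prime_dvd_prime_iff_eq hfp1.out hfp.out).1 (hfp1.out.dvd_of_dvd_pow h2)
    exact T.adj i hi h3.symm
  have hex : ∃ g ∈ N, avg (ZMod (T.p (i + 1))) (kerH (T.Z i) l') (g • f) ≠ 0 := by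
    by_contra hcon
    push Not at hcon
    have h1 : V ≤ LinearMap.ker (avg (ZMod (T.p (i + 1))) (kerH (T.Z i) l')) := by
      rw [hV, Submodule.span_le]
      rintro _ ⟨k, hk, rfl⟩
      exact hcon k hk
    have h2 : f' ∈ V := by
      rw [hVe]
      exact hf'
    have h3 : avg (ZMod (T.p (i + 1))) (kerH (T.Z i) l') f' = 0 := h1 h2
    rw [avg_of_fixed _ hcM f' (fun m hm => hfM' m (hM'P hm) ((mem_kerH hlH').1 hm).2)] at h3
    exact hf0' h3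
  obtain ⟨g, hg, hv0⟩ := hex
  obtain ⟨hg1, hg2, hg3, hg4, hg5⟩ := hNm g hg
  have hgl : g • l ∈ HomOn (ZMod (T.p i)) (T.Z i) (T.Q i) := act_mem_HomOn hg3 hg2 hlH
  have hvH : avg (ZMod (T.p (i + 1))) (kerH (T.Z i) l') (g • f) ∈ T.H (i + 1) :=
    avg_mem_HomOn _ (fun m hm => (hNm m (hM'N hm)).2.2.2.1) (fun m hm => (hNm m (hM'N hm)).2.2.2.2)
      (act_mem_HomOn hg4 hg5 hf)
  have hle : ∀ z ∈ T.Z i, (g • l) z = 0 → l' z = 0 := by
    intro z hz hglz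
    by_contra hlz
    refine hv0 (T.nofix i hi _ hvH (fix_of_gen hlH' hz hlz (fun w hw hw0 =>
      avg_fixed _ _ w ((mem_kerH hlH').2 ⟨hw, hw0⟩)) ?_))
    have hzM : z ∈ Nrm (kerH (T.Z i) l') :=
      mem_nrm_kerH hlH' (hNm z (hZN hz)).2.2.1 (HomOn.smul_eq hlH' hz)
    rw [← avg_smul _ _ hzM]
    have h1 : z • g • f = g • f := by
      have h2 : z • g • f = g • (g⁻¹ * z * g) • f := by
        rw [← mul_smul, ← mul_smul]
        congr 1
        group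
      rw [h2, hfM (g⁻¹ * z * g) ((Subgroup.mem_normalizer_iff''.1 hg3 z).1 hz) hglz]
    rw [h1]
  have hker : ∀ z ∈ T.Z i, (g • l) z = 0 ↔ l' z = 0 := rc_ker hgl hlH' hl0' hle
  have hR := T.Rad_eq_of_ker i hi.le hsp (g • l) l' hgl hlH' hker
  rw [← hR]
  have hmap : T.Rad i (g • l) = (T.Rad i l).map (MulAut.conj g).toMonoidHom := by
    ext x
    constructor
    · intro hx
      refine ⟨g⁻¹ * x * g, ?_, ?_⟩
      · have h1 := (T.Rad_smul i hi.le hsp l hlH g hg1 hg2 (g⁻¹ * x * g))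
        have h2 : g * (g⁻¹ * x * g) * g⁻¹ = x := by group
        rw [h2] at h1
        exact h1.2 hx
      · change g * (g⁻¹ * x * g) * g⁻¹ = x
        group
    · rintro ⟨y, hy, rfl⟩
      exact (T.Rad_smul i hi.le hsp l hlH g hg1 hg2 y).1 hy
  rw [hmap]
  exact (Subgroup.card_map_of_injective (MulAut.conj g).injective).symm

end TowerCore

end FT
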