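import Mathlib
import Pool.Agent.helper11.FT.Defs
import Pool.Agent.helper11.FT.HomBasic
import Pool.Agent.helper11.FT.Semi
import Pool.Agent.helper11.FT.Big
import Pool.Agent.helper11.FT.Big2
import Pool.Agent.helper11.FT.Bd
import Pool.Agent.helper11.FT.SecRep
import Pool.Agent.helper11.FT.Tower
import Pool.Agent.helper11.FT.TS0
import Pool.Agent.helper11.FT.TSs
import Pool.Agent.helper11.FT.TS
import Pool.Agent.helper11.FT.TS2
import Pool.Agent.helper11.FT.TS3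
import Pool.Agent.helper11.FT.RadB
import Pool.Agent.helper11.FT.RadConj

/-! # FT-SimpleDat: (10.2) and (10.3) of /team-store/9c6401_plan.md -/

namespace FT

universe u v

open scoped commutatorElement

namespace TowerCore

variable {Γ : Type u} [Group Γ] [Finite Γ] (T : TowerCore Γ)

private theorem sd_homOn_mono {K : Type*} [CommRing K] {P Q Q' : Subgroup Γ} (h : Q ≤ Q')
    {f : CF Γ K} (hf : f ∈ HomOn K P Q') : f ∈ HomOn K P Q :=
  ⟨hf.1, hf.2.1, fun x hx => hf.2.2 x (h hx)⟩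

/-- elements of the section module are in `H (i+1)` -/
private theorem sd_mem_H (i : ℕ) (hi : i + 1 < T.n) (hsp' : ¬ T.Ab (i + 1))
    (l : CF Γ (ZMod (T.p (i + 1)))) (hl : T.Occ (i + 1) l)
    {f : CF Γ (ZMod (T.p (i + 1)))}
    (hf : f ∈ HomOn (ZMod (T.p (i + 1))) (T.P (i + 1)) (T.Rad (i + 1) l)) : f ∈ T.H (i + 1) :=
  sd_homOn_mono ((T.Q_le_D (i + 1)).trans (T.Rad_prop (i + 1) hi.le hsp' l hl.1).1) hf

/-- `⁅D i, P i⁆ ≤ Q i` for a special level -/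
private theorem sd_cen (i : ℕ) (hi : i ≤ T.n) (hsp : ¬ T.Ab i) {z x : Γ} (hz : z ∈ T.D i)
    (hx : x ∈ T.P i) : ⁅z, x⁆ ∈ T.Q i := by
  have h := (T.Z_prop i hi).2.2.2.1
  rw [T.Z_eq_of_not_Ab i hsp] at h
  exact h (Subgroup.commutator_mem_commutator hz hx)

private theorem sd_comm_mem (i : ℕ) {x y : Γ} (hx : x ∈ T.P i) (hy : y ∈ T.P i) :
    ⁅x, y⁆ ∈ T.D i :=
  Subgroup.mem_sup_left (Subgroup.commutator_mem_commutator hx hy)

/-- `P i` normalises the radical of a special level `i+1` -/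
private theorem sd_nrm (i : ℕ) (hi : i + 1 < T.n) (hsp' : ¬ T.Ab (i + 1))
    (l : CF Γ (ZMod (T.p (i + 1)))) (hl : T.Occ (i + 1) l) :
    T.P i ≤ Nrm (T.Rad (i + 1) l) := by
  have hi1 : i + 1 ≤ T.n := hi.le
  obtain ⟨_, _, _, _, _, _, _, hZj⟩ := T.Z_prop (i + 1) hi1
  intro g hg
  have hgP : g ∈ Nrm (T.P (i + 1)) := T.hN i (i + 1) (Nat.lt_succ_self i) hi1 hg
  have hgQ : g ∈ Nrm (T.Q (i + 1)) := T.P_nrm_Q (i + 1) i (Nat.le_succ i) hi1 hg
  have hgZ : g ∈ Nrm (T.Z (i + 1)) := hZj i (Nat.le_succ i) hg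
  have hgl : g • l = l := by
    refine HomOn.smul_eq_of_comm hl.1 hgZ fun w hw => hl.1.2.2 _ ?_
    have h1 : ⁅g, w⁆ ∈ ⁅T.P i, T.Z (i + 1)⁆ := Subgroup.commutator_mem_commutator hg hw
    rw [Subgroup.commutator_comm] at h1
    exact T.Z_special i (by omega) hsp' h1
  rw [Subgroup.mem_normalizer_iff]
  intro x
  have h2 := T.Rad_smul (i + 1) hi1 hsp' l hl.1 g hgP hgQ x
  rwa [hgl] at h2

/-- (10.2). Level `i`, `i+1` special, `R = P i`, `X = Hom(P (i+1) / Rad (i+1) l, F)`.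
PROOF. `big_simple` for `ρ = secRep ..`, `R = (P i).subgroupOf G1`. It remains to identify
`radS ρ R S` with `Rad i l1` for some `l1 ∈ Occ i` (then `Rad_card`). `Z = (D i).subgroupOf G1`
(`D i = Z i`) acts on `S` without nonzero fixed vector (`nofix`; elements of `S` are in `H (i+1)`), centrally
(`⁅D i, P i⁆ ≤ Q i` and `Q_fix`), with exponent `p i`, so by `big_center` `M` = the elements of `D i`
trivial on `S` has index `p i` in `D i`; `Q i ≤ M`; `exists_hom_of_index` gives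
`l1 ∈ HomOn (D i) M ≤ HomOn (Z i) (Q i)` with kernel `M`; `l1 ∈ Occ i` (take for `f` a nonzero element
of `S`). For `x, y ∈ P i`: `⁅x,y⁆ ∈ D i` is trivial on `S` iff `l1 ⁅x,y⁆ = 0`; so `x ∈ radS` iff
`x ∈ Rad i l1` (`mem_Rad`). `f ≥ 3`: some element of `D i` (which is contained in `radS`) acts
nontrivially on `S`. -/
theorem simple_dat (i : ℕ) (hi : i + 1 < T.n) (hsp : ¬ T.Ab i) (hsp' : ¬ T.Ab (i + 1))
    (l0 : CF Γ (ZMod (T.p i))) (hl0 : T.Occ i l0)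
    (l : CF Γ (ZMod (T.p (i + 1)))) (hl : T.Occ (i + 1) l)
    [Fact (T.p (i + 1)).Prime]
    (G1 : Subgroup Γ) (hRG : T.P i ≤ G1) (hP : G1 ≤ Nrm (T.P (i + 1)))
    (hQ : G1 ≤ Nrm (T.Rad (i + 1) l))
    (S : Submodule (ZMod (T.p (i + 1)))
      (HomOn (ZMod (T.p (i + 1))) (T.P (i + 1)) (T.Rad (i + 1) l)))
    (hS : SimpleSub (secRep (ZMod (T.p (i + 1))) (T.P (i + 1)) (T.Rad (i + 1) l) G1 hP hQ)
      ((T.P i).subgroupOf G1) S) :
    ∃ m f : ℕ, 3 ≤ f ∧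
      Nat.card (RHom (secRep (ZMod (T.p (i + 1))) (T.P (i + 1)) (T.Rad (i + 1) l) G1 hP hQ)
        ((T.P i).subgroupOf G1) S S) = f ∧
      Nat.card S = f ^ m ∧
      Nat.card (T.P i) ≤ m ^ 2 * Nat.card (T.Rad i l0) ∧
      (cenSub (secRep (ZMod (T.p (i + 1))) (T.P (i + 1)) (T.Rad (i + 1) l) G1 hP hQ)
        ((T.P i).subgroupOf G1) S).relIndex ((T.P i).subgroupOf G1) ≤ m ^ 2 * f := by
  classical
  have hiin : i < T.n := by omega
  have hpi : Fact (T.p i).Prime := ⟨T.hp i hiin.le⟩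
  have hZD : T.Z i = T.D i := T.Z_eq_of_not_Ab i hsp
  obtain ⟨_, _, hZP, _, hZpow, _, _, _⟩ := T.Z_prop i hiin.le
  set ρ := secRep (ZMod (T.p (i + 1))) (T.P (i + 1)) (T.Rad (i + 1) l) G1 hP hQ with hρ
  have hact : ∀ (g : G1) (v : HomOn (ZMod (T.p (i + 1))) (T.P (i + 1)) (T.Rad (i + 1) l)),
      ρ g v = v ↔ (g : Γ) • (v : CF Γ (ZMod (T.p (i + 1)))) = v := by
    intro g v
    rw [Subtype.ext_iff]
    exact Iff.rfl
  have hQtriv : ∀ (g : G1), (g : Γ) ∈ T.Q i →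
      ∀ (v : HomOn (ZMod (T.p (i + 1))) (T.P (i + 1)) (T.Rad (i + 1) l)), ρ g v = v := by
    intro g hg v
    rw [hact]
    exact T.Q_fix i hiin g hg _ (T.sd_mem_H i hi hsp' l hl v.2)
  have hR : ∀ x : G1, x ∈ (T.P i).subgroupOf G1 ↔ (x : Γ) ∈ T.P i := fun x =>
    Subgroup.mem_subgroupOf
  have hcomm : ∀ x y : G1, ((⁅x, y⁆ : G1) : Γ) = ⁅(x : Γ), (y : Γ)⁆ := fun x y => rfl
  have hcl : ∀ x ∈ (T.P i).subgroupOf G1, ∀ y ∈ (T.P i).subgroupOf G1,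
      ∀ z ∈ (T.P i).subgroupOf G1, ∀ v ∈ S, ρ ⁅⁅x, y⁆, z⁆ v = v := by
    intro x hx y hy z hz v _
    apply hQtriv
    rw [hcomm, hcomm]
    exact T.sd_cen i hiin.le hsp (T.sd_comm_mem i ((hR x).1 hx) ((hR y).1 hy)) ((hR z).1 hz)
  obtain ⟨m, f, h2f, hRH, hSc, hcard, hidx, h3f⟩ :=
    big_simple ρ ((T.P i).subgroupOf G1) S hS hcl
  have hDP : T.D i ≤ T.P i := T.D_le i hiin.le
  have hDG : T.D i ≤ G1 := hDP.trans hRG
  have hZ' : ∀ x : G1, x ∈ (T.D i).subgroupOf G1 ↔ (x : Γ) ∈ T.D i := fun x =>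
    Subgroup.mem_subgroupOf
  have hcen : ∀ z ∈ (T.D i).subgroupOf G1, ∀ x ∈ (T.P i).subgroupOf G1, ∀ v ∈ S,
      ρ ⁅z, x⁆ v = v := by
    intro z hz x hx v _
    apply hQtriv
    rw [hcomm]
    exact T.sd_cen i hiin.le hsp ((hZ' z).1 hz) ((hR x).1 hx)
  have hpow : ∀ z ∈ (T.D i).subgroupOf G1, ∀ v ∈ S, ρ (z ^ T.p i) v = v := by
    intro z hz v _
    apply hQtriv
    have h1 := hZpow (z : Γ) (by rw [hZD]; exact (hZ' z).1 hz)
    rw [Subgroup.coe_pow]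
    exact h1
  obtain ⟨v0, hv0S, hv0⟩ := (Submodule.ne_bot_iff S).1 hS.1
  have hv0H : (v0 : CF Γ (ZMod (T.p (i + 1)))) ∈ T.H (i + 1) := T.sd_mem_H i hi hsp' l hl v0.2
  have hv0' : (v0 : CF Γ (ZMod (T.p (i + 1)))) ≠ 0 := by
    intro h
    exact hv0 (Subtype.ext h)
  have hne : ∃ z ∈ (T.D i).subgroupOf G1, ∃ v ∈ S, ρ z v ≠ v := by
    by_contra hcon
    push Not at hcon
    apply hv0'
    refine T.nofix i hiin _ hv0H fun z hz => ?_
    rw [hZD] at hz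
    have h1 := hcon ⟨z, hDG hz⟩ ((hZ' _).2 hz) v0 hv0S
    exact (hact _ _).1 h1
  have hbc := big_center ρ ((T.P i).subgroupOf G1) S hS ((T.D i).subgroupOf G1)
    (fun z hz => (hR z).2 (hDP ((hZ' z).1 hz))) hcen (T.p i) (T.hp i hiin.le) hpow hne
  -- the subgroup M
  set M : Subgroup Γ := (cenSub ρ ((T.D i).subgroupOf G1) S).map G1.subtype with hM
  have hMmem : ∀ (z : Γ) (hz : z ∈ G1), z ∈ M ↔ z ∈ T.D i ∧
      ∀ v ∈ S, ρ ⟨z, hz⟩ v = v := by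
    intro z hz
    rw [hM, Subgroup.mem_map]
    constructor
    · rintro ⟨w, hw, hwz⟩
      have h1 : w = ⟨z, hz⟩ := Subtype.ext hwz
      rw [← h1]
      have h2 : w ∈ (T.D i).subgroupOf G1 ∧ ∀ v ∈ S, ρ w v = v := hw
      refine ⟨?_, h2.2⟩
      have h3 := (hZ' w).1 h2.1
      rw [← hwz]
      exact h3
    · rintro ⟨h1, h2⟩
      exact ⟨⟨z, hz⟩, ⟨(hZ' _).2 h1, h2⟩, rfl⟩
  have hMle : M ≤ T.Z i := by
    intro z hz
    have hzG : z ∈ G1 := by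
      rw [hM, Subgroup.mem_map] at hz
      obtain ⟨w, -, rfl⟩ := hz
      exact w.2
    rw [hZD]
    exact ((hMmem z hzG).1 hz).1
  have hQM : T.Q i ≤ M := by
    intro z hz
    have hzD : z ∈ T.D i := T.Q_le_D i hz
    exact (hMmem z (hDG hzD)).2 ⟨hzD, fun v _ => hQtriv _ hz v⟩
  have hrel : M.relIndex (T.Z i) = T.p i := by
    rw [hZD, ← hbc]
    have h1 : ((T.D i).subgroupOf G1).map G1.subtype = T.D i :=
      Subgroup.map_subgroupOf_eq_of_le hDG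
    conv_lhs => rw [← h1]
    rw [hM]
    exact Subgroup.relIndex_map_map_of_injective _ _ G1.subtype_injective
  have hnM : T.Z i ≤ Nrm M := by
    have key : ∀ z ∈ T.Z i, ∀ x ∈ M, z * x * z⁻¹ ∈ M := by
      intro z hz x hx
      have h1 : z * x * z⁻¹ = ⁅z, x⁆ * x := by
        rw [commutatorElement_def]
        group
      rw [h1]
      refine M.mul_mem (hQM ?_) hx
      rw [hZD] at hz
      exact T.sd_cen i hiin.le hsp hz (hZP (hMle hx))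
    intro z hz
    rw [Subgroup.mem_normalizer_iff]
    intro x
    refine ⟨fun hx => key z hz x hx, fun hx => ?_⟩
    have h2 := key z⁻¹ ((T.Z i).inv_mem hz) _ hx
    have h3 : z⁻¹ * (z * x * z⁻¹) * z⁻¹⁻¹ = x := by group
    rwa [h3] at h2
  obtain ⟨l1, hl1, hl1ne, hl1M⟩ := exists_hom_of_index (T.p i) (T.Z i) M hMle hnM hrel
  have hkerM : ∀ z ∈ T.Z i, (l1 z = 0 ↔ z ∈ M) := fun z hz =>
    ⟨hl1M z hz, fun h => hl1.2.2 z h⟩
  have hl1' : l1 ∈ HomOn (ZMod (T.p i)) (T.Z i) (T.Q i) := sd_homOn_mono hQM hl1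
  have hocc : T.Occ i l1 := by
    refine ⟨hl1', hl1ne, v0, hv0H, hv0', fun z hz hlz => ?_⟩
    have hzM := hl1M z hz hlz
    have hzG : z ∈ G1 := by
      rw [hZD] at hz
      exact hDG hz
    exact (hact ⟨z, hzG⟩ v0).1 (((hMmem z hzG).1 hzM).2 v0 hv0S)
  have hradiff : ∀ x : G1, x ∈ radS ρ ((T.P i).subgroupOf G1) S ↔ (x : Γ) ∈ T.Rad i l1 := by
    intro x
    rw [T.mem_Rad i hiin.le hsp l1 hl1']
    constructor
    · rintro ⟨h1, h2⟩
      have hxP := (hR x).1 h1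
      refine ⟨hxP, fun y hy => ?_⟩
      have hyG : y ∈ G1 := hRG hy
      have hD := T.sd_comm_mem i hxP hy
      rw [hkerM _ (by rw [hZD]; exact hD)]
      refine (hMmem _ (hDG hD)).2 ⟨hD, fun v hv => ?_⟩
      exact h2 ⟨y, hyG⟩ ((hR _).2 hy) v hv
    · rintro ⟨h1, h2⟩
      refine ⟨(hR x).2 h1, fun y hy v hv => ?_⟩
      have hyP := (hR y).1 hy
      have hD := T.sd_comm_mem i h1 hyP
      have h3 := (hkerM _ (by rw [hZD]; exact hD)).1 (h2 y hyP)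
      exact ((hMmem _ (hDG hD)).1 h3).2 v hv
  have hradcard : Nat.card (radS ρ ((T.P i).subgroupOf G1) S) = Nat.card (T.Rad i l0) := by
    rw [← T.Rad_card i hiin hsp l1 l0 hocc hl0]
    have hRadG : T.Rad i l1 ≤ G1 := ((T.Rad_prop i hiin.le hsp l1 hl1').2.1).trans hRG
    refine Nat.card_congr ⟨fun x => ⟨(x : G1), (hradiff _).1 x.2⟩,
      fun x => ⟨⟨(x : Γ), hRadG x.2⟩, (hradiff _).2 x.2⟩, fun x => rfl, fun x => rfl⟩
  have hPcard : Nat.card ((T.P i).subgroupOf G1) = Nat.card (T.P i) :=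
    Nat.card_congr (Subgroup.subgroupOfEquivOfLe hRG).toEquiv
  refine ⟨m, f, ?_, hRH, hSc, ?_, hidx⟩
  · apply h3f
    obtain ⟨z, hz, v, hv, hzv⟩ := hne
    exact ⟨z, ⟨(hR z).2 (hDP ((hZ' z).1 hz)), fun y hy w hw => hcen z hz y hy w hw⟩, v, hv, hzv⟩
  · rw [hPcard, hradcard] at hcard
    exact hcard

/-- (10.3): `|P_i : Rad| < |P_{i+1} : Rad|`.
PROOF. `G1 = P i`; `X = Hom(P (i+1)/Rad)` is nonzero (`Rad_ne`, `card_HomOn`), so has a simple
submodule `S` (`exists_simple`); `|P (i+1)|/|Rad| = |X| ≥ |S| = f^m ≥ 3^m > m^2 ≥ |P i|/|Rad i l0|`. -/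
theorem grow (i : ℕ) (hi : i + 1 < T.n) (hsp : ¬ T.Ab i) (hsp' : ¬ T.Ab (i + 1))
    (l0 : CF Γ (ZMod (T.p i))) (hl0 : T.Occ i l0)
    (l : CF Γ (ZMod (T.p (i + 1)))) (hl : T.Occ (i + 1) l) :
    Nat.card (T.P i) * Nat.card (T.Rad (i + 1) l) <
      Nat.card (T.P (i + 1)) * Nat.card (T.Rad i l0) := by
  classical
  have hi1 : i + 1 ≤ T.n := hi.le
  have hq : Fact (T.p (i + 1)).Prime := ⟨T.hp (i + 1) hi1⟩
  obtain ⟨_, hRP, hPR, hRpow, hRcomm⟩ := T.Rad_prop (i + 1) hi1 hsp' l hl.1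
  have hP : T.P i ≤ Nrm (T.P (i + 1)) := T.hN i (i + 1) (Nat.lt_succ_self i) hi1
  have hQ : T.P i ≤ Nrm (T.Rad (i + 1) l) := T.sd_nrm i hi hsp' l hl
  have hcard := card_HomOn (T.p (i + 1)) (T.P (i + 1)) (T.Rad (i + 1) l) hRP hPR hRpow hRcomm
  have hRne := T.Rad_ne (i + 1) hi1 hsp' l hl.1 hl.2.1
  have hRpos : 0 < Nat.card (T.Rad (i + 1) l) := Nat.card_pos
  have hRlt : Nat.card (T.Rad (i + 1) l) < Nat.card (T.P (i + 1)) := by
    have h1 : (T.Rad (i + 1) l : Set Γ) ⊂ (T.P (i + 1) : Set Γ) :=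
      lt_of_le_of_ne hRP fun h => hRne (SetLike.coe_injective h)
    exact Set.ncard_lt_ncard h1 (Set.toFinite _)
  have hne : (⊤ : Submodule (ZMod (T.p (i + 1)))
      (HomOn (ZMod (T.p (i + 1))) (T.P (i + 1)) (T.Rad (i + 1) l))) ≠ ⊥ := by
    intro h
    have h1 : Subsingleton (HomOn (ZMod (T.p (i + 1))) (T.P (i + 1)) (T.Rad (i + 1) l)) := by
      refine ⟨fun a b => ?_⟩
      have ha : a ∈ (⊤ : Submodule (ZMod (T.p (i + 1)))
        (HomOn (ZMod (T.p (i + 1))) (T.P (i + 1)) (T.Rad (i + 1) l))) := trivial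
      have hb : b ∈ (⊤ : Submodule (ZMod (T.p (i + 1)))
        (HomOn (ZMod (T.p (i + 1))) (T.P (i + 1)) (T.Rad (i + 1) l))) := trivial
      rw [h, Submodule.mem_bot] at ha hb
      rw [ha, hb]
    have h2 : Nat.card (HomOn (ZMod (T.p (i + 1))) (T.P (i + 1)) (T.Rad (i + 1) l)) = 1 :=
      Nat.card_unique
    rw [h2, one_mul] at hcard
    omega
  obtain ⟨S, -, hS⟩ := exists_simple
    (secRep (ZMod (T.p (i + 1))) (T.P (i + 1)) (T.Rad (i + 1) l) (T.P i) hP hQ)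
    ((T.P i).subgroupOf (T.P i)) ⊤ (fun _ _ _ _ => trivial) hne
  obtain ⟨m, f, h3, -, hSc, hle, -⟩ := T.simple_dat i hi hsp hsp' l0 hl0 l hl (T.P i) le_rfl hP hQ
    S hS
  have h4 : Nat.card S ≤
      Nat.card (HomOn (ZMod (T.p (i + 1))) (T.P (i + 1)) (T.Rad (i + 1) l)) :=
    Nat.card_le_card_of_injective (fun x : S => (x : HomOn _ _ _)) Subtype.val_injective
  have h5 : m ^ 2 < f ^ m := (three_pow_gt m).trans_le (Nat.pow_le_pow_left h3 m)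
  have h6 : m ^ 2 < Nat.card (HomOn (ZMod (T.p (i + 1))) (T.P (i + 1)) (T.Rad (i + 1) l)) := by
    rw [hSc] at h4
    omega
  have h7 : 0 < Nat.card (T.Rad i l0) := Nat.card_pos
  calc Nat.card (T.P i) * Nat.card (T.Rad (i + 1) l)
      ≤ (m ^ 2 * Nat.card (T.Rad i l0)) * Nat.card (T.Rad (i + 1) l) :=
        Nat.mul_le_mul_right _ hle
    _ = m ^ 2 * (Nat.card (T.Rad i l0) * Nat.card (T.Rad (i + 1) l)) := by ring
    _ < Nat.card (HomOn (ZMod (T.p (i + 1))) (T.P (i + 1)) (T.Rad (i + 1) l)) *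
        (Nat.card (T.Rad i l0) * Nat.card (T.Rad (i + 1) l)) :=
        Nat.mul_lt_mul_of_pos_right h6 (Nat.mul_pos h7 hRpos)
    _ = Nat.card (T.P (i + 1)) * Nat.card (T.Rad i l0) := by
        rw [← hcard]
        ring

end TowerCore

end FT
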