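import Mathlib
import Pool.Agent.helper11.FT.Defs
import Pool.Agent.helper11.FT.Bd
import Pool.Agent.helper11.FT.SecRep
import Pool.Agent.helper11.FT.Tower
import Pool.Agent.helper11.FT.TS0
import Pool.Agent.helper11.FT.TSs
import Pool.Agent.helper11.FT.TS
import Pool.Agent.helper11.FT.TS2
import Pool.Agent.helper11.FT.TS3
import Pool.Agent.helper11.FT.RadB
import Pool.Agent.helper11.FT.SimpleDat

/-! # FT-Grow2: exponential growth of the indices of the radicals -/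

namespace FT

universe u v

open scoped commutatorElement

namespace TowerCore

variable {Γ : Type u} [Group Γ] [Finite Γ] (T : TowerCore Γ)

/-- `P i` normalises the radical of a special level `i+1` -/
private theorem gr2_nrm (i : ℕ) (hi : i + 1 < T.n) (hsp' : ¬ T.Ab (i + 1))
    (l : CF Γ (ZMod (T.p (i + 1)))) (hl : T.Occ (i + 1) l) :
    T.P i ≤ Nrm (T.Rad (i + 1) l) := by
  have hi1 : i + 1 ≤ T.n := hi.le
  obtain ⟨_, _, _, _, _, _, _, hZj⟩ := T.Z_prop (i + 1) hi1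
  intro g hg
  have hgP : g ∈ Nrm (T.P (i + 1)) := T.hN i (i + 1) (Nat.lt_succ_self i) hi1 hg
  have hgQ : g ∈ Nrm (T.Q (i + 1)) := T.P_nrm_Q (i + 1) i (Nat.le_succ i) hi1 hg
  have hgZ : g ∈ Nrm (T.Z (i + 1)) := hZj i (Nat.le_succ i) hg
  have hgl : g • l = l := by
    refine HomOn.smul_eq_of_comm hl.1 hgZ fun w hw => hl.1.2.2 _ ?_
    have h1 : ⁅g, w⁆ ∈ ⁅T.P i, T.Z (i + 1)⁆ := Subgroup.commutator_mem_commutator hg hw
    rw [Subgroup.commutator_comm] at h1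
    exact T.Z_special i (by omega) hsp' h1
  rw [Subgroup.mem_normalizer_iff]
  intro x
  have h2 := T.Rad_smul (i + 1) hi1 hsp' l hl.1 g hgP hgQ x
  rwa [hgl] at h2

/-- the growth of the index of the radical, (10.2) and (10.3) -/
theorem grow2 (i : ℕ) (hi : i + 1 < T.n) (hsp : ¬ T.Ab i) (hsp' : ¬ T.Ab (i + 1))
    (l0 : CF Γ (ZMod (T.p i))) (hl0 : T.Occ i l0)
    (l : CF Γ (ZMod (T.p (i + 1)))) (hl : T.Occ (i + 1) l) :
    ∃ m : ℕ, Nat.card (T.P i) ≤ m ^ 2 * Nat.card (T.Rad i l0) ∧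
      3 ^ m * Nat.card (T.Rad (i + 1) l) ≤ Nat.card (T.P (i + 1)) := by
  classical
  have hi1 : i + 1 ≤ T.n := hi.le
  have hq : Fact (T.p (i + 1)).Prime := ⟨T.hp (i + 1) hi1⟩
  obtain ⟨_, hRP, hPR, hRpow, hRcomm⟩ := T.Rad_prop (i + 1) hi1 hsp' l hl.1
  have hP : T.P i ≤ Nrm (T.P (i + 1)) := T.hN i (i + 1) (Nat.lt_succ_self i) hi1
  have hQ : T.P i ≤ Nrm (T.Rad (i + 1) l) := T.gr2_nrm i hi hsp' l hl
  have hcard := card_HomOn (T.p (i + 1)) (T.P (i + 1)) (T.Rad (i + 1) l) hRP hPR hRpow hRcomm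
  have hRne := T.Rad_ne (i + 1) hi1 hsp' l hl.1 hl.2.1
  have hRpos : 0 < Nat.card (T.Rad (i + 1) l) := Nat.card_pos
  have hRlt : Nat.card (T.Rad (i + 1) l) < Nat.card (T.P (i + 1)) := by
    have h1 : (T.Rad (i + 1) l : Set Γ) ⊂ (T.P (i + 1) : Set Γ) :=
      lt_of_le_of_ne hRP fun h => hRne (SetLike.coe_injective h)
    exact Set.ncard_lt_ncard h1 (Set.toFinite _)
  have hne : (⊤ : Submodule (ZMod (T.p (i + 1)))
      (HomOn (ZMod (T.p (i + 1))) (T.P (i + 1)) (T.Rad (i + 1) l))) ≠ ⊥ := by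
    intro h
    have h1 : Subsingleton (HomOn (ZMod (T.p (i + 1))) (T.P (i + 1)) (T.Rad (i + 1) l)) := by
      refine ⟨fun a b => ?_⟩
      have ha : a ∈ (⊤ : Submodule (ZMod (T.p (i + 1)))
        (HomOn (ZMod (T.p (i + 1))) (T.P (i + 1)) (T.Rad (i + 1) l))) := trivial
      have hb : b ∈ (⊤ : Submodule (ZMod (T.p (i + 1)))
        (HomOn (ZMod (T.p (i + 1))) (T.P (i + 1)) (T.Rad (i + 1) l))) := trivial
      rw [h, Submodule.mem_bot] at ha hb
      rw [ha, hb]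
    have h2 : Nat.card (HomOn (ZMod (T.p (i + 1))) (T.P (i + 1)) (T.Rad (i + 1) l)) = 1 :=
      Nat.card_unique
    rw [h2, one_mul] at hcard
    omega
  obtain ⟨S, -, hS⟩ := exists_simple
    (secRep (ZMod (T.p (i + 1))) (T.P (i + 1)) (T.Rad (i + 1) l) (T.P i) hP hQ)
    ((T.P i).subgroupOf (T.P i)) ⊤ (fun _ _ _ _ => trivial) hne
  obtain ⟨m, f, h3, -, hSc, hle, -⟩ := T.simple_dat i hi hsp hsp' l0 hl0 l hl (T.P i) le_rfl hP hQ
    S hS
  have h4 : Nat.card S ≤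
      Nat.card (HomOn (ZMod (T.p (i + 1))) (T.P (i + 1)) (T.Rad (i + 1) l)) :=
    Nat.card_le_card_of_injective (fun x : S => (x : HomOn _ _ _)) Subtype.val_injective
  refine ⟨m, hle, ?_⟩
  calc 3 ^ m * Nat.card (T.Rad (i + 1) l)
      ≤ Nat.card (HomOn (ZMod (T.p (i + 1))) (T.P (i + 1)) (T.Rad (i + 1) l)) *
          Nat.card (T.Rad (i + 1) l) := by
        refine Nat.mul_le_mul_right _ ((Nat.pow_le_pow_left h3 m).trans ?_)
        rw [← hSc]
        exact h4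
    _ = Nat.card (T.P (i + 1)) := hcard

end TowerCore

end FT
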