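import Mathlib
import Pool.Agent.helper11.FT.Defs
import Pool.Agent.helper11.FT.HomBasic
import Pool.Agent.helper11.FT.Tower
import Pool.Agent.helper11.FT.TS0
import Pool.Agent.helper11.FT.TSs
import Pool.Agent.helper11.FT.TS
import Pool.Agent.helper11.FT.TS2
import Pool.Agent.helper11.FT.TS3
import Pool.Agent.helper11.FT.RadB
import Pool.Agent.helper11.FT.Compat
import Pool.Agent.helper11.FT.OL
import Pool.Agent.helper11.FT.Iso

/-! # FT-Chain: states and chains of states -/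

namespace FT

universe u v

open scoped commutatorElement

namespace TowerCore

variable {Γ : Type u} [Group Γ] [Finite Γ] (T : TowerCore Γ)

/-- a state at level `i`: an occurring character `l` and a function `b ∈ H i`, equal to `l` at an
abelian level and trivial on the radical of `l` at a special level -/
structure St (i : ℕ) (l b : CF Γ (ZMod (T.p i))) : Prop where
  occ : T.Occ i l
  mem : b ∈ T.H i
  ab : T.Ab i → b = l
  sp : ¬ T.Ab i → ∀ x ∈ T.Rad i l, b x = 0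

/-- the average of `b'` over the kernel of `l` is not zero (see `Lk_iff`) -/
def Lk (i : ℕ) (l : CF Γ (ZMod (T.p i))) (b' : CF Γ (ZMod (T.p (i + 1)))) : Prop :=
  ∃ u ∈ T.P (i + 1), (∀ z ∈ T.Z i, l z = 0 → ⁅z, u⁆ ∈ T.D (i + 1)) ∧ b' u ≠ 0

/-- the link between a state `(l, b)` at level `i` and a state `(l', b')` at level `i+1` -/
def Link (i : ℕ) (l b : CF Γ (ZMod (T.p i))) (b' : CF Γ (ZMod (T.p (i + 1)))) : Prop :=
  T.Lk i l b' ∧ ∀ x ∈ T.P i, x • b' = b' → b x = 0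

/-- a state at level `i` with `m` further levels of linked states above it -/
def Chain : ℕ → ∀ i : ℕ, CF Γ (ZMod (T.p i)) → CF Γ (ZMod (T.p i)) → Prop
  | 0, i, l, b => T.St i l b
  | m + 1, i, l, b => T.St i l b ∧ ∃ l' b' : CF Γ (ZMod (T.p (i + 1))),
      Chain m (i + 1) l' b' ∧ T.Link i l b b'

theorem Chain.st {T : TowerCore Γ} {m i : ℕ} {l b : CF Γ (ZMod (T.p i))} (h : T.Chain m i l b) :
    T.St i l b := by
  cases m with
  | zero => exact h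
  | succ m => exact h.1

/-- PROOF. `M = kerH (Z i) l ≤ P i`, of order prime to `p (i+1)`. If `u` is as in `Lk` then
`avg b' u = b' u` (`avg_eval`; `b'` vanishes on `D (i+1)`, `HomOn_eq`). Conversely `g = avg b' ≠ 0`, in
`H (i+1)`, fixed by `M`, `g v ≠ 0` for some `v ∈ P (i+1)`; `exists_norm` with `D = D (i+1)` gives `c` with
`⁅m,c⁆ ∈ D (i+1)` for `m ∈ M` and `g c = |M| g v ≠ 0`; `b' c = g c` by `avg_eval`. -/
theorem Lk_iff (i : ℕ) (hi : i < T.n) (l : CF Γ (ZMod (T.p i)))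
    (hl : l ∈ HomOn (ZMod (T.p i)) (T.Z i) (T.Q i)) [Fact (T.p (i + 1)).Prime]
    (b' : CF Γ (ZMod (T.p (i + 1)))) (hb' : b' ∈ T.H (i + 1)) :
    T.Lk i l b' ↔ avg (ZMod (T.p (i + 1))) (kerH (T.Z i) l) b' ≠ 0 := by
  have hMP : kerH (T.Z i) l ≤ T.P i := fun x hx =>
    (T.Z_prop i hi.le).2.2.1 ((mem_kerH hl).1 hx).1
  have hcard : (Nat.card (kerH (T.Z i) l) : ZMod (T.p (i + 1))) ≠ 0 := by
    have : Fact (T.p i).Prime := ⟨T.hp i hi.le⟩
    obtain ⟨k, hk⟩ := IsPGroup.iff_card.1 (T.hP i hi.le)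
    have h1 : Nat.card (kerH (T.Z i) l) ∣ T.p i ^ k := by
      rw [← hk]
      exact Subgroup.card_dvd_of_le hMP
    intro h0
    rw [ZMod.natCast_eq_zero_iff] at h0
    have h2 : T.p (i + 1) ∣ T.p i ^ k := h0.trans h1
    have h3 := (T.hp (i + 1) hi).dvd_of_dvd_pow h2
    exact T.adj i hi ((Nat.prime_dvd_prime_iff_eq (T.hp (i + 1) hi) (T.hp i hi.le)).1 h3).symm
  have hb'D : b' ∈ HomOn (ZMod (T.p (i + 1))) (T.P (i + 1)) (T.D (i + 1)) := by
    have h : T.H (i + 1) = HomOn (ZMod (T.p (i + 1))) (T.P (i + 1)) (T.D (i + 1)) :=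
      HomOn_eq (T.Q_le (i + 1) hi)
    rwa [h] at hb'
  have hMn : kerH (T.Z i) l ≤ Nrm (T.P (i + 1)) := hMP.trans (T.P_nrm_P (i + 1) i (Nat.le_succ i) hi)
  have hMD : kerH (T.Z i) l ≤ Nrm (T.D (i + 1)) := hMP.trans (T.P_nrm_D (i + 1) i (Nat.le_succ i) hi)
  constructor
  · rintro ⟨u, hu, huz, hbu⟩ h0
    have h1 := avg_eval (kerH (T.Z i) l) hcard hb'D hMn hu (fun m hm =>
      hb'D.2.2 _ (huz m ((mem_kerH hl).1 hm).1 ((mem_kerH hl).1 hm).2))
    rw [h0] at h1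
    exact hbu h1.symm
  · intro h0
    have hg : avg (ZMod (T.p (i + 1))) (kerH (T.Z i) l) b' ∈
        HomOn (ZMod (T.p (i + 1))) (T.P (i + 1)) (T.D (i + 1)) := avg_mem_HomOn _ hMn hMD hb'D
    obtain ⟨v, hv⟩ : ∃ v, avg (ZMod (T.p (i + 1))) (kerH (T.Z i) l) b' v ≠ 0 := by
      by_contra hcon
      push Not at hcon
      exact h0 (CF.ext hcon)
    have hvP : v ∈ T.P (i + 1) := by
      by_contra hcon
      exact hv (hg.1 v hcon)
    obtain ⟨c, hcP, hcD, hcf⟩ := exists_norm (K := ZMod (T.p (i + 1))) (P := T.P (i + 1))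
      (kerH (T.Z i) l) (T.D (i + 1)) hMn (T.D_le (i + 1) hi) hMD
      (T.P_nrm_D (i + 1) (i + 1) le_rfl hi) le_sup_left v hvP
    have h1 := hcf _ hg (avg_fixed _ _)
    have h2 := avg_eval (kerH (T.Z i) l) hcard hb'D hMn hcP (fun m hm => hb'D.2.2 _ (hcD m hm))
    refine ⟨c, hcP, fun z hz hlz => hcD z ((mem_kerH hl).2 ⟨hz, hlz⟩), ?_⟩
    rw [← h2, h1]
    exact mul_ne_zero hcard hv

/-- PROOF. `occ_smul_P`, `act_mem_HomOn`, `Rad_smul` (`x ∈ P j` normalises `P i`, `Q i`). -/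
theorem St_smul (i j : ℕ) (hi : i < T.n) (hj : j ≤ i) (x : Γ) (hx : x ∈ T.P j)
    (l b : CF Γ (ZMod (T.p i))) (h : T.St i l b) : T.St i (x • l) (x • b) := by
  have hxP := T.P_nrm_P i j hj hi.le hx
  have hxQ := T.P_nrm_Q i j hj hi.le hx
  refine ⟨T.occ_smul_P i hi l h.occ j hj x hx, act_mem_HomOn hxP hxQ h.mem,
    fun hab => by rw [h.ab hab], fun hsp y hy => ?_⟩
  have h1 := T.Rad_smul i hi.le hsp l h.occ.1 x hxP hxQ (x⁻¹ * y * x)
  have e : x * (x⁻¹ * y * x) * x⁻¹ = y := by group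
  rw [e] at h1
  rw [CF.act_apply]
  exact h.sp hsp _ (h1.2 hy)

/-- PROOF. `x` normalises `Z i`, `P i`, `P (i+1)`, `D (i+1)`; replace `u` by `x u x⁻¹`; for
`y ∈ P i` fixing `x • b'` the element `x⁻¹ y x ∈ P i` fixes `b'`. -/
theorem Link_smul (i j : ℕ) (hi : i < T.n) (hj : j ≤ i) (x : Γ) (hx : x ∈ T.P j)
    (l b : CF Γ (ZMod (T.p i))) (b' : CF Γ (ZMod (T.p (i + 1)))) (h : T.Link i l b b') :
    T.Link i (x • l) (x • b) (x • b') := by
  have hxP := T.P_nrm_P i j hj hi.le hx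
  have hxP1 := T.P_nrm_P (i + 1) j (hj.trans (Nat.le_succ i)) hi hx
  have hxD1 := T.P_nrm_D (i + 1) j (hj.trans (Nat.le_succ i)) hi hx
  have hxZ := (T.Z_prop i hi.le).2.2.2.2.2.2.2 j hj hx
  obtain ⟨⟨u, hu, huz, hbu⟩, h2⟩ := h
  refine ⟨⟨x * u * x⁻¹, (Subgroup.mem_normalizer_iff.1 hxP1 u).1 hu, fun z hz hlz => ?_, ?_⟩,
    fun y hy hyb => ?_⟩
  · rw [CF.act_apply] at hlz
    have h3 := huz _ ((Subgroup.mem_normalizer_iff''.1 hxZ z).1 hz) hlz
    have h4 := (Subgroup.mem_normalizer_iff.1 hxD1 _).1 h3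
    convert h4 using 1
    simp only [commutatorElement_def]
    group
  · rw [CF.act_apply]
    have e : x⁻¹ * (x * u * x⁻¹) * x = u := by group
    rw [e]
    exact hbu
  · rw [CF.act_apply]
    refine h2 _ ((Subgroup.mem_normalizer_iff''.1 hxP y).1 hy) ?_
    rw [mul_smul, mul_smul, hyb, inv_smul_smul]

/-- PROOF. Induction on `m`, `St_smul`, `Link_smul`. -/
theorem Chain_smul (m i j : ℕ) (hi : i + m < T.n) (hj : j ≤ i) (x : Γ) (hx : x ∈ T.P j)
    (l b : CF Γ (ZMod (T.p i))) (h : T.Chain m i l b) : T.Chain m i (x • l) (x • b) := by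
  induction m generalizing i with
  | zero => exact T.St_smul i j (by omega) hj x hx l b h
  | succ m ih =>
    obtain ⟨h1, l', b', h2, h3⟩ := h
    exact ⟨T.St_smul i j (by omega) hj x hx l b h1, x • l', x • b',
      ih (i + 1) (by omega) (by omega) l' b' h2, T.Link_smul i j (by omega) hj x hx l b b' h3⟩

/-- PROOF. `Lk_iff`, `m_eq_zero_of_fix`; `x ∈ Z i ≤ P i` fixes `l` (`⁅Z i, P i⁆ ≤ Q i`, `HomOn.smul_eq_of_comm`) so
normalises its kernel (`mem_nrm_kerH`) and fixes the average (`avg_smul`). -/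
theorem Lk_zero (i : ℕ) (hi : i < T.n) (l : CF Γ (ZMod (T.p i)))
    (hl : l ∈ HomOn (ZMod (T.p i)) (T.Z i) (T.Q i)) (b' : CF Γ (ZMod (T.p (i + 1))))
    (hb' : b' ∈ T.H (i + 1)) (h : T.Lk i l b') (x : Γ) (hx : x ∈ T.Z i) (hxb : x • b' = b') :
    l x = 0 := by
  have _ : Fact (T.p (i + 1)).Prime := ⟨T.hp (i + 1) hi⟩
  obtain ⟨_, _, hZP, hZc, _, _, _, hZj⟩ := T.Z_prop i hi.le
  have hfix : x • l = l := HomOn.smul_eq_of_comm hl (hZj i le_rfl (hZP hx)) fun w hw => by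
    apply hl.2.2
    have h1 := Subgroup.commutator_mem_commutator hw (hZP hx)
    rw [← commutatorElement_inv]
    exact (T.Q i).inv_mem (hZc h1)
  refine T.m_eq_zero_of_fix i hi l hl b' hb' ((T.Lk_iff i hi l hl b' hb').1 h) x hx ?_
  rw [← avg_smul _ x (mem_nrm_kerH hl (hZj i le_rfl (hZP hx)) hfix), hxb]

/-- PROOF. `Lk_iff`, `iso_of_fix`. -/
theorem Lk_iso (i : ℕ) (hi : i < T.n) (hsp : ¬ T.Ab i) (l : CF Γ (ZMod (T.p i)))
    (hl : l ∈ HomOn (ZMod (T.p i)) (T.Z i) (T.Q i)) (b' : CF Γ (ZMod (T.p (i + 1))))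
    (hb' : b' ∈ T.H (i + 1)) (h : T.Lk i l b') (x y : Γ) (hx : x ∈ T.P i) (hy : y ∈ T.P i)
    (hxb : x • b' = b') (hyb : y • b' = b') : l ⁅x, y⁆ = 0 := by
  have _ : Fact (T.p (i + 1)).Prime := ⟨T.hp (i + 1) hi⟩
  exact T.iso_of_fix i hi hsp l hl b' hb' ((T.Lk_iff i hi l hl b' hb').1 h) x y hx hy hxb hyb

end TowerCore

end FT
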