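import Mathlib
import Pool.Agent.helper11.FT.Defs
import Pool.Agent.helper11.FT.Semi

/-! # FT-C8a: groups commuting with the action of `R` are small -/

namespace FT

universe u v

open scoped commutatorElement

variable {G : Type u} [Group G] [Finite G] {q : ℕ} [Fact q.Prime] {X : Type v} [AddCommGroup X]
  [Module (ZMod q) X] [Finite X] (ρ : Representation (ZMod q) G X)

omit [Finite G] in
private theorem C8a_mem_RHom {R : Subgroup G} {S T : Submodule (ZMod q) X}
    {φ : S →ₗ[ZMod q] X} : φ ∈ RHom ρ R S T ↔ (∀ x, φ x ∈ T) ∧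
      ∀ r ∈ R, ∀ (x : X) (hx : x ∈ S) (hx' : ρ r x ∈ S),
        φ ⟨ρ r x, hx'⟩ = ρ r (φ ⟨x, hx⟩) := Iff.rfl

omit [Finite X] in
private theorem C8a_fin [Finite X] (S : Submodule (ZMod q) X) : Finite (S →ₗ[ZMod q] X) :=
  Finite.of_injective (fun φ => (φ : S → X)) DFunLike.coe_injective

omit [Finite G] in
/-- an upper bound for the homomorphisms to a direct sum -/
private theorem C8a_sum (R : Subgroup G) (S T1 T' : Submodule (ZMod q) X)
    (h1 : Inv ρ R T1) (h2 : Inv ρ R T') (hd : T1 ⊓ T' = ⊥) :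
    Nat.card (RHom ρ R S (T1 ⊔ T')) ≤
      Nat.card (RHom ρ R S T1) * Nat.card (RHom ρ R S T') := by
  have := C8a_fin (q := q) S
  obtain ⟨Q, hQ, hc⟩ := Disjoint.exists_isCompl (a := T') (b := T1)
    (by rw [disjoint_iff, inf_comm]; exact hd)
  obtain ⟨P, hP⟩ : ∃ P : X →ₗ[ZMod q] X, P = Submodule.projection T1 Q hc.symm := ⟨_, rfl⟩
  have hP1 : ∀ x ∈ T1, P x = x := fun x hx => by
    rw [hP]; exact Submodule.projection_apply_of_mem_left hc.symm hx
  have hP2 : ∀ x ∈ T', P x = 0 := fun x hx => by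
    rw [hP]; exact Submodule.projection_apply_of_mem_right hc.symm (hQ hx)
  have hdec : ∀ x ∈ T1 ⊔ T', P x ∈ T1 ∧ x - P x ∈ T' ∧ ∀ r ∈ R, P (ρ r x) = ρ r (P x) := by
    intro x hx
    obtain ⟨a, ha, b, hb, rfl⟩ := Submodule.mem_sup.1 hx
    have h3 : P (a + b) = a := by rw [map_add, hP1 a ha, hP2 b hb, add_zero]
    rw [h3]
    refine ⟨ha, by rw [add_sub_cancel_left]; exact hb, fun r hr => ?_⟩
    rw [map_add, map_add, hP1 _ (h1 r hr a ha), hP2 _ (h2 r hr b hb), add_zero]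
  rw [← Nat.card_prod]
  refine Nat.card_le_card_of_injective
    (fun φ => ((⟨P ∘ₗ (φ : S →ₗ[ZMod q] X), ?_⟩ : RHom ρ R S T1),
      (⟨(φ : S →ₗ[ZMod q] X) - P ∘ₗ (φ : S →ₗ[ZMod q] X), ?_⟩ : RHom ρ R S T'))) ?_
  · obtain ⟨φ, hφ⟩ := φ
    rw [C8a_mem_RHom] at hφ ⊢
    refine ⟨fun x => (hdec _ (hφ.1 x)).1, fun r hr x hx hx' => ?_⟩
    rw [LinearMap.comp_apply, LinearMap.comp_apply, hφ.2 r hr x hx hx']
    exact (hdec _ (hφ.1 _)).2.2 r hr
  · obtain ⟨φ, hφ⟩ := φ
    rw [C8a_mem_RHom] at hφ ⊢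
    refine ⟨fun x => (hdec _ (hφ.1 x)).2.1, fun r hr x hx hx' => ?_⟩
    rw [LinearMap.sub_apply, LinearMap.sub_apply, LinearMap.comp_apply, LinearMap.comp_apply,
      hφ.2 r hr x hx hx', (hdec _ (hφ.1 _)).2.2 r hr, map_sub]
  · intro φ ψ h
    rw [Prod.mk.injEq, Subtype.mk.injEq, Subtype.mk.injEq] at h
    obtain ⟨h3, h4⟩ := h
    rw [h3] at h4
    exact Subtype.ext (sub_left_injective h4)

omit [Finite G] in
/-- homomorphisms to an isomorphic simple module -/
private theorem C8a_iso (R : Subgroup G) (S T1 : Submodule (ZMod q) X)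
    (hS : SimpleSub ρ R S) (φ0 : S →ₗ[ZMod q] X) (hφ0 : φ0 ∈ RHom ρ R S T1)
    (hinj : Function.Injective φ0) (hr : LinearMap.range φ0 = T1) :
    Nat.card (RHom ρ R S T1) ≤ Nat.card (RHom ρ R S S) ∧ Nat.card T1 = Nat.card S := by
  have := C8a_fin (q := q) S
  have hcard : Nat.card T1 = Nat.card S := by
    rw [← hr]
    exact Nat.card_congr (LinearEquiv.ofInjective φ0 hinj).symm.toEquiv
  refine ⟨?_, hcard⟩
  have hmem : ∀ ψ ∈ RHom ρ R S T1, ∀ x, ψ x ∈ LinearMap.range φ0 := by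
    intro ψ hψ x
    rw [hr]
    exact ((C8a_mem_RHom ρ).1 hψ).1 x
  obtain ⟨e, he⟩ : ∃ e : S ≃ₗ[ZMod q] LinearMap.range φ0, e = LinearEquiv.ofInjective φ0 hinj :=
    ⟨_, rfl⟩
  have hee : ∀ y, φ0 (e.symm y) = y := by
    intro y
    have h1 : ((e (e.symm y) : LinearMap.range φ0) : X) = φ0 (e.symm y) := by
      rw [he]
      rfl
    rw [← h1, LinearEquiv.apply_symm_apply]
  refine Nat.card_le_card_of_injective (fun ψ => (⟨S.subtype ∘ₗ e.symm.toLinearMap ∘ₗ
    LinearMap.codRestrict (LinearMap.range φ0) (ψ : S →ₗ[ZMod q] X) (hmem ψ.1 ψ.2), ?_⟩ :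
      RHom ρ R S S)) ?_
  · obtain ⟨ψ, hψ⟩ := ψ
    have hψ' := (C8a_mem_RHom ρ).1 hψ
    rw [C8a_mem_RHom]
    refine ⟨fun x => Subtype.prop _, fun r hr' x hx hx' => ?_⟩
    obtain ⟨y, hy⟩ : ∃ y : S, y = e.symm (LinearMap.codRestrict (LinearMap.range φ0) ψ
      (hmem ψ hψ) ⟨x, hx⟩) := ⟨_, rfl⟩
    obtain ⟨z, hz⟩ : ∃ z : S, z = e.symm (LinearMap.codRestrict (LinearMap.range φ0) ψ
      (hmem ψ hψ) ⟨ρ r x, hx'⟩) := ⟨_, rfl⟩
    change (S.subtype (e.symm (LinearMap.codRestrict (LinearMap.range φ0) ψ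
      (hmem ψ hψ) ⟨ρ r x, hx'⟩))) = ρ r (S.subtype (e.symm (LinearMap.codRestrict
      (LinearMap.range φ0) ψ (hmem ψ hψ) ⟨x, hx⟩)))
    rw [← hy, ← hz]
    have hyS : ρ r (y : X) ∈ S := hS.2.1 r hr' y y.2
    have h1 : φ0 y = ψ ⟨x, hx⟩ := by rw [hy, hee]; rfl
    have h2 : φ0 z = ψ ⟨ρ r x, hx'⟩ := by rw [hz, hee]; rfl
    have h3 : φ0 ⟨ρ r y, hyS⟩ = ρ r (φ0 y) := ((C8a_mem_RHom ρ).1 hφ0).2 r hr' y y.2 hyS
    have h4 : z = ⟨ρ r y, hyS⟩ := by
      apply hinj
      rw [h2, h3, h1]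
      exact hψ'.2 r hr' x hx hx'
    rw [h4]
    rfl
  · intro ψ ψ' h
    rw [Subtype.mk.injEq] at h
    apply Subtype.ext
    apply LinearMap.ext
    intro x
    have h1 := LinearMap.congr_fun h x
    have h2 : e.symm (LinearMap.codRestrict (LinearMap.range φ0) (ψ : S →ₗ[ZMod q] X)
        (hmem ψ.1 ψ.2) x) = e.symm (LinearMap.codRestrict (LinearMap.range φ0)
        (ψ' : S →ₗ[ZMod q] X) (hmem ψ'.1 ψ'.2) x) := Subtype.ext h1
    have h3 := e.symm.injective h2
    exact congrArg Subtype.val h3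

omit [Finite G] in
private theorem C8a_card_pos (T : Submodule (ZMod q) X) : 1 ≤ Nat.card T :=
  Nat.card_pos

/-- If `|End_R S|^n0 ≤ |S|` for the simple module `S` then `|Hom_R(S, T)|^n0 ≤ |T|` for every
invariant `T`.
PROOF. `inv_induction` on `T`. `T = ⊥`: `1 ≤ 1`. Step `T = T1 ⊔ T'` with `T1` simple,
`T1 ⊓ T' = ⊥`: composing with the two projections, `|Hom(S,T)| ≤ |Hom(S,T1)| |Hom(S,T')|`. If
`Hom(S,T1) = 0` fine; otherwise by Schur `S ≅ T1`, so `|Hom(S,T1)| = |End S|` and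
`|T1| = |S|`. -/
theorem card_RHom_pow_le (R : Subgroup G) (hq : q.Coprime (Nat.card R))
    (S T : Submodule (ZMod q) X) (hS : SimpleSub ρ R S) (hT : Inv ρ R T) (n0 : ℕ)
    (h : (Nat.card (RHom ρ R S S)) ^ n0 ≤ Nat.card S) :
    (Nat.card (RHom ρ R S T)) ^ n0 ≤ Nat.card T := by
  refine inv_induction ρ R hq (fun T => (Nat.card (RHom ρ R S T)) ^ n0 ≤ Nat.card T) ?_ ?_ T hT
  · have h1 : Nat.card (RHom ρ R S (⊥ : Submodule (ZMod q) X)) = 1 := by
      rw [Nat.card_eq_one_iff_unique]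
      refine ⟨⟨fun φ ψ => ?_⟩, ⟨0⟩⟩
      apply Subtype.ext
      apply LinearMap.ext
      intro x
      rw [(Submodule.mem_bot _).1 (((C8a_mem_RHom ρ).1 φ.2).1 x),
        (Submodule.mem_bot _).1 (((C8a_mem_RHom ρ).1 ψ.2).1 x)]
    rw [h1, one_pow]
    exact C8a_card_pos _
  · intro T1 T' hT1 hT' hd hcard ih
    have hsum := C8a_sum ρ R S T1 T' hT1.2.1 hT' hd
    have h1 : (Nat.card (RHom ρ R S (T1 ⊔ T'))) ^ n0 ≤
        (Nat.card (RHom ρ R S T1)) ^ n0 * (Nat.card (RHom ρ R S T')) ^ n0 := by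
      rw [← mul_pow]
      exact Nat.pow_le_pow_left hsum n0
    rw [hcard]
    refine h1.trans (Nat.mul_le_mul ?_ ih)
    by_cases h0 : ∃ φ ∈ RHom ρ R S T1, φ ≠ 0
    · obtain ⟨φ, hφ, hne⟩ := h0
      obtain ⟨hinj, hr⟩ := schur ρ R S T1 hS hT1 φ hφ hne
      obtain ⟨h2, h3⟩ := C8a_iso ρ R S T1 hS φ hφ hinj hr
      rw [h3]
      exact (Nat.pow_le_pow_left h2 n0).trans h
    · push Not at h0
      have h2 : Nat.card (RHom ρ R S T1) = 1 := by
        rw [Nat.card_eq_one_iff_unique]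
        refine ⟨⟨fun φ ψ => ?_⟩, ⟨0⟩⟩
        apply Subtype.ext
        rw [h0 φ.1 φ.2, h0 ψ.1 ψ.2]
      rw [h2, one_pow]
      exact C8a_card_pos _

/-- `H1` acts on `X` commuting with `R`. Then `|H1/C|^n0 ≤ |[X,H1]|^k`, `k ≥ Ω(|H1|)`.
PROOF. `T = [X,H1]` is `R`-invariant. For subgroups `H' ≤ H1` show by strong induction on
`Nat.card H'`: `((cenSub ρ H' ⊤).relIndex H')^n0 ≤ |T|^Ω(|H'|)` where
`Ω(n) = n.primeFactorsList.length`. If `H'` acts trivially on `X` the index is `1`. Otherwise by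
`le_of_simple_le` there is a simple `R`-submodule `S` not centralised by `H'`;
`H'' = cenSub ρ H' S < H'`. The map `h ↦ (s ↦ ρ h s - s)` from `H'` to `Hom_R(S,T)` takes equal
values at `h, h'` only if `h⁻¹ h' ∈ H''`, so `|H' : H''| ≤ |Hom_R(S,T)|` and
`|H':H''|^n0 ≤ |T|` by `card_RHom_pow_le`. All elements acting trivially on `X` are in `H''`, and
`Ω(|H''|) + 1 ≤ Ω(|H'|)`. -/
theorem c8a (R H1 : Subgroup G) (hqR : q.Coprime (Nat.card R))
    (n0 : ℕ) (hS : ∀ S, SimpleSub ρ R S → (Nat.card (RHom ρ R S S)) ^ n0 ≤ Nat.card S)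
    (hcomm : ∀ h ∈ H1, ∀ x ∈ R, ρ ⁅x, h⁆ = 1) (k : ℕ)
    (hk : (Nat.card H1).primeFactorsList.length ≤ k) :
    ((cenSub ρ H1 ⊤).relIndex H1) ^ n0 ≤ (Nat.card (movS ρ H1)) ^ k := by
  have hswap : ∀ h ∈ H1, ∀ x ∈ R, ∀ v, ρ x (ρ h v) = ρ h (ρ x v) := by
    intro h hh x hx v
    have h1 : x * h = ⁅x, h⁆ * (h * x) := by
      rw [commutatorElement_def]
      group
    have h2 : ρ (x * h) = ρ (h * x) := by
      rw [h1, map_mul, hcomm h hh x hx, one_mul]
    rw [← Module.End.mul_apply, ← map_mul, h2, map_mul, Module.End.mul_apply]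
  have hTinv : Inv ρ R (movS ρ H1) := by
    intro x hx v hv
    unfold movS at hv ⊢
    induction hv using Submodule.span_induction with
    | mem w hw =>
      obtain ⟨h, hh, v, rfl⟩ := hw
      apply Submodule.subset_span
      refine ⟨h, hh, ρ x v, ?_⟩
      rw [map_sub, hswap h hh x hx]
    | zero => rw [map_zero]; exact Submodule.zero_mem _
    | add a b _ _ ha hb => rw [map_add]; exact Submodule.add_mem _ ha hb
    | smul c a _ ha => rw [map_smul]; exact Submodule.smul_mem _ c ha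
  have hTpos : 1 ≤ Nat.card (movS ρ H1) := C8a_card_pos _
  have hmain : ∀ n : ℕ, ∀ H' : Subgroup G, H' ≤ H1 → Nat.card H' = n →
      ((cenSub ρ H' ⊤).relIndex H') ^ n0 ≤
        (Nat.card (movS ρ H1)) ^ (Nat.card H').primeFactorsList.length := by
    intro n
    induction n using Nat.strong_induction_on with
    | _ n ih =>
    intro H' hH' hn
    by_cases htriv : ∀ h ∈ H', ∀ x, ρ h x = x
    · have h1 : cenSub ρ H' ⊤ = H' := by
        ext h
        exact ⟨fun hh => hh.1, fun hh => ⟨hh, fun x _ => htriv h hh x⟩⟩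
      rw [h1, Subgroup.relIndex_self, one_pow]
      exact Nat.one_le_pow _ _ hTpos
    · have hex : ∃ S, SimpleSub ρ R S ∧ ¬ S ≤ fixS ρ H' := by
        by_contra hcon
        push Not at hcon
        have h1 := le_of_simple_le ρ R hqR ⊤ (fixS ρ H') (fun _ _ _ _ => Submodule.mem_top)
          (fun S _ hS' => hcon S hS')
        exact htriv fun h hh x => h1 (Submodule.mem_top (x := x)) h hh
      obtain ⟨S, hSs, hSn⟩ := hex
      obtain ⟨K, hK⟩ : ∃ K, K = cenSub ρ H' S := ⟨_, rfl⟩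
      have hKm : ∀ h, h ∈ K ↔ h ∈ H' ∧ ∀ x ∈ S, ρ h x = x := by
        intro h
        rw [hK]
        exact Iff.rfl
      have hKH : K ≤ H' := fun h hh => ((hKm h).1 hh).1
      have hKne : K ≠ H' := by
        intro heq
        apply hSn
        intro x hx h hh
        rw [← heq] at hh
        exact ((hKm h).1 hh).2 x hx
      -- the index of `K`
      have hidx : K.relIndex H' ≤ Nat.card (RHom ρ R S (movS ρ H1)) := by
        have hfin := C8a_fin (q := q) S
        have hF : ∀ h : H', (ρ (h : G) - 1 : X →ₗ[ZMod q] X) ∘ₗ S.subtype ∈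
            RHom ρ R S (movS ρ H1) := by
          intro h
          rw [C8a_mem_RHom]
          refine ⟨fun x => ?_, fun r hr x hx hx' => ?_⟩
          · unfold movS
            apply Submodule.subset_span
            exact ⟨h, hH' h.2, x, rfl⟩
          · change ρ (h : G) (ρ r x) - ρ r x = ρ r (ρ (h : G) x - x)
            rw [map_sub, hswap h (hH' h.2) r hr]
        have hinj : ∀ h h' : H', (ρ (h : G) - 1 : X →ₗ[ZMod q] X) ∘ₗ S.subtype =
            (ρ (h' : G) - 1 : X →ₗ[ZMod q] X) ∘ₗ S.subtype → h⁻¹ * h' ∈ K.subgroupOf H' := by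
          intro h h' heq
          rw [Subgroup.mem_subgroupOf, hKm]
          refine ⟨(h⁻¹ * h').2, fun x hx => ?_⟩
          have h1 := LinearMap.congr_fun heq ⟨x, hx⟩
          change ρ (h : G) x - x = ρ (h' : G) x - x at h1
          have h2 : ρ (h : G) x = ρ (h' : G) x := sub_left_injective h1
          change ρ ((h : G)⁻¹ * (h' : G)) x = x
          rw [map_mul, Module.End.mul_apply, ← h2, ← Module.End.mul_apply, ← map_mul,
            inv_mul_cancel, map_one, Module.End.one_apply]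
        unfold Subgroup.relIndex Subgroup.index
        refine Nat.card_le_card_of_injective (fun c => (⟨_, hF c.out⟩ :
          RHom ρ R S (movS ρ H1))) ?_
        intro c c' hcc
        rw [Subtype.mk.injEq] at hcc
        have h1 := hinj _ _ hcc
        rw [← QuotientGroup.eq] at h1
        rw [QuotientGroup.out_eq', QuotientGroup.out_eq'] at h1
        exact h1
      have hpow : (K.relIndex H') ^ n0 ≤ Nat.card (movS ρ H1) :=
        (Nat.pow_le_pow_left hidx n0).trans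
          (card_RHom_pow_le ρ R hqR S (movS ρ H1) hSs hTinv n0 (hS S hSs))
      -- induction
      have hmul : Nat.card K * K.relIndex H' = Nat.card H' := by
        rw [← Subgroup.relIndex_bot_left, ← Subgroup.relIndex_bot_left]
        exact Subgroup.relIndex_mul_relIndex _ _ _ bot_le hKH
      have hcKpos : 0 < Nat.card K := Nat.card_pos
      have hrne : K.relIndex H' ≠ 0 := by
        intro h0
        rw [h0, mul_zero] at hmul
        exact absurd hmul.symm Nat.card_pos.ne'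
      have hrne1 : K.relIndex H' ≠ 1 := by
        intro h0
        rw [Subgroup.relIndex_eq_one] at h0
        exact hKne (le_antisymm hKH h0)
      have hlt : Nat.card K < n := by
        rw [← hn, ← hmul]
        exact lt_mul_of_one_lt_right hcKpos (by omega)
      have hlen : (Nat.card K).primeFactorsList.length + 1 ≤
          (Nat.card H').primeFactorsList.length := by
        rw [← hmul, (Nat.perm_primeFactorsList_mul hcKpos.ne' hrne).length_eq,
          List.length_append]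
        have h1 : 0 < (K.relIndex H').primeFactorsList.length := by
          rw [List.length_pos_iff, Ne, Nat.primeFactorsList_eq_nil]
          omega
        omega
      have hih := ih (Nat.card K) hlt K (hKH.trans hH') rfl
      have hceq : cenSub ρ K ⊤ = cenSub ρ H' ⊤ := by
        ext h
        constructor
        · intro hh
          exact ⟨hKH hh.1, hh.2⟩
        · intro hh
          exact ⟨(hKm h).2 ⟨hh.1, fun x _ => hh.2 x Submodule.mem_top⟩, hh.2⟩
      rw [hceq] at hih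
      have hcK : cenSub ρ H' ⊤ ≤ K := by
        rw [← hceq]
        exact fun h hh => hh.1
      rw [← Subgroup.relIndex_mul_relIndex _ _ _ hcK hKH, mul_pow]
      refine (Nat.mul_le_mul hih hpow).trans ?_
      rw [← pow_succ]
      exact Nat.pow_le_pow_right hTpos hlen
  exact (hmain _ H1 le_rfl rfl).trans (Nat.pow_le_pow_right hTpos hk)

end FT
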