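import Mathlib
import Pool.Agent.helper11.FT.Defs
import Pool.Agent.helper11.FT.Cop

/-! # FT-C8b: a coprime operator group is at most `|[R,H]|^k`; generators -/

namespace FT

universe u

open scoped commutatorElement

variable {G : Type u} [Group G] [Finite G]

/-- the elements of `H` which act trivially on `R/L` -/
def actTriv (R L H : Subgroup G) (hHL : H ≤ Nrm L) : Subgroup G where
  carrier := {h | h ∈ H ∧ ∀ x ∈ R, ⁅x, h⁆ ∈ L}
  one_mem' := ⟨H.one_mem, fun x _ => by simp [commutatorElement_def]⟩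
  mul_mem' := by
    rintro a b ⟨ha, ha'⟩ ⟨hb, hb'⟩
    refine ⟨H.mul_mem ha hb, fun x hx => ?_⟩
    have h1 : ⁅x, a * b⁆ = ⁅x, a⁆ * (a * ⁅x, b⁆ * a⁻¹) := by
      simp only [commutatorElement_def]; group
    rw [h1]
    exact L.mul_mem (ha' x hx) ((Subgroup.le_normalizer_iff.1 hHL) a ha _ (hb' x hx))
  inv_mem' := by
    rintro a ⟨ha, ha'⟩
    refine ⟨H.inv_mem ha, fun x hx => ?_⟩
    have h1 : ⁅x, a⁻¹⁆ = a⁻¹ * (⁅x, a⁆)⁻¹ * (a⁻¹)⁻¹ := by
      simp only [commutatorElement_def]; group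
    rw [h1]
    exact (Subgroup.le_normalizer_iff.1 hHL) a⁻¹ (H.inv_mem ha) _ (L.inv_mem (ha' x hx))

omit [Finite G] in
private theorem omega_lt {a b : ℕ} (hb : b ≠ 0) (h : a ∣ b) (hne : a ≠ b) :
    a.primeFactorsList.length + 1 ≤ b.primeFactorsList.length := by
  obtain ⟨m, rfl⟩ := h
  have ha : a ≠ 0 := fun h => hb (by rw [h, zero_mul])
  have hm : m ≠ 0 := fun h => hb (by rw [h, mul_zero])
  have hm1 : m ≠ 1 := fun h => hne (by rw [h, mul_one])
  have h1 := (Nat.perm_primeFactorsList_mul ha hm).length_eq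
  rw [h1, List.length_append]
  have h2 : m.primeFactorsList ≠ [] := by
    rw [Ne, Nat.primeFactorsList_eq_nil]
    push_neg
    exact ⟨hm, hm1⟩
  have h3 := List.length_pos_iff.2 h2
  omega

/-- the stabilizer in `M` of the coset `x L` -/
private def stab (L M : Subgroup G) (hML : M ≤ Nrm L) (x : G) : Subgroup G where
  carrier := {h | h ∈ M ∧ x⁻¹ * (h * x * h⁻¹) ∈ L}
  one_mem' := ⟨M.one_mem, by simp⟩
  mul_mem' := by
    rintro a b ⟨ha, ha'⟩ ⟨hb, hb'⟩
    refine ⟨M.mul_mem ha hb, ?_⟩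
    have h1 : x⁻¹ * (a * b * x * (a * b)⁻¹) =
        (x⁻¹ * (a * x * a⁻¹)) * (a * (x⁻¹ * (b * x * b⁻¹)) * a⁻¹) := by group
    rw [h1]
    exact L.mul_mem ha' ((Subgroup.le_normalizer_iff.1 hML) a ha _ hb')
  inv_mem' := by
    rintro a ⟨ha, ha'⟩
    refine ⟨M.inv_mem ha, ?_⟩
    have h1 : x⁻¹ * (a⁻¹ * x * a⁻¹⁻¹) = a⁻¹ * (x⁻¹ * (a * x * a⁻¹))⁻¹ * a⁻¹⁻¹ := by group
    rw [h1]
    exact (Subgroup.le_normalizer_iff.1 hML) a⁻¹ (M.inv_mem ha) _ (L.inv_mem ha')

private theorem c8b_aux (r : ℕ) (hr : r.Prime) (R L H : Subgroup G) (hR : IsPGroup r R)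
    (hL : L ≤ R) (hRL : R ≤ Nrm L) (hHR : H ≤ Nrm R) (hHL : H ≤ Nrm L)
    (hc : r.Coprime (Nat.card H)) : ∀ (n : ℕ) (M : Subgroup G) (hM : M ≤ H), Nat.card M ≤ n →
    (actTriv R L M (hM.trans hHL)).relIndex M ≤
      (L.relIndex (⁅R, H⁆ ⊔ L)) ^ (Nat.card M).primeFactorsList.length := by
  have hq : 1 ≤ L.relIndex (⁅R, H⁆ ⊔ L) := Nat.one_le_iff_ne_zero.2 Subgroup.index_ne_zero_of_finite
  intro n
  induction n with
  | zero =>
    intro M hM hn
    exact absurd (Nat.card_pos (α := M)) (by omega)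
  | succ n ih =>
    intro M hM hn
    have hML := hM.trans hHL
    by_cases hcase : ∀ x ∈ ⁅R, H⁆, ∀ h ∈ M, ⁅x, h⁆ ∈ L
    · -- trivial action
      have hMR : M ≤ Nrm R := hM.trans hHR
      haveI : Fact r.Prime := ⟨hr⟩
      have hcard : (Nat.card R).Coprime (Nat.card M) := by
        obtain ⟨e, he⟩ := IsPGroup.iff_card.1 hR
        rw [he]
        exact Nat.Coprime.pow_left e (hc.coprime_dvd_right (Subgroup.card_dvd_of_le hM))
      have hsol : Group.IsSolvable R := by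
        haveI := hR.isNilpotent
        infer_instance
      have h1 : ⁅R, M⁆ ≤ L := by
        rw [← comm_comm R M hMR hsol hcard, Subgroup.commutator_le]
        intro x hx m hm
        exact hcase x (Subgroup.commutator_mono le_rfl hM hx) m hm
      have h2 : M ≤ actTriv R L M hML := fun h hh =>
        ⟨hh, fun x hx => h1 (Subgroup.commutator_mem_commutator hx hh)⟩
      rw [Subgroup.relIndex_eq_one.2 h2]
      exact Nat.one_le_pow _ _ hq
    · push_neg at hcase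
      obtain ⟨x, hx, h0, hh0, hx0⟩ := hcase
      have hxR : x ∈ R := (comm_le R H hHR).1 hx
      set M' := stab L M hML x with hM'
      have hM'M : M' ≤ M := fun h hh => hh.1
      have hne : M' ≠ M := by
        intro he
        have h1 : h0 ∈ M' := by rw [he]; exact hh0
        apply hx0
        have h2 : ⁅x, h0⁆ = x * (x⁻¹ * (h0 * x * h0⁻¹))⁻¹ * x⁻¹ := by
          rw [commutatorElement_def]; group
        rw [h2]
        exact (Subgroup.le_normalizer_iff.1 hRL) x hxR _ (L.inv_mem h1.2)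
      have hcard : Nat.card M' ∣ Nat.card M := Subgroup.card_dvd_of_le hM'M
      have hcne : Nat.card M' ≠ Nat.card M := fun h => hne (Subgroup.eq_of_le_of_card_ge hM'M h.ge)
      have hlt : Nat.card M' < Nat.card M :=
        lt_of_le_of_ne (Nat.le_of_dvd Nat.card_pos hcard) hcne
      have hT : actTriv R L M hML = actTriv R L M' (hM'M.trans hML) := by
        ext h
        constructor
        · rintro ⟨h1, h2⟩
          refine ⟨⟨h1, ?_⟩, h2⟩
          have h3 : x⁻¹ * (h * x * h⁻¹) = x⁻¹ * (⁅x, h⁆)⁻¹ * x⁻¹⁻¹ := by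
            rw [commutatorElement_def]; group
          rw [h3]
          exact (Subgroup.le_normalizer_iff.1 hRL) x⁻¹ (R.inv_mem hxR) _ (L.inv_mem (h2 x hxR))
        · rintro ⟨h1, h2⟩
          exact ⟨hM'M h1, h2⟩
      have hTM' : actTriv R L M' (hM'M.trans hML) ≤ M' := fun h hh => hh.1
      have hidx : M'.relIndex M ≤ L.relIndex (⁅R, H⁆ ⊔ L) := by
        have hmem : ∀ h ∈ M, h * x * h⁻¹ ∈ ⁅R, H⁆ ⊔ L := by
          intro h hh
          have h1 := (Subgroup.le_normalizer_iff.1 (comm_le R H hHR).2.2) h (hM hh) x hx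
          exact (le_sup_left : ⁅R, H⁆ ≤ ⁅R, H⁆ ⊔ L) h1
        unfold Subgroup.relIndex Subgroup.index
        refine Nat.card_le_card_of_injective
          (fun Q : M ⧸ M'.subgroupOf M => (QuotientGroup.mk
            (⟨(Q.out : G) * x * (Q.out : G)⁻¹, hmem _ Q.out.2⟩ : (⁅R, H⁆ ⊔ L : Subgroup G)) :
            (⁅R, H⁆ ⊔ L : Subgroup G) ⧸ L.subgroupOf (⁅R, H⁆ ⊔ L))) ?_
        intro Q1 Q2 hQ
        have h1 := QuotientGroup.eq.1 hQ
        rw [Subgroup.mem_subgroupOf] at h1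
        have h2 : ((Q1.out : G) * x * (Q1.out : G)⁻¹)⁻¹ * ((Q2.out : G) * x * (Q2.out : G)⁻¹) ∈ L := h1
        have h3 : (Q1.out : M)⁻¹ * (Q2.out : M) ∈ M'.subgroupOf M := by
          rw [Subgroup.mem_subgroupOf]
          refine ⟨((Q1.out : M)⁻¹ * (Q2.out : M)).2, ?_⟩
          have h4 := (Subgroup.le_normalizer_iff.1 hML) ((Q1.out : G))⁻¹
            (M.inv_mem Q1.out.2) _ h2
          have h5 : x⁻¹ * ((((Q1.out : M)⁻¹ * (Q2.out : M) : M) : G) * x *
              (((Q1.out : M)⁻¹ * (Q2.out : M) : M) : G)⁻¹) =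
              ((Q1.out : G))⁻¹ * (((Q1.out : G) * x * (Q1.out : G)⁻¹)⁻¹ *
              ((Q2.out : G) * x * (Q2.out : G)⁻¹)) * ((Q1.out : G))⁻¹⁻¹ := by
            push_cast
            group
          rw [h5]
          exact h4
        have h6 := QuotientGroup.eq.2 h3
        rw [← Q1.out_eq, ← Q2.out_eq]
        exact h6
      have h7 : (actTriv R L M' (hM'M.trans hML)).relIndex M' * M'.relIndex M =
          (actTriv R L M' (hM'M.trans hML)).relIndex M := Subgroup.relIndex_mul_relIndex _ _ _ hTM' hM'M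
      have h8 := ih M' (hM'M.trans hM) (by omega)
      have h9 := omega_lt (Nat.card_pos (α := M)).ne' hcard hcne
      rw [hT, ← h7]
      calc _ ≤ (L.relIndex (⁅R, H⁆ ⊔ L)) ^ (Nat.card M').primeFactorsList.length *
            L.relIndex (⁅R, H⁆ ⊔ L) := Nat.mul_le_mul h8 hidx
        _ = (L.relIndex (⁅R, H⁆ ⊔ L)) ^ ((Nat.card M').primeFactorsList.length + 1) :=
            (pow_succ _ _).symm
        _ ≤ _ := Nat.pow_le_pow_right hq h9

/-- PROOF. For `H' ≤ H` show by strong induction on the order: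
`(actTriv R L H').relIndex H' ≤ (L.relIndex (⁅R,H⁆ ⊔ L))^Ω(|H'|)`. If `H'` acts trivially on
`R/L` the index is `1`. Otherwise some `x ∈ ⁅R,H⁆` and `h ∈ H'` have `⁅x,h⁆ ∉ L`: if
`⁅⁅R,H⁆,H'⁆ ≤ L` then `⁅R,H'⁆ = ⁅⁅R,H'⁆,H'⁆ ≤ L` (`comm_comm`). Let `H''` be the stabilizer in `H'`
of the coset `x L` (`{h | x⁻¹ (h x h⁻¹) ∈ L}`), a proper subgroup containing `actTriv R L H'`, of
index at most the number of cosets of `L` in `⁅R,H⁆ ⊔ L` (`h x h⁻¹ L`, `h ∈ H'`, are such
cosets). `Ω(|H''|) + 1 ≤ Ω(|H'|)`. -/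
theorem c8b (r : ℕ) (hr : r.Prime) (R L H : Subgroup G) (hR : IsPGroup r R) (hL : L ≤ R)
    (hRL : R ≤ Nrm L) (hHR : H ≤ Nrm R) (hHL : H ≤ Nrm L) (hc : r.Coprime (Nat.card H)) (k : ℕ)
    (hk : (Nat.card H).primeFactorsList.length ≤ k) :
    (actTriv R L H hHL).relIndex H ≤ (L.relIndex (⁅R, H⁆ ⊔ L)) ^ k := by
  have hq : 1 ≤ L.relIndex (⁅R, H⁆ ⊔ L) := Nat.one_le_iff_ne_zero.2 Subgroup.index_ne_zero_of_finite
  exact (c8b_aux r hr R L H hR hL hRL hHR hHL hc _ H le_rfl le_rfl).trans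
    (Nat.pow_le_pow_right hq hk)

/-- A finite group generated by a set `S` is generated by at most `Ω(|H|)` elements of `S`.
PROOF. Greedy: `H_0 = ⊥`; if `H_i ≠ H` choose `s ∈ S`, `s ∉ H_i`, `H_{i+1} = H_i ⊔ zpowers s`;
`Ω(|H_i|)` increases strictly. -/
theorem exists_gens (H : Subgroup G) (S : Set G) (hS : Subgroup.closure S = H) :
    ∃ (s : ℕ) (g : Fin s → G), s ≤ (Nat.card H).primeFactorsList.length ∧ (∀ i, g i ∈ S) ∧
      ⨆ i, Subgroup.zpowers (g i) = H := by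
  have key : ∀ (n : ℕ) (K : Subgroup G), K ≤ H →
      (Nat.card H).primeFactorsList.length ≤ (Nat.card K).primeFactorsList.length + n →
      ∃ l : List G, l.length + (Nat.card K).primeFactorsList.length ≤
        (Nat.card H).primeFactorsList.length ∧ (∀ g ∈ l, g ∈ S) ∧
        K ⊔ Subgroup.closure {x | x ∈ l} = H := by
    intro n
    induction n with
    | zero =>
      intro K hK hn
      have h1 : K = H := by
        by_contra hne
        have hcne : Nat.card K ≠ Nat.card H :=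
          fun h => hne (Subgroup.eq_of_le_of_card_ge hK h.ge)
        have := omega_lt (Nat.card_pos (α := H)).ne' (Subgroup.card_dvd_of_le hK) hcne
        omega
      refine ⟨[], by rw [h1]; simp, by simp, by simp [h1]⟩
    | succ n ih =>
      intro K hK hn
      by_cases hKH : K = H
      · exact ⟨[], by rw [hKH]; simp, by simp, by simp [hKH]⟩
      · have h1 : ∃ g ∈ S, g ∉ K := by
          by_contra hcon
          push_neg at hcon
          apply hKH
          refine le_antisymm hK ?_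
          rw [← hS, Subgroup.closure_le]
          exact hcon
        obtain ⟨g, hg, hgK⟩ := h1
        have hgH : g ∈ H := by rw [← hS]; exact Subgroup.subset_closure hg
        have h2 : K ⊔ Subgroup.zpowers g ≤ H := sup_le hK (Subgroup.zpowers_le.2 hgH)
        have h3 : Nat.card K ≠ Nat.card (K ⊔ Subgroup.zpowers g : Subgroup G) := by
          intro h
          have h4 : K = K ⊔ Subgroup.zpowers g := Subgroup.eq_of_le_of_card_ge le_sup_left h.ge
          apply hgK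
          rw [h4]
          exact (le_sup_right : Subgroup.zpowers g ≤ _) (Subgroup.mem_zpowers g)
        have h5 := omega_lt (Nat.card_pos (α := (K ⊔ Subgroup.zpowers g : Subgroup G))).ne'
          (Subgroup.card_dvd_of_le (le_sup_left : K ≤ K ⊔ Subgroup.zpowers g)) h3
        obtain ⟨l, hl1, hl2, hl3⟩ := ih (K ⊔ Subgroup.zpowers g) h2 (by omega)
        refine ⟨g :: l, ?_, ?_, ?_⟩
        · rw [List.length_cons]; omega
        · intro y hy
          rcases List.mem_cons.1 hy with h | h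
          · rw [h]; exact hg
          · exact hl2 y h
        · have h6 : {x | x ∈ g :: l} = {g} ∪ {x | x ∈ l} := by
            ext y; simp
          rw [h6, Subgroup.closure_union, ← Subgroup.zpowers_eq_closure, ← sup_assoc]
          exact hl3
  obtain ⟨l, hl1, hl2, hl3⟩ := key _ ⊥ bot_le (Nat.le_add_left _ _)
  rw [bot_sup_eq] at hl3
  refine ⟨l.length, l.get, by omega, fun i => hl2 _ (List.get_mem l i), ?_⟩
  rw [← hl3]
  refine le_antisymm (iSup_le fun i => Subgroup.zpowers_le.2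
    (Subgroup.subset_closure (List.get_mem l i))) ?_
  rw [Subgroup.closure_le]
  intro y hy
  obtain ⟨i, hi⟩ := List.get_of_mem hy
  have h1 : Subgroup.zpowers (l.get i) ≤ ⨆ i, Subgroup.zpowers (l.get i) :=
    le_iSup (fun i => Subgroup.zpowers (l.get i)) i
  rw [← hi]
  exact h1 (Subgroup.mem_zpowers _)

/-- `⁅R, H⁆ ≤ ⨆ ⁅R, zpowers (g i)⁆` if `H` is generated by the `g i` which normalise `R`.
PROOF. Each `⁅R, zpowers (g i)⁆` is normal in `R`; the set of `h ∈ Nrm R` with `⁅x,h⁆ ∈ W` for all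
`x ∈ R`, where `W = ⨆ ⁅R, zpowers (g i)⁆`, is a subgroup: `⁅x, a b⁆ = ⁅x,a⁆ (a ⁅x,b⁆ a⁻¹)` and
`a w a⁻¹ = (⁅w,a⁆)⁻¹ w`-type identity: `a w a⁻¹ = ⁅a,w⁆ w` with `⁅a,w⁆ = ⁅w,a⁆⁻¹ ∈ W` since `w ∈ R`. -/
theorem comm_le_iSup (R : Subgroup G) {s : ℕ} (g : Fin s → G) (hg : ∀ i, g i ∈ Nrm R) :
    ⁅R, ⨆ i, Subgroup.zpowers (g i)⁆ ≤ ⨆ i, ⁅R, Subgroup.zpowers (g i)⁆ := by
  have hWR : ⨆ i, ⁅R, Subgroup.zpowers (g i)⁆ ≤ R :=
    iSup_le fun i => (comm_le R _ (Subgroup.zpowers_le.2 (hg i))).1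
  generalize hW : (⨆ i, ⁅R, Subgroup.zpowers (g i)⁆) = W at hWR ⊢
  let Q : Subgroup G :=
    { carrier := {h | h ∈ Nrm R ∧ ∀ x ∈ R, ⁅x, h⁆ ∈ W}
      one_mem' := ⟨(Nrm R).one_mem, fun x _ => by simp [commutatorElement_def]⟩
      mul_mem' := by
        rintro a b ⟨ha, ha'⟩ ⟨hb, hb'⟩
        refine ⟨(Nrm R).mul_mem ha hb, fun x hx => ?_⟩
        have h1 : ⁅x, a * b⁆ = ⁅x, a⁆ * ((⁅⁅x, b⁆, a⁆)⁻¹ * ⁅x, b⁆) := by
          simp only [commutatorElement_def]; group
        rw [h1]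
        exact W.mul_mem (ha' x hx) (W.mul_mem (W.inv_mem (ha' _ (hWR (hb' x hx)))) (hb' x hx))
      inv_mem' := by
        rintro a ⟨ha, ha'⟩
        refine ⟨(Nrm R).inv_mem ha, fun x hx => ?_⟩
        have h1 : ⁅x, a⁻¹⁆ = (⁅a⁻¹ * x * a⁻¹⁻¹, a⁆)⁻¹ := by
          simp only [commutatorElement_def]; group
        rw [h1]
        exact W.inv_mem (ha' _ ((Subgroup.mem_normalizer_iff.1 ((Nrm R).inv_mem ha) x).1 hx)) }
  have hle : ⨆ i, Subgroup.zpowers (g i) ≤ Q := by
    refine iSup_le fun i => Subgroup.zpowers_le.2 ⟨hg i, fun x hx => ?_⟩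
    have h1 : ⁅R, Subgroup.zpowers (g i)⁆ ≤ ⨆ i, ⁅R, Subgroup.zpowers (g i)⁆ :=
      le_iSup (fun i => ⁅R, Subgroup.zpowers (g i)⁆) i
    rw [← hW]
    exact h1 (Subgroup.commutator_mem_commutator hx (Subgroup.mem_zpowers _))
  rw [Subgroup.commutator_le]
  intro x hx h hh
  exact (hle hh).2 x hx

end FT
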