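import Mathlib
import Pool.Agent.helper11.FT.Defs
import Pool.Agent.helper11.FT.Semi

/-! # FT-C8c: normal subgroups of `R` are small compared to `[X,R']` -/

namespace FT

universe u v

variable {G : Type u} [Group G] [Finite G] {q : ℕ} [Fact q.Prime] {X : Type v} [AddCommGroup X]
  [Module (ZMod q) X] [Finite X] (ρ : Representation (ZMod q) G X)

/-- PROOF. Show for all `R`-invariant `T` contained in `[X,R']` that
`((cenSub ρ R' T).relIndex R')^m ≤ |T|`, by `inv_induction` (with the property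
`T ≤ movS ρ R' → ...`, or without this restriction: it holds for all invariant `T`). `T = ⊥`:
index `1`. `T = S ⊔ T'`, `S` simple: `cenSub ρ R' (S ⊔ T') = cenSub ρ R' S ⊓ cenSub ρ R' T'`,
`relIndex` of an intersection is at most the product, and
`(cenSub ρ R' S).relIndex R' ≤ (cenSub ρ R S).relIndex R` because
`cenSub ρ R' S = cenSub ρ R S ⊓ R'`. Finally for `T = [X,R']` (which is `R`-invariant):
`cenSub ρ R' (movS ρ R') = cenSub ρ R' ⊤` by `X = C_X(R') ⊕ [X,R']`. -/
theorem c8c (R R' : Subgroup G) (hR' : R' ≤ R) (hRR' : R ≤ Nrm R')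
    (hqR : q.Coprime (Nat.card R)) (m : ℕ)
    (hS : ∀ S, SimpleSub ρ R S → ((cenSub ρ R S).relIndex R) ^ m ≤ Nat.card S) :
    ((cenSub ρ R' ⊤).relIndex R') ^ m ≤ Nat.card (movS ρ R') := by
  have hqR' : q.Coprime (Nat.card R') :=
    Nat.Coprime.coprime_dvd_right (Subgroup.card_dvd_of_le hR') hqR
  have key : ∀ T : Submodule (ZMod q) X, Inv ρ R T →
      ((cenSub ρ R' T).relIndex R') ^ m ≤ Nat.card T := by
    intro T hT
    refine inv_induction ρ R hqR
      (fun T => ((cenSub ρ R' T).relIndex R') ^ m ≤ Nat.card T) ?_ ?_ T hT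
    · have h1 : cenSub ρ R' (⊥ : Submodule (ZMod q) X) = R' := by
        ext r
        refine ⟨fun h => h.1, fun h => ⟨h, fun x hx => ?_⟩⟩
        rw [Submodule.mem_bot] at hx
        rw [hx, map_zero]
      show ((cenSub ρ R' (⊥ : Submodule (ZMod q) X)).relIndex R') ^ m ≤ _
      rw [h1, Subgroup.relIndex_self, one_pow]
      exact Nat.one_le_iff_ne_zero.2 Nat.card_pos.ne'
    · intro S T' hSs _ _ hcard ih
      show ((cenSub ρ R' (S ⊔ T')).relIndex R') ^ m ≤ _
      have h1 : cenSub ρ R' (S ⊔ T') = cenSub ρ R' S ⊓ cenSub ρ R' T' := by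
        ext r
        rw [Subgroup.mem_inf]
        refine ⟨fun h => ⟨⟨h.1, fun x hx => h.2 x (Submodule.mem_sup_left hx)⟩,
          ⟨h.1, fun x hx => h.2 x (Submodule.mem_sup_right hx)⟩⟩, fun h => ⟨h.1.1, fun x hx => ?_⟩⟩
        obtain ⟨y, hy, z, hz, rfl⟩ := Submodule.mem_sup.1 hx
        rw [map_add, h.1.2 y hy, h.2.2 z hz]
      have h2 : cenSub ρ R' S = cenSub ρ R S ⊓ R' := by
        ext r
        rw [Subgroup.mem_inf]
        exact ⟨fun h => ⟨⟨hR' h.1, h.2⟩, h.1⟩, fun h => ⟨h.2, h.1.2⟩⟩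
      have h3 : (cenSub ρ R' S).relIndex R' ≤ (cenSub ρ R S).relIndex R := by
        rw [h2, Subgroup.inf_relIndex_right]
        exact Subgroup.relIndex_le_of_le_right hR' (Subgroup.index_ne_zero_of_finite)
      have h4 : (cenSub ρ R' (S ⊔ T')).relIndex R' ≤
          (cenSub ρ R S).relIndex R * (cenSub ρ R' T').relIndex R' := by
        rw [h1]
        exact le_trans Subgroup.relIndex_inf_le (Nat.mul_le_mul_right _ h3)
      calc ((cenSub ρ R' (S ⊔ T')).relIndex R') ^ m
          ≤ ((cenSub ρ R S).relIndex R * (cenSub ρ R' T').relIndex R') ^ m :=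
            Nat.pow_le_pow_left h4 m
        _ = ((cenSub ρ R S).relIndex R) ^ m * ((cenSub ρ R' T').relIndex R') ^ m :=
            Nat.mul_pow _ _ _
        _ ≤ Nat.card S * Nat.card T' := Nat.mul_le_mul (hS S hSs) ih
        _ = _ := hcard.symm
  have h5 := key (movS ρ R') (inv_mov ρ R R' hRR').1
  have h6 : cenSub ρ R' (movS ρ R') = cenSub ρ R' ⊤ := by
    ext r
    refine ⟨fun h => ⟨h.1, fun x _ => ?_⟩, fun h => ⟨h.1, fun x _ => h.2 x trivial⟩⟩
    have hx : x ∈ fixS ρ R' ⊔ movS ρ R' := by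
      rw [(fix_mov_compl ρ R' hqR').sup_eq_top]
      trivial
    obtain ⟨y, hy, z, hz, rfl⟩ := Submodule.mem_sup.1 hx
    rw [map_add, hy r h.1, h.2 z hz]
  rw [← h6]
  exact h5

end FT
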