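import Mathlib
import Pool.Agent.helper11.FT.Defs
import Pool.Agent.helper11.FT.Semi
import Pool.Agent.helper11.FT.Cop

/-! # FT-C8d1: averaging lemmas -/

namespace FT

universe u v

open scoped commutatorElement

variable {G : Type u} [Group G] [Finite G] {q : ℕ} [Fact q.Prime] {X : Type v} [AddCommGroup X]
  [Module (ZMod q) X] [Finite X] (ρ : Representation (ZMod q) G X)

/-- `[T, y]` for one element `y` and a submodule `T` -/
def mv1 (ρ : Representation (ZMod q) G X) (T : Submodule (ZMod q) X) (y : G) :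
    Submodule (ZMod q) X :=
  T.map (ρ y - 1)

/-- the averaging argument -/
private theorem c8d1_avg {I : Type*} [Fintype I] [Nonempty I] (A : Subgroup G)
    (hq : q.Coprime (Nat.card A)) (T : Submodule (ZMod q) X) (hT : Inv ρ A T) (z : I → G)
    (hz : ∀ i, z i ∈ A) (a b : ℕ)
    (h : ∀ S ≤ T, SimpleSub ρ A S → ∃ F : Finset I, a * Fintype.card I ≤ b * F.card ∧
      ∀ i ∈ F, ∀ v ∈ S, ρ (z i) v = v → v = 0) :
    ∃ i, a * Module.finrank (ZMod q) T ≤ b * Module.finrank (ZMod q) (mv1 ρ T (z i)) := by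
  classical
  have hfd : FiniteDimensional (ZMod q) X := inferInstance
  have key : T ≤ T → a * Fintype.card I * Module.finrank (ZMod q) T ≤
      b * ∑ i, Module.finrank (ZMod q) (mv1 ρ T (z i)) := by
    refine inv_induction ρ A hq (fun T' => T' ≤ T → a * Fintype.card I *
      Module.finrank (ZMod q) T' ≤ b * ∑ i, Module.finrank (ZMod q) (mv1 ρ T' (z i)))
      ?_ ?_ T hT
    · intro _
      simp
    · intro S T' hS hT' hdis _ ih hle
      have hSle : S ≤ T := le_sup_left.trans hle
      have hTle : T' ≤ T := le_sup_right.trans hle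
      have h1 := ih hTle
      have hmvS : ∀ i, mv1 ρ S (z i) ≤ S := by
        intro i
        unfold mv1
        rw [Submodule.map_le_iff_le_comap]
        intro v hv
        rw [Submodule.mem_comap, LinearMap.sub_apply, Module.End.one_apply]
        exact S.sub_mem (hS.2.1 _ (hz i) v hv) hv
      have hmvT : ∀ i, mv1 ρ T' (z i) ≤ T' := by
        intro i
        unfold mv1
        rw [Submodule.map_le_iff_le_comap]
        intro v hv
        rw [Submodule.mem_comap, LinearMap.sub_apply, Module.End.one_apply]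
        exact T'.sub_mem (hT' _ (hz i) v hv) hv
      have hadd : ∀ P Q : Submodule (ZMod q) X, P ≤ S → Q ≤ T' →
          Module.finrank (ZMod q) (P ⊔ Q : Submodule (ZMod q) X) =
            Module.finrank (ZMod q) P + Module.finrank (ZMod q) Q := by
        intro P Q hP hQ
        have h2 := Submodule.finrank_sup_add_finrank_inf_eq P Q
        have h3 : P ⊓ Q = ⊥ := by
          rw [eq_bot_iff, ← hdis]
          exact inf_le_inf hP hQ
        rw [h3, finrank_bot, add_zero] at h2
        exact h2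
      have hmv : ∀ i, Module.finrank (ZMod q) (mv1 ρ (S ⊔ T') (z i)) =
          Module.finrank (ZMod q) (mv1 ρ S (z i)) +
            Module.finrank (ZMod q) (mv1 ρ T' (z i)) := by
        intro i
        have h2 : mv1 ρ (S ⊔ T') (z i) = mv1 ρ S (z i) ⊔ mv1 ρ T' (z i) := by
          unfold mv1
          rw [Submodule.map_sup]
        rw [h2, hadd _ _ (hmvS i) (hmvT i)]
      rw [hadd S T' le_rfl le_rfl, Finset.sum_congr rfl (fun i _ => hmv i),
        Finset.sum_add_distrib, mul_add, mul_add]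
      refine add_le_add ?_ h1
      obtain ⟨F, hF1, hF2⟩ := h S hSle hS
      have hinj : ∀ i ∈ F, Module.finrank (ZMod q) (mv1 ρ S (z i)) =
          Module.finrank (ZMod q) S := by
        intro i hi
        have h4 : Function.Injective ((ρ (z i) - 1 : Module.End (ZMod q) X).domRestrict S) := by
          rw [← LinearMap.ker_eq_bot, LinearMap.ker_eq_bot']
          intro v hv
          rw [LinearMap.domRestrict_apply, LinearMap.sub_apply, Module.End.one_apply] at hv
          exact Subtype.ext (hF2 i hi v.1 v.2 (sub_eq_zero.1 hv))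
        have h5 := LinearMap.finrank_range_of_inj h4
        rw [LinearMap.range_domRestrict] at h5
        exact h5
      calc a * Fintype.card I * Module.finrank (ZMod q) S
          ≤ b * F.card * Module.finrank (ZMod q) S := Nat.mul_le_mul_right _ hF1
        _ = b * ∑ i ∈ F, Module.finrank (ZMod q) (mv1 ρ S (z i)) := by
            rw [Finset.sum_congr rfl hinj, Finset.sum_const, smul_eq_mul, mul_assoc]
        _ ≤ b * ∑ i, Module.finrank (ZMod q) (mv1 ρ S (z i)) :=
            Nat.mul_le_mul_left _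
              (Finset.sum_le_sum_of_subset (Finset.subset_univ F))
  have key := key le_rfl
  by_contra hcon
  push Not at hcon
  have h6 : ∑ i : I, b * Module.finrank (ZMod q) (mv1 ρ T (z i)) <
      ∑ _i : I, a * Module.finrank (ZMod q) T :=
    Finset.sum_lt_sum_of_nonempty Finset.univ_nonempty fun i _ => hcon i
  rw [← Finset.mul_sum, Finset.sum_const, Finset.card_univ, smul_eq_mul] at h6
  have h7 : a * Fintype.card I * Module.finrank (ZMod q) T =
      Fintype.card I * (a * Module.finrank (ZMod q) T) := by ring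
  omega

omit [Finite G] [Finite X] in
/-- an element which commutes with `A` on the simple module `S` is trivial or without fixed
points on `S` -/
private theorem c8d1_dich (A : Subgroup G) (S : Submodule (ZMod q) X) (hS : SimpleSub ρ A S)
    (y : G) (hy : ∀ x ∈ A, ∀ v ∈ S, ρ y v = v → ρ y (ρ x v) = ρ x v) :
    (∀ v ∈ S, ρ y v = v) ∨ ∀ v ∈ S, ρ y v = v → v = 0 := by
  let S' : Submodule (ZMod q) X :=
    { carrier := {v | v ∈ S ∧ ρ y v = v}
      zero_mem' := ⟨S.zero_mem, map_zero _⟩
      add_mem' := fun {a b} ha hb => ⟨S.add_mem ha.1 hb.1, by rw [map_add, ha.2, hb.2]⟩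
      smul_mem' := fun c a ha => ⟨S.smul_mem c ha.1, by rw [map_smul, ha.2]⟩ }
  have hmem : ∀ v, v ∈ S' ↔ v ∈ S ∧ ρ y v = v := fun v => Iff.rfl
  rcases hS.2.2 S' (fun v hv => hv.1)
    (fun r hr v hv => ⟨hS.2.1 r hr v hv.1, hy r hr v hv.1 hv.2⟩) with h | h
  · right
    intro v hv hyv
    have h1 : v ∈ S' := ⟨hv, hyv⟩
    rw [h] at h1
    exact (Submodule.mem_bot _).1 h1
  · left
    intro v hv
    have h1 : v ∈ S' := by rw [h]; exact hv
    exact h1.2

/-- a proper subgroup has at most half of the elements -/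
private theorem c8d1_half {Γ : Type*} [Group Γ] [Finite Γ] (C : Subgroup Γ) (h : C ≠ ⊤) :
    2 * Nat.card C ≤ Nat.card Γ := by
  have h1 := C.index_mul_card
  have h2 : C.index ≠ 0 := Subgroup.index_ne_zero_of_finite
  have h3 : C.index ≠ 1 := fun h4 => h (Subgroup.index_eq_one.1 h4)
  rw [← h1]
  exact Nat.mul_le_mul_right _ (by omega)

/-- at least `3/8` of the pairs of a finite group do not commute modulo a normal subgroup with
nonabelian quotient -/
private theorem c8d1_pairs {Γ : Type*} [Group Γ] [Fintype Γ] (N : Subgroup Γ) [N.Normal]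
    (h : ∃ u v : Γ, ⁅u, v⁆ ∉ N) : ∃ F : Finset (Γ × Γ),
      3 * Fintype.card (Γ × Γ) ≤ 8 * F.card ∧ ∀ p ∈ F, ⁅p.1, p.2⁆ ∉ N := by
  classical
  let π : Γ →* Γ ⧸ N := QuotientGroup.mk' N
  have hπ : Function.Surjective π := QuotientGroup.mk'_surjective N
  have hker : ∀ u v : Γ, ⁅u, v⁆ ∈ N ↔ π u * π v = π v * π u := by
    intro u v
    rw [← commutatorElement_eq_one_iff_mul_comm, ← map_commutatorElement]
    exact (QuotientGroup.eq_one_iff _).symm
  let B : Subgroup Γ := (Subgroup.center (Γ ⧸ N)).comap π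
  have hB4 : 4 * Nat.card B ≤ Nat.card Γ := by
    have h1 := B.index_mul_card
    have h2 : B.index = (Subgroup.center (Γ ⧸ N)).index :=
      Subgroup.index_comap_of_surjective _ hπ
    have h3 : (Subgroup.center (Γ ⧸ N)).index ≠ 0 := Subgroup.index_ne_zero_of_finite
    have h4 : ¬ IsCyclic ((Γ ⧸ N) ⧸ Subgroup.center (Γ ⧸ N)) := by
      intro h5
      obtain ⟨u, v, huv⟩ := h
      apply huv
      rw [hker]
      exact commutative_of_cyclic_center_quotient
        (QuotientGroup.mk' (Subgroup.center (Γ ⧸ N))) (by rw [QuotientGroup.ker_mk']) _ _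
    have h6 : Nat.card ((Γ ⧸ N) ⧸ Subgroup.center (Γ ⧸ N)) =
        (Subgroup.center (Γ ⧸ N)).index := rfl
    have h7 : (Subgroup.center (Γ ⧸ N)).index ≠ 1 := by
      intro h8
      apply h4
      rw [h8] at h6
      have := (Nat.card_eq_one_iff_unique.1 h6).1
      exact isCyclic_of_subsingleton
    have h9 : (Subgroup.center (Γ ⧸ N)).index ≠ 2 := by
      intro h8
      apply h4
      rw [h8] at h6
      have : Fact (Nat.Prime 2) := ⟨Nat.prime_two⟩
      exact isCyclic_of_prime_card h6
    have h10 : (Subgroup.center (Γ ⧸ N)).index ≠ 3 := by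
      intro h8
      apply h4
      rw [h8] at h6
      have : Fact (Nat.Prime 3) := ⟨Nat.prime_three⟩
      exact isCyclic_of_prime_card h6
    rw [← h1, h2]
    exact Nat.mul_le_mul_right _ (by omega)
  let F : Finset (Γ × Γ) := Finset.univ.filter (fun p => ⁅p.1, p.2⁆ ∉ N)
  refine ⟨F, ?_, fun p hp => (Finset.mem_filter.1 hp).2⟩
  have hsplit : F.card + (Finset.univ.filter (fun p : Γ × Γ => ⁅p.1, p.2⁆ ∈ N)).card =
      Fintype.card (Γ × Γ) := by
    rw [← Finset.card_univ (α := Γ × Γ)]
    have h1 := Finset.card_filter_add_card_filter_not (s := (Finset.univ : Finset (Γ × Γ)))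
      (fun p : Γ × Γ => ⁅p.1, p.2⁆ ∈ N)
    rw [add_comm]
    exact h1
  have hcount : (Finset.univ.filter (fun p : Γ × Γ => ⁅p.1, p.2⁆ ∈ N)).card =
      ∑ u : Γ, (Finset.univ.filter (fun v : Γ => ⁅u, v⁆ ∈ N)).card := by
    simp only [Finset.card_filter]
    rw [Fintype.sum_prod_type]
  have hrow : ∀ u : Γ, 2 * (Finset.univ.filter (fun v : Γ => ⁅u, v⁆ ∈ N)).card ≤
      Nat.card Γ + if u ∈ B then Nat.card Γ else 0 := by
    intro u
    by_cases hu : u ∈ B
    · rw [if_pos hu]
      have h1 : (Finset.univ.filter (fun v : Γ => ⁅u, v⁆ ∈ N)).card ≤ Nat.card Γ := by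
        rw [Nat.card_eq_fintype_card]
        exact Finset.card_le_univ _
      omega
    · rw [if_neg hu, add_zero]
      let C : Subgroup Γ := (Subgroup.centralizer {π u}).comap π
      have hC : ∀ v, v ∈ C ↔ ⁅u, v⁆ ∈ N := by
        intro v
        rw [hker, Subgroup.mem_comap, Subgroup.mem_centralizer_iff]
        constructor
        · intro h1
          exact h1 _ (Set.mem_singleton _)
        · intro h1 w hw
          rw [Set.mem_singleton_iff.1 hw]
          exact h1
      have hCtop : C ≠ ⊤ := by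
        intro h1
        apply hu
        change π u ∈ Subgroup.center (Γ ⧸ N)
        rw [Subgroup.mem_center_iff]
        intro g
        obtain ⟨v, rfl⟩ := hπ g
        have h2 : v ∈ C := by rw [h1]; exact Subgroup.mem_top v
        exact ((hker u v).1 ((hC v).1 h2)).symm
      have h1 := c8d1_half C hCtop
      have h2 : Nat.card C = (Finset.univ.filter (fun v : Γ => ⁅u, v⁆ ∈ N)).card := by
        rw [← Nat.subtype_card (p := fun v => v ∈ C) _ (by
          intro v
          rw [Finset.mem_filter, hC v]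
          exact ⟨fun h => h.2, fun h => ⟨Finset.mem_univ _, h⟩⟩)]
      rw [← h2]
      exact h1
  have hBc : (Finset.univ.filter (fun u : Γ => u ∈ B)).card = Nat.card B := by
    rw [← Nat.subtype_card (p := fun v => v ∈ B) _ (by
      intro v
      rw [Finset.mem_filter]
      exact ⟨fun h => h.2, fun h => ⟨Finset.mem_univ _, h⟩⟩)]
  have hsum := Finset.sum_le_sum (s := Finset.univ) (fun u _ => hrow u)
  rw [← Finset.mul_sum, ← hcount, Finset.sum_add_distrib, Finset.sum_const, Finset.card_univ,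
    ← Finset.sum_filter, Finset.sum_const, hBc, smul_eq_mul, smul_eq_mul,
    ← Nat.card_eq_fintype_card] at hsum
  have hcard : Fintype.card (Γ × Γ) = Nat.card Γ * Nat.card Γ := by
    rw [Fintype.card_prod, Nat.card_eq_fintype_card]
  rw [hcard] at hsplit ⊢
  have h5 : 4 * Nat.card B * Nat.card Γ ≤ Nat.card Γ * Nat.card Γ :=
    Nat.mul_le_mul_right _ hB4
  nlinarith

/-- `A` acts on the invariant submodule `T` as an abelian group without fixed points. Then some
`y ∈ A` moves at least half of `T`.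
PROOF. Show `2 * ∑_{y ∈ A} dim [T,y] ≥ |A| dim T` by `inv_induction` (for invariant `T' ≤ T`; the sum
is additive for `T = S ⊕ T'` : `dim [S ⊔ T', y] = dim [S,y] + dim [T',y]`). For `S` simple,
`y ∈ A` not centralising `S`: `C_S(y)` is `A`-invariant (the action on `T` is abelian) and proper so
`0`, `dim [S,y] = dim S`; the elements centralising `S` form a proper subgroup of `A`, at most
half of `A`. (`finrank` over `ZMod q`; `mv1` has the dimension of `T` minus that of the fixed
space.) -/
theorem exists_half (A : Subgroup G) (hq : q.Coprime (Nat.card A)) (T : Submodule (ZMod q) X)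
    (hT : Inv ρ A T) (hab : ∀ x ∈ A, ∀ y ∈ A, ∀ v ∈ T, ρ ⁅x, y⁆ v = v)
    (hfix : T ⊓ fixS ρ A = ⊥) :
    ∃ y ∈ A, Module.finrank (ZMod q) T ≤ 2 * Module.finrank (ZMod q) (mv1 ρ T y) := by
  classical
  let _ : Fintype A := Fintype.ofFinite A
  obtain ⟨⟨y, hy⟩, h⟩ := c8d1_avg ρ A hq T hT (I := A) (z := fun y => y.1) (fun y => y.2) 1 2 (by
    intro S hST hS
    let C : Subgroup A := (cenSub ρ A S).subgroupOf A
    have hC : ∀ y : A, y ∈ C ↔ ∀ v ∈ S, ρ y.1 v = v := by
      intro y
      rw [Subgroup.mem_subgroupOf]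
      exact ⟨fun h => h.2, fun h => ⟨y.2, h⟩⟩
    have hCtop : C ≠ ⊤ := by
      intro h1
      apply hS.1
      rw [eq_bot_iff, ← hfix]
      refine le_inf hST fun v hv => ?_
      rw [mem_fixS]
      intro y hy
      exact (hC ⟨y, hy⟩).1 (by rw [h1]; exact Subgroup.mem_top _) v hv
    refine ⟨Finset.univ.filter (fun y : A => y ∉ C), ?_, ?_⟩
    · have h1 := c8d1_half C hCtop
      have h2 := Finset.card_filter_add_card_filter_not (s := (Finset.univ : Finset A))
        (fun y : A => y ∈ C)
      have h3 : (Finset.univ.filter (fun u : A => u ∈ C)).card = Nat.card C := by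
        rw [← Nat.subtype_card (p := fun v => v ∈ C) _ (by
          intro v
          rw [Finset.mem_filter]
          exact ⟨fun h => h.2, fun h => ⟨Finset.mem_univ _, h⟩⟩)]
      rw [Finset.card_univ, h3] at h2
      rw [Nat.card_eq_fintype_card (α := A)] at h1
      omega
    · intro y hy v hv hyv
      rw [Finset.mem_filter] at hy
      rcases c8d1_dich ρ A S hS y.1 (by
        intro x hx w hw hyw
        have h1 : y.1 * x = x * y.1 * ⁅(y.1)⁻¹, x⁻¹⁆ := by
          rw [commutatorElement_def]; group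
        rw [← Module.End.mul_apply, ← map_mul, h1, map_mul, map_mul, Module.End.mul_apply,
          Module.End.mul_apply,
          hab _ (A.inv_mem y.2) _ (A.inv_mem hx) w (hST hw), hyw]) with h1 | h1
      · exact absurd ((hC y).2 h1) hy.2
      · exact h1 v hv hyv)
  exact ⟨y, hy, by rw [one_mul] at h; exact h⟩

/-- `A` acts on the invariant submodule `T` with `⁅A,A⁆` central and without fixed points. Then some
commutator `⁅u,u'⁆` moves at least `3/8` of `T`.
PROOF. Show `8 * ∑_{(u,u') ∈ A × A} dim [T,⁅u,u'⁆] ≥ 3 |A|^2 dim T` by additivity over a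
decomposition into simple `A`-modules as in `exists_half`. For `S` simple: an element
`z = ⁅u,u'⁆` acts on `S` commuting with `A`, so `C_S(z)` is `0` or `S`: `dim [S,z]` is `dim S` or `0`.
`B = {u ∈ A | ∀ u' ∈ A, ⁅u,u'⁆ trivial on S}` is a subgroup (modulo the kernel on `S`, where
commutators are central, `⁅u v, u'⁆ = ⁅u,u'⁆ ⁅v,u'⁆`). `B ≠ A` as `⁅A,A⁆` is not trivial on `S`
(`S ⊓ fixS ρ ⁅A,A⁆ = ⊥`). The index `|A : B|` is not `2` or `3`, otherwise `A = ⟨a⟩ B`
is abelian modulo the kernel on `S`. So `|A : B| ≥ 4`. For `u ∉ B`,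
`{u' | ⁅u,u'⁆ trivial on S}` is a proper subgroup of `A`, so at most half of `A`. So at least
`(3/4)|A| (1/2)|A|` pairs act without fixed points on `S`. -/
theorem exists_three_eighths (A : Subgroup G) (hq : q.Coprime (Nat.card A))
    (T : Submodule (ZMod q) X) (hT : Inv ρ A T)
    (hcl : ∀ x ∈ A, ∀ y ∈ A, ∀ z ∈ A, ∀ v ∈ T, ρ ⁅⁅x, y⁆, z⁆ v = v)
    (hfix : T ⊓ fixS ρ ⁅A, A⁆ = ⊥) :
    ∃ u ∈ A, ∃ u' ∈ A,
      3 * Module.finrank (ZMod q) T ≤ 8 * Module.finrank (ZMod q) (mv1 ρ T ⁅u, u'⁆) := by
  classical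
  let _ : Fintype A := Fintype.ofFinite A
  obtain ⟨⟨⟨u, hu⟩, ⟨u', hu'⟩⟩, h⟩ := c8d1_avg ρ A hq T hT (I := A × A)
    (z := fun p => ⁅p.1.1, p.2.1⁆)
    (fun p => A.mul_mem (A.mul_mem (A.mul_mem p.1.2 p.2.2) (A.inv_mem p.1.2))
      (A.inv_mem p.2.2)) 3 8 (by
    intro S hST hS
    let N : Subgroup A := (cenSub ρ A S).subgroupOf A
    have hN : ∀ y : A, y ∈ N ↔ ∀ v ∈ S, ρ y.1 v = v := by
      intro y
      rw [Subgroup.mem_subgroupOf]
      exact ⟨fun h => h.2, fun h => ⟨y.2, h⟩⟩
    have hNn : N.Normal := by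
      constructor
      intro n hn g
      rw [hN] at hn ⊢
      intro v hv
      have h1 := hn _ (hS.2.1 _ (A.inv_mem g.2) v hv)
      have h2 : ((g * n * g⁻¹ : A) : G) = g.1 * n.1 * (g.1)⁻¹ := rfl
      rw [h2, map_mul, map_mul, Module.End.mul_apply, Module.End.mul_apply, h1,
        ← Module.End.mul_apply, ← map_mul, mul_inv_cancel, map_one, Module.End.one_apply]
    have hcomm : ∀ p : A × A, ((⁅p.1, p.2⁆ : A) : G) = ⁅p.1.1, p.2.1⁆ := fun p => rfl
    obtain ⟨F, hF1, hF2⟩ := c8d1_pairs N (by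
      by_contra hcon
      push Not at hcon
      apply hS.1
      rw [eq_bot_iff, ← hfix]
      refine le_inf hST fun v hv => ?_
      rw [mem_fixS]
      have h1 : ⁅A, A⁆ ≤ cenSub ρ A S := by
        rw [Subgroup.commutator_le]
        intro g₁ h₁ g₂ h₂
        exact hcon ⟨g₁, h₁⟩ ⟨g₂, h₂⟩
      exact fun y hy => (h1 hy).2 v hv)
    refine ⟨F, hF1, ?_⟩
    intro p hp v hv hyv
    have hz : ⁅p.1.1, p.2.1⁆ ∈ A := (⁅p.1, p.2⁆ : A).2
    rcases c8d1_dich ρ A S hS ⁅p.1.1, p.2.1⁆ (by
      intro x hx w hw hyw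
      have h1 : ⁅p.1.1, p.2.1⁆ * x = x * ⁅p.1.1, p.2.1⁆ * ⁅⁅p.2.1, p.1.1⁆, x⁻¹⁆ := by
        simp only [commutatorElement_def]; group
      rw [← Module.End.mul_apply, ← map_mul, h1, map_mul, map_mul, Module.End.mul_apply,
        Module.End.mul_apply,
        hcl _ p.2.2 _ p.1.2 _ (A.inv_mem hx) w (hST hw), hyw]) with h1 | h1
    · exact absurd ((hN ⁅p.1, p.2⁆).2 h1) (hF2 p hp)
    · exact h1 v hv hyv)
  exact ⟨u, hu, u', hu', h⟩

end FT
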