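import Mathlib
import Pool.Agent.helper11.FT.Defs
import Pool.Agent.helper11.FT.Semi
import Pool.Agent.helper11.FT.Cop
import Pool.Agent.helper11.FT.C8d1

/-! # FT-C8d: `|[X, [R,h]]| ≤ |[X,h]|^16` -/

namespace FT

universe u v

open scoped commutatorElement

/-- Every element of `Rh = ⁅R, ⟨h⟩⁆` is a commutator `⁅x,h⁆`, `x ∈ Rh`, modulo `⁅Rh,Rh⁆`.
PROOF. `Rh = ⁅Rh, ⟨h⟩⁆` (`comm_comm`). Modulo `⁅Rh,Rh⁆` the map `x ↦ ⁅x,h⁆` is a homomorphism of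
`Rh/⁅Rh,Rh⁆`; its image is a subgroup, invariant under `h`, so contains all `⁅x, h^j⁆`
(`⁅x, h h'⁆ = ⁅x,h⁆ (h ⁅x,h'⁆ h⁻¹)`), hence is everything. -/
theorem exists_comm_coset {G : Type u} [Group G] [Finite G] (r : ℕ) (hr : r.Prime)
    (R : Subgroup G) (hR : IsPGroup r R) (h : G) (hh : h ∈ Nrm R) (hc : r.Coprime (orderOf h))
    (y : G) (hy : y ∈ ⁅R, Subgroup.zpowers h⁆) :
    ∃ x ∈ ⁅R, Subgroup.zpowers h⁆,
      ∃ c ∈ ⁅⁅R, Subgroup.zpowers h⁆, ⁅R, Subgroup.zpowers h⁆⁆, y = ⁅x, h⁆ * c := by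
  have hhz : Subgroup.zpowers h ≤ Nrm R := by
    rw [Subgroup.zpowers_le]; exact hh
  have : Fact r.Prime := ⟨hr⟩
  have hnil : Group.IsNilpotent R := hR.isNilpotent
  have hs : Group.IsSolvable R := inferInstance
  have hcop : (Nat.card R).Coprime (Nat.card (Subgroup.zpowers h)) := by
    obtain ⟨n, hn⟩ := IsPGroup.iff_card.1 hR
    rw [hn, Nat.card_zpowers]
    exact Nat.Coprime.pow_left n hc
  obtain ⟨k1, k2, k3⟩ := comm_le R (Subgroup.zpowers h) hhz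
  have hcc := comm_comm R (Subgroup.zpowers h) hhz hs hcop
  set Rh : Subgroup G := ⁅R, Subgroup.zpowers h⁆ with hRh
  have hhRh : h ∈ Nrm Rh := k3 (Subgroup.mem_zpowers h)
  have hconj : ∀ x ∈ Rh, h * x * h⁻¹ ∈ Rh := fun x hx =>
    (Subgroup.mem_normalizer_iff.1 hhRh x).1 hx
  have hcm : ∀ x ∈ Rh, ⁅x, h⁆ ∈ Rh := by
    intro x hx
    have h1 := hconj x⁻¹ (Rh.inv_mem hx)
    have h2 : ⁅x, h⁆ = x * (h * x⁻¹ * h⁻¹) := by
      rw [commutatorElement_def]; group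
    rw [h2]
    exact Rh.mul_mem hx h1
  let f : Rh →* Abelianization Rh := MonoidHom.mk'
    (fun x => Abelianization.of ⟨⁅x.1, h⁆, hcm x.1 x.2⟩) (by
      intro a b
      have e : (⟨⁅(a * b).1, h⁆, hcm (a * b).1 (a * b).2⟩ : Rh) =
          a * ⟨⁅b.1, h⁆, hcm b.1 b.2⟩ * a⁻¹ * ⟨⁅a.1, h⁆, hcm a.1 a.2⟩ := by
        apply Subtype.ext
        simp only [Subgroup.coe_mul, Subgroup.coe_inv, commutatorElement_def]
        group
      change Abelianization.of _ = Abelianization.of _ * Abelianization.of _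
      rw [e, map_mul, map_mul, map_mul, map_inv, mul_inv_cancel_comm, mul_comm])
  have hf : ∀ x : Rh, f x = Abelianization.of ⟨⁅x.1, h⁆, hcm x.1 x.2⟩ := fun x => rfl
  let S : Subgroup G := ((f.range).comap Abelianization.of).map Rh.subtype
  have hS : ∀ z ∈ Rh, z ∈ S → ∃ x ∈ Rh, ∃ c ∈ ⁅Rh, Rh⁆, z = ⁅x, h⁆ * c := by
    rintro z hz ⟨z', ⟨x, hx⟩, rfl⟩
    refine ⟨x, x.2, ⁅x.1, h⁆⁻¹ * z'.1, ?_, ?_⟩
    · have h1 : (⟨⁅x.1, h⁆, hcm x.1 x.2⟩ : Rh)⁻¹ * z' ∈ commutator Rh := by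
        rw [← Abelianization.ker_of, MonoidHom.mem_ker, map_mul, map_inv, ← hf, hx]
        simp
      have h2 := Subgroup.mem_map_of_mem Rh.subtype h1
      rw [commutator_def, Subgroup.map_commutator, ← MonoidHom.range_eq_map,
        Subgroup.range_subtype] at h2
      exact h2
    · exact (mul_inv_cancel_left _ _).symm
  have hpow : ∀ n : ℕ, ∀ x ∈ Rh, ⁅x, h ^ n⁆ ∈ S := by
    intro n
    induction n with
    | zero =>
      intro x _
      simp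
    | succ n ih =>
      intro x hx
      have e : ⁅x, h ^ (n + 1)⁆ = ⁅x, h⁆ * ⁅h * x * h⁻¹, h ^ n⁆ := by
        have h1 : h⁻¹ * h ^ n = h ^ n * h⁻¹ := by
          rw [← zpow_natCast]
          group
        have h2 : h ^ (n + 1) = h * h ^ n := pow_succ' h n
        rw [commutatorElement_def, commutatorElement_def, commutatorElement_def, h2]
        calc x * (h * h ^ n) * x⁻¹ * (h * h ^ n)⁻¹
            = x * h * h ^ n * x⁻¹ * (h ^ n)⁻¹ * h⁻¹ := by group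
          _ = x * h * h ^ n * x⁻¹ * (h⁻¹ * (h ^ n)⁻¹) := by
              have h3 : (h ^ n)⁻¹ * h⁻¹ = h⁻¹ * (h ^ n)⁻¹ := by
                rw [← mul_inv_rev, ← mul_inv_rev, ← pow_succ, ← pow_succ']
              rw [← h3]; group
          _ = x * h * (h ^ n * h⁻¹ * h) * x⁻¹ * h⁻¹ * (h ^ n)⁻¹ := by group
          _ = x * h * (h⁻¹ * h ^ n * h) * x⁻¹ * h⁻¹ * (h ^ n)⁻¹ := by rw [h1]
          _ = x * h * x⁻¹ * h⁻¹ * (h * x * h⁻¹ * h ^ n * (h * x * h⁻¹)⁻¹ * (h ^ n)⁻¹) := by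
              group
      rw [e]
      refine S.mul_mem ?_ (ih _ (hconj x hx))
      refine ⟨⟨⁅x, h⁆, hcm x hx⟩, ?_, rfl⟩
      exact ⟨⟨x, hx⟩, rfl⟩
  have hle : Rh ≤ S := by
    rw [← hcc, Subgroup.commutator_le]
    intro x hx m hm
    obtain ⟨n, rfl⟩ := (isOfFinOrder_of_finite h).mem_powers_iff_mem_zpowers.2 hm
    exact hpow n x hx
  exact hS y hy (hle hy)

section Rk

variable {G : Type u} [Group G] {q : ℕ} [Fact q.Prime] {X : Type v} [AddCommGroup X]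
  [Module (ZMod q) X] [Finite X] (ρ : Representation (ZMod q) G X)

private theorem rk_mono {T T' : Submodule (ZMod q) X} (h : T ≤ T') :
    Module.finrank (ZMod q) T ≤ Module.finrank (ZMod q) T' := Submodule.finrank_mono h

private theorem rk_map (f : X →ₗ[ZMod q] X) (T : Submodule (ZMod q) X) :
    Module.finrank (ZMod q) (T.map f) ≤ Module.finrank (ZMod q) T := Submodule.finrank_map_le f T

private theorem rk_sup (T T' : Submodule (ZMod q) X) :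
    Module.finrank (ZMod q) (T ⊔ T' : Submodule (ZMod q) X) ≤
      Module.finrank (ZMod q) T + Module.finrank (ZMod q) T' := by
  have := Submodule.finrank_sup_add_finrank_inf_eq T T'
  omega

private theorem rk_mul (a b : G) : Module.finrank (ZMod q) (mv1 ρ ⊤ (a * b)) ≤
    Module.finrank (ZMod q) (mv1 ρ ⊤ a) + Module.finrank (ZMod q) (mv1 ρ ⊤ b) := by
  have h1 : mv1 ρ ⊤ (a * b) ≤ mv1 ρ ⊤ a ⊔ (mv1 ρ ⊤ b).map (ρ a) := by
    rintro _ ⟨v, -, rfl⟩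
    have h2 : (ρ (a * b) - 1) v = (ρ a - 1) v + ρ a ((ρ b - 1) v) := by
      simp only [map_mul, LinearMap.sub_apply, Module.End.mul_apply, Module.End.one_apply, map_sub]
      abel
    rw [h2]
    exact Submodule.add_mem_sup ⟨v, trivial, rfl⟩ ⟨_, ⟨v, trivial, rfl⟩, rfl⟩
  calc _ ≤ _ := rk_mono h1
    _ ≤ _ := rk_sup _ _
    _ ≤ _ := by
      have := rk_map (ρ a) (mv1 ρ ⊤ b)
      omega

private theorem rk_conj (x a : G) : Module.finrank (ZMod q) (mv1 ρ ⊤ (x * a * x⁻¹)) ≤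
    Module.finrank (ZMod q) (mv1 ρ ⊤ a) := by
  have h1 : mv1 ρ ⊤ (x * a * x⁻¹) ≤ (mv1 ρ ⊤ a).map (ρ x) := by
    rintro _ ⟨v, -, rfl⟩
    refine ⟨_, ⟨ρ x⁻¹ v, trivial, rfl⟩, ?_⟩
    have h3 : ρ x (ρ x⁻¹ v) = v := by
      rw [← Module.End.mul_apply, ← map_mul, mul_inv_cancel, map_one, Module.End.one_apply]
    simp only [map_mul, LinearMap.sub_apply, Module.End.mul_apply, Module.End.one_apply, map_sub]
    rw [h3]
  exact (rk_mono h1).trans (rk_map _ _)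

private theorem rk_inv (a : G) : Module.finrank (ZMod q) (mv1 ρ ⊤ a⁻¹) ≤
    Module.finrank (ZMod q) (mv1 ρ ⊤ a) := by
  have h1 : mv1 ρ ⊤ a⁻¹ ≤ (mv1 ρ ⊤ a).map (ρ a⁻¹) := by
    rintro _ ⟨v, -, rfl⟩
    refine ⟨_, ⟨-v, trivial, rfl⟩, ?_⟩
    have h3 : ρ a⁻¹ (ρ a v) = v := by
      rw [← Module.End.mul_apply, ← map_mul, inv_mul_cancel, map_one, Module.End.one_apply]
    simp only [LinearMap.sub_apply, Module.End.one_apply, map_sub, map_neg]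
    rw [h3]
    abel
  exact (rk_mono h1).trans (rk_map _ _)

private theorem rk_comm_h (x h : G) : Module.finrank (ZMod q) (mv1 ρ ⊤ ⁅x, h⁆) ≤
    2 * Module.finrank (ZMod q) (mv1 ρ ⊤ h) := by
  rw [commutatorElement_def]
  have h1 := rk_mul ρ (x * h * x⁻¹) h⁻¹
  have h2 := rk_conj ρ x h
  have h3 := rk_inv ρ h
  omega

private theorem rk_comm (y z : G) : Module.finrank (ZMod q) (mv1 ρ ⊤ ⁅y, z⁆) ≤
    2 * Module.finrank (ZMod q) (mv1 ρ ⊤ y) := by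
  have e : ⁅y, z⁆ = y * (z * y⁻¹ * z⁻¹) := by
    rw [commutatorElement_def]; group
  rw [e]
  have h1 := rk_mul ρ y (z * y⁻¹ * z⁻¹)
  have h2 := rk_conj ρ z y⁻¹
  have h3 := rk_inv ρ y
  omega

private theorem card_eq (T : Submodule (ZMod q) X) :
    Nat.card T = q ^ Module.finrank (ZMod q) T := by
  have h := Module.natCard_eq_pow_finrank (K := ZMod q) (V := T)
  rwa [Nat.card_zmod] at h

end Rk

/-- PROOF. Write `[X,y]` for the range of `ρ y - 1`, `d = dim [X,h]` (for the cyclic group,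
`movS ρ (zpowers h) = [X,h]`). For `x ∈ R`: `⁅x,h⁆ = x h x⁻¹ h⁻¹`, so
`[X,⁅x,h⁆] ≤ x [X,h] + [X,h]` has dimension `≤ 2d`; for two such commutators `y, y'`,
`⁅y,y'⁆ = y (y' y⁻¹ y'⁻¹)`, dimension `≤ 4d`. Let `Rh = ⁅R,⟨h⟩⁆`, `U = [X,Rh]`, which is `Rh`-invariant
with `C_U(Rh) = 0`; `U1 = U ⊓ fixS ρ ⁅Rh,Rh⁆`, `U3 = movS ρ ⁅Rh,Rh⁆ ≤ U`, `U = U1 ⊕ U3` (modular law
and `fix_mov_compl`). (1) `exists_half` for `A = Rh`, `T = U1`: some `y ∈ Rh` with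
`dim U1 ≤ 2 dim [U1,y]`; `y = ⁅x,h⁆ c` with `c ∈ ⁅Rh,Rh⁆` trivial on `U1`, so
`[U1,y] = [U1,⁅x,h⁆] ≤ [X,⁅x,h⁆]`: `dim U1 ≤ 4d`. (2) `exists_three_eighths` for `A = Rh`,
`T = U3`: `u, u' ∈ Rh` with `3 dim U3 ≤ 8 dim [U3,⁅u,u'⁆]`; replace `u, u'` by commutators
`y = ⁅x,h⁆ ∈ u ⁅Rh,Rh⁆`, `y'` similarly: as `⁅Rh,Rh⁆` is central modulo the kernel of `ρ`,
`ρ ⁅u,u'⁆ = ρ ⁅y,y'⁆`, so `3 dim U3 ≤ 32 d`. Total `dim U ≤ 4d + 32d/3 ≤ 16 d`. -/
theorem c8d {G : Type u} [Group G] [Finite G] {q : ℕ} [Fact q.Prime] {X : Type v}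
    [AddCommGroup X] [Module (ZMod q) X] [Finite X] (ρ : Representation (ZMod q) G X)
    (r : ℕ) (hr : r.Prime) (R : Subgroup G) (hR : IsPGroup r R) (hqR : q.Coprime (Nat.card R))
    (hcl : ∀ x ∈ R, ∀ y ∈ R, ∀ z ∈ R, ρ ⁅⁅x, y⁆, z⁆ = 1)
    (h : G) (hh : h ∈ Nrm R) (hc : r.Coprime (orderOf h)) (hqh : q.Coprime (orderOf h)) :
    Nat.card (movS ρ ⁅R, Subgroup.zpowers h⁆) ≤
      (Nat.card (movS ρ (Subgroup.zpowers h))) ^ 16 := by
  have hhz : Subgroup.zpowers h ≤ Nrm R := by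
    rw [Subgroup.zpowers_le]; exact hh
  obtain ⟨k1, k2, k3⟩ := comm_le R (Subgroup.zpowers h) hhz
  have hcoset := exists_comm_coset r hr R hR h hh hc
  set Rh : Subgroup G := ⁅R, Subgroup.zpowers h⁆ with hRh
  set C : Subgroup G := ⁅Rh, Rh⁆ with hC
  have hRN : Rh ≤ Nrm Rh := Subgroup.le_normalizer
  have hCRh : C ≤ Rh := by
    rw [hC, Subgroup.commutator_le]
    intro x hx y hy
    rw [commutatorElement_def]
    exact Rh.mul_mem (Rh.mul_mem (Rh.mul_mem hx hy) (Rh.inv_mem hx)) (Rh.inv_mem hy)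
  have hRNC : Rh ≤ Nrm C := (comm_le Rh Rh hRN).2.1
  have hqRh : q.Coprime (Nat.card Rh) := hqR.coprime_dvd_right (Subgroup.card_dvd_of_le k1)
  have hqC : q.Coprime (Nat.card C) := hqRh.coprime_dvd_right (Subgroup.card_dvd_of_le hCRh)
  set d := Module.finrank (ZMod q) (mv1 ρ ⊤ h) with hd
  set U := movS ρ Rh with hU
  have hcU := fix_mov_compl ρ Rh hqRh
  have hcC := fix_mov_compl ρ C hqC
  have hU3U : movS ρ C ≤ U := by
    apply Submodule.span_mono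
    rintro w ⟨x, hx, v, rfl⟩
    exact ⟨x, hCRh hx, v, rfl⟩
  have hUfix : U ⊓ fixS ρ Rh = ⊥ := by
    rw [inf_comm]; exact hcU.inf_eq_bot
  have hdec : U = (U ⊓ fixS ρ C) ⊔ movS ρ C := by
    have h1 : fixS ρ C ⊔ movS ρ C = ⊤ := hcC.sup_eq_top
    calc U = U ⊓ ⊤ := (inf_top_eq U).symm
      _ = U ⊓ (fixS ρ C ⊔ movS ρ C) := by rw [h1]
      _ = (U ⊓ fixS ρ C) ⊔ movS ρ C := by
        rw [sup_comm, inf_comm, sup_inf_assoc_of_le _ hU3U, sup_comm, inf_comm]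
  have hInvU := inv_mov ρ Rh Rh hRN
  have hInvC := inv_mov ρ Rh C hRNC
  -- the abelian part
  have hd1 : Module.finrank (ZMod q) (U ⊓ fixS ρ C : Submodule (ZMod q) X) ≤ 4 * d := by
    obtain ⟨y, hy, hy2⟩ := exists_half ρ Rh hqRh (U ⊓ fixS ρ C)
      (fun g hg v hv => ⟨hInvU.1 g hg v hv.1, hInvC.2 g hg v hv.2⟩)
      (fun x hx y hy v hv => hv.2 _ (Subgroup.commutator_mem_commutator hx hy))
      (by
        rw [eq_bot_iff, ← hUfix]
        exact inf_le_inf_right _ inf_le_left)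
    obtain ⟨x, hx, c, hcc, rfl⟩ := hcoset y hy
    have h1 : mv1 ρ (U ⊓ fixS ρ C) (⁅x, h⁆ * c) ≤ mv1 ρ ⊤ ⁅x, h⁆ := by
      rintro _ ⟨v, hv, rfl⟩
      refine ⟨v, trivial, ?_⟩
      have h2 : ρ c v = v := hv.2 c hcc
      simp only [map_mul, LinearMap.sub_apply, Module.End.mul_apply, Module.End.one_apply, h2]
    have h3 := rk_mono h1
    have h4 := rk_comm_h ρ x h
    omega
  -- the class two part
  have hd3 : 3 * Module.finrank (ZMod q) (movS ρ C) ≤ 32 * d := by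
    obtain ⟨u, hu, u', hu', huu⟩ := exists_three_eighths ρ Rh hqRh (movS ρ C) hInvC.1
      (fun x hx y hy z hz v _ => by rw [hcl x (k1 hx) y (k1 hy) z (k1 hz), Module.End.one_apply])
      (by rw [inf_comm]; exact hcC.inf_eq_bot)
    obtain ⟨x, hx, c, hcc, rfl⟩ := hcoset u hu
    obtain ⟨x', hx', c', hcc', rfl⟩ := hcoset u' hu'
    have hxh : ∀ x ∈ Rh, ⁅x, h⁆ ∈ Rh := by
      intro x hx
      have h1 := (Subgroup.mem_normalizer_iff.1 (k3 (Subgroup.mem_zpowers h)) x⁻¹).1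
        (Rh.inv_mem hx)
      have h2 : ⁅x, h⁆ = x * (h * x⁻¹ * h⁻¹) := by
        rw [commutatorElement_def]; group
      rw [h2]
      exact Rh.mul_mem hx h1
    have hcen : ∀ c ∈ C, ∀ z ∈ Rh, ρ c * ρ z = ρ z * ρ c := by
      intro c hc z hz
      let Z : Subgroup G :=
        { carrier := {c | ρ c * ρ z = ρ z * ρ c}
          one_mem' := by simp
          mul_mem' := by
            intro a b ha hb
            simp only [Set.mem_ofPred_eq] at ha hb ⊢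
            rw [map_mul, mul_assoc, hb, ← mul_assoc, ha, mul_assoc]
          inv_mem' := by
            intro a ha
            simp only [Set.mem_ofPred_eq] at ha ⊢
            have h1 : ρ a⁻¹ * ρ a = 1 := by rw [← map_mul, inv_mul_cancel, map_one]
            have h2 : ρ a * ρ a⁻¹ = 1 := by rw [← map_mul, mul_inv_cancel, map_one]
            calc ρ a⁻¹ * ρ z = ρ a⁻¹ * ρ z * (ρ a * ρ a⁻¹) := by rw [h2, mul_one]
              _ = ρ a⁻¹ * (ρ z * ρ a) * ρ a⁻¹ := by simp only [mul_assoc]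
              _ = ρ a⁻¹ * (ρ a * ρ z) * ρ a⁻¹ := by rw [ha]
              _ = ρ a⁻¹ * ρ a * ρ z * ρ a⁻¹ := by simp only [mul_assoc]
              _ = ρ z * ρ a⁻¹ := by rw [h1, one_mul] }
      have hCZ : C ≤ Z := by
        rw [hC, Subgroup.commutator_le]
        intro a ha b hb
        change ρ ⁅a, b⁆ * ρ z = ρ z * ρ ⁅a, b⁆
        have h1 := hcl a (k1 ha) b (k1 hb) z (k1 hz)
        have h2 : ⁅a, b⁆ * z = ⁅⁅a, b⁆, z⁆ * (z * ⁅a, b⁆) := by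
          rw [commutatorElement_def (⁅a, b⁆) z]; group
        rw [← map_mul, h2, map_mul, h1, one_mul, map_mul]
      exact hCZ hc
    have hRc : ρ ⁅⁅x, h⁆ * c, ⁅x', h⁆ * c'⁆ = ρ ⁅⁅x, h⁆, ⁅x', h⁆⁆ := by
      set y := ⁅x, h⁆
      set y' := ⁅x', h⁆
      have hy : y ∈ Rh := hxh x hx
      have hy' : y' ∈ Rh := hxh x' hx'
      have e1 : ρ c * ρ y' = ρ y' * ρ c := hcen c hcc y' hy'
      have e2 : ρ c' * ρ y⁻¹ = ρ y⁻¹ * ρ c' := hcen c' hcc' _ (Rh.inv_mem hy)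
      have e3 : ρ c * ρ c' = ρ c' * ρ c := hcen c hcc c' (hCRh hcc')
      have e4 : ρ c * ρ c⁻¹ = 1 := by rw [← map_mul, mul_inv_cancel, map_one]
      have e5 : ρ c' * ρ c'⁻¹ = 1 := by rw [← map_mul, mul_inv_cancel, map_one]
      rw [commutatorElement_def, commutatorElement_def]
      simp only [mul_inv_rev, map_mul]
      calc ρ y * ρ c * (ρ y' * ρ c') * (ρ c⁻¹ * ρ y⁻¹) * (ρ c'⁻¹ * ρ y'⁻¹)
          = ρ y * (ρ c * ρ y') * ρ c' * ρ c⁻¹ * ρ y⁻¹ * ρ c'⁻¹ * ρ y'⁻¹ := by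
            simp only [mul_assoc]
        _ = ρ y * ρ y' * (ρ c * ρ c') * ρ c⁻¹ * ρ y⁻¹ * ρ c'⁻¹ * ρ y'⁻¹ := by
            rw [e1]; simp only [mul_assoc]
        _ = ρ y * ρ y' * ρ c' * (ρ c * ρ c⁻¹) * ρ y⁻¹ * ρ c'⁻¹ * ρ y'⁻¹ := by
            rw [e3]; simp only [mul_assoc]
        _ = ρ y * ρ y' * (ρ c' * ρ y⁻¹) * ρ c'⁻¹ * ρ y'⁻¹ := by
            rw [e4, mul_one]; simp only [mul_assoc]
        _ = ρ y * ρ y' * ρ y⁻¹ * (ρ c' * ρ c'⁻¹) * ρ y'⁻¹ := by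
            rw [e2]; simp only [mul_assoc]
        _ = ρ y * ρ y' * ρ y⁻¹ * ρ y'⁻¹ := by rw [e5, mul_one]
    have h1 : mv1 ρ (movS ρ C) ⁅⁅x, h⁆ * c, ⁅x', h⁆ * c'⁆ ≤ mv1 ρ ⊤ ⁅⁅x, h⁆, ⁅x', h⁆⁆ := by
      unfold mv1
      rw [hRc]
      exact Submodule.map_mono le_top
    have h3 := rk_mono h1
    have h4 := rk_comm ρ ⁅x, h⁆ ⁅x', h⁆
    have h5 := rk_comm_h ρ x h
    omega
  have hdD : d ≤ Module.finrank (ZMod q) (movS ρ (Subgroup.zpowers h)) := by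
    apply rk_mono
    rintro _ ⟨v, -, rfl⟩
    exact Submodule.subset_span ⟨h, Subgroup.mem_zpowers h, v, rfl⟩
  have hfin : Module.finrank (ZMod q) U ≤
      Module.finrank (ZMod q) (movS ρ (Subgroup.zpowers h)) * 16 := by
    have h1 := rk_sup (U ⊓ fixS ρ C) (movS ρ C)
    rw [← hdec] at h1
    omega
  rw [card_eq, card_eq, ← pow_mul]
  exact Nat.pow_le_pow_right (Fact.out : q.Prime).pos hfin

end FT
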