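import Mathlib
import Pool.Agent.helper11.FT.Defs
import Pool.Agent.helper11.FT.Semi
import Pool.Agent.helper11.FT.C8a
import Pool.Agent.helper11.FT.C8b
import Pool.Agent.helper11.FT.C8c
import Pool.Agent.helper11.FT.C8d

/-! # FT-C8: acting groups are tiny: `|H/C_H(X)|^(16k) ≤ |[X,H]|` -/

namespace FT

universe u v

open scoped commutatorElement

private theorem c8_len {a b : ℕ} (h : a ∣ b) (hb : b ≠ 0) :
    a.primeFactorsList.length ≤ b.primeFactorsList.length :=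
  (Nat.primeFactorsList_sublist_of_dvd h hb).length_le

section

variable {G : Type u} [Group G] {q : ℕ} [Fact q.Prime] {X : Type v}
  [AddCommGroup X] [Module (ZMod q) X] (ρ : Representation (ZMod q) G X)

private theorem c8_mem {H : Subgroup G} {h : G} :
    h ∈ cenSub ρ H ⊤ ↔ h ∈ H ∧ ρ h = 1 := by
  constructor
  · rintro ⟨h1, h2⟩
    exact ⟨h1, LinearMap.ext fun x => h2 x trivial⟩
  · rintro ⟨h1, h2⟩
    refine ⟨h1, fun x _ => ?_⟩
    rw [h2, Module.End.one_apply]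

private theorem c8_nrm {N R : Subgroup G} (hN : N ≤ Nrm R) : N ≤ Nrm (cenSub ρ R ⊤) := by
  rw [Subgroup.le_normalizer_iff]
  intro g hg x hx
  rw [c8_mem] at hx ⊢
  refine ⟨(Subgroup.le_normalizer_iff.1 hN) g hg x hx.1, ?_⟩
  rw [map_mul, map_mul, hx.2, mul_one, ← map_mul, mul_inv_cancel, map_one]

private theorem c8_mono {H K : Subgroup G} (h : H ≤ K) : movS ρ H ≤ movS ρ K := by
  refine Submodule.span_mono ?_
  rintro _ ⟨x, hx, v, rfl⟩
  exact ⟨x, h hx, v, rfl⟩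

variable [Finite X]

private theorem c8_pos (W : Submodule (ZMod q) X) : 1 ≤ Nat.card W :=
  Nat.card_pos

private theorem c8_le {W W' : Submodule (ZMod q) X} (h : W ≤ W') : Nat.card W ≤ Nat.card W' :=
  Nat.card_mono (Set.toFinite (W' : Set X)) h

private theorem c8_sup (W W' : Submodule (ZMod q) X) :
    Nat.card (W ⊔ W' : Submodule (ZMod q) X) ≤ Nat.card W * Nat.card W' := by
  rw [← Nat.card_prod]
  refine Nat.card_le_card_of_surjective (fun w : W × W' =>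
    (⟨(w.1 : X) + w.2, Submodule.add_mem_sup w.1.2 w.2.2⟩ : (W ⊔ W' : Submodule (ZMod q) X))) ?_
  rintro ⟨x, hx⟩
  obtain ⟨a, ha, b, hb, rfl⟩ := Submodule.mem_sup.1 hx
  exact ⟨(⟨a, ha⟩, ⟨b, hb⟩), rfl⟩

private theorem c8_isup {s : ℕ} (W : Fin s → Submodule (ZMod q) X) (y : ℕ)
    (h : ∀ i, Nat.card (W i) ≤ y) : Nat.card (⨆ i, W i : Submodule (ZMod q) X) ≤ y ^ s := by
  have key : ∀ A : Finset (Fin s),
      Nat.card (A.sup W : Submodule (ZMod q) X) ≤ y ^ A.card := by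
    intro A
    classical
    induction A using Finset.induction_on with
    | empty =>
      rw [Finset.sup_empty, Finset.card_empty, pow_zero]
      have h1 : Nat.card (⊥ : Submodule (ZMod q) X) = 1 := Nat.card_unique
      rw [h1]
    | insert a A ha ih =>
      rw [Finset.sup_insert, Finset.card_insert_of_notMem ha, pow_succ, mul_comm]
      exact (c8_sup _ _).trans (Nat.mul_le_mul (h a) ih)
  have h1 := key Finset.univ
  rw [Finset.sup_univ_eq_iSup, Finset.card_univ, Fintype.card_fin] at h1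
  exact h1

end

/-- PROOF. Let `C = cenSub ρ H ⊤`, `L = cenSub ρ R ⊤` (kernel of `R`, normalised by `R` and `H`),
`H1 = actTriv R L H = {h ∈ H | ∀ x ∈ R, ρ ⁅x,h⁆ = 1}`, `RH = ⁅R,H⁆`, `x = |[X,H]|`.
(i) `c8a` for `H1` : `|H1/C|^n0 ≤ |[X,H1]|^k ≤ x^k`; as `n0 ≥ 32 k^2`, `|H1/C|^(32k) ≤ x`.
(ii) `c8b`: `|H/H1| ≤ |RH L/L|^k`, and `|RH L / L| = |RH : cenSub ρ RH ⊤|`.
(iii) `c8c` (`RH` is normal in `R`): `|RH : cenSub ρ RH ⊤|^m ≤ |[X,RH]|`.
(iv) `exists_gens` for `H` (`S = H`): `H = ⨆ ⟨g i⟩`, `i < s ≤ k`; `comm_le_iSup`: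
`RH ≤ ⨆ ⁅R,⟨g i⟩⁆`, so `[X,RH] ≤ ∑ [X,⁅R,⟨g i⟩⁆]` (`movS_iSup_le`) and by `c8d`
`|[X,RH]| ≤ ∏ |[X,⟨g i⟩]|^16 ≤ x^(16k)`.
Hence `|H/H1|^m ≤ x^(16 k^2)`, and since `m ≥ 512 k^3`, `|H/H1|^(32k) ≤ x`. Altogether
`|H/C|^(32k) ≤ x^2`. -/
theorem c8 {G : Type u} [Group G] [Finite G] {q : ℕ} [Fact q.Prime] {X : Type v}
    [AddCommGroup X] [Module (ZMod q) X] [Finite X] (ρ : Representation (ZMod q) G X)
    (r : ℕ) (hr : r.Prime) (R H : Subgroup G) (hR : IsPGroup r R)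
    (hqR : q.Coprime (Nat.card R)) (hHR : H ≤ Nrm R) (hcr : r.Coprime (Nat.card H))
    (hcq : q.Coprime (Nat.card H))
    (hcl : ∀ x ∈ R, ∀ y ∈ R, ∀ z ∈ R, ρ ⁅⁅x, y⁆, z⁆ = 1)
    (n0 m k : ℕ) (hk1 : 1 ≤ k) (hk : (Nat.card H).primeFactorsList.length ≤ k)
    (hn0 : 32 * k ^ 2 ≤ n0) (hm : 512 * k ^ 3 ≤ m)
    (hS1 : ∀ S, SimpleSub ρ R S → (Nat.card (RHom ρ R S S)) ^ n0 ≤ Nat.card S)
    (hS2 : ∀ S, SimpleSub ρ R S → ((cenSub ρ R S).relIndex R) ^ m ≤ Nat.card S) :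
    ((cenSub ρ H ⊤).relIndex H) ^ (16 * k) ≤ Nat.card (movS ρ H) := by
  have hfr : Fact r.Prime := ⟨hr⟩
  set x := Nat.card (movS ρ H) with hx
  have hx1 : 1 ≤ x := c8_pos _
  have hcard0 : Nat.card H ≠ 0 := Nat.card_pos.ne'
  have hHL : H ≤ Nrm (cenSub ρ R ⊤) := c8_nrm ρ hHR
  have hRL : R ≤ Nrm (cenSub ρ R ⊤) := c8_nrm ρ Subgroup.le_normalizer
  have hLR : cenSub ρ R ⊤ ≤ R := fun y hy => hy.1
  set H1 := actTriv R (cenSub ρ R ⊤) H hHL with hH1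
  have hH1H : H1 ≤ H := fun y hy => hy.1
  -- (i)
  have hcomm : ∀ h ∈ H1, ∀ x ∈ R, ρ ⁅x, h⁆ = 1 := fun h hh y hy =>
    ((c8_mem ρ).1 (hh.2 y hy)).2
  have e1 := c8a ρ R H1 hqR n0 hS1 hcomm k
    ((c8_len (Subgroup.card_dvd_of_le hH1H) hcard0).trans hk)
  set a := (cenSub ρ H1 ⊤).relIndex H1 with ha
  have ha1 : 1 ≤ a := Nat.one_le_iff_ne_zero.2 Subgroup.index_ne_zero_of_finite
  have e2 : a ^ (32 * k) ≤ x := by
    have h1 : (a ^ (32 * k)) ^ k ≤ x ^ k := by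
      calc (a ^ (32 * k)) ^ k = a ^ (32 * k ^ 2) := by rw [← pow_mul]; ring_nf
        _ ≤ a ^ n0 := Nat.pow_le_pow_right ha1 hn0
        _ ≤ _ := e1
        _ ≤ x ^ k := Nat.pow_le_pow_left (c8_le (c8_mono ρ hH1H)) k
    exact (Nat.pow_le_pow_iff_left (by omega)).1 h1
  -- (ii)
  have e3 := c8b r hr R (cenSub ρ R ⊤) H hR hLR hRL hHR hHL hcr k hk
  set b := (actTriv R (cenSub ρ R ⊤) H hHL).relIndex H with hb
  have hb1 : 1 ≤ b := Nat.one_le_iff_ne_zero.2 Subgroup.index_ne_zero_of_finite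
  obtain ⟨hRH1, hRH2, -⟩ := comm_le R H hHR
  have hRHL : ⁅R, H⁆ ≤ Nrm (cenSub ρ R ⊤) := hRH1.trans hRL
  have e4 : (cenSub ρ R ⊤).relIndex (⁅R, H⁆ ⊔ cenSub ρ R ⊤) =
      (cenSub ρ ⁅R, H⁆ ⊤).relIndex ⁅R, H⁆ := by
    have h1 : (cenSub ρ ⁅R, H⁆ ⊤) = cenSub ρ R ⊤ ⊓ ⁅R, H⁆ := by
      ext y
      rw [Subgroup.mem_inf, c8_mem, c8_mem]
      exact ⟨fun h => ⟨⟨hRH1 h.1, h.2⟩, h.1⟩, fun h => ⟨h.2, h.1.2⟩⟩
    rw [h1, Subgroup.inf_relIndex_right,
      ← Subgroup.relIndex_subgroupOf (sup_le hRHL Subgroup.le_normalizer),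
      Subgroup.subgroupOf_sup hRHL Subgroup.le_normalizer,
      Subgroup.relIndex_sup_right, Subgroup.relIndex_subgroupOf hRHL]
  rw [e4] at e3
  set c := (cenSub ρ ⁅R, H⁆ ⊤).relIndex ⁅R, H⁆ with hc
  -- (iii)
  have e5 := c8c ρ R ⁅R, H⁆ hRH1 hRH2 hqR m hS2
  -- (iv)
  have e6 : Nat.card (movS ρ ⁅R, H⁆) ≤ x ^ (16 * k) := by
    obtain ⟨s, g, hs, hg, hsup⟩ := exists_gens H H (Subgroup.closure_eq H)
    have hgH : ∀ i, g i ∈ H := hg
    have h1 := comm_le_iSup R g (fun i => hHR (hgH i))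
    rw [hsup] at h1
    have h2 : movS ρ ⁅R, H⁆ ≤ ⨆ i, movS ρ ⁅R, Subgroup.zpowers (g i)⁆ :=
      (c8_mono ρ h1).trans (movS_iSup_le ρ _)
    have h3 : ∀ i, Nat.card (movS ρ ⁅R, Subgroup.zpowers (g i)⁆) ≤ x ^ 16 := by
      intro i
      have ho : orderOf (g i) ∣ Nat.card H := by
        rw [← Nat.card_zpowers]
        exact Subgroup.card_dvd_of_le (Subgroup.zpowers_le.2 (hgH i))
      have h4 := c8d ρ r hr R hR hqR hcl (g i) (hHR (hgH i)) (Nat.Coprime.of_dvd_right ho hcr)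
        (Nat.Coprime.of_dvd_right ho hcq)
      exact h4.trans (Nat.pow_le_pow_left
        (c8_le (c8_mono ρ (Subgroup.zpowers_le.2 (hgH i)))) 16)
    calc Nat.card (movS ρ ⁅R, H⁆) ≤ _ := c8_le h2
      _ ≤ (x ^ 16) ^ s := c8_isup _ _ h3
      _ ≤ (x ^ 16) ^ k := Nat.pow_le_pow_right (Nat.one_le_pow _ _ hx1) (hs.trans hk)
      _ = x ^ (16 * k) := by rw [← pow_mul]
  have e7 : b ^ (32 * k) ≤ x := by
    have h1 : (b ^ (32 * k)) ^ (16 * k ^ 2) ≤ x ^ (16 * k ^ 2) := by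
      calc (b ^ (32 * k)) ^ (16 * k ^ 2) = b ^ (512 * k ^ 3) := by rw [← pow_mul]; ring_nf
        _ ≤ b ^ m := Nat.pow_le_pow_right hb1 hm
        _ ≤ (c ^ k) ^ m := Nat.pow_le_pow_left e3 m
        _ = (c ^ m) ^ k := by rw [← pow_mul, ← pow_mul, mul_comm]
        _ ≤ (x ^ (16 * k)) ^ k := Nat.pow_le_pow_left (e5.trans e6) k
        _ = x ^ (16 * k ^ 2) := by rw [← pow_mul]; ring_nf
    refine (Nat.pow_le_pow_iff_left ?_).1 h1
    positivity
  have e8 : (cenSub ρ H ⊤).relIndex H = a * b := by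
    have h1 : cenSub ρ H ⊤ ≤ H1 := by
      intro h hh
      rw [c8_mem] at hh
      refine ⟨hh.1, fun y hy => ?_⟩
      rw [c8_mem]
      refine ⟨?_, ?_⟩
      · have h2 : ⁅y, h⁆ = y * (h * y⁻¹ * h⁻¹) := by
          rw [commutatorElement_def]
          group
        rw [h2]
        exact R.mul_mem hy ((Subgroup.le_normalizer_iff.1 hHR) h hh.1 _ (R.inv_mem hy))
      · have h3 : ρ h⁻¹ = 1 := by
          have h4 : ρ h⁻¹ * ρ h = 1 := by rw [← map_mul, inv_mul_cancel, map_one]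
          rwa [hh.2, mul_one] at h4
        rw [commutatorElement_def, map_mul, map_mul, map_mul, hh.2, h3, mul_one, mul_one,
          ← map_mul, mul_inv_cancel, map_one]
    have h2 : cenSub ρ H1 ⊤ = cenSub ρ H ⊤ := by
      ext y
      constructor
      · intro hy
        rw [c8_mem] at hy ⊢
        exact ⟨hH1H hy.1, hy.2⟩
      · intro hy
        have hy1 := h1 hy
        rw [c8_mem] at hy ⊢
        exact ⟨hy1, hy.2⟩
    rw [ha, h2, hb]
    exact (Subgroup.relIndex_mul_relIndex _ _ _ h1 hH1H).symm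
  rw [e8]
  have h1 : ((a * b) ^ (16 * k)) ^ 2 ≤ x ^ 2 := by
    calc ((a * b) ^ (16 * k)) ^ 2 = a ^ (32 * k) * b ^ (32 * k) := by
          rw [← pow_mul, mul_pow]; ring_nf
      _ ≤ x * x := Nat.mul_le_mul e2 e7
      _ = x ^ 2 := by ring
  exact (Nat.pow_le_pow_iff_left (by norm_num)).1 h1

/-- Counting form. `K = cenSub ρ B ⊤`. The hypothesis `hH` is the conclusion of `c8` for all
subgroups `H` of `B`.
PROOF. First claim: `S_t = {b ∈ B | |X| ≤ t |C_X(b)|}`, `H = closure S_t ≤ B`, `K ≤ H` (as `t ≥ 1`).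
`exists_gens`: `H = ⨆ ⟨g i⟩`, `i < s ≤ Ω(|H|) ≤ Ω(|B|) ≤ k`, `g i ∈ S_t`; `|[X,⟨g i⟩]| = |X|/|C_X(g i)| ≤ t`
(`card_fix_mul_mov`), so `|[X,H]| ≤ t^k` (`movS_iSup_le`), and by `hH` `|H/K|^(16k) ≤ t^k`, so
`|H/K|^16 ≤ t` (`cenSub ρ H ⊤ = K`). `|S_t| ≤ |H| = |K| |H/K|`.
Second claim: `H = zpowers b`: the index is at least `2`, so
`2^16 ≤ 2^(16k) ≤ |[X,b]| = |X|/|C_X(b)|`. -/
theorem c8_count {G : Type u} [Group G] [Finite G] {q : ℕ} [Fact q.Prime] {X : Type v}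
    [AddCommGroup X] [Module (ZMod q) X] [Finite X] (ρ : Representation (ZMod q) G X)
    (B : Subgroup G) (hcq : q.Coprime (Nat.card B)) (k : ℕ) (hk1 : 1 ≤ k)
    (hk : (Nat.card B).primeFactorsList.length ≤ k)
    (hH : ∀ H ≤ B, ((cenSub ρ H ⊤).relIndex H) ^ (16 * k) ≤ Nat.card (movS ρ H)) :
    (∀ t : ℝ, 1 ≤ t →
      (Nat.card {b : G // b ∈ B ∧
        (Nat.card X : ℝ) ≤ t * Nat.card (fixS ρ (Subgroup.zpowers b))} : ℝ) ^ 16 ≤
        t * (Nat.card (cenSub ρ B ⊤) : ℝ) ^ 16) ∧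
    ∀ b ∈ B, b ∉ cenSub ρ B ⊤ →
      2 ^ 16 * Nat.card (fixS ρ (Subgroup.zpowers b)) ≤ Nat.card X := by
  have hcop : ∀ b ∈ B, q.Coprime (Nat.card (Subgroup.zpowers b)) := fun b hb =>
    Nat.Coprime.of_dvd_right (Subgroup.card_dvd_of_le (Subgroup.zpowers_le.2 hb)) hcq
  constructor
  · intro t ht
    obtain ⟨S, hS⟩ : ∃ S : Set G, S = {b : G | b ∈ B ∧
      (Nat.card X : ℝ) ≤ t * Nat.card (fixS ρ (Subgroup.zpowers b))} := ⟨_, rfl⟩
    have hSB : Subgroup.closure S ≤ B := by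
      rw [Subgroup.closure_le, hS]
      exact fun b hb => hb.1
    obtain ⟨H, hHS⟩ : ∃ H, H = Subgroup.closure S := ⟨_, rfl⟩
    have hHB : H ≤ B := hHS ▸ hSB
    obtain ⟨s, g, hs, hg, hsup⟩ := exists_gens H S hHS.symm
    have hsk : s ≤ k := hs.trans ((c8_len (Subgroup.card_dvd_of_le hHB) Nat.card_pos.ne').trans hk)
    -- `K ≤ H`
    have hKS : ∀ b ∈ cenSub ρ B ⊤, b ∈ S := by
      intro b hb
      rw [c8_mem] at hb
      rw [hS]
      refine ⟨hb.1, ?_⟩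
      have h1 : fixS ρ (Subgroup.zpowers b) = ⊤ := by
        rw [eq_top_iff]
        intro v _ h hh
        obtain ⟨n, rfl⟩ := Subgroup.mem_zpowers_iff.1 hh
        have h2 : ∀ n : ℤ, ρ (b ^ n) = 1 := by
          intro n
          have h3 : b ^ n ∈ cenSub ρ B ⊤ :=
            Subgroup.zpow_mem _ ((c8_mem ρ).2 hb) n
          exact ((c8_mem ρ).1 h3).2
        rw [h2, Module.End.one_apply]
      have h4 : Nat.card (fixS ρ (Subgroup.zpowers b)) = Nat.card X := by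
        rw [h1]
        exact Nat.card_congr (Submodule.topEquiv (R := ZMod q) (M := X)).toEquiv
      rw [h4]
      have h5 : (0 : ℝ) ≤ Nat.card X := Nat.cast_nonneg _
      nlinarith
    have hKH : cenSub ρ B ⊤ ≤ H := by
      intro b hb
      rw [hHS]
      exact Subgroup.subset_closure (hKS b hb)
    have hcen : cenSub ρ H ⊤ = cenSub ρ B ⊤ := by
      ext y
      constructor
      · intro hy
        rw [c8_mem] at hy ⊢
        exact ⟨hHB hy.1, hy.2⟩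
      · intro hy
        have hy1 := hKH hy
        rw [c8_mem] at hy ⊢
        exact ⟨hy1, hy.2⟩
    have hmov : ∀ i, (Nat.card (movS ρ (Subgroup.zpowers (g i))) : ℝ) ≤ t := by
      intro i
      have h1 := hg i
      rw [hS] at h1
      obtain ⟨h2, h3⟩ := h1
      have h4 := card_fix_mul_mov ρ (Subgroup.zpowers (g i)) (hcop _ h2)
      have h5 : (0 : ℝ) < Nat.card (fixS ρ (Subgroup.zpowers (g i))) := by
        exact_mod_cast c8_pos _
      rw [← h4, Nat.cast_mul, mul_comm] at h3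
      exact le_of_mul_le_mul_right h3 h5
    have hmovf : ∀ i, Nat.card (movS ρ (Subgroup.zpowers (g i))) ≤ ⌊t⌋₊ := fun i =>
      Nat.le_floor (hmov i)
    have h6 : Nat.card (movS ρ H) ≤ ⌊t⌋₊ ^ s := by
      rw [← hsup]
      exact (c8_le (movS_iSup_le ρ _)).trans (c8_isup _ _ hmovf)
    have h7 := hH H hHB
    rw [hcen] at h7
    set i := (cenSub ρ B ⊤).relIndex H with hi
    have h8 : (i ^ 16) ^ k ≤ ⌊t⌋₊ ^ k := by
      calc (i ^ 16) ^ k = i ^ (16 * k) := by rw [← pow_mul]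
        _ ≤ _ := h7
        _ ≤ ⌊t⌋₊ ^ s := h6
        _ ≤ ⌊t⌋₊ ^ k := Nat.pow_le_pow_right (Nat.le_floor (by rw [Nat.cast_one]; exact ht)) hsk
    have h9 : i ^ 16 ≤ ⌊t⌋₊ := (Nat.pow_le_pow_iff_left (by omega)).1 h8
    have h10 : ((i ^ 16 : ℕ) : ℝ) ≤ t := by
      have h11 : ((i ^ 16 : ℕ) : ℝ) ≤ (⌊t⌋₊ : ℝ) := by exact_mod_cast h9
      exact h11.trans (Nat.floor_le (by linarith))
    have h12 : Nat.card (cenSub ρ B ⊤) * i = Nat.card H := by
      have h13 := Subgroup.card_mul_index ((cenSub ρ B ⊤).subgroupOf H)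
      have h14 : Nat.card ((cenSub ρ B ⊤).subgroupOf H) = Nat.card (cenSub ρ B ⊤) :=
        Nat.card_congr (Subgroup.subgroupOfEquivOfLe hKH).toEquiv
      rw [h14] at h13
      exact h13
    have h15 : Nat.card {b : G // b ∈ B ∧
        (Nat.card X : ℝ) ≤ t * Nat.card (fixS ρ (Subgroup.zpowers b))} ≤ Nat.card H := by
      refine Nat.card_le_card_of_injective (fun b => (⟨b.1, ?_⟩ : H)) ?_
      · rw [hHS]
        refine Subgroup.subset_closure ?_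
        rw [hS]
        exact b.2
      · intro b b' hbb
        exact Subtype.ext (congrArg (fun z : H => (z : G)) hbb)
    rw [← h12] at h15
    have h16 : (Nat.card {b : G // b ∈ B ∧
        (Nat.card X : ℝ) ≤ t * Nat.card (fixS ρ (Subgroup.zpowers b))} : ℝ) ≤
        (Nat.card (cenSub ρ B ⊤) : ℝ) * i := by exact_mod_cast h15
    calc _ ≤ ((Nat.card (cenSub ρ B ⊤) : ℝ) * i) ^ 16 :=
          pow_le_pow_left₀ (Nat.cast_nonneg _) h16 16
      _ = ((i ^ 16 : ℕ) : ℝ) * (Nat.card (cenSub ρ B ⊤) : ℝ) ^ 16 := by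
          push_cast; ring
      _ ≤ _ := mul_le_mul_of_nonneg_right h10 (by positivity)
  · intro b hb hbK
    have h1 := hH (Subgroup.zpowers b) (Subgroup.zpowers_le.2 hb)
    have h2 := card_fix_mul_mov ρ (Subgroup.zpowers b) (hcop b hb)
    have h3 : 2 ≤ (cenSub ρ (Subgroup.zpowers b) ⊤).relIndex (Subgroup.zpowers b) := by
      have h4 : (cenSub ρ (Subgroup.zpowers b) ⊤).relIndex (Subgroup.zpowers b) ≠ 0 :=
        Subgroup.index_ne_zero_of_finite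
      have h5 : (cenSub ρ (Subgroup.zpowers b) ⊤).relIndex (Subgroup.zpowers b) ≠ 1 := by
        intro h6
        rw [Subgroup.relIndex_eq_one] at h6
        have h7 := h6 (Subgroup.mem_zpowers b)
        rw [c8_mem] at h7
        exact hbK ((c8_mem ρ).2 ⟨hb, h7.2⟩)
      omega
    have h4 : 2 ^ 16 ≤ Nat.card (movS ρ (Subgroup.zpowers b)) := by
      calc 2 ^ 16 ≤ 2 ^ (16 * k) := Nat.pow_le_pow_right (by norm_num) (by omega)
        _ ≤ _ := Nat.pow_le_pow_left h3 _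
        _ ≤ _ := h1
    calc 2 ^ 16 * Nat.card (fixS ρ (Subgroup.zpowers b)) ≤
        Nat.card (movS ρ (Subgroup.zpowers b)) * Nat.card (fixS ρ (Subgroup.zpowers b)) :=
          Nat.mul_le_mul_right _ h4
      _ = Nat.card X := by rw [mul_comm, h2]

end FT
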