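import Mathlib
import Pool.Agent.helper11.FT.Defs
import Pool.Agent.helper11.FT.HomBasic
import Pool.Agent.helper11.FT.Tower
import Pool.Agent.helper11.FT.TS0
import Pool.Agent.helper11.FT.TSs
import Pool.Agent.helper11.FT.TS
import Pool.Agent.helper11.FT.TS2
import Pool.Agent.helper11.FT.TS3
import Pool.Agent.helper11.FT.NpB
import Pool.Agent.helper11.FT.RadB
import Pool.Agent.helper11.FT.Compat

/-! # FT-Kst: the groups `K_l` and the condition GOOD_C, (10.5), (10.6) of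
/team-store/9c6401_plan.md -/

namespace FT

universe u v

open scoped commutatorElement

section KstAux

variable {Γ : Type u} [Group Γ]

private theorem kst_conj {R : Subgroup Γ} {g x : Γ} (hg : g ∈ Nrm R) (hx : x ∈ R) :
    g * x * g⁻¹ ∈ R := (Subgroup.mem_normalizer_iff.1 hg x).1 hx

private theorem kst_conj' {R : Subgroup Γ} {g x : Γ} (hg : g ∈ Nrm R) (hx : x ∈ R) :
    g⁻¹ * x * g ∈ R := (Subgroup.mem_normalizer_iff''.1 hg x).1 hx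

/-- the inverse of an element acting trivially on `P'` modulo `R` -/
private theorem kst_inv {P' R : Subgroup Γ} {x : Γ} (hR : x ∈ Nrm R)
    (h : ∀ w ∈ P', ⁅x, w⁆ ∈ R) : ∀ w ∈ P', ⁅x⁻¹, w⁆ ∈ R := by
  intro w hw
  have h1 := kst_conj' hR (R.inv_mem (h w hw))
  rw [show ⁅x⁻¹, w⁆ = x⁻¹ * ⁅x, w⁆⁻¹ * x by
    simp only [commutatorElement_def]; group]
  exact h1

private theorem kst_comm {P' R : Subgroup Γ} {x y : Γ} (hxR : x ∈ Nrm R) (hyR : y ∈ Nrm R)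
    (hyP : y ∈ Nrm P') (h : ∀ w ∈ P', ⁅x, w⁆ ∈ R) : ∀ w ∈ P', ⁅⁅x, y⁆, w⁆ ∈ R := by
  intro w hw
  have h1 := kst_inv hxR h (y⁻¹ * w * y) (kst_conj' hyP hw)
  have h2 := kst_conj hxR (kst_conj hyR h1)
  have h3 := R.mul_mem h2 (h w hw)
  rw [show ⁅⁅x, y⁆, w⁆ = x * (y * ⁅x⁻¹, y⁻¹ * w * y⁆ * y⁻¹) * x⁻¹ * ⁅x, w⁆ by
    simp only [commutatorElement_def]; group]
  exact h3

private theorem kst_symm {P' R : Subgroup Γ} {x : Γ} (h : ∀ w ∈ P', ⁅w, x⁆ ∈ R) :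
    ∀ w ∈ P', ⁅x, w⁆ ∈ R := by
  intro w hw
  rw [← commutatorElement_inv]
  exact R.inv_mem (h w hw)

private theorem kst_comm_mem {P : Subgroup Γ} {x u : Γ} (hu : u ∈ Nrm P) (hx : x ∈ P) :
    ⁅x, u⁆ ∈ P := by
  rw [show ⁅x, u⁆ = x * (u * x⁻¹ * u⁻¹) by simp only [commutatorElement_def]; group]
  exact P.mul_mem hx (kst_conj hu (P.inv_mem hx))

end KstAux

namespace TowerCore

variable {Γ : Type u} [Group Γ] [Finite Γ] (T : TowerCore Γ)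

/-- `K_l`: the elements of `Y_l` acting trivially on `P_i / Rad(l)` -/
def Kst (i : ℕ) (l : CF Γ (ZMod (T.p i))) : Subgroup Γ :=
  Subgroup.closure {y | y ∈ T.Yst l ∧ ∀ x ∈ T.P i, ⁅x, y⁆ ∈ T.Rad i l}

theorem mem_Kst (i : ℕ) (hi : i < T.n) (hsp : ¬ T.Ab i) (l : CF Γ (ZMod (T.p i)))
    (hl : T.Occ i l) (y : Γ) :
    y ∈ T.Kst i l ↔ y ∈ T.Yst l ∧ ∀ x ∈ T.P i, ⁅x, y⁆ ∈ T.Rad i l := by
  have hR : ∀ g ∈ T.Yst l, g ∈ Nrm (T.Rad i l) := fun g hg =>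
    (T.nrm_Rad i hi.le hsp l hl.1 g (T.hY i hi.le hg.1) hg.2).1
  constructor
  · intro hy
    refine Subgroup.closure_induction
      (p := fun y _ => y ∈ T.Yst l ∧ ∀ x ∈ T.P i, ⁅x, y⁆ ∈ T.Rad i l) ?_ ?_ ?_ ?_ hy
    · intro x hx; exact hx
    · refine ⟨(T.Yst l).one_mem, fun x _ => ?_⟩
      rw [commutatorElement_one_right]
      exact (T.Rad i l).one_mem
    · rintro a b - - ⟨ha, ha'⟩ ⟨hb, hb'⟩
      refine ⟨(T.Yst l).mul_mem ha hb, fun x hx => ?_⟩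
      rw [show ⁅x, a * b⁆ = ⁅x, a⁆ * (a * ⁅x, b⁆ * a⁻¹) by
        simp only [commutatorElement_def]; group]
      exact (T.Rad i l).mul_mem (ha' x hx) (kst_conj (hR a ha) (hb' x hx))
    · rintro a - ⟨ha, ha'⟩
      refine ⟨(T.Yst l).inv_mem ha, fun x hx => ?_⟩
      rw [show ⁅x, a⁻¹⁆ = a⁻¹ * ⁅x, a⁆⁻¹ * a by
        simp only [commutatorElement_def]; group]
      exact kst_conj' (hR a ha) ((T.Rad i l).inv_mem (ha' x hx))
  · intro hy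
    exact Subgroup.subset_closure hy

theorem Kst_le (i : ℕ) (hi : i < T.n) (hsp : ¬ T.Ab i) (l : CF Γ (ZMod (T.p i)))
    (hl : T.Occ i l) : T.Kst i l ≤ T.Yst l ∧ T.Yst l ≤ Nrm (T.Kst i l) := by
  have hR : ∀ g ∈ T.Yst l, g ∈ Nrm (T.Rad i l) := fun g hg =>
    (T.nrm_Rad i hi.le hsp l hl.1 g (T.hY i hi.le hg.1) hg.2).1
  have key : ∀ g ∈ T.Yst l, ∀ y ∈ T.Kst i l, g * y * g⁻¹ ∈ T.Kst i l := by
    intro g hg y hy
    obtain ⟨h1, h2⟩ := (T.mem_Kst i hi hsp l hl y).1 hy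
    refine (T.mem_Kst i hi hsp l hl _).2
      ⟨(T.Yst l).mul_mem ((T.Yst l).mul_mem hg h1) ((T.Yst l).inv_mem hg), fun x hx => ?_⟩
    rw [show ⁅x, g * y * g⁻¹⁆ = g * ⁅g⁻¹ * x * g, y⁆ * g⁻¹ by
      simp only [commutatorElement_def]; group]
    exact kst_conj (hR g hg) (h2 _ (kst_conj' (T.hY i hi.le hg.1) hx))
  refine ⟨fun y hy => ((T.mem_Kst i hi hsp l hl y).1 hy).1, fun g hg => ?_⟩
  rw [Subgroup.mem_normalizer_iff]
  intro y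
  refine ⟨key g hg y, fun h => ?_⟩
  have h1 := key g⁻¹ ((T.Yst l).inv_mem hg) _ h
  rwa [show g⁻¹ * (g * y * g⁻¹) * g⁻¹⁻¹ = y by group] at h1

/-- GOOD_C -/
def GoodC (i : ℕ) (l : CF Γ (ZMod (T.p i))) : Prop :=
  ¬ (T.p i ≠ T.p 0 ∧ T.p (i + 1) ≠ T.p 0 ∧ (∀ u ∈ T.Np i, u • l = l) ∧
    ∀ u ∈ T.Np i, ∀ x ∈ T.P i, ⁅x, u⁆ ∈ T.Rad i l)

/-- (*) of (10.5): elements of `P i` acting trivially on `P (i+1) / Rad(l')` lie in `Rad(l)`, and if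
they lie in `D i` they are in the kernel of `l`.
PROOF. `compat_f0`: `f ∈ H (i+1)`, `f ≠ 0`, zero on `Rad(l')`, fixed by `ker l`. Let
`J = {x ∈ P i | ∀ y ∈ P (i+1), ⁅x,y⁆ ∈ Rad(l')}`; elements of `J` fix `f`
(`HomOn.smul_eq_of_comm`). If `x ∈ J`, `x ∈ Z i`, `l x ≠ 0`, then `f` is fixed by `Z i`
(`fix_of_gen`), contradiction to `nofix`. For `x ∈ J`, `y ∈ P i`: `⁅x,y⁆ = x (y x⁻¹ y⁻¹) ∈ J ∩ D i`
(`J` is a subgroup normalised by `P i`: `P i` normalises `P (i+1)` and `Rad(l')`, because it fixes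
`l'`, `smul_l`, `nrm_Rad`), so `l ⁅x,y⁆ = 0`. -/
theorem star (i : ℕ) (hi : i + 1 < T.n) (hsp : ¬ T.Ab i) (hsp' : ¬ T.Ab (i + 1))
    (l : CF Γ (ZMod (T.p i))) (hl : T.Occ i l)
    (l' : CF Γ (ZMod (T.p (i + 1)))) (hl' : T.Occ (i + 1) l') (hc : T.Compat i l l')
    (x : Γ) (hx : x ∈ T.P i) (h : ∀ y ∈ T.P (i + 1), ⁅x, y⁆ ∈ T.Rad (i + 1) l') :
    x ∈ T.Rad i l ∧ (x ∈ T.D i → l x = 0) := by
  have hin : i < T.n := by omega
  have hPP : ∀ y ∈ T.P i, y ∈ Nrm (T.P (i + 1)) := fun y hy =>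
    T.hN i (i + 1) (Nat.lt_succ_self i) (by omega) hy
  have hPR : ∀ y ∈ T.P i, y ∈ Nrm (T.Rad (i + 1) l') := fun y hy =>
    (T.nrm_Rad (i + 1) (by omega) hsp' l' hl'.1 y (hPP y hy)
      ((T.smul_l i hin hsp' l' hl'.1).1 y hy)).1
  obtain ⟨f, hf, hf0, hfR, hff⟩ := T.compat_f0 i hin hsp' l hl.1 l' hl'.1 hc
  have hZD : T.Z i = T.D i := T.Z_eq_of_not_Ab i hsp
  have : Fact (T.p i).Prime := ⟨T.hp i hin.le⟩
  -- elements of `J ∩ D i` are in the kernel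
  have key : ∀ z ∈ T.P i, (∀ y ∈ T.P (i + 1), ⁅z, y⁆ ∈ T.Rad (i + 1) l') → z ∈ T.D i →
      l z = 0 := by
    intro z hz hzJ hzD
    by_contra hlz
    have h1 : z • f = f := HomOn.smul_eq_of_comm hf (hPP z hz) (fun w hw => hfR _ (hzJ w hw))
    have h2 := fix_of_gen hl.1 (x := z) (by rw [hZD]; exact hzD) hlz (ω := f) hff h1
    exact hf0 (T.nofix i hin f hf h2)
  refine ⟨?_, key x hx h⟩
  rw [T.mem_Rad i hin.le hsp l hl.1]
  refine ⟨hx, fun y hy => ?_⟩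
  refine key _ ?_ (kst_comm (hPR x hx) (hPR y hy) (hPP y hy) h) ?_
  · rw [commutatorElement_def]
    exact (T.P i).mul_mem ((T.P i).mul_mem ((T.P i).mul_mem hx hy) ((T.P i).inv_mem hx))
      ((T.P i).inv_mem hy)
  · exact (le_sup_left : ⁅T.P i, T.P i⁆ ≤ T.D i) (Subgroup.commutator_mem_commutator hx hy)

/-- Elements `u` normalising the levels `i`, `i+1`, fixing `l'` and acting trivially on
`P (i+1)/Rad(l')` fix `l` and act trivially on `P i/Rad(l)`.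
PROOF. For `x ∈ P i` the element `⁅x,u⁆ ∈ P i` acts trivially on `P (i+1)/Rad(l')`; by `star`
`⁅x,u⁆ ∈ Rad(l)`, and `l ⁅x,u⁆ = 0` for `x ∈ D i` (then `⁅x,u⁆ ∈ D i`), so
`(u • l) x = l (u⁻¹ x u) = l x`. -/
theorem star2 (i : ℕ) (hi : i + 1 < T.n) (hsp : ¬ T.Ab i) (hsp' : ¬ T.Ab (i + 1))
    (l : CF Γ (ZMod (T.p i))) (hl : T.Occ i l)
    (l' : CF Γ (ZMod (T.p (i + 1)))) (hl' : T.Occ (i + 1) l') (hc : T.Compat i l l')
    (u : Γ) (hu : u ∈ Nrm (T.P i)) (huQ : u ∈ Nrm (T.Q i)) (hu' : u ∈ Nrm (T.P (i + 1)))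
    (huQ' : u ∈ Nrm (T.Q (i + 1))) (hul : u • l' = l')
    (h : ∀ y ∈ T.P (i + 1), ⁅y, u⁆ ∈ T.Rad (i + 1) l') :
    u • l = l ∧ ∀ x ∈ T.P i, ⁅x, u⁆ ∈ T.Rad i l := by
  have hin : i < T.n := by omega
  have hPP : ∀ y ∈ T.P i, y ∈ Nrm (T.P (i + 1)) := fun y hy =>
    T.hN i (i + 1) (Nat.lt_succ_self i) (by omega) hy
  have hPR : ∀ y ∈ T.P i, y ∈ Nrm (T.Rad (i + 1) l') := fun y hy =>
    (T.nrm_Rad (i + 1) (by omega) hsp' l' hl'.1 y (hPP y hy)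
      ((T.smul_l i hin hsp' l' hl'.1).1 y hy)).1
  have huR : u ∈ Nrm (T.Rad (i + 1) l') :=
    (T.nrm_Rad (i + 1) (by omega) hsp' l' hl'.1 u hu' hul).1
  have hst : ∀ x ∈ T.P i, ⁅x, u⁆ ∈ T.Rad i l ∧ (⁅x, u⁆ ∈ T.D i → l ⁅x, u⁆ = 0) := by
    intro x hx
    have h1 : ∀ w ∈ T.P (i + 1), ⁅⁅u, x⁆, w⁆ ∈ T.Rad (i + 1) l' :=
      kst_comm huR (hPR x hx) (hPP x hx) (kst_symm h)
    have h2 : ⁅u, x⁆ ∈ Nrm (T.Rad (i + 1) l') := by
      rw [commutatorElement_def]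
      exact (Nrm _).mul_mem ((Nrm _).mul_mem ((Nrm _).mul_mem huR (hPR x hx))
        ((Nrm _).inv_mem huR)) ((Nrm _).inv_mem (hPR x hx))
    have h3 := kst_inv h2 h1
    rw [commutatorElement_inv] at h3
    exact T.star i hi hsp hsp' l hl l' hl' hc _ (kst_comm_mem hu hx) h3
  have hZD : T.Z i = T.D i := T.Z_eq_of_not_Ab i hsp
  have huD : u ∈ Nrm (T.D i) := by
    have h1 : ∀ g : Γ, g ∈ Nrm (T.P i) → g ∈ Nrm (T.Q i) → ∀ x ∈ T.D i, g * x * g⁻¹ ∈ T.D i := by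
      intro g hg hgQ x hx
      have h2 : T.D i ≤ (T.D i).comap (MulAut.conj g).toMonoidHom := by
        refine sup_le ?_ ?_
        · rw [Subgroup.commutator_le]
          intro a ha b hb
          rw [Subgroup.mem_comap]
          change g * ⁅a, b⁆ * g⁻¹ ∈ T.D i
          rw [show g * ⁅a, b⁆ * g⁻¹ = ⁅g * a * g⁻¹, g * b * g⁻¹⁆ by
            simp only [commutatorElement_def]; group]
          exact (le_sup_left : ⁅T.P i, T.P i⁆ ≤ T.D i)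
            (Subgroup.commutator_mem_commutator (kst_conj hg ha) (kst_conj hg hb))
        · intro a ha
          rw [Subgroup.mem_comap]
          exact T.Q_le_D i (kst_conj hgQ ha)
      exact h2 hx
    rw [Subgroup.mem_normalizer_iff]
    intro x
    refine ⟨h1 u hu huQ x, fun hx => ?_⟩
    have h3 := h1 u⁻¹ ((Nrm _).inv_mem hu) ((Nrm _).inv_mem huQ) _ hx
    rwa [show u⁻¹ * (u * x * u⁻¹) * u⁻¹⁻¹ = x by group] at h3
  refine ⟨?_, fun x hx => (hst x hx).1⟩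
  have huZ : u ∈ Nrm (T.Z i) := by rw [hZD]; exact huD
  refine HomOn.smul_eq_of_comm hl.1 huZ (fun w hw => ?_)
  have hwD : w ∈ T.D i := by rw [← hZD]; exact hw
  have h4 := (hst w (T.D_le i hin.le hwD)).2 (kst_comm_mem huD hwD)
  rw [← commutatorElement_inv, HomOn.inv hl.1 (kst_comm_mem huZ hw), h4, neg_zero]

/-- (10.6) -/
theorem Kst_succ_le (i : ℕ) (hi : i + 1 < T.n) (hsp : ¬ T.Ab i) (hsp' : ¬ T.Ab (i + 1))
    (l : CF Γ (ZMod (T.p i))) (hl : T.Occ i l)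
    (l' : CF Γ (ZMod (T.p (i + 1)))) (hl' : T.Occ (i + 1) l') (hc : T.Compat i l l') :
    T.Kst (i + 1) l' ≤ T.Kst i l := by
  intro y hy
  obtain ⟨h1, h2⟩ := (T.mem_Kst (i + 1) hi hsp' l' hl' y).1 hy
  have h3 := T.star2 i hi hsp hsp' l hl l' hl' hc y (T.hY i (by omega) h1.1)
    (T.Y_nrm_Q i (by omega) h1.1) (T.hY (i + 1) (by omega) h1.1)
    (T.Y_nrm_Q (i + 1) (by omega) h1.1) h1.2 h2
  exact (T.mem_Kst i (by omega) hsp l hl y).2 ⟨⟨h1.1, h3.1⟩, h3.2⟩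

/-- propagation of GOOD_C (10.5): from `star2` for the elements of `Np (i+1)` -/
theorem goodC_succ (i : ℕ) (hi : i + 1 < T.n) (hsp : ¬ T.Ab i) (hsp' : ¬ T.Ab (i + 1))
    (l : CF Γ (ZMod (T.p i))) (hl : T.Occ i l)
    (l' : CF Γ (ZMod (T.p (i + 1)))) (hl' : T.Occ (i + 1) l') (hc : T.Compat i l l')
    (hg : T.GoodC i l) : T.GoodC (i + 1) l' := by
  rintro ⟨ha, hb, hc1, hc2⟩
  have hin : i < T.n := by omega
  by_cases hp0 : T.p i = T.p 0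
  · -- then `P i ≤ Np (i+1)` acts trivially, so `P i ≤ Rad`
    apply T.Rad_ne i hin.le hsp l hl.1 hl.2.1
    refine le_antisymm (T.Rad_prop i hin.le hsp l hl.1).2.1 (fun x hx => ?_)
    have hxN : x ∈ T.Np (i + 1) := T.P_le_Np i (i + 1) (Nat.le_succ i) hp0 hx
    exact (T.star i hi hsp hsp' l hl l' hl' hc x hx (kst_symm (hc2 x hxN))).1
  · apply hg
    have key : ∀ u ∈ T.Np i, u • l = l ∧ ∀ x ∈ T.P i, ⁅x, u⁆ ∈ T.Rad i l := by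
      intro u hu
      have hu1 : u ∈ T.Np (i + 1) := T.Np_mono i (i + 1) (Nat.le_succ i) hu
      have h1 := T.Np_nrm i i le_rfl hin.le
      have h2 := T.Np_nrm i (i + 1) (Nat.le_succ i) (by omega)
      exact T.star2 i hi hsp hsp' l hl l' hl' hc u (h1.1 hu) (h1.2.1 hu) (h2.1 hu) (h2.2.1 hu)
        (hc1 u hu1) (hc2 u hu1)
    exact ⟨hp0, ha, fun u hu => (key u hu).1, fun u hu => (key u hu).2⟩

/-- start of GOOD_C (10.5). PROOF: plan. If `p c = p 0` or `p (c+1) = p 0` any occurring `l` works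
(`exists_occ`). Otherwise, if no `l ∈ Occ c` is GOOD_C, then for `u ∈ Np c`, `x ∈ P c`:
`⁅x,u⁆ ∈ Rad c l` for all `l ∈ Occ c`, so `l ⁅⁅x,u⁆,y⁆ = 0` for all `y ∈ P c`, all `l`, so
`⁅⁅x,u⁆,y⁆ ∈ Q c` by `exists_occ`, so `⁅x,u⁆ ∈ D c` by `center`. Apply `triv_of_frat` with
`M = zpowers u`, `u ∈ P 0 ≤ Np c` (`p 0 ≠ p c` so coprime): `⁅P c, u⁆ ≤ Q c`, so
`u ∈ Q 0` by `faithful'`; contradiction to `T1`. -/
theorem exists_goodC (c : ℕ) (hc : 1 ≤ c) (hcn : c < T.n) (hsp : ¬ T.Ab c) :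
    ∃ l, T.Occ c l ∧ T.GoodC c l := by
  have hZ := T.Z_prop c hcn.le
  have hZD : T.Z c = T.D c := T.Z_eq_of_not_Ab c hsp
  by_contra hcon
  have hno : ∀ l, T.Occ c l → ¬ T.GoodC c l := fun l hl hg => hcon ⟨l, hl, hg⟩
  -- there is an occurring character
  obtain ⟨x0, hx0, hx0Q⟩ : ∃ x, x ∈ T.Z c ∧ x ∉ T.Q c := by
    by_contra h
    push Not at h
    exact hZ.2.2.2.2.2.1 h
  obtain ⟨l0, hl0, -⟩ := T.exists_occ c hcn x0 hx0 hx0Q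
  have hb0 := not_not.1 (hno l0 hl0)
  have hcond : ∀ l, T.Occ c l → ∀ u ∈ T.Np c, ∀ x ∈ T.P c, ⁅x, u⁆ ∈ T.Rad c l :=
    fun l hl => (not_not.1 (hno l hl)).2.2.2
  have hP0N : T.P 0 ≤ T.Np c := T.P_le_Np 0 c (Nat.zero_le c) rfl
  have hP0P : T.P 0 ≤ Nrm (T.P c) := T.hN 0 c hc hcn.le
  have hcomm : ⁅T.P c, T.P 0⁆ ≤ T.D c := by
    rw [Subgroup.commutator_le]
    intro x hx u hu
    refine T.center c hcn.le hsp _ (kst_comm_mem (hP0P hu) hx) (fun y hy => ?_)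
    by_contra hQ
    have hmem : ⁅⁅x, u⁆, y⁆ ∈ T.Z c := by
      rw [hZD]
      exact (le_sup_left : ⁅T.P c, T.P c⁆ ≤ T.D c)
        (Subgroup.commutator_mem_commutator (kst_comm_mem (hP0P hu) hx) hy)
    obtain ⟨l, hl, hl'⟩ := T.exists_occ c hcn _ hmem hQ
    exact hl' (((T.mem_Rad c hcn.le hsp l hl.1 _).1 (hcond l hl u (hP0N hu) x hx)).2 y hy)
  have hcop : (Nat.card (T.P c)).Coprime (Nat.card (T.P 0)) := by
    have : Fact (T.p c).Prime := ⟨T.hp c hcn.le⟩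
    have : Fact (T.p 0).Prime := ⟨T.hp 0 (Nat.zero_le _)⟩
    exact IsPGroup.coprime_card_of_ne (T.p c) (T.p 0) hb0.1 _ _ (T.hP c hcn.le)
      (T.hP 0 (Nat.zero_le _))
  have hcen : ⁅T.D c, T.P c⁆ ≤ T.Q c := by
    rw [← hZD]
    exact hZ.2.2.2.1
  have hfin := triv_of_frat (T.P c) (T.P 0) (T.D c) (T.Q c) hP0P
    (T.P_nrm_Q c 0 (Nat.zero_le _) hcn.le) (T.P_nrm_Q c c le_rfl hcn.le) (T.Q_le c hcn.le)
    (T.solv c hcn.le) hcop rfl hcen hcomm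
  apply T.T1 0 (Nat.zero_le _)
  intro u hu
  refine T.faithful' 0 c hc hcn.le u hu (fun y hy => ?_)
  rw [← commutatorElement_inv]
  exact (T.Q c).inv_mem (hfin (Subgroup.commutator_mem_commutator hy hu))

end TowerCore

end FT
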