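import Mathlib
import Pool.Agent.helper11.FT.Defs
import Pool.Agent.helper11.FT.HomBasic
import Pool.Agent.helper11.FT.Semi
import Pool.Agent.helper11.FT.C8
import Pool.Agent.helper11.FT.Bd
import Pool.Agent.helper11.FT.SecRep
import Pool.Agent.helper11.FT.Tower
import Pool.Agent.helper11.FT.TS0
import Pool.Agent.helper11.FT.TSs
import Pool.Agent.helper11.FT.TS
import Pool.Agent.helper11.FT.TS2
import Pool.Agent.helper11.FT.TS3
import Pool.Agent.helper11.FT.RadB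
import Pool.Agent.helper11.FT.SimpleDat
import Pool.Agent.helper11.FT.Kst

/-! # FT-C104: the counting (10.4) of /team-store/9c6401_plan.md for a tower -/

namespace FT

universe u v

open scoped commutatorElement

namespace TowerCore

variable {Γ : Type u} [Group Γ] [Finite Γ] (T : TowerCore Γ)

omit [Finite Γ] in
private theorem c104_card {A B : Subgroup Γ} (h : A ≤ B) :
    Nat.card (A.subgroupOf B) = Nat.card A :=
  Nat.card_congr (Subgroup.subgroupOfEquivOfLe h).toEquiv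

/-- (10.4) for one subgroup `H` of `Y_l`, inside `G1` -/
private theorem c104_aux (k n0 : ℕ) (hk1 : 1 ≤ k)
    (hk : (Nat.card T.Y).primeFactorsList.length ≤ k)
    (hb : Bd k n0) (i : ℕ) (hi : i + 1 < T.n) (hsp : ¬ T.Ab i) (hsp' : ¬ T.Ab (i + 1))
    (l0 : CF Γ (ZMod (T.p i))) (hl0 : T.Occ i l0)
    (hN : n0 ^ 2 * Nat.card (T.Rad i l0) ≤ Nat.card (T.P i))
    (l : CF Γ (ZMod (T.p (i + 1)))) (hl : T.Occ (i + 1) l)
    [Fact (T.p (i + 1)).Prime]
    (G1 : Subgroup Γ) (hRG : T.P i ≤ G1) (hP : G1 ≤ Nrm (T.P (i + 1)))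
    (hQ : G1 ≤ Nrm (T.Rad (i + 1) l)) (H : Subgroup G1) (hH : H ≤ T.Y.subgroupOf G1) :
    ((cenSub (secRep (ZMod (T.p (i + 1))) (T.P (i + 1)) (T.Rad (i + 1) l) G1 hP hQ) H
      ⊤).relIndex H) ^ (16 * k) ≤
      Nat.card (movS (secRep (ZMod (T.p (i + 1))) (T.P (i + 1)) (T.Rad (i + 1) l) G1 hP hQ)
        H) := by
  have hin : i ≤ T.n := by omega
  have hi1n : i + 1 ≤ T.n := by omega
  have hcardY : Nat.card H ∣ Nat.card T.Y := by
    have h1 : Nat.card H = Nat.card (H.map G1.subtype) :=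
      (Nat.card_congr (H.equivMapOfInjective G1.subtype (Subgroup.subtype_injective G1)).toEquiv)
    rw [h1]
    refine Subgroup.card_dvd_of_le ?_
    rintro x ⟨y, hy, rfl⟩
    exact hH hy
  have hcardR : Nat.card ((T.P i).subgroupOf G1) = Nat.card (T.P i) := c104_card hRG
  obtain ⟨hDR, hRP, hPR, hpw, hcm⟩ := T.Rad_prop (i + 1) hi1n hsp' l hl.1
  have hpi := T.hp i hin
  have hpi1 := T.hp (i + 1) hi1n
  have hSD := fun S hS => T.simple_dat i hi hsp hsp' l0 hl0 l hl G1 hRG hP hQ S hS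
  have hRpos : 0 < Nat.card (T.Rad i l0) := Nat.card_pos
  have hm' : ∀ m : ℕ, Nat.card (T.P i) ≤ m ^ 2 * Nat.card (T.Rad i l0) → n0 ≤ m := by
    intro m hm
    have h1 : n0 ^ 2 ≤ m ^ 2 := Nat.le_of_mul_le_mul_right (hN.trans hm) hRpos
    exact (Nat.pow_le_pow_iff_left (by norm_num)).1 h1
  refine c8 (secRep (ZMod (T.p (i + 1))) (T.P (i + 1)) (T.Rad (i + 1) l) G1 hP hQ) (T.p i) hpi
    ((T.P i).subgroupOf G1) H ?_ ?_ ?_ ?_ ?_ ?_ n0 (512 * k ^ 3) k hk1 ?_ hb.2.1 le_rfl ?_ ?_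
  · exact (T.hP i hin).comap_of_injective G1.subtype (Subgroup.subtype_injective G1)
  · rw [hcardR]
    have := Fact.mk hpi
    obtain ⟨a, ha⟩ := (IsPGroup.iff_card).1 (T.hP i hin)
    rw [ha]
    exact Nat.Coprime.pow_right a ((Nat.coprime_primes hpi1 hpi).2 (T.adj i (by omega)).symm)
  · intro h hh
    rw [Subgroup.mem_normalizer_iff]
    intro x
    exact (Subgroup.mem_normalizer_iff.1 (T.hY i hin (hH hh)) (x : Γ))
  · exact (T.cop i hin).coprime_dvd_right hcardY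
  · exact (T.cop (i + 1) hi1n).coprime_dvd_right hcardY
  · intro x hx y hy z hz
    obtain ⟨-, hDZ, -, hZP, -⟩ := T.Z_prop i hin
    have h1 : ((⁅⁅x, y⁆, z⁆ : G1) : Γ) ∈ T.Q i := by
      refine hZP (Subgroup.commutator_mem_commutator (hDZ ?_) hz)
      exact Subgroup.mem_sup_left (Subgroup.commutator_mem_commutator hx hy)
    apply LinearMap.ext
    intro f
    apply Subtype.ext
    rw [secRep_apply]
    refine T.Q_fix i (by omega) _ h1 _ ?_
    obtain ⟨f, hf1, hf2, hf3⟩ := f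
    exact ⟨hf1, hf2, fun x hx => hf3 x (hDR (T.Q_le_D (i + 1) hx))⟩
  · exact (Nat.primeFactorsList_sublist_of_dvd hcardY Nat.card_pos.ne').length_le.trans hk
  · intro S hS
    obtain ⟨m, f, hf3, hRH, hSc, hPm, -⟩ := hSD S hS
    rw [hRH, hSc]
    exact Nat.pow_le_pow_right (by omega) (hm' m hPm)
  · intro S hS
    obtain ⟨m, f, hf3, hRH, hSc, hPm, hrel⟩ := hSD S hS
    rw [hSc]
    exact (Nat.pow_le_pow_left hrel _).trans (hb.2.2 m f (hm' m hPm) (by omega))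

/-- PROOF. `F = ZMod (p (i+1))`, `P = P (i+1)`, `Rad = Rad (i+1) l`, `B = Yst l`,
`G1 = P i ⊔ B ≤ Nrm P, Nrm Rad` (`P i` and `B` fix `l`: `smul_l`, `nrm_Rad`),
`ρ = secRep F P Rad G1`. `c8_count` for `ρ` and `B.subgroupOf G1` (whose order is that of `B`, dividing
`|Y|`, so `Ω ≤ k` and prime to `p (i+1)`), where the hypothesis `hH` for `H ≤ B.subgroupOf G1` is `c8` with
`R = (P i).subgroupOf G1`, `r = p i`, `m = 512 k^3`: `hcl` holds since `⁅⁅P i,P i⁆,P i⁆ ≤ Q i` acts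
trivially on `H (i+1)` (`Q_fix`) and `HomOn F P Rad ≤ H (i+1)`; `hS1`, `hS2` from `simple_dat`:
`n0^2 |Rad i l0| ≤ |P i| ≤ m'^2 |Rad i l0|` so `n0 ≤ m'`, `f^n0 ≤ f^m' = |S|` and
`(m'^2 f)^(512 k^3) ≤ f^m'` by `Bd`. Translate the conclusion: `cenSub ρ B ⊤` corresponds to
`Kst (i+1) l` (`secRep_eq_one`, `mem_Kst`), and `secRep_card_fix`:
`cenN P Rad b * |X| = |P| * |fix b|`, so `|X| ≤ t |fix b| ↔ |P| ≤ t cenN P Rad b`. -/
theorem c104 (k n0 : ℕ) (hk1 : 1 ≤ k) (hk : (Nat.card T.Y).primeFactorsList.length ≤ k)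
    (hb : Bd k n0) (i : ℕ) (hi : i + 1 < T.n) (hsp : ¬ T.Ab i) (hsp' : ¬ T.Ab (i + 1))
    (l0 : CF Γ (ZMod (T.p i))) (hl0 : T.Occ i l0)
    (hN : n0 ^ 2 * Nat.card (T.Rad i l0) ≤ Nat.card (T.P i))
    (l : CF Γ (ZMod (T.p (i + 1)))) (hl : T.Occ (i + 1) l) :
    (∀ t : ℝ, 1 ≤ t →
      (Nat.card {b : Γ // b ∈ T.Yst l ∧ (Nat.card (T.P (i + 1)) : ℝ) ≤
        t * cenN (T.P (i + 1)) (T.Rad (i + 1) l) b} : ℝ) ^ 16 ≤
        t * (Nat.card (T.Kst (i + 1) l) : ℝ) ^ 16) ∧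
    ∀ b ∈ T.Yst l, b ∉ T.Kst (i + 1) l →
      2 ^ 16 * cenN (T.P (i + 1)) (T.Rad (i + 1) l) b ≤ Nat.card (T.P (i + 1)) := by
  have hin : i ≤ T.n := by omega
  have hi1n : i + 1 ≤ T.n := by omega
  have hfact : Fact (T.p (i + 1)).Prime := ⟨T.hp (i + 1) hi1n⟩
  obtain ⟨hDR, hRP, hPR, hpw, hcm⟩ := T.Rad_prop (i + 1) hi1n hsp' l hl.1
  have hsm := T.smul_l i (by omega) hsp' l hl.1
  have hYP : T.Yst l ≤ Nrm (T.P (i + 1)) := fun y hy =>
    T.hY (i + 1) hi1n ((T.mem_Yst l y).1 hy).1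
  have hPP : T.P i ≤ Nrm (T.P (i + 1)) := T.P_nrm_P (i + 1) i (Nat.le_succ i) hi1n
  obtain ⟨G1, hG1⟩ : ∃ G1 : Subgroup Γ, G1 = T.P i ⊔ T.Yst l := ⟨_, rfl⟩
  have hRG : T.P i ≤ G1 := by rw [hG1]; exact le_sup_left
  have hBG : T.Yst l ≤ G1 := by rw [hG1]; exact le_sup_right
  have hP : G1 ≤ Nrm (T.P (i + 1)) := by rw [hG1]; exact sup_le hPP hYP
  have hQ : G1 ≤ Nrm (T.Rad (i + 1) l) := by
    rw [hG1]
    refine sup_le (fun x hx => ?_) (fun y hy => ?_)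
    · exact (T.nrm_Rad (i + 1) hi1n hsp' l hl.1 x (hPP hx) (hsm.1 x hx)).1
    · exact (T.nrm_Rad (i + 1) hi1n hsp' l hl.1 y (hYP hy) ((T.mem_Yst l y).1 hy).2).1
  obtain ⟨ρ, hρ⟩ : ∃ ρ, ρ = secRep (ZMod (T.p (i + 1))) (T.P (i + 1)) (T.Rad (i + 1) l) G1
    hP hQ := ⟨_, rfl⟩
  have hBY : (T.Yst l).subgroupOf G1 ≤ T.Y.subgroupOf G1 := fun y hy =>
    ((T.mem_Yst l (y : Γ)).1 hy).1
  have hBcard : Nat.card ((T.Yst l).subgroupOf G1) ∣ Nat.card T.Y := by
    rw [c104_card hBG]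
    exact Subgroup.card_dvd_of_le fun y hy => ((T.mem_Yst l y).1 hy).1
  have hone : ∀ g : G1, ρ g = 1 ↔ ∀ x ∈ T.P (i + 1), ⁅x, (g : Γ)⁆ ∈ T.Rad (i + 1) l := by
    intro g
    rw [hρ]
    exact secRep_eq_one (T.p (i + 1)) _ _ G1 hP hQ hRP hPR hpw hcm g
  have hfix : ∀ g : G1, cenN (T.P (i + 1)) (T.Rad (i + 1) l) (g : Γ) *
      Nat.card (HomOn (ZMod (T.p (i + 1))) (T.P (i + 1)) (T.Rad (i + 1) l)) =
      Nat.card (T.P (i + 1)) * Nat.card (fixS ρ (Subgroup.zpowers g)) := by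
    intro g
    rw [hρ]
    exact secRep_card_fix (T.p (i + 1)) _ _ G1 hP hQ hRP hPR hpw hcm g
  have hcount := c8_count ρ ((T.Yst l).subgroupOf G1)
    ((T.cop (i + 1) hi1n).coprime_dvd_right hBcard) k hk1
    ((Nat.primeFactorsList_sublist_of_dvd hBcard Nat.card_pos.ne').length_le.trans hk)
    (fun H hH => by
      rw [hρ]
      exact T.c104_aux k n0 hk1 hk hb i hi hsp hsp' l0 hl0 hN l hl G1 hRG hP hQ H (hH.trans hBY))
  obtain ⟨hc1, hc2⟩ := hcount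
  have hcen : cenSub ρ ((T.Yst l).subgroupOf G1) ⊤ = (T.Kst (i + 1) l).subgroupOf G1 := by
    ext g
    rw [Subgroup.mem_subgroupOf, T.mem_Kst (i + 1) hi hsp' l hl]
    refine ⟨fun h => ⟨h.1, (hone g).1 ?_⟩, fun h => ⟨h.1, fun x _ => ?_⟩⟩
    · apply LinearMap.ext
      intro x
      exact h.2 x trivial
    · rw [(hone g).2 h.2]
      rfl
  have hKB : T.Kst (i + 1) l ≤ G1 := (T.Kst_le (i + 1) hi hsp' l hl).1.trans hBG
  have hKcard : Nat.card (cenSub ρ ((T.Yst l).subgroupOf G1) ⊤) =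
      Nat.card (T.Kst (i + 1) l) := by rw [hcen, c104_card hKB]
  have hPpos : 0 < Nat.card (T.P (i + 1)) := Nat.card_pos
  have hXpos : 0 < Nat.card (HomOn (ZMod (T.p (i + 1))) (T.P (i + 1)) (T.Rad (i + 1) l)) :=
    Nat.card_pos
  refine ⟨fun t ht => ?_, fun b hb hbK => ?_⟩
  · have h1 := hc1 t ht
    rw [hKcard] at h1
    have h2 : Nat.card {b : Γ // b ∈ T.Yst l ∧ (Nat.card (T.P (i + 1)) : ℝ) ≤
        t * cenN (T.P (i + 1)) (T.Rad (i + 1) l) b} =
        Nat.card {b : G1 // b ∈ (T.Yst l).subgroupOf G1 ∧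
          (Nat.card (HomOn (ZMod (T.p (i + 1))) (T.P (i + 1)) (T.Rad (i + 1) l)) : ℝ) ≤
          t * Nat.card (fixS ρ (Subgroup.zpowers b))} := by
      have hiff : ∀ b : G1, (Nat.card (T.P (i + 1)) : ℝ) ≤
          t * cenN (T.P (i + 1)) (T.Rad (i + 1) l) (b : Γ) ↔
          (Nat.card (HomOn (ZMod (T.p (i + 1))) (T.P (i + 1)) (T.Rad (i + 1) l)) : ℝ) ≤
          t * Nat.card (fixS ρ (Subgroup.zpowers b)) := by
        intro b
        have h3 : (cenN (T.P (i + 1)) (T.Rad (i + 1) l) (b : Γ) : ℝ) *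
            Nat.card (HomOn (ZMod (T.p (i + 1))) (T.P (i + 1)) (T.Rad (i + 1) l)) =
            Nat.card (T.P (i + 1)) * Nat.card (fixS ρ (Subgroup.zpowers b)) := by
          exact_mod_cast hfix b
        have hP0 : (0 : ℝ) < Nat.card (T.P (i + 1)) := by exact_mod_cast hPpos
        have hX0 : (0 : ℝ) <
            Nat.card (HomOn (ZMod (T.p (i + 1))) (T.P (i + 1)) (T.Rad (i + 1) l)) := by
          exact_mod_cast hXpos
        constructor
        · intro h4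
          have h5 := mul_le_mul_of_nonneg_right h4 hX0.le
          have h6 : (Nat.card (T.P (i + 1)) : ℝ) *
              Nat.card (HomOn (ZMod (T.p (i + 1))) (T.P (i + 1)) (T.Rad (i + 1) l)) ≤
              Nat.card (T.P (i + 1)) * (t * Nat.card (fixS ρ (Subgroup.zpowers b))) := by
            calc _ ≤ _ := h5
              _ = t * ((cenN (T.P (i + 1)) (T.Rad (i + 1) l) (b : Γ) : ℝ) *
                Nat.card (HomOn (ZMod (T.p (i + 1))) (T.P (i + 1)) (T.Rad (i + 1) l))) := by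
                  ring
              _ = _ := by rw [h3]; ring
          exact le_of_mul_le_mul_left h6 hP0
        · intro h4
          have h5 := mul_le_mul_of_nonneg_left h4 hP0.le
          have h6 : (Nat.card (T.P (i + 1)) : ℝ) *
              Nat.card (HomOn (ZMod (T.p (i + 1))) (T.P (i + 1)) (T.Rad (i + 1) l)) ≤
              (t * cenN (T.P (i + 1)) (T.Rad (i + 1) l) (b : Γ)) *
              Nat.card (HomOn (ZMod (T.p (i + 1))) (T.P (i + 1)) (T.Rad (i + 1) l)) := by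
            calc _ ≤ _ := h5
              _ = t * (Nat.card (T.P (i + 1)) * Nat.card (fixS ρ (Subgroup.zpowers b))) := by
                  ring
              _ = _ := by rw [← h3]; ring
          exact le_of_mul_le_mul_right h6 hX0
      refine Nat.card_congr
        { toFun := fun b => ⟨⟨b.1, hBG b.2.1⟩, b.2.1, (hiff _).1 b.2.2⟩
          invFun := fun b => ⟨b.1.1, b.2.1, (hiff _).2 b.2.2⟩
          left_inv := fun b => rfl
          right_inv := fun b => rfl }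
    rw [h2]
    exact h1
  · have h1 := hc2 ⟨b, hBG hb⟩ hb (by
      rw [hcen]
      exact hbK)
    have h2 := hfix ⟨b, hBG hb⟩
    have h3 : 2 ^ 16 * cenN (T.P (i + 1)) (T.Rad (i + 1) l) b *
        Nat.card (HomOn (ZMod (T.p (i + 1))) (T.P (i + 1)) (T.Rad (i + 1) l)) ≤
        Nat.card (T.P (i + 1)) *
        Nat.card (HomOn (ZMod (T.p (i + 1))) (T.P (i + 1)) (T.Rad (i + 1) l)) := by
      calc _ = 2 ^ 16 * (cenN (T.P (i + 1)) (T.Rad (i + 1) l) b *
            Nat.card (HomOn (ZMod (T.p (i + 1))) (T.P (i + 1)) (T.Rad (i + 1) l))) := by ring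
        _ = 2 ^ 16 * (Nat.card (T.P (i + 1)) *
            Nat.card (fixS ρ (Subgroup.zpowers (⟨b, hBG hb⟩ : G1)))) := by rw [← h2]
        _ = Nat.card (T.P (i + 1)) * (2 ^ 16 *
            Nat.card (fixS ρ (Subgroup.zpowers (⟨b, hBG hb⟩ : G1)))) := by ring
        _ ≤ _ := Nat.mul_le_mul_left _ h1
    exact Nat.le_of_mul_le_mul_right h3 hXpos

end TowerCore

end FT
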