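import Mathlib

/-! # FT-Cnt: a counting lemma -/

namespace FT

private theorem cnt_aux {ι : Type*} [DecidableEq ι] (S : Finset ι) (ν : ι → ℝ) (κ : ℝ)
    (hκ : 1 ≤ κ) :
    ∑ s ∈ S, (κ / (((S.filter (fun s' => ν s' ≤ ν s)).card : ℝ) + κ)) ^ 2 ≤
      κ - κ ^ 2 / ((S.card : ℝ) + κ) := by
  have hκ0 : 0 < κ := by linarith
  refine Finset.induction_on_max_value ν S ?_ ?_
  · simp only [Finset.sum_empty, Finset.card_empty, Nat.cast_zero, zero_add]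
    rw [pow_two, mul_div_assoc, div_self hκ0.ne']; simp
  · intro a s ha hmax ih
    rw [Finset.sum_insert ha]
    have h1 : (insert a s).filter (fun s' => ν s' ≤ ν a) = insert a s := by
      apply Finset.filter_true_of_mem
      intro x hx
      rcases Finset.mem_insert.1 hx with rfl | hx
      · exact le_rfl
      · exact hmax x hx
    rw [h1, Finset.card_insert_of_notMem ha]
    have h2 : ∑ t ∈ s, (κ / ((((insert a s).filter (fun s' => ν s' ≤ ν t)).card : ℝ) + κ)) ^ 2 ≤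
        ∑ t ∈ s, (κ / (((s.filter (fun s' => ν s' ≤ ν t)).card : ℝ) + κ)) ^ 2 := by
      apply Finset.sum_le_sum
      intro t _
      have hc : ((s.filter (fun s' => ν s' ≤ ν t)).card : ℝ) ≤
          (((insert a s).filter (fun s' => ν s' ≤ ν t)).card : ℝ) := by
        exact_mod_cast Finset.card_le_card (Finset.filter_subset_filter _ (Finset.subset_insert a s))
      have hp : 0 < ((s.filter (fun s' => ν s' ≤ ν t)).card : ℝ) + κ := by positivity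
      apply pow_le_pow_left₀ (by positivity)
      apply div_le_div_of_nonneg_left hκ0.le hp (by linarith)
    push_cast
    have hN : (0 : ℝ) ≤ (s.card : ℝ) := by positivity
    have h3 : (κ / ((s.card : ℝ) + 1 + κ)) ^ 2 ≤
        κ ^ 2 / ((s.card : ℝ) + κ) - κ ^ 2 / ((s.card : ℝ) + 1 + κ) := by
      have e1 : κ ^ 2 / ((s.card : ℝ) + κ) - κ ^ 2 / ((s.card : ℝ) + 1 + κ) =
          κ ^ 2 / (((s.card : ℝ) + κ) * ((s.card : ℝ) + 1 + κ)) := by
        have : (s.card : ℝ) + κ ≠ 0 := by positivity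
        have : (s.card : ℝ) + 1 + κ ≠ 0 := by positivity
        field_simp
        ring
      rw [e1, div_pow]
      apply div_le_div_of_nonneg_left (by positivity) (by positivity)
      rw [pow_two ((s.card : ℝ) + 1 + κ)]
      apply mul_le_mul_of_nonneg_right (by linarith) (by positivity)
    linarith

private theorem cnt_aux2 (κ m v : ℝ) (hκ0 : 0 < κ) (hm0 : 0 ≤ m) (hν : (2 : ℝ) ^ 16 ≤ v)
    (hν2 : (m + κ) ^ 16 ≤ v * κ ^ 16) :
    (Real.sqrt v)⁻¹ ≤ 1 / 16 * (κ / (m + κ)) ^ 2 := by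
  have hν0 : 0 ≤ v := le_trans (by norm_num) hν
  obtain ⟨r, hr⟩ : ∃ r : ℝ, r = Real.sqrt (Real.sqrt v) := ⟨_, rfl⟩
  have hr0 : 0 ≤ r := by rw [hr]; exact Real.sqrt_nonneg _
  have hr2 : Real.sqrt v = r ^ 2 := by rw [hr]; exact (Real.sq_sqrt (Real.sqrt_nonneg _)).symm
  have hr4 : v = r ^ 4 := by
    have : v = (Real.sqrt v) ^ 2 := (Real.sq_sqrt hν0).symm
    rw [this, hr2]; ring
  have hr16 : (16 : ℝ) ≤ r := by
    have h5 : (16 : ℝ) ^ 4 ≤ r ^ 4 := by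
      rw [← hr4]
      refine le_trans ?_ hν
      norm_num
    exact (pow_le_pow_iff_left₀ (by norm_num) hr0 (by norm_num)).1 h5
  have hmk : 0 < m + κ := by linarith
  have hq : 0 < (m + κ) / κ := div_pos hmk hκ0
  have hx : ((m + κ) / κ) ^ 4 ≤ r := by
    have h5 : (((m + κ) / κ) ^ 4) ^ 4 ≤ r ^ 4 := by
      rw [← hr4, ← pow_mul, div_pow]
      rw [div_le_iff₀ (pow_pos hκ0 _)]
      exact hν2
    exact (pow_le_pow_iff_left₀ (pow_pos hq 4).le hr0 (by norm_num)).1 h5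
  have hge : 1 ≤ (m + κ) / κ := by
    rw [le_div_iff₀ hκ0]; linarith
  have hx2 : ((m + κ) / κ) ^ 2 ≤ r := le_trans (pow_le_pow_right₀ hge (by norm_num)) hx
  rw [hr2]
  have e : 1 / 16 * (κ / (m + κ)) ^ 2 = (16 * ((m + κ) / κ) ^ 2)⁻¹ := by
    have : m + κ ≠ 0 := hmk.ne'
    field_simp
  rw [e]
  apply inv_anti₀ (mul_pos (by norm_num) (pow_pos hq 2))
  calc 16 * ((m + κ) / κ) ^ 2 ≤ r * r := mul_le_mul hr16 hx2 (pow_pos hq 2).le hr0
    _ = r ^ 2 := by ring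

/-- `S` a finite set, `ν` a real function on it, `κ ≥ 1`, with `ν ≥ 2^16` and
`(#{s' ∈ S : ν s' ≤ ν s} + κ)^16 ≤ ν s * κ^16` for all `s ∈ S`. Then `∑ 1/√(ν s) ≤ κ/16`.
PROOF. `1/√ν = ν^(-1/4) ν^(-1/4) ≤ (1/16) (κ/(m_s + κ))^4 ≤ (1/16) (κ/(m_s+κ))^2`, where
`m_s = #{s' : ν s' ≤ ν s}`. It remains to see `∑_s (κ/(m_s + κ))^2 ≤ κ`: by induction on `#S`,
more precisely `∑_{s∈S} (κ/(m_s+κ))^2 ≤ κ - κ^2/(#S + κ)`: remove an element `s0` with `ν` maximal,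
`m_{s0} = #S`, the other `m_s` do not increase when passing to `S \ {s0}` (so their terms do not
decrease), and `κ^2/(N+κ)^2 ≤ κ^2/(N-1+κ) - κ^2/(N+κ)`. -/
theorem cnt {ι : Type*} (S : Finset ι) (ν : ι → ℝ) (κ : ℝ) (hκ : 1 ≤ κ)
    (h1 : ∀ s ∈ S, (2 : ℝ) ^ 16 ≤ ν s)
    (h2 : ∀ s ∈ S, (((S.filter (fun s' => ν s' ≤ ν s)).card : ℝ) + κ) ^ 16 ≤ ν s * κ ^ 16) :
    ∑ s ∈ S, (Real.sqrt (ν s))⁻¹ ≤ κ / 16 := by
  classical
  have hκ0 : 0 < κ := by linarith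
  have hterm : ∀ s ∈ S, (Real.sqrt (ν s))⁻¹ ≤
      1 / 16 * (κ / (((S.filter (fun s' => ν s' ≤ ν s)).card : ℝ) + κ)) ^ 2 := by
    intro s hs
    exact cnt_aux2 κ _ (ν s) hκ0 (by positivity) (h1 s hs) (h2 s hs)
  calc ∑ s ∈ S, (Real.sqrt (ν s))⁻¹
      ≤ ∑ s ∈ S, 1 / 16 * (κ / (((S.filter (fun s' => ν s' ≤ ν s)).card : ℝ) + κ)) ^ 2 :=
        Finset.sum_le_sum hterm
    _ = 1 / 16 * ∑ s ∈ S, (κ / (((S.filter (fun s' => ν s' ≤ ν s)).card : ℝ) + κ)) ^ 2 := by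
        rw [Finset.mul_sum]
    _ ≤ 1 / 16 * (κ - κ ^ 2 / ((S.card : ℝ) + κ)) := by
        apply mul_le_mul_of_nonneg_left (cnt_aux S ν κ hκ) (by norm_num)
    _ ≤ κ / 16 := by
        have : 0 ≤ κ ^ 2 / ((S.card : ℝ) + κ) := by positivity
        linarith

end FT
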