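import Mathlib
import Pool.Agent.helper11.FT.Defs
import Pool.Agent.helper11.FT.SZ
import Pool.Agent.helper11.FT.KC0

/-! # FT-KC1 -/

namespace FT

universe u v

open scoped commutatorElement

private theorem exists_pow_conj {G : Type u} [Group G] [Finite G] (p : ℕ) [Fact p.Prime]
    (N : Subgroup G) (hNp : IsPGroup p N) (n b : G) (hn : n ∈ N) (hb : b ∈ Nrm N)
    (hpb : p.Coprime (orderOf b)) :
    ∃ m ∈ N, ∃ s : ℕ, (n * b) ^ s = m * b * m⁻¹ := by
  have hco : (Nat.card N).Coprime (orderOf b) := by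
    obtain ⟨k, hk⟩ := IsPGroup.iff_card.mp hNp
    rw [hk]; exact Nat.Coprime.pow_left k hpb
  obtain ⟨s, hs0, hs1⟩ := Nat.chineseRemainder hco 0 1
  have hzN : Subgroup.zpowers b ≤ Nrm N := by rwa [Subgroup.zpowers_le]
  set L : Subgroup G := Subgroup.zpowers b ⊔ N with hL
  have hnorm : (N.subgroupOf L).Normal := Subgroup.normal_subgroupOf_sup_of_le_normalizer hzN
  have hbL : b ∈ L := Subgroup.mem_sup_left (Subgroup.mem_zpowers b)
  have hNL : N ≤ L := le_sup_right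
  set N' : Subgroup L := N.subgroupOf L with hN'
  let b' : L := ⟨b, hbL⟩
  let n' : L := ⟨n, hNL hn⟩
  have hn' : n' ∈ N' := Subgroup.mem_subgroupOf.mpr hn
  let c' : L := (n' * b') ^ s
  have hob : orderOf b' = orderOf b := Subgroup.orderOf_mk b hbL
  have hcN' : Nat.card N' = Nat.card N := Nat.card_congr (Subgroup.subgroupOfEquivOfLe hNL).toEquiv
  have hπ : (QuotientGroup.mk' N') (n' * b') = (QuotientGroup.mk' N') b' := by
    rw [map_mul]
    have : (QuotientGroup.mk' N') n' = 1 := (QuotientGroup.eq_one_iff n').mpr hn'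
    rw [this, one_mul]
  have hbs : b' ^ s = b' := by
    have h1 : b' ^ s = b' ^ 1 := by
      rw [pow_eq_pow_iff_modEq, hob]
      exact hs1
    rw [h1, pow_one]
  have hπc : (QuotientGroup.mk' N') c' = (QuotientGroup.mk' N') b' := by
    change (QuotientGroup.mk' N') ((n' * b') ^ s) = _
    rw [map_pow, hπ, ← map_pow, hbs]
  have hgo : (n' * b') ^ orderOf b ∈ N' := by
    rw [← QuotientGroup.eq_one_iff]
    have h1 : (QuotientGroup.mk' N') ((n' * b') ^ orderOf b) = 1 := by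
      rw [map_pow, hπ, ← map_pow, ← hob, pow_orderOf_eq_one, map_one]
    exact h1
  have hco1 : c' ^ orderOf b = 1 := by
    change ((n' * b') ^ s) ^ orderOf b = 1
    rw [← pow_mul, mul_comm, pow_mul]
    have h1 : Nat.card N' ∣ s := by
      rw [hcN']
      exact (Nat.modEq_zero_iff_dvd).mp hs0
    obtain ⟨t, ht⟩ := h1
    have h2 : ((n' * b') ^ orderOf b) ^ Nat.card N' = 1 := by
      have h3 : (⟨(n' * b') ^ orderOf b, hgo⟩ : N') ^ Nat.card N' = 1 := pow_card_eq_one'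
      exact congrArg (fun x : N' => (x : L)) h3
    rw [ht, pow_mul, h2, one_pow]
  -- complements
  have key : ∀ d : L, (QuotientGroup.mk' N') d = (QuotientGroup.mk' N') b' →
      d ^ orderOf b = 1 → N'.IsComplement' (Subgroup.zpowers d) := by
    intro d hd hdo
    refine Subgroup.isComplement'_of_disjoint_and_mul_eq_univ ?_ ?_
    · rw [Subgroup.disjoint_def]
      intro y hy1 hy2
      obtain ⟨i, rfl⟩ := Subgroup.mem_zpowers_iff.mp hy2
      have h1 : orderOf (d ^ i) ∣ orderOf b := by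
        apply orderOf_dvd_of_pow_eq_one
        rw [← zpow_natCast, ← zpow_mul, mul_comm, zpow_mul, zpow_natCast, hdo, one_zpow]
      have h2 : orderOf (d ^ i) ∣ Nat.card N := by
        rw [← hcN']
        have h3 := orderOf_dvd_natCard (⟨d ^ i, hy1⟩ : N')
        rwa [Subgroup.orderOf_mk] at h3
      have h4 := Nat.eq_one_of_dvd_coprimes hco h2 h1
      exact orderOf_eq_one_iff.mp h4
    · rw [Set.eq_univ_iff_forall]
      intro x
      have hx : (x : G) ∈ ((Subgroup.zpowers b ⊔ N : Subgroup G) : Set G) := x.2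
      rw [Subgroup.coe_mul_of_left_le_normalizer_right _ _ hzN] at hx
      obtain ⟨y, hy, m, hm, hxy⟩ := hx
      obtain ⟨i, rfl⟩ := Subgroup.mem_zpowers_iff.mp hy
      have hx2 : x = b' ^ i * ⟨m, hNL hm⟩ := by
        apply Subtype.ext
        simp only [Subgroup.coe_mul, Subgroup.coe_zpow]
        exact hxy.symm
      have hm1 : (QuotientGroup.mk' N') (⟨m, hNL hm⟩ : L) = 1 :=
        (QuotientGroup.eq_one_iff _).mpr (Subgroup.mem_subgroupOf.mpr hm)
      have hπx : (QuotientGroup.mk' N') x = (QuotientGroup.mk' N') (d ^ i) := by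
        rw [hx2, map_mul, hm1, mul_one, map_zpow, map_zpow, hd]
      refine Set.mem_mul.mpr ⟨x * (d ^ i)⁻¹, ?_, d ^ i, Subgroup.zpow_mem_zpowers d i, by group⟩
      have h5 : (QuotientGroup.mk' N') (x * (d ^ i)⁻¹) = 1 := by
        rw [map_mul, map_inv, hπx, mul_inv_cancel]
      exact (QuotientGroup.eq_one_iff _).mp h5
  have hbo : b' ^ orderOf b = 1 := by rw [← hob, pow_orderOf_eq_one]
  have : Group.IsNilpotent N' := by
    have h1 : IsPGroup p N' := hNp.of_equiv (Subgroup.subgroupOfEquivOfLe hNL).symm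
    exact h1.isNilpotent
  obtain ⟨m, hm, hconj⟩ := sz_conj N' (Subgroup.zpowers b') (Subgroup.zpowers c') inferInstance
    (key b' rfl hbo) (key c' hπc hco1) (by rw [hcN', Nat.card_zpowers, hob]; exact hco)
  have h1 : m⁻¹ * c' * m ∈ Subgroup.zpowers b' := (hconj c').mp (Subgroup.mem_zpowers c')
  have hπm : (QuotientGroup.mk' N') m = 1 := (QuotientGroup.eq_one_iff _).mpr hm
  have h2 : m⁻¹ * c' * m * b'⁻¹ ∈ N' := by
    have h3 : (QuotientGroup.mk' N') (m⁻¹ * c' * m * b'⁻¹) = 1 := by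
      rw [map_mul, map_mul, map_mul, map_inv, map_inv, hπm, hπc, inv_one, one_mul, mul_one,
        mul_inv_cancel]
    exact (QuotientGroup.eq_one_iff _).mp h3
  have h3 : m⁻¹ * c' * m * b'⁻¹ ∈ Subgroup.zpowers b' :=
    (Subgroup.zpowers b').mul_mem h1 ((Subgroup.zpowers b').inv_mem (Subgroup.mem_zpowers b'))
  have h4 : m⁻¹ * c' * m * b'⁻¹ = 1 :=
    Subgroup.disjoint_def.mp (key b' rfl hbo).disjoint h2 h3
  have h5 : c' = m * b' * m⁻¹ := by
    have h6 : m⁻¹ * c' * m = b' := mul_inv_eq_one.mp h4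
    rw [← h6]; group
  refine ⟨m, Subgroup.mem_subgroupOf.mp hm, s, ?_⟩
  have h6 := congrArg (fun x : L => (x : G)) h5
  simpa [c', n', b'] using h6

private theorem pow_conj_mem {G : Type u} [Group G] (E0 : Subgroup G) (x g : G)
    (hg : g ∈ Nrm E0) (h : ⁅x, g⁆ ∈ E0) (s : ℕ) : ⁅x, g ^ s⁆ ∈ E0 := by
  induction s with
  | zero => simp
  | succ s ih =>
    have h1 : ⁅x, g ^ (s + 1)⁆ = ⁅x, g⁆ * (g * ⁅x, g ^ s⁆ * g⁻¹) := by
      simp only [commutatorElement_def, pow_succ']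
      group
    rw [h1]
    exact E0.mul_mem h ((Subgroup.mem_normalizer_iff.mp hg _).mp ih)

/-- For `b` of order prime to `p` normalising the `p`-group `N`, and `n ∈ N`:
`cenN (n b) ≤ cenN b`.
PROOF. Let `s` be an integer with `s = 1` mod `orderOf b` and `s = 0` mod `|N|`. `(n b)^s` is
congruent to `b^s = b` modulo `N` and has order prime to `p` (its order divides the order of `b`:
`(n b)^{orderOf b} ∈ N`, ...), so `zpowers ((n b)^s)` and `zpowers b` are complements of `N` in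
`N ⊔ zpowers b`: by `sz_conj` (in that group) `(n b)^s = m b m⁻¹`, `m ∈ N`. If `⁅x, n b⁆ ∈ E0`,
then `⁅x, (n b)^s⁆ ∈ E0` (`E0` is normalised by everything), so
`{x | ⁅x, n b⁆ ∈ E0} ⊆ {x | ⁅x, m b m⁻¹⁆ ∈ E0} = m {x | ⁅x, b⁆ ∈ E0} m⁻¹`. -/
theorem cenN_mul_le {G : Type u} [Group G] [Finite G] (p : ℕ) [Fact p.Prime]
    (E E0 N B : Subgroup G) (hNp : IsPGroup p N) (hBN : B ≤ Nrm N) (hpB : p.Coprime (Nat.card B))
    (hNE : N ≤ Nrm E) (hNE0 : N ≤ Nrm E0) (hBE : B ≤ Nrm E) (hBE0 : B ≤ Nrm E0)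
    (hEE0 : E ≤ Nrm E0) (n b : G) (hn : n ∈ N) (hb : b ∈ B) :
    cenN E E0 (n * b) ≤ cenN E E0 b := by
  have hpb : p.Coprime (orderOf b) := by
    refine Nat.Coprime.coprime_dvd_right ?_ hpB
    have h3 := orderOf_dvd_natCard (⟨b, hb⟩ : B)
    rwa [Subgroup.orderOf_mk] at h3
  obtain ⟨m, hm, s, hs⟩ := exists_pow_conj p N hNp n b hn (hBN hb) hpb
  have hg : n * b ∈ Nrm E0 := (Nrm E0).mul_mem (hNE0 hn) (hBE0 hb)
  have hmE : m⁻¹ ∈ Nrm E := (Nrm E).inv_mem (hNE hm)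
  have hmE0 : m⁻¹ ∈ Nrm E0 := (Nrm E0).inv_mem (hNE0 hm)
  refine Nat.card_le_card_of_injective
    (fun x : {x : G // x ∈ E ∧ ⁅x, n * b⁆ ∈ E0} =>
      (⟨m⁻¹ * x.1 * m, ?_, ?_⟩ : {x : G // x ∈ E ∧ ⁅x, b⁆ ∈ E0})) ?_
  · have h1 := (Subgroup.mem_normalizer_iff.mp hmE x.1).mp x.2.1
    rwa [inv_inv] at h1
  · have h1 : ⁅x.1, m * b * m⁻¹⁆ ∈ E0 := by
      rw [← hs]
      exact pow_conj_mem E0 x.1 (n * b) hg x.2.2 s
    have h2 := (Subgroup.mem_normalizer_iff.mp hmE0 _).mp h1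
    have h3 : m⁻¹ * ⁅x.1, m * b * m⁻¹⁆ * m⁻¹⁻¹ = ⁅m⁻¹ * x.1 * m, b⁆ := by
      simp only [commutatorElement_def]
      group
    rwa [h3] at h2
  · intro x y hxy
    have h1 := congrArg (fun z : {x : G // x ∈ E ∧ ⁅x, b⁆ ∈ E0} => z.1) hxy
    simp only [mul_left_inj, mul_right_inj] at h1
    exact Subtype.ext h1

end FT
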