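import Mathlib
import Pool.Agent.helper11.FT.Defs

/-! # FT-LiftRoots: representations of `p'`-groups in characteristic `p` lift to complex ones

Only the dimensions of fixed spaces are needed. -/

namespace FT

universe u v

open Polynomial

open scoped Classical in
/-- Root counting. `f` a monic integer polynomial; `𝔸` = algebraic integers in `ℂ`
(`integralClosure ℤ ℂ`), `φ : 𝔸 →+* κ` a ring homomorphism to a field. The number (with
multiplicity) of complex roots `α` of `f` with `φ α = 1` is the multiplicity of `1` as a root of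
`f` over `κ`.
PROOF. The complex roots of `f` are algebraic integers, `f = ∏ (X - α_i)` over `𝔸` (inject into
`ℂ`), so `f = ∏ (X - φ α_i)` over `κ`; `count` in the multiset of roots. -/
theorem card_roots_one (f : ℤ[X]) (hf : f.Monic) {κ : Type v} [Field κ]
    (φ : integralClosure ℤ ℂ →+* κ) :
    Multiset.card ((f.map (Int.castRingHom ℂ)).roots.filter
      (fun α => ∃ h : IsIntegral ℤ α, φ ⟨α, h⟩ = 1)) =
      (f.map (Int.castRingHom κ)).rootMultiplicity 1 := by
  have hfC : (f.map (Int.castRingHom ℂ)).Monic := hf.map _
  have hint : ∀ α ∈ (f.map (Int.castRingHom ℂ)).roots, α ∈ integralClosure ℤ ℂ := by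
    intro α hα
    refine ⟨f, hf, ?_⟩
    have h := (mem_roots'.mp hα).2
    rw [IsRoot.def, eval_map] at h
    exact h
  obtain ⟨R', hR'⟩ : ∃ R' : Multiset (integralClosure ℤ ℂ),
      R'.map (Subtype.val : integralClosure ℤ ℂ → ℂ) = (f.map (Int.castRingHom ℂ)).roots := by
    refine ⟨(f.map (Int.castRingHom ℂ)).roots.pmap
      (fun α (h : α ∈ integralClosure ℤ ℂ) => (⟨α, h⟩ : integralClosure ℤ ℂ)) hint, ?_⟩
    rw [Multiset.map_pmap]
    rw [Multiset.pmap_eq_map]
    exact Multiset.map_id' _
  -- factorisation over the algebraic integers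
  have hfac : f.map (Int.castRingHom (integralClosure ℤ ℂ)) =
      (R'.map (fun a => X - C a)).prod := by
    apply map_injective (algebraMap (integralClosure ℤ ℂ) ℂ)
      (FaithfulSMul.algebraMap_injective (integralClosure ℤ ℂ) ℂ)
    rw [Polynomial.map_map, Polynomial.map_multiset_prod, Multiset.map_map]
    have h1 : ((algebraMap (integralClosure ℤ ℂ) ℂ).comp
        (Int.castRingHom (integralClosure ℤ ℂ))) = Int.castRingHom ℂ :=
      RingHom.ext_int _ _
    rw [h1]
    have h2 := (IsAlgClosed.splits (f.map (Int.castRingHom ℂ))).eq_prod_roots_of_monic hfC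
    rw [h2, ← hR', Multiset.map_map]
    congr 1
    refine Multiset.map_congr rfl ?_
    intro a _
    simp
  have hfacK : f.map (Int.castRingHom κ) = ((R'.map φ).map (fun a => X - C a)).prod := by
    have h1 : (φ.comp (Int.castRingHom (integralClosure ℤ ℂ))) = Int.castRingHom κ :=
      RingHom.ext_int _ _
    rw [← h1, ← Polynomial.map_map, hfac, Polynomial.map_multiset_prod, Multiset.map_map,
      Multiset.map_map]
    congr 1
    refine Multiset.map_congr rfl ?_
    intro a _
    simp
  rw [← count_roots, hfacK, roots_multiset_prod_X_sub_C, Multiset.count_map, ← hR',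
    Multiset.filter_map, Multiset.card_map]
  refine congrArg Multiset.card (Multiset.filter_congr ?_)
  intro a _
  constructor
  · rintro ⟨h, h'⟩
    exact h'.symm
  · intro h
    exact ⟨a.2, h.symm⟩

end FT
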