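import Mathlib
import Pool.Agent.helper11.FT.Defs
import Pool.Agent.helper11.FT.LiftRoots

/-! # FT-Lift: representations of `p'`-groups in characteristic `p` lift to complex ones

Only the dimensions of fixed spaces are needed. -/

namespace FT

universe u v

open Polynomial

section gen
variable {K : Type*} [Field K] {X : Type*} [AddCommGroup X] [Module K X]
  {Y : Type*} [AddCommGroup Y] [Module K Y]

private def US (T : Module.End K X) (S : Set K) : Submodule K X :=
  ⨆ α ∈ S, T.maxGenEigenspace α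

private lemma US_disj (T : Module.End K X) (S : Set K) : Disjoint (US T S) (US T Sᶜ) :=
  iSupIndep.disjoint_biSup_biSup (Module.End.independent_maxGenEigenspace T) disjoint_compl_right

private lemma US_top [IsAlgClosed K] [FiniteDimensional K X] (T : Module.End K X) (S : Set K) :
    US T S ⊔ US T Sᶜ = ⊤ := by
  rw [eq_top_iff, ← Module.End.iSup_maxGenEigenspace_eq_top T]
  refine iSup_le fun α => ?_
  by_cases h : α ∈ S
  · exact le_trans (le_biSup (fun α => T.maxGenEigenspace α) h) le_sup_left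
  · exact le_trans (le_biSup (fun α => T.maxGenEigenspace α) (show α ∈ Sᶜ from h)) le_sup_right

private lemma US_map (ι : Y →ₗ[K] X) (T : Module.End K X) (T' : Module.End K Y)
    (h : ∀ y, ι (T' y) = T (ι y)) (S : Set K) : (US T' S).map ι ≤ US T S := by
  unfold US
  simp only [Submodule.map_iSup]
  refine iSup₂_mono fun α _ => ?_
  rintro _ ⟨y, hy, rfl⟩
  rw [SetLike.mem_coe, Module.End.mem_maxGenEigenspace] at hy
  obtain ⟨k, hk⟩ := hy
  rw [Module.End.mem_maxGenEigenspace]
  refine ⟨k, ?_⟩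
  have key : ∀ (k : ℕ) (y : Y), ((T - α • (1 : Module.End K X)) ^ k) (ι y) =
      ι (((T' - α • (1 : Module.End K Y)) ^ k) y) := by
    intro k
    induction k with
    | zero => intro y; simp
    | succ k ih =>
      intro y
      rw [pow_succ, pow_succ, Module.End.mul_apply, Module.End.mul_apply, ← ih]
      congr 1
      simp [h]
  rw [key, hk, map_zero]

private lemma US_comap [IsAlgClosed K] [FiniteDimensional K Y] (ι : Y →ₗ[K] X)
    (hι : Function.Injective ι) (T : Module.End K X) (T' : Module.End K Y)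
    (h : ∀ y, ι (T' y) = T (ι y)) (S : Set K) (y : Y) : ι y ∈ US T S ↔ y ∈ US T' S := by
  constructor
  · intro hy
    have h1 : y ∈ US T' S ⊔ US T' Sᶜ := by rw [US_top]; trivial
    obtain ⟨s, hs, s', hs', rfl⟩ := Submodule.mem_sup.1 h1
    have h2 : ι s ∈ US T S := US_map ι T T' h S ⟨s, hs, rfl⟩
    have h3 : ι s' ∈ US T Sᶜ := US_map ι T T' h Sᶜ ⟨s', hs', rfl⟩
    have h4 : ι s' ∈ US T S := by
      have := (US T S).sub_mem hy h2
      rwa [map_add, add_sub_cancel_left] at this
    have h5 : ι s' = 0 := by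
      have := Submodule.disjoint_def.1 (US_disj T S) _ h4 h3
      exact this
    have h6 : s' = 0 := hι (by rw [h5, map_zero])
    rw [h6, add_zero]; exact hs
  · intro hy
    exact US_map ι T T' h S ⟨y, hy, rfl⟩

private lemma finrank_fin_sup [FiniteDimensional K X] {f : K → Submodule K X} (hf : iSupIndep f)
    (s : Finset K) : Module.finrank K (⨆ α ∈ s, f α : Submodule K X) =
      ∑ α ∈ s, Module.finrank K (f α) := by
  classical
  induction s using Finset.induction_on with
  | empty => simp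
  | insert a s ha ih =>
    rw [Finset.sum_insert ha, ← ih, Finset.iSup_insert]
    have h1 : Disjoint (f a) (⨆ α ∈ s, f α) := by
      have := hf.disjoint_biSup (x := a) (y := (s : Set K)) (by simpa using ha)
      simpa using this
    have h2 := Submodule.finrank_sup_add_finrank_inf_eq (f a) (⨆ α ∈ s, f α)
    rw [disjoint_iff.1 h1, finrank_bot, add_zero] at h2
    exact h2

private lemma finrank_US [FiniteDimensional K X] (T : Module.End K X) (S : Set K)
    [DecidablePred (· ∈ S)] :
    Module.finrank K (US T S) = Multiset.card (T.charpoly.roots.filter (· ∈ S)) := by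
  classical
  have h1 : US T S = ⨆ α ∈ (T.charpoly.roots.filter (· ∈ S)).toFinset,
      T.maxGenEigenspace α := by
    unfold US
    apply le_antisymm
    · refine iSup₂_le fun α hα => ?_
      by_cases hr : α ∈ T.charpoly.roots
      · exact le_biSup (fun α => T.maxGenEigenspace α) (Multiset.mem_toFinset.2 (Multiset.mem_filter.2 ⟨hr, hα⟩))
      · have h2 : Module.finrank K (T.maxGenEigenspace α) = 0 := by
          rw [LinearMap.finrank_maxGenEigenspace_eq, ← Polynomial.count_roots,
            Multiset.count_eq_zero]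
          exact hr
        rw [Submodule.finrank_eq_zero.1 h2]
        exact bot_le
    · refine iSup₂_le fun α hα => ?_
      have : α ∈ S := by
        simp only [Multiset.mem_toFinset, Multiset.mem_filter] at hα
        exact hα.2
      exact le_biSup (fun α => T.maxGenEigenspace α) this
  rw [h1, finrank_fin_sup (Module.End.independent_maxGenEigenspace T),
    ← Multiset.toFinset_sum_count_eq]
  refine Finset.sum_congr rfl fun α hα => ?_
  have : α ∈ S := by
    simp only [Multiset.mem_toFinset, Multiset.mem_filter] at hα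
    exact hα.2
  rw [LinearMap.finrank_maxGenEigenspace_eq, ← Polynomial.count_roots,
    Multiset.count_filter_of_pos this]

end gen

section cos
variable {H : Type u} [Group H] [Fintype H] {n : ℕ} (c : H → Matrix (Fin n) (Fin n) ℤ)

private noncomputable def TW (k : Type*) [Field k] : Module.End k (H × Fin n → k) where
  toFun f := fun p => ∑ x : H, ∑ j : Fin n, ((c (p.1 * x⁻¹) p.2 j : ℤ) : k) * f (x, j)
  map_add' f g := by
    funext p
    simp only [Pi.add_apply, mul_add, Finset.sum_add_distrib]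
  map_smul' a f := by
    funext p
    simp only [Pi.smul_apply, smul_eq_mul, RingHom.id_apply, Finset.mul_sum]
    refine Finset.sum_congr rfl fun x _ => Finset.sum_congr rfl fun j _ => by ring

private lemma TW_apply (k : Type*) [Field k] (f : H × Fin n → k) (p : H × Fin n) :
    TW c k f p = ∑ x : H, ∑ j : Fin n, ((c (p.1 * x⁻¹) p.2 j : ℤ) : k) * f (x, j) := rfl

open scoped Classical in
private noncomputable def MJ (J : Subgroup H) :
    Matrix ((H ⧸ J) × Fin n) ((H ⧸ J) × Fin n) ℤ :=
  fun p q => ∑ x : H, if (x : H ⧸ J) = q.1 then c (p.1.out * x⁻¹) p.2 q.2 else 0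

open scoped Classical in
private noncomputable def TJ (J : Subgroup H) (k : Type*) [Field k] :
    Module.End k ((H ⧸ J) × Fin n → k) :=
  Matrix.toLin' ((MJ c J).map (Int.castRingHom k))

private def iJ (n : ℕ) (J : Subgroup H) (k : Type*) [Field k] :
    ((H ⧸ J) × Fin n → k) →ₗ[k] (H × Fin n → k) :=
  LinearMap.funLeft k k (fun p : H × Fin n => (((p.1 : H) : H ⧸ J), p.2))

omit [Fintype H] in
private lemma iJ_apply (J : Subgroup H) (k : Type*) [Field k] (f : (H ⧸ J) × Fin n → k)
    (p : H × Fin n) : iJ n J k f p = f ((p.1 : H ⧸ J), p.2) := rfl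

omit [Fintype H] in
private lemma iJ_inj (J : Subgroup H) (k : Type*) [Field k] :
    Function.Injective (iJ n J k) := by
  apply LinearMap.funLeft_injective_of_surjective
  rintro ⟨q, i⟩
  obtain ⟨g, rfl⟩ := QuotientGroup.mk_surjective q
  exact ⟨(g, i), rfl⟩

omit [Fintype H] in
private lemma mem_range_iJ (J : Subgroup H) (k : Type*) [Field k] (F : H × Fin n → k)
    (hF : ∀ g : H, ∀ h ∈ J, ∀ i, F (g * h, i) = F (g, i)) : ∃ f, iJ n J k f = F := by
  refine ⟨fun q => F (q.1.out, q.2), ?_⟩
  funext p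
  rw [iJ_apply]
  obtain ⟨h, hh⟩ := QuotientGroup.mk_out_eq_mul J p.1
  show F (((p.1 : H) : H ⧸ J).out, p.2) = F p
  rw [hh, hF p.1 h h.2]

open scoped Classical in
private lemma iJ_TJ (J : Subgroup H) (k : Type*) [Field k] (f : (H ⧸ J) × Fin n → k) :
    iJ n J k (TJ c J k f) = TW c k (iJ n J k f) := by
  funext p
  obtain ⟨g, i⟩ := p
  rw [iJ_apply, TW_apply, TJ, Matrix.toLin'_apply, Matrix.mulVec, dotProduct]
  simp only [Matrix.map_apply, MJ, Int.coe_castRingHom, iJ_apply]
  obtain ⟨h, hh⟩ := QuotientGroup.mk_out_eq_mul J g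
  rw [Fintype.sum_prod_type]
  have h1 : ∀ q : H ⧸ J, ∀ j : Fin n,
      (((∑ x : H, if (x : H ⧸ J) = q then c ((g : H ⧸ J).out * x⁻¹) i j else 0 : ℤ)) : k)
        * f (q, j) = ∑ x : H, if (x : H ⧸ J) = q then
          ((c ((g : H ⧸ J).out * x⁻¹) i j : ℤ) : k) * f ((x : H ⧸ J), j) else 0 := by
    intro q j
    rw [Int.cast_sum, Finset.sum_mul]
    refine Finset.sum_congr rfl fun x _ => ?_
    split_ifs with hx
    · rw [hx]
    · simp
  simp only [h1]
  rw [Finset.sum_comm]
  have h2 : ∀ j : Fin n, (∑ q : H ⧸ J, ∑ x : H, if (x : H ⧸ J) = q then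
          ((c ((g : H ⧸ J).out * x⁻¹) i j : ℤ) : k) * f ((x : H ⧸ J), j) else 0) =
      ∑ x : H, ((c (g * x⁻¹) i j : ℤ) : k) * f ((x : H ⧸ J), j) := by
    intro j
    rw [Finset.sum_comm]
    simp only [Finset.sum_ite_eq, Finset.mem_univ, if_true]
    rw [← Equiv.sum_comp (Equiv.mulRight (h : H))]
    refine Finset.sum_congr rfl fun x _ => ?_
    have e : g * (h : H) * (x * (h : H))⁻¹ = g * x⁻¹ := by group
    show ((c ((g : H ⧸ J).out * (x * (h : H))⁻¹) i j : ℤ) : k) *
      f (((x * (h : H) : H) : H ⧸ J), j) = _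
    rw [QuotientGroup.mk_mul_of_mem x h.2, hh, e]
  simp only [h2]
  rw [Finset.sum_comm]

private def rW (n : ℕ) (k : Type*) [Field k] : Representation k H (H × Fin n → k) where
  toFun h := LinearMap.funLeft k k (fun p : H × Fin n => (p.1 * h, p.2))
  map_one' := by
    ext f p
    simp [LinearMap.funLeft_apply]
  map_mul' a b := by
    apply LinearMap.ext
    intro f
    funext p
    simp [LinearMap.funLeft_apply, mul_assoc]

omit [Fintype H] in
private lemma rW_apply (k : Type*) [Field k] (h : H) (f : H × Fin n → k) (p : H × Fin n) :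
    rW n k h f p = f (p.1 * h, p.2) := rfl

private lemma rW_comm (k : Type*) [Field k] (h : H) : Commute (TW c k) (rW n k h) := by
  apply LinearMap.ext
  intro f
  funext p
  show TW c k (rW n k h f) p = rW n k h (TW c k f) p
  rw [rW_apply, TW_apply, TW_apply]
  conv_rhs => rw [← Equiv.sum_comp (Equiv.mulRight h)]
  refine Finset.sum_congr rfl fun x _ => Finset.sum_congr rfl fun j _ => ?_
  have e : p.1 * h * (x * h)⁻¹ = p.1 * x⁻¹ := by group
  show ((c (p.1 * x⁻¹) p.2 j : ℤ) : k) * f (x * h, j) =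
    ((c (p.1 * h * (x * h)⁻¹) p.2 j : ℤ) : k) * f (x * h, j)
  rw [e]

end cos

section cx
variable {H : Type u} [Group H] [Fintype H] {n : ℕ} (c : H → Matrix (Fin n) (Fin n) ℤ)

private lemma stab (S : Set ℂ) (h : H) (x : H × Fin n → ℂ) (hx : x ∈ US (TW c ℂ) S) :
    rW n ℂ h x ∈ US (TW c ℂ) S :=
  US_map (rW n ℂ h) (TW c ℂ) (TW c ℂ)
    (fun y => (LinearMap.congr_fun (rW_comm c ℂ h).eq y).symm) S ⟨x, hx, rfl⟩

private noncomputable def rU (S : Set ℂ) : Representation ℂ H (US (TW c ℂ) S) where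
  toFun h := (rW n ℂ h).restrict (stab c S h)
  map_one' := by
    ext x
    simp
  map_mul' a b := by
    apply LinearMap.ext
    intro x
    apply Subtype.ext
    simp

private lemma rU_coe (S : Set ℂ) (h : H) (x : US (TW c ℂ) S) :
    ((rU c S h x : US (TW c ℂ) S) : H × Fin n → ℂ) = rW n ℂ h x := rfl

open scoped Classical in
private lemma fix_map (S : Set ℂ) (J : Subgroup H) :
    (fixS (rU c S) J).map (US (TW c ℂ) S).subtype = (US (TJ c J ℂ) S).map (iJ n J ℂ) := by
  apply le_antisymm
  · rintro _ ⟨x, hx, rfl⟩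
    rw [SetLike.mem_coe, mem_fixS] at hx
    obtain ⟨f, hf⟩ := mem_range_iJ J ℂ (x : H × Fin n → ℂ) (fun g h hh i => by
      have h1 := congrArg (fun y : US (TW c ℂ) S => (y : H × Fin n → ℂ) (g, i)) (hx h hh)
      simp only [rU_coe, rW_apply] at h1
      exact h1)
    refine ⟨f, ?_, hf⟩
    rw [SetLike.mem_coe, ← US_comap (iJ n J ℂ) (iJ_inj J ℂ) (TW c ℂ) (TJ c J ℂ)
      (fun y => iJ_TJ c J ℂ y) S f, hf]
    exact x.2
  · rintro _ ⟨f, hf, rfl⟩
    have h1 : iJ n J ℂ f ∈ US (TW c ℂ) S :=
      US_map (iJ n J ℂ) (TW c ℂ) (TJ c J ℂ) (fun y => iJ_TJ c J ℂ y) S ⟨f, hf, rfl⟩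
    refine ⟨⟨iJ n J ℂ f, h1⟩, ?_, rfl⟩
    rw [SetLike.mem_coe, mem_fixS]
    intro h hh
    apply Subtype.ext
    rw [rU_coe]
    funext p
    show f (((p.1 * h : H) : H ⧸ J), p.2) = f ((p.1 : H ⧸ J), p.2)
    rw [QuotientGroup.mk_mul_of_mem p.1 hh]

open scoped Classical in
private lemma fix_finrank (S : Set ℂ) (J : Subgroup H) :
    Module.finrank ℂ (fixS (rU c S) J) =
      Multiset.card ((((MJ c J).charpoly).map (Int.castRingHom ℂ)).roots.filter (· ∈ S)) := by
  rw [(Submodule.equivMapOfInjective (US (TW c ℂ) S).subtype (Submodule.subtype_injective _)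
    (fixS (rU c S) J)).finrank_eq, fix_map c S J,
    ← (Submodule.equivMapOfInjective (iJ n J ℂ) (iJ_inj J ℂ) (US (TJ c J ℂ) S)).finrank_eq,
    finrank_US, TJ, Matrix.charpoly_toLin', Matrix.charpoly_map]

end cx

section fs
variable {H : Type u} [Group H] [Fintype H] {n : ℕ} (c : H → Matrix (Fin n) (Fin n) ℤ)
  {k : Type} [Field k] {V : Type v} [AddCommGroup V] [Module k V] (ρ : Representation k H V)
  (b : Module.Basis (Fin n) k V)

private noncomputable def Ph : V →ₗ[k] (H × Fin n → k) where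
  toFun v := fun p => b.repr (ρ p.1 v) p.2
  map_add' v w := by funext p; simp
  map_smul' a v := by funext p; simp

private noncomputable def vF (F : H × Fin n → k) : V :=
  (Nat.card H : k)⁻¹ • ∑ x : H, ρ x⁻¹ (b.equivFun.symm (fun j => F (x, j)))

omit [Fintype H] in
private lemma Ph_apply (v : V) (p : H × Fin n) : Ph ρ b v p = b.repr (ρ p.1 v) p.2 := rfl

omit [Fintype H] in
private lemma Ph_inj : Function.Injective (Ph ρ b) := by
  intro v w h
  apply b.repr.injective
  ext i
  have := congrFun h (1, i)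
  simpa [Ph_apply] using this

private lemma vF_Ph (hN : (Nat.card H : k) ≠ 0) (v : V) : vF ρ b (Ph ρ b v) = v := by
  have h1 : ∀ x : H, ρ x⁻¹ (b.equivFun.symm (fun j => Ph ρ b v (x, j))) = v := by
    intro x
    have h2 : b.equivFun.symm (fun j => Ph ρ b v (x, j)) = ρ x v := by
      rw [LinearEquiv.symm_apply_eq]
      funext j
      rw [Ph_apply, Module.Basis.equivFun_apply]
    rw [h2, ← Module.End.mul_apply, ← map_mul, inv_mul_cancel, map_one, Module.End.one_apply]
  unfold vF
  simp only [h1, Finset.sum_const, Finset.card_univ]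
  rw [← Nat.cast_smul_eq_nsmul k, smul_smul, ← Nat.card_eq_fintype_card, inv_mul_cancel₀ hN,
    one_smul]

private lemma TW_eq (hc : ∀ x i j, ((c x i j : ℤ) : k) =
      (Nat.card H : k)⁻¹ * LinearMap.toMatrix b b (ρ x) i j) (F : H × Fin n → k) :
    TW c k F = Ph ρ b (vF ρ b F) := by
  funext p
  rw [TW_apply, Ph_apply, vF, map_smul, map_sum, map_smul, map_sum]
  simp only [Finsupp.coe_smul, Finsupp.coe_finsetSum, Pi.smul_apply, Finset.sum_apply,
    smul_eq_mul, Finset.mul_sum]
  refine Finset.sum_congr rfl fun x _ => ?_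
  have h1 : ρ p.1 (ρ x⁻¹ (b.equivFun.symm (fun j => F (x, j)))) =
      ρ (p.1 * x⁻¹) (b.equivFun.symm (fun j => F (x, j))) := by
    rw [map_mul]; rfl
  have h2 := congrFun (LinearMap.toMatrix_mulVec_repr b b (ρ (p.1 * x⁻¹))
    (b.equivFun.symm (fun j => F (x, j)))) p.2
  rw [h1, ← h2, Matrix.mulVec, dotProduct, Finset.mul_sum]
  refine Finset.sum_congr rfl fun j _ => ?_
  have h3 : b.repr (b.equivFun.symm (fun j => F (x, j))) j = F (x, j) := by
    rw [← Module.Basis.equivFun_apply, LinearEquiv.apply_symm_apply]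
  rw [hc, h3]
  ring

open scoped Classical in
private lemma fs_map (hN : (Nat.card H : k) ≠ 0) (hc : ∀ x i j, ((c x i j : ℤ) : k) =
      (Nat.card H : k)⁻¹ * LinearMap.toMatrix b b (ρ x) i j) (J : Subgroup H) :
    ((TJ c J k).maxGenEigenspace 1).map (iJ n J k) = (fixS ρ J).map (Ph ρ b) := by
  have hPP : ∀ v, TW c k (Ph ρ b v) = Ph ρ b v := by
    intro v
    rw [TW_eq c ρ b hc, vF_Ph ρ b hN]
  apply le_antisymm
  · rintro _ ⟨f, hf, rfl⟩
    rw [SetLike.mem_coe, Module.End.mem_maxGenEigenspace] at hf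
    obtain ⟨m, hm⟩ := hf
    have h0 : TJ c J k (f - TJ c J k f) = 0 := by
      apply iJ_inj (n := n) J k
      rw [iJ_TJ, map_sub, map_sub, iJ_TJ, TW_eq c ρ b hc (iJ n J k f), hPP, sub_self, map_zero]
    obtain ⟨D, hD⟩ : ∃ D : Module.End k ((H ⧸ J) × Fin n → k), D = TJ c J k - (1 : k) • 1 :=
      ⟨_, rfl⟩
    rw [← hD] at hm
    have h1 : ∀ m : ℕ, (D ^ m) (f - TJ c J k f) = (-1 : k) ^ m • (f - TJ c J k f) := by
      intro m
      induction m with
      | zero => simp
      | succ m ih =>
        have h3 : D (f - TJ c J k f) = -(f - TJ c J k f) := by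
          rw [hD, LinearMap.sub_apply, h0, LinearMap.smul_apply, Module.End.one_apply, one_smul,
            zero_sub]
        rw [pow_succ, Module.End.mul_apply, h3, map_neg, ih, pow_succ]
        simp
    have h2 : (D ^ m) (f - TJ c J k f) = 0 := by
      have h3 : f - TJ c J k f = -(D f) := by rw [hD]; simp
      rw [h3, map_neg, ← Module.End.mul_apply, ← pow_succ, pow_succ', Module.End.mul_apply, hm,
        map_zero, neg_zero]
    have h4 : f - TJ c J k f = 0 := by
      rw [h1 m] at h2
      rcases smul_eq_zero.1 h2 with h | h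
      · exact absurd h (pow_ne_zero _ (by simp))
      · exact h
    have h5 : iJ n J k f = Ph ρ b (vF ρ b (iJ n J k f)) := by
      rw [← TW_eq c ρ b hc, ← iJ_TJ, ← sub_eq_zero.1 h4]
    refine ⟨vF ρ b (iJ n J k f), ?_, h5.symm⟩
    rw [SetLike.mem_coe, mem_fixS]
    intro h hh
    apply b.repr.injective
    ext i
    have h6 : iJ n J k f (h, i) = iJ n J k f (1, i) := by
      rw [iJ_apply, iJ_apply]
      show f ((h : H ⧸ J), i) = f (((1 : H) : H ⧸ J), i)
      have := QuotientGroup.mk_mul_of_mem (s := J) (1 : H) hh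
      rw [one_mul] at this
      rw [this]
    rw [h5, Ph_apply, Ph_apply] at h6
    simpa using h6
  · rintro _ ⟨v, hv, rfl⟩
    rw [SetLike.mem_coe, mem_fixS] at hv
    obtain ⟨f, hf⟩ := mem_range_iJ J k (Ph ρ b v) (fun g h hh i => by
      rw [Ph_apply, Ph_apply]
      show b.repr (ρ (g * h) v) i = b.repr (ρ g v) i
      rw [map_mul, Module.End.mul_apply, hv h hh])
    refine ⟨f, ?_, hf⟩
    rw [SetLike.mem_coe, Module.End.mem_maxGenEigenspace]
    refine ⟨1, ?_⟩
    rw [pow_one]
    apply iJ_inj (n := n) J k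
    simp only [LinearMap.sub_apply, Module.End.one_apply, one_smul, map_sub, map_zero]
    rw [iJ_TJ, hf, hPP, sub_self]

open scoped Classical in
private lemma fs_mult (hN : (Nat.card H : k) ≠ 0) (hc : ∀ x i j, ((c x i j : ℤ) : k) =
      (Nat.card H : k)⁻¹ * LinearMap.toMatrix b b (ρ x) i j) (J : Subgroup H) :
    (((MJ c J).charpoly).map (Int.castRingHom k)).rootMultiplicity 1 =
      Module.finrank k (fixS ρ J) := by
  rw [(Submodule.equivMapOfInjective (Ph ρ b) (Ph_inj ρ b) (fixS ρ J)).finrank_eq,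
    ← fs_map c ρ b hN hc J,
    ← (Submodule.equivMapOfInjective (iJ n J k) (iJ_inj J k)
      ((TJ c J k).maxGenEigenspace 1)).finrank_eq,
    LinearMap.finrank_maxGenEigenspace_eq, TJ, Matrix.charpoly_toLin', Matrix.charpoly_map]

end fs

private lemma exists_kappa (r : ℕ) [hr : Fact r.Prime] : ∃ (κ : Type) (_ : Field κ)
    (_ : CharP κ r), Nonempty (integralClosure ℤ ℂ →+* κ) := by
  have h1 : Ideal.span {((r : ℕ) : integralClosure ℤ ℂ)} ≠ ⊤ := by
    intro h
    rw [Ideal.span_singleton_eq_top] at h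
    obtain ⟨x, hx⟩ := h.exists_right_inv
    have h2 : IsIntegral ℤ (x : ℂ) := x.2
    have h3 : (r : ℂ) * (x : ℂ) = 1 := by
      have := congrArg (fun y : integralClosure ℤ ℂ => (y : ℂ)) hx
      simpa using this
    have hr0 : (r : ℂ) ≠ 0 := by exact_mod_cast hr.out.ne_zero
    have h4 : (x : ℂ) = algebraMap ℚ ℂ (r : ℚ)⁻¹ := by
      rw [map_inv₀, map_natCast]
      field_simp
      rw [mul_comm]; exact h3
    rw [h4] at h2
    have h5 : IsIntegral ℤ ((r : ℚ)⁻¹) :=
      (isIntegral_algebraMap_iff (algebraMap ℚ ℂ).injective).1 h2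
    obtain ⟨z, hz⟩ := IsIntegrallyClosed.isIntegral_iff.1 h5
    have hr0' : (r : ℚ) ≠ 0 := by exact_mod_cast hr.out.ne_zero
    have h6 : (z : ℚ) * (r : ℚ) = 1 := by
      have : (z : ℚ) = (r : ℚ)⁻¹ := by simpa using hz
      rw [this, inv_mul_cancel₀ hr0']
    have h7 : z * (r : ℤ) = 1 := by exact_mod_cast h6
    have h8 : (r : ℤ) ∣ 1 := ⟨z, by rw [← h7]; ring⟩
    have h9 : r ∣ 1 := by exact_mod_cast h8
    exact hr.out.one_lt.ne' (Nat.dvd_one.1 h9)
  obtain ⟨m, hm, hle⟩ := Ideal.exists_le_maximal _ h1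
  have := hm
  let _ : Field (integralClosure ℤ ℂ ⧸ m) := Ideal.Quotient.field m
  refine ⟨integralClosure ℤ ℂ ⧸ m, inferInstance, ?_, ⟨Ideal.Quotient.mk m⟩⟩
  rw [CharP.charP_iff_prime_eq_zero hr.out]
  have h2 : ((r : ℕ) : integralClosure ℤ ℂ) ∈ m :=
    hle (Ideal.subset_span (Set.mem_singleton _))
  have h3 := Ideal.Quotient.eq_zero_iff_mem.2 h2
  rw [map_natCast] at h3
  exact h3

/-- Lift lemma. A finite dimensional representation of a finite group `H` over `F_r`, `r` not
dividing `|H|`, has a complex counterpart with the same dimensions of the fixed spaces of all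
subgroups.

PROOF. Let `n = finrank V`; choose a basis, `ρ(h)` becomes a matrix in `M_n(F_r)`. Choose integer
matrices `c(x) ∈ M_n(ℤ)`, `x ∈ H`, reducing to `|H|⁻¹ ρ(x)`. For a commutative ring `S` let
`W_S` be the `S`-module of functions `f : H → S^n`, `H` acting by right translation
`(h f)(g) = f(g h)`, and `a_S : W_S → W_S`, `(a f)(g) = ∑_h c(g h⁻¹) f(h)`; it commutes with `H`.
For `S = F_r`, `a` is the projection on the image of the `H`-equivariant injection
`V → W`, `v ↦ (g ↦ ρ(g) v)` (check: `a` fixes these functions, and `(a f)(g) = ρ(g) (a f)(1)`).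
For `J ≤ H` the `J`-fixed functions `W_S^J` form a free `S`-module with basis indexed by
`(H/J) × Fin n` (indicator functions of cosets), `a` acts on it by the integer matrix
`A_J((gJ,i),(hJ,j)) = ∑_{x ∈ hJ} c(g x⁻¹)_{ij}`, whose characteristic polynomial `f_J ∈ ℤ[X]` is
monic and reduces over `F_r` to the characteristic polynomial of the projection `a` on
`W_{F_r}^J`, whose image is `V^J` : `f_J = X^s (X-1)^{dim V^J}` over `F_r`.
Let `κ = 𝔸/𝔪`, `𝔪` a maximal ideal of `𝔸 = integralClosure ℤ ℂ` containing `r`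
(`r` is not a unit of `𝔸` since `1/r` is not an algebraic integer); char `κ = r`, `φ : 𝔸 → κ`.
Let `U ⊆ W_ℂ` be the sum of the generalized eigenspaces of `a_ℂ` for the eigenvalues `α` with
`φ α = 1` (all eigenvalues are algebraic integers). `U` is `H`-stable, `ρ'` = restriction. `U^J`
is the sum of the generalized eigenspaces of `a_ℂ` restricted to `W_ℂ^J` for the same `α`, so its
dimension is the number of roots `α` of `f_J` with `φ α = 1`, i.e. by `card_roots_one` the
multiplicity of the root `1` of `f_J` over `κ`, which is `dim V^J`. -/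
theorem lift_rep {H : Type u} [Group H] [Finite H] (r : ℕ) [Fact r.Prime]
    (hr : ¬ r ∣ Nat.card H) {V : Type v} [AddCommGroup V] [Module (ZMod r) V]
    [FiniteDimensional (ZMod r) V] (ρ : Representation (ZMod r) H V) :
    ∃ (U : Type u) (_ : AddCommGroup U) (_ : Module ℂ U) (_ : FiniteDimensional ℂ U)
      (ρ' : Representation ℂ H U), ∀ J : Subgroup H,
      Module.finrank ℂ (fixS ρ' J) = Module.finrank (ZMod r) (fixS ρ J) := by
  classical
  have := Fintype.ofFinite H
  have hN : (Nat.card H : ZMod r) ≠ 0 := by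
    rw [Ne, ZMod.natCast_eq_zero_iff]
    exact hr
  let b := Module.finBasis (ZMod r) V
  let c : H → Matrix (Fin (Module.finrank (ZMod r) V)) (Fin (Module.finrank (ZMod r) V)) ℤ :=
    fun x i j => (((Nat.card H : ZMod r)⁻¹ * LinearMap.toMatrix b b (ρ x) i j).val : ℤ)
  have hc : ∀ x i j, ((c x i j : ℤ) : ZMod r) =
      (Nat.card H : ZMod r)⁻¹ * LinearMap.toMatrix b b (ρ x) i j := by
    intro x i j
    show (((((Nat.card H : ZMod r)⁻¹ * LinearMap.toMatrix b b (ρ x) i j).val : ℕ) : ℤ) : ZMod r)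
      = _
    rw [Int.cast_natCast, ZMod.natCast_zmod_val]
  obtain ⟨κ, hκ, hch, ⟨φ⟩⟩ := exists_kappa r
  let S : Set ℂ := {α | ∃ h : IsIntegral ℤ α, φ ⟨α, h⟩ = 1}
  refine ⟨US (TW c ℂ) S, inferInstance, inferInstance, inferInstance, rU c S, fun J => ?_⟩
  rw [fix_finrank c S J, ← fs_mult c ρ b hN hc J]
  have h1 := card_roots_one (MJ c J).charpoly (Matrix.charpoly_monic _) φ
  have h2 : ((MJ c J).charpoly.map (Int.castRingHom κ)).rootMultiplicity 1 =
      ((MJ c J).charpoly.map (Int.castRingHom (ZMod r))).rootMultiplicity 1 := by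
    rw [Polynomial.eq_rootMultiplicity_map
      (RingHom.injective (ZMod.castHom (dvd_refl r) κ)) (1 : ZMod r), map_one, Polynomial.map_map]
    congr 2
    exact RingHom.ext_int _ _
  rw [← h2, ← h1]
  congr

end FT
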