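import Mathlib
import Pool.Agent.helper11.FT.Defs

/-! # FT-TraceCS: character estimates for complex representations of finite groups -/

namespace FT

universe u v

open scoped commutatorElement

private theorem tcs_matrix {n : Type} [Fintype n] [DecidableEq n] (T : Matrix n n ℂ) :
    ‖T.trace‖ ^ 2 ≤ (Fintype.card n : ℝ) * ((T * T.conjTranspose).trace).re := by
  have h1 : ‖T.trace‖ ≤ ∑ k, ‖T k k‖ := by
    unfold Matrix.trace
    exact norm_sum_le _ _
  have h2 : (∑ k, ‖T k k‖) ^ 2 ≤ (Fintype.card n : ℝ) * ∑ k, ‖T k k‖ ^ 2 := by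
    have := sq_sum_le_card_mul_sum_sq (s := (Finset.univ : Finset n)) (f := fun k => ‖T k k‖)
    simpa using this
  have h3 : ((T * T.conjTranspose).trace).re = ∑ k, ∑ l, ‖T k l‖ ^ 2 := by
    unfold Matrix.trace
    simp only [Matrix.diag_apply, Matrix.mul_apply, Matrix.conjTranspose_apply, Complex.re_sum]
    refine Finset.sum_congr rfl fun k _ => Finset.sum_congr rfl fun l _ => ?_
    rw [Complex.star_def, Complex.mul_conj, Complex.ofReal_re, Complex.normSq_eq_norm_sq]
  have h4 : ∑ k, ‖T k k‖ ^ 2 ≤ ∑ k, ∑ l, ‖T k l‖ ^ 2 := by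
    refine Finset.sum_le_sum fun k _ => ?_
    exact Finset.single_le_sum (f := fun l => ‖T k l‖ ^ 2) (fun l _ => sq_nonneg _)
      (Finset.mem_univ k)
  rw [h3]
  calc ‖T.trace‖ ^ 2 ≤ (∑ k, ‖T k k‖) ^ 2 := pow_le_pow_left₀ (norm_nonneg _) h1 2
    _ ≤ (Fintype.card n : ℝ) * ∑ k, ‖T k k‖ ^ 2 := h2
    _ ≤ _ := mul_le_mul_of_nonneg_left h4 (Nat.cast_nonneg _)

open scoped ComplexOrder MatrixOrder Matrix.Norms.L2Operator in
/-- a finite group of invertible matrices is conjugate to a group of unitary matrices -/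
private theorem tcs_unitary {G : Type u} [Group G] [Finite G] {n : Type} [Fintype n]
    [DecidableEq n] (M : G →* Matrix n n ℂ) :
    ∃ N : G →* Matrix n n ℂ, (∀ g, (N g).trace = (M g).trace) ∧
      ∀ g, (N g).conjTranspose = N g⁻¹ := by
  classical
  have := Fintype.ofFinite G
  set S : Matrix n n ℂ := ∑ g, (M g).conjTranspose * M g with hS
  have hSpos : S.PosDef := by
    have hsemi : (∑ g ∈ Finset.univ.erase (1 : G), (M g).conjTranspose * M g).PosSemidef := by
      refine Matrix.posSemidef_sum _ fun g _ => Matrix.posSemidef_conjTranspose_mul_self _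
    have h1 : S = 1 + ∑ g ∈ Finset.univ.erase (1 : G), (M g).conjTranspose * M g := by
      rw [hS, ← Finset.add_sum_erase Finset.univ _ (Finset.mem_univ (1 : G)), map_one,
        Matrix.conjTranspose_one, one_mul]
    rw [h1]
    exact Matrix.PosDef.one.add_posSemidef hsemi
  have hinv : ∀ h, (M h).conjTranspose * S * M h = S := by
    intro h
    rw [hS, Finset.mul_sum, Finset.sum_mul]
    refine Fintype.sum_equiv (Equiv.mulRight h) _ _ fun g => ?_
    show (M h).conjTranspose * ((M g).conjTranspose * M g) * M h =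
      (M (g * h)).conjTranspose * M (g * h)
    rw [map_mul, Matrix.conjTranspose_mul]
    simp only [mul_assoc]
  obtain ⟨R, hR⟩ : ∃ R : Matrix n n ℂ, S = R.conjTranspose * R :=
    CStarAlgebra.nonneg_iff_eq_star_mul_self.1 hSpos.posSemidef.nonneg
  have hdet : R.det ≠ 0 := by
    intro h
    have h1 := hSpos.det_pos
    rw [hR, Matrix.det_mul, h, mul_zero] at h1
    exact lt_irrefl _ h1
  have hu : IsUnit R.det := isUnit_iff_ne_zero.2 hdet
  have hR1 : R⁻¹ * R = 1 := Matrix.nonsing_inv_mul _ hu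
  have hR2 : R * R⁻¹ = 1 := Matrix.mul_nonsing_inv _ hu
  let N : G →* Matrix n n ℂ :=
    { toFun := fun g => R * M g * R⁻¹
      map_one' := by rw [map_one, mul_one, hR2]
      map_mul' := fun g h => by
        rw [map_mul]
        calc R * (M g * M h) * R⁻¹ = R * M g * 1 * M h * R⁻¹ := by
              simp only [mul_assoc, one_mul]
          _ = _ := by
              rw [← hR1]
              simp only [mul_assoc] }
  have hN : ∀ g, N g = R * M g * R⁻¹ := fun g => rfl
  refine ⟨N, fun g => ?_, fun g => ?_⟩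
  · rw [hN, Matrix.trace_mul_comm, ← mul_assoc, hR1, one_mul]
  · have h1 : (N g).conjTranspose * N g = 1 := by
      have h2 := hinv g
      rw [hR] at h2
      have h3 : R⁻¹.conjTranspose * R.conjTranspose = 1 := by
        rw [← Matrix.conjTranspose_mul, hR2, Matrix.conjTranspose_one]
      calc (N g).conjTranspose * N g
          = R⁻¹.conjTranspose * ((M g).conjTranspose * (R.conjTranspose * R) * M g) * R⁻¹ := by
            rw [hN]
            simp only [Matrix.conjTranspose_mul, mul_assoc]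
        _ = R⁻¹.conjTranspose * R.conjTranspose * (R * R⁻¹) := by
            rw [h2]
            simp only [mul_assoc]
        _ = 1 := by rw [h3, hR2, one_mul]
    have h4 : N g * N g⁻¹ = 1 := by rw [← map_mul, mul_inv_cancel, map_one]
    calc (N g).conjTranspose = (N g).conjTranspose * (N g * N g⁻¹) := by rw [h4, mul_one]
      _ = N g⁻¹ := by rw [← mul_assoc, h1, one_mul]

/-- Cauchy-Schwarz for characters. For a complex representation `ρ` of a finite group, finitely
many group elements `g i`, and `T = ∑ ρ (g i)`: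
`|tr T|² ≤ dim U * re (∑_{i,j} tr ρ (g i * (g j)⁻¹))` (the last sum is `tr (T T*)`).
PROOF. Choose an inner product on `U` invariant under `G` (average any inner product over `G`:
positive definite), so `ρ (g)⁻¹ = ρ(g)*`, `T* = ∑ ρ (g j)⁻¹`. `|tr T|² ≤ dim * tr (T T*)` is
Cauchy-Schwarz for the Hilbert-Schmidt inner product. In matrices: `ρ : G → GL_n(ℂ)`,
`S = ∑_g ρ(g)ᴴ ρ(g)` is positive definite, `S = Rᴴ R` with `R` invertible, and
`g ↦ R ρ(g) R⁻¹` is unitary with the same traces. -/
theorem trace_cs {G : Type u} [Group G] [Finite G] {U : Type v} [AddCommGroup U] [Module ℂ U]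
    [FiniteDimensional ℂ U] (ρ : Representation ℂ G U) {ι : Type} (s : Finset ι) (g : ι → G) :
    ‖∑ i ∈ s, LinearMap.trace ℂ U (ρ (g i))‖ ^ 2 ≤
      (Module.finrank ℂ U : ℝ) *
        (∑ i ∈ s, ∑ j ∈ s, LinearMap.trace ℂ U (ρ (g i * (g j)⁻¹))).re := by
  classical
  set b := Module.finBasis ℂ U with hb
  let M : G →* Matrix (Fin (Module.finrank ℂ U)) (Fin (Module.finrank ℂ U)) ℂ :=
    { toFun := fun g => LinearMap.toMatrix b b (ρ g)
      map_one' := by
        rw [map_one]
        exact LinearMap.toMatrix_one b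
      map_mul' := fun g h => by
        rw [map_mul]
        exact LinearMap.toMatrix_mul b _ _ }
  have hM : ∀ g, LinearMap.trace ℂ U (ρ g) = (M g).trace :=
    fun g => LinearMap.trace_eq_matrix_trace ℂ b (ρ g)
  obtain ⟨N, hN1, hN2⟩ := tcs_unitary M
  have h1 := tcs_matrix (∑ i ∈ s, N (g i))
  have h2 : (∑ i ∈ s, N (g i)).trace = ∑ i ∈ s, LinearMap.trace ℂ U (ρ (g i)) := by
    rw [Matrix.trace_sum]
    exact Finset.sum_congr rfl fun i _ => by rw [hN1, hM]
  have h3 : ((∑ i ∈ s, N (g i)) * (∑ i ∈ s, N (g i)).conjTranspose).trace =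
      ∑ i ∈ s, ∑ j ∈ s, LinearMap.trace ℂ U (ρ (g i * (g j)⁻¹)) := by
    rw [Matrix.conjTranspose_sum, Finset.sum_mul_sum, Matrix.trace_sum]
    refine Finset.sum_congr rfl fun i _ => ?_
    rw [Matrix.trace_sum]
    refine Finset.sum_congr rfl fun j _ => ?_
    rw [hN2, ← map_mul, hN1, hM]
  rw [h2, h3, Fintype.card_fin] at h1
  exact h1

/-- `|tr ρ(g)| ≤ dim U`. PROOF: `trace_cs` for one element, or eigenvalues are roots of unity. -/
theorem norm_trace_le {G : Type u} [Group G] [Finite G] {U : Type v} [AddCommGroup U]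
    [Module ℂ U] [FiniteDimensional ℂ U] (ρ : Representation ℂ G U) (g : G) :
    ‖LinearMap.trace ℂ U (ρ g)‖ ≤ Module.finrank ℂ U := by
  have h := trace_cs ρ (ι := Unit) {()} (fun _ => g)
  simp only [Finset.sum_singleton, mul_inv_cancel, map_one, LinearMap.trace_one,
    Complex.natCast_re] at h
  rw [← sq] at h
  exact (sq_le_sq₀ (norm_nonneg _) (Nat.cast_nonneg _)).1 h

end FT
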