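import Mathlib
import Pool.Agent.helper11.FT.Defs
import Pool.Agent.helper11.FT.TraceCS

/-! # FT-Trace: character estimates for complex representations of finite groups -/

namespace FT

universe u v

open scoped commutatorElement

private theorem trace_conj_rep {G : Type u} [Group G] {U : Type v} [AddCommGroup U]
    [Module ℂ U] (ρ : Representation ℂ G U) (x g : G) :
    LinearMap.trace ℂ U (ρ (x * g * x⁻¹)) = LinearMap.trace ℂ U (ρ g) := by
  rw [map_mul, LinearMap.trace_mul_comm, ← map_mul]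
  congr 2
  group

/-- The L1 lemma: if the character vanishes on `E \ E0` and `g` normalises `E` then
`|χ(g)|² |E| ≤ (dim U)² #{x ∈ E : ⁅x,g⁆ ∈ E0}`.
PROOF. Apply `trace_cs` to the elements `x g x⁻¹`, `x ∈ E`: the left side is `|E|² |χ(g)|²`.
`(x g x⁻¹)(y g y⁻¹)⁻¹ = x g x⁻¹ y g⁻¹ y⁻¹` has the same trace as `⁅y⁻¹ x, g⁆ =
(y⁻¹ x) g (y⁻¹ x)⁻¹ g⁻¹`, so the double sum is `|E| ∑_{z ∈ E} χ(⁅z,g⁆)`, where
`⁅z,g⁆ ∈ E` as `g` normalises `E`; the terms with `⁅z,g⁆ ∉ E0` vanish and the others have real part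
at most `dim U`. -/
theorem l1 {G : Type u} [Group G] [Finite G] {U : Type v} [AddCommGroup U] [Module ℂ U]
    [FiniteDimensional ℂ U] (ρ : Representation ℂ G U) (E E0 : Subgroup G)
    (hz : ∀ u ∈ E, u ∉ E0 → LinearMap.trace ℂ U (ρ u) = 0) (g : G) (hg : g ∈ Nrm E) :
    ‖LinearMap.trace ℂ U (ρ g)‖ ^ 2 * (Nat.card E : ℝ) ≤
      (Module.finrank ℂ U : ℝ) ^ 2 * (Nat.card {x : G // x ∈ E ∧ ⁅x, g⁆ ∈ E0} : ℝ) := by
  classical
  have hnpos : 0 < Nat.card E := Nat.card_pos
  obtain ⟨n, hn⟩ : ∃ n, n = Nat.card E := ⟨_, rfl⟩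
  have e : Fin n ≃ E := by rw [hn]; exact (Finite.equivFin E).symm
  let _ : Fintype E := Fintype.ofFinite E
  have hcs := trace_cs ρ (Finset.univ : Finset (Fin n))
    (fun i => ((e i : E) : G) * g * ((e i : E) : G)⁻¹)
  have h1 : ∀ i : Fin n, LinearMap.trace ℂ U (ρ (((e i : E) : G) * g * ((e i : E) : G)⁻¹)) =
      LinearMap.trace ℂ U (ρ g) := fun i => trace_conj_rep ρ _ _
  have h2 : ∀ i j : Fin n, LinearMap.trace ℂ U (ρ (((e i : E) : G) * g * ((e i : E) : G)⁻¹ *
      (((e j : E) : G) * g * ((e j : E) : G)⁻¹)⁻¹)) =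
      LinearMap.trace ℂ U (ρ ⁅(((e j)⁻¹ * e i : E) : G), g⁆) := by
    intro i j
    rw [← trace_conj_rep ρ (((e j : E) : G)⁻¹)
      (((e i : E) : G) * g * ((e i : E) : G)⁻¹ * (((e j : E) : G) * g * ((e j : E) : G)⁻¹)⁻¹)]
    congr 2
    rw [commutatorElement_def]
    push_cast
    group
  simp only [h1, h2] at hcs
  rw [Finset.sum_const, Finset.card_univ, Fintype.card_fin] at hcs
  have h3 : ∀ j : Fin n, ∑ i : Fin n, LinearMap.trace ℂ U (ρ ⁅(((e j)⁻¹ * e i : E) : G), g⁆) =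
      ∑ z : E, LinearMap.trace ℂ U (ρ ⁅(z : G), g⁆) := by
    intro j
    exact Fintype.sum_equiv (e.trans (Equiv.mulLeft (e j)⁻¹)) _ _ (fun i => rfl)
  rw [Finset.sum_comm] at hcs
  simp only [h3] at hcs
  rw [Finset.sum_const, Finset.card_univ, Fintype.card_fin] at hcs
  have h4 : ∀ z : E, (LinearMap.trace ℂ U (ρ ⁅(z : G), g⁆)).re ≤
      if ⁅(z : G), g⁆ ∈ E0 then (Module.finrank ℂ U : ℝ) else 0 := by
    intro z
    split_ifs with h
    · exact (Complex.re_le_norm _).trans (norm_trace_le ρ _)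
    · rw [hz _ _ h]
      · simp
      · rw [commutatorElement_def, mul_assoc, mul_assoc, ← mul_assoc g]
        exact E.mul_mem z.2 ((Subgroup.mem_normalizer_iff.1 hg _).1 (E.inv_mem z.2))
  have h5 : (∑ z : E, LinearMap.trace ℂ U (ρ ⁅(z : G), g⁆)).re ≤
      (Module.finrank ℂ U : ℝ) * (Nat.card {x : G // x ∈ E ∧ ⁅x, g⁆ ∈ E0} : ℝ) := by
    rw [Complex.re_sum]
    refine (Finset.sum_le_sum (fun z _ => h4 z)).trans ?_
    rw [← Finset.sum_filter, Finset.sum_const, nsmul_eq_mul, mul_comm]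
    refine mul_le_mul_of_nonneg_left ?_ (Nat.cast_nonneg _)
    rw [Nat.cast_le]
    let F : {z : E // ⁅(z : G), g⁆ ∈ E0} → {x : G // x ∈ E ∧ ⁅x, g⁆ ∈ E0} :=
      fun z => ⟨(z.1 : G), z.1.2, z.2⟩
    have hF : Function.Injective F := by
      intro a b hab
      have h0 : (F a).1 = (F b).1 := congrArg Subtype.val hab
      exact Subtype.ext (Subtype.ext h0)
    calc (Finset.univ.filter (fun z : E => ⁅(z : G), g⁆ ∈ E0)).card
        = Nat.card {z : E // ⁅(z : G), g⁆ ∈ E0} := by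
          rw [Nat.card_eq_fintype_card, Fintype.card_subtype]
      _ ≤ _ := Nat.card_le_card_of_injective F hF
  have hnR : (0 : ℝ) < (n : ℝ) := by rw [hn]; exact_mod_cast hnpos
  have h6 : ‖n • LinearMap.trace ℂ U (ρ g)‖ = n * ‖LinearMap.trace ℂ U (ρ g)‖ := by
    rw [nsmul_eq_mul, norm_mul, Complex.norm_natCast]
  have h7 : (n • ∑ z : E, LinearMap.trace ℂ U (ρ ⁅(z : G), g⁆)).re =
      n * (∑ z : E, LinearMap.trace ℂ U (ρ ⁅(z : G), g⁆)).re := by
    rw [nsmul_eq_mul, ← Complex.ofReal_natCast, Complex.re_ofReal_mul]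
  rw [h6, h7] at hcs
  rw [← hn]
  set t := ‖LinearMap.trace ℂ U (ρ g)‖ with ht
  set d := (Module.finrank ℂ U : ℝ) with hd
  set S := (∑ z : E, LinearMap.trace ℂ U (ρ ⁅(z : G), g⁆)).re with hS
  set c := (Nat.card {x : G // x ∈ E ∧ ⁅x, g⁆ ∈ E0} : ℝ) with hc
  have hd0 : 0 ≤ d := Nat.cast_nonneg _
  have h8 : (n : ℝ) * (t ^ 2 * n) ≤ n * (d ^ 2 * c) := by
    calc (n : ℝ) * (t ^ 2 * n) = (n * t) ^ 2 := by ring
      _ ≤ d * (n * S) := hcs
      _ = n * (d * S) := by ring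
      _ ≤ n * (d * (d * c)) := by gcongr
      _ = n * (d ^ 2 * c) := by ring
  exact le_of_mul_le_mul_left h8 hnR

/-- The dimension of the fixed space is the average of the character. (Mathlib has this for the
whole group, e.g. `FDRep.average_char_eq_finrank_invariants`.) -/
theorem finrank_fix {G : Type u} [Group G] [Finite G] {U : Type v} [AddCommGroup U]
    [Module ℂ U] [FiniteDimensional ℂ U] (ρ : Representation ℂ G U) (J : Subgroup G) :
    (Nat.card J : ℂ) * (Module.finrank ℂ (fixS ρ J) : ℂ) =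
      ∑ᶠ j : J, LinearMap.trace ℂ U (ρ (j : G)) := by
  classical
  let _ : Fintype J := Fintype.ofFinite J
  have hne : (Fintype.card J : ℂ) ≠ 0 := Nat.cast_ne_zero.2 Fintype.card_ne_zero
  let _ : Invertible (Fintype.card J : ℂ) := invertibleOfNonzero hne
  have h1 := (Representation.isProj_averageMap (ρ.comp J.subtype)).trace
  have h2 : Representation.invariants (ρ.comp J.subtype) = fixS ρ J := by
    ext v
    rw [Representation.mem_invariants, mem_fixS]
    exact ⟨fun h j hj => h ⟨j, hj⟩, fun h j => h j j.2⟩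
  have h3 : (Module.finrank ℂ (Representation.invariants (ρ.comp J.subtype)) : ℂ) =
      (Module.finrank ℂ (fixS ρ J) : ℂ) := by
    rw [h2]
  rw [← h3, ← h1, finsum_eq_sum_of_fintype, Nat.card_eq_fintype_card]
  simp only [Representation.averageMap, GroupAlgebra.average, map_smul, map_sum, smul_eq_mul]
  rw [← mul_assoc, mul_invOf_self, one_mul]
  refine Finset.sum_congr rfl (fun j _ => ?_)
  congr 1
  rw [MonoidAlgebra.of_apply, Representation.asAlgebraHom_single_one]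
  rfl

/-- `N` normalised by `b`: the trace of `b` on the fixed space of `N` is the average of the traces
of the `n b`. PROOF: `e = |N|⁻¹ ∑ ρ n` is the projection on `fixS ρ N` and `tr (e ∘ ρ b)` is the
trace of `ρ b` restricted to `fixS ρ N`. Here we only need the resulting statement for
dimensions: the fixed space of a subgroup `B` in `fixS ρ N` is `fixS ρ (N ⊔ B)`, and for `B`
normalising `N` with `N ⊓ B = ⊥`:
`|N| |B| dim fixS (N ⊔ B) = ∑_{n ∈ N, b ∈ B} χ(n b)` (a special case of `finrank_fix`, as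
`(n, b) ↦ n b` is a bijection from `N × B` to `N ⊔ B`). -/
theorem finrank_fix_sup {G : Type u} [Group G] [Finite G] {U : Type v} [AddCommGroup U]
    [Module ℂ U] [FiniteDimensional ℂ U] (ρ : Representation ℂ G U) (N B : Subgroup G)
    (hB : B ≤ Nrm N) (hNB : N ⊓ B = ⊥) :
    (Nat.card N : ℂ) * (Nat.card B : ℂ) * (Module.finrank ℂ (fixS ρ (N ⊔ B)) : ℂ) =
      ∑ᶠ b : B, ∑ᶠ n : N, LinearMap.trace ℂ U (ρ ((n : G) * (b : G))) := by
  classical
  let _ : Fintype B := Fintype.ofFinite B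
  let _ : Fintype N := Fintype.ofFinite N
  let _ : Fintype (N ⊔ B : Subgroup G) := Fintype.ofFinite _
  let F : B × N → (N ⊔ B : Subgroup G) := fun x => ⟨(x.2 : G) * (x.1 : G),
    (N ⊔ B).mul_mem ((le_sup_left : N ≤ N ⊔ B) x.2.2) ((le_sup_right : B ≤ N ⊔ B) x.1.2)⟩
  have hF : Function.Bijective F := by
    constructor
    · rintro ⟨b, n⟩ ⟨b', n'⟩ h
      have h0 : (n : G) * (b : G) = (n' : G) * (b' : G) := congrArg Subtype.val h
      have h1 : (n' : G)⁻¹ * (n : G) = (b' : G) * (b : G)⁻¹ := by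
        rw [inv_mul_eq_iff_eq_mul, ← mul_assoc, ← h0]
        group
      have h2 : (n' : G)⁻¹ * (n : G) ∈ N ⊓ B :=
        ⟨N.mul_mem (N.inv_mem n'.2) n.2, by rw [h1]; exact B.mul_mem b'.2 (B.inv_mem b.2)⟩
      rw [hNB, Subgroup.mem_bot] at h2
      have h3 : (n : G) = n' := (inv_mul_eq_one.1 h2).symm
      have h4 : (b : G) = b' := by
        rw [h3] at h0
        exact mul_left_cancel h0
      exact Prod.ext (Subtype.ext h4) (Subtype.ext h3)
    · rintro ⟨x, hx⟩
      have hx' : x ∈ ((N ⊔ B : Subgroup G) : Set G) := hx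
      rw [Subgroup.coe_mul_of_right_le_normalizer_left N B hB] at hx'
      obtain ⟨n, hn, b, hb, rfl⟩ := Set.mem_mul.1 hx'
      exact ⟨(⟨b, hb⟩, ⟨n, hn⟩), rfl⟩
  have h1 := finrank_fix ρ (N ⊔ B)
  have hcard : Nat.card (N ⊔ B : Subgroup G) = Nat.card N * Nat.card B := by
    rw [← Nat.card_congr (Equiv.ofBijective F hF), Nat.card_prod, mul_comm]
  rw [hcard, Nat.cast_mul] at h1
  rw [h1, finsum_eq_sum_of_fintype, finsum_eq_sum_of_fintype]
  simp only [finsum_eq_sum_of_fintype]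
  rw [← Fintype.sum_prod_type' (f := fun (b : B) (n : N) =>
    LinearMap.trace ℂ U (ρ ((n : G) * (b : G))))]
  exact (Fintype.sum_equiv (Equiv.ofBijective F hF) _ _ (fun x => rfl)).symm

end FT
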