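import Mathlib
import Pool.Agent.helper11.FT.Defs
import Pool.Agent.helper11.FT.SZ
import Pool.Agent.helper11.FT.Lift
import Pool.Agent.helper11.FT.Trace
import Pool.Agent.helper11.FT.Cnt
import Pool.Agent.helper11.FT.KC0
import Pool.Agent.helper11.FT.KC1

/-! # FT-KC: the key claim for extraspecial-like modules -/

namespace FT

universe u v

open scoped commutatorElement

private theorem cenN_pos {G : Type u} [Group G] [Finite G] (E E0 : Subgroup G) (g : G) :
    0 < cenN E E0 g := by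
  unfold cenN
  have : Nonempty {x : G // x ∈ E ∧ ⁅x, g⁆ ∈ E0} :=
    ⟨⟨1, E.one_mem, by rw [commutatorElement_one_left]; exact E0.one_mem⟩⟩
  exact Nat.card_pos

private theorem fixS_eq_top {G : Type u} [Group G] {k : Type*} [Field k] {V : Type*}
    [AddCommGroup V] [Module k V] (ρ : Representation k G V) (J : Subgroup G) :
    fixS ρ J = ⊤ ↔ ∀ x ∈ J, ρ x = 1 := by
  constructor
  · intro h x hx
    ext v
    have : v ∈ fixS ρ J := by rw [h]; trivial
    exact this x hx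
  · intro h
    rw [eq_top_iff]
    intro v _ x hx
    rw [h x hx]
    rfl

private theorem finrank_lift {G : Type u} [Group G] {k : Type*} [Field k] {V : Type*}
    [AddCommGroup V] [Module k V] (ρ : Representation k G V)
    {U : Type*} [AddCommGroup U] [Module ℂ U] (ρ' : Representation ℂ G U)
    (h : ∀ J : Subgroup G, Module.finrank ℂ (fixS ρ' J) = Module.finrank k (fixS ρ J)) :
    Module.finrank ℂ U = Module.finrank k V := by
  have h1 := h ⊥
  have e1 : fixS ρ' (⊥ : Subgroup G) = ⊤ := (fixS_eq_top ρ' ⊥).mpr (by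
    intro x hx
    rw [Subgroup.mem_bot] at hx
    rw [hx, map_one])
  have e2 : fixS ρ (⊥ : Subgroup G) = ⊤ := (fixS_eq_top ρ ⊥).mpr (by
    intro x hx
    rw [Subgroup.mem_bot] at hx
    rw [hx, map_one])
  rwa [e1, e2, finrank_top, finrank_top] at h1

private theorem triv_lift {G : Type u} [Group G] {k : Type*} [Field k] {V : Type*}
    [AddCommGroup V] [Module k V] (ρ : Representation k G V)
    {U : Type*} [AddCommGroup U] [Module ℂ U] [FiniteDimensional ℂ U] (ρ' : Representation ℂ G U)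
    (h : ∀ J : Subgroup G, Module.finrank ℂ (fixS ρ' J) = Module.finrank k (fixS ρ J))
    (K : Subgroup G) (hK : ∀ x ∈ K, ρ x = 1) : ∀ x ∈ K, ρ' x = 1 := by
  rw [← fixS_eq_top]
  refine Submodule.eq_top_of_finrank_eq ?_
  rw [h K, (fixS_eq_top ρ K).mpr hK, finrank_top, finrank_lift ρ ρ' h]

/-- the elements of `K` centralise `E/E0` -/
private theorem cenN_triv {G : Type u} [Group G] [Finite G] {k : Type*} [Field k] {V : Type*}
    [AddCommGroup V] [Module k V] [Nontrivial V] (ρ : Representation k G V)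
    (E E0 : Subgroup G) (hnd : NonDeg ρ E E0) {b : G} (hb : b ∈ Nrm E) (hρ : ρ b = 1) :
    cenN E E0 b = Nat.card E := by
  unfold cenN
  refine Nat.card_congr (Equiv.subtypeEquivRight fun x => ⟨fun h => h.1, fun hx => ⟨hx, ?_⟩⟩)
  by_contra hu
  have hbi : ρ b⁻¹ = 1 := by
    have h1 : ρ b * ρ b⁻¹ = 1 := by rw [← map_mul, mul_inv_cancel, map_one]
    rwa [hρ, one_mul] at h1
  have hinv : ∀ g : G, ρ g * ρ g⁻¹ = 1 := fun g => by rw [← map_mul, mul_inv_cancel, map_one]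
  have hinv' : ∀ g : G, ρ g⁻¹ * ρ g = 1 := fun g => by rw [← map_mul, inv_mul_cancel, map_one]
  have hE : ⁅x, b⁆ ∈ E := by
    rw [commutatorElement_def, mul_assoc, mul_assoc]
    refine E.mul_mem hx ?_
    have h1 := (Subgroup.mem_normalizer_iff.mp hb x⁻¹).mp (E.inv_mem hx)
    rw [mul_assoc] at h1
    exact h1
  have h1 : ρ ⁅x, b⁆ = 1 := by
    rw [commutatorElement_def, map_mul, map_mul, map_mul, hρ, hbi, mul_one, mul_one, hinv]
  obtain ⟨y, _, z, h2, _, h3⟩ := hnd _ hE hu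
  have h4 : ρ z = 1 := by
    have h5 := congrArg ρ h2
    rw [map_mul, map_mul, map_mul, h1, mul_one, one_mul, hinv] at h5
    exact h5.symm
  obtain ⟨v, hv⟩ := exists_ne (0 : V)
  exact hv (h3 v (by rw [h4]; rfl))

/-- the bound for one character value -/
private theorem chi_le {G : Type u} [Group G] [Finite G] {U : Type v} [AddCommGroup U]
    [Module ℂ U] [FiniteDimensional ℂ U] (ρ : Representation ℂ G U) (E E0 : Subgroup G)
    (hnd : NonDeg ρ E E0) {g b : G} (hg : g ∈ Nrm E) (hle : cenN E E0 g ≤ cenN E E0 b) :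
    ‖LinearMap.trace ℂ U (ρ g)‖ ≤ (Module.finrank ℂ U : ℝ) *
      (Real.sqrt ((Nat.card E : ℝ) / (cenN E E0 b : ℝ)))⁻¹ := by
  have h1 := l1 ρ E E0 (trace_eq_zero_of_nonDeg ρ E E0 hnd) g hg
  have hE : (0 : ℝ) < (Nat.card E : ℝ) := by exact_mod_cast Nat.card_pos
  have hb : (0 : ℝ) < (cenN E E0 b : ℝ) := by exact_mod_cast cenN_pos E E0 b
  have hle' : (cenN E E0 g : ℝ) ≤ (cenN E E0 b : ℝ) := by exact_mod_cast hle
  rw [← Real.sqrt_inv, inv_div]
  have h2 : ‖LinearMap.trace ℂ U (ρ g)‖ ^ 2 ≤ (Module.finrank ℂ U : ℝ) ^ 2 *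
      ((cenN E E0 b : ℝ) / (Nat.card E : ℝ)) := by
    rw [mul_div_assoc', le_div_iff₀ hE]
    refine h1.trans ?_
    have : (Nat.card {x : G // x ∈ E ∧ ⁅x, g⁆ ∈ E0} : ℝ) = (cenN E E0 g : ℝ) := rfl
    rw [this]
    exact mul_le_mul_of_nonneg_left hle' (sq_nonneg _)
  have h3 := Real.sqrt_le_sqrt h2
  rw [Real.sqrt_sq (norm_nonneg _), Real.sqrt_mul (sq_nonneg _),
    Real.sqrt_sq (Nat.cast_nonneg _)] at h3
  exact h3

open Classical in
private theorem key_sum {G : Type u} [Group G] [Finite G] (E E0 B K : Subgroup G) [Fintype B]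
    (hKB : K ≤ B) (hKE : ∀ b ∈ K, cenN E E0 b = Nat.card E)
    (hbig : ∀ b ∈ B, b ∉ K → 2 ^ 16 * cenN E E0 b ≤ Nat.card E)
    (hcount : ∀ t : ℝ, 1 ≤ t →
      (Nat.card {b : G // b ∈ B ∧ (Nat.card E : ℝ) ≤ t * cenN E E0 b} : ℝ) ^ 16 ≤
        t * (Nat.card K : ℝ) ^ 16) :
    ∑ b ∈ (Finset.univ : Finset B).filter (fun b : B => (b : G) ∉ K),
      (Real.sqrt ((Nat.card E : ℝ) / (cenN E E0 (b : G) : ℝ)))⁻¹ ≤ (Nat.card K : ℝ) / 16 := by
  have hE : (0 : ℝ) < (Nat.card E : ℝ) := by exact_mod_cast Nat.card_pos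
  have hc : ∀ b, (0 : ℝ) < (cenN E E0 b : ℝ) := fun b => by exact_mod_cast cenN_pos E E0 b
  have hK1 : (1 : ℝ) ≤ (Nat.card K : ℝ) := by exact_mod_cast Nat.card_pos
  have hb1 : ∀ s ∈ (Finset.univ : Finset B).filter (fun b : B => (b : G) ∉ K),
      (2 : ℝ) ^ 16 ≤ (Nat.card E : ℝ) / (cenN E E0 (s : G) : ℝ) := by
    intro s hs
    rw [Finset.mem_filter] at hs
    rw [le_div_iff₀ (hc _)]
    exact_mod_cast hbig s s.2 hs.2
  refine cnt _ (fun b : B => (Nat.card E : ℝ) / (cenN E E0 (b : G) : ℝ)) (Nat.card K : ℝ) hK1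
    hb1 ?_
  intro s hs
  have h2 := hb1 s hs
  have h1t : (1 : ℝ) ≤ (Nat.card E : ℝ) / (cenN E E0 (s : G) : ℝ) := by
    refine le_trans ?_ h2
    norm_num
  refine le_trans ?_ (hcount _ h1t)
  refine pow_le_pow_left₀ (by positivity) ?_ 16
  -- cardinalities
  set A := ((Finset.univ : Finset B).filter (fun b : B => (b : G) ∉ K)).filter
    (fun s' : B => (Nat.card E : ℝ) / (cenN E E0 (s' : G) : ℝ) ≤
      (Nat.card E : ℝ) / (cenN E E0 (s : G) : ℝ)) with hA
  set P := (Finset.univ : Finset B).filter (fun b : B => (b : G) ∈ K) with hP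
  have hPc : P.card = Nat.card K := by
    have := Fintype.ofFinite K
    rw [Nat.card_eq_fintype_card]
    refine Finset.card_bij' (t := (Finset.univ : Finset K)) (fun b hb => ⟨(b : G), (Finset.mem_filter.mp hb).2⟩)
      (fun k _ => ⟨(k : G), hKB k.2⟩) ?_ ?_ ?_ ?_
    · intro b hb; exact Finset.mem_univ _
    · intro k _; exact Finset.mem_filter.mpr ⟨Finset.mem_univ _, k.2⟩
    · intro b hb; rfl
    · intro k _; rfl
  have hdis : Disjoint A P := by
    rw [Finset.disjoint_left]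
    intro b hb hb'
    exact (Finset.mem_filter.mp (Finset.mem_filter.mp hb).1).2 (Finset.mem_filter.mp hb').2
  have hle : (A ∪ P).card ≤ Nat.card {b : G // b ∈ B ∧ (Nat.card E : ℝ) ≤
      (Nat.card E : ℝ) / (cenN E E0 (s : G) : ℝ) * cenN E E0 b} := by
    have := Fintype.ofFinite G
    rw [Nat.card_eq_fintype_card, Fintype.card_subtype,
      ← Finset.card_image_of_injective (A ∪ P) (f := fun b : B => (b : G)) Subtype.val_injective]
    refine Finset.card_le_card ?_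
    intro g hg
    obtain ⟨b, hb, rfl⟩ := Finset.mem_image.mp hg
    rw [Finset.mem_filter]
    refine ⟨Finset.mem_univ _, b.2, ?_⟩
    rcases Finset.mem_union.mp hb with hb | hb
    · rw [hA, Finset.mem_filter] at hb
      rw [← div_le_iff₀ (hc _)]
      exact hb.2
    · rw [hP, Finset.mem_filter] at hb
      rw [hKE _ hb.2]
      exact le_mul_of_one_le_left hE.le h1t
  rw [Finset.card_union_of_disjoint hdis, hPc] at hle
  exact_mod_cast hle

open Classical in
private theorem card_P {G : Type u} [Group G] (B K : Subgroup G) [Fintype B]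
    [Finite G] (hKB : K ≤ B) :
    ((Finset.univ : Finset B).filter (fun b : B => (b : G) ∈ K)).card = Nat.card K := by
  have := Fintype.ofFinite K
  rw [Nat.card_eq_fintype_card]
  refine Finset.card_bij' (t := (Finset.univ : Finset K))
    (fun b hb => ⟨(b : G), (Finset.mem_filter.mp hb).2⟩)
    (fun k _ => ⟨(k : G), hKB k.2⟩) ?_ ?_ ?_ ?_
  · intro b hb; exact Finset.mem_univ _
  · intro k _; exact Finset.mem_filter.mpr ⟨Finset.mem_univ _, k.2⟩
  · intro b hb; rfl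
  · intro k _; rfl

/-- Key claim, part (alpha).
`E0 ≤ E` normalised by `B`, `K ≤ B` acts trivially on `V`; all elements of `B` outside `K` move
much of `E/E0`: `2^16 cenN b ≤ |E|`, and for each `t` at most `t^{1/16} |K|` elements `b` of `B` have
`|E| ≤ t cenN b`. Then `B` has a nonzero fixed vector.

PROOF. Complex lift `ρ'` (`lift_rep`), with `dim U = dim V ≠ 0`, `K` acts trivially on `U`
(`fixS ρ' K` has full dimension), `NonDeg ρ' E E0`. `|B| dim fixS ρ' B = ∑_{b ∈ B} χ(b)`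
(`finrank_fix`), `= |K| dim U + ∑_{b ∈ B \ K} χ(b)`, and `|χ(b)| ≤ dim U / √(ν b)`,
`ν b = |E| / cenN b` (lemma `l1`), so by `cnt` (with `S = B \ K`, `κ = |K|`; for `b ∈ B \ K` the
elements counted in the hypothesis of `cnt` together with `K` are all in
`{b' ∈ B : |E| ≤ ν b cenN b'}`, because `cenN b' = |E|` for `b' ∈ K`: if `u = ⁅x,b'⁆ ∉ E0` then
`ρ u = 1`, and `y u y⁻¹ = u z` gives `ρ z = 1`, contradicting that `z` has no fixed vector)
the sum over `B \ K` has norm `≤ dim U |K| / 16 < |K| dim U`. -/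
theorem kc_alpha {G : Type u} [Group G] [Finite G] (q : ℕ) [Fact q.Prime]
    (hq : ¬ q ∣ Nat.card G) {V : Type v} [AddCommGroup V] [Module (ZMod q) V]
    [FiniteDimensional (ZMod q) V] [Nontrivial V] (ρ : Representation (ZMod q) G V)
    (E E0 B K : Subgroup G) (hE0 : E0 ≤ E) (hBE : B ≤ Nrm E) (hBE0 : B ≤ Nrm E0)
    (hEE0 : E ≤ Nrm E0) (hKB : K ≤ B)
    (hK : ∀ x ∈ K, ρ x = 1) (hnd : NonDeg ρ E E0)
    (hbig : ∀ b ∈ B, b ∉ K → 2 ^ 16 * cenN E E0 b ≤ Nat.card E)
    (hcount : ∀ t : ℝ, 1 ≤ t →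
      (Nat.card {b : G // b ∈ B ∧ (Nat.card E : ℝ) ≤ t * cenN E E0 b} : ℝ) ^ 16 ≤
        t * (Nat.card K : ℝ) ^ 16) :
    fixS ρ B ≠ ⊥ := by
  classical
  intro hbot
  obtain ⟨U, _, _, _, ρ', h⟩ := lift_rep q hq ρ
  have hnd' := nonDeg_lift ρ ρ' h E E0 hnd
  have hdim : Module.finrank ℂ U = Module.finrank (ZMod q) V := finrank_lift ρ ρ' h
  have hpos : 0 < Module.finrank ℂ U := by rw [hdim]; exact Module.finrank_pos
  have hpos' : (0 : ℝ) < (Module.finrank ℂ U : ℝ) := by exact_mod_cast hpos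
  have hK' := triv_lift ρ ρ' h K hK
  have := Fintype.ofFinite B
  have hsum := finrank_fix ρ' B
  rw [h B, hbot, finrank_bot, Nat.cast_zero, mul_zero, finsum_eq_sum_of_fintype,
    ← Finset.sum_filter_add_sum_filter_not Finset.univ (fun b : B => (b : G) ∈ K)] at hsum
  have hS := key_sum E E0 B K hKB
    (fun b hb => cenN_triv ρ E E0 hnd (hBE (hKB hb)) (hK b hb)) hbig hcount
  have hP : ∑ b ∈ (Finset.univ : Finset B).filter (fun b : B => (b : G) ∈ K),
      LinearMap.trace ℂ U (ρ' (b : G)) = (Nat.card K : ℂ) * (Module.finrank ℂ U : ℂ) := by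
    rw [Finset.sum_congr rfl (g := fun _ => (Module.finrank ℂ U : ℂ)), Finset.sum_const,
      card_P B K hKB, nsmul_eq_mul]
    intro b hb
    rw [hK' _ (Finset.mem_filter.mp hb).2, LinearMap.trace_one]
  rw [hP] at hsum
  have hKpos : (1 : ℝ) ≤ (Nat.card K : ℝ) := by exact_mod_cast Nat.card_pos
  have hn : (Nat.card K : ℝ) * (Module.finrank ℂ U : ℝ) ≤
      (Module.finrank ℂ U : ℝ) * ((Nat.card K : ℝ) / 16) := by
    have e1 : (Nat.card K : ℂ) * (Module.finrank ℂ U : ℂ) =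
        - ∑ b ∈ (Finset.univ : Finset B).filter (fun b : B => (b : G) ∉ K),
          LinearMap.trace ℂ U (ρ' (b : G)) := by
      linear_combination -hsum
    have e2 : ‖(Nat.card K : ℂ) * (Module.finrank ℂ U : ℂ)‖ =
        (Nat.card K : ℝ) * (Module.finrank ℂ U : ℝ) := by
      rw [norm_mul, Complex.norm_natCast, Complex.norm_natCast]
    rw [← e2, e1, norm_neg]
    refine (norm_sum_le _ _).trans ?_
    refine (Finset.sum_le_sum fun b _ => chi_le ρ' E E0 hnd' (hBE b.2) le_rfl).trans ?_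
    rw [← Finset.mul_sum]
    exact mul_le_mul_of_nonneg_left hS hpos'.le
  nlinarith

/-- Key claim, part (beta): if moreover the `p`-group `N` (`p` prime to `|B|`, normalised by `B`)
acts nontrivially on `E/E0`, then `N` does not centralise all vectors fixed by `B`.

PROOF. As in (alpha), with the complex lift `ρ'`. Suppose `fixS ρ B ≤ fixS ρ N`; then
`fixS ρ (N ⊔ B) = fixS ρ B`, so the dimensions over `ℂ` agree too. By `finrank_fix_sup`
`|N||B| dim fixS ρ' (N ⊔ B) = ∑_b ∑_n χ(n b)` and `|B| dim fixS ρ' B = ∑_b χ(b)`; so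
`0 = ∑_b (χ(b) - |N|⁻¹ ∑_n χ(n b))`. The terms `b ∈ K` (which act trivially on `U`) contribute
`|K| (dim U - |N|⁻¹ ∑_n χ(n)) = |K| (dim U - dim fixS ρ' N) ≥ |K| dim U / 4`
(`finrank_fix_le`), the other terms have norm at most `2 dim U /√(ν b)` by `l1` and
`cenN_mul_le`, in total at most `2 dim U |K|/16`: contradiction. -/
theorem kc_beta {G : Type u} [Group G] [Finite G] (q : ℕ) [Fact q.Prime]
    (hq : ¬ q ∣ Nat.card G) {V : Type v} [AddCommGroup V] [Module (ZMod q) V]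
    [FiniteDimensional (ZMod q) V] [Nontrivial V] (ρ : Representation (ZMod q) G V)
    (p : ℕ) [Fact p.Prime]
    (E E0 N B K : Subgroup G) (hE0 : E0 ≤ E) (hBE : B ≤ Nrm E) (hBE0 : B ≤ Nrm E0)
    (hEE0 : E ≤ Nrm E0) (hKB : K ≤ B)
    (hNp : IsPGroup p N) (hBN : B ≤ Nrm N) (hpB : p.Coprime (Nat.card B))
    (hNE : N ≤ Nrm E) (hNE0 : N ≤ Nrm E0)
    (hK : ∀ x ∈ K, ρ x = 1) (hnd : NonDeg ρ E E0)
    (hN : ∃ n ∈ N, ∃ x ∈ E, ⁅x, n⁆ ∉ E0)
    (hbig : ∀ b ∈ B, b ∉ K → 2 ^ 16 * cenN E E0 b ≤ Nat.card E)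
    (hcount : ∀ t : ℝ, 1 ≤ t →
      (Nat.card {b : G // b ∈ B ∧ (Nat.card E : ℝ) ≤ t * cenN E E0 b} : ℝ) ^ 16 ≤
        t * (Nat.card K : ℝ) ^ 16) :
    ¬ fixS ρ B ≤ fixS ρ N := by
  classical
  intro hle
  obtain ⟨U, _, _, _, ρ', h⟩ := lift_rep q hq ρ
  have hnd' := nonDeg_lift ρ ρ' h E E0 hnd
  have hdim : Module.finrank ℂ U = Module.finrank (ZMod q) V := finrank_lift ρ ρ' h
  have hpos : 0 < Module.finrank ℂ U := by rw [hdim]; exact Module.finrank_pos
  have hpos' : (0 : ℝ) < (Module.finrank ℂ U : ℝ) := by exact_mod_cast hpos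
  have hK' := triv_lift ρ ρ' h K hK
  have := Fintype.ofFinite B
  have := Fintype.ofFinite N
  have hNB : N ⊓ B = ⊥ := by
    refine (Subgroup.disjoint_of_coprime_natCard ?_).eq_bot
    obtain ⟨m, hm⟩ := IsPGroup.iff_card.mp hNp
    rw [hm]
    exact Nat.Coprime.pow_left m hpB
  -- the fixed spaces
  have hfix : fixS ρ (N ⊔ B) = fixS ρ B := by
    refine le_antisymm (fun v hv b hb => hv b (Subgroup.mem_sup_right hb)) ?_
    intro v hv
    have hN' := hle hv
    have hst : N ⊔ B ≤ cenSub ρ ⊤ (Submodule.span (ZMod q) {v}) := by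
      refine sup_le (fun n hn => ⟨trivial, fun x hx => ?_⟩) (fun b hb => ⟨trivial, fun x hx => ?_⟩)
      · obtain ⟨c, rfl⟩ := Submodule.mem_span_singleton.mp hx
        rw [map_smul, hN' n hn]
      · obtain ⟨c, rfl⟩ := Submodule.mem_span_singleton.mp hx
        rw [map_smul, hv b hb]
    intro g hg
    exact (hst hg).2 v (Submodule.mem_span_singleton_self v)
  have hsum1 := finrank_fix ρ' B
  have hsum2 := finrank_fix_sup ρ' N B hBN hNB
  have hsumN := finrank_fix ρ' N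
  rw [h (N ⊔ B), hfix, ← h B] at hsum2
  rw [finsum_eq_sum_of_fintype] at hsum1 hsumN
  rw [finsum_eq_sum_of_fintype] at hsum2
  simp only [finsum_eq_sum_of_fintype] at hsum2
  have hzero : ∑ b : B, ((Nat.card N : ℂ) * LinearMap.trace ℂ U (ρ' (b : G)) -
      ∑ n : N, LinearMap.trace ℂ U (ρ' ((n : G) * (b : G)))) = 0 := by
    rw [Finset.sum_sub_distrib, ← Finset.mul_sum, ← hsum1, ← hsum2]
    ring
  rw [← Finset.sum_filter_add_sum_filter_not Finset.univ (fun b : B => (b : G) ∈ K)] at hzero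
  have hS := key_sum E E0 B K hKB
    (fun b hb => cenN_triv ρ E E0 hnd (hBE (hKB hb)) (hK b hb)) hbig hcount
  have hP : ∑ b ∈ (Finset.univ : Finset B).filter (fun b : B => (b : G) ∈ K),
      ((Nat.card N : ℂ) * LinearMap.trace ℂ U (ρ' (b : G)) -
        ∑ n : N, LinearMap.trace ℂ U (ρ' ((n : G) * (b : G)))) =
      (Nat.card K : ℂ) * ((Nat.card N : ℂ) * ((Module.finrank ℂ U : ℂ) -
        (Module.finrank ℂ (fixS ρ' N) : ℂ))) := by
    rw [Finset.sum_congr rfl (g := fun _ => (Nat.card N : ℂ) * ((Module.finrank ℂ U : ℂ) -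
      (Module.finrank ℂ (fixS ρ' N) : ℂ))), Finset.sum_const, card_P B K hKB, nsmul_eq_mul]
    intro b hb
    have h1 := hK' _ (Finset.mem_filter.mp hb).2
    rw [mul_sub, hsumN, h1, LinearMap.trace_one]
    congr 1
    refine Finset.sum_congr rfl fun n _ => ?_
    rw [map_mul, h1, mul_one]
  rw [hP] at hzero
  have hKpos : (1 : ℝ) ≤ (Nat.card K : ℝ) := by exact_mod_cast Nat.card_pos
  have hNpos : (1 : ℝ) ≤ (Nat.card N : ℝ) := by exact_mod_cast Nat.card_pos
  have hfN : 4 * (Module.finrank ℂ (fixS ρ' N) : ℝ) ≤ 3 * (Module.finrank ℂ U : ℝ) := by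
    exact_mod_cast finrank_fix_le ρ' E E0 N hNE hnd' hN
  have hn : (Nat.card K : ℝ) * ((Nat.card N : ℝ) * ((Module.finrank ℂ U : ℝ) -
      (Module.finrank ℂ (fixS ρ' N) : ℝ))) ≤
      (2 * (Nat.card N : ℝ) * (Module.finrank ℂ U : ℝ)) * ((Nat.card K : ℝ) / 16) := by
    have e1 : (Nat.card K : ℂ) * ((Nat.card N : ℂ) * ((Module.finrank ℂ U : ℂ) -
        (Module.finrank ℂ (fixS ρ' N) : ℂ))) =
        - ∑ b ∈ (Finset.univ : Finset B).filter (fun b : B => (b : G) ∉ K),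
          ((Nat.card N : ℂ) * LinearMap.trace ℂ U (ρ' (b : G)) -
            ∑ n : N, LinearMap.trace ℂ U (ρ' ((n : G) * (b : G)))) := by
      linear_combination hzero
    have e2 : ‖(Nat.card K : ℂ) * ((Nat.card N : ℂ) * ((Module.finrank ℂ U : ℂ) -
        (Module.finrank ℂ (fixS ρ' N) : ℂ)))‖ =
        (Nat.card K : ℝ) * ((Nat.card N : ℝ) * ((Module.finrank ℂ U : ℝ) -
        (Module.finrank ℂ (fixS ρ' N) : ℝ))) := by
      have h5 : (Nat.card K : ℂ) * ((Nat.card N : ℂ) * ((Module.finrank ℂ U : ℂ) -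
        (Module.finrank ℂ (fixS ρ' N) : ℂ))) = (((Nat.card K : ℝ) * ((Nat.card N : ℝ) *
        ((Module.finrank ℂ U : ℝ) - (Module.finrank ℂ (fixS ρ' N) : ℝ))) : ℝ) : ℂ) := by
        push_cast
        ring
      rw [h5, Complex.norm_real, Real.norm_eq_abs, abs_of_nonneg]
      have h6 : 0 ≤ (Module.finrank ℂ U : ℝ) - (Module.finrank ℂ (fixS ρ' N) : ℝ) := by
        linarith
      positivity
    rw [← e2, e1, norm_neg]
    refine (norm_sum_le _ _).trans ?_
    refine (Finset.sum_le_sum (g := fun b : B => (2 * (Nat.card N : ℝ) *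
      (Module.finrank ℂ U : ℝ)) *
      (Real.sqrt ((Nat.card E : ℝ) / (cenN E E0 (b : G) : ℝ)))⁻¹) fun b _ => ?_).trans ?_
    · have hχ := chi_le ρ' E E0 hnd' (g := (b : G)) (b := (b : G)) (hBE b.2) le_rfl
      refine (norm_sub_le _ _).trans ?_
      have t1 : ‖(Nat.card N : ℂ) * LinearMap.trace ℂ U (ρ' (b : G))‖ ≤ (Nat.card N : ℝ) *
          ((Module.finrank ℂ U : ℝ) *
            (Real.sqrt ((Nat.card E : ℝ) / (cenN E E0 (b : G) : ℝ)))⁻¹) := by
        rw [norm_mul, Complex.norm_natCast]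
        exact mul_le_mul_of_nonneg_left hχ (by positivity)
      have t2 : ‖∑ n : N, LinearMap.trace ℂ U (ρ' ((n : G) * (b : G)))‖ ≤ (Nat.card N : ℝ) *
          ((Module.finrank ℂ U : ℝ) *
            (Real.sqrt ((Nat.card E : ℝ) / (cenN E E0 (b : G) : ℝ)))⁻¹) := by
        refine (norm_sum_le _ _).trans ?_
        refine (Finset.sum_le_sum (g := fun _ : N => (Module.finrank ℂ U : ℝ) *
          (Real.sqrt ((Nat.card E : ℝ) / (cenN E E0 (b : G) : ℝ)))⁻¹) fun n _ => ?_).trans ?_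
        · exact chi_le ρ' E E0 hnd' ((Nrm E).mul_mem (hNE n.2) (hBE b.2))
            (cenN_mul_le p E E0 N B hNp hBN hpB hNE hNE0 hBE hBE0 hEE0 n b n.2 b.2)
        · rw [Finset.sum_const, nsmul_eq_mul, Finset.card_univ, Nat.card_eq_fintype_card (α := N)]
      linarith
    · rw [← Finset.mul_sum]
      exact mul_le_mul_of_nonneg_left hS (by positivity)
  have h7 : (Module.finrank ℂ U : ℝ) / 4 ≤ (Module.finrank ℂ U : ℝ) -
      (Module.finrank ℂ (fixS ρ' N) : ℝ) := by linarith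
  have h8 : (Nat.card K : ℝ) * ((Nat.card N : ℝ) * ((Module.finrank ℂ U : ℝ) / 4)) ≤
      (Nat.card K : ℝ) * ((Nat.card N : ℝ) * ((Module.finrank ℂ U : ℝ) -
      (Module.finrank ℂ (fixS ρ' N) : ℝ))) := by gcongr
  have h9 : (0 : ℝ) < (Nat.card K : ℝ) * ((Nat.card N : ℝ) * (Module.finrank ℂ U : ℝ)) := by
    positivity
  nlinarith

end FT
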