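import Mathlib
import Pool.Agent.helper11.FT.Defs
import Pool.Agent.helper11.FT.HomBasic
import Pool.Agent.helper11.FT.Cop
import Pool.Agent.helper11.FT.KC

/-! # FT-KeyC: restriction of the counts to a centraliser -/

namespace FT

universe u v

open scoped commutatorElement

/-- counting with cosets: `P = E Rad` and a property `s` invariant under right multiplication by
`Rad` -/
private theorem count_cosets {Γ : Type u} [Group Γ] (P Rad E : Subgroup Γ) (s : Γ → Prop)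
    (hRad : Rad ≤ P) (hEP : E ≤ P) (hcov : ∀ x ∈ P, ∃ e ∈ E, ∃ ρ ∈ Rad, x = e * ρ)
    (hs : ∀ x ∈ P, ∀ ρ ∈ Rad, s (x * ρ) ↔ s x) :
    Nat.card {x : Γ // x ∈ P ∧ s x} * Nat.card (E ⊓ Rad : Subgroup Γ) =
      Nat.card {x : Γ // x ∈ E ∧ s x} * Nat.card Rad := by
  classical
  have hch : ∀ x : Γ, ∃ e : Γ, x ∈ P → (e ∈ E ∧ e⁻¹ * x ∈ Rad) := by
    intro x
    by_cases hx : x ∈ P
    · obtain ⟨e, he, ρ, hρ, rfl⟩ := hcov x hx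
      exact ⟨e, fun _ => ⟨he, by rwa [inv_mul_cancel_left]⟩⟩
    · exact ⟨1, fun h => absurd h hx⟩
  choose ε hε using hch
  rw [← Nat.card_prod, ← Nat.card_prod]
  refine Nat.card_congr
    { toFun := fun q => (⟨ε q.1.1 * q.2.1, ?_, ?_⟩, ⟨(q.2.1)⁻¹ * ((ε q.1.1)⁻¹ * q.1.1), ?_⟩)
      invFun := fun q => (⟨q.1.1 * q.2.1, ?_, ?_⟩, ⟨(ε (q.1.1 * q.2.1))⁻¹ * q.1.1, ?_, ?_⟩)
      left_inv := ?_
      right_inv := ?_ }
  · exact E.mul_mem (hε _ q.1.2.1).1 q.2.2.1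
  · have h1 : (q.2.1)⁻¹ * ((ε q.1.1)⁻¹ * q.1.1) ∈ Rad :=
      Rad.mul_mem (Rad.inv_mem q.2.2.2) (hε _ q.1.2.1).2
    have h2 : ε q.1.1 * q.2.1 ∈ P := P.mul_mem (hEP (hε _ q.1.2.1).1) (hEP q.2.2.1)
    rw [← hs _ h2 _ h1]
    have h3 : ε q.1.1 * q.2.1 * ((q.2.1)⁻¹ * ((ε q.1.1)⁻¹ * q.1.1)) = q.1.1 := by group
    rw [h3]
    exact q.1.2.2
  · exact Rad.mul_mem (Rad.inv_mem q.2.2.2) (hε _ q.1.2.1).2
  · exact P.mul_mem (hEP q.1.2.1) (hRad q.2.2)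
  · exact (hs _ (hEP q.1.2.1) _ q.2.2).2 q.1.2.2
  · exact E.mul_mem (E.inv_mem (hε _ (P.mul_mem (hEP q.1.2.1) (hRad q.2.2))).1) q.1.2.1
  · have h1 := Rad.mul_mem (hε _ (P.mul_mem (hEP q.1.2.1) (hRad q.2.2))).2 (Rad.inv_mem q.2.2)
    have h2 : (ε (q.1.1 * q.2.1))⁻¹ * (q.1.1 * q.2.1) * (q.2.1)⁻¹ =
        (ε (q.1.1 * q.2.1))⁻¹ * q.1.1 := by group
    rw [h2] at h1
    exact h1
  · rintro ⟨⟨x, hx, hx'⟩, ⟨t, ht⟩⟩
    have h1 : ε x * t * (t⁻¹ * ((ε x)⁻¹ * x)) = x := by group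
    refine Prod.ext (Subtype.ext ?_) (Subtype.ext ?_)
    · exact h1
    · change (ε (ε x * t * (t⁻¹ * ((ε x)⁻¹ * x))))⁻¹ * (ε x * t) = t
      rw [h1, inv_mul_cancel_left]
  · rintro ⟨⟨e, he, he'⟩, ⟨ρ, hρ⟩⟩
    refine Prod.ext (Subtype.ext ?_) (Subtype.ext ?_)
    · change ε (e * ρ) * ((ε (e * ρ))⁻¹ * e) = e
      rw [mul_inv_cancel_left]
    · change ((ε (e * ρ))⁻¹ * e)⁻¹ * ((ε (e * ρ))⁻¹ * (e * ρ)) = ρ
      group

/-- Restriction to the centraliser of `K`: `P` an `r`-group, `Rad ≤ P` normal, `K` acts coprimely on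
`P` and trivially on `P/Rad`; `E = {x ∈ P commuting with K}`. Then `P = E Rad`, and for every `b`
normalising `P`, `Rad` and `E`, with `E0 = E ⊓ Rad`,
`cenN E E0 b * |P| = cenN P Rad b * |E|`.
PROOF. `fix_coset` gives `P = E Rad`. The set `{x ∈ P | ⁅x,b⁆ ∈ Rad}` is a union of cosets of `Rad`
(`⁅x ρ, b⁆ = x ⁅ρ,b⁆ x⁻¹ ⁅x,b⁆`), each of them meets `E` in a coset of `E0`; and
`⁅x,b⁆ ∈ Rad ↔ ⁅x,b⁆ ∈ E0` for `x ∈ E`. So both counts are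
`(number of cosets) * |Rad|` and `(number of cosets) * |E0|`, and `|P| |E0| = |E| |Rad|`. -/
theorem cenN_cent {Γ : Type u} [Group Γ] [Finite Γ] (P Rad K E : Subgroup Γ)
    (hRad : Rad ≤ P) (hPR : P ≤ Nrm Rad) (hKP : K ≤ Nrm P) (hKR : K ≤ Nrm Rad)
    (hs : Group.IsSolvable P) (hc : (Nat.card P).Coprime (Nat.card K))
    (htriv : ∀ x ∈ P, ∀ y ∈ K, ⁅x, y⁆ ∈ Rad)
    (hE : ∀ x, x ∈ E ↔ x ∈ P ∧ ∀ y ∈ K, y * x = x * y) (b : Γ)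
    (hbP : b ∈ Nrm P) (hbR : b ∈ Nrm Rad) (hbE : b ∈ Nrm E) :
    (∀ x ∈ P, ∃ e ∈ E, ∃ ρ ∈ Rad, x = e * ρ) ∧
    cenN E (E ⊓ Rad) b * Nat.card P = cenN P Rad b * Nat.card E := by
  have hEP : E ≤ P := fun x hx => ((hE x).1 hx).1
  have hcov : ∀ x ∈ P, ∃ e ∈ E, ∃ ρ ∈ Rad, x = e * ρ := by
    intro x hx
    have hsR : Group.IsSolvable Rad :=
      Group.isSolvable_of_isSolvable_injective (Subgroup.inclusion_injective hRad)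
    have hcR : (Nat.card Rad).Coprime (Nat.card K) :=
      hc.coprime_dvd_left (Subgroup.card_dvd_of_le hRad)
    obtain ⟨c, hcm, hfix⟩ := fix_coset Rad K hKR hsR hcR x (by
      intro m hm
      have h4 : x⁻¹ * (m * x * m⁻¹) = ⁅x⁻¹, m⁆ := by
        rw [commutatorElement_def]
        group
      rw [h4]
      exact htriv _ (P.inv_mem hx) _ hm)
    exact ⟨x * c, (hE _).2 ⟨P.mul_mem hx (hRad hcm), hfix⟩, c⁻¹, Rad.inv_mem hcm, by group⟩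
  refine ⟨hcov, ?_⟩
  have hs' : ∀ x ∈ P, ∀ ρ ∈ Rad, (⁅x * ρ, b⁆ ∈ Rad ↔ ⁅x, b⁆ ∈ Rad) := by
    intro x hx ρ hρ
    have h1 : ⁅ρ, b⁆ ∈ Rad := by
      have h2 := (Subgroup.mem_normalizer_iff.1 hbR ρ⁻¹).1 (Rad.inv_mem hρ)
      have h3 : ⁅ρ, b⁆ = ρ * (b * ρ⁻¹ * b⁻¹) := by
        rw [commutatorElement_def]
        group
      rw [h3]
      exact Rad.mul_mem hρ h2
    have h4 : x * ⁅ρ, b⁆ * x⁻¹ ∈ Rad := (Subgroup.mem_normalizer_iff.1 (hPR hx) _).1 h1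
    have h5 : ⁅x * ρ, b⁆ = (x * ⁅ρ, b⁆ * x⁻¹) * ⁅x, b⁆ := by
      simp only [commutatorElement_def]
      group
    rw [h5]
    exact Rad.mul_mem_cancel_left h4
  have e1 := count_cosets P Rad E (fun x => ⁅x, b⁆ ∈ Rad) hRad hEP hcov hs'
  have e2 := count_cosets P Rad E (fun _ => True) hRad hEP hcov (fun _ _ _ _ => Iff.rfl)
  have e3 : Nat.card {x : Γ // x ∈ P ∧ True} = Nat.card P :=
    Nat.card_congr (Equiv.subtypeEquivRight fun x => ⟨fun h => h.1, fun h => ⟨h, trivial⟩⟩)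
  have e4 : Nat.card {x : Γ // x ∈ E ∧ True} = Nat.card E :=
    Nat.card_congr (Equiv.subtypeEquivRight fun x => ⟨fun h => h.1, fun h => ⟨h, trivial⟩⟩)
  rw [e3, e4] at e2
  have e5 : cenN E (E ⊓ Rad) b = Nat.card {x : Γ // x ∈ E ∧ ⁅x, b⁆ ∈ Rad} := by
    unfold cenN
    refine Nat.card_congr (Equiv.subtypeEquivRight fun x => ⟨fun h => ⟨h.1, h.2.2⟩,
      fun h => ⟨h.1, ?_, h.2⟩⟩)
    have h2 := (Subgroup.mem_normalizer_iff.1 hbE x⁻¹).1 (E.inv_mem h.1)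
    have h3 : ⁅x, b⁆ = x * (b * x⁻¹ * b⁻¹) := by
      rw [commutatorElement_def]
      group
    rw [h3]
    exact E.mul_mem h.1 h2
  have e6 : cenN P Rad b = Nat.card {x : Γ // x ∈ P ∧ ⁅x, b⁆ ∈ Rad} := rfl
  have hpos : 0 < Nat.card (E ⊓ Rad : Subgroup Γ) := Nat.card_pos
  rw [e5]
  rw [← e6] at e1
  apply Nat.eq_of_mul_eq_mul_right hpos
  calc Nat.card {x : Γ // x ∈ E ∧ ⁅x, b⁆ ∈ Rad} * Nat.card P * Nat.card (E ⊓ Rad : Subgroup Γ)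
      = Nat.card {x : Γ // x ∈ E ∧ ⁅x, b⁆ ∈ Rad} *
          (Nat.card P * Nat.card (E ⊓ Rad : Subgroup Γ)) := by ring
    _ = Nat.card {x : Γ // x ∈ E ∧ ⁅x, b⁆ ∈ Rad} * (Nat.card E * Nat.card Rad) := by rw [e2]
    _ = (Nat.card {x : Γ // x ∈ E ∧ ⁅x, b⁆ ∈ Rad} * Nat.card Rad) * Nat.card E := by ring
    _ = (cenN P Rad b * Nat.card (E ⊓ Rad : Subgroup Γ)) * Nat.card E := by rw [e1]
    _ = cenN P Rad b * Nat.card E * Nat.card (E ⊓ Rad : Subgroup Γ) := by ring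

end FT
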