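import Mathlib
import Pool.Agent.helper11.FT.Defs
import Pool.Agent.helper11.FT.HomBasic
import Pool.Agent.helper11.FT.Cop
import Pool.Agent.helper11.FT.KC
import Pool.Agent.helper11.FT.KeyC

/-! # FT-KeyA: the key claim of section 12, for a group acting on functions
(/team-store/9c6401_plan.md) -/

namespace FT

universe u v

open scoped commutatorElement

section Aux

variable {Γ : Type u} [Group Γ]

private theorem ka_nrm (H C : Subgroup Γ) (h : ∀ g ∈ H, ∀ x ∈ C, g * x * g⁻¹ ∈ C) :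
    H ≤ Nrm C := by
  intro g hg
  rw [Subgroup.mem_normalizer_iff]
  intro x
  constructor
  · exact fun hx => h g hg x hx
  · intro hx
    have h1 := h g⁻¹ (H.inv_mem hg) _ hx
    have h2 : g⁻¹ * (g * x * g⁻¹) * g⁻¹⁻¹ = x := by group
    rwa [h2] at h1

private theorem ka_conj {R : Subgroup Γ} {g x : Γ} (hg : g ∈ Nrm R) (hx : x ∈ R) :
    g * x * g⁻¹ ∈ R := (Subgroup.mem_normalizer_iff.1 hg x).1 hx

private theorem ka_conj' {R : Subgroup Γ} {g x : Γ} (hg : g ∈ Nrm R) (hx : x ∈ R) :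
    g⁻¹ * x * g ∈ R := (Subgroup.mem_normalizer_iff''.1 hg x).1 hx

private theorem ka_sup (B E N : Subgroup Γ) (hE : B ≤ Nrm E) (hN : B ≤ Nrm N) :
    B ≤ Nrm (E ⊔ N) := by
  refine ka_nrm _ _ fun g hg x hx => ?_
  have h1 : E ⊔ N ≤ (E ⊔ N).comap (MulAut.conj g).toMonoidHom := by
    refine sup_le (fun y hy => ?_) (fun y hy => ?_)
    · exact Subgroup.mem_sup_left (ka_conj (hE hg) hy)
    · exact Subgroup.mem_sup_right (ka_conj (hN hg) hy)
  exact h1 hx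

private theorem ka_card [Finite Γ] (E B : Subgroup Γ) (h : B ≤ Nrm E) :
    Nat.card (E ⊔ B : Subgroup Γ) ∣ Nat.card E * Nat.card B := by
  set G := E ⊔ B with hG
  have hEG : E ≤ G := le_sup_left
  have hBG : B ≤ G := le_sup_right
  have hn : (E.subgroupOf G).Normal := by
    rw [← Subgroup.normalizer_eq_top_iff, eq_top_iff]
    intro g _
    rw [Subgroup.mem_normalizer_iff]
    have hg : (g : Γ) ∈ Nrm E := (sup_le Subgroup.le_normalizer h : E ⊔ B ≤ Nrm E) g.2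
    intro x
    rw [Subgroup.mem_subgroupOf, Subgroup.mem_subgroupOf]
    exact Subgroup.mem_normalizer_iff.1 hg x
  have h1 := Subgroup.card_eq_card_quotient_mul_card_subgroup (E.subgroupOf G)
  have h2 : Nat.card (E.subgroupOf G) = Nat.card E :=
    Nat.card_congr (Subgroup.subgroupOfEquivOfLe hEG).toEquiv
  have h3 : Nat.card (G ⧸ E.subgroupOf G) ∣ Nat.card B := by
    refine Subgroup.card_dvd_of_surjective
      ((QuotientGroup.mk' (E.subgroupOf G)).comp (Subgroup.inclusion hBG)) ?_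
    rw [← MonoidHom.range_eq_top, MonoidHom.range_comp]
    have h4 : (Subgroup.inclusion hBG).range = B.subgroupOf G := by
      ext x
      rw [MonoidHom.mem_range, Subgroup.mem_subgroupOf]
      constructor
      · rintro ⟨b, rfl⟩
        exact b.2
      · intro hx
        exact ⟨⟨x, hx⟩, rfl⟩
    rw [h4]
    have h5 : E.subgroupOf G ⊔ B.subgroupOf G = ⊤ := by
      rw [← Subgroup.subgroupOf_sup hEG hBG, Subgroup.subgroupOf_self]
    have h6 : (E.subgroupOf G).map (QuotientGroup.mk' (E.subgroupOf G)) = ⊥ := by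
      rw [Subgroup.map_eq_bot_iff, QuotientGroup.ker_mk']
    have h7 := congrArg (Subgroup.map (QuotientGroup.mk' (E.subgroupOf G))) h5
    rw [Subgroup.map_sup, h6, bot_sup_eq] at h7
    rw [h7, ← MonoidHom.range_eq_map]
    exact MonoidHom.range_eq_top.2 (QuotientGroup.mk'_surjective _)
  rw [h1, h2, mul_comm]
  exact Nat.mul_dvd_mul_left _ h3

/-- the stabiliser of a space of functions -/
private def ka_stab {K : Type v} [Field K] (W : Submodule K (CF Γ K)) : Subgroup Γ where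
  carrier := {g | (∀ f ∈ W, g • f ∈ W) ∧ ∀ f ∈ W, g⁻¹ • f ∈ W}
  one_mem' := by
    refine ⟨fun f hf => ?_, fun f hf => ?_⟩
    · rwa [one_smul]
    · rwa [inv_one, one_smul]
  mul_mem' := by
    rintro a b ⟨ha, ha'⟩ ⟨hb, hb'⟩
    refine ⟨fun f hf => ?_, fun f hf => ?_⟩
    · rw [mul_smul]
      exact ha _ (hb _ hf)
    · rw [mul_inv_rev, mul_smul]
      exact hb' _ (ha' _ hf)
  inv_mem' := by
    rintro a ⟨ha, ha'⟩
    refine ⟨ha', fun f hf => ?_⟩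
    rw [inv_inv]
    exact ha _ hf

private theorem ka_le_stab {K : Type v} [Field K] (W : Submodule K (CF Γ K)) (H : Subgroup Γ)
    (h : ∀ x ∈ H, ∀ f ∈ W, x • f ∈ W) : H ≤ ka_stab W :=
  fun x hx => ⟨h x hx, h x⁻¹ (H.inv_mem hx)⟩

/-- the functions in `W` fixed by `M` and `K` -/
private def ka_V {F : Type v} [Field F] (W : Submodule F (CF Γ F)) (M K : Subgroup Γ) :
    Submodule F (CF Γ F) where
  carrier := {f | f ∈ W ∧ (∀ m ∈ M, m • f = f) ∧ ∀ y ∈ K, y • f = f}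
  zero_mem' := ⟨W.zero_mem, fun m _ => smul_zero m, fun m _ => smul_zero m⟩
  add_mem' := by
    rintro a b ⟨h1, h2, h3⟩ ⟨k1, k2, k3⟩
    refine ⟨W.add_mem h1 k1, fun m hm => ?_, fun m hm => ?_⟩
    · rw [smul_add, h2 m hm, k2 m hm]
    · rw [smul_add, h3 m hm, k3 m hm]
  smul_mem' := by
    rintro c a ⟨h1, h2, h3⟩
    refine ⟨W.smul_mem c h1, fun m hm => ?_, fun m hm => ?_⟩
    · rw [smul_comm, h2 m hm]
    · rw [smul_comm, h3 m hm]

private theorem ka_V_smul {F : Type v} [Field F] (W : Submodule F (CF Γ F)) (M K : Subgroup Γ)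
    {g : Γ} (hW : g ∈ ka_stab W) (hM : g ∈ Nrm M) (hK : g ∈ Nrm K) {f : CF Γ F}
    (hf : f ∈ ka_V W M K) : g • f ∈ ka_V W M K := by
  obtain ⟨h1, h2, h3⟩ := hf
  refine ⟨hW.1 f h1, fun m hm => ?_, fun m hm => ?_⟩
  · have h4 := h2 _ (ka_conj' hM hm)
    calc m • g • f = g • (g⁻¹ * m * g) • f := by
          rw [← mul_smul, ← mul_smul]
          congr 1
          group
      _ = g • f := by rw [h4]
  · have h4 := h3 _ (ka_conj' hK hm)
    calc m • g • f = g • (g⁻¹ * m * g) • f := by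
          rw [← mul_smul, ← mul_smul]
          congr 1
          group
      _ = g • f := by rw [h4]

/-- the representation on an invariant space of functions -/
private def ka_rep {F : Type v} [Field F] (V : Submodule F (CF Γ F)) (G : Subgroup Γ)
    (h : ∀ g ∈ G, ∀ f ∈ V, g • f ∈ V) : Representation F G V where
  toFun g :=
    { toFun := fun f => ⟨(g : Γ) • (f : CF Γ F), h g g.2 f f.2⟩
      map_add' := fun f h => Subtype.ext (smul_add (g : Γ) (f : CF Γ F) (h : CF Γ F))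
      map_smul' := fun c f => Subtype.ext (smul_comm (g : Γ) c (f : CF Γ F)) }
  map_one' := by
    apply LinearMap.ext
    intro f
    exact Subtype.ext (one_smul Γ (f : CF Γ F))
  map_mul' g h := by
    apply LinearMap.ext
    intro f
    exact Subtype.ext (mul_smul (g : Γ) (h : Γ) (f : CF Γ F))

private theorem ka_rep_apply {F : Type v} [Field F] (V : Submodule F (CF Γ F)) (G : Subgroup Γ)
    (h : ∀ g ∈ G, ∀ f ∈ V, g • f ∈ V) (g : G) (f : V) :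
    ((ka_rep V G h g f : V) : CF Γ F) = (g : Γ) • (f : CF Γ F) := rfl

private theorem ka_sub_nrm (G H C : Subgroup Γ) (h : H ≤ Nrm C) :
    H.subgroupOf G ≤ Nrm (C.subgroupOf G) := by
  intro g hg
  rw [Subgroup.mem_subgroupOf] at hg
  rw [Subgroup.mem_normalizer_iff]
  intro x
  rw [Subgroup.mem_subgroupOf, Subgroup.mem_subgroupOf]
  exact Subgroup.mem_normalizer_iff.1 (h hg) x

private theorem ka_sub_card (G H : Subgroup Γ) (h : H ≤ G) :
    Nat.card (H.subgroupOf G) = Nat.card H :=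
  Nat.card_congr (Subgroup.subgroupOfEquivOfLe h).toEquiv

private theorem ka_sub_cenN (G E E0 : Subgroup Γ) (hE : E ≤ G) (b : G) :
    cenN (E.subgroupOf G) (E0.subgroupOf G) b = cenN E E0 (b : Γ) := by
  unfold cenN
  refine Nat.card_congr
    { toFun := fun x => ⟨(x.1 : Γ), Subgroup.mem_subgroupOf.1 x.2.1,
        Subgroup.mem_subgroupOf.1 x.2.2⟩
      invFun := fun x => ⟨⟨x.1, hE x.2.1⟩, Subgroup.mem_subgroupOf.2 x.2.1,
        Subgroup.mem_subgroupOf.2 x.2.2⟩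
      left_inv := fun _ => rfl
      right_inv := fun _ => rfl }

private theorem ka_sub_count (G B : Subgroup Γ) (hB : B ≤ G) (s : Γ → Prop) :
    Nat.card {b : G // b ∈ B.subgroupOf G ∧ s (b : Γ)} = Nat.card {b : Γ // b ∈ B ∧ s b} :=
  Nat.card_congr
    { toFun := fun x => ⟨(x.1 : Γ), Subgroup.mem_subgroupOf.1 x.2.1, x.2.2⟩
      invFun := fun x => ⟨⟨x.1, hB x.2.1⟩, Subgroup.mem_subgroupOf.2 x.2.1, x.2.2⟩
      left_inv := fun _ => rfl
      right_inv := fun _ => rfl }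

/-- the elements which normalise `P` and `R` and act trivially on `P/R` -/
private def ka_triv (P R : Subgroup Γ) : Subgroup Γ where
  carrier := {g | g ∈ Nrm P ∧ g ∈ Nrm R ∧ ∀ x ∈ P, ⁅x, g⁆ ∈ R}
  one_mem' := ⟨Subgroup.one_mem _, Subgroup.one_mem _, fun x _ => by
    rw [commutatorElement_one_right]
    exact R.one_mem⟩
  mul_mem' := by
    rintro g h ⟨g1, g2, g3⟩ ⟨h1, h2, h3⟩
    refine ⟨Subgroup.mul_mem _ g1 h1, Subgroup.mul_mem _ g2 h2, fun x hx => ?_⟩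
    have e : ⁅x, g * h⁆ = ⁅x, g⁆ * (g * ⁅x, h⁆ * g⁻¹) := by
      simp only [commutatorElement_def]
      group
    rw [e]
    exact R.mul_mem (g3 x hx) (ka_conj g2 (h3 x hx))
  inv_mem' := by
    rintro g ⟨g1, g2, g3⟩
    refine ⟨Subgroup.inv_mem _ g1, Subgroup.inv_mem _ g2, fun x hx => ?_⟩
    have e : ⁅x, g⁻¹⁆ = (g⁻¹ * ⁅x, g⁆ * g)⁻¹ := by
      simp only [commutatorElement_def]
      group
    rw [e]
    exact R.inv_mem (ka_conj' g2 (g3 x hx))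

end Aux

/-- both parts for a subgroup `N1` which commutes with `K` -/
private theorem key_gen {Γ : Type u} [Group Γ] [Finite Γ] (q r p : ℕ) [Fact q.Prime]
    [Fact r.Prime] [Fact p.Prime] (P Rad D M B K N1 : Subgroup Γ)
    (W : Submodule (ZMod q) (CF Γ (ZMod q)))
    (hPr : IsPGroup r P) (hrq : r ≠ q) (hqB : q.Coprime (Nat.card B))
    (hrB : r.Coprime (Nat.card B))
    (hRad : Rad ≤ P) (hPR : P ≤ Nrm Rad) (hPM : P ≤ Nrm M)
    (hBP : B ≤ Nrm P) (hBR : B ≤ Nrm Rad) (hBM : B ≤ Nrm M)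
    (hKB : K ≤ B) (hBK : B ≤ Nrm K) (hK : ∀ x ∈ P, ∀ y ∈ K, ⁅x, y⁆ ∈ Rad)
    (hWP : ∀ x ∈ P, ∀ f ∈ W, x • f ∈ W) (hWB : ∀ x ∈ B, ∀ f ∈ W, x • f ∈ W)
    (hRadM : ∀ u ∈ P, ∀ ρ ∈ Rad, ⁅u, ρ⁆ ∈ M) (hDM' : ∀ x ∈ P, ∀ z ∈ D, ⁅x, z⁆ ∈ M)
    (hnd : ∀ u ∈ P, u ∉ Rad → ∃ y ∈ P, ⁅u, y⁆ ∈ D ∧ ⁅u, y⁆ ∉ M)
    (hcD : ∀ x ∈ P, ∀ y ∈ P, ⁅x, y⁆ ∈ D)
    (hDM : ∀ z ∈ D, z ∉ M → ∀ f ∈ W, (∀ m ∈ M, m • f = f) → z • f = f → f = 0)
    (hbig : ∀ b ∈ B, b ∉ K → 2 ^ 16 * cenN P Rad b ≤ Nat.card P)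
    (hcount : ∀ t : ℝ, 1 ≤ t →
      (Nat.card {b : Γ // b ∈ B ∧ (Nat.card P : ℝ) ≤ t * cenN P Rad b} : ℝ) ^ 16 ≤
        t * (Nat.card K : ℝ) ^ 16)
    (hNM : N1 ≤ Nrm M) (hNK : ∀ n ∈ N1, ∀ y ∈ K, y * n = n * y) (hNP : N1 ≤ Nrm P)
    (hNR : N1 ≤ Nrm Rad) (hWN : ∀ x ∈ N1, ∀ f ∈ W, x • f ∈ W) (hBN : B ≤ Nrm N1)
    (hqN : q.Coprime (Nat.card N1))
    (f : CF Γ (ZMod q)) (hf : f ∈ W) (hf0 : f ≠ 0) (hfM : ∀ m ∈ M, m • f = f)
    (hfK : ∀ y ∈ K, y • f = f) :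
    (∃ f' ∈ W, f' ≠ 0 ∧ (∀ m ∈ M, m • f' = f') ∧ ∀ y ∈ B, y • f' = f') ∧
    (IsPGroup p N1 → p.Coprime (Nat.card B) → (∃ x ∈ P, ∃ u ∈ N1, ⁅x, u⁆ ∉ Rad) →
      ∃ f' ∈ W, (∀ m ∈ M, m • f' = f') ∧ (∀ y ∈ B, y • f' = f') ∧ ∃ u ∈ N1, u • f' ≠ f') := by
  classical
  set E : Subgroup Γ := P ⊓ Subgroup.centralizer (K : Set Γ) with hEdef
  have hE : ∀ x, x ∈ E ↔ x ∈ P ∧ ∀ y ∈ K, y * x = x * y := by
    intro x
    rw [hEdef, Subgroup.mem_inf, Subgroup.mem_centralizer_iff]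
    rfl
  have hEP : E ≤ P := inf_le_left
  have hBE : B ≤ Nrm E := by
    refine ka_nrm _ _ fun b hb x hx => ?_
    obtain ⟨hx1, hx2⟩ := (hE x).1 hx
    refine (hE _).2 ⟨ka_conj (hBP hb) hx1, fun y hy => ?_⟩
    have h1 := hx2 _ (ka_conj' (hBK hb) hy)
    calc y * (b * x * b⁻¹) = b * ((b⁻¹ * y * b) * x) * b⁻¹ := by group
      _ = b * (x * (b⁻¹ * y * b)) * b⁻¹ := by rw [h1]
      _ = b * x * b⁻¹ * y := by group
  have hNE : N1 ≤ Nrm E := by
    refine ka_nrm _ _ fun b hb x hx => ?_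
    obtain ⟨hx1, hx2⟩ := (hE x).1 hx
    refine (hE _).2 ⟨ka_conj (hNP hb) hx1, fun y hy => ?_⟩
    have h1 := hx2 _ hy
    have h2 := hNK _ hb _ hy
    have h3 := hNK _ (N1.inv_mem hb) _ hy
    calc y * (b * x * b⁻¹) = (y * b) * x * b⁻¹ := by group
      _ = b * (y * x) * b⁻¹ := by rw [h2]; group
      _ = b * x * (y * b⁻¹) := by rw [h1]; group
      _ = b * x * b⁻¹ * y := by rw [h3]; group
  have hEE : E ≤ Nrm E := Subgroup.le_normalizer
  have hER : E ≤ Nrm Rad := hEP.trans hPR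
  -- the group
  set G : Subgroup Γ := (E ⊔ N1) ⊔ B with hG
  have hEG : E ≤ G := le_sup_left.trans le_sup_left
  have hNG : N1 ≤ G := le_sup_right.trans le_sup_left
  have hBG : B ≤ G := le_sup_right
  have hKG : K ≤ G := hKB.trans hBG
  have hqG : ¬ q ∣ Nat.card G := by
    intro hdvd
    have h1 := ka_card (E ⊔ N1) B (ka_sup B E N1 hBE hBN)
    have h2 := ka_card E N1 hNE
    have h3 := hdvd.trans (h1.trans (Nat.mul_dvd_mul_right h2 _))
    have hq : q.Prime := Fact.out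
    have hEr : IsPGroup r E := hPr.to_le hEP
    obtain ⟨n, hn⟩ := IsPGroup.iff_card.1 hEr
    rw [hq.dvd_mul, hq.dvd_mul] at h3
    rcases h3 with (h3 | h3) | h3
    · rw [hn] at h3
      have h4 := hq.dvd_of_dvd_pow h3
      exact hrq ((Nat.prime_dvd_prime_iff_eq hq Fact.out).1 h4).symm
    · exact (hq.coprime_iff_not_dvd.1 hqN) h3
    · exact (hq.coprime_iff_not_dvd.1 hqB) h3
  have hEK : E ≤ Nrm K := by
    refine ka_nrm _ _ fun b hb x hx => ?_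
    have h1 := ((hE b).1 hb).2 x hx
    have h2 : b * x * b⁻¹ = x := by
      rw [← h1]
      group
    rwa [h2]
  have hNK' : N1 ≤ Nrm K := by
    refine ka_nrm _ _ fun b hb x hx => ?_
    have h1 := hNK b hb x hx
    have h2 : b * x * b⁻¹ = x := by
      rw [← h1]
      group
    rwa [h2]
  have hGW : G ≤ ka_stab W := by
    refine sup_le (sup_le ?_ ?_) ?_
    · exact ka_le_stab W _ fun x hx => hWP x (hEP hx)
    · exact ka_le_stab W _ hWN
    · exact ka_le_stab W _ hWB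
  have hGM : G ≤ Nrm M := sup_le (sup_le (hEP.trans hPM) hNM) hBM
  have hGK : G ≤ Nrm K := sup_le (sup_le hEK hNK') hBK
  set V : Submodule (ZMod q) (CF Γ (ZMod q)) := ka_V W M K with hV
  have hst : ∀ g ∈ G, ∀ f ∈ V, g • f ∈ V := fun g hg f hf =>
    ka_V_smul W M K (hGW hg) (hGM hg) (hGK hg) hf
  have hnt : Nontrivial V := ⟨⟨⟨f, hf, hfM, hfK⟩, 0, fun h => hf0 (congrArg Subtype.val h)⟩⟩
  have hfin : Finite V := inferInstance
  have hfd : FiniteDimensional (ZMod q) V := inferInstance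
  set ρ : Representation (ZMod q) G V := ka_rep V G hst with hρ
  -- coprimality
  have hs : Group.IsSolvable P := by
    have := hPr.isNilpotent
    infer_instance
  have hcPK : (Nat.card P).Coprime (Nat.card K) := by
    obtain ⟨n, hn⟩ := IsPGroup.iff_card.1 hPr
    rw [hn]
    exact Nat.Coprime.pow_left n (hrB.coprime_dvd_right (Subgroup.card_dvd_of_le hKB))
  have hcent := fun (b : Γ) (h1 : b ∈ Nrm P) (h2 : b ∈ Nrm Rad) (h3 : b ∈ Nrm E) =>
    cenN_cent P Rad K E hRad hPR (hKB.trans hBP) (hKB.trans hBR) hs hcPK hK hE b h1 h2 h3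
  have hcov := (hcent 1 (Subgroup.one_mem _) (Subgroup.one_mem _) (Subgroup.one_mem _)).1
  -- nondegeneracy
  have hND : NonDeg ρ (E.subgroupOf G) ((E ⊓ Rad).subgroupOf G) := by
    intro u hu hu0
    rw [Subgroup.mem_subgroupOf] at hu hu0
    have huP : (u : Γ) ∈ P := hEP hu
    have huR : (u : Γ) ∉ Rad := fun h => hu0 ⟨hu, h⟩
    obtain ⟨y, hy, hyD, hyM⟩ := hnd _ huP huR
    obtain ⟨e, he, s, hs', rfl⟩ := hcov y hy
    have heM : ⁅(u : Γ), e⁆ ∉ M := by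
      intro h
      apply hyM
      have h1 : ⁅(u : Γ), e * s⁆ = ⁅(u : Γ), e⁆ * (e * ⁅(u : Γ), s⁆ * e⁻¹) := by
        simp only [commutatorElement_def]
        group
      rw [h1]
      exact M.mul_mem h (ka_conj (hPM (hEP he)) (hRadM _ huP _ hs'))
    have hzE : (u : Γ)⁻¹ * (e * u * e⁻¹) ∈ E :=
      E.mul_mem (E.inv_mem hu) (E.mul_mem (E.mul_mem he hu) (E.inv_mem he))
    have hzD : (u : Γ)⁻¹ * (e * u * e⁻¹) ∈ D := by
      have h1 := hcD _ (P.inv_mem huP) _ (hEP he)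
      have h2 : ⁅(u : Γ)⁻¹, e⁆ = (u : Γ)⁻¹ * (e * u * e⁻¹) := by
        rw [commutatorElement_def]
        group
      rwa [h2] at h1
    have hzM : (u : Γ)⁻¹ * (e * u * e⁻¹) ∉ M := by
      intro h
      apply heM
      have h1 : ⁅(u : Γ), e⁆ = u * ((u : Γ)⁻¹ * (e * u * e⁻¹))⁻¹ * (u : Γ)⁻¹ := by
        rw [commutatorElement_def]
        group
      rw [h1]
      exact ka_conj (hPM huP) (M.inv_mem h)
    refine ⟨⟨e, hEG he⟩, Subgroup.mem_subgroupOf.2 he, ⟨_, hEG hzE⟩, ?_, ?_, ?_⟩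
    · apply Subtype.ext
      change e * (u : Γ) * e⁻¹ = u * ((u : Γ)⁻¹ * (e * u * e⁻¹))
      group
    · intro x hx
      rw [Subgroup.mem_subgroupOf] at hx
      apply LinearMap.ext
      intro v
      apply Subtype.ext
      rw [ka_rep_apply, ka_rep_apply]
      change ((x : Γ) * ((u : Γ)⁻¹ * (e * u * e⁻¹)) * (x : Γ)⁻¹) • (v : CF Γ (ZMod q)) =
        ((u : Γ)⁻¹ * (e * u * e⁻¹)) • (v : CF Γ (ZMod q))
      set z : Γ := (u : Γ)⁻¹ * (e * u * e⁻¹) with hz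
      have h1 : (x : Γ) * z * (x : Γ)⁻¹ = ⁅(x : Γ), z⁆ * z := by
        rw [commutatorElement_def]
        group
      have h2 : z • (v : CF Γ (ZMod q)) ∈ V := hst z (hEG hzE) _ v.2
      rw [h1, mul_smul]
      exact h2.2.1 _ (hDM' _ (hEP hx) _ hzD)
    · intro v hv
      have h1 := congrArg Subtype.val hv
      rw [ka_rep_apply] at h1
      apply Subtype.ext
      exact hDM _ hzD hzM _ v.2.1 v.2.2.1 h1
  -- the counting hypotheses
  have hPpos : 0 < Nat.card P := Nat.card_pos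
  have hEpos : 0 < Nat.card E := Nat.card_pos
  have hbig' : ∀ b ∈ B.subgroupOf G, b ∉ K.subgroupOf G →
      2 ^ 16 * cenN (E.subgroupOf G) ((E ⊓ Rad).subgroupOf G) b ≤ Nat.card (E.subgroupOf G) := by
    intro b hb hbK
    rw [Subgroup.mem_subgroupOf] at hb hbK
    rw [ka_sub_cenN G E (E ⊓ Rad) hEG, ka_sub_card G E hEG]
    have h1 := hbig _ hb hbK
    have h2 := (hcent _ (hBP hb) (hBR hb) (hBE hb)).2
    have h3 : 2 ^ 16 * cenN E (E ⊓ Rad) (b : Γ) * Nat.card P ≤ Nat.card E * Nat.card P := by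
      calc 2 ^ 16 * cenN E (E ⊓ Rad) (b : Γ) * Nat.card P
          = 2 ^ 16 * (cenN E (E ⊓ Rad) (b : Γ) * Nat.card P) := by ring
        _ = 2 ^ 16 * (cenN P Rad (b : Γ) * Nat.card E) := by rw [h2]
        _ = Nat.card E * (2 ^ 16 * cenN P Rad (b : Γ)) := by ring
        _ ≤ Nat.card E * Nat.card P := Nat.mul_le_mul_left _ h1
    exact Nat.le_of_mul_le_mul_right h3 hPpos
  have hiff : ∀ (t : ℝ) (b : Γ), b ∈ B →
      ((Nat.card E : ℝ) ≤ t * cenN E (E ⊓ Rad) b ↔ (Nat.card P : ℝ) ≤ t * cenN P Rad b) := by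
    intro t b hb
    have h2 := (hcent _ (hBP hb) (hBR hb) (hBE hb)).2
    have h2' : (cenN E (E ⊓ Rad) b : ℝ) * (Nat.card P : ℝ) = (cenN P Rad b : ℝ) * Nat.card E := by
      exact_mod_cast h2
    have hP' : (0 : ℝ) < (Nat.card P : ℝ) := by exact_mod_cast hPpos
    have hE' : (0 : ℝ) < (Nat.card E : ℝ) := by exact_mod_cast hEpos
    rw [← mul_le_mul_iff_of_pos_right hP', ← mul_le_mul_iff_of_pos_right hE' (b := (Nat.card P : ℝ)),
      mul_assoc t, h2', mul_comm (Nat.card P : ℝ) (Nat.card E : ℝ), mul_assoc t]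
  have hcount' : ∀ t : ℝ, 1 ≤ t →
      (Nat.card {b : G // b ∈ B.subgroupOf G ∧ (Nat.card (E.subgroupOf G) : ℝ) ≤
        t * cenN (E.subgroupOf G) ((E ⊓ Rad).subgroupOf G) b} : ℝ) ^ 16 ≤
        t * (Nat.card (K.subgroupOf G) : ℝ) ^ 16 := by
    intro t ht
    rw [ka_sub_card G K hKG]
    refine le_trans (le_of_eq ?_) (hcount t ht)
    congr 2
    rw [← ka_sub_count G B hBG (fun b => (Nat.card P : ℝ) ≤ t * cenN P Rad b)]
    refine Nat.card_congr (Equiv.subtypeEquivRight fun b => ?_)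
    refine and_congr_right fun hb => ?_
    rw [ka_sub_cenN G E (E ⊓ Rad) hEG, ka_sub_card G E hEG]
    exact hiff t _ (Subgroup.mem_subgroupOf.1 hb)
  -- the structural hypotheses
  have s1 : (E ⊓ Rad).subgroupOf G ≤ E.subgroupOf G := fun x hx => hx.1
  have s2 : B.subgroupOf G ≤ Nrm (E.subgroupOf G) := ka_sub_nrm G B E hBE
  have hBE0 : B ≤ Nrm (E ⊓ Rad) := ka_nrm _ _ fun b hb x hx =>
    ⟨ka_conj (hBE hb) hx.1, ka_conj (hBR hb) hx.2⟩
  have hNE0 : N1 ≤ Nrm (E ⊓ Rad) := ka_nrm _ _ fun b hb x hx =>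
    ⟨ka_conj (hNE hb) hx.1, ka_conj (hNR hb) hx.2⟩
  have hEE0 : E ≤ Nrm (E ⊓ Rad) := ka_nrm _ _ fun b hb x hx =>
    ⟨ka_conj (hEE hb) hx.1, ka_conj (hER hb) hx.2⟩
  have s3 := ka_sub_nrm G B (E ⊓ Rad) hBE0
  have s4 := ka_sub_nrm G E (E ⊓ Rad) hEE0
  have s5 : K.subgroupOf G ≤ B.subgroupOf G := fun x hx => hKB hx
  have s6 : ∀ x ∈ K.subgroupOf G, ρ x = 1 := by
    intro x hx
    rw [Subgroup.mem_subgroupOf] at hx
    apply LinearMap.ext
    intro v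
    apply Subtype.ext
    rw [ka_rep_apply]
    exact v.2.2.2 _ hx
  constructor
  · have h1 := kc_alpha q hqG ρ _ _ _ _ s1 s2 s3 s4 s5 s6 hND hbig' hcount'
    obtain ⟨v, hv, hv0⟩ := Submodule.exists_mem_ne_zero_of_ne_bot h1
    refine ⟨v, v.2.1, fun h => hv0 (Subtype.ext h), v.2.2.1, fun y hy => ?_⟩
    have h2 := congrArg Subtype.val (hv ⟨y, hBG hy⟩ (Subgroup.mem_subgroupOf.2 hy))
    rw [ka_rep_apply] at h2
    exact h2
  · rintro hNp hpB ⟨x, hx, u, hu, hxu⟩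
    have hN : ∃ n ∈ N1.subgroupOf G, ∃ x ∈ E.subgroupOf G, ⁅x, n⁆ ∉ (E ⊓ Rad).subgroupOf G := by
      obtain ⟨e, he, s, hs', rfl⟩ := hcov x hx
      refine ⟨⟨u, hNG hu⟩, Subgroup.mem_subgroupOf.2 hu, ⟨e, hEG he⟩,
        Subgroup.mem_subgroupOf.2 he, fun h => hxu ?_⟩
      have h1 : ⁅e, u⁆ ∈ Rad := (Subgroup.mem_subgroupOf.1 h).2
      have h2 : ⁅e * s, u⁆ = (e * ⁅s, u⁆ * e⁻¹) * ⁅e, u⁆ := by
        simp only [commutatorElement_def]
        group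
      have h3 : ⁅s, u⁆ ∈ Rad := by
        have h4 : ⁅s, u⁆ = s * (u * s⁻¹ * u⁻¹) := by
          rw [commutatorElement_def]
          group
        rw [h4]
        exact Rad.mul_mem hs' (ka_conj (hNR hu) (Rad.inv_mem hs'))
      rw [h2]
      exact Rad.mul_mem (ka_conj (hER he) h3) h1
    have hNp' : IsPGroup p (N1.subgroupOf G) :=
      hNp.of_equiv (Subgroup.subgroupOfEquivOfLe hNG).symm
    have hpB' : p.Coprime (Nat.card (B.subgroupOf G)) := by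
      rwa [ka_sub_card G B hBG]
    have h1 := kc_beta q hqG ρ p _ _ _ _ _ s1 s2 s3 s4 s5 hNp' (ka_sub_nrm G B N1 hBN) hpB'
      (ka_sub_nrm G N1 E hNE) (ka_sub_nrm G N1 (E ⊓ Rad) hNE0) s6 hND hN hbig' hcount'
    obtain ⟨v, hv, hv'⟩ := SetLike.not_le_iff_exists.1 h1
    rw [mem_fixS] at hv'
    push Not at hv'
    obtain ⟨n, hn, hn'⟩ := hv'
    refine ⟨v, v.2.1, v.2.2.1, fun y hy => ?_, n, Subgroup.mem_subgroupOf.1 hn, fun h => hn' ?_⟩
    · have h2 := congrArg Subtype.val (hv ⟨y, hBG hy⟩ (Subgroup.mem_subgroupOf.2 hy))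
      rw [ka_rep_apply] at h2
      exact h2
    · exact Subtype.ext h

/-- Section 12 in one statement, for `Γ` acting on functions with values in `F = ZMod q`.
`P` an `r`-group, `Rad ≤ P`, `D ≤ Rad`, `M ≤ D` subgroups (`D = D_l`, `M = ker λ`), `B` (= `Y_λ`),
`K` its subgroup acting trivially on `P/Rad`, `W ≤ CF Γ F` a subspace (= `H_{l+1}`), `N` a
`p`-group (= `N_l`, or `N = ⊥`).
Conclusion: if some `0 ≠ f ∈ W` is fixed by `M` and `K`, then there is a nonzero `B`-fixed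
`f' ∈ W` fixed by `M` and `K`, and if `N` acts nontrivially on `P/Rad` then not all such `f'` are
fixed by `N`.

PROOF. `V = {f ∈ W | fixed by M and by K} ≠ 0`. `E = {x ∈ P commuting with K}`,
`N1 = {x ∈ N commuting with K}`, `G' = E ⊔ N1 ⊔ B` (a subgroup of order prime to `q`: `E` is normal in
it, `N1` is normalised by `B`). `V` is stable under `G'`: `E`, `N1`, `B` normalise `M` and preserve
`W`; `E`, `N1` commute with `K`, `B` normalises `K`. Let `ρ` be the representation of `G'` on `V`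
(restrict the conjugation action). `NonDeg ρ E E0`, `E0 = E ⊓ Rad`: for `u ∈ E`, `u ∉ Rad`, by `hnd`
there is `y ∈ P` with `⁅u,y⁆ ∈ D`, `∉ M`; write `y = e ρ'` (`cenN_cent`), `ρ' ∈ Rad`; as
`⁅u,ρ'⁆ ∈ M` (`hRadM`), also `⁅u,e⁆ ∉ M`. `e u e⁻¹ = u z` with `z = u⁻¹ e u e⁻¹ = ⁅u⁻¹,e⁆`; `z ∈ D`, `z ∉ M`;
`ρ (x z x⁻¹) = ρ z` as `⁅x,z⁆ ∈ M`; a vector of `V` fixed by `z` and `M` is fixed by `D` (`hDM`), so
is zero (`hnofix`). The counting hypotheses for `E, E0` follow from those for `P, Rad` by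
`cenN_cent`. `kc_alpha` for `E, E0, B, K` (inside the group `E ⊔ B` or `G'`; subgroups of `G'` via
`subgroupOf`). If `N` acts nontrivially on `P/Rad`: `N = ⁅N,K⁆ N1` (`eq_comm_mul_cent`), `⁅N,K⁆` acts
trivially on `P/Rad` (because `K` does and both are groups of automorphisms of `P/Rad`), so `N1` acts
nontrivially on `P/Rad`, hence on `E/E0`; `kc_beta` for `N1`. -/
theorem key_abs {Γ : Type u} [Group Γ] [Finite Γ] (q r p : ℕ) [Fact q.Prime] [Fact r.Prime]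
    [Fact p.Prime] (P Rad D M B K N : Subgroup Γ)
    (W : Submodule (ZMod q) (CF Γ (ZMod q)))
    (hPr : IsPGroup r P) (hrq : r ≠ q) (hqB : q.Coprime (Nat.card B))
    (hrB : r.Coprime (Nat.card B))
    (hRad : Rad ≤ P) (hD : D ≤ Rad) (hM : M ≤ D) (hPR : P ≤ Nrm Rad) (hPM : P ≤ Nrm M)
    (hBP : B ≤ Nrm P) (hBR : B ≤ Nrm Rad) (hBM : B ≤ Nrm M)
    (hKB : K ≤ B) (hBK : B ≤ Nrm K) (hK : ∀ x ∈ P, ∀ y ∈ K, ⁅x, y⁆ ∈ Rad)
    (hWP : ∀ x ∈ P, ∀ f ∈ W, x • f ∈ W) (hWB : ∀ x ∈ B, ∀ f ∈ W, x • f ∈ W)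
    (hRadM : ∀ u ∈ P, ∀ ρ ∈ Rad, ⁅u, ρ⁆ ∈ M) (hDM' : ∀ x ∈ P, ∀ z ∈ D, ⁅x, z⁆ ∈ M)
    (hnd : ∀ u ∈ P, u ∉ Rad → ∃ y ∈ P, ⁅u, y⁆ ∈ D ∧ ⁅u, y⁆ ∉ M)
    (hcD : ∀ x ∈ P, ∀ y ∈ P, ⁅x, y⁆ ∈ D)
    (hDM : ∀ z ∈ D, z ∉ M → ∀ f ∈ W, (∀ m ∈ M, m • f = f) → z • f = f → f = 0)
    (hbig : ∀ b ∈ B, b ∉ K → 2 ^ 16 * cenN P Rad b ≤ Nat.card P)
    (hcount : ∀ t : ℝ, 1 ≤ t →
      (Nat.card {b : Γ // b ∈ B ∧ (Nat.card P : ℝ) ≤ t * cenN P Rad b} : ℝ) ^ 16 ≤
        t * (Nat.card K : ℝ) ^ 16)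
    (f : CF Γ (ZMod q)) (hf : f ∈ W) (hf0 : f ≠ 0) (hfM : ∀ m ∈ M, m • f = f)
    (hfK : ∀ y ∈ K, y • f = f) :
    (∃ f' ∈ W, f' ≠ 0 ∧ (∀ m ∈ M, m • f' = f') ∧ ∀ y ∈ B, y • f' = f') ∧
    (p ≠ q → IsPGroup p N → p.Coprime (Nat.card B) → B ≤ Nrm N → N ≤ Nrm P → N ≤ Nrm Rad →
      N ≤ Nrm M → (∀ x ∈ N, ∀ f ∈ W, x • f ∈ W) → (∃ x ∈ P, ∃ u ∈ N, ⁅x, u⁆ ∉ Rad) →
      ∃ f' ∈ W, (∀ m ∈ M, m • f' = f') ∧ (∀ y ∈ B, y • f' = f') ∧ ∃ u ∈ N, u • f' ≠ f') := by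
  constructor
  · refine (key_gen q r p P Rad D M B K ⊥ W hPr hrq hqB hrB hRad hPR hPM hBP hBR hBM hKB hBK hK
      hWP hWB hRadM hDM' hnd hcD hDM hbig hcount bot_le ?_ bot_le bot_le ?_ ?_ ?_ f hf hf0 hfM
      hfK).1
    · intro n hn y _
      rw [Subgroup.mem_bot.1 hn, mul_one, one_mul]
    · intro n hn g hg
      rw [Subgroup.mem_bot.1 hn, one_smul]
      exact hg
    · refine ka_nrm _ _ fun g _ x hx => ?_
      rw [Subgroup.mem_bot.1 hx, mul_one, mul_inv_cancel]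
      exact Subgroup.one_mem _
    · rw [Subgroup.card_bot]
      exact Nat.coprime_one_right q
  · rintro hpq hNp hpB hBN hNP hNR hNM hWN ⟨x, hx, u, hu, hxu⟩
    have hpK : p.Coprime (Nat.card K) := hpB.coprime_dvd_right (Subgroup.card_dvd_of_le hKB)
    obtain ⟨n, hn⟩ := IsPGroup.iff_card.1 hNp
    have hcNK : (Nat.card N).Coprime (Nat.card K) := by
      rw [hn]
      exact Nat.Coprime.pow_left n hpK
    have hsN : Group.IsSolvable N := by
      have := hNp.isNilpotent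
      infer_instance
    set N1 : Subgroup Γ := N ⊓ Subgroup.centralizer (K : Set Γ) with hN1def
    have hN1 : ∀ x, x ∈ N1 ↔ x ∈ N ∧ ∀ y ∈ K, y * x = x * y := by
      intro x
      rw [hN1def, Subgroup.mem_inf, Subgroup.mem_centralizer_iff]
      rfl
    have hN1N : N1 ≤ N := inf_le_left
    have hBN1 : B ≤ Nrm N1 := by
      refine ka_nrm _ _ fun b hb x hx => ?_
      obtain ⟨hx1, hx2⟩ := (hN1 x).1 hx
      refine (hN1 _).2 ⟨ka_conj (hBN hb) hx1, fun y hy => ?_⟩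
      have h1 := hx2 _ (ka_conj' (hBK hb) hy)
      calc y * (b * x * b⁻¹) = b * ((b⁻¹ * y * b) * x) * b⁻¹ := by group
        _ = b * (x * (b⁻¹ * y * b)) * b⁻¹ := by rw [h1]
        _ = b * x * b⁻¹ * y := by group
    have hqN1 : q.Coprime (Nat.card N1) := by
      have h1 : q.Coprime (Nat.card N) := by
        rw [hn]
        exact Nat.Coprime.pow_right n ((Nat.coprime_primes Fact.out Fact.out).2 hpq.symm)
      exact h1.coprime_dvd_right (Subgroup.card_dvd_of_le hN1N)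
    have hex : ∃ x ∈ P, ∃ u ∈ N1, ⁅x, u⁆ ∉ Rad := by
      by_contra hcon
      push Not at hcon
      obtain ⟨a, ha, c, hc, hcK, rfl⟩ :=
        eq_comm_mul_cent N K (hKB.trans hBN) hsN hcNK u hu
      have hKT : K ≤ ka_triv P Rad := fun y hy =>
        ⟨hBP (hKB hy), hBR (hKB hy), fun x hx => hK x hx y hy⟩
      have hNT : ∀ g ∈ N, ∀ y ∈ ka_triv P Rad, g * y * g⁻¹ ∈ ka_triv P Rad := by
        rintro g hg y ⟨y1, y2, y3⟩
        refine ⟨Subgroup.mul_mem _ (Subgroup.mul_mem _ (hNP hg) y1)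
            (Subgroup.inv_mem _ (hNP hg)),
          Subgroup.mul_mem _ (Subgroup.mul_mem _ (hNR hg) y2) (Subgroup.inv_mem _ (hNR hg)),
          fun x hx => ?_⟩
        have e : ⁅x, g * y * g⁻¹⁆ = g * ⁅g⁻¹ * x * g, y⁆ * g⁻¹ := by
          simp only [commutatorElement_def]
          group
        rw [e]
        exact ka_conj (hNR hg) (y3 _ (ka_conj' (hNP hg) hx))
      have hNKT : ⁅N, K⁆ ≤ ka_triv P Rad := by
        rw [Subgroup.commutator_le]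
        intro g hg y hy
        rw [commutatorElement_def]
        exact Subgroup.mul_mem _ (hNT g hg y (hKT hy)) (Subgroup.inv_mem _ (hKT hy))
      have haT := hNKT ha
      have hcN1 : c ∈ N1 := (hN1 c).2 ⟨hc, hcK⟩
      apply hxu
      have e : ⁅x, a * c⁆ = ⁅x, a⁆ * (a * ⁅x, c⁆ * a⁻¹) := by
        simp only [commutatorElement_def]
        group
      rw [e]
      exact Rad.mul_mem (haT.2.2 x hx) (ka_conj haT.2.1 (hcon x hx c hcN1))
    obtain ⟨f', h1, h2, h3, v, hv, hv'⟩ := (key_gen q r p P Rad D M B K N1 W hPr hrq hqB hrB hRad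
      hPR hPM hBP hBR hBM hKB hBK hK hWP hWB hRadM hDM' hnd hcD hDM hbig hcount
      (hN1N.trans hNM) (fun n hn => ((hN1 n).1 hn).2) (hN1N.trans hNP) (hN1N.trans hNR)
      (fun x hx => hWN x (hN1N hx)) hBN1 hqN1 f hf hf0 hfM hfK).2 (hNp.to_le hN1N) hpB hex
    exact ⟨f', h1, h2, h3, v, hN1N hv, hv'⟩

end FT
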