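import Mathlib
import Pool.Agent.helper11.FT.Defs
import Pool.Agent.helper11.FT.HomBasic
import Pool.Agent.helper11.FT.Bd
import Pool.Agent.helper11.FT.Tower
import Pool.Agent.helper11.FT.TS0
import Pool.Agent.helper11.FT.TSs
import Pool.Agent.helper11.FT.TS
import Pool.Agent.helper11.FT.TS2
import Pool.Agent.helper11.FT.TS3
import Pool.Agent.helper11.FT.NpB
import Pool.Agent.helper11.FT.GoodL
import Pool.Agent.helper11.FT.RadB
import Pool.Agent.helper11.FT.Kst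
import Pool.Agent.helper11.FT.C104
import Pool.Agent.helper11.FT.KeyA

/-! # FT-Key: (10.7) of /team-store/9c6401_plan.md -/

namespace FT

universe u v

open scoped commutatorElement

namespace Tower

variable {Γ : Type u} [Group Γ] [Finite Γ] (T : Tower Γ)

/-- (10.7) for `l` at level `i+1`, i.e. `W = H (i+2)`.
PROOF. Suppose `f` is fixed by `K = Kst (i+1) l`. Apply `key_abs` with `q = p (i+2)`, `r = p (i+1)`,
`p = p 0`, `P = P (i+1)`, `Rad = Rad (i+1) l`, `D = D (i+1) = Z (i+1)`, `M = kerH D l`, `B = Yst l`,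
`N = Np (i+1)`, `W = H (i+2)` and the counting from `c104`. The first conclusion gives a nonzero
`B`-fixed `f'`, fixed by `M`; `goodG` (level `i+1`, `hY`: elements of `Y` fixing `l` are those of `B`)
gives `p (i+2) ≠ p 0`, `p (i+1) ≠ p 0`, `Np (i+1)` fixes `l`. As `l` is GOOD_C, `Np (i+1)` acts
nontrivially on `P/Rad`. (`Np (i+1)` normalises `P`, `Rad` (`nrm_Rad`), `M`, acts on `W`.) The
second conclusion of `key_abs` gives `f'` fixed by `B` and `M` but not by `Np (i+1)`; so `f' ≠ 0`,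
contradiction to the last claim of `goodG` for `f'`. -/
theorem key (k n0 : ℕ) (hk1 : 1 ≤ k) (hk : (Nat.card T.Y).primeFactorsList.length ≤ k)
    (hb : Bd k n0) (i : ℕ) (hi : i + 1 < T.n) (hsp : ¬ T.Ab i) (hsp' : ¬ T.Ab (i + 1))
    (l0 : CF Γ (ZMod (T.p i))) (hl0 : T.Occ i l0)
    (hN : n0 ^ 2 * Nat.card (T.Rad i l0) ≤ Nat.card (T.P i))
    (l : CF Γ (ZMod (T.p (i + 1)))) (hl : T.Occ (i + 1) l) (hg : T.GoodC (i + 1) l)
    (f : CF Γ (ZMod (T.p (i + 1 + 1)))) (hf : f ∈ T.H (i + 1 + 1)) (hf0 : f ≠ 0)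
    (hfM : ∀ z ∈ T.Z (i + 1), l z = 0 → z • f = f) :
    ∃ y ∈ T.Kst (i + 1) l, y • f ≠ f := by
  by_contra hcon
  push Not at hcon
  have hi0 : i < T.n := by omega
  have hi1 : i + 1 ≤ T.n := hi.le
  have hi2 : i + 1 + 1 ≤ T.n := hi
  have hq : (T.p (i + 1 + 1)).Prime := T.hp _ hi2
  have hr : (T.p (i + 1)).Prime := T.hp _ hi1
  have hp : (T.p 0).Prime := T.hp _ (Nat.zero_le _)
  have _ : Fact (T.p (i + 1 + 1)).Prime := ⟨hq⟩
  have _ : Fact (T.p (i + 1)).Prime := ⟨hr⟩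
  have _ : Fact (T.p 0).Prime := ⟨hp⟩
  have hZ := T.Z_prop (i + 1) hi1
  have hZD : T.Z (i + 1) = T.D (i + 1) := T.Z_eq_of_not_Ab _ hsp'
  have hRp := T.Rad_prop (i + 1) hi1 hsp' l hl.1
  have hmR := T.mem_Rad (i + 1) hi1 hsp' l hl.1
  have hmK := T.mem_Kst (i + 1) hi hsp' l hl
  have hKle := T.Kst_le (i + 1) hi hsp' l hl
  have hc104 := T.c104 k n0 hk1 hk hb i hi hsp hsp' l0 hl0 hN l hl
  have hsl := T.smul_l i hi0 hsp' l hl.1
  have hYle : T.Yst l ≤ T.Y := inf_le_left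
  have hYcard : Nat.card (T.Yst l) ∣ Nat.card T.Y := Subgroup.card_dvd_of_le hYle
  have hYfix : ∀ y ∈ T.Yst l, y • l = l := fun y hy => ((T.mem_Yst l y).1 hy).2
  have hmM := fun x => mem_kerH hl.1 (x := x)
  have hMP : T.P (i + 1) ≤ Nrm (kerH (T.Z (i + 1)) l) := fun x hx =>
    mem_nrm_kerH hl.1 (hZ.2.2.2.2.2.2.2 (i + 1) le_rfl hx) (hsl.2 x hx)
  have hcZ : ∀ x ∈ T.P (i + 1), ∀ y ∈ T.P (i + 1), ⁅x, y⁆ ∈ T.Z (i + 1) := fun x hx y hy =>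
    hZ.2.1 (Subgroup.mem_sup_left (Subgroup.commutator_mem_commutator hx hy))
  have hNn := T.Np_nrm (i + 1) (i + 1) le_rfl hi1
  have hNn' := T.Np_nrm (i + 1) (i + 1 + 1) (Nat.le_succ _) hi2
  have hkey := key_abs (T.p (i + 1 + 1)) (T.p (i + 1)) (T.p 0) (T.P (i + 1)) (T.Rad (i + 1) l)
    (T.D (i + 1)) (kerH (T.Z (i + 1)) l) (T.Yst l) (T.Kst (i + 1) l) (T.Np (i + 1))
    (T.H (i + 1 + 1)) (T.hP _ hi1) (T.adj _ hi) ((T.cop _ hi2).coprime_dvd_right hYcard)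
    ((T.cop _ hi1).coprime_dvd_right hYcard) hRp.2.1 hRp.1
    (fun x hx => by rw [← hZD]; exact ((hmM x).1 hx).1)
    hRp.2.2.1 hMP (hYle.trans (T.hY _ hi1))
    (fun y hy => (T.nrm_Rad (i + 1) hi1 hsp' l hl.1 y (T.hY _ hi1 (hYle hy)) (hYfix y hy)).1)
    (fun y hy => mem_nrm_kerH hl.1 (hZ.2.2.2.2.2.2.1 (hYle hy)) (hYfix y hy))
    hKle.1 hKle.2 (fun x hx y hy => ((hmK y).1 hy).2 x hx)
    (fun x hx g hg => act_mem_HomOn (T.P_nrm_P _ _ (Nat.le_succ _) hi2 hx)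
      (T.P_nrm_Q _ _ (Nat.le_succ _) hi2 hx) hg)
    (fun x hx g hg => act_mem_HomOn (T.hY _ hi2 (hYle hx)) (T.Y_nrm_Q _ hi2 (hYle hx)) hg)
    ?_ ?_ ?_ (fun x hx y hy => by rw [← hZD]; exact hcZ x hx y hy) ?_ hc104.2 hc104.1 f hf hf0
    (fun m hm => hfM m ((hmM m).1 hm).1 ((hmM m).1 hm).2) hcon
  · obtain ⟨⟨f', hf'W, hf'0, hf'M, hf'B⟩, h2⟩ := hkey
    have hgood := T.goodG (i + 1) hi l hl.1 hl.2.1 f' hf'W hf'0
      (fun z hz hlz => hf'M z ((hmM z).2 ⟨hz, hlz⟩))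
      (fun y hy hyl => hf'B y ((T.mem_Yst l y).2 ⟨hy, hyl⟩))
    have hex : ∃ x ∈ T.P (i + 1), ∃ u ∈ T.Np (i + 1), ⁅x, u⁆ ∉ T.Rad (i + 1) l := by
      by_contra hcon'
      push Not at hcon'
      exact hg ⟨hgood.2.1, hgood.1, hgood.2.2.1, fun u hu x hx => hcon' x hx u hu⟩
    obtain ⟨f'', hW, hM, hB, u, hu, huf⟩ := h2 (fun h => hgood.1 h.symm) (T.Np_pgroup _ hi1)
      ((T.cop 0 (Nat.zero_le _)).coprime_dvd_right hYcard)
      (hYle.trans (T.Y_nrm_Np _ hi1)) hNn.1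
      (fun u hu => (T.nrm_Rad (i + 1) hi1 hsp' l hl.1 u (hNn.1 hu) (hgood.2.2.1 u hu)).1)
      (fun u hu => mem_nrm_kerH hl.1 (hNn.2.2.2 hu) (hgood.2.2.1 u hu))
      (fun x hx g hg => act_mem_HomOn (hNn'.1 hx) (hNn'.2.1 hx) hg) hex
    have hf''0 : f'' ≠ 0 := by
      intro h0
      apply huf
      rw [h0, smul_zero]
    exact huf ((T.goodG (i + 1) hi l hl.1 hl.2.1 f'' hW hf''0
      (fun z hz hlz => hM z ((hmM z).2 ⟨hz, hlz⟩))
      (fun y hy hyl => hB y ((T.mem_Yst l y).2 ⟨hy, hyl⟩))).2.2.2 u hu)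
  · intro u hu ρ hρ
    have hρ' := (hmR ρ).1 hρ
    refine (hmM _).2 ⟨hcZ u hu ρ hρ'.1, ?_⟩
    rw [T.form_symm (i + 1) hi1 hsp' l hl.1 hu hρ'.1, hρ'.2 u hu, neg_zero]
  · intro x hx z hz
    rw [← hZD] at hz
    have hQ : ⁅x, z⁆ ∈ T.Q (i + 1) := by
      have h1 := hZ.2.2.2.1 (Subgroup.commutator_mem_commutator hz hx)
      rw [← commutatorElement_inv]
      exact inv_mem h1
    exact (hmM _).2 ⟨hZ.1 hQ, hl.1.2.2 _ hQ⟩
  · intro u hu huR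
    by_contra hcon'
    push Not at hcon'
    apply huR
    rw [hmR]
    refine ⟨hu, fun y hy => ?_⟩
    exact ((hmM _).1 (hcon' y hy (by rw [← hZD]; exact hcZ u hu y hy))).2
  · intro z hz hzM g hg hgM hzg
    rw [← hZD] at hz
    have hlz : l z ≠ 0 := fun h0 => hzM ((hmM z).2 ⟨hz, h0⟩)
    exact T.nofix (i + 1) hi g hg (fix_of_gen hl.1 hz hlz
      (fun m hm hlm => hgM m ((hmM m).2 ⟨hm, hlm⟩)) hzg)

/-- (10.6) + (10.7): strict descent of the `Kst`.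
PROOF. `Kst_succ_le` gives `≤`. `compat_f0` gives `0 ≠ f ∈ H (i+2)`, zero on `Rad (i+2) l'`, fixed
by `ker l`; elements `y` of `Kst (i+2) l'` fix it (`HomOn.smul_eq_of_comm`: they act trivially on
`P (i+2)/Rad`). By `key` some element of `Kst (i+1) l` does not fix `f`. -/
theorem Kst_lt (k n0 : ℕ) (hk1 : 1 ≤ k) (hk : (Nat.card T.Y).primeFactorsList.length ≤ k)
    (hb : Bd k n0) (i : ℕ) (hi : i + 2 < T.n) (hsp : ¬ T.Ab i) (hsp' : ¬ T.Ab (i + 1))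
    (hsp'' : ¬ T.Ab (i + 1 + 1))
    (l0 : CF Γ (ZMod (T.p i))) (hl0 : T.Occ i l0)
    (hN : n0 ^ 2 * Nat.card (T.Rad i l0) ≤ Nat.card (T.P i))
    (l : CF Γ (ZMod (T.p (i + 1)))) (hl : T.Occ (i + 1) l) (hg : T.GoodC (i + 1) l)
    (l' : CF Γ (ZMod (T.p (i + 1 + 1)))) (hl' : T.Occ (i + 1 + 1) l')
    (hc : T.Compat (i + 1) l l') :
    T.Kst (i + 1 + 1) l' < T.Kst (i + 1) l := by
  have hi1 : i + 1 + 1 ≤ T.n := by omega
  refine lt_of_le_of_ne (T.Kst_succ_le (i + 1) hi hsp' hsp'' l hl l' hl' hc) fun heq => ?_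
  obtain ⟨f, hf, hf0, hfR, hfz⟩ := T.compat_f0 (i + 1) (by omega) hsp'' l hl.1 l' hl'.1 hc
  obtain ⟨y, hy, hyf⟩ := T.key k n0 hk1 hk hb i (by omega) hsp hsp' l0 hl0 hN l hl hg f hf hf0 hfz
  apply hyf
  rw [← heq, T.mem_Kst (i + 1 + 1) hi hsp'' l' hl'] at hy
  refine HomOn.smul_eq_of_comm hf (T.hY _ hi1 ((T.mem_Yst l' y).1 hy.1).1) fun w hw => ?_
  rw [← commutatorElement_inv]
  exact hfR _ (inv_mem (hy.2 w hw))

end Tower

end FT
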