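import Mathlib
import Pool.Agent.helper11.FT.Defs
import Pool.Agent.helper11.FT.HomBasic
import Pool.Agent.helper11.FT.Glaub
import Pool.Agent.helper11.FT.PickAb
import Pool.Agent.helper11.FT.Pick

/-! # FT-Pick2: the pick lemma for two consecutive elementary abelian sections -/

namespace FT

universe u v

open scoped commutatorElement

private theorem pk2_conj {Γ : Type u} [Group Γ] {P : Subgroup Γ} {g x : Γ} (hg : g ∈ Nrm P)
    (hx : x ∈ P) : g * x * g⁻¹ ∈ P :=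
  (Subgroup.mem_normalizer_iff.1 hg x).1 hx

private theorem pk2_conj' {Γ : Type u} [Group Γ] {P : Subgroup Γ} {g x : Γ} (hg : g ∈ Nrm P)
    (hx : x ∈ P) : g⁻¹ * x * g ∈ P := by
  have h := pk2_conj (inv_mem hg) hx
  rwa [inv_inv] at h

private theorem pk2_nrm {Γ : Type u} [Group Γ] {P N : Subgroup Γ}
    (h : ∀ g ∈ N, ∀ x ∈ P, g * x * g⁻¹ ∈ P) : N ≤ Nrm P := by
  intro g hg
  rw [Subgroup.mem_normalizer_iff]
  intro x
  refine ⟨fun hx => h g hg x hx, fun hx => ?_⟩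
  have h1 := h g⁻¹ (inv_mem hg) _ hx
  have h2 : g⁻¹ * (g * x * g⁻¹) * g⁻¹⁻¹ = x := by group
  rwa [h2] at h1

/-- The double pick lemma. `R` is an `r`-group, `Q ≤ D ≤ R`, `R/D` and `D/Q` are elementary abelian,
`⁅R,D⁆ ≤ Q`, `M` normalises `R`, `D`, `Q` and has order prime to `r`. `β : R/D → F_r` is trivial on the
stabilizer of `η` in `R` and `lam : D/Q → F_r` is trivial on the stabilizer of `η` in `D`. Let
`M1 = {m ∈ M | m η ∈ R η}`. Then there are points `η₀, η'` in `R η` such that `M1` fixes `η₀` and the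
stabilizer of `η'` in `M` is the stabilizer of `(β, lam)` in `M1`.

PROOF. Follow the proof of `pick` (copy it) for `R0 = D`: `M1`, `η₀ = r0 • η` fixed by `M1` (`glaub`), `C` the
stabilizer of `η₀` in `R`, `A = D ⊔ C`, normal in `R` and normalised by `M1`, `β` is trivial on `A`;
`x ∈ R` from `pickAb` with `x⁻¹ (m x m⁻¹) ∈ A ↔ m • β = β` for `m ∈ M1`; `M2 = {m ∈ M1 | m • β = β}`;
`glaub` for `A`, `M2` gives `a' ∈ A` such that `η1 = a' • x • η₀` is fixed by `M2`. Now apply `pick` itself with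
`R := D`, `R0 := Q`, `M := M2`, `η := η1`, `β := lam`: an element `z ∈ D` fixing `η1 = g • η` (`g ∈ R`) gives
`g⁻¹ z g ∈ D` fixing `η`, so `lam (g⁻¹ z g) = 0`, and `lam (g⁻¹ z g) = lam z` because `⁅R,D⁆ ≤ Q`. One gets
`η' = d • η1`, `d ∈ D`, and for `m ∈ M2` (which fixes `η1`): `m • η' = η' ↔ m • lam = lam`.
Conversely let `m ∈ M` fix `η' = (d a' x) • η₀`. Then `m ∈ M1` and `m (d a' x) m⁻¹ ∈ (d a' x) C`; as `d a' ∈ A`, `A` is
normal in `R`, contains `C` and is normalised by `m`, this gives `x⁻¹ m x m⁻¹ ∈ A`, so `m • β = β`, `m ∈ M2`,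
so `m • lam = lam`. -/
theorem pick2 {Γ : Type u} [Group Γ] [Finite Γ] {Ω : Type v} [MulAction Γ Ω]
    (r : ℕ) [Fact r.Prime] (R D Q M : Subgroup Γ) (hR : IsPGroup r R)
    (hM : M ≤ Nrm R) (hMD : M ≤ Nrm D) (hMQ : M ≤ Nrm Q) (hDR : D ≤ R) (hQD : Q ≤ D)
    (hRD : R ≤ Nrm D) (hRQ : R ≤ Nrm Q)
    (hpow : ∀ x ∈ R, x ^ r ∈ D) (hcomm : ∀ x ∈ R, ∀ y ∈ R, ⁅x, y⁆ ∈ D)
    (hpowD : ∀ x ∈ D, x ^ r ∈ Q) (hcen : ∀ z ∈ D, ∀ x ∈ R, ⁅z, x⁆ ∈ Q)
    (hc : r.Coprime (Nat.card M)) (η : Ω)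
    (β : CF Γ (ZMod r)) (hβ : β ∈ HomOn (ZMod r) R D) (hβη : ∀ x ∈ R, x • η = η → β x = 0)
    (lam : CF Γ (ZMod r)) (hlam : lam ∈ HomOn (ZMod r) D Q)
    (hlη : ∀ x ∈ D, x • η = η → lam x = 0) :
    ∃ η₀ η' : Ω, (∃ x ∈ R, η₀ = x • η) ∧ (∃ x ∈ R, η' = x • η) ∧
      (∀ m ∈ M, (∃ x ∈ R, m • η = x • η) → m • η₀ = η₀) ∧
      (∀ m ∈ M, (m • η' = η' ↔ ((∃ x ∈ R, m • η = x • η) ∧ m • β = β ∧ m • lam = lam))) := by
  obtain ⟨hβ0, hβadd, hβR0⟩ := mem_HomOn.1 hβ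
  obtain ⟨hl0, hladd, hlQ⟩ := mem_HomOn.1 hlam
  let M1 : Subgroup Γ :=
    { carrier := {m | m ∈ M ∧ ∃ x ∈ R, m • η = x • η}
      one_mem' := ⟨M.one_mem, 1, R.one_mem, rfl⟩
      mul_mem' := by
        rintro a b ⟨ha, x, hx, hax⟩ ⟨hb, y, hy, hby⟩
        refine ⟨M.mul_mem ha hb, a * y * a⁻¹ * x, R.mul_mem (pk2_conj (hM ha) hy) hx, ?_⟩
        rw [mul_smul, hby, mul_smul, ← hax, ← mul_smul, ← mul_smul]
        congr 1
        group
      inv_mem' := by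
        rintro a ⟨ha, x, hx, hax⟩
        refine ⟨M.inv_mem ha, a⁻¹ * x⁻¹ * a, pk2_conj' (hM ha) (R.inv_mem hx), ?_⟩
        rw [mul_smul, hax, ← mul_smul]
        congr 1
        group }
  have hM1M : M1 ≤ M := fun m hm => hm.1
  have hco : ∀ P Q : Subgroup Γ, P ≤ R → Q ≤ M → (Nat.card P).Coprime (Nat.card Q) := by
    intro P Q hP hQ
    obtain ⟨n, hn⟩ := IsPGroup.iff_card.1 hR
    have h1 : (Nat.card R).Coprime (Nat.card M) := by
      rw [hn]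
      exact Nat.Coprime.pow_left n hc
    exact Nat.Coprime.of_dvd (Subgroup.card_dvd_of_le hP) (Subgroup.card_dvd_of_le hQ) h1
  have hsol : ∀ P : Subgroup Γ, P ≤ R → Group.IsSolvable P := by
    intro P hP
    have h1 : IsPGroup r P := hR.to_le hP
    have h2 := h1.isNilpotent
    infer_instance
  obtain ⟨r0, hr0, hfix0⟩ := glaub R M1 (hM1M.trans hM) (hsol R le_rfl) (hco R M1 le_rfl hM1M) η
    (fun m hm => hm.2)
  let C : Subgroup Γ := R ⊓ MulAction.stabilizer Γ (r0 • η)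
  have hCR : C ≤ R := inf_le_left
  have hCmem : ∀ g, g ∈ C ↔ g ∈ R ∧ g • (r0 • η) = r0 • η := fun g => Iff.rfl
  have hβ1 : β 1 = 0 := hβR0 1 D.one_mem
  have hβconj : ∀ g ∈ R, ∀ y ∈ R, β (g⁻¹ * y * g) = β y := by
    intro g hg y hy
    have hg' := R.inv_mem hg
    have h1 := hβadd _ (R.mul_mem hg' hy) _ hg
    have h2 := hβadd _ hg' _ hy
    have h3 := hβadd _ hg' _ hg
    rw [inv_mul_cancel, hβ1] at h3
    rw [h1, h2]
    calc β g⁻¹ + β y + β g = (β g⁻¹ + β g) + β y := by ring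
      _ = β y := by rw [← h3, zero_add]
  have hβC : ∀ y ∈ C, β y = 0 := by
    intro y hy
    obtain ⟨hyR, hyf⟩ := (hCmem y).1 hy
    rw [← hβconj r0 hr0 y hyR]
    refine hβη _ (R.mul_mem (R.mul_mem (R.inv_mem hr0) hyR) hr0) ?_
    rw [mul_smul, mul_smul, hyf, ← mul_smul, inv_mul_cancel, one_smul]
  let A : Subgroup Γ := D ⊔ C
  have hR0A : D ≤ A := le_sup_left
  have hCA : C ≤ A := le_sup_right
  have hAR : A ≤ R := sup_le hDR hCR
  have hRA : R ≤ Nrm A := by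
    refine pk2_nrm fun g hg y hy => ?_
    have h1 := hcomm g hg y (hAR hy)
    have h2 : g * y * g⁻¹ = ⁅g, y⁆ * y := by
      rw [commutatorElement_def]
      group
    rw [h2]
    exact A.mul_mem (hR0A h1) hy
  have hMC : ∀ m ∈ M1, ∀ y ∈ C, m * y * m⁻¹ ∈ C := by
    intro m hm y hy
    obtain ⟨hyR, hyf⟩ := (hCmem y).1 hy
    refine (hCmem _).2 ⟨pk2_conj (hM hm.1) hyR, ?_⟩
    have h1 : m⁻¹ • (r0 • η) = r0 • η := hfix0 m⁻¹ (M1.inv_mem hm)
    rw [mul_smul, mul_smul, h1, hyf, hfix0 m hm]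
  have hMA : M1 ≤ Nrm A := by
    refine pk2_nrm fun m hm => ?_
    have h1 : A ≤ A.comap (MulAut.conj m).toMonoidHom := by
      refine sup_le (fun y hy => ?_) (fun y hy => ?_)
      · exact hR0A (pk2_conj (hMD hm.1) hy)
      · exact hCA (hMC m hm y hy)
    exact fun y hy => h1 hy
  have hβA : ∀ y ∈ A, β y = 0 := by
    let Kr : Subgroup Γ :=
      { carrier := {y | y ∈ R ∧ β y = 0}
        one_mem' := ⟨R.one_mem, hβ1⟩
        mul_mem' := by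
          rintro a b ⟨ha, ha'⟩ ⟨hb, hb'⟩
          refine ⟨R.mul_mem ha hb, ?_⟩
          rw [hβadd a ha b hb, ha', hb', add_zero]
        inv_mem' := by
          rintro a ⟨ha, ha'⟩
          refine ⟨R.inv_mem ha, ?_⟩
          have h3 := hβadd _ (R.inv_mem ha) _ ha
          rw [inv_mul_cancel, hβ1, ha', add_zero] at h3
          exact h3.symm }
    have h1 : A ≤ Kr := sup_le (fun y hy => ⟨hDR hy, hβR0 y hy⟩) (fun y hy => ⟨hCR hy, hβC y hy⟩)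
    exact fun y hy => (h1 hy).2
  obtain ⟨x, hx, hxm⟩ := pickAb r R A M1 hAR (hM1M.trans hM) hMA hRA
    (fun y hy => hR0A (hpow y hy)) (fun y hy z hz => hR0A (hcomm y hy z hz))
    (Nat.Coprime.of_dvd_right (Subgroup.card_dvd_of_le hM1M) hc) β
    (mem_HomOn.2 ⟨hβ0, hβadd, hβA⟩)
  let M2 : Subgroup Γ := M1 ⊓ MulAction.stabilizer Γ β
  have hM21 : M2 ≤ M1 := inf_le_left
  have hM2M : M2 ≤ M := hM21.trans hM1M
  obtain ⟨a', ha', hfix1⟩ := glaub A M2 (hM21.trans hMA) (hsol A hAR)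
    (hco A M2 hAR hM2M) (x • (r0 • η)) (by
      intro m hm
      have hm1 : m ∈ M1 := hM21 hm
      have hmβ : m • β = β := hm.2
      have h1 := (hxm m hm1).2 hmβ
      refine ⟨x * (x⁻¹ * (m * x * m⁻¹)) * x⁻¹, pk2_conj (hRA hx) h1, ?_⟩
      have h2 : m • (x • (r0 • η)) = (m * x * m⁻¹) • (m • (r0 • η)) := by
        rw [← mul_smul m x, ← mul_smul (m * x * m⁻¹) m]
        congr 1
        group
      rw [h2, hfix0 m hm1, ← mul_smul (x * (x⁻¹ * (m * x * m⁻¹)) * x⁻¹) x]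
      congr 1
      group)
  have hgR : a' * x * r0 ∈ R := R.mul_mem (R.mul_mem (hAR ha') hx) hr0
  have hg1 : a' • (x • (r0 • η)) = (a' * x * r0) • η := by rw [mul_smul, mul_smul]
  have hl1 : lam 1 = 0 := hlQ 1 Q.one_mem
  -- the second pick, inside D
  obtain ⟨η₂, η', -, ⟨d, hd, hη'⟩, -, hpick⟩ := pick r D Q M2 (hR.to_le hDR) (hM2M.trans hMD)
    (hM2M.trans hMQ) hQD (hDR.trans hRQ) hpowD (fun z hz y hy => hcen z hz y (hDR hy))
    (Nat.Coprime.of_dvd_right (Subgroup.card_dvd_of_le hM2M) hc) (a' • (x • (r0 • η))) lam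
    (mem_HomOn.2 ⟨hl0, hladd, hlQ⟩) (by
      intro z hz hzf
      rw [hg1] at hzf
      have hg := hgR
      generalize a' * x * r0 = g at hzf hg
      have h1 : g⁻¹ * z * g ∈ D := pk2_conj' (hRD hg) hz
      have h2 : lam (g⁻¹ * z * g) = 0 := by
        refine hlη _ h1 ?_
        rw [mul_smul, mul_smul, hzf, ← mul_smul, inv_mul_cancel, one_smul]
      have h3 : g⁻¹ * z * g = z * ⁅z⁻¹, g⁻¹⁆ := by
        rw [commutatorElement_def]
        group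
      have h4 : ⁅z⁻¹, g⁻¹⁆ ∈ Q := hcen _ (D.inv_mem hz) _ (R.inv_mem hg)
      rw [h3, hladd z hz _ (hQD h4), hlQ _ h4, add_zero] at h2
      exact h2)
  have hdA : d * a' ∈ A := A.mul_mem (hR0A hd) ha'
  have hη2 : η' = (d * a') • (x • (r0 • η)) := by rw [hη', mul_smul d a']
  generalize d * a' = b at hdA hη2
  have hyR : b * x * r0 ∈ R := R.mul_mem (R.mul_mem (hAR hdA) hx) hr0
  have hy : b • (x • (r0 • η)) = (b * x * r0) • η := by rw [mul_smul, mul_smul]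
  refine ⟨r0 • η, η', ⟨r0, hr0, rfl⟩, ⟨_, hyR, by rw [hη2, hy]⟩,
    fun m hm hmo => hfix0 m ⟨hm, hmo⟩, fun m hm => ⟨fun hmf' => ?_, ?_⟩⟩
  · have hmf := hmf'
    rw [hη2] at hmf
    have hm1 : m ∈ M1 := by
      refine ⟨hm, m * (b * x * r0)⁻¹ * m⁻¹ * (b * x * r0),
        R.mul_mem (pk2_conj (hM hm) (R.inv_mem hyR)) hyR, ?_⟩
      rw [mul_smul, ← hy]
      rw [← hmf]
      rw [← mul_smul, hy, ← mul_smul]
      congr 1
      group
    have hmβ : m • β = β := by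
      rw [← hxm m hm1]
      have h1 : (b * x)⁻¹ * (m * (b * x) * m⁻¹) ∈ C := by
        have haxR : b * x ∈ R := R.mul_mem (hAR hdA) hx
        refine (hCmem _).2 ⟨R.mul_mem (R.inv_mem haxR) (pk2_conj (hM hm) haxR), ?_⟩
        have h2 : m⁻¹ • (r0 • η) = r0 • η := hfix0 m⁻¹ (M1.inv_mem hm1)
        rw [mul_smul, mul_smul, h2, mul_smul, mul_smul b x, hmf, inv_smul_eq_iff, mul_smul]
      have h2 : b⁻¹ * (m * b * m⁻¹) ∈ A := A.mul_mem (A.inv_mem hdA) (pk2_conj (hMA hm1) hdA)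
      have h3 : x⁻¹ * (b⁻¹ * (m * b * m⁻¹)) * x ∈ A := pk2_conj' (hRA hx) h2
      have h4 : x⁻¹ * (m * x * m⁻¹) = (x⁻¹ * (b⁻¹ * (m * b * m⁻¹)) * x)⁻¹ *
          ((b * x)⁻¹ * (m * (b * x) * m⁻¹)) := by group
      rw [h4]
      exact A.mul_mem (A.inv_mem h3) (hCA h1)
    exact ⟨hm1.2, hmβ, ((hpick m ⟨hm1, hmβ⟩).1 hmf').2⟩
  · rintro ⟨hmo, hmβ, hml⟩
    have hm2 : m ∈ M2 := ⟨⟨hm, hmo⟩, hmβ⟩
    refine (hpick m hm2).2 ⟨⟨1, D.one_mem, ?_⟩, hml⟩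
    rw [one_smul]
    exact hfix1 m hm2

end FT
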