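import Mathlib
import Pool.Agent.helper11.FT.Defs
import Pool.Agent.helper11.FT.HomBasic
import Pool.Agent.helper11.FT.Pick
import Pool.Agent.helper11.FT.Pick2
import Pool.Agent.helper11.FT.Tower
import Pool.Agent.helper11.FT.TS0
import Pool.Agent.helper11.FT.TSs
import Pool.Agent.helper11.FT.TS
import Pool.Agent.helper11.FT.TS2
import Pool.Agent.helper11.FT.TS3
import Pool.Agent.helper11.FT.NpB
import Pool.Agent.helper11.FT.GoodL
import Pool.Agent.helper11.FT.RadB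
import Pool.Agent.helper11.FT.Compat
import Pool.Agent.helper11.FT.OL
import Pool.Agent.helper11.FT.Kst
import Pool.Agent.helper11.FT.Key
import Pool.Agent.helper11.FT.Chain

/-! # FT-Step: one step from a state to a state -/

namespace FT

universe u v

open scoped commutatorElement

namespace TowerCore

variable {Γ : Type u} [Group Γ] [Finite Γ] (T : TowerCore Γ)

/-- good states -/
def GoodSt (i : ℕ) (l b : CF Γ (ZMod (T.p i))) : Prop :=
  T.p i = T.p 0 ∨ T.p (i + 1) = T.p 0 ∨ ∃ u ∈ T.Np i, ¬ (u • l = l ∧ u • b = b)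

/-- no nonzero function fixed by the kernel of `l` is fixed by the stabilizer of the state -/
def NoFix (i : ℕ) (l b : CF Γ (ZMod (T.p i))) : Prop :=
  ∀ f ∈ T.H (i + 1), f ≠ 0 → (∀ z ∈ T.Z i, l z = 0 → z • f = f) →
    ∃ y ∈ T.Yst (l, b), y • f ≠ f

theorem mem_Yst2 (i : ℕ) (l b : CF Γ (ZMod (T.p i))) (y : Γ) :
    y ∈ T.Yst (l, b) ↔ y ∈ T.Y ∧ y • l = l ∧ y • b = b := by
  rw [T.mem_Yst, Prod.smul_mk, Prod.mk.injEq]

/-- the stabilizer of a state satisfying `NoFix` is not trivial -/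
theorem Yst2_ne_bot (i : ℕ) (l b : CF Γ (ZMod (T.p i))) (hl : T.Occ i l) (hn : T.NoFix i l b) :
    T.Yst (l, b) ≠ ⊥ := by
  intro hbot
  obtain ⟨-, -, f, hf, hf0, hfix⟩ := hl
  obtain ⟨y, hy, hyf⟩ := hn f hf hf0 hfix
  rw [hbot, Subgroup.mem_bot] at hy
  rw [hy, one_smul] at hyf
  exact hyf rfl

end TowerCore

namespace Tower

variable {Γ : Type u} [Group Γ] [Finite Γ] (T : Tower Γ)

/-- good states at abelian levels -/
theorem noFix_ab (i : ℕ) (hi : i < T.n) (hab : T.Ab i) (l b : CF Γ (ZMod (T.p i)))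
    (hst : T.St i l b) (hg : T.GoodSt i l b) : T.NoFix i l b := by
  intro f hf hf0 hfix
  by_contra hcon
  push Not at hcon
  have hb : b = l := hst.ab hab
  obtain ⟨k1, k2, k3, -⟩ := T.goodG i hi l hst.occ.1 hst.occ.2.1 f hf hf0 hfix
    (fun y hy hyl => hcon y ((T.mem_Yst2 i l b y).2 ⟨hy, hyl, by rw [hb]; exact hyl⟩))
  rcases hg with h | h | ⟨u, hu, hul⟩
  · exact k2 h
  · exact k1 h
  · exact hul ⟨k3 u hu, by rw [hb]; exact k3 u hu⟩

/-- good states at special levels are GOOD_C -/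
theorem goodC_of_goodSt (i : ℕ) (hi : i < T.n) (hsp : ¬ T.Ab i) (l b : CF Γ (ZMod (T.p i)))
    (hst : T.St i l b) (hg : T.GoodSt i l b) : T.GoodC i l := by
  rintro ⟨h1, h2, h3, h4⟩
  rcases hg with h | h | ⟨u, hu, hul⟩
  · exact h1 h
  · exact h2 h
  · refine hul ⟨h3 u hu, ?_⟩
    refine HomOn.smul_eq_of_comm hst.mem ((T.Np_nrm i i le_rfl hi.le).1 hu) fun w hw => ?_
    rw [← commutatorElement_inv]
    exact hst.sp hsp _ (inv_mem (h4 u hu w hw))

/-- good states at special levels above a long run of special levels -/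
theorem noFix_sp (k n0 : ℕ) (hk1 : 1 ≤ k) (hk : (Nat.card T.Y).primeFactorsList.length ≤ k)
    (hb : Bd k n0) (i : ℕ) (hi : i + 1 < T.n) (hsp : ¬ T.Ab i) (hsp' : ¬ T.Ab (i + 1))
    (l0 : CF Γ (ZMod (T.p i))) (hl0 : T.Occ i l0)
    (hN : n0 ^ 2 * Nat.card (T.Rad i l0) ≤ Nat.card (T.P i))
    (l b : CF Γ (ZMod (T.p (i + 1)))) (hst : T.St (i + 1) l b) (hg : T.GoodSt (i + 1) l b) :
    T.NoFix (i + 1) l b := by
  intro f hf hf0 hfix
  obtain ⟨y, hy, hyf⟩ := T.key k n0 hk1 hk hb i hi hsp hsp' l0 hl0 hN l hst.occ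
    (T.goodC_of_goodSt (i + 1) hi hsp' l b hst hg) f hf hf0 hfix
  obtain ⟨h1, h2⟩ := (T.mem_Kst (i + 1) hi hsp' l hst.occ y).1 hy
  rw [T.mem_Yst] at h1
  refine ⟨y, (T.mem_Yst2 (i + 1) l b y).2 ⟨h1.1, h1.2, ?_⟩, hyf⟩
  refine HomOn.smul_eq_of_comm hst.mem (T.hY (i + 1) hi.le h1.1) fun w hw => ?_
  rw [← commutatorElement_inv]
  exact hst.sp hsp' _ (inv_mem (h2 w hw))

/-- STEP. From a good state at level `i` and a linked state at level `i+1` to a conjugate (under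
`P i`) of the latter, which is good and has a smaller stabilizer. -/
theorem step (i : ℕ) (hi : i + 1 < T.n) (l b : CF Γ (ZMod (T.p i))) (hst : T.St i l b)
    (hg : T.GoodSt i l b) (l' b' : CF Γ (ZMod (T.p (i + 1)))) (hst' : T.St (i + 1) l' b')
    (hlk : T.Link i l b b') :
    ∃ x ∈ T.P i, T.GoodSt (i + 1) (x • l') (x • b') ∧
      T.Yst (x • l', x • b') ≤ T.Yst (l, b) ∧
      (T.NoFix i l b → T.Yst (x • l', x • b') ≠ T.Yst (l, b)) := by
  have hi' : i < T.n := by omega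
  have _ : Fact (T.p i).Prime := ⟨T.hp i hi'.le⟩
  have _ : Fact (T.p (i + 1)).Prime := ⟨T.hp (i + 1) hi.le⟩
  obtain ⟨hLk, hLb⟩ := hlk
  have hl1 := hst.occ.1
  obtain ⟨hQZ, hDZ, hZP, hZc, hZpow, hZQ, hZY, hZj⟩ := T.Z_prop i hi'.le
  have hPl : ∀ x ∈ T.P i, x • l = l := fun x hx =>
    HomOn.smul_eq_of_comm hl1 (hZj i le_rfl hx) fun w hw => by
      apply hl1.2.2
      rw [← commutatorElement_inv]
      exact inv_mem (hZc (Subgroup.commutator_mem_commutator hw hx))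
  have hnP : ∀ x ∈ T.P i, x ∈ Nrm (kerH (T.Z i) l) := fun x hx =>
    mem_nrm_kerH hl1 (hZj i le_rfl hx) (hPl x hx)
  have havg : avg (ZMod (T.p (i + 1))) (kerH (T.Z i) l) b' ≠ 0 :=
    (T.Lk_iff i hi' l hl1 b' hst'.mem).1 hLk
  -- the acting group
  obtain ⟨M, hYM, hNM, hMP, hMQ, hMD, hMc⟩ : ∃ M : Subgroup Γ, T.Y ≤ M ∧
      (T.p i ≠ T.p 0 → T.Np i ≤ M) ∧ M ≤ Nrm (T.P i) ∧ M ≤ Nrm (T.Q i) ∧ M ≤ Nrm (T.D i) ∧
      (T.p i).Coprime (Nat.card M) := by
    by_cases hp : T.p i = T.p 0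
    · exact ⟨T.Y, le_rfl, fun h => absurd hp h, T.hY i hi'.le, T.Y_nrm_Q i hi'.le,
        T.Y_nrm_D i hi'.le, T.cop i hi'.le⟩
    · refine ⟨T.Np i ⊔ T.Y, le_sup_right, fun _ => le_sup_left,
        sup_le (T.Np_nrm i i le_rfl hi'.le).1 (T.hY i hi'.le),
        sup_le (T.Np_nrm i i le_rfl hi'.le).2.1 (T.Y_nrm_Q i hi'.le),
        sup_le (T.Np_nrm i i le_rfl hi'.le).2.2.1 (T.Y_nrm_D i hi'.le),
        T.card_Np_sup_Y i hi'.le (T.p i) (T.hp i hi'.le) hp (T.cop i hi'.le)⟩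
  -- the pick
  obtain ⟨η₀, η', ⟨x0, hx0, hη₀⟩, ⟨x1, hx1, hη'⟩, hfix, hstab⟩ :
      ∃ η₀ η' : CF Γ (ZMod (T.p (i + 1))) × CF Γ (ZMod (T.p (i + 1))),
        (∃ x ∈ T.P i, η₀ = x • (l', b')) ∧ (∃ x ∈ T.P i, η' = x • (l', b')) ∧
        (∀ m ∈ M, (∃ x ∈ T.P i, m • (l', b') = x • (l', b')) → m • η₀ = η₀) ∧
        (∀ m ∈ M, (m • η' = η' ↔
          ((∃ x ∈ T.P i, m • (l', b') = x • (l', b')) ∧ m • b = b ∧ m • l = l))) := by
    have hsnd : ∀ x : Γ, x • (l', b') = (l', b') → x • b' = b' := fun x hx =>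
      congrArg Prod.snd hx
    by_cases hab : T.Ab i
    · have hZ : T.Z i = T.P i := T.Z_eq_of_Ab i hab
      have hb : b = l := hst.ab hab
      have hl2 : l ∈ HomOn (ZMod (T.p i)) (T.P i) (T.Q i) := by rw [← hZ]; exact hl1
      obtain ⟨η₀, η', h1, h2, h3, h4⟩ := pick (T.p i) (T.P i) (T.Q i) M
        (T.hP i hi'.le) hMP hMQ (T.Q_le i hi'.le) (T.P_nrm_Q i i le_rfl hi'.le)
        (fun x hx => hZpow x (by rw [hZ]; exact hx))
        (fun x hx y hy => hab (Subgroup.commutator_mem_commutator hx hy)) hMc (l', b') l hl2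
        (fun x hx hxη => by
          have := hLb x hx (hsnd x hxη)
          rwa [hb] at this)
      refine ⟨η₀, η', h1, h2, h3, fun m hm => ?_⟩
      rw [h4 m hm, hb]
      tauto
    · have hZ : T.Z i = T.D i := T.Z_eq_of_not_Ab i hab
      obtain ⟨i0, rfl⟩ : ∃ i0, i = i0 + 1 := by
        cases i with
        | zero => exact absurd T.level0.1 hab
        | succ i0 => exact ⟨i0, rfl⟩
      obtain ⟨hs1, hs2, hs3, hs4, hs5⟩ := T.struct i0 (by omega)
      refine pick2 (T.p (i0 + 1)) (T.P (i0 + 1)) (T.D (i0 + 1)) (T.Q (i0 + 1)) M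
        (T.hP (i0 + 1) hi'.le) hMP hMD hMQ (T.D_le (i0 + 1) hi'.le) (T.Q_le_D (i0 + 1))
        (T.P_nrm_D (i0 + 1) (i0 + 1) le_rfl hi'.le) (T.P_nrm_Q (i0 + 1) (i0 + 1) le_rfl hi'.le)
        hs4 (fun x hx y hy =>
          Subgroup.mem_sup_left (Subgroup.commutator_mem_commutator hx hy)) hs5
        (fun z hz x hx => hs3 (Subgroup.commutator_mem_commutator hz hx)) hMc (l', b') b ?_
        (fun x hx hxη => hLb x hx (hsnd x hxη)) l ?_ ?_
      · have h1 := hst.mem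
        have h : T.H (i0 + 1) =
            HomOn (ZMod (T.p (i0 + 1))) (T.P (i0 + 1)) (T.D (i0 + 1)) :=
          HomOn_eq (T.Q_le (i0 + 1) hi'.le)
        rwa [h] at h1
      · rw [← hZ]
        exact hl1
      · intro x hx hxη
        exact T.Lk_zero (i0 + 1) hi' l hl1 b' hst'.mem hLk x (by rw [hZ]; exact hx) (hsnd x hxη)
  have hη'' : (x1 • l', x1 • b') = η' := by
    rw [hη', Prod.smul_mk]
  have hYmem : ∀ y, y ∈ T.Yst (x1 • l', x1 • b') → y ∈ T.Y ∧ y • η' = η' := by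
    intro y hy
    rw [hη''] at hy
    exact (T.mem_Yst η' y).1 hy
  have hle : ∀ y ∈ T.Y, y • η' = η' → y • l = l ∧ y • b = b := fun y hy h =>
    ⟨((hstab y (hYM hy)).1 h).2.2, ((hstab y (hYM hy)).1 h).2.1⟩
  refine ⟨x1, hx1, ?_, ?_, ?_⟩
  · -- goodness
    by_contra hng
    unfold TowerCore.GoodSt at hng
    push Not at hng
    obtain ⟨hg1, -, hg3⟩ := hng
    have hg3' : ∀ u ∈ T.Np (i + 1), u • η' = η' := by
      intro u hu
      rw [← hη'', Prod.smul_mk, (hg3 u hu).1, (hg3 u hu).2]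
    by_cases hp : T.p i = T.p 0
    · -- `P i` fixes `b'`
      have h1 : ∀ x ∈ T.P i, x • b' = b' := by
        intro x hx
        have h2 := (hg3 (x1 * x * x1⁻¹) (T.P_le_Np i (i + 1) (Nat.le_succ i) hp
          ((T.P i).mul_mem ((T.P i).mul_mem hx1 hx) ((T.P i).inv_mem hx1)))).2
        rw [← mul_smul, inv_mul_cancel_right, mul_smul] at h2
        exact MulAction.injective x1 h2
      apply havg
      refine T.nofix i hi' _ ?_ fun z hz => ?_
      · have hkP : kerH (T.Z i) l ≤ T.P i := fun z hz => hZP ((mem_kerH hl1).1 hz).1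
        exact avg_mem_HomOn _ (hkP.trans (T.P_nrm_P (i + 1) i (Nat.le_succ i) hi.le))
          (hkP.trans (T.P_nrm_Q (i + 1) i (Nat.le_succ i) hi.le)) hst'.mem
      · rw [← avg_smul _ z (hnP z (hZP hz)), h1 z (hZP hz)]
    · rcases hg with h | h | ⟨u, hu, hul⟩
      · exact hp h
      · exact hg1 h
      · have h2 := ((hstab u (hNM hp hu)).1 (hg3' u (T.Np_mono i (i + 1) (Nat.le_succ i) hu))).2
        exact hul ⟨h2.2, h2.1⟩
  · intro y hy
    obtain ⟨h1, h2⟩ := hYmem y hy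
    obtain ⟨h3, h4⟩ := hle y h1 h2
    exact (T.mem_Yst2 i l b y).2 ⟨h1, h3, h4⟩
  · intro hnf heq
    have hkP : kerH (T.Z i) l ≤ T.P i := fun z hz => hZP ((mem_kerH hl1).1 hz).1
    have hA : avg (ZMod (T.p (i + 1))) (kerH (T.Z i) l) η₀.2 ∈ T.H (i + 1) := by
      refine avg_mem_HomOn _ (hkP.trans (T.P_nrm_P (i + 1) i (Nat.le_succ i) hi.le))
        (hkP.trans (T.P_nrm_Q (i + 1) i (Nat.le_succ i) hi.le)) ?_
      rw [hη₀]
      exact act_mem_HomOn (T.P_nrm_P (i + 1) i (Nat.le_succ i) hi.le hx0)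
        (T.P_nrm_Q (i + 1) i (Nat.le_succ i) hi.le hx0) hst'.mem
    have hA0 : avg (ZMod (T.p (i + 1))) (kerH (T.Z i) l) η₀.2 ≠ 0 := by
      have e : η₀.2 = x0 • b' := by rw [hη₀]; rfl
      rw [e, avg_smul _ x0 (hnP x0 hx0)]
      intro h0
      apply havg
      have h1 := congrArg (fun g => x0⁻¹ • g) h0
      simpa using h1
    obtain ⟨y, hy, hyf⟩ := hnf _ hA hA0
      (fun z hz hlz => avg_fixed _ _ z ((mem_kerH hl1).2 ⟨hz, hlz⟩))
    apply hyf
    have hyl := ((T.mem_Yst2 i l b y).1 hy).2.1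
    rw [← heq] at hy
    obtain ⟨h1, h2⟩ := hYmem y hy
    have h3 := hfix y (hYM h1) ((hstab y (hYM h1)).1 h2).1
    rw [← avg_smul _ y (mem_nrm_kerH hl1 (hZY h1) hyl)]
    congr 1
    exact congrArg Prod.snd h3

end Tower

end FT
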