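import Mathlib
import Pool.Agent.helper11.FT.Defs
import Pool.Agent.helper11.FT.Bd
import Pool.Agent.helper11.FT.Bd2
import Pool.Agent.helper11.FT.Tower
import Pool.Agent.helper11.FT.TS0
import Pool.Agent.helper11.FT.TSs
import Pool.Agent.helper11.FT.TS
import Pool.Agent.helper11.FT.TS2
import Pool.Agent.helper11.FT.TS3
import Pool.Agent.helper11.FT.RadB
import Pool.Agent.helper11.FT.OL
import Pool.Agent.helper11.FT.AllAb
import Pool.Agent.helper11.FT.Grow2
import Pool.Agent.helper11.FT.Chain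
import Pool.Agent.helper11.FT.ChainEx
import Pool.Agent.helper11.FT.Step

/-! # FT-Len3: the nearly linear bound for the length of a tower -/

namespace FT

universe u v

open scoped commutatorElement

/-- the tower function: `tow 0 = 2 ^ 2 ^ 17`, `tow (t + 1) = 2 ^ tow t` -/
def tow : ℕ → ℕ
  | 0 => 2 ^ 2 ^ 17
  | t + 1 => 2 ^ tow t

/-- lower bounds for the indices of the radicals in a run -/
private def gC : ℕ → ℕ
  | 0 => 2
  | 1 => 9
  | 2 => 27
  | 3 => 729
  | 4 => 3 ^ 27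
  | (t + 5) => 2 ^ 48 * tow t ^ 12

private theorem gC_eq (t : ℕ) : gC (t + 5) = 2 ^ 48 * tow t ^ 12 := rfl

private theorem gC_step (j m : ℕ) (h : gC j ≤ m ^ 2) : gC (j + 1) ≤ 3 ^ m := by
  match j, h with
  | 0, h =>
    have h1 : 2 ≤ m ^ 2 := h
    have h2 : 2 ≤ m := by
      by_contra hc
      have : m ≤ 1 := by omega
      interval_cases m <;> omega
    have h5 : gC (0 + 1) = 3 ^ 2 := rfl
    rw [h5]
    exact Nat.pow_le_pow_right (by norm_num) h2
  | 1, h =>
    have h1 : 9 ≤ m ^ 2 := h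
    have h2 : 3 ≤ m := by
      by_contra hc
      have : m ≤ 2 := by omega
      interval_cases m <;> omega
    have h5 : gC (1 + 1) = 3 ^ 3 := rfl
    rw [h5]
    exact Nat.pow_le_pow_right (by norm_num) h2
  | 2, h =>
    have h1 : 27 ≤ m ^ 2 := h
    have h2 : 6 ≤ m := by
      by_contra hc
      have : m ≤ 5 := by omega
      interval_cases m <;> omega
    have h5 : gC (2 + 1) = 3 ^ 6 := rfl
    rw [h5]
    exact Nat.pow_le_pow_right (by norm_num) h2
  | 3, h =>
    have h1 : 27 ^ 2 ≤ m ^ 2 := h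
    have h2 : 27 ≤ m := by
      by_contra hc
      have h3 : m ≤ 26 := by omega
      have h4 : m ^ 2 ≤ 26 ^ 2 := Nat.pow_le_pow_left h3 2
      omega
    exact Nat.pow_le_pow_right (by norm_num) h2
  | 4, h =>
    have h1 : 3 ^ 27 ≤ m ^ 2 := h
    have h2 : 2 ^ 21 ≤ m := by
      by_contra hc
      have h3 : m ≤ 2 ^ 21 := by omega
      have h4 : m ^ 2 ≤ (2 ^ 21) ^ 2 := Nat.pow_le_pow_left h3 2
      omega
    have h5 : gC (4 + 1) = 2 ^ 48 * tow 0 ^ 12 := gC_eq 0
    have h6 : 2 ^ 48 * tow 0 ^ 12 = 2 ^ (48 + 2 ^ 17 * 12) := by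
      rw [tow, ← pow_mul, ← pow_add]
    rw [h5, h6]
    calc 2 ^ (48 + 2 ^ 17 * 12) ≤ 2 ^ m := Nat.pow_le_pow_right (by norm_num) (by omega)
      _ ≤ 3 ^ m := Nat.pow_le_pow_left (by norm_num) _
  | (t + 5), h =>
    have h1 : 2 ^ 48 * tow t ^ 12 ≤ m ^ 2 := h
    have h2 : 2 ^ 24 * tow t ^ 6 ≤ m := by
      by_contra hc
      have h3 : m < 2 ^ 24 * tow t ^ 6 := by omega
      have h4 : m ^ 2 < (2 ^ 24 * tow t ^ 6) ^ 2 := Nat.pow_lt_pow_left h3 (by norm_num)
      have h5 : (2 ^ 24 * tow t ^ 6) ^ 2 = 2 ^ 48 * tow t ^ 12 := by ring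
      omega
    have h6 : gC (t + 5 + 1) = 2 ^ 48 * (2 ^ tow t) ^ 12 := rfl
    have h7 : 2 ^ 48 * (2 ^ tow t) ^ 12 = 2 ^ (48 + tow t * 12) := by
      rw [← pow_mul, ← pow_add]
    have h8 : 1 ≤ tow t := by
      cases t with
      | zero => exact Nat.one_le_two_pow
      | succ t => exact Nat.one_le_two_pow
    have h9 : tow t ≤ tow t ^ 6 := Nat.le_self_pow (by norm_num) _
    rw [h6, h7]
    calc 2 ^ (48 + tow t * 12) ≤ 2 ^ m := Nat.pow_le_pow_right (by norm_num) (by omega)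
      _ ≤ 3 ^ m := Nat.pow_le_pow_left (by norm_num) _

private theorem gC_big (k t : ℕ) (h : k ≤ tow t) : (2 ^ 24 * k ^ 6) ^ 2 ≤ gC (t + 5) := by
  have h2 : gC (t + 5) = 2 ^ 48 * tow t ^ 12 := rfl
  rw [h2]
  calc (2 ^ 24 * k ^ 6) ^ 2 = 2 ^ 48 * k ^ 12 := by ring
    _ ≤ 2 ^ 48 * tow t ^ 12 := Nat.mul_le_mul_left _ (Nat.pow_le_pow_left h 12)

namespace Tower

variable {Γ : Type u} [Group Γ] [Finite Γ] (T : Tower Γ)

private theorem l3_occ (i : ℕ) (hi : i < T.n) : ∃ l, T.Occ i l := by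
  have hZ := T.Z_prop i hi.le
  obtain ⟨x0, hx0, hx0Q⟩ := SetLike.not_le_iff_exists.1 hZ.2.2.2.2.2.1
  obtain ⟨l0, hl0, -⟩ := T.exists_occ i hi x0 hx0 hx0Q
  exact ⟨l0, hl0⟩

private theorem l3_big (e : ℕ) : ∀ i, i < T.n → e ≤ i → (∀ j, i ≤ j + e → j ≤ i → ¬ T.Ab j) →
    ∀ l, T.Occ i l → gC e * Nat.card (T.Rad i l) ≤ Nat.card (T.P i) := by
  induction e with
  | zero =>
    intro i hi _ hsp l hl
    have hab : ¬ T.Ab i := hsp i (by omega) le_rfl
    have h1 : T.Rad i l ≤ T.P i := (T.Rad_prop i hi.le hab l hl.1).2.1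
    have h2 : T.Rad i l ≠ T.P i := T.Rad_ne i hi.le hab l hl.1 hl.2.1
    obtain ⟨x, hx⟩ := Subgroup.card_dvd_of_le h1
    have hpos : 0 < Nat.card (T.P i) := Nat.card_pos
    have hx2 : 2 ≤ x := by
      by_contra hcon
      have hx1 : x ≤ 1 := by omega
      interval_cases x
      · omega
      · exact h2 (Subgroup.eq_of_le_of_card_ge h1 (by omega))
    have h3 : Nat.card (T.Rad i l) * 2 ≤ Nat.card (T.Rad i l) * x := Nat.mul_le_mul_left _ hx2
    change 2 * Nat.card (T.Rad i l) ≤ Nat.card (T.P i)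
    omega
  | succ e ih =>
    intro i hi he hsp l hl
    obtain ⟨i', rfl⟩ : ∃ i', i = i' + 1 := ⟨i - 1, by omega⟩
    obtain ⟨l0, hl0⟩ := T.l3_occ i' (by omega)
    have h1 := ih i' (by omega) (by omega) (fun j hj hj' => hsp j (by omega) (by omega)) l0 hl0
    obtain ⟨m, hm1, hm2⟩ := T.grow2 i' hi (hsp i' (by omega) (by omega))
      (hsp (i' + 1) (by omega) le_rfl) l0 hl0 l hl
    have h3 : gC e ≤ m ^ 2 := Nat.le_of_mul_le_mul_right (h1.trans hm1) Nat.card_pos
    exact (Nat.mul_le_mul_right _ (gC_step e m h3)).trans hm2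

private theorem l3_nofix (k t : ℕ) (hk : (Nat.card T.Y).primeFactorsList.length = k)
    (ht : k ≤ tow t) (i : ℕ) (hi : i < T.n) (l b : CF Γ (ZMod (T.p i))) (hst : T.St i l b)
    (hg : T.GoodSt i l b)
    (h : T.Ab i ∨ (t + 7 ≤ i ∧ ∀ j, i < j + (t + 7) → j ≤ i → ¬ T.Ab j)) : T.NoFix i l b := by
  have hk1 : 1 ≤ k := hk ▸ T.one_le_omega'
  rcases h with h | ⟨h1, h2⟩
  · exact T.noFix_ab i hi h l b hst hg
  · obtain ⟨i', rfl⟩ : ∃ i', i = i' + 1 := ⟨i - 1, by omega⟩
    obtain ⟨l0, hl0⟩ := T.l3_occ i' (by omega)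
    have h3 := T.l3_big (t + 5) i' (by omega) (by omega)
      (fun j hj hj' => h2 j (by omega) (by omega)) l0 hl0
    exact T.noFix_sp k _ hk1 hk.le (Bd_explicit k hk1) i' hi (h2 i' (by omega) (by omega))
      (h2 (i' + 1) (by omega) le_rfl) l0 hl0 ((Nat.mul_le_mul_right _ (gC_big k t ht)).trans h3)
      l b hst hg

private theorem l3_inv (k t : ℕ) (hk : (Nat.card T.Y).primeFactorsList.length = k)
    (ht : k ≤ tow t) (i : ℕ) (hi : i < T.n) :
    ∃ (l b : CF Γ (ZMod (T.p i))) (e m : ℕ), i + m + 1 = T.n ∧ T.Chain m i l b ∧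
      T.GoodSt i l b ∧ e ≤ t + 7 ∧
      (T.Ab i ∨ (e ≤ i ∧ ∀ j, i < j + e → j ≤ i → ¬ T.Ab j)) ∧
      i + (t + 7) + (t + 7) * ((Nat.card (T.Yst (l, b))).primeFactorsList.length + 1) ≤
        (t + 7) * k + e := by
  induction i with
  | zero =>
    obtain ⟨l, hl, -, hlt⟩ := T.start0 hi
    have hch := (T.toTowerCore.exists_chain (T.n - 1)).1 0 (by omega) T.level0.1 l hl
    refine ⟨l, l, t + 7, T.n - 1, by omega, hch, Or.inl rfl, le_rfl, Or.inl T.level0.1, ?_⟩
    have h1 : T.Yst (l, l) ≤ T.Yst l := fun y hy => by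
      have h := (T.mem_Yst2 0 l l y).1 hy
      exact (T.mem_Yst l y).2 ⟨h.1, h.2.1⟩
    have h2 := omega_le h1
    have h3 := omega_lt hlt
    rw [hk] at h3
    have h4 : (t + 7) * ((Nat.card (T.Yst (l, l))).primeFactorsList.length + 1) ≤ (t + 7) * k :=
      Nat.mul_le_mul_left _ (by omega)
    omega
  | succ i ih =>
    obtain ⟨l, b, e, m, hm, hch, hg, he, hcase, hineq⟩ := ih (by omega)
    obtain ⟨m', rfl⟩ : ∃ m', m = m' + 1 := ⟨m - 1, by omega⟩
    have hst := hch.st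
    obtain ⟨-, l', b', hch', hlk⟩ := hch
    obtain ⟨x, hx, hg', hle, hne⟩ := T.step i hi l b hst hg l' b' hch'.st hlk
    have hch'' := T.toTowerCore.Chain_smul m' (i + 1) i (by omega) (Nat.le_succ i) x hx l' b' hch'
    have hom := omega_le hle
    by_cases hstr : T.Ab i ∨ (t + 7 ≤ i ∧ ∀ j, i < j + (t + 7) → j ≤ i → ¬ T.Ab j)
    · have hnf := T.l3_nofix k t hk ht i (by omega) l b hst hg hstr
      have hlt := omega_lt (lt_of_le_of_ne hle (hne hnf))
      have h4 : (t + 7) * ((Nat.card (T.Yst (x • l', x • b'))).primeFactorsList.length + 1) +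
          (t + 7) ≤ (t + 7) * ((Nat.card (T.Yst (l, b))).primeFactorsList.length + 1) := by
        rw [← Nat.mul_succ]
        exact Nat.mul_le_mul_left _ (by omega)
      refine ⟨x • l', x • b', 1, m', by omega, hch'', hg', by omega, ?_, by omega⟩
      by_cases hab : T.Ab (i + 1)
      · exact Or.inl hab
      · refine Or.inr ⟨by omega, fun j hj hj' => ?_⟩
        have : j = i + 1 := by omega
        rw [this]
        exact hab
    · have hab : ¬ T.Ab i := fun h => hstr (Or.inl h)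
      rcases hcase with h | ⟨h1, h2⟩
      · exact absurd h hab
      have he' : e + 1 ≤ t + 7 := by
        by_contra hcon
        have : e = t + 7 := by omega
        rw [this] at h1 h2
        exact hstr (Or.inr ⟨h1, h2⟩)
      have h4 : (t + 7) * ((Nat.card (T.Yst (x • l', x • b'))).primeFactorsList.length + 1) ≤
          (t + 7) * ((Nat.card (T.Yst (l, b))).primeFactorsList.length + 1) :=
        Nat.mul_le_mul_left _ (by omega)
      refine ⟨x • l', x • b', e + 1, m', by omega, hch'', hg', he', ?_, by omega⟩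
      by_cases hab' : T.Ab (i + 1)
      · exact Or.inl hab'
      · refine Or.inr ⟨by omega, fun j hj hj' => ?_⟩
        rcases Nat.lt_or_ge i j with h | h
        · have : j = i + 1 := by omega
          rw [this]
          exact hab'
        · exact h2 j (by omega) h

/-- THE LENGTH OF A TOWER. -/
theorem length_bound3 (k t : ℕ) (hk : (Nat.card T.Y).primeFactorsList.length = k)
    (ht : k ≤ tow t) : T.n ≤ (k - 1) * (t + 7) := by
  have hk1 : 1 ≤ k := hk ▸ T.one_le_omega'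
  rcases Nat.eq_zero_or_pos T.n with h0 | hn
  · rw [h0]
    exact Nat.zero_le _
  obtain ⟨l, b, e, m, hm, hch, hg, he, hcase, hineq⟩ := T.l3_inv k t hk ht (T.n - 1) (by omega)
  have hst := hch.st
  have h1 : (k - 1) * (t + 7) + (t + 7) = (t + 7) * k := by
    obtain ⟨k', rfl⟩ : ∃ k', k = k' + 1 := ⟨k - 1, by omega⟩
    rw [Nat.add_sub_cancel]
    ring
  by_cases hstr : T.Ab (T.n - 1) ∨
      (t + 7 ≤ T.n - 1 ∧ ∀ j, T.n - 1 < j + (t + 7) → j ≤ T.n - 1 → ¬ T.Ab j)
  · have hnf := T.l3_nofix k t hk ht (T.n - 1) (by omega) l b hst hg hstr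
    have h2 := omega_pos (T.Yst2_ne_bot (T.n - 1) l b hst.occ hnf)
    have h3 : (t + 7) * 2 ≤ (t + 7) * ((Nat.card (T.Yst (l, b))).primeFactorsList.length + 1) :=
      Nat.mul_le_mul_left _ (by omega)
    omega
  · have hab : ¬ T.Ab (T.n - 1) := fun h => hstr (Or.inl h)
    rcases hcase with h | ⟨h1', h2'⟩
    · exact absurd h hab
    have he' : e + 1 ≤ t + 7 := by
      by_contra hcon
      have : e = t + 7 := by omega
      rw [this] at h1' h2'
      exact hstr (Or.inr ⟨h1', h2'⟩)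
    have h3 : (t + 7) * 1 ≤ (t + 7) * ((Nat.card (T.Yst (l, b))).primeFactorsList.length + 1) :=
      Nat.mul_le_mul_left _ (by omega)
    omega

end Tower

end FT
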