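import Mathlib
import Pool.Agent.helper11.FT.Defs
import Pool.Agent.helper11.FT.Glaub

/-! # FT-Syl: invariant Sylow subgroups for a coprime action on a solvable group -/

namespace FT

universe u

open scoped commutatorElement Pointwise

variable {Γ : Type u} [Group Γ] [Finite Γ]

/-- Existence of an `A`-invariant Sylow `p`-subgroup of the solvable group `H`.
PROOF. Let `Γ` act by conjugation on `Subgroup Γ` (`MulAut.conj`, Mathlib: pointwise action of
`ConjAct Γ`, or build the action of `Γ` on `Set Γ` by hand). `o` = the image in `Γ` of a Sylow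
`p`-subgroup of `H`. For `a ∈ A` the group `a o a⁻¹` is again a Sylow subgroup of `H`, conjugate
to `o` by an element of `H`. Apply `glaub` with `R = H`, `M = A`. -/
theorem exists_inv_sylow (H A : Subgroup Γ) (hn : A ≤ Nrm H) (hs : Group.IsSolvable H)
    (hc : (Nat.card H).Coprime (Nat.card A)) (p : ℕ) (hp : p.Prime) :
    ∃ S : Subgroup Γ, S ≤ H ∧ A ≤ Nrm S ∧
      Nat.card S = p ^ (Nat.card H).factorization p := by
  classical
  have := Fact.mk hp
  obtain ⟨P⟩ : Nonempty (Sylow p H) := inferInstance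
  let act : MulAction Γ (Subgroup Γ) :=
    MulAction.compHom (Subgroup Γ) (MulAut.conj : Γ →* MulAut Γ)
  have hact : ∀ (g : Γ) (S : Subgroup Γ), g • S = (MulAut.conj g) • S := fun _ _ => rfl
  have hmem : ∀ (g x : Γ) (S : Subgroup Γ), x ∈ g • S ↔ g⁻¹ * x * g ∈ S := by
    intro g x S
    rw [hact, Subgroup.mem_pointwise_smul_iff_inv_smul_mem, ← map_inv, MulAut.smul_def,
      MulAut.conj_apply, inv_inv]
  have hcards : ∀ (g : Γ) (S : Subgroup Γ), Nat.card (g • S : Subgroup Γ) = Nat.card S :=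
    fun g S => (Nat.card_congr (Subgroup.equivSMul (MulAut.conj g) S).toEquiv).symm
  set o : Subgroup Γ := (P : Subgroup H).map H.subtype with hodef
  have hoH : o ≤ H := by
    rintro _ ⟨y, _, rfl⟩
    exact y.2
  have hcardo : Nat.card o = p ^ (Nat.card H).factorization p := by
    rw [hodef, Subgroup.card_map_of_injective H.subtype_injective]
    exact P.card_eq_multiplicity
  have ho : ∀ m ∈ A, ∃ r ∈ H, m • o = r • o := by
    intro m hm
    have hmH : ∀ x, x ∈ H ↔ m * x * m⁻¹ ∈ H := Subgroup.mem_normalizer_iff.1 (hn hm)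
    have hle : m • o ≤ H := by
      intro x hx
      rw [hmem] at hx
      have h1 := (hmH _).1 (hoH hx)
      have h2 : m * (m⁻¹ * x * m) * m⁻¹ = x := by group
      rwa [h2] at h1
    have hc' : Nat.card ((m • o).subgroupOf H) = p ^ (Nat.card H).factorization p := by
      rw [← hcardo, ← hcards m o]
      exact Nat.card_congr (Subgroup.subgroupOfEquivOfLe hle).toEquiv
    obtain ⟨h, hh⟩ := MulAction.exists_smul_eq H P (Sylow.ofCard _ hc')
    refine ⟨h, h.2, ?_⟩
    have h1 : ((h • P : Sylow p H) : Subgroup H) = (m • o).subgroupOf H := by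
      rw [hh]
      rfl
    rw [Sylow.coe_subgroup_smul] at h1
    have h2 : ∀ y : H, y ∈ (m • o).subgroupOf H ↔ h⁻¹ * y * h ∈ (P : Subgroup H) := by
      intro y
      rw [← h1, Subgroup.mem_pointwise_smul_iff_inv_smul_mem, ← map_inv, MulAut.smul_def,
        MulAut.conj_apply, inv_inv]
    ext x
    rw [hmem (h : Γ)]
    constructor
    · intro hx
      have h3 := (h2 ⟨x, hle hx⟩).1 (Subgroup.mem_subgroupOf.2 hx)
      exact ⟨_, h3, rfl⟩
    · intro hx
      have hxH : x ∈ H := by
        have h4 := H.mul_mem (H.mul_mem h.2 (hoH hx)) (H.inv_mem h.2)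
        have h5 : (h : Γ) * ((h : Γ)⁻¹ * x * h) * (h : Γ)⁻¹ = x := by group
        rwa [h5] at h4
      obtain ⟨y, hy, hyx⟩ := hx
      have h6 : y = h⁻¹ * ⟨x, hxH⟩ * h := Subtype.ext hyx
      rw [h6] at hy
      exact Subgroup.mem_subgroupOf.1 ((h2 ⟨x, hxH⟩).2 hy)
  obtain ⟨r, hr, hfix⟩ := glaub H A hn hs hc o ho
  refine ⟨r • o, ?_, ?_, ?_⟩
  · intro x hx
    rw [hmem] at hx
    have h4 := H.mul_mem (H.mul_mem hr (hoH hx)) (H.inv_mem hr)
    have h5 : r * (r⁻¹ * x * r) * r⁻¹ = x := by group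
    rwa [h5] at h4
  · intro m hm
    rw [Subgroup.mem_normalizer_iff]
    intro x
    have h1 : m * x * m⁻¹ ∈ m • (r • o) ↔ x ∈ r • o := by
      rw [hmem m]
      have h5 : m⁻¹ * (m * x * m⁻¹) * m = x := by group
      rw [h5]
    rw [hfix m hm] at h1
    exact h1.symm
  · rw [hcards, hcardo]

end FT
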