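import Mathlib
import Pool.Agent.helper11.FT.Defs
import Pool.Agent.helper11.FT.Glaub
import Pool.Agent.helper11.FT.Syl

/-! # FT-Syl2: invariant Sylow subgroups for a coprime action on a solvable group -/

namespace FT

universe u

open scoped commutatorElement Pointwise

variable {Γ : Type u} [Group Γ] [Finite Γ]

omit [Finite Γ] in
private theorem s2_conj {P : Subgroup Γ} {g x : Γ} (hg : g ∈ Nrm P)
    (hx : x ∈ P) : g * x * g⁻¹ ∈ P :=
  (Subgroup.mem_normalizer_iff.1 hg x).1 hx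

omit [Finite Γ] in
private theorem s2_conj' {P : Subgroup Γ} {g x : Γ} (hg : g ∈ Nrm P)
    (hx : x ∈ P) : g⁻¹ * x * g ∈ P := by
  have h := s2_conj (inv_mem hg) hx
  rwa [inv_inv] at h

omit [Finite Γ] in
private theorem s2_nrm {P N : Subgroup Γ}
    (h : ∀ g ∈ N, ∀ x ∈ P, g * x * g⁻¹ ∈ P) : N ≤ Nrm P := by
  intro g hg
  rw [Subgroup.mem_normalizer_iff]
  intro x
  refine ⟨fun hx => h g hg x hx, fun hx => ?_⟩
  have h1 := h g⁻¹ (inv_mem hg) _ hx
  have h2 : g⁻¹ * (g * x * g⁻¹) * g⁻¹⁻¹ = x := by group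
  rwa [h2] at h1

omit [Finite Γ] in
/-- `A` normalises `H ⊓ Nrm X` -/
private theorem s2_norm {H A X : Subgroup Γ} (hn : A ≤ Nrm H) (hXA : A ≤ Nrm X) :
    A ≤ Nrm (H ⊓ Nrm X) := by
  refine s2_nrm fun g hg x hx => ⟨s2_conj (hn hg) hx.1, ?_⟩
  have h1 : g * x * g⁻¹ ∈ Nrm X :=
    (Nrm X).mul_mem ((Nrm X).mul_mem (hXA hg) hx.2) ((Nrm X).inv_mem (hXA hg))
  exact h1

omit [Finite Γ] in
private theorem s2_sol {H C : Subgroup Γ} (hs : Group.IsSolvable H) (h : C ≤ H) :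
    Group.IsSolvable C :=
  Group.isSolvable_of_isSolvable_injective (Subgroup.inclusion_injective h)

omit [Finite Γ] in
private theorem s2_card (H K : Subgroup Γ) :
    Nat.card (K.subgroupOf H) = Nat.card (K ⊓ H : Subgroup Γ) := by
  rw [← Subgroup.subgroupOf_map_subtype]
  exact (Subgroup.card_map_of_injective H.subtype_injective).symm

/-- every `A`-invariant `p`-subgroup `X` of `H` lies in an `A`-invariant Sylow `p`-subgroup of `H`.
PROOF. Take an `A`-invariant `p`-subgroup `X' ≥ X` of `H` of maximal order. `A` normalises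
`N = N_H(X')`. Let `T` be an `A`-invariant Sylow `p`-subgroup of `N`; the normal `p`-subgroup `X'`
of `N` is contained in `T` (a normal `p`-subgroup is contained in every Sylow subgroup), so
`T = X'` by maximality. If `X'` were not a Sylow `p`-subgroup of `H`, it would be properly
contained in a larger `p`-subgroup in which it is normal (normalizers grow in `p`-groups), so
`p` divides `|N : X'|`, contradicting that `X' = T` is Sylow in `N`. -/
theorem exists_inv_sylow_ge (H A X : Subgroup Γ) (hn : A ≤ Nrm H) (hs : Group.IsSolvable H)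
    (hc : (Nat.card H).Coprime (Nat.card A)) (p : ℕ) (hp : p.Prime)
    (hX : X ≤ H) (hXp : IsPGroup p X) (hXA : A ≤ Nrm X) :
    ∃ S : Subgroup Γ, S ≤ H ∧ A ≤ Nrm S ∧ X ≤ S ∧
      Nat.card S = p ^ (Nat.card H).factorization p := by
  have : Fact p.Prime := ⟨hp⟩
  have hfin : Set.Finite {Y : Subgroup Γ | Y ≤ H ∧ IsPGroup p Y ∧ A ≤ Nrm Y ∧ X ≤ Y} :=
    Set.toFinite _
  obtain ⟨X', ⟨h1, h2, h3, h4⟩, hmax⟩ :=
    hfin.exists_maximalFor (fun Y : Subgroup Γ => Nat.card Y) _ ⟨X, hX, hXp, hXA, le_rfl⟩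
  have hNH : H ⊓ Nrm X' ≤ H := inf_le_left
  have hX'N : X' ≤ H ⊓ Nrm X' := le_inf h1 Subgroup.le_normalizer
  have hdvd := Subgroup.card_dvd_of_le hNH
  obtain ⟨T, hTN, hTA, hTc⟩ := exists_inv_sylow (H ⊓ Nrm X') A (s2_norm hn h3) (s2_sol hs hNH)
    (Nat.Coprime.of_dvd_left hdvd hc) p hp
  have hTp : IsPGroup p T := IsPGroup.of_card hTc
  have hTX : T ≤ Nrm X' := fun t ht => (hTN ht).2
  have hsup : IsPGroup p (T ⊔ X' : Subgroup Γ) := hTp.to_sup_of_normal_right' h2 hTX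
  have hsupA : A ≤ Nrm (T ⊔ X') := by
    refine s2_nrm fun g hg => ?_
    have h5 : (T ⊔ X') ≤ (T ⊔ X').comap (MulAut.conj g).toMonoidHom := by
      refine sup_le (fun y hy => ?_) (fun y hy => ?_)
      · exact Subgroup.mem_sup_left (s2_conj (hTA hg) hy)
      · exact Subgroup.mem_sup_right (s2_conj (h3 hg) hy)
    exact fun y hy => h5 hy
  have hle : X' ≤ T ⊔ X' := le_sup_right
  have hcard : Nat.card (T ⊔ X' : Subgroup Γ) ≤ Nat.card X' :=
    hmax ⟨sup_le (hTN.trans hNH) h1, hsup, hsupA, h4.trans hle⟩ (Subgroup.card_le_of_le hle)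
  have hEq : X' = T ⊔ X' := Subgroup.eq_of_le_of_card_ge hle hcard
  have hTX' : T ≤ X' := by
    rw [hEq]
    exact le_sup_left
  obtain ⟨j, hj⟩ := IsPGroup.iff_card.1 h2
  have h6 := Subgroup.card_le_of_le hTX'
  have h7 := Subgroup.card_dvd_of_le hX'N
  rw [hTc, hj] at h6
  rw [hj, hp.pow_dvd_iff_le_factorization Nat.card_pos.ne'] at h7
  have h8 : (Nat.card (H ⊓ Nrm X' : Subgroup Γ)).factorization p ≤ j :=
    (Nat.pow_le_pow_iff_right hp.one_lt).1 h6
  have hjN : j = (Nat.card (H ⊓ Nrm X' : Subgroup Γ)).factorization p := le_antisymm h7 h8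
  have hjH : j ≤ (Nat.card H).factorization p := by
    have h9 := Subgroup.card_dvd_of_le h1
    rwa [hj, hp.pow_dvd_iff_le_factorization Nat.card_pos.ne'] at h9
  refine ⟨X', h1, h3, h4, ?_⟩
  rw [hj]
  congr 1
  by_contra hne
  have hlt : j + 1 ≤ (Nat.card H).factorization p := by omega
  have hd : p ^ (j + 1) ∣ Nat.card H :=
    (hp.pow_dvd_iff_le_factorization Nat.card_pos.ne').2 hlt
  have hXc : Nat.card (X'.subgroupOf H) = p ^ j := by
    rw [s2_card, inf_eq_left.2 h1, hj]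
  have h10 := Sylow.prime_pow_dvd_card_normalizer hd hXc
  rw [← Subgroup.subgroupOf_normalizer_eq h1, s2_card, inf_comm,
    hp.pow_dvd_iff_le_factorization Nat.card_pos.ne'] at h10
  have h11 : (Nat.card (H ⊓ Nrm X' : Subgroup Γ)).factorization p =
    (Nat.card (H ⊓ Subgroup.normalizer (X' : Set Γ) : Subgroup Γ)).factorization p := rfl
  omega

/-- two `A`-invariant Sylow `p`-subgroups of `H` are conjugate under `C_H(A)`.
PROOF. `T = x S x⁻¹` with `x ∈ H`. For `a ∈ A`: `(a x a⁻¹) S (a x a⁻¹)⁻¹ = T` so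
`x⁻¹ (a x a⁻¹) ∈ C := N_H(S)`. `fix_coset` for `C` (solvable, normalised by `A`) gives `c ∈ C`
such that `x c` commutes with `A`, and `T = (x c) S (x c)⁻¹`. -/
theorem inv_sylow_conj (H A S T : Subgroup Γ) (hn : A ≤ Nrm H) (hs : Group.IsSolvable H)
    (hc : (Nat.card H).Coprime (Nat.card A)) (p : ℕ) (hp : p.Prime)
    (hS : S ≤ H) (hSA : A ≤ Nrm S) (hSc : Nat.card S = p ^ (Nat.card H).factorization p)
    (hT : T ≤ H) (hTA : A ≤ Nrm T) (hTc : Nat.card T = p ^ (Nat.card H).factorization p) :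
    ∃ g ∈ H, (∀ a ∈ A, a * g = g * a) ∧ ∀ x, x ∈ T ↔ g⁻¹ * x * g ∈ S := by
  have : Fact p.Prime := ⟨hp⟩
  have hSc' : Nat.card (S.subgroupOf H) = p ^ (Nat.card H).factorization p := by
    rw [s2_card, inf_eq_left.2 hS, hSc]
  have hTc' : Nat.card (T.subgroupOf H) = p ^ (Nat.card H).factorization p := by
    rw [s2_card, inf_eq_left.2 hT, hTc]
  obtain ⟨x, hx⟩ := MulAction.exists_smul_eq H (Sylow.ofCard _ hSc') (Sylow.ofCard _ hTc')
  have hx1 : ∀ y, y ∈ T ↔ (x : Γ)⁻¹ * y * x ∈ S := by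
    have hx2 : MulAut.conj x • (S.subgroupOf H) = T.subgroupOf H := by
      have := congrArg (fun P : Sylow p H => (P : Subgroup H)) hx
      exact this
    have key : ∀ y : H, y ∈ T.subgroupOf H ↔ x⁻¹ * y * x ∈ S.subgroupOf H := by
      intro y
      rw [← hx2, Subgroup.mem_pointwise_smul_iff_inv_smul_mem]
      have h1 : (MulAut.conj x)⁻¹ • y = x⁻¹ * y * x := by
        rw [← map_inv]
        change x⁻¹ * y * x⁻¹⁻¹ = _
        rw [inv_inv]
      rw [h1]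
    intro y
    constructor
    · intro hy
      exact (key ⟨y, hT hy⟩).1 hy
    · intro hy
      have hyH : y ∈ H := by
        have h1 := hS hy
        have h2 := H.mul_mem (H.mul_mem x.2 h1) (H.inv_mem x.2)
        have h3 : (x : Γ) * ((x : Γ)⁻¹ * y * x) * (x : Γ)⁻¹ = y := by group
        rwa [h3] at h2
      exact (key ⟨y, hyH⟩).2 hy
  have hCH : H ⊓ Nrm S ≤ H := inf_le_left
  obtain ⟨k, hk, hfix⟩ := fix_coset (H ⊓ Nrm S) A (s2_norm hn hSA) (s2_sol hs hCH)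
    (Nat.Coprime.of_dvd_left (Subgroup.card_dvd_of_le hCH) hc) (x : Γ) (by
      intro a ha
      refine Subgroup.mem_inf.2 ⟨H.mul_mem (H.inv_mem x.2) (s2_conj (hn ha) x.2), ?_⟩
      rw [Subgroup.mem_normalizer_iff'']
      intro z
      have e1 : z ∈ S ↔ x * z * (x : Γ)⁻¹ ∈ T := by
        rw [hx1]
        have h1 : (x : Γ)⁻¹ * (x * z * (x : Γ)⁻¹) * x = z := by group
        rw [h1]
      have e2 : x * z * (x : Γ)⁻¹ ∈ T ↔ a⁻¹ * (x * z * (x : Γ)⁻¹) * a ∈ T :=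
        ((Subgroup.mem_normalizer_iff'').1 (hTA ha) _)
      have e3 : a⁻¹ * (x * z * (x : Γ)⁻¹) * a ∈ T ↔
          (x : Γ)⁻¹ * (a⁻¹ * (x * z * (x : Γ)⁻¹) * a) * x ∈ S := hx1 _
      have e4 : (x : Γ)⁻¹ * (a⁻¹ * (x * z * (x : Γ)⁻¹) * a) * x ∈ S ↔
          a * ((x : Γ)⁻¹ * (a⁻¹ * (x * z * (x : Γ)⁻¹) * a) * x) * a⁻¹ ∈ S :=
        ((Subgroup.mem_normalizer_iff).1 (hSA ha) _)
      have e5 : a * ((x : Γ)⁻¹ * (a⁻¹ * (x * z * (x : Γ)⁻¹) * a) * x) * a⁻¹ =
          ((x : Γ)⁻¹ * (a * x * a⁻¹))⁻¹ * z * ((x : Γ)⁻¹ * (a * x * a⁻¹)) := by group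
      rw [← e5, ← e4, ← e3, ← e2, ← e1])
  have hkS := hk.2
  refine ⟨x * k, H.mul_mem x.2 hk.1, hfix, fun y => ?_⟩
  rw [hx1, (Subgroup.mem_normalizer_iff'').1 hkS]
  have e6 : k⁻¹ * ((x : Γ)⁻¹ * y * x) * k = (x * k)⁻¹ * y * (x * k) := by group
  rw [e6]

/-- If `C_H(A)` normalises the `A`-invariant Sylow `p`-subgroup `S` of `H` then every
`A`-invariant `p`-subgroup of `H` lies in `S`. Direct from the two previous theorems. -/
theorem le_sylow_of_cent (H A S X : Subgroup Γ) (hn : A ≤ Nrm H) (hs : Group.IsSolvable H)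
    (hc : (Nat.card H).Coprime (Nat.card A)) (p : ℕ) (hp : p.Prime)
    (hS : S ≤ H) (hSA : A ≤ Nrm S) (hSc : Nat.card S = p ^ (Nat.card H).factorization p)
    (hcen : ∀ g ∈ H, (∀ a ∈ A, a * g = g * a) → g ∈ Nrm S)
    (hX : X ≤ H) (hXp : IsPGroup p X) (hXA : A ≤ Nrm X) : X ≤ S := by
  obtain ⟨T, hTH, hTA, hXT, hTc⟩ := exists_inv_sylow_ge H A X hn hs hc p hp hX hXp hXA
  obtain ⟨g, hgH, hgA, hgT⟩ := inv_sylow_conj H A S T hn hs hc p hp hS hSA hSc hTH hTA hTc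
  have hgS := hcen g hgH hgA
  intro y hy
  have h1 := (hgT y).1 (hXT hy)
  have h2 := s2_conj hgS h1
  have h3 : g * (g⁻¹ * y * g) * g⁻¹ = y := by group
  rwa [h3] at h2

end FT
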