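import Mathlib
import Pool.Agent.helper11.FT.Defs
import Pool.Agent.helper11.FT.HomBasic
import Pool.Agent.helper11.FT.Glaub
import Pool.Agent.helper11.FT.Pick

/-! # FT-TLc: the combinatorial core of section 8 of /team-store/9c6401_plan.md -/

namespace FT

universe u v

open scoped commutatorElement

private theorem tc_conj {Γ : Type u} [Group Γ] {P : Subgroup Γ} {g x : Γ} (hg : g ∈ Nrm P)
    (hx : x ∈ P) : g * x * g⁻¹ ∈ P :=
  (Subgroup.mem_normalizer_iff.1 hg x).1 hx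

private theorem tc_conj' {Γ : Type u} [Group Γ] {P : Subgroup Γ} {g x : Γ} (hg : g ∈ Nrm P)
    (hx : x ∈ P) : g⁻¹ * x * g ∈ P := by
  have h := tc_conj (inv_mem hg) hx
  rwa [inv_inv] at h

private theorem tc_nrm {Γ : Type u} [Group Γ] {P N : Subgroup Γ}
    (h : ∀ g ∈ N, ∀ x ∈ P, g * x * g⁻¹ ∈ P) : N ≤ Nrm P := by
  intro g hg
  rw [Subgroup.mem_normalizer_iff]
  intro x
  refine ⟨fun hx => h g hg x hx, fun hx => ?_⟩
  have h1 := h g⁻¹ (inv_mem hg) _ hx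
  have h2 : g⁻¹ * (g * x * g⁻¹) * g⁻¹⁻¹ = x := by group
  rwa [h2] at h1

private theorem tc_nrm_sup {Γ : Type u} [Group Γ] {P Q N : Subgroup Γ} (hP : N ≤ Nrm P)
    (hQ : N ≤ Nrm Q) : N ≤ Nrm (P ⊔ Q) := by
  refine tc_nrm fun g hg => ?_
  have h1 : P ⊔ Q ≤ (P ⊔ Q).comap (MulAut.conj g).toMonoidHom := by
    refine sup_le (fun y hy => ?_) (fun y hy => ?_)
    · exact (le_sup_left : P ≤ P ⊔ Q) (tc_conj (hP hg) hy)
    · exact (le_sup_right : Q ≤ P ⊔ Q) (tc_conj (hQ hg) hy)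
  exact fun y hy => h1 hy

/-- the elements of `M` which map `o` into its `N`-orbit -/
private def orbS {Γ : Type u} [Group Γ] {Ω : Type v} [MulAction Γ Ω] (N M : Subgroup Γ)
    (h : M ≤ Nrm N) (o : Ω) : Subgroup Γ where
  carrier := {m | m ∈ M ∧ ∃ x ∈ N, m • o = x • o}
  one_mem' := ⟨M.one_mem, 1, N.one_mem, rfl⟩
  mul_mem' := by
    rintro a b ⟨ha, x, hx, hax⟩ ⟨hb, y, hy, hby⟩
    refine ⟨M.mul_mem ha hb, a * y * a⁻¹ * x, N.mul_mem (tc_conj (h ha) hy) hx, ?_⟩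
    rw [mul_smul, hby, mul_smul, ← hax, ← mul_smul, ← mul_smul]
    congr 1
    group
  inv_mem' := by
    rintro a ⟨ha, x, hx, hax⟩
    refine ⟨M.inv_mem ha, a⁻¹ * x⁻¹ * a, tc_conj' (h ha) (N.inv_mem hx), ?_⟩
    rw [mul_smul, hax, ← mul_smul]
    congr 1
    group

private theorem mem_orbS {Γ : Type u} [Group Γ] {Ω : Type v} [MulAction Γ Ω] {N M : Subgroup Γ}
    {h : M ≤ Nrm N} {o : Ω} {m : Γ} : m ∈ orbS N M h o ↔ m ∈ M ∧ ∃ x ∈ N, m • o = x • o :=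
  Iff.rfl

/-- moving the base point inside the `N`-orbit -/
private theorem tc_move {Γ : Type u} [Group Γ] {Ω : Type v} [MulAction Γ Ω] {N : Subgroup Γ}
    {m z : Γ} (hm : m ∈ Nrm N) (hz : z ∈ N) {o : Ω} (h : ∃ x ∈ N, m • (z • o) = x • (z • o)) :
    ∃ x ∈ N, m • o = x • o := by
  obtain ⟨x, hx, hxo⟩ := h
  refine ⟨m * z⁻¹ * m⁻¹ * (x * z), N.mul_mem (tc_conj hm (N.inv_mem hz)) (N.mul_mem hx hz), ?_⟩
  rw [mul_smul, mul_smul x z, ← hxo, ← mul_smul, ← mul_smul]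
  congr 1
  group

private theorem tc_card {Γ : Type u} [Group Γ] [Finite Γ] (R E : Subgroup Γ) (hRE : R ≤ Nrm E) :
    Nat.card (R ⊔ E : Subgroup Γ) ∣ Nat.card R * Nat.card E := by
  obtain ⟨L, hL⟩ : ∃ L : Subgroup Γ, L = R ⊔ E := ⟨_, rfl⟩
  have hRL : R ≤ L := by rw [hL]; exact le_sup_left
  have hEL : E ≤ L := by rw [hL]; exact le_sup_right
  have hLn : L ≤ Nrm E := by
    rw [hL]
    exact sup_le hRE Subgroup.le_normalizer
  have hN : (E.subgroupOf L).Normal := Subgroup.normal_subgroupOf_of_le_normalizer hLn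
  have htop : R.subgroupOf L ⊔ E.subgroupOf L = ⊤ := by
    rw [← Subgroup.subgroupOf_sup hRL hEL, ← hL, Subgroup.subgroupOf_self]
  have hcR : Nat.card (R.subgroupOf L) = Nat.card R :=
    Nat.card_congr (Subgroup.subgroupOfEquivOfLe hRL).toEquiv
  have hcE : Nat.card (E.subgroupOf L) = Nat.card E :=
    Nat.card_congr (Subgroup.subgroupOfEquivOfLe hEL).toEquiv
  have hi : (E.subgroupOf L).index = (E.subgroupOf L).relIndex (R.subgroupOf L) := by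
    rw [← Subgroup.relIndex_top_right, ← htop, Subgroup.relIndex_sup_right]
  rw [← hL]
  have h1 : Nat.card L = Nat.card (E.subgroupOf L) * (E.subgroupOf L).index :=
    (Subgroup.card_mul_index _).symm
  rw [h1, hi, hcE, mul_comm (Nat.card R)]
  apply Nat.mul_dvd_mul_left
  rw [← hcR]
  exact Subgroup.relIndex_dvd_card _ _

private theorem tc_solv_aux {G : Type u} [Group G] (S N : Subgroup G) [N.Normal]
    (htop : S ⊔ N = ⊤) (hsS : Group.IsSolvable S) (hsN : Group.IsSolvable N) :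
    Group.IsSolvable G := by
  have hq : Group.IsSolvable (G ⧸ N) := by
    refine Group.isSolvable_of_surjective (f := (QuotientGroup.mk' N).comp S.subtype) ?_
    intro q
    obtain ⟨y, rfl⟩ := QuotientGroup.mk'_surjective N q
    have hy : y ∈ S ⊔ N := by
      rw [htop]
      exact Subgroup.mem_top y
    obtain ⟨a, ha, b, hb, rfl⟩ := Subgroup.mem_sup_of_normal_right.1 hy
    refine ⟨⟨a, ha⟩, ?_⟩
    have h1 : QuotientGroup.mk' N b = 1 := (QuotientGroup.eq_one_iff b).2 hb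
    rw [map_mul, h1, mul_one]
    rfl
  exact Group.isSolvable_of_ker_le_range N.subtype (QuotientGroup.mk' N) (by simp)

private theorem tc_solv {Γ : Type u} [Group Γ] [Finite Γ] (R E : Subgroup Γ) (hRE : R ≤ Nrm E)
    (hsR : Group.IsSolvable R) (hsE : Group.IsSolvable E) :
    Group.IsSolvable (R ⊔ E : Subgroup Γ) := by
  obtain ⟨L, hL⟩ : ∃ L : Subgroup Γ, L = R ⊔ E := ⟨_, rfl⟩
  have hRL : R ≤ L := by rw [hL]; exact le_sup_left
  have hEL : E ≤ L := by rw [hL]; exact le_sup_right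
  have hLn : L ≤ Nrm E := by
    rw [hL]
    exact sup_le hRE Subgroup.le_normalizer
  have hN : (E.subgroupOf L).Normal := Subgroup.normal_subgroupOf_of_le_normalizer hLn
  have htop : R.subgroupOf L ⊔ E.subgroupOf L = ⊤ := by
    rw [← Subgroup.subgroupOf_sup hRL hEL, ← hL, Subgroup.subgroupOf_self]
  have hsR' : Group.IsSolvable (R.subgroupOf L) := by
    have := hsR
    exact Group.isSolvable_of_isSolvable_injective
      (f := (Subgroup.subgroupOfEquivOfLe hRL).toMonoidHom)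
      (Subgroup.subgroupOfEquivOfLe hRL).injective
  have hsE' : Group.IsSolvable (E.subgroupOf L) := by
    have := hsE
    exact Group.isSolvable_of_isSolvable_injective
      (f := (Subgroup.subgroupOfEquivOfLe hEL).toMonoidHom)
      (Subgroup.subgroupOfEquivOfLe hEL).injective
  rw [← hL]
  obtain ⟨N, hNdef⟩ : ∃ N, N = E.subgroupOf L := ⟨_, rfl⟩
  obtain ⟨S, hSdef⟩ : ∃ S, S = R.subgroupOf L := ⟨_, rfl⟩
  rw [← hNdef] at hN hsE' htop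
  rw [← hSdef] at hsR' htop
  exact tc_solv_aux S N htop hsR' hsE'

/-- The combinatorial core of section 8, for an abstract action.
`Γ` acts on `Ω` (the functions at level `j`) and on `B` (the functions at level `i+1`). `R` an
`r`-group, `E` an `e`-group, `r ≠ e` primes, `R` normalises `E` and `E0`; `GG` normalises `R, R0, E, E0`
and has order prime to `r` and to `e`. `E/E0`, `R/R0` elementary abelian. `η ∈ Ω`. `good C β` for
subsets is encoded by a predicate: `Bad` ... see the statement.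

STATEMENT. Suppose that for every `g ∈ R ⊔ E` there is `β ∈ Hom(E/E0, F_e)` vanishing on the
stabilizer in `E` of `g • η` with `Φ β`, where `Φ` is a property of functions invariant under `R`;
let `l ∈ Hom(R/R0, F_r)` be such that `Φ β` and `x • β = β`, `x ∈ R`, imply `l x = 0`.
Then there are `β` with `Φ β` and `ω = (x e) • η`, `x ∈ R`, `e ∈ E`, such that for all `g ∈ GG`: if
`g • ω = ω` then `g • β = β` and `g • l = l`; moreover, if `x ∈ R` fixes `ω` then a conjugate (under `R`)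
of `x` fixes `β`, and if all of `E` fixes `ω` then all of `E` fixes `η`.

PROOF: section 8 of the plan. (1) `glaub` with `R ⊔ E` (solvable) and
`GG1 = {g ∈ GG | g • η ∈ (R ⊔ E) • η}`: replace `η` by a point of its `(R ⊔ E)`-orbit fixed by `GG1`.
(2) `R1 = {x ∈ R | x • η ∈ E • η}`, normalised by `GG1`; `glaub` with `E` and `R1 ⊔ GG1` (of order
prime to `e`): replace `η` by a point of `E • η` fixed by `R1` and `GG1`. (3) choose `β` for this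
`η`. (4) `GG2 = {g ∈ GG1 | g • β ∈ R1 • β}`, `glaub` for `R1`, `GG2` acting on functions: replace `β` by a
point of `R1 • β` fixed by `GG2`; it still vanishes on the stabilizer of `η` in `E`, because `R1`
fixes `η` and normalises `E`. (5) `pick` for `E`, `E0`, `M = R1 ⊔ GG1`, `η`, `β`: get `ηb ∈ E • η` with
`h • ηb = ηb ↔ h • β = β` for `h ∈ R1 ⊔ GG1`. (6) `pick` for `R`, `R0`, `M = GG2`, `ηb`, `l`: if `x ∈ R` fixes
`ηb` then `x ∈ R1`, so `x • β = β`, so `l x = 0`. Get `ω ∈ R • ηb`. (7) if `g ∈ GG` fixes `ω` then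
`g ∈ GG1`; `g • ηb = x • ηb` with `x ∈ R`, and then `x ∈ R1`, `x⁻¹ g` fixes `ηb`, so `g • β = x • β`,
`g ∈ GG2`, `g • β = β`, `g • ηb = ηb` and `g • l = l` by (6). -/
theorem tl_core {Γ : Type u} [Group Γ] [Finite Γ] {Ω : Type v} [MulAction Γ Ω]
    (r e : ℕ) [Fact r.Prime] [Fact e.Prime] (hre : r ≠ e)
    (R R0 E E0 GG : Subgroup Γ) (hR : IsPGroup r R) (hE : IsPGroup e E)
    (hR0 : R0 ≤ R) (hRR0 : R ≤ Nrm R0) (hE0 : E0 ≤ E) (hEE0 : E ≤ Nrm E0)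
    (hRE : R ≤ Nrm E) (hRE0 : R ≤ Nrm E0)
    (hGR : GG ≤ Nrm R) (hGR0 : GG ≤ Nrm R0) (hGE : GG ≤ Nrm E) (hGE0 : GG ≤ Nrm E0)
    (hGr : r.Coprime (Nat.card GG)) (hGe : e.Coprime (Nat.card GG))
    (hRpow : ∀ x ∈ R, x ^ r ∈ R0) (hRcomm : ∀ x ∈ R, ∀ y ∈ R, ⁅x, y⁆ ∈ R0)
    (hEpow : ∀ x ∈ E, x ^ e ∈ E0) (hEcomm : ∀ x ∈ E, ∀ y ∈ E, ⁅x, y⁆ ∈ E0)
    (η : Ω) (Φ : CF Γ (ZMod e) → Prop) (hΦ : ∀ β, Φ β → ∀ x ∈ R, Φ (x • β))
    (hη : ∀ g ∈ R ⊔ E, ∃ β ∈ HomOn (ZMod e) E E0, Φ β ∧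
      ∀ x ∈ E, x • (g • η) = g • η → β x = 0)
    (l : CF Γ (ZMod r)) (hl : l ∈ HomOn (ZMod r) R R0)
    (hlβ : ∀ β ∈ HomOn (ZMod e) E E0, Φ β → ∀ x ∈ R, x • β = β → l x = 0) :
    ∃ β ∈ HomOn (ZMod e) E E0, ∃ ω : Ω, ∃ g0 ∈ R ⊔ E, Φ β ∧ ω = g0 • η ∧
      (∀ g ∈ GG, g • ω = ω → g • β = β ∧ g • l = l) ∧
      (∀ x ∈ R, x • ω = ω → l x = 0) := by
  obtain ⟨nR, hnR⟩ := IsPGroup.iff_card.1 hR
  obtain ⟨nE, hnE⟩ := IsPGroup.iff_card.1 hE
  have hco : ∀ (p : ℕ) (P Q S : Subgroup Γ), p.Coprime (Nat.card S) → P ≤ Q →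
      (∃ n, Nat.card Q = p ^ n) → (Nat.card P).Coprime (Nat.card S) := by
    rintro p P Q S hc hPQ ⟨n, hn⟩
    refine Nat.Coprime.of_dvd_left (Subgroup.card_dvd_of_le hPQ) ?_
    rw [hn]
    exact Nat.Coprime.pow_left n hc
  have hsR : Group.IsSolvable R := by
    have h2 := hR.isNilpotent
    infer_instance
  have hsE : Group.IsSolvable E := by
    have h2 := hE.isNilpotent
    infer_instance
  have hsRE := tc_solv R E hRE hsR hsE
  have hcRE := tc_card R E hRE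
  have hGRE : GG ≤ Nrm (R ⊔ E) := tc_nrm_sup hGR hGE
  -- step 1
  obtain ⟨GG1, hGG1⟩ : ∃ GG1, GG1 = orbS (R ⊔ E) GG hGRE η := ⟨_, rfl⟩
  have hGG1m : ∀ m, m ∈ GG1 ↔ m ∈ GG ∧ ∃ x ∈ R ⊔ E, m • η = x • η := by
    intro m
    rw [hGG1]
    exact mem_orbS
  have hGG1le : GG1 ≤ GG := fun m hm => ((hGG1m m).1 hm).1
  have hGG1r : r.Coprime (Nat.card GG1) :=
    Nat.Coprime.of_dvd_right (Subgroup.card_dvd_of_le hGG1le) hGr
  have hGG1e : e.Coprime (Nat.card GG1) :=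
    Nat.Coprime.of_dvd_right (Subgroup.card_dvd_of_le hGG1le) hGe
  obtain ⟨g1, hg1, hfix1⟩ := glaub (R ⊔ E) GG1 (hGG1le.trans hGRE) hsRE (by
    refine Nat.Coprime.of_dvd_left hcRE ?_
    exact Nat.Coprime.mul_left (hco r R R GG1 hGG1r le_rfl ⟨nR, hnR⟩)
      (hco e E E GG1 hGG1e le_rfl ⟨nE, hnE⟩)) η (fun m hm => ((hGG1m m).1 hm).2)
  obtain ⟨η1, hη1⟩ : ∃ η1, η1 = g1 • η := ⟨_, rfl⟩
  rw [← hη1] at hfix1
  -- step 2
  obtain ⟨R1, hR1⟩ : ∃ R1, R1 = orbS E R hRE η1 := ⟨_, rfl⟩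
  have hR1m : ∀ m, m ∈ R1 ↔ m ∈ R ∧ ∃ x ∈ E, m • η1 = x • η1 := by
    intro m
    rw [hR1]
    exact mem_orbS
  have hR1R : R1 ≤ R := fun m hm => ((hR1m m).1 hm).1
  have hGG1R1 : GG1 ≤ Nrm R1 := by
    refine tc_nrm fun m hm x hx => ?_
    obtain ⟨hxR, y, hy, hxy⟩ := (hR1m x).1 hx
    refine (hR1m _).2 ⟨tc_conj (hGR (hGG1le hm)) hxR, m * y * m⁻¹,
      tc_conj (hGE (hGG1le hm)) hy, ?_⟩
    rw [mul_smul, mul_smul, mul_smul, mul_smul, hfix1 m⁻¹ (GG1.inv_mem hm), hxy]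
  have hM2E : R1 ⊔ GG1 ≤ Nrm E := sup_le (hR1R.trans hRE) (hGG1le.trans hGE)
  have hM2E0 : R1 ⊔ GG1 ≤ Nrm E0 := sup_le (hR1R.trans hRE0) (hGG1le.trans hGE0)
  have hsR1 : Group.IsSolvable R1 := by
    have h1 : IsPGroup r R1 := hR.to_le hR1R
    have h2 := h1.isNilpotent
    infer_instance
  have her : e.Coprime r :=
    (Nat.coprime_primes (Fact.out : e.Prime) (Fact.out : r.Prime)).2 (Ne.symm hre)
  have hM2c : e.Coprime (Nat.card (R1 ⊔ GG1 : Subgroup Γ)) := by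
    have hd : Nat.card (GG1 ⊔ R1 : Subgroup Γ) ∣ Nat.card GG1 * Nat.card R1 :=
      tc_card GG1 R1 hGG1R1
    rw [sup_comm]
    refine Nat.Coprime.of_dvd_right hd (Nat.Coprime.mul_right hGG1e ?_)
    refine Nat.Coprime.of_dvd_right (Subgroup.card_dvd_of_le hR1R) ?_
    rw [hnR]
    exact Nat.Coprime.pow_right nR her
  have hRG : R ⊔ GG ≤ Nrm E := sup_le hRE hGE
  have hM2orb : ∀ m ∈ R1 ⊔ GG1, ∃ x ∈ E, m • η1 = x • η1 := by
    have h1 : R1 ⊔ GG1 ≤ orbS E (R ⊔ GG) hRG η1 := by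
      refine sup_le (fun m hm => ?_) (fun m hm => ?_)
      · exact mem_orbS.2 ⟨(le_sup_left : R ≤ R ⊔ GG) (hR1R hm), ((hR1m m).1 hm).2⟩
      · exact mem_orbS.2 ⟨(le_sup_right : GG ≤ R ⊔ GG) (hGG1le hm), 1, E.one_mem, by
          rw [hfix1 m hm, one_smul]⟩
    exact fun m hm => (mem_orbS.1 (h1 hm)).2
  obtain ⟨e1, he1, hfix2⟩ := glaub E (R1 ⊔ GG1) hM2E hsE
    (hco e E E _ hM2c le_rfl ⟨nE, hnE⟩) η1 hM2orb
  obtain ⟨η2, hη2⟩ : ∃ η2, η2 = e1 • η1 := ⟨_, rfl⟩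
  rw [← hη2] at hfix2
  have he1g1 : e1 * g1 ∈ R ⊔ E :=
    (R ⊔ E).mul_mem ((le_sup_right : E ≤ R ⊔ E) he1) hg1
  have hη2' : η2 = (e1 * g1) • η := by rw [hη2, hη1, mul_smul]
  -- step 3
  obtain ⟨β0, hβ0, hΦ0, hβ0η⟩ := hη (e1 * g1) he1g1
  rw [← hη2'] at hβ0η
  -- step 4
  obtain ⟨GG2, hGG2⟩ : ∃ GG2, GG2 = orbS R1 GG1 hGG1R1 β0 := ⟨_, rfl⟩
  have hGG2m : ∀ m, m ∈ GG2 ↔ m ∈ GG1 ∧ ∃ x ∈ R1, m • β0 = x • β0 := by
    intro m
    rw [hGG2]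
    exact mem_orbS
  have hGG2le : GG2 ≤ GG1 := fun m hm => ((hGG2m m).1 hm).1
  have hGG2r : r.Coprime (Nat.card GG2) :=
    Nat.Coprime.of_dvd_right (Subgroup.card_dvd_of_le hGG2le) hGG1r
  obtain ⟨x1, hx1, hfixβ⟩ := glaub R1 GG2 (hGG2le.trans hGG1R1) hsR1
    (hco r R1 R GG2 hGG2r hR1R ⟨nR, hnR⟩) β0 (fun m hm => ((hGG2m m).1 hm).2)
  obtain ⟨β, hβdef⟩ : ∃ β, β = x1 • β0 := ⟨_, rfl⟩
  rw [← hβdef] at hfixβ
  have hx1R := hR1R hx1
  have hβ : β ∈ HomOn (ZMod e) E E0 := by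
    rw [hβdef]
    exact act_mem_HomOn (hRE hx1R) (hRE0 hx1R) hβ0
  have hΦβ : Φ β := by
    rw [hβdef]
    exact hΦ β0 hΦ0 x1 hx1R
  have hβη : ∀ y ∈ E, y • η2 = η2 → β y = 0 := by
    intro y hy hyη
    rw [hβdef, CF.act_apply]
    refine hβ0η _ (tc_conj' (hRE hx1R) hy) ?_
    have h1 : x1 • η2 = η2 := hfix2 x1 ((le_sup_left : R1 ≤ R1 ⊔ GG1) hx1)
    rw [mul_smul, mul_smul, h1, hyη, inv_smul_eq_iff, h1]
  -- step 5
  obtain ⟨-, ηb, -, ⟨y, hy, hyb⟩, -, hpb⟩ := pick e E E0 (R1 ⊔ GG1) hE hM2E hM2E0 hE0 hEE0 hEpow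
    hEcomm hM2c η2 β hβ hβη
  have hpb' : ∀ m ∈ R1 ⊔ GG1, m • ηb = ηb → m • β = β := fun m hm h => ((hpb m hm).1 h).2
  obtain ⟨z, hz⟩ : ∃ z, z = y * e1 := ⟨_, rfl⟩
  have hzE : z ∈ E := by
    rw [hz]
    exact E.mul_mem hy he1
  have hηbz : ηb = z • η1 := by rw [hyb, hη2, hz, mul_smul]
  -- step 6
  have hlη : ∀ x ∈ R, x • ηb = ηb → l x = 0 := by
    intro x hx hxη
    have hxR1 : x ∈ R1 := by
      refine (hR1m x).2 ⟨hx, tc_move (hRE hx) hzE ⟨1, E.one_mem, ?_⟩⟩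
      rw [← hηbz, hxη, one_smul]
    exact hlβ β hβ hΦβ x hx (hpb' x ((le_sup_left : R1 ≤ R1 ⊔ GG1) hxR1) hxη)
  obtain ⟨-, ω, -, ⟨w, hw, hwω⟩, -, hpω⟩ := pick r R R0 GG2 hR
    ((hGG2le.trans hGG1le).trans hGR) ((hGG2le.trans hGG1le).trans hGR0) hR0 hRR0 hRpow hRcomm
    hGG2r ηb l hl hlη
  obtain ⟨g0, hg0⟩ : ∃ g0, g0 = w * (y * (e1 * g1)) := ⟨_, rfl⟩
  have hg0m : g0 ∈ R ⊔ E := by
    rw [hg0]
    exact (R ⊔ E).mul_mem ((le_sup_left : R ≤ R ⊔ E) hw)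
      ((R ⊔ E).mul_mem ((le_sup_right : E ≤ R ⊔ E) hy) he1g1)
  have hωg0 : ω = g0 • η := by
    rw [hwω, hyb, hη2', hg0, mul_smul w, mul_smul y]
  refine ⟨β, hβ, ω, g0, hg0m, hΦβ, hωg0, ?_, ?_⟩
  · intro g hg hgω
    -- step 7
    have hgG1 : g ∈ GG1 := by
      refine (hGG1m g).2 ⟨hg, tc_move (hGRE hg) hg0m ⟨1, (R ⊔ E).one_mem, ?_⟩⟩
      rw [← hωg0, hgω, one_smul]
    obtain ⟨x, hx, hgx⟩ : ∃ x ∈ R, g • ηb = x • ηb := by
      refine tc_move (hGR hg) hw ⟨1, R.one_mem, ?_⟩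
      rw [← hwω, hgω, one_smul]
    have hxR1 : x ∈ R1 := by
      refine (hR1m x).2 ⟨hx, tc_move (hRE hx) hzE ⟨g * z * g⁻¹ * z⁻¹,
        E.mul_mem (tc_conj (hGE hg) hzE) (E.inv_mem hzE), ?_⟩⟩
      rw [← hηbz, ← hgx, hηbz, ← mul_smul, ← mul_smul]
      have h1 : g * z * g⁻¹ * z⁻¹ * z = g * z * g⁻¹ := by group
      rw [h1, mul_smul _ g⁻¹, hfix1 g⁻¹ (GG1.inv_mem hgG1)]
    have hxg : (x⁻¹ * g) • ηb = ηb := by
      rw [mul_smul, hgx, inv_smul_smul]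
    have hxgβ : (x⁻¹ * g) • β = β :=
      hpb' _ ((R1 ⊔ GG1).mul_mem ((le_sup_left : R1 ≤ R1 ⊔ GG1) (R1.inv_mem hxR1))
        ((le_sup_right : GG1 ≤ R1 ⊔ GG1) hgG1)) hxg
    have hgβ : g • β = x • β := by
      rw [mul_smul, inv_smul_eq_iff] at hxgβ
      exact hxgβ
    have hgG2 : g ∈ GG2 := by
      refine (hGG2m g).2 ⟨hgG1, tc_move (hGG1R1 hgG1) hx1 ⟨x, hxR1, ?_⟩⟩
      rw [← hβdef, hgβ]
    exact ⟨hfixβ g hgG2, ((hpω g hgG2).1 hgω).2⟩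
  · intro x hx hxω
    have h1 : l (w⁻¹ * x * w) = 0 := by
      refine hlη _ (R.mul_mem (R.mul_mem (R.inv_mem hw) hx) hw) ?_
      rw [mul_smul, mul_smul, ← hwω, hxω, hwω, inv_smul_smul]
    have h2 := HomOn.conj hl (R.inv_mem hw) hx
    rw [inv_inv] at h2
    rw [← h2]
    exact h1

end FT
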