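import Mathlib
import Pool.Agent.helper11.FT.Defs
import Pool.Agent.helper11.FT.HomBasic
import Pool.Agent.helper11.FT.Glaub
import Pool.Agent.helper11.FT.Pick
import Pool.Agent.helper11.FT.Tower
import Pool.Agent.helper11.FT.TS0
import Pool.Agent.helper11.FT.TSs
import Pool.Agent.helper11.FT.TS
import Pool.Agent.helper11.FT.TS2
import Pool.Agent.helper11.FT.TS3
import Pool.Agent.helper11.FT.NpB
import Pool.Agent.helper11.FT.GoodL
import Pool.Agent.helper11.FT.RadB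
import Pool.Agent.helper11.FT.Compat
import Pool.Agent.helper11.FT.OL
import Pool.Agent.helper11.FT.Iso
import Pool.Agent.helper11.FT.TLc

/-! # FT-TL: jumping over a run of special levels (section 8 of /team-store/9c6401_plan.md) -/

namespace FT

universe u v

open scoped commutatorElement

namespace Tower

variable {Γ : Type u} [Group Γ] [Finite Γ] (T : Tower Γ)

/-- the group `GG` of (TL) -/
private theorem tl_GG (i : ℕ) (hi : i < T.n) : ∃ GG : Subgroup Γ, T.Y ≤ GG ∧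
    GG ≤ Nrm (T.P i) ∧ GG ≤ Nrm (T.Q i) ∧ GG ≤ Nrm (T.P (i + 1)) ∧ GG ≤ Nrm (T.D (i + 1)) ∧
    (T.p i).Coprime (Nat.card GG) ∧ (T.p (i + 1)).Coprime (Nat.card GG) ∧
    (T.p i ≠ T.p 0 → T.p (i + 1) ≠ T.p 0 → T.Np i ≤ GG) := by
  have hi1 : i + 1 ≤ T.n := hi
  by_cases h : T.p i ≠ T.p 0 ∧ T.p (i + 1) ≠ T.p 0
  · have h1 := T.Np_nrm i i le_rfl hi.le
    have h2 := T.Np_nrm i (i + 1) (Nat.le_succ i) hi1
    exact ⟨T.Np i ⊔ T.Y, le_sup_right, sup_le h1.1 (T.hY i hi.le),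
      sup_le h1.2.1 (T.Y_nrm_Q i hi.le), sup_le h2.1 (T.hY (i + 1) hi1),
      sup_le h2.2.2.1 (T.Y_nrm_D (i + 1) hi1),
      T.card_Np_sup_Y i hi.le _ (T.hp i hi.le) h.1 (T.cop i hi.le),
      T.card_Np_sup_Y i hi.le _ (T.hp (i + 1) hi1) h.2 (T.cop (i + 1) hi1),
      fun _ _ => le_sup_left⟩
  · exact ⟨T.Y, le_rfl, T.hY i hi.le, T.Y_nrm_Q i hi.le, T.hY (i + 1) hi1,
      T.Y_nrm_D (i + 1) hi1, T.cop i hi.le, T.cop (i + 1) hi1, fun h1 h2 => absurd ⟨h1, h2⟩ h⟩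

/-- (TL). PROOF: section 8 of the plan, from `tl_core` with `R = P i`, `R0 = Q i`, `E = P (i+1)`,
`E0 = D (i+1)`, `GG = Np i ⊔ Y` (if `p i, p (i+1) ≠ p 0`) or `Y`, `Ω = CF Γ (ZMod (p j))`,
`η` from `iso` for a compatible `l'` at level `i+1` (`exists_compat`), `Φ β := β ∈ H (i+1)` and
`avg (ker l) β ≠ 0`; the hypothesis `hη`: for `g ∈ R ⊔ E` the stabilizer of `g • η` in `E` is
`g (stabilizer of η) g⁻¹`, still `l'`-isotropic as `g` fixes `l'` (`smul_l`); `compat_beta`.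
`hlβ`: `m_eq_zero_of_fix`. Then `Yst ω < Yst l` by `goodG` for the function `avg (ker l) β`, and `ω` is good:
if `p i = p 0` and `P i` fixes `ω`, then `l = 0` by the last claim of `tl_core`; if
`p (i+1) = p 0` and `E` fixes `ω` then (as `E` is normal in `R ⊔ E`) `E` fixes `η`, so `l'` vanishes on
all commutators of `P (i+1)`, so `l' = 0` on `D (i+1)`; otherwise `Np i ≤ GG` fixes `l`. -/
theorem TL (i j : ℕ) (hij : i + 1 < j) (hj : j < T.n) (hab : T.Ab i)
    (hsp : ∀ l, i < l → l < j → ¬ T.Ab l) (habj : T.Ab j)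
    (l : CF Γ (ZMod (T.p i))) (hl : T.Occ i l) (hg : T.Good i l) :
    ∃ ω, T.Occ j ω ∧ T.Good j ω ∧ T.Yst ω < T.Yst l := by
  have hi1 : i + 1 < T.n := hij.trans hj
  have hi : i < T.n := Nat.lt_of_succ_lt hi1
  have hFi : Fact (T.p i).Prime := ⟨T.hp i hi.le⟩
  have hFi1 : Fact (T.p (i + 1)).Prime := ⟨T.hp (i + 1) hi1.le⟩
  have hsp1 : ¬ T.Ab (i + 1) := hsp (i + 1) (Nat.lt_succ_self i) hij
  obtain ⟨l', hl', hc⟩ := T.exists_compat i hi1 hsp1 l hl
  obtain ⟨η, hη, hiso⟩ := T.iso (i + 1) j hij hj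
    (fun k hk hkj => hsp k (Nat.lt_of_succ_le hk) hkj) habj l' hl'
  have hl1 : l ∈ HomOn (ZMod (T.p i)) (T.Z i) (T.Q i) := hl.1
  have hZ : T.Z i = T.P i := T.Z_eq_of_Ab i hab
  have hlP : l ∈ HomOn (ZMod (T.p i)) (T.P i) (T.Q i) := by rw [← hZ]; exact hl1
  have hZp := T.Z_prop i hi.le
  have hHeq : T.H (i + 1) = HomOn (ZMod (T.p (i + 1))) (T.P (i + 1)) (T.D (i + 1)) :=
    HomOn_eq (T.Q_le (i + 1) hi)
  have hfixP : ∀ x ∈ T.P i, x • l = l := fun x hx => HomOn.smul_eq hlP hx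
  have hkN : ∀ g ∈ Nrm (T.Z i), g • l = l → g ∈ Nrm (kerH (T.Z i) l) := fun g hg hgl =>
    mem_nrm_kerH hl1 hg hgl
  have havg : ∀ g ∈ Nrm (T.Z i), g • l = l → ∀ β : CF Γ (ZMod (T.p (i + 1))),
      avg (ZMod (T.p (i + 1))) (kerH (T.Z i) l) (g • β) =
        g • avg (ZMod (T.p (i + 1))) (kerH (T.Z i) l) β := fun g hg hgl β =>
    avg_smul _ g (hkN g hg hgl) β
  have hPZ : T.P i ≤ Nrm (T.Z i) := hZp.2.2.2.2.2.2.2 i le_rfl
  have hgl' : ∀ g ∈ T.P i ⊔ T.P (i + 1), g • l' = l' := by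
    have h := T.smul_l i hi hsp1 l' hl'.1
    have hle : T.P i ⊔ T.P (i + 1) ≤ MulAction.stabilizer Γ l' := sup_le h.1 h.2
    exact fun g hg => hle hg
  have hgN : T.P i ⊔ T.P (i + 1) ≤ Nrm (T.P (i + 1)) :=
    sup_le (T.P_nrm_P (i + 1) i (Nat.le_succ i) hi) (T.P_nrm_P (i + 1) (i + 1) le_rfl hi)
  obtain ⟨GG, hYG, hGP, hGQ, hGP1, hGD1, hG1, hG2, hGN⟩ := tl_GG T i hi
  obtain ⟨β, hβ, ω, g0, hg0, hΦ, hω, hfix, hRl⟩ := tl_core (T.p i) (T.p (i + 1)) (T.adj i hi)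
    (T.P i) (T.Q i) (T.P (i + 1)) (T.D (i + 1)) GG (T.hP i hi.le) (T.hP (i + 1) hi)
    (T.Q_le i hi.le) (T.P_nrm_Q i i le_rfl hi.le) (T.D_le (i + 1) hi)
    (T.P_nrm_D (i + 1) (i + 1) le_rfl hi) (T.P_nrm_P (i + 1) i (Nat.le_succ i) hi)
    (T.P_nrm_D (i + 1) i (Nat.le_succ i) hi) hGP hGQ hGP1 hGD1 hG1 hG2
    (fun x hx => hZp.2.2.2.2.1 x (hZ ▸ hx))
    (fun x hx y hy => hab (Subgroup.commutator_mem_commutator hx hy))
    (T.struct i hi).2.2.2.1
    (fun x hx y hy => Subgroup.mem_sup_left (Subgroup.commutator_mem_commutator hx hy))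
    η (fun β => avg (ZMod (T.p (i + 1))) (kerH (T.Z i) l) β ≠ 0)
    (fun β hβ x hx => by
      rw [havg x (hPZ hx) (hfixP x hx) β]
      intro h
      apply hβ
      rw [← inv_smul_smul x (avg (ZMod (T.p (i + 1))) (kerH (T.Z i) l) β), h, smul_zero])
    (fun g hg => by
      obtain ⟨β, hβ, hβC, hβ0⟩ := T.compat_beta i hi hsp1 l hl1 l' hl'.1 hc
        (T.P (i + 1) ⊓ MulAction.stabilizer Γ (g • η)) inf_le_left (by
          rintro x ⟨hx, hx'⟩ y ⟨hy, hy'⟩
          have hx2 : x • g • η = g • η := hx'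
          have hy2 : y • g • η = g • η := hy'
          have hc1 : ∀ z ∈ T.P (i + 1), g⁻¹ * z * g ∈ T.P (i + 1) := fun z hz =>
            (Subgroup.mem_normalizer_iff''.1 (hgN hg) z).1 hz
          have hs : ∀ z : Γ, z • g • η = g • η → (g⁻¹ * z * g) • η = η := by
            intro z hz
            rw [mul_smul, mul_smul, hz, inv_smul_smul]
          have h1 := hiso _ (hc1 x hx) _ (hc1 y hy) (hs x hx2) (hs y hy2)
          have h2 : ⁅g⁻¹ * x * g, g⁻¹ * y * g⁆ = g⁻¹ * ⁅x, y⁆ * g := by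
            simp only [commutatorElement_def]
            group
          rw [h2] at h1
          have h3 : (g • l') ⁅x, y⁆ = l' ⁅x, y⁆ := by rw [hgl' g hg]
          rw [CF.act_apply, h1] at h3
          exact h3.symm)
      refine ⟨β, hHeq ▸ hβ, hβ0, fun x hx hx' => hβC x ⟨hx, hx'⟩⟩)
    l hlP
    (fun β hβ h0 x hx hxβ => T.m_eq_zero_of_fix i hi l hl1 β (hHeq ▸ hβ) h0 x (hZ ▸ hx) (by
      rw [← havg x (hPZ hx) (hfixP x hx) β, hxβ]))
  have hβH : β ∈ T.H (i + 1) := hHeq ▸ hβ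
  have hOcc : ∀ g ∈ T.P i ⊔ T.P (i + 1), ∀ η' : CF Γ (ZMod (T.p j)),
      T.Occ j (g • η') ↔ T.Occ j η' := by
    have hgen : ∀ k ≤ j, ∀ x ∈ T.P k, ∀ η' : CF Γ (ZMod (T.p j)),
        T.Occ j (x • η') ↔ T.Occ j η' := by
      intro k hk x hx η'
      constructor
      · intro h
        have h2 := T.occ_smul_P j hj _ h k hk x⁻¹ ((T.P k).inv_mem hx)
        rwa [inv_smul_smul] at h2
      · intro h
        exact T.occ_smul_P j hj _ h k hk x hx
    let K : Subgroup Γ :=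
      { carrier := {g | ∀ η' : CF Γ (ZMod (T.p j)), T.Occ j (g • η') ↔ T.Occ j η'}
        one_mem' := fun η' => by rw [one_smul]
        mul_mem' := fun {a b} ha hb η' => by rw [mul_smul, ha, hb]
        inv_mem' := fun {a} ha η' => by rw [← ha (a⁻¹ • η'), smul_inv_smul] }
    have hle : T.P i ⊔ T.P (i + 1) ≤ K := sup_le
      (fun x hx => hgen i ((Nat.le_succ i).trans hij.le) x hx) (fun x hx => hgen (i + 1) hij.le x hx)
    exact fun g hg => hle hg
  have hGood : T.Good j ω := by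
    by_contra hcon
    unfold TowerCore.Good at hcon
    push Not at hcon
    obtain ⟨-, -, hN⟩ := hcon
    by_cases h1 : T.p i = T.p 0
    · apply hl.2.1
      ext x
      by_cases hx : x ∈ T.P i
      · exact hRl x hx (hN x (T.Np_mono i j ((Nat.le_succ i).trans hij.le)
          (T.P_le_Np i i le_rfl h1 hx)))
      · exact hlP.1 x hx
    · by_cases h2 : T.p (i + 1) = T.p 0
      · have hE : ∀ x ∈ T.P (i + 1), x • η = η := by
          intro x hx
          have h3 : g0 * x * g0⁻¹ ∈ T.P (i + 1) :=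
            (Subgroup.mem_normalizer_iff.1 (hgN hg0) x).1 hx
          have h4 := hN _ (T.Np_mono (i + 1) j hij.le (T.P_le_Np (i + 1) (i + 1) le_rfl h2 h3))
          rw [hω, mul_smul, mul_smul, inv_smul_smul] at h4
          exact smul_left_cancel g0 h4
        have hl'1 := hl'.1
        have hZ' : T.Z (i + 1) = T.D (i + 1) := T.Z_eq_of_not_Ab (i + 1) hsp1
        have hle : T.D (i + 1) ≤ kerH (T.Z (i + 1)) l' := by
          refine sup_le ?_ ?_
          · rw [Subgroup.commutator_le]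
            intro x hx y hy
            rw [mem_kerH hl'1]
            refine ⟨?_, hiso x hx y hy (hE x hx) (hE y hy)⟩
            rw [hZ']
            exact Subgroup.mem_sup_left (Subgroup.commutator_mem_commutator hx hy)
          · intro x hx
            rw [mem_kerH hl'1]
            exact ⟨(T.Z_prop (i + 1) hi).1 hx, hl'1.2.2 x hx⟩
        apply hl'.2.1
        ext x
        by_cases hx : x ∈ T.Z (i + 1)
        · exact ((mem_kerH hl'1).1 (hle (hZ' ▸ hx))).2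
        · exact hl'1.1 x hx
      · have hNG := hGN h1 h2
        rcases hg with h | h | ⟨u, hu, hne⟩
        · exact h1 h
        · exact h2 h
        · exact hne (hfix u (hNG hu) (hN u (T.Np_mono i j ((Nat.le_succ i).trans hij.le) hu))).2
  refine ⟨ω, ?_, hGood, ?_⟩
  · rw [hω]
    exact (hOcc g0 hg0 η).2 hη
  · refine lt_of_le_of_ne ?_ ?_
    · intro y hy
      rw [T.mem_Yst] at hy ⊢
      exact ⟨hy.1, (hfix y (hYG hy.1) hy.2).2⟩
    · intro heq
      have hkP : kerH (T.Z i) l ≤ T.P i := fun x hx => hZ ▸ ((mem_kerH hl1).1 hx).1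
      have h := T.goodG i hi l hl1 hl.2.1 (avg (ZMod (T.p (i + 1))) (kerH (T.Z i) l) β)
        (avg_mem_HomOn _ (hkP.trans (T.P_nrm_P (i + 1) i (Nat.le_succ i) hi))
          (hkP.trans (T.P_nrm_Q (i + 1) i (Nat.le_succ i) hi)) hβH) hΦ
        (fun z hz hz0 => avg_fixed _ _ z ((mem_kerH hl1).2 ⟨hz, hz0⟩))
        (fun y hy hyl => by
          have h1 : y ∈ T.Yst ω := by
            rw [heq, T.mem_Yst]
            exact ⟨hy, hyl⟩
          rw [T.mem_Yst] at h1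
          rw [← havg y (hZp.2.2.2.2.2.2.1 hy) hyl β, (hfix y (hYG hy) h1.2).1])
      rcases hg with h2 | h2 | ⟨u, hu, hne⟩
      · exact h.2.1 h2
      · exact h.1 h2
      · exact hne (h.2.2.1 u hu)

end Tower

end FT
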