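import Mathlib
import Pool.Agent.helper11.FT.Defs
import Pool.Agent.helper11.FT.Tower
import Pool.Agent.helper11.FT.OL
import Pool.Agent.helper11.FT.TL
import Pool.Agent.helper11.FT.AllAb

/-! # FT-CountAb: the number of abelian levels (section 9 of /team-store/9c6401_plan.md) -/

namespace FT

universe u v

namespace Tower

variable {Γ : Type u} [Group Γ] [Finite Γ] (T : Tower Γ)

/-- If all levels are abelian then `n + 1 ≤ Ω(|Y|)` (only `OL` is needed).
PROOF. Induction on `i < n`: there is a good `l ∈ Occ i` with `Ω(|Y_l|) + (i + 1) ≤ Ω(|Y|)`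
(`start0`, `OL`; `Ω(n) = n.primeFactorsList.length` strictly decreases for proper subgroups).
For `i = n - 1`, `Y_l ≠ 1` (`Yst_ne_bot`). -/
theorem all_ab (hn : 1 ≤ T.n) (hab : ∀ i < T.n, T.Ab i) :
    T.n + 1 ≤ (Nat.card T.Y).primeFactorsList.length :=
  T.all_ab' hn hab

open Classical in
/-- the last abelian level below `i`, for `0 < i` -/
private theorem last_ab (h0 : T.Ab 0) (i : ℕ) (hi : 0 < i) :
    ∃ a, a < i ∧ T.Ab a ∧ (∀ l, a < l → l < i → ¬ T.Ab l) ∧
      Nat.count T.Ab i = Nat.count T.Ab (a + 1) := by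
  induction i with
  | zero => exact absurd hi (lt_irrefl 0)
  | succ i ih =>
    by_cases h : T.Ab i
    · exact ⟨i, Nat.lt_succ_self i, h, fun l h1 h2 => absurd h1 (by omega), rfl⟩
    · have hi0 : 0 < i := by
        rcases Nat.eq_zero_or_pos i with h1 | h1
        · subst h1; exact absurd h0 h
        · exact h1
      obtain ⟨a, ha, hab, hs, hc⟩ := ih hi0
      refine ⟨a, ha.trans (Nat.lt_succ_self i), hab, fun l h1 h2 => ?_, ?_⟩
      · rcases Nat.lt_succ_iff_lt_or_eq.1 h2 with h3 | h3
        · exact hs l h1 h3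
        · rw [h3]; exact h
      · rw [Nat.count_succ, if_neg h, add_zero, hc]

open Classical in
private theorem count_ab_inv (h0 : T.Ab 0) (i : ℕ) (hi : i < T.n) (hab : T.Ab i) :
    ∃ l, T.Occ i l ∧ T.Good i l ∧
      (Nat.card (T.Yst l)).primeFactorsList.length + Nat.count T.Ab (i + 1) ≤
        (Nat.card T.Y).primeFactorsList.length := by
  induction i using Nat.strong_induction_on with
  | _ i ih =>
    rcases Nat.eq_zero_or_pos i with h | h
    · subst h
      obtain ⟨l, hl, hg, hlt⟩ := T.start0 hi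
      refine ⟨l, hl, hg, ?_⟩
      have h1 := omega_lt hlt
      rw [Nat.count_succ, Nat.count_zero, if_pos h0]
      omega
    · obtain ⟨a, ha, haab, hs, hc⟩ := T.last_ab h0 i h
      obtain ⟨l, hl, hg, h1⟩ := ih a ha (ha.trans hi) haab
      have hcnt : Nat.count T.Ab (i + 1) = Nat.count T.Ab (a + 1) + 1 := by
        rw [Nat.count_succ, if_pos hab, hc]
      rcases Nat.lt_or_ge (a + 1) i with h2 | h2
      · obtain ⟨ω, hω, hgω, hlt⟩ := T.TL a i h2 hi haab hs hab l hl hg
        have h3 := omega_lt hlt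
        exact ⟨ω, hω, hgω, by omega⟩
      · have h4 : i = a + 1 := by omega
        subst h4
        obtain ⟨ω, hω, hgω, hlt⟩ := T.OL a hi haab hab l hl hg
        have h3 := omega_lt hlt
        exact ⟨ω, hω, hgω, by omega⟩

/-- In general the number `t` of abelian levels among `0..n-1` satisfies `t + 1 ≤ Ω(|Y|)`.
PROOF. For every abelian level `i < n` there is a good `l ∈ Occ i` with
`Ω(|Y_l|) + #{i' ≤ i abelian} ≤ Ω(|Y|)`: strong induction on `i`, `i = 0`: `start0`. `i > 0`: let `i'` be
the last abelian level before `i` (level `0` is abelian by `level0`); `OL` if `i = i' + 1`,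
`TL` otherwise. -/
theorem count_ab (hn : 1 ≤ T.n) :
    Nat.card {i : ℕ // i < T.n ∧ T.Ab i} + 1 ≤ (Nat.card T.Y).primeFactorsList.length := by
  classical
  have h0 : T.Ab 0 := T.level0.1
  obtain ⟨a, ha, hab, -, hc⟩ := T.last_ab h0 T.n hn
  obtain ⟨l, hl, hg, h1⟩ := T.count_ab_inv h0 a ha hab
  have h2 := omega_pos (T.Yst_ne_bot a ha l hl hg)
  have h3 : Nat.card {i : ℕ // i < T.n ∧ T.Ab i} = Nat.count T.Ab T.n := by
    rw [Nat.count_eq_card_filter_range]
    exact Nat.subtype_card _ fun x => by rw [Finset.mem_filter, Finset.mem_range]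
  rw [h3]
  have h4 : Nat.count T.Ab T.n = Nat.count T.Ab (a + 1) := by
    convert hc
  have h5 : Nat.count T.Ab (a + 1) + (Nat.card (T.Yst l)).primeFactorsList.length ≤
      (Nat.card T.Y).primeFactorsList.length := by
    rw [add_comm]
    convert h1
  omega

end Tower

end FT
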