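import Mathlib
import Pool.Agent.helper11.FT.Defs
import Pool.Agent.helper11.FT.Bd
import Pool.Agent.helper11.FT.Tower
import Pool.Agent.helper11.FT.TS0
import Pool.Agent.helper11.FT.TS
import Pool.Agent.helper11.FT.TS3
import Pool.Agent.helper11.FT.Kst
import Pool.Agent.helper11.FT.Key
import Pool.Agent.helper11.FT.CountAb

/-! # FT-Run: runs of special levels and the bound for the length of a tower, (10.8) of
/team-store/9c6401_plan.md -/

namespace FT

universe u v

/-- `Ω(|H|) < Ω(|K|)` for a proper subgroup `H` of `K` -/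
private theorem run_omega_lt {Γ : Type u} [Group Γ] [Finite Γ] {H K : Subgroup Γ} (h : H < K) :
    (Nat.card H).primeFactorsList.length < (Nat.card K).primeFactorsList.length := by
  obtain ⟨m, hm⟩ := Subgroup.card_dvd_of_le h.le
  have hH : Nat.card H ≠ 0 := Nat.card_pos.ne'
  have hK : Nat.card K ≠ 0 := Nat.card_pos.ne'
  have hm0 : m ≠ 0 := by
    rintro rfl
    exact hK (by rw [hm, mul_zero])
  have hm1 : m ≠ 1 := by
    rintro rfl
    rw [mul_one] at hm
    exact h.ne (Subgroup.eq_of_le_of_card_ge h.le hm.le)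
  rw [← ArithmeticFunction.cardFactors_apply, ← ArithmeticFunction.cardFactors_apply, hm,
    ArithmeticFunction.cardFactors_mul hH hm0]
  have h1 : 0 < ArithmeticFunction.cardFactors m := by
    rw [ArithmeticFunction.cardFactors_apply, List.length_pos_iff]
    intro h2
    rcases (Nat.primeFactorsList_eq_nil _).1 h2 with h3 | h3
    · exact hm0 h3
    · exact hm1 h3
  omega

private theorem run_omega_le {Γ : Type u} [Group Γ] [Finite Γ] {H K : Subgroup Γ} (h : H ≤ K) :
    (Nat.card H).primeFactorsList.length ≤ (Nat.card K).primeFactorsList.length := by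
  rcases h.eq_or_lt with h1 | h1
  · rw [h1]
  · exact (run_omega_lt h1).le

/-- arithmetic of one step: indices of the radicals strictly increase -/
private theorem run_arith {a r a' r' m : ℕ} (hr : 0 < r) (h : r ∣ a) (h' : r' ∣ a')
    (h1 : m * r ≤ a) (h2 : a * r' < a' * r) : (m + 1) * r' ≤ a' := by
  obtain ⟨x, rfl⟩ := h
  obtain ⟨x', rfl⟩ := h'
  have h3 : m ≤ x := by
    rw [mul_comm r x] at h1
    exact Nat.le_of_mul_le_mul_right h1 hr
  have h4 : x < x' := by
    have h5 : (r * r') * x < (r * r') * x' := by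
      calc (r * r') * x = r * x * r' := by ring
        _ < r' * x' * r := h2
        _ = (r * r') * x' := by ring
    exact Nat.lt_of_mul_lt_mul_left h5
  calc (m + 1) * r' ≤ x' * r' := Nat.mul_le_mul_right _ (by omega)
    _ = r' * x' := mul_comm _ _

namespace Tower

variable {Γ : Type u} [Group Γ] [Finite Γ] (T : Tower Γ)

private theorem run_stateA (c d : ℕ) (hc : 1 ≤ c) (hd : d < T.n)
    (hsp : ∀ i, c ≤ i → i ≤ d → ¬ T.Ab i) (j : ℕ) (hj : c + j ≤ d) :
    ∃ l, T.Occ (c + j) l ∧ T.GoodC (c + j) l ∧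
      (j + 1) * Nat.card (T.Rad (c + j) l) ≤ Nat.card (T.P (c + j)) := by
  induction j with
  | zero =>
    have hab : ¬ T.Ab c := hsp c le_rfl hj
    obtain ⟨l, hl, hg⟩ := T.exists_goodC c hc (by omega) hab
    refine ⟨l, hl, hg, ?_⟩
    rw [zero_add, one_mul]
    have h1 : T.Rad c l ≤ T.P c := (T.Rad_prop c (by omega) hab l hl.1).2.1
    exact Nat.le_of_dvd Nat.card_pos (Subgroup.card_dvd_of_le h1)
  | succ j ih =>
    obtain ⟨l, hl, hg, hcard⟩ := ih (by omega)
    have hi : c + j + 1 < T.n := by omega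
    have hab : ¬ T.Ab (c + j) := hsp _ (by omega) (by omega)
    have hab' : ¬ T.Ab (c + j + 1) := hsp _ (by omega) (by omega)
    obtain ⟨l', hl', hcomp⟩ := T.exists_compat (c + j) hi hab' l hl
    have hg' := T.goodC_succ (c + j) hi hab hab' l hl l' hl' hcomp hg
    have hgrow := T.grow (c + j) hi hab hab' l hl l' hl'
    refine ⟨l', hl', hg', ?_⟩
    have h1 : T.Rad (c + j) l ≤ T.P (c + j) := (T.Rad_prop _ (by omega) hab l hl.1).2.1
    have h2 : T.Rad (c + j + 1) l' ≤ T.P (c + j + 1) :=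
      (T.Rad_prop _ (by omega) hab' l' hl'.1).2.1
    exact run_arith Nat.card_pos (Subgroup.card_dvd_of_le h1)
      (Subgroup.card_dvd_of_le h2) hcard hgrow

private theorem run_stateB (k n0 : ℕ) (hk1 : 1 ≤ k)
    (hk : (Nat.card T.Y).primeFactorsList.length ≤ k)
    (hb : Bd k n0) (c d : ℕ) (hc : 1 ≤ c) (hd : d < T.n)
    (hsp : ∀ i, c ≤ i → i ≤ d → ¬ T.Ab i) (s : ℕ) (hs : n0 ^ 2 = s + 1) (j : ℕ)
    (hj : c + (s + j) + 1 ≤ d) :
    ∃ l, T.Occ (c + (s + j) + 1) l ∧ T.GoodC (c + (s + j) + 1) l ∧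
      (Nat.card (T.Kst (c + (s + j) + 1) l)).primeFactorsList.length + j ≤
        (Nat.card T.Y).primeFactorsList.length := by
  induction j with
  | zero =>
    obtain ⟨l, hl, hg, -⟩ := T.run_stateA c d hc hd hsp (s + 1) (by omega)
    refine ⟨l, hl, hg, ?_⟩
    have h1 := (T.Kst_le (c + s + 1) (by omega) (hsp _ (by omega) (by omega)) l hl).1
    have h2 : T.Yst l ≤ T.Y := inf_le_left
    exact run_omega_le (h1.trans h2)
  | succ j ih =>
    obtain ⟨l, hl, hg, hom⟩ := ih (by omega)
    obtain ⟨l0, hl0, -, hN⟩ := T.run_stateA c d hc hd hsp (s + j) (by omega)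
    have hi : c + (s + j) + 2 < T.n := by omega
    have hab : ¬ T.Ab (c + (s + j)) := hsp _ (by omega) (by omega)
    have hab' : ¬ T.Ab (c + (s + j) + 1) := hsp _ (by omega) (by omega)
    have hab'' : ¬ T.Ab (c + (s + j) + 1 + 1) := hsp _ (by omega) (by omega)
    obtain ⟨l', hl', hcomp⟩ := T.exists_compat (c + (s + j) + 1) hi hab'' l hl
    have hg' := T.goodC_succ (c + (s + j) + 1) hi hab' hab'' l hl l' hl' hcomp hg
    have hN' : n0 ^ 2 * Nat.card (T.Rad (c + (s + j)) l0) ≤ Nat.card (T.P (c + (s + j))) := by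
      refine (Nat.mul_le_mul_right _ ?_).trans hN
      omega
    have hlt := T.Kst_lt k n0 hk1 hk hb (c + (s + j)) hi hab hab' hab'' l0 hl0 hN' l hl hg l' hl'
      hcomp
    refine ⟨l', hl', hg', ?_⟩
    have h3 := run_omega_lt hlt
    have e : c + (s + (j + 1)) + 1 = c + (s + j) + 1 + 1 := rfl
    change (Nat.card (T.Kst (c + (s + j) + 1 + 1) l')).primeFactorsList.length + (j + 1) ≤ _
    omega

/-- (10.8). PROOF. `exists_goodC` gives `l_c`; by `exists_compat`, `goodC_succ` one gets by recursion,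
for every `i` with `c ≤ i ≤ d`, some `l ∈ Occ i` which is GOOD_C and with
(a) `(i - c) * |Rad i l| < |P i|` (`grow`: `|P_i|/|Rad|` strictly increases, and is `> 0`; formulate as
`|P i| ≥ (i - c + 1) |Rad i l|`), and, for `i ≥ c + n0^2 + 1`,
(b) `Ω(|Kst i l|) + (i - (c + n0^2 + 1)) ≤ Ω(|Y|)` by `Kst_lt` (with `l0` at level `i - 1` from the
recursion; keep in the induction hypothesis the pair of consecutive characters, or use that
`|Rad i l|` does not depend on `l ∈ Occ i` (`Rad_card`)). So `d - (c + n0^2 + 1) ≤ k`. -/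
theorem run_bound (k n0 : ℕ) (hk1 : 1 ≤ k) (hk : (Nat.card T.Y).primeFactorsList.length ≤ k)
    (hb : Bd k n0) (c d : ℕ) (hc : 1 ≤ c) (hcd : c ≤ d) (hd : d < T.n)
    (hsp : ∀ i, c ≤ i → i ≤ d → ¬ T.Ab i) : d ≤ c + n0 ^ 2 + k + 1 := by
  by_contra hcon
  have hn0 : n0 ^ 2 ≠ 0 := by
    have := hb.1
    positivity
  obtain ⟨s, hs⟩ := Nat.exists_eq_succ_of_ne_zero hn0
  have hs' : n0 ^ 2 = s + 1 := hs
  obtain ⟨l, -, -, h⟩ := T.run_stateB k n0 hk1 hk hb c d hc hd hsp s hs' (k + 1) (by omega)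
  omega

/-- The length of a tower. PROOF. If `n ≥ k * L` with `L = n0^2 + k + 3`, then the `k` disjoint blocks
`[j L, (j+1) L)`, `0 ≤ j < k`, of levels `< n` each contain an abelian level (level `0` is abelian by
`level0`, and `run_bound` for the other blocks: a block without abelian level is a run of `L`
special levels starting at `c = j L ≥ 1`), so there are at least `k` abelian levels, which
contradicts `count_ab`. -/
theorem length_bound (k n0 : ℕ) (hk1 : 1 ≤ k)
    (hk : (Nat.card T.Y).primeFactorsList.length ≤ k) (hb : Bd k n0) :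
    T.n < k * (n0 ^ 2 + k + 3) := by
  by_contra hcon
  have hcon' : k * (n0 ^ 2 + k + 3) ≤ T.n := not_lt.1 hcon
  set L := n0 ^ 2 + k + 3 with hL
  have hL3 : 3 ≤ L := by omega
  have hLn : L ≤ T.n := (Nat.le_mul_of_pos_left L hk1).trans hcon'
  have hn : 1 ≤ T.n := by omega
  have key : ∀ j : Fin k, ∃ i, (i < T.n ∧ T.Ab i) ∧ i / L = j := by
    intro j
    by_contra hno
    push Not at hno
    rcases Nat.eq_zero_or_pos (j : ℕ) with hj | hj
    · refine hno 0 ⟨by omega, T.level0.1⟩ ?_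
      rw [hj, Nat.zero_div]
    · have hjk : ((j : ℕ) + 1) * L ≤ T.n := (Nat.mul_le_mul_right L j.2).trans hcon'
      have hjL : ((j : ℕ) + 1) * L = j * L + L := by ring
      have hjL1 : 1 ≤ (j : ℕ) * L := Nat.mul_pos hj (by omega)
      have h1 := T.run_bound k n0 hk1 hk hb (j * L) (j * L + (L - 1)) hjL1 (by omega) (by omega)
        (fun i hi hi' hab => hno i ⟨by omega, hab⟩ (by
          rw [Nat.div_eq_iff (by omega)]
          constructor
          · omega
          · omega))
      omega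
  choose φ hφ hφ' using key
  have hfin : Finite {i : ℕ // i < T.n ∧ T.Ab i} :=
    (Set.Finite.subset (Set.finite_Iio T.n) fun i hi => hi.1 :
      Set.Finite {i : ℕ | i < T.n ∧ T.Ab i})
  have hinj : Function.Injective
      (fun j : Fin k => (⟨φ j, hφ j⟩ : {i : ℕ // i < T.n ∧ T.Ab i})) := by
    intro a b hab
    have h1 : φ a = φ b := congrArg Subtype.val hab
    have h2 : ((a : ℕ)) = b := by
      rw [← hφ' a, ← hφ' b, h1]
    exact Fin.ext h2
  have h1 := Nat.card_le_card_of_injective _ hinj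
  rw [Nat.card_fin] at h1
  have h2 := T.count_ab hn
  omega

/-- If `n ≥ 1` then `Y ≠ 1`; `k ≥ 1`. If `n = 0`: `C_{P_0}(Y) = 1`, `P_0 ≠ 1`, so `Y ≠ 1`.
PROOF. If `|Y| = 1` then every `x ∈ P 0` commutes with `Y`, so `x = 1` by `W1`, `P 0 ≤ Q 0`. -/
theorem one_le_omega : 1 ≤ (Nat.card T.Y).primeFactorsList.length := by
  by_contra hcon
  have h0 : (Nat.card T.Y).primeFactorsList = [] := by
    rw [← List.length_eq_zero_iff]
    omega
  have hY1 : Nat.card T.Y = 1 := by
    rcases (Nat.primeFactorsList_eq_nil _).1 h0 with h | h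
    · exact absurd h Nat.card_pos.ne'
    · exact h
  have hY : T.Y = ⊥ := Subgroup.card_eq_one.1 hY1
  refine T.T1 0 (Nat.zero_le _) fun x hx => ?_
  have hx1 : x = 1 := by
    refine T.W1 0 (Nat.zero_le _) rfl x hx fun y hy => ?_
    rw [hY, Subgroup.mem_bot] at hy
    rw [hy, one_mul, mul_one]
  rw [hx1]
  exact one_mem _

end Tower

end FT
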