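import Mathlib
import Pool.Agent.helper11.FT.Defs
import Pool.Agent.helper11.FT.Bd
import Pool.Agent.helper11.FT.Bd2
import Pool.Agent.helper11.FT.SecRep
import Pool.Agent.helper11.FT.Tower
import Pool.Agent.helper11.FT.TS0
import Pool.Agent.helper11.FT.TSs
import Pool.Agent.helper11.FT.TS
import Pool.Agent.helper11.FT.TS2
import Pool.Agent.helper11.FT.TS3
import Pool.Agent.helper11.FT.RadB
import Pool.Agent.helper11.FT.SimpleDat
import Pool.Agent.helper11.FT.Kst
import Pool.Agent.helper11.FT.Key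
import Pool.Agent.helper11.FT.CountAb
import Pool.Agent.helper11.FT.Run

/-! # FT-Run2: exponential growth and the improved bound for the length of a tower -/

namespace FT

universe u v

open scoped commutatorElement

namespace TowerCore

variable {Γ : Type u} [Group Γ] [Finite Γ] (T : TowerCore Γ)

/-- `P i` normalises the radical of a special level `i+1` -/
private theorem g2_nrm (i : ℕ) (hi : i + 1 < T.n) (hsp' : ¬ T.Ab (i + 1))
    (l : CF Γ (ZMod (T.p (i + 1)))) (hl : T.Occ (i + 1) l) :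
    T.P i ≤ Nrm (T.Rad (i + 1) l) := by
  have hi1 : i + 1 ≤ T.n := hi.le
  obtain ⟨_, _, _, _, _, _, _, hZj⟩ := T.Z_prop (i + 1) hi1
  intro g hg
  have hgP : g ∈ Nrm (T.P (i + 1)) := T.hN i (i + 1) (Nat.lt_succ_self i) hi1 hg
  have hgQ : g ∈ Nrm (T.Q (i + 1)) := T.P_nrm_Q (i + 1) i (Nat.le_succ i) hi1 hg
  have hgZ : g ∈ Nrm (T.Z (i + 1)) := hZj i (Nat.le_succ i) hg
  have hgl : g • l = l := by
    refine HomOn.smul_eq_of_comm hl.1 hgZ fun w hw => hl.1.2.2 _ ?_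
    have h1 : ⁅g, w⁆ ∈ ⁅T.P i, T.Z (i + 1)⁆ := Subgroup.commutator_mem_commutator hg hw
    rw [Subgroup.commutator_comm] at h1
    exact T.Z_special i (by omega) hsp' h1
  rw [Subgroup.mem_normalizer_iff]
  intro x
  have h2 := T.Rad_smul (i + 1) hi1 hsp' l hl.1 g hgP hgQ x
  rwa [hgl] at h2

/-- the growth of the index of the radical, (10.2) and (10.3) -/
theorem grow2 (i : ℕ) (hi : i + 1 < T.n) (hsp : ¬ T.Ab i) (hsp' : ¬ T.Ab (i + 1))
    (l0 : CF Γ (ZMod (T.p i))) (hl0 : T.Occ i l0)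
    (l : CF Γ (ZMod (T.p (i + 1)))) (hl : T.Occ (i + 1) l) :
    ∃ m : ℕ, Nat.card (T.P i) ≤ m ^ 2 * Nat.card (T.Rad i l0) ∧
      3 ^ m * Nat.card (T.Rad (i + 1) l) ≤ Nat.card (T.P (i + 1)) := by
  classical
  have hi1 : i + 1 ≤ T.n := hi.le
  have hq : Fact (T.p (i + 1)).Prime := ⟨T.hp (i + 1) hi1⟩
  obtain ⟨_, hRP, hPR, hRpow, hRcomm⟩ := T.Rad_prop (i + 1) hi1 hsp' l hl.1
  have hP : T.P i ≤ Nrm (T.P (i + 1)) := T.hN i (i + 1) (Nat.lt_succ_self i) hi1
  have hQ : T.P i ≤ Nrm (T.Rad (i + 1) l) := T.g2_nrm i hi hsp' l hl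
  have hcard := card_HomOn (T.p (i + 1)) (T.P (i + 1)) (T.Rad (i + 1) l) hRP hPR hRpow hRcomm
  have hRne := T.Rad_ne (i + 1) hi1 hsp' l hl.1 hl.2.1
  have hRpos : 0 < Nat.card (T.Rad (i + 1) l) := Nat.card_pos
  have hRlt : Nat.card (T.Rad (i + 1) l) < Nat.card (T.P (i + 1)) := by
    have h1 : (T.Rad (i + 1) l : Set Γ) ⊂ (T.P (i + 1) : Set Γ) :=
      lt_of_le_of_ne hRP fun h => hRne (SetLike.coe_injective h)
    exact Set.ncard_lt_ncard h1 (Set.toFinite _)
  have hne : (⊤ : Submodule (ZMod (T.p (i + 1)))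
      (HomOn (ZMod (T.p (i + 1))) (T.P (i + 1)) (T.Rad (i + 1) l))) ≠ ⊥ := by
    intro h
    have h1 : Subsingleton (HomOn (ZMod (T.p (i + 1))) (T.P (i + 1)) (T.Rad (i + 1) l)) := by
      refine ⟨fun a b => ?_⟩
      have ha : a ∈ (⊤ : Submodule (ZMod (T.p (i + 1)))
        (HomOn (ZMod (T.p (i + 1))) (T.P (i + 1)) (T.Rad (i + 1) l))) := trivial
      have hb : b ∈ (⊤ : Submodule (ZMod (T.p (i + 1)))
        (HomOn (ZMod (T.p (i + 1))) (T.P (i + 1)) (T.Rad (i + 1) l))) := trivial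
      rw [h, Submodule.mem_bot] at ha hb
      rw [ha, hb]
    have h2 : Nat.card (HomOn (ZMod (T.p (i + 1))) (T.P (i + 1)) (T.Rad (i + 1) l)) = 1 :=
      Nat.card_unique
    rw [h2, one_mul] at hcard
    omega
  obtain ⟨S, -, hS⟩ := exists_simple
    (secRep (ZMod (T.p (i + 1))) (T.P (i + 1)) (T.Rad (i + 1) l) (T.P i) hP hQ)
    ((T.P i).subgroupOf (T.P i)) ⊤ (fun _ _ _ _ => trivial) hne
  obtain ⟨m, f, h3, -, hSc, hle, -⟩ := T.simple_dat i hi hsp hsp' l0 hl0 l hl (T.P i) le_rfl hP hQ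
    S hS
  have h4 : Nat.card S ≤
      Nat.card (HomOn (ZMod (T.p (i + 1))) (T.P (i + 1)) (T.Rad (i + 1) l)) :=
    Nat.card_le_card_of_injective (fun x : S => (x : HomOn _ _ _)) Subtype.val_injective
  refine ⟨m, hle, ?_⟩
  calc 3 ^ m * Nat.card (T.Rad (i + 1) l)
      ≤ Nat.card (HomOn (ZMod (T.p (i + 1))) (T.P (i + 1)) (T.Rad (i + 1) l)) *
          Nat.card (T.Rad (i + 1) l) := by
        refine Nat.mul_le_mul_right _ ((Nat.pow_le_pow_left h3 m).trans ?_)
        rw [← hSc]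
        exact h4
    _ = Nat.card (T.P (i + 1)) := hcard

end TowerCore

/-- lower bounds for the indices of the radicals in a run -/
private def gB : ℕ → ℕ
  | 0 => 2
  | 1 => 9
  | 2 => 27
  | 3 => 729
  | 4 => 3 ^ 27
  | (t + 5) => 2 ^ (60 + 12 * t)

private theorem gB_step (j m : ℕ) (h : gB j ≤ m ^ 2) : gB (j + 1) ≤ 3 ^ m := by
  match j, h with
  | 0, h =>
    have h1 : 2 ≤ m ^ 2 := h
    have h2 : 2 ≤ m := by
      by_contra hc
      have : m ≤ 1 := by omega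
      interval_cases m <;> omega
    have h5 : gB (0 + 1) = 3 ^ 2 := rfl
    rw [h5]
    exact Nat.pow_le_pow_right (by norm_num) h2
  | 1, h =>
    have h1 : 9 ≤ m ^ 2 := h
    have h2 : 3 ≤ m := by
      by_contra hc
      have : m ≤ 2 := by omega
      interval_cases m <;> omega
    have h5 : gB (1 + 1) = 3 ^ 3 := rfl
    rw [h5]
    exact Nat.pow_le_pow_right (by norm_num) h2
  | 2, h =>
    have h1 : 27 ≤ m ^ 2 := h
    have h2 : 6 ≤ m := by
      by_contra hc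
      have : m ≤ 5 := by omega
      interval_cases m <;> omega
    have h5 : gB (2 + 1) = 3 ^ 6 := rfl
    rw [h5]
    exact Nat.pow_le_pow_right (by norm_num) h2
  | 3, h =>
    have h1 : 27 ^ 2 ≤ m ^ 2 := h
    have h2 : 27 ≤ m := by
      by_contra hc
      have h3 : m ≤ 26 := by omega
      have h4 : m ^ 2 ≤ 26 ^ 2 := Nat.pow_le_pow_left h3 2
      omega
    exact Nat.pow_le_pow_right (by norm_num) h2
  | 4, h =>
    have h1 : 3 ^ 27 ≤ m ^ 2 := h
    have h2 : 60 ≤ m := by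
      by_contra hc
      have h3 : m ≤ 59 := by omega
      have h4 : m ^ 2 ≤ 59 ^ 2 := Nat.pow_le_pow_left h3 2
      omega
    have h5 : gB (4 + 1) = 2 ^ 60 := rfl
    rw [h5]
    calc 2 ^ 60 ≤ 3 ^ 60 := Nat.pow_le_pow_left (by norm_num) _
      _ ≤ 3 ^ m := Nat.pow_le_pow_right (by norm_num) h2
  | (t + 5), h =>
    have h1 : 2 ^ (60 + 12 * t) ≤ m ^ 2 := h
    have h2 : 2 ^ (30 + 6 * t) ≤ m := by
      by_contra hc
      have h3 : m < 2 ^ (30 + 6 * t) := by omega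
      have h4 : m ^ 2 < (2 ^ (30 + 6 * t)) ^ 2 := Nat.pow_lt_pow_left h3 (by norm_num)
      rw [← pow_mul] at h4
      have h5 : (30 + 6 * t) * 2 = 60 + 12 * t := by ring
      rw [h5] at h4
      omega
    have h6 : gB (t + 5 + 1) = 2 ^ (60 + 12 * (t + 1)) := rfl
    rw [h6]
    have h7 : t < 2 ^ t := Nat.lt_two_pow_self
    have h8 : 2 ^ (30 + 6 * t) = 2 ^ 30 * (2 ^ t) ^ 6 := by
      rw [pow_add, ← pow_mul, mul_comm t 6]
    have h9 : 2 ^ t ≤ (2 ^ t) ^ 6 := Nat.le_self_pow (by norm_num) _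
    have h10 : 60 + 12 * (t + 1) ≤ m := by
      rw [h8] at h2
      omega
    calc 2 ^ (60 + 12 * (t + 1)) ≤ 2 ^ m := Nat.pow_le_pow_right (by norm_num) h10
      _ ≤ 3 ^ m := Nat.pow_le_pow_left (by norm_num) _

private theorem gB_big (k : ℕ) : (2 ^ 24 * k ^ 6) ^ 2 ≤ gB (Nat.log 2 k + 5) := by
  have h1 : k < 2 ^ (Nat.log 2 k + 1) := Nat.lt_pow_succ_log_self (by norm_num) k
  generalize Nat.log 2 k = t at h1
  have h2 : gB (t + 5) = 2 ^ (60 + 12 * t) := rfl
  rw [h2]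
  calc (2 ^ 24 * k ^ 6) ^ 2 = 2 ^ 48 * k ^ 12 := by ring
    _ ≤ 2 ^ 48 * (2 ^ (t + 1)) ^ 12 := Nat.mul_le_mul_left _ (Nat.pow_le_pow_left h1.le 12)
    _ = 2 ^ (60 + 12 * t) := by
      rw [← pow_mul, ← pow_add]
      congr 1
      ring

/-- `Ω(|H|) < Ω(|K|)` for a proper subgroup `H` of `K` -/
private theorem run2_omega_lt {Γ : Type u} [Group Γ] [Finite Γ] {H K : Subgroup Γ} (h : H < K) :
    (Nat.card H).primeFactorsList.length < (Nat.card K).primeFactorsList.length := by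
  obtain ⟨m, hm⟩ := Subgroup.card_dvd_of_le h.le
  have hH : Nat.card H ≠ 0 := Nat.card_pos.ne'
  have hK : Nat.card K ≠ 0 := Nat.card_pos.ne'
  have hm0 : m ≠ 0 := by
    rintro rfl
    exact hK (by rw [hm, mul_zero])
  have hm1 : m ≠ 1 := by
    rintro rfl
    rw [mul_one] at hm
    exact h.ne (Subgroup.eq_of_le_of_card_ge h.le hm.le)
  rw [← ArithmeticFunction.cardFactors_apply, ← ArithmeticFunction.cardFactors_apply, hm,
    ArithmeticFunction.cardFactors_mul hH hm0]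
  have h1 : 0 < ArithmeticFunction.cardFactors m := by
    rw [ArithmeticFunction.cardFactors_apply, List.length_pos_iff]
    intro h2
    rcases (Nat.primeFactorsList_eq_nil _).1 h2 with h3 | h3
    · exact hm0 h3
    · exact hm1 h3
  omega

private theorem run2_omega_le {Γ : Type u} [Group Γ] [Finite Γ] {H K : Subgroup Γ} (h : H ≤ K) :
    (Nat.card H).primeFactorsList.length ≤ (Nat.card K).primeFactorsList.length := by
  rcases h.eq_or_lt with h1 | h1
  · rw [h1]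
  · exact (run2_omega_lt h1).le

namespace Tower

variable {Γ : Type u} [Group Γ] [Finite Γ] (T : Tower Γ)

private theorem run2_stateA (c d : ℕ) (hc : 1 ≤ c) (hd : d < T.n)
    (hsp : ∀ i, c ≤ i → i ≤ d → ¬ T.Ab i) (j : ℕ) (hj : c + j ≤ d) :
    ∃ l, T.Occ (c + j) l ∧ T.GoodC (c + j) l ∧
      gB j * Nat.card (T.Rad (c + j) l) ≤ Nat.card (T.P (c + j)) := by
  induction j with
  | zero =>
    have hab : ¬ T.Ab c := hsp c le_rfl hj
    obtain ⟨l, hl, hg⟩ := T.exists_goodC c hc (by omega) hab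
    refine ⟨l, hl, hg, ?_⟩
    have h0 : gB 0 = 2 := rfl
    rw [h0]
    have h1 : T.Rad c l ≤ T.P c := (T.Rad_prop c (by omega) hab l hl.1).2.1
    have h2 : T.Rad c l ≠ T.P c := T.Rad_ne c (by omega) hab l hl.1 hl.2.1
    obtain ⟨x, hx⟩ := Subgroup.card_dvd_of_le h1
    have hpos : 0 < Nat.card (T.P c) := Nat.card_pos
    have hx2 : 2 ≤ x := by
      by_contra hcon
      have hx1 : x ≤ 1 := by omega
      interval_cases x
      · omega
      · exact h2 (Subgroup.eq_of_le_of_card_ge h1 (by omega))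
    have h3 : Nat.card (T.Rad c l) * 2 ≤ Nat.card (T.Rad c l) * x := Nat.mul_le_mul_left _ hx2
    change 2 * Nat.card (T.Rad c l) ≤ Nat.card (T.P c)
    omega
  | succ j ih =>
    obtain ⟨l, hl, hg, hcard⟩ := ih (by omega)
    have hi : c + j + 1 < T.n := by omega
    have hab : ¬ T.Ab (c + j) := hsp _ (by omega) (by omega)
    have hab' : ¬ T.Ab (c + j + 1) := hsp _ (by omega) (by omega)
    obtain ⟨l', hl', hcomp⟩ := T.exists_compat (c + j) hi hab' l hl
    have hg' := T.goodC_succ (c + j) hi hab hab' l hl l' hl' hcomp hg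
    obtain ⟨m, hm1, hm2⟩ := T.grow2 (c + j) hi hab hab' l hl l' hl'
    refine ⟨l', hl', hg', ?_⟩
    have h3 : gB j ≤ m ^ 2 :=
      Nat.le_of_mul_le_mul_right (hcard.trans hm1) Nat.card_pos
    exact (Nat.mul_le_mul_right _ (gB_step j m h3)).trans hm2

private theorem run2_stateB (k s : ℕ) (hk1 : 1 ≤ k)
    (hk : (Nat.card T.Y).primeFactorsList.length = k) (hs : s = Nat.log 2 k + 5)
    (c d : ℕ) (hc : 1 ≤ c) (hd : d < T.n)
    (hsp : ∀ i, c ≤ i → i ≤ d → ¬ T.Ab i) (j : ℕ)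
    (hj : c + (s + j) + 1 ≤ d) :
    ∃ l, T.Occ (c + (s + j) + 1) l ∧ T.GoodC (c + (s + j) + 1) l ∧
      T.Kst (c + (s + j) + 1) l ≠ ⊥ ∧
      (Nat.card (T.Kst (c + (s + j) + 1) l)).primeFactorsList.length + j ≤
        (Nat.card T.Y).primeFactorsList.length := by
  have hb := Bd_explicit k hk1
  have hbig : ∀ j, c + (s + j) ≤ d → ∃ l0, T.Occ (c + (s + j)) l0 ∧
      (2 ^ 24 * k ^ 6) ^ 2 * Nat.card (T.Rad (c + (s + j)) l0) ≤ Nat.card (T.P (c + (s + j))) := by
    intro j hj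
    obtain ⟨l0, hl0, -, hN⟩ := T.run2_stateA c d hc hd hsp (s + j) hj
    refine ⟨l0, hl0, (Nat.mul_le_mul_right _ ?_).trans hN⟩
    refine (gB_big k).trans ?_
    rw [hs]
    have hmono : ∀ a b : ℕ, a ≤ b → gB (a + 5) ≤ gB (b + 5) := fun a b hab => by
      change 2 ^ (60 + 12 * a) ≤ 2 ^ (60 + 12 * b)
      exact Nat.pow_le_pow_right (by norm_num) (by omega)
    have e : Nat.log 2 k + 5 + j = (Nat.log 2 k + j) + 5 := by ring
    rw [e]
    exact hmono _ _ (by omega)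
  have hKne : ∀ j, c + (s + j) + 1 ≤ d → ∀ l, T.Occ (c + (s + j) + 1) l →
      T.GoodC (c + (s + j) + 1) l → T.Kst (c + (s + j) + 1) l ≠ ⊥ := by
    intro j hj l hl hg hbot
    obtain ⟨l0, hl0, hN⟩ := hbig j (by omega)
    obtain ⟨f, hf, hf0, hfM⟩ := hl.2.2
    obtain ⟨y, hy, hyf⟩ := T.key k _ hk1 hk.le hb (c + (s + j)) (by omega) (hsp _ (by omega) (by omega))
      (hsp _ (by omega) (by omega)) l0 hl0 hN l hl hg f hf hf0 hfM
    rw [hbot, Subgroup.mem_bot] at hy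
    rw [hy, one_smul] at hyf
    exact hyf rfl
  induction j with
  | zero =>
    obtain ⟨l, hl, hg, -⟩ := T.run2_stateA c d hc hd hsp (s + 1) (by omega)
    refine ⟨l, hl, hg, hKne 0 hj l hl hg, ?_⟩
    have h1 := (T.Kst_le (c + s + 1) (by omega) (hsp _ (by omega) (by omega)) l hl).1
    have h2 : T.Yst l ≤ T.Y := inf_le_left
    exact run2_omega_le (h1.trans h2)
  | succ j ih =>
    obtain ⟨l, hl, hg, -, hom⟩ := ih (by omega)
    obtain ⟨l0, hl0, hN⟩ := hbig j (by omega)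
    have hi : c + (s + j) + 2 < T.n := by omega
    have hab : ¬ T.Ab (c + (s + j)) := hsp _ (by omega) (by omega)
    have hab' : ¬ T.Ab (c + (s + j) + 1) := hsp _ (by omega) (by omega)
    have hab'' : ¬ T.Ab (c + (s + j) + 1 + 1) := hsp _ (by omega) (by omega)
    obtain ⟨l', hl', hcomp⟩ := T.exists_compat (c + (s + j) + 1) hi hab'' l hl
    have hg' := T.goodC_succ (c + (s + j) + 1) hi hab' hab'' l hl l' hl' hcomp hg
    have hlt := T.Kst_lt k _ hk1 hk.le hb (c + (s + j)) hi hab hab' hab'' l0 hl0 hN l hl hg l' hl'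
      hcomp
    refine ⟨l', hl', hg', hKne (j + 1) hj l' hl' hg', ?_⟩
    have h3 := run2_omega_lt hlt
    change (Nat.card (T.Kst (c + (s + j) + 1 + 1) l')).primeFactorsList.length + (j + 1) ≤ _
    omega

/-- The length of a run of special levels. -/
theorem run_bound2 (k : ℕ) (hk1 : 1 ≤ k) (hk : (Nat.card T.Y).primeFactorsList.length = k)
    (c d : ℕ) (hc : 1 ≤ c) (hd : d < T.n)
    (hsp : ∀ i, c ≤ i → i ≤ d → ¬ T.Ab i) : d ≤ c + k + Nat.log 2 k + 5 := by
  by_contra hcon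
  obtain ⟨l, -, -, hne, h⟩ := T.run2_stateB k _ hk1 hk rfl c d hc hd hsp k (by omega)
  have h0 : (Nat.card (T.Kst (c + (Nat.log 2 k + 5 + k) + 1) l)).primeFactorsList = [] := by
    rw [← List.length_eq_zero_iff]
    omega
  rcases (Nat.primeFactorsList_eq_nil _).1 h0 with h1 | h1
  · exact Nat.card_pos.ne' h1
  · exact hne (Subgroup.card_eq_one.1 h1)

/-- The length of a tower. -/
theorem length_bound2 (k : ℕ) (hk : (Nat.card T.Y).primeFactorsList.length = k) :
    T.n ≤ (k - 1) * (k + Nat.log 2 k + 7) := by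
  have hk1 : 1 ≤ k := hk ▸ T.one_le_omega
  by_contra hcon
  set L := k + Nat.log 2 k + 7 with hL
  have hcon' : (k - 1) * L + 1 ≤ T.n := not_le.1 hcon
  have hL3 : 1 ≤ L := by omega
  have hn : 1 ≤ T.n := by omega
  have key : ∀ j : Fin k, ∃ i, (i < T.n ∧ T.Ab i) ∧ (i + (L - 1)) / L = j := by
    intro j
    by_contra hno
    push Not at hno
    rcases Nat.eq_zero_or_pos (j : ℕ) with hj | hj
    · refine hno 0 ⟨by omega, T.level0.1⟩ ?_
      rw [hj, Nat.div_eq_iff (by omega)]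
      omega
    · obtain ⟨t, ht⟩ : ∃ t, (j : ℕ) = t + 1 := ⟨j - 1, by omega⟩
      have hjk : (t + 1) * L ≤ (k - 1) * L := Nat.mul_le_mul_right L (by omega)
      have hjL : (t + 1) * L = t * L + L := by ring
      have h1 := T.run_bound2 k hk1 hk (t * L + 1) (t * L + L) (by omega) (by omega)
        (fun i hi hi' hab => hno i ⟨by omega, hab⟩ (by
          rw [ht, Nat.div_eq_iff (by omega)]
          constructor
          · omega
          · omega))
      omega
  choose φ hφ hφ' using key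
  have hfin : Finite {i : ℕ // i < T.n ∧ T.Ab i} :=
    (Set.Finite.subset (Set.finite_Iio T.n) fun i hi => hi.1 :
      Set.Finite {i : ℕ | i < T.n ∧ T.Ab i})
  have hinj : Function.Injective
      (fun j : Fin k => (⟨φ j, hφ j⟩ : {i : ℕ // i < T.n ∧ T.Ab i})) := by
    intro a b hab
    have h1 : φ a = φ b := congrArg Subtype.val hab
    have h2 : ((a : ℕ)) = b := by
      rw [← hφ' a, ← hφ' b, h1]
    exact Fin.ext h2
  have h1 := Nat.card_le_card_of_injective _ hinj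
  rw [Nat.card_fin] at h1
  have h2 := T.count_ab hn
  omega

end Tower

end FT
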